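import Mathlib

attribute [-instance] IsPrincipalIdealRing.of_isNoetherianRing_of_isBezout instCharZeroOfIsSemireal
  littleWedderburn Algebra.TensorProduct.instFree ContinuousSemilinearMapClass.toSemilinearMapClass
  SubmoduleClass.module Algebra.IsSeparable.isAlgebraic
  NonUnitalAlgHomClass.instSemilinearMapClassOfNonUnitalAlgSemiHomClassToMonoidHomRingHom
  MonTypeEquivalenceMon.monMonoid Module.IsNoetherian.finite CoalgHomClass.toSemilinearMapClass
  NormedSpace.toModule RKHS.instFunLike LieAlgebra.toModule RCLike.charZero_rclike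
  instNonUnitalAlgHomClassOfNonUnitalAlgEquivClass RightPreLieAlgebra.toModule
  Ideal.Quotient.semiNormedCommRing LeftPreLieAlgebra.toModule Algebra.WeaklyEtale.flat
  LieAdmissibleAlgebra.toIsScalarTower StarAlgHom.instCoeAlgHom module_finite_of_liesOver
  instNontrivialOfCharZero NormedCommRing.toCommRing NormedField.toField
  SemilinearIsometryClass.toSemilinearMapClass IdemCommSemiring.toCommSemiring
  RingHomClass.toLinearMapClassNNRat Ideal.Quotient.isScalarTower_of_liesOver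
  KleeneAlgebra.toIdemSemiring MulRingSeminormClass.toMonoidWithZeroHomClass
  IdemCommSemiring.toIdemSemiring instIsPrincipalIdealRingOfIsSemisimpleRing
  BialgHomClass.toAlgHomClass LieRinehartAlgebra.toIsScalarTower RingHomClass.toLinearMapClassRat
  OreLocalization.instDistribMulActionOfIsScalarTower RightPreLieAlgebra.toIsScalarTower
  AlgHomClass.linearMapClass IsLocalRing.ResidueField.algebraOfIsIntegral
  AlgEquiv.instCoeOutRingEquiv IsDedekindDomain.isPrincipalIdealRing Module.Flat.of_projective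
  LeftPreLieAlgebra.toIsScalarTower SetLike.GradeZero.instCommSemiring NumberField.to_charZero
  OreLocalization.instAddMonoid instIsIntegralQuotientIdeal Module.IsReflexive.to_isTorsionFree
  GrpTypeEquivalenceGrp.grpGroup ContinuousMonoidHom.instCoeOutOfMonoidHomClassOfContinuousMapClass
  EuclideanDomain.to_principal_ideal_domain topologicalRingQuotientTopology MvPolynomial.instCharZero
  SetLike.GradeZero.instSemiring BialgHomClass.toMonoidHomClass
  ValuationClass.toMonoidWithZeroHomClass AddQuantale.instAddLeftMono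
  IsDedekindDomainDvr.isDedekindDomain MulSemiringActionSemiHomClass.toDistribMulActionSemiHomClass
  NonUnitalAlgHomClass.toNonUnitalRingHomClass BialgHom.instCoeAlgHom GradedMonoid.GradeZero.smul
  LieAdmissibleAlgebra.toSMulCommClass CommMonTypeEquivalenceCommMon.commMonCommMonoid
  Bialgebra.toAlgebra CentroidHomClass.toAddMonoidHomClass Normal.toIsAlgebraic BooleanRing.toRing
  Module.IsTorsionBySet.isScalarTower Std.instLawfulBEqOrdOfLawfulOrderOrdOfLawfulOrderBEq
  MulSemiringActionSemiHomClass.toRingHomClass instCoeTOfCoeDep Ideal.instIsTwoSided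
  MulEquivClass.toMonoidWithZeroHomClass instSMulZeroClass TensorProduct.isScalarTower_right
  NormedDivisionRing.toDivisionRing Submodule.Quotient.isScalarTower
  LieAdmissibleRing.toNonUnitalNonAssocRing ValuationRing.toPreValuationRing
  SetLike.GradeZero.instMonoid RingConeClass.toSubsemiringClass RingEquivClass.toRingHomClass
  Field.instIsLocalRing TestFunctionClass.toDFunLike Torsor.toMulAction
  Algebra.IsQuadraticExtension.toFree Algebra.IsFiniteSplit.instFree CoheytingAlgebra.toOrderTop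
  SMulWithZero.toSMulZeroClass LeftPreLieAlgebra.toSMulCommClass
  instIsTorsionFreeOfIsDomainOfNoZeroSMulDivisors IsAlgClosure.isAlgebraic
  Group.IsPerfect.subsingleton_of_isMulCommutative RightPreLieAlgebra.toSMulCommClass
  ContDiffMapSupportedInClass.toDFunLike SetLike.GradeZero.instAlgebraSubtypeMemOfNat
  IsStrictOrderedRing.noZeroDivisors LieRing.toAddCommGroup RingHom.Finite.instFinite
  CommRing.Pic.instFreeOfSubsingleton instCoeHTCT HasEnoughRootsOfUnity.finite_rootsOfUnity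

section partVal

/-!
Valuation rings containing the ground field, and some commutative algebra.
-/

set_option linter.unusedSectionVars false
set_option linter.unusedVariables false

noncomputable section

namespace Pool.Agent.MP_b8b722_ag

variable {k : Type} [Field k]

/-- valuation rings of `F` containing `k` -/
def IsVal {F : Type} [Field F] [Algebra k F] (V : Subalgebra k F) : Prop :=
  ∀ x : F, x ∈ V ∨ x⁻¹ ∈ V

/-- the residue map as an algebra map -/
def resA (k O : Type) [Field k] [CommRing O] [IsLocalRing O] [Algebra k O] :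
    O →ₐ[k] IsLocalRing.ResidueField O :=
  IsScalarTower.toAlgHom k O (IsLocalRing.ResidueField O)

theorem resA_apply (O : Type) [CommRing O] [IsLocalRing O] [Algebra k O] (x : O) :
    resA k O x = IsLocalRing.residue O x := rfl

theorem resA_local (O : Type) [CommRing O] [IsLocalRing O] [Algebra k O] :
    IsLocalHom (resA k O : O →+* IsLocalRing.ResidueField O) :=
  inferInstanceAs (IsLocalHom (IsLocalRing.residue O))

theorem resA_eq_zero (O : Type) [CommRing O] [IsLocalRing O] [Algebra k O] (x : O) :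
    resA k O x = 0 ↔ ¬ IsUnit x := by
  rw [resA_apply, IsLocalRing.residue_eq_zero_iff, IsLocalRing.mem_maximalIdeal, mem_nonunits_iff]

section

variable {F : Type} [Field F] [Algebra k F] {V : Subalgebra k F}

theorem IsVal.isLocalRing (h : IsVal V) : IsLocalRing V := by
  exact inferInstanceAs (IsLocalRing (⟨V.toSubring, h⟩ : ValuationSubring F))

theorem isUnit_subalgebra (x : V) : IsUnit x ↔ (x : F) ≠ 0 ∧ (x : F)⁻¹ ∈ V := by
  constructor
  · intro h
    obtain ⟨y, hy⟩ := h.exists_right_inv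
    have h1 : (x : F) * (y : F) = 1 := congrArg Subtype.val hy
    refine ⟨left_ne_zero_of_mul_eq_one h1, ?_⟩
    rw [inv_eq_of_mul_eq_one_right h1]
    exact y.2
  · rintro ⟨h0, h1⟩
    exact IsUnit.of_mul_eq_one ⟨_, h1⟩ (Subtype.ext (mul_inv_cancel₀ h0))

theorem IsVal.exists_valuationSubring (h : IsVal V) :
    ∃ W : ValuationSubring F, ∀ x, x ∈ W ↔ x ∈ V := by
  exact ⟨⟨V.toSubring, h⟩, fun _ => Iff.rfl⟩

theorem exists_isVal_of_valuationSubring (W : ValuationSubring F)
    (h : ∀ c : k, algebraMap k F c ∈ W) : ∃ V : Subalgebra k F, IsVal V ∧ ∀ x, x ∈ V ↔ x ∈ W := by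
  exact ⟨⟨W.toSubring.toSubsemiring, h⟩, W.mem_or_inv_mem, fun _ => Iff.rfl⟩

/-- a valuation ring with given centre -/
theorem exists_isVal_center {R : Type} [CommRing R] [Algebra k R] (j : R →ₐ[k] F) (𝔮 : Ideal R)
    [𝔮.IsPrime] (h : ∀ r, j r = 0 → r ∈ 𝔮) :
    ∃ (V : Subalgebra k F) (ρ : R →ₐ[k] V), IsVal V ∧ V.val.comp ρ = j ∧
      ∀ r, IsUnit (ρ r) ↔ r ∉ 𝔮 := by
  let A : Subring F := (j : R →+* F).range
  let j' : R →+* A := (j : R →+* F).rangeRestrict
  have hs : Function.Surjective j' := RingHom.rangeRestrict_surjective _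
  have hk : RingHom.ker j' ≤ 𝔮 := fun r hr => h r (congrArg Subtype.val hr)
  have hP : (𝔮.map j').IsPrime := Ideal.map_isPrime_of_surjective hs hk
  have hmem : ∀ r, j' r ∈ 𝔮.map j' ↔ r ∈ 𝔮 := fun r => by
    rw [← Ideal.mem_comap, Ideal.comap_map_of_surjective j' hs, ← RingHom.ker_eq_comap_bot,
      sup_eq_left.2 hk]
  obtain ⟨B, hB1, hB2⟩ := (LocalSubring.ofPrime A (𝔮.map j')).exists_le_valuationSubring
  have hAB : ∀ r, j r ∈ B := fun r => hB1 (LocalSubring.le_ofPrime A _ ⟨r, rfl⟩)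
  obtain ⟨V, hV, hVB⟩ := exists_isVal_of_valuationSubring (k := k) B fun c => by
    rw [← j.commutes c]; exact hAB _
  refine ⟨V, j.codRestrict V fun r => (hVB _).2 (hAB r), hV, AlgHom.ext fun _ => rfl, fun r => ?_⟩
  rw [← hmem, ← Ideal.mem_primeCompl_iff, ← IsLocalization.AtPrime.isUnit_to_map_iff
    (LocalSubring.ofPrime A (𝔮.map j')).toSubring (𝔮.map j') (j' r),
    ← isUnit_map_iff (Subring.inclusion hB1), isUnit_subalgebra, hVB]
  constructor
  · rintro ⟨h0, h1⟩
    exact IsUnit.of_mul_eq_one ⟨_, h1⟩ (Subtype.ext (mul_inv_cancel₀ h0))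
  · intro hu
    obtain ⟨y, hy⟩ := hu.exists_right_inv
    have h1 : j r * (y : F) = 1 := congrArg Subtype.val hy
    refine ⟨left_ne_zero_of_mul_eq_one h1, ?_⟩
    change (j r)⁻¹ ∈ B
    rw [inv_eq_of_mul_eq_one_right h1]
    exact y.2

/-- valuation rings extend to field extensions -/
theorem IsVal.extend (h : IsVal V) {F' : Type} [Field F'] [Algebra k F'] (f : F →ₐ[k] F') :
    ∃ V' : Subalgebra k F', IsVal V' ∧ ∀ x, f x ∈ V' ↔ x ∈ V := by
  have := h.isLocalRing
  obtain ⟨V', ρ, hV', hρ, hu⟩ := exists_isVal_center (f.comp V.val) (IsLocalRing.maximalIdeal V)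
    fun r hr => by
      have h1 : (r : F) = 0 := (map_eq_zero f).1 hr
      rw [show r = 0 from Subtype.ext h1]
      exact zero_mem _
  have hρ' : ∀ r : V, (ρ r : F') = f r := fun r => DFunLike.congr_fun hρ r
  refine ⟨V', hV', fun x => ⟨fun hx => ?_, fun hx => ?_⟩⟩
  · by_contra hxV
    have hx0 : x ≠ 0 := fun e => hxV (e ▸ zero_mem V)
    have h1 : x⁻¹ ∈ V := (h x).resolve_left hxV
    have h2 : IsUnit (ρ ⟨x⁻¹, h1⟩) := by
      rw [isUnit_subalgebra, hρ']
      refine ⟨(map_ne_zero f).2 (inv_ne_zero hx0), ?_⟩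
      rwa [map_inv₀, inv_inv]
    rw [hu, IsLocalRing.notMem_maximalIdeal, isUnit_subalgebra, inv_inv] at h2
    exact hxV h2.2
  · rw [← hρ' ⟨x, hx⟩]
    exact (ρ ⟨x, hx⟩).2

/-- an element that lies in all valuation rings is constant -/
theorem const_of_isVal [IsAlgClosed k] {x : F} (h : ∀ V : Subalgebra k F, IsVal V → x ∈ V) :
    ∃ c : k, x = algebraMap k F c := by
  let S : Subring F := (algebraMap k F).range
  have h1 : x ∈ (integralClosure (Subring.closure (S : Set F)) F).toSubring := by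
    rw [← iInf_valuationSubring_superset, Subring.mem_iInf]
    rintro ⟨W, hW⟩
    obtain ⟨V, hV, hVW⟩ := exists_isVal_of_valuationSubring (k := k) W fun c => hW ⟨c, rfl⟩
    exact (hVW x).1 (h V hV)
  rw [Subring.closure_eq] at h1
  have h2 : IsIntegral S x := h1
  let _ : Algebra k S := (algebraMap k F).rangeRestrict.toAlgebra
  have : IsScalarTower k S F := .of_algebraMap_eq fun _ => rfl
  have : Algebra.IsIntegral k S :=
    Algebra.isIntegral_of_surjective (algebraMap k F).rangeRestrict_surjective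
  have h3 : IsIntegral k x := isIntegral_trans x h2
  obtain ⟨c, hc⟩ := minpoly.mem_range_of_degree_eq_one k x
    (IsAlgClosed.degree_eq_one_of_irreducible k (minpoly.irreducible h3))
  exact ⟨c, hc.symm⟩

/-- a valuation ring over `F` in which a given transcendental element vanishes -/
theorem valb_point {F F' : Type} [Field F] [Algebra k F] [Field F'] [Algebra k F'] [Algebra F F']
    [IsScalarTower k F F'] {t : F'} (ht : Transcendental F t) :
    ∃ (V : Subalgebra k F') (ι : F →ₐ[k] V) (u : V), IsVal V ∧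
      V.val.comp ι = IsScalarTower.toAlgHom k F F' ∧ ¬ IsUnit u ∧ (u : F') = t := by
  have hp : (Ideal.span {(Polynomial.X : Polynomial F)}).IsPrime :=
    (Ideal.span_singleton_prime Polynomial.X_ne_zero).mpr Polynomial.prime_X
  obtain ⟨V, ρ, h1, h2, h3⟩ := exists_isVal_center
    ((Polynomial.aeval t : Polynomial F →ₐ[F] F').restrictScalars k)
    (Ideal.span {(Polynomial.X : Polynomial F)}) (fun r hr => by
      rw [transcendental_iff.mp ht r hr]
      exact zero_mem _)
  have h4 : ∀ r, (ρ r : F') = Polynomial.aeval t r := fun r => AlgHom.congr_fun h2 r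
  refine ⟨V, ρ.comp (IsScalarTower.toAlgHom k F (Polynomial F)), ρ Polynomial.X, h1, ?_, ?_, ?_⟩
  · ext c
    exact (h4 (algebraMap F (Polynomial F) c)).trans (AlgHom.commutes _ c)
  · rw [h3, not_not]
    exact Ideal.mem_span_singleton_self _
  · rw [h4, Polynomial.aeval_X]

/-- The points `0` and `∞` of the projective line over `F`. The field `F'` may be taken
algebraically closed. -/
theorem exists_line (F : Type) [Field F] [Algebra k F] :
    ∃ (F' : Type) (_ : Field F') (_ : Algebra k F') (_ : IsAlgClosed F') (V₀ V₁ : Subalgebra k F')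
      (ι₀ : F →ₐ[k] V₀) (ι₁ : F →ₐ[k] V₁) (u₀ : V₀) (u₁ : V₁),
      IsVal V₀ ∧ IsVal V₁ ∧ V₀.val.comp ι₀ = V₁.val.comp ι₁ ∧ ¬ IsUnit u₀ ∧ ¬ IsUnit u₁ ∧
        (u₀ : F') * (u₁ : F') = 1 := by
  obtain ⟨F', _, _, _, t, ht⟩ : ∃ (F' : Type) (_ : Field F') (_ : Algebra F F')
      (_ : IsAlgClosed F') (t : F'), Transcendental F t :=
    ⟨AlgebraicClosure (RatFunc F), inferInstance, inferInstance, inferInstance,
      algebraMap (RatFunc F) _ RatFunc.X,
      (transcendental_algebraMap_iff (RingHom.injective _)).mpr RatFunc.transcendental_X⟩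
  have ht0 : t ≠ 0 := by
    rintro rfl
    exact ht isAlgebraic_zero
  have ht' : Transcendental F t⁻¹ := fun h => ht (IsAlgebraic.inv_iff.mp h)
  let _ : Algebra k F' := ((algebraMap F F').comp (algebraMap k F)).toAlgebra
  have _ : IsScalarTower k F F' := IsScalarTower.of_algebraMap_eq fun _ => rfl
  obtain ⟨V₀, ι₀, u₀, h1, h2, h3, h4⟩ := valb_point (k := k) ht
  obtain ⟨V₁, ι₁, u₁, h5, h6, h7, h8⟩ := valb_point (k := k) ht'
  exact ⟨F', inferInstance, inferInstance, inferInstance, V₀, V₁, ι₀, ι₁,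
    u₀, u₁, h1, h5, h2.trans h6.symm, h3, h7, by rw [h4, h8, mul_inv_cancel₀ ht0]⟩

/-- two extensions of a field embed in a common field -/
theorem valb_amalg {K F₁ F₂ : Type} [Field K] [Field F₁] [Field F₂] (l₁ : K →+* F₁)
    (l₂ : K →+* F₂) :
    ∃ (F : Type) (_ : Field F) (g₁ : F₁ →+* F) (g₂ : F₂ →+* F), ∀ a, g₁ (l₁ a) = g₂ (l₂ a) := by
  let _ := l₁.toAlgebra
  let _ := l₂.toAlgebra
  have : Nontrivial (TensorProduct K F₁ F₂) :=
    Algebra.TensorProduct.nontrivial_of_algebraMap_injective_of_isDomain K F₁ F₂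
      l₁.injective l₂.injective
  obtain ⟨m, hm⟩ := Ideal.exists_maximal (TensorProduct K F₁ F₂)
  refine ⟨TensorProduct K F₁ F₂ ⧸ m, Ideal.Quotient.field m,
    (Ideal.Quotient.mk m).comp Algebra.TensorProduct.includeLeftRingHom,
    (Ideal.Quotient.mk m).comp
      (Algebra.TensorProduct.includeRight : F₂ →ₐ[K] TensorProduct K F₁ F₂), fun a => ?_⟩
  exact congrArg (Ideal.Quotient.mk m)
    (RingHom.congr_fun Algebra.TensorProduct.includeLeftRingHom_comp_algebraMap a)

/-- two points with the same kernel become equal over a common field -/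
theorem exists_amalg {A F₁ F₂ : Type} [CommRing A] [Algebra k A] [Field F₁] [Algebra k F₁]
    [Field F₂] [Algebra k F₂] (f₁ : A →ₐ[k] F₁) (f₂ : A →ₐ[k] F₂) (h : ∀ a, f₁ a = 0 ↔ f₂ a = 0) :
    ∃ (F : Type) (_ : Field F) (_ : Algebra k F) (g₁ : F₁ →ₐ[k] F) (g₂ : F₂ →ₐ[k] F),
      g₁.comp f₁ = g₂.comp f₂ := by
  have hp : (RingHom.ker f₁).IsPrime := RingHom.ker_isPrime f₁
  have a1 : RingHom.ker f₁ ≤ RingHom.ker (f₁ : A →+* F₁) := fun a ha => ha
  have a2 : RingHom.ker f₁ ≤ RingHom.ker (f₂ : A →+* F₂) := fun a ha => (h a).mp ha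
  have b1 : (RingHom.ker f₁).primeCompl ≤ (IsUnit.submonoid F₁).comap (f₁ : A →+* F₁) :=
    fun a ha => Ne.isUnit (a := f₁ a) ha
  have b2 : (RingHom.ker f₁).primeCompl ≤ (IsUnit.submonoid F₂).comap (f₂ : A →+* F₂) :=
    fun a ha => Ne.isUnit (a := f₂ a) fun h' => ha ((h a).mpr h')
  have c1 := Ideal.ResidueField.lift_algebraMap (RingHom.ker f₁) (f₁ : A →+* F₁) a1 b1
  have c2 := Ideal.ResidueField.lift_algebraMap (RingHom.ker f₁) (f₂ : A →+* F₂) a2 b2
  obtain ⟨F, _, g₁, g₂, hg⟩ := valb_amalg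
    (Ideal.ResidueField.lift (RingHom.ker f₁) (f₁ : A →+* F₁) a1 b1)
    (Ideal.ResidueField.lift (RingHom.ker f₁) (f₂ : A →+* F₂) a2 b2)
  have hA : ∀ a, g₁ (f₁ a) = g₂ (f₂ a) := fun a => by
    have := hg (algebraMap A _ a)
    rwa [c1, c2] at this
  let _ : Algebra k F := (g₁.comp (algebraMap k F₁)).toAlgebra
  refine ⟨F, inferInstance, inferInstance, ⟨g₁, fun _ => rfl⟩, ⟨g₂, fun c => ?_⟩, ?_⟩
  · have := hA (algebraMap k A c)
    rw [AlgHom.commutes, AlgHom.commutes] at this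
    exact this.symm
  · ext a
    exact hA a

/-- embedding of an algebraic extension -/
theorem exists_embed {A Ω F : Type} [CommRing A] [Algebra k A] [Field Ω] [Algebra k Ω]
    [Field F] [Algebra k F] [IsAlgClosed F] (e : A →ₐ[k] Ω) (he : Function.Injective e)
    (halg : ∀ x : Ω, ∃ P : Polynomial A, P ≠ 0 ∧ P.eval₂ (e : A →+* Ω) x = 0)
    (f : A →ₐ[k] F) (hf : Function.Injective f) : ∃ ι : Ω →ₐ[k] F, ι.comp e = f := by
  let _ : Algebra A Ω := (e : A →+* Ω).toAlgebra
  let _ : Algebra A F := (f : A →+* F).toAlgebra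
  have : IsDomain A := Function.Injective.isDomain (e : A →+* Ω) he
  have : FaithfulSMul A Ω := (faithfulSMul_iff_algebraMap_injective A Ω).mpr he
  have : FaithfulSMul A F := (faithfulSMul_iff_algebraMap_injective A F).mpr hf
  have : Algebra.IsAlgebraic A Ω := ⟨fun x => halg x⟩
  let l : Ω →ₐ[A] F := IsAlgClosed.lift
  have hl : ∀ a, l (e a) = f a := fun a => l.commutes a
  refine ⟨⟨(l : Ω →+* F), fun c => ?_⟩, ?_⟩
  · have := hl (algebraMap k A c)
    rw [AlgHom.commutes, AlgHom.commutes] at this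
    exact this
  · ext a
    exact hl a

/-- incomparability: two maps to an algebraic extension with comparable kernels -/
theorem ker_eq_of_alg {A R Ω : Type} [CommRing A] [Algebra k A] [CommRing R] [Algebra k R]
    [Field Ω] [Algebra k Ω] (e : A →ₐ[k] Ω) (he : Function.Injective e)
    (halg : ∀ x : Ω, ∃ P : Polynomial A, P ≠ 0 ∧ P.eval₂ (e : A →+* Ω) x = 0)
    (ξ : A →ₐ[k] R) (j j' : R →ₐ[k] Ω) (hj : j.comp ξ = e) (hj' : j'.comp ξ = e)
    (h : ∀ r, j' r = 0 → j r = 0) (r : R) (hr : j r = 0) : j' r = 0 := by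
  by_contra hne
  obtain ⟨P, hP, hP'⟩ := halg (j' r)
  obtain ⟨Q, hQ, hQ'⟩ := Polynomial.exists_eq_pow_rootMultiplicity_mul_and_not_dvd P hP 0
  have hev : ∀ i : R →ₐ[k] Ω, i.comp ξ = e →
      i (Q.eval₂ (ξ : A →+* R) r) = Q.eval₂ (e : A →+* Ω) (i r) := by
    intro i hi
    rw [← hi]
    exact Polynomial.hom_eval₂ Q (ξ : A →+* R) (i : R →+* Ω) r
  have h1 : Q.eval₂ (e : A →+* Ω) (j' r) = 0 := by
    rw [hQ, Polynomial.eval₂_mul, Polynomial.eval₂_pow, Polynomial.C_0, sub_zero,
      Polynomial.eval₂_X] at hP'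
    exact (mul_eq_zero.mp hP').resolve_left (pow_ne_zero _ hne)
  have h2 := h _ ((hev j' hj').trans h1)
  rw [hev j hj, hr, Polynomial.eval₂_at_zero] at h2
  refine hQ' ?_
  rw [Polynomial.C_0, sub_zero, Polynomial.X_dvd_iff]
  exact he (h2.trans (map_zero e).symm)

/-- solutions of `x ^ q = x` are constants -/
theorem const_of_pow [IsAlgClosed k] {q : ℕ} (hq : 1 < q) {x : F} (h : x ^ q = x) :
    ∃ c : k, x = algebraMap k F c := by
  have hi : IsIntegral k x := by
    refine ⟨Polynomial.X ^ q - Polynomial.X, Polynomial.monic_X_pow_sub ?_, by simp [h]⟩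
    rw [Polynomial.degree_X]
    exact_mod_cast hq
  obtain ⟨c, hc⟩ := minpoly.mem_range_of_degree_eq_one k x
    (IsAlgClosed.degree_eq_one_of_irreducible k (minpoly.irreducible hi))
  exact ⟨c, hc.symm⟩

end

/-- representable functors: solutions of finitely or infinitely many natural equations -/
theorem exists_rep (A : Type) [CommRing A] [Algebra k A] [Algebra.FiniteType k A] (V : Type)
    [Finite V] (Eqs : Set (MvPolynomial V A)) :
    ∃ (R : Type) (_ : CommRing R) (_ : Algebra k R) (ξ : A →ₐ[k] R) (v : V → R),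
      Algebra.FiniteType k R ∧ (∀ e ∈ Eqs, MvPolynomial.eval₂ (ξ : A →+* R) v e = 0) ∧
      (∀ (S : Type) [CommRing S] [Algebra k S] (ξ' : A →ₐ[k] S) (v' : V → S),
        (∀ e ∈ Eqs, MvPolynomial.eval₂ (ξ' : A →+* S) v' e = 0) →
        ∃ ρ : R →ₐ[k] S, ρ.comp ξ = ξ' ∧ ∀ x, ρ (v x) = v' x) ∧
      Algebra.adjoin k (Set.range ξ ∪ Set.range v) = ⊤ := by
  have hev : ∀ e : MvPolynomial V A, MvPolynomial.eval₂
      ((Ideal.Quotient.mkₐ k (Ideal.span Eqs)).comp
        (IsScalarTower.toAlgHom k A (MvPolynomial V A)) :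
          A →+* MvPolynomial V A ⧸ Ideal.span Eqs)
      (fun x => Ideal.Quotient.mk (Ideal.span Eqs) (MvPolynomial.X x)) e
        = Ideal.Quotient.mk (Ideal.span Eqs) e := by
    intro e
    conv_rhs => rw [← MvPolynomial.eval₂_eta e, MvPolynomial.eval₂_comp_left]
    rfl
  refine ⟨MvPolynomial V A ⧸ Ideal.span Eqs, inferInstance, inferInstance,
    (Ideal.Quotient.mkₐ k _).comp (IsScalarTower.toAlgHom k A (MvPolynomial V A)),
    fun x => Ideal.Quotient.mk _ (MvPolynomial.X x), ?_, fun e he => ?_,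
    fun S _ _ ξ' v' hS => ?_, ?_⟩
  · exact (Algebra.FiniteType.trans (inferInstance : Algebra.FiniteType k A)
      (inferInstance : Algebra.FiniteType A (MvPolynomial V A))).of_surjective
        (Ideal.Quotient.mkₐ k _) (Ideal.Quotient.mkₐ_surjective k _)
  · rw [hev, Ideal.Quotient.eq_zero_iff_mem]
    exact Ideal.subset_span he
  · have hk : ∀ a ∈ Ideal.span Eqs, MvPolynomial.aevalTower ξ' v' a = 0 := fun a ha =>
      (Ideal.span_le (I := RingHom.ker (MvPolynomial.aevalTower ξ' v'))).mpr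
        (fun e he => hS e he) ha
    refine ⟨Ideal.Quotient.liftₐ _ (MvPolynomial.aevalTower ξ' v') hk, ?_, fun x => ?_⟩
    · ext a
      exact MvPolynomial.aevalTower_algebraMap ξ' v' a
    · exact MvPolynomial.aevalTower_X ξ' v' x
  · rw [eq_top_iff]
    intro y hy
    clear hy
    obtain ⟨y, rfl⟩ := Ideal.Quotient.mk_surjective y
    induction y using MvPolynomial.induction_on with
    | C a => exact Algebra.subset_adjoin (Or.inl ⟨a, rfl⟩)
    | add a b ha hb => rw [map_add]; exact add_mem ha hb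
    | mul_X a x ha => rw [map_mul]; exact mul_mem ha (Algebra.subset_adjoin (Or.inr ⟨x, rfl⟩))

end Pool.Agent.MP_b8b722_ag

end

end partVal

section partDom1

section partJet

/-!
Jets of polynomial rings and cotangent spaces of augmented algebras.
-/

set_option linter.unusedSectionVars false
set_option linter.unusedVariables false

open MvPolynomial

universe u

noncomputable section

namespace Pool.Agent.MP_b8b722_ag.dom

/-- polynomial ring in `N` variables -/
abbrev Lam (k : Type u) [Field k] (N : ℕ) : Type u := MvPolynomial (Fin N) k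

/-- the ideal of polynomials without constant term -/
abbrev aug (σ : Type) (k : Type u) [Field k] : Ideal (MvPolynomial σ k) :=
  RingHom.ker (constantCoeff : MvPolynomial σ k →+* k)

/-- `M`-jets -/
abbrev Jt (k : Type u) [Field k] (N M : ℕ) : Type u := Lam k N ⧸ aug (Fin N) k ^ M

variable {k : Type u} [Field k] {N : ℕ}

theorem aug_eq_span (σ : Type) : aug σ k = Ideal.span (Set.range X) := by
  ext f
  have h := mem_pow_idealOfVars_iff' (σ := σ) (R := k) 1 f
  rw [pow_one] at h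
  rw [RingHom.mem_ker, constantCoeff_eq, h]
  refine ⟨fun h0 γ hγ => ?_, fun h0 => h0 0 (by simp)⟩
  rw [(Finsupp.degree_eq_zero_iff γ).1 (by omega)]
  exact h0

/-- see `MvPolynomial.idealOfVars` and `mem_pow_idealOfVars_iff` -/
theorem mem_aug_pow {σ : Type} {M : ℕ} {f : MvPolynomial σ k} :
    f ∈ aug σ k ^ M ↔ ∀ γ ∈ f.support, M ≤ γ.degree := by
  rw [aug_eq_span]
  exact mem_pow_idealOfVars_iff M f

theorem eq_zero_of_mem_aug_pow {σ : Type} {f : MvPolynomial σ k} (h : ∀ M, f ∈ aug σ k ^ M) :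
    f = 0 := by
  ext γ
  by_contra hc
  exact Nat.not_succ_le_self _ (mem_aug_pow.1 (h (γ.degree + 1)) γ (mem_support_iff.2 hc))

theorem jet_order {σ : Type} {M : ℕ} {f : MvPolynomial σ k} :
    f ∈ aug σ k ^ M ↔ (M : ℕ∞) ≤ (f : MvPowerSeries σ k).order := by
  rw [aug_eq_span, mem_pow_idealOfVars_iff']
  refine ⟨fun h => MvPowerSeries.nat_le_order fun d hd => h d hd, fun h d hd => ?_⟩
  exact MvPowerSeries.coeff_of_lt_order (f := (f : MvPowerSeries σ k))
    (lt_of_lt_of_le (Nat.cast_lt.2 hd) h)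

/-- the product of the lowest forms is nonzero -/
theorem mul_notMem_aug_pow {σ : Type} {f g : MvPolynomial σ k} {i j : ℕ}
    (hf : f ∉ aug σ k ^ (i + 1)) (hg : g ∉ aug σ k ^ (j + 1)) :
    f * g ∉ aug σ k ^ (i + j + 1) := by
  rw [jet_order, not_le, Nat.cast_add_one, ENat.lt_add_one_iff (ENat.natCast_ne_top _)] at hf hg ⊢
  rw [coe_mul, MvPowerSeries.order_mul, Nat.cast_add]
  exact add_le_add hf hg

theorem jet_X_mem {σ : Type} (i : σ) : (X i : MvPolynomial σ k) ∈ aug σ k :=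
  constantCoeff_X k i

theorem jet_step {R : Type u} [CommRing R] {I : Ideal R} (Φ : R →+* R) (h0 : ∀ f, Φ f - f ∈ I)
    (h1 : ∀ f ∈ I, Φ f - f ∈ I ^ 2) (j : ℕ) : ∀ f ∈ I ^ j, Φ f - f ∈ I ^ (j + 1) := by
  induction j with
  | zero => intro f _; simpa using h0 f
  | succ j ih =>
    intro f hf
    rw [pow_succ] at hf
    refine Submodule.mul_induction_on hf (fun a ha b hb => ?_) fun a b ha hb => ?_
    · have e : Φ (a * b) - a * b = (Φ a - a) * (Φ b - b + b) + a * (Φ b - b) := by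
        rw [map_mul]; ring
      rw [e]
      refine add_mem ?_ ?_
      · rw [pow_succ]
        exact Ideal.mul_mem_mul (ih a ha) (add_mem (h0 b) hb)
      · rw [add_assoc, pow_add]
        exact Ideal.mul_mem_mul ha (h1 b hb)
    · have e : Φ (a + b) - (a + b) = (Φ a - a) + (Φ b - b) := by
        rw [map_add]; ring
      rw [e]
      exact add_mem ha hb

theorem jet_fix {σ : Type} {I : Ideal (MvPolynomial σ k)} (hI : I = Ideal.span (Set.range X))
    (Φ : MvPolynomial σ k →ₐ[k] MvPolynomial σ k) (hX : ∀ i, Φ (X i) - X i ∈ I ^ 2) {M : ℕ}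
    {f : MvPolynomial σ k} (hM : Φ f ∈ I ^ M) : f ∈ I ^ M := by
  have h0 : ∀ p, Φ p - p ∈ I := by
    intro p
    induction p using MvPolynomial.induction_on with
    | C a => rw [algHom_C, algebraMap_eq, sub_self]; exact zero_mem _
    | add p q hp hq =>
      have e : Φ (p + q) - (p + q) = (Φ p - p) + (Φ q - q) := by rw [map_add]; ring
      rw [e]
      exact add_mem hp hq
    | mul_X p i hp =>
      have e : Φ (p * X i) - p * X i = (Φ p - p) * Φ (X i) + p * (Φ (X i) - X i) := by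
        rw [map_mul]; ring
      rw [e]
      exact add_mem (Ideal.mul_mem_right _ _ hp)
        (Ideal.mul_mem_left _ _ (Ideal.pow_le_self two_ne_zero (hX i)))
  have h1 : ∀ p ∈ Ideal.span (Set.range X), Φ p - p ∈ I ^ 2 := by
    intro p hp
    induction hp using Submodule.span_induction with
    | mem x hx =>
      obtain ⟨i, rfl⟩ := hx
      exact hX i
    | zero => rw [map_zero, sub_self]; exact zero_mem _
    | add p q _ _ hp hq =>
      have e : Φ (p + q) - (p + q) = (Φ p - p) + (Φ q - q) := by rw [map_add]; ring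
      rw [e]
      exact add_mem hp hq
    | smul a x hx ih =>
      have e : Φ (a • x) - a • x = (Φ a - a) * (Φ x - x + x) + a * (Φ x - x) := by
        rw [smul_eq_mul, map_mul]; ring
      rw [e]
      refine add_mem ?_ (Ideal.mul_mem_left _ _ ih)
      rw [pow_two]
      exact Ideal.mul_mem_mul (h0 a) (add_mem (h0 x) (hI.ge hx))
  have key : ∀ j, j ≤ M → f ∈ I ^ j := by
    intro j
    induction j with
    | zero => intro _; simp
    | succ j ih =>
      intro hj
      have h2 : Φ f - f ∈ I ^ (j + 1) :=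
        jet_step (Φ : MvPolynomial σ k →+* MvPolynomial σ k) h0 (fun p hp => h1 p (hI.le hp)) j f
          (ih (by omega))
      have h3 := sub_mem (Ideal.pow_le_pow_right hj hM) h2
      rwa [sub_sub_cancel] at h3
  exact key M le_rfl

/-- Lift `φ` to `Φ : Lam → Lam` with `Φ (X i) - X i ∈ aug ^ 2`; then `Φ f - f ∈ aug ^ (j+1)` for
`f ∈ aug ^ j`, and `f ∈ aug ^ j` for `j ≤ M` by induction. -/
theorem jet_inj {M : ℕ} (φ : Lam k N →ₐ[k] Jt k N M)
    (h : ∀ i, ∃ g ∈ aug (Fin N) k ^ 2, φ (X i) = Ideal.Quotient.mk _ (X i + g)) {f : Lam k N}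
    (hf : φ f = 0) : f ∈ aug (Fin N) k ^ M := by
  choose g hg hφ using h
  have e : φ = (Ideal.Quotient.mkₐ k (aug (Fin N) k ^ M)).comp (aeval fun i => X i + g i) :=
    algHom_ext fun i => (hφ i).trans (congrArg (Ideal.Quotient.mk (aug (Fin N) k ^ M))
      (aeval_X (fun i => X i + g i) i).symm)
  have hM : Ideal.Quotient.mk (aug (Fin N) k ^ M) (aeval (fun i => X i + g i) f) = 0 :=
    (DFunLike.congr_fun e f).symm.trans hf
  refine jet_fix (aug_eq_span _) (aeval fun i => X i + g i) (fun i => ?_)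
    (Ideal.Quotient.eq_zero_iff_mem.1 hM)
  rw [aeval_X, add_sub_cancel_left]
  exact hg i

theorem jet_pow_bot {R : Type u} [CommRing R] {I : Ideal R} {M : ℕ} {J : Ideal (R ⧸ I ^ M)}
    (h : ∀ f, Ideal.Quotient.mk _ f ∈ J → f ∈ I) : J ^ M = ⊥ := by
  have h1 : J ≤ I.map (Ideal.Quotient.mk (I ^ M)) := by
    intro a ha
    obtain ⟨f, rfl⟩ := Ideal.Quotient.mk_surjective a
    exact Ideal.mem_map_of_mem _ (h f ha)
  refine le_bot_iff.1 ((Ideal.pow_right_mono h1 M).trans ?_)
  rw [← Ideal.map_pow, Ideal.map_quotient_self]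

theorem jet_sq_bot {R : Type u} [CommRing R] {I : Ideal R} {J : Ideal (R ⧸ I ^ 2)}
    (h : ∀ f, Ideal.Quotient.mk _ f ∈ J → f ∈ I) : J * J = ⊥ :=
  (pow_two J).symm.trans (jet_pow_bot h)

/-- the projection from `M`-jets to `2`-jets and the augmentation -/
theorem jet_setup {M : ℕ} (hM : 2 ≤ M) :
    ∃ (ρ : Jt k N M →ₐ[k] Jt k N 2) (ε : Jt k N 2 →ₐ[k] k),
      (∀ f, ρ (Ideal.Quotient.mk _ f) = Ideal.Quotient.mk _ f) ∧
      (∀ f, ε (Ideal.Quotient.mk _ f) = constantCoeff f) ∧ Function.Surjective ρ ∧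
      IsNilpotent (RingHom.ker (ρ : Jt k N M →+* Jt k N 2)) ∧
      RingHom.ker (ε : Jt k N 2 →+* k) * RingHom.ker (ε : Jt k N 2 →+* k) = ⊥ ∧
      RingHom.ker (ε.comp ρ : Jt k N M →+* k) ^ M = ⊥ := by
  obtain ⟨ρ, hρ⟩ : ∃ ρ : Jt k N M →ₐ[k] Jt k N 2,
      ∀ f, ρ (Ideal.Quotient.mk _ f) = Ideal.Quotient.mk _ f :=
    ⟨Ideal.Quotient.liftₐ _ (Ideal.Quotient.mkₐ k _) fun a ha =>
      Ideal.Quotient.eq_zero_iff_mem.2 (Ideal.pow_le_pow_right hM ha), fun f => rfl⟩
  obtain ⟨ε, hε⟩ : ∃ ε : Jt k N 2 →ₐ[k] k, ∀ f, ε (Ideal.Quotient.mk _ f) = constantCoeff f :=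
    ⟨Ideal.Quotient.liftₐ _ (aeval fun _ => 0) fun a ha => by
      rw [aeval_zero', show constantCoeff a = 0 from Ideal.pow_le_self two_ne_zero ha, map_zero],
      fun f => aeval_zero' f⟩
  refine ⟨ρ, ε, hρ, hε, fun b => ?_, ⟨M, jet_pow_bot fun f hf => ?_⟩, ?_,
    jet_pow_bot fun f hf => ?_⟩
  · obtain ⟨f, rfl⟩ := Ideal.Quotient.mk_surjective b
    exact ⟨_, hρ f⟩
  · exact Ideal.pow_le_self two_ne_zero (Ideal.Quotient.eq_zero_iff_mem.1 ((hρ f).symm.trans hf))
  · exact jet_sq_bot fun f hf => (hε f).symm.trans hf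
  · have h : ε (ρ (Ideal.Quotient.mk _ f)) = 0 := hf
    rwa [hρ, hε] at h

theorem jet_ker_le {D : Type u} [CommRing D] [Algebra k D] (ε : D →ₐ[k] k) {ι : Type}
    (x : ι → D) (hx : ∀ q, ε (x q) = 0) (hgen : Algebra.adjoin k (Set.range x) = ⊤) {a : D}
    (ha : ε a = 0) : a ∈ Ideal.span (Set.range x) := by
  have key : ∀ b ∈ Algebra.adjoin k (Set.range x),
      b - algebraMap k D (ε b) ∈ Ideal.span (Set.range x) := by
    intro b hb
    induction hb using Algebra.adjoin_induction with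
    | mem b hb =>
      obtain ⟨q, rfl⟩ := hb
      rw [hx, map_zero, sub_zero]
      exact Ideal.subset_span ⟨q, rfl⟩
    | algebraMap r =>
      rw [AlgHom.commutes, Algebra.algebraMap_self, RingHom.id_apply, sub_self]
      exact zero_mem _
    | add b c _ _ hb hc =>
      have e : b + c - algebraMap k D (ε (b + c)) =
          (b - algebraMap k D (ε b)) + (c - algebraMap k D (ε c)) := by
        rw [map_add, map_add]; ring
      rw [e]
      exact add_mem hb hc
    | mul b c _ _ hb hc =>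
      have e : b * c - algebraMap k D (ε (b * c)) =
          (b - algebraMap k D (ε b)) * c + algebraMap k D (ε b) * (c - algebraMap k D (ε c)) := by
        rw [map_mul, map_mul]; ring
      rw [e]
      exact add_mem (Ideal.mul_mem_right _ _ hb) (Ideal.mul_mem_left _ _ hc)
  have h := key a (hgen ▸ Algebra.mem_top)
  rwa [ha, map_zero, sub_zero] at h

theorem jet_surj {D : Type u} [CommRing D] [Algebra k D] (ε : D →ₐ[k] k) {ι : Type}
    (x : ι → D) (hx : ∀ q, ε (x q) = 0) (hgen : Algebra.adjoin k (Set.range x) = ⊤)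
    (y : Fin N → D)
    (h : ∀ q, ∃ c : Fin N → k, x q - ∑ i, c i • y i ∈ RingHom.ker (ε : D →+* k) ^ 2) (M : ℕ)
    (a : D) : ∃ A : Lam k N, a - aeval y A ∈ RingHom.ker (ε : D →+* k) ^ M := by
  have hm : ∀ b, b ∈ RingHom.ker (ε : D →+* k) ↔ ε b = 0 := fun b => Iff.rfl
  generalize RingHom.ker (ε : D →+* k) = 𝔪 at h hm ⊢
  have h0 : ∀ b, b - algebraMap k D (ε b) ∈ 𝔪 := fun b => by
    rw [hm, map_sub, AlgHom.commutes, Algebra.algebraMap_self, RingHom.id_apply, sub_self]
  have hadd : ∀ (j : ℕ) (b c : D), (∃ A : Lam k N, b - aeval y A ∈ 𝔪 ^ j) →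
      (∃ A : Lam k N, c - aeval y A ∈ 𝔪 ^ j) → ∃ A : Lam k N, b + c - aeval y A ∈ 𝔪 ^ j := by
    rintro j b c ⟨A, hA⟩ ⟨A', hA'⟩
    refine ⟨A + A', ?_⟩
    have e : b + c - aeval y (A + A') = (b - aeval y A) + (c - aeval y A') := by
      rw [map_add]; ring
    rw [e]
    exact add_mem hA hA'
  have h1 : ∀ b ∈ 𝔪, ∃ A : Lam k N, b - aeval y A ∈ 𝔪 ^ 2 := by
    intro b hb
    have hb' := jet_ker_le ε x hx hgen ((hm b).1 hb)
    clear hb
    induction hb' using Submodule.span_induction with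
    | mem b hb =>
      obtain ⟨q, rfl⟩ := hb
      obtain ⟨c, hc⟩ := h q
      refine ⟨∑ i, c i • X i, ?_⟩
      simpa only [map_sum, map_smul, aeval_X] using hc
    | zero => exact ⟨0, by simp⟩
    | add b c _ _ hb hc => exact hadd 2 b c hb hc
    | smul a b hb ih =>
      obtain ⟨A, hA⟩ := ih
      have hb' : b ∈ 𝔪 := by
        refine (Ideal.span_le.2 ?_ : Ideal.span (Set.range x) ≤ 𝔪) hb
        rintro _ ⟨q, rfl⟩
        exact (hm _).2 (hx q)
      refine ⟨C (ε a) * A, ?_⟩
      have e : a • b - aeval y (C (ε a) * A) =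
          (a - algebraMap k D (ε a)) * b + algebraMap k D (ε a) * (b - aeval y A) := by
        rw [smul_eq_mul, map_mul, aeval_C]; ring
      rw [e]
      refine add_mem ?_ (Ideal.mul_mem_left _ _ hA)
      rw [pow_two]
      exact Ideal.mul_mem_mul (h0 a) hb'
  have h2 : ∀ j, ∀ b ∈ 𝔪 ^ j, ∃ A : Lam k N, b - aeval y A ∈ 𝔪 ^ (j + 1) := by
    intro j
    induction j with
    | zero => exact fun b _ => ⟨C (ε b), by simpa using h0 b⟩
    | succ j ih =>
      intro b hb
      rw [pow_succ] at hb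
      refine Submodule.mul_induction_on hb (fun b hb c hc => ?_) (hadd _)
      obtain ⟨A, hA⟩ := ih b hb
      obtain ⟨A', hA'⟩ := h1 c hc
      refine ⟨A * A', ?_⟩
      have e : b * c - aeval y (A * A') =
          (b - aeval y A) * c + (b - (b - aeval y A)) * (c - aeval y A') := by
        rw [map_mul]; ring
      rw [e]
      refine add_mem ?_ ?_
      · rw [pow_succ]
        exact Ideal.mul_mem_mul hA hc
      · rw [add_assoc, pow_add]
        exact Ideal.mul_mem_mul (sub_mem hb (Ideal.pow_le_pow_right (Nat.le_succ j) hA)) hA'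
  induction M with
  | zero => exact ⟨0, by simp⟩
  | succ M ih =>
    obtain ⟨A, hA⟩ := ih
    obtain ⟨A', hA'⟩ := h2 M _ hA
    exact ⟨A + A', by rwa [map_add, ← sub_sub]⟩

theorem jet_lin (f : Lam k N) :
    ∃ c : Fin N → k, f - C (constantCoeff f) - ∑ i, c i • X i ∈ aug (Fin N) k ^ 2 := by
  induction f using MvPolynomial.induction_on with
  | C a => exact ⟨0, by simp only [constantCoeff_C, sub_self, Pi.zero_apply, zero_smul, Finset.sum_const_zero, zero_mem]⟩
  | add p q hp hq =>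
    obtain ⟨c, hc⟩ := hp
    obtain ⟨d, hd⟩ := hq
    refine ⟨c + d, ?_⟩
    convert add_mem hc hd using 1
    simp only [map_add, Pi.add_apply, add_smul, Finset.sum_add_distrib]
    ring
  | mul_X p i _ =>
    refine ⟨Pi.single i (constantCoeff p), ?_⟩
    have h1 : p - C (constantCoeff p) ∈ aug (Fin N) k := by simp
    have h2 := Ideal.mul_mem_mul h1 (jet_X_mem (k := k) i)
    rw [← pow_two] at h2
    convert h2 using 1
    rw [Finset.sum_eq_single i (fun j _ hj => by rw [Pi.single_eq_of_ne hj, zero_smul])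
      (fun h => absurd (Finset.mem_univ i) h), Pi.single_eq_same, map_mul, constantCoeff_X,
      mul_zero, map_zero, smul_eq_C_mul]
    ring

theorem jet_eps {D : Type u} [CommRing D] [Algebra k D] (ε : D →ₐ[k] k) {y : Fin N → D}
    (hy : ∀ i, ε (y i) = 0) (f : Lam k N) : ε (aeval y f) = constantCoeff f := by
  have e : ε.comp (aeval y) = aeval fun _ => 0 := algHom_ext fun i => by
    rw [AlgHom.comp_apply, aeval_X, aeval_X, hy]
  exact (DFunLike.congr_fun e f).trans (aeval_zero' f)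

/-- The classes of the `x q` span the vector space `𝔪 / 𝔪 ^ 2` (`𝔪 = ker ε`); choose a linearly
independent spanning subfamily `x (p i)`; the map from `2`-jets to `D ⧸ 𝔪 ^ 2` is bijective. -/
theorem exists_cotangent {D : Type u} [CommRing D] [Algebra k D] (ε : D →ₐ[k] k) {ι : Type}
    [Finite ι] (x : ι → D) (hx : ∀ q, ε (x q) = 0)
    (hgen : Algebra.adjoin k (Set.range x) = ⊤) :
    ∃ (N : ℕ) (p : Fin N → ι) (φ : D →ₐ[k] Jt k N 2),
      (∀ i, φ (x (p i)) = Ideal.Quotient.mk _ (X i)) ∧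
      (∀ a, ε a = 0 → ∃ g ∈ aug (Fin N) k, φ a = Ideal.Quotient.mk _ g) ∧
      ∀ q, ∃ c : Fin N → k, x q - ∑ i, c i • x (p i) ∈ RingHom.ker (ε : D →+* k) ^ 2 := by
  obtain ⟨π, hπ, hπs⟩ : ∃ π : D →ₐ[k] D ⧸ RingHom.ker (ε : D →+* k) ^ 2,
      (∀ a, π a = 0 ↔ a ∈ RingHom.ker (ε : D →+* k) ^ 2) ∧ Function.Surjective π :=
    ⟨Ideal.Quotient.mkₐ k _, fun a => Ideal.Quotient.eq_zero_iff_mem,
      Ideal.Quotient.mk_surjective⟩
  obtain ⟨κ, a, ha, hs, hl⟩ := exists_linearIndependent' k fun q => π (x q)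
  have : Finite κ := Finite.of_injective a ha
  obtain ⟨N, ⟨e⟩⟩ := Finite.exists_equiv_fin κ
  obtain ⟨p, hs, hl⟩ : ∃ p : Fin N → ι, Submodule.span k (Set.range fun i => π (x (p i))) =
      Submodule.span k (Set.range fun q => π (x q)) ∧ LinearIndependent k fun i => π (x (p i)) :=
    ⟨a ∘ e.symm, (congrArg _ (e.symm.surjective.range_comp _)).trans hs,
      hl.comp e.symm e.symm.injective⟩
  have h3 : ∀ q, ∃ c : Fin N → k,
      x q - ∑ i, c i • x (p i) ∈ RingHom.ker (ε : D →+* k) ^ 2 := fun q => by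
    obtain ⟨c, hc⟩ := (Submodule.mem_span_range_iff_exists_fun k).1
      (hs.ge (Submodule.subset_span ⟨q, rfl⟩))
    refine ⟨c, (hπ _).1 ?_⟩
    simp only [map_sub, map_sum, map_smul, hc, sub_self]
  have he := jet_eps ε fun i => hx (p i)
  have h4 : ∀ f ∈ aug (Fin N) k ^ 2, π (aeval (fun i => x (p i)) f) = 0 := fun f hf => by
    have h5 : (aug (Fin N) k).map (aeval fun i => x (p i)) ≤ RingHom.ker (ε : D →+* k) :=
      Ideal.map_le_iff_le_comap.2 fun g hg => (he g).trans hg
    have h6 := Ideal.mem_map_of_mem (aeval fun i => x (p i)) hf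
    rw [Ideal.map_pow] at h6
    exact (hπ _).2 (Ideal.pow_right_mono h5 2 h6)
  obtain ⟨ψ, hψ⟩ : ∃ ψ : Jt k N 2 →ₐ[k] D ⧸ RingHom.ker (ε : D →+* k) ^ 2,
      ∀ f, ψ (Ideal.Quotient.mk _ f) = π (aeval (fun i => x (p i)) f) :=
    ⟨Ideal.Quotient.liftₐ _ (π.comp (aeval fun i => x (p i))) h4, fun f => rfl⟩
  have hz : ∀ a, π a = 0 → ε a = 0 := fun a h => Ideal.pow_le_self two_ne_zero ((hπ a).1 h)
  have hb : Function.Bijective ψ := by
    refine ⟨(injective_iff_map_eq_zero ψ).2 fun b hb => ?_, fun b => ?_⟩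
    · obtain ⟨f, rfl⟩ := Ideal.Quotient.mk_surjective b
      rw [hψ] at hb
      have h0 : constantCoeff f = 0 := (he f).symm.trans (hz _ hb)
      obtain ⟨c, hc⟩ := jet_lin f
      rw [h0, map_zero, sub_zero] at hc
      have h5 := h4 _ hc
      simp only [map_sub, map_sum, map_smul, aeval_X, hb, zero_sub, neg_eq_zero] at h5
      have h6 := Fintype.linearIndependent_iff.1 hl c h5
      simp only [h6, zero_smul, Finset.sum_const_zero, sub_zero] at hc
      exact Ideal.Quotient.eq_zero_iff_mem.2 hc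
    · obtain ⟨b, rfl⟩ := hπs b
      obtain ⟨A, hA⟩ := jet_surj ε x hx hgen (fun i => x (p i)) h3 2 b
      refine ⟨Ideal.Quotient.mk _ A, ?_⟩
      have h5 := (hπ _).2 hA
      rw [map_sub, sub_eq_zero] at h5
      rw [hψ, h5]
  refine ⟨N, p, ((AlgEquiv.ofBijective ψ hb).symm : _ →ₐ[k] _).comp π, fun i => ?_,
    fun b h0 => ?_, h3⟩
  · refine (AlgEquiv.ofBijective ψ hb).symm_apply_eq.2 ?_
    rw [AlgEquiv.ofBijective_apply, hψ, aeval_X]
    rfl
  · obtain ⟨g, hg⟩ := Ideal.Quotient.mk_surjective ((AlgEquiv.ofBijective ψ hb).symm (π b))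
    refine ⟨g, ?_, hg.symm⟩
    have h5 := (AlgEquiv.ofBijective ψ hb).symm_apply_eq.1 hg.symm
    rw [AlgEquiv.ofBijective_apply, hψ, ← sub_eq_zero, ← map_sub] at h5
    have h6 := hz _ h5
    rw [map_sub, h0, he, zero_sub, neg_eq_zero] at h6
    exact h6

/-- `𝔪 = span (range x)`, so `𝔪 ≤ span (range y) ⊔ 𝔪 ^ 2`; by induction on `M` every element of
`𝔪 ^ j` is congruent modulo `𝔪 ^ (j+1)` to the image of a polynomial in `aug ^ j`. -/
theorem surj_mod_pow {D : Type u} [CommRing D] [Algebra k D] (ε : D →ₐ[k] k) {ι : Type}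
    (x : ι → D) (hx : ∀ q, ε (x q) = 0) (hgen : Algebra.adjoin k (Set.range x) = ⊤)
    (y : Fin N → D) (hy : ∀ i, ε (y i) = 0)
    (h : ∀ q, ∃ c : Fin N → k, x q - ∑ i, c i • y i ∈ RingHom.ker (ε : D →+* k) ^ 2) (M : ℕ)
    (a : D) : ∃ A : Lam k N, a - aeval y A ∈ RingHom.ker (ε : D →+* k) ^ M :=
  jet_surj ε x hx hgen y h M a

end Pool.Agent.MP_b8b722_ag.dom

end

end partJet

section partDom

/-!
Minimal primes of smooth algebras.
-/

set_option linter.unusedSectionVars false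
set_option linter.unusedVariables false

open MvPolynomial

universe u

noncomputable section

namespace Pool.Agent.MP_b8b722_ag.dom

variable {k : Type u} [Field k] {R : Type u} [CommRing R] [Algebra k R]

theorem dom_gens [Algebra.FiniteType k R] (x₀ : R →ₐ[k] k) :
    ∃ (n : ℕ) (x : Fin n → R), (∀ q, x₀ (x q) = 0) ∧ Algebra.adjoin k (Set.range x) = ⊤ := by
  obtain ⟨n, f, hf⟩ := Algebra.FiniteType.iff_quotient_mvPolynomial''.1
    (inferInstance : Algebra.FiniteType k R)
  refine ⟨n, fun q => f (X q) - algebraMap k R (x₀ (f (X q))), fun q => by simp, ?_⟩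
  rw [eq_top_iff]
  rintro a -
  obtain ⟨g, rfl⟩ := hf a
  induction g using MvPolynomial.induction_on with
  | C c => exact (f.commutes c).symm ▸ Subalgebra.algebraMap_mem _ c
  | add g h hg hh =>
    rw [map_add]
    exact Subalgebra.add_mem _ hg hh
  | mul_X g q hg =>
    rw [map_mul]
    refine Subalgebra.mul_mem _ hg ?_
    have e : f (X q) = (f (X q) - algebraMap k R (x₀ (f (X q)))) +
      algebraMap k R (x₀ (f (X q))) := by ring
    rw [e]
    exact Subalgebra.add_mem _ (Algebra.subset_adjoin ⟨q, rfl⟩) (Subalgebra.algebraMap_mem _ _)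

theorem dom_const {N : ℕ} (x₀ : R →ₐ[k] k) {y : Fin N → R} (hy : ∀ i, x₀ (y i) = 0)
    (A : Lam k N) : x₀ (aeval y A) = constantCoeff A := by
  have h : x₀.comp (aeval y) = aeval (0 : Fin N → k) :=
    MvPolynomial.algHom_ext fun i => by simp [hy]
  have h1 := AlgHom.congr_fun h A
  rw [AlgHom.comp_apply, aeval_zero] at h1
  exact h1

theorem dom_map {N : ℕ} (x₀ : R →ₐ[k] k) {y : Fin N → R} (hy : ∀ i, x₀ (y i) = 0) {M : ℕ}
    {A : Lam k N} (hA : A ∈ aug (Fin N) k ^ M) : aeval y A ∈ RingHom.ker (x₀ : R →+* k) ^ M := by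
  have h1 : (aug (Fin N) k).map (aeval y : Lam k N →ₐ[k] R) ≤ RingHom.ker (x₀ : R →+* k) := by
    refine Ideal.map_le_iff_le_comap.2 fun B hB => ?_
    rw [Ideal.mem_comap, RingHom.mem_ker]
    exact (dom_const x₀ hy B).trans hB
  have h2 := Ideal.mem_map_of_mem (aeval y : Lam k N →ₐ[k] R) hA
  rw [Ideal.map_pow] at h2
  exact Ideal.pow_right_mono h1 M h2

theorem dom_jet [Algebra.FormallySmooth k R] {N : ℕ} (x₀ : R →ₐ[k] k) {y : Fin N → R}
    (hy : ∀ i, x₀ (y i) = 0) (φ : R →ₐ[k] Jt k N 2)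
    (h1 : ∀ i, φ (y i) = Ideal.Quotient.mk _ (X i))
    (h2 : ∀ a, x₀ a = 0 → ∃ g ∈ aug (Fin N) k, φ a = Ideal.Quotient.mk _ g) {M : ℕ} (hM : 2 ≤ M)
    {A : Lam k N} (hA : aeval y A ∈ RingHom.ker (x₀ : R →+* k) ^ M) : A ∈ aug (Fin N) k ^ M := by
  obtain ⟨ρ, ε, hρ, hε, hsurj, hnil, -, hbot⟩ := jet_setup (k := k) (N := N) hM
  have hl := Algebra.FormallySmooth.comp_liftOfSurjective φ ρ hsurj hnil
  set ψ := Algebra.FormallySmooth.liftOfSurjective φ ρ hsurj hnil
  have hl' : ∀ a, ρ (ψ a) = φ a := AlgHom.congr_fun hl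
  refine jet_inj (ψ.comp (aeval y)) (fun i => ?_) ?_
  · obtain ⟨f, hf⟩ := Ideal.Quotient.mk_surjective (ψ (y i))
    refine ⟨f - X i, ?_, ?_⟩
    · rw [← Ideal.Quotient.eq, ← hρ, hf, hl', h1]
    · rw [AlgHom.comp_apply, aeval_X, ← hf, add_sub_cancel]
  · have h3 : (RingHom.ker (x₀ : R →+* k)).map ψ ≤
        RingHom.ker (ε.comp ρ : Jt k N M →+* k) := by
      refine Ideal.map_le_iff_le_comap.2 fun a ha => ?_
      obtain ⟨g, hg, he⟩ := h2 a ha
      rw [Ideal.mem_comap, RingHom.mem_ker]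
      show ε (ρ (ψ a)) = 0
      rw [hl', he, hε]
      exact hg
    have h4 := Ideal.mem_map_of_mem ψ hA
    rw [Ideal.map_pow] at h4
    have h5 := Ideal.pow_right_mono h3 M h4
    rw [hbot, Ideal.mem_bot] at h5
    exact h5

/-- Choose finitely many generators `x q ∈ 𝔪 = ker x₀`, apply `exists_cotangent`, `y i = x (p i)`.
Lifting `φ` to `M`-jets (`jet_setup`, `Algebra.FormallySmooth.liftOfSurjective`) and `jet_inj` give:
`aeval y A ∈ 𝔪 ^ M → A ∈ aug ^ M`.  With `surj_mod_pow` and `mul_notMem_aug_pow`: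
`a ∉ 𝔪 ^ (i+1)`, `b ∉ 𝔪 ^ (j+1)` imply `a * b ∉ 𝔪 ^ (i+j+1)`. -/
theorem isPrime_iInf_pow [Algebra.FormallySmooth k R] [Algebra.FiniteType k R] (x₀ : R →ₐ[k] k) :
    (⨅ M : ℕ, RingHom.ker (x₀ : R →+* k) ^ M).IsPrime := by
  obtain ⟨n, x, hx, hgen⟩ := dom_gens x₀
  obtain ⟨N, p, φ, h1, h2, h3⟩ := exists_cotangent x₀ x hx hgen
  have hy : ∀ i, x₀ (x (p i)) = 0 := fun i => hx _
  refine ⟨fun h => ?_, fun {a b} hab => ?_⟩
  · have h4 : (1 : R) ∈ ⨅ M : ℕ, RingHom.ker (x₀ : R →+* k) ^ M := h ▸ Submodule.mem_top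
    have h5 := Ideal.mem_iInf.1 h4 1
    rw [pow_one, RingHom.mem_ker, map_one] at h5
    exact one_ne_zero h5
  · by_contra hcon
    rw [not_or, Ideal.mem_iInf, Ideal.mem_iInf, not_forall, not_forall] at hcon
    obtain ⟨⟨i, hi⟩, ⟨j, hj⟩⟩ := hcon
    have hi' : a ∉ RingHom.ker (x₀ : R →+* k) ^ (i + 1 + 1) := fun h =>
      hi (Ideal.pow_le_pow_right (by omega) h)
    have hj' : b ∉ RingHom.ker (x₀ : R →+* k) ^ (j + 1) := fun h =>
      hj (Ideal.pow_le_pow_right (by omega) h)
    obtain ⟨A, hA⟩ := surj_mod_pow x₀ x hx hgen (fun i => x (p i)) hy h3 (i + 1 + j + 1) a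
    obtain ⟨B, hB⟩ := surj_mod_pow x₀ x hx hgen (fun i => x (p i)) hy h3 (i + 1 + j + 1) b
    have hA' : A ∉ aug (Fin N) k ^ (i + 1 + 1) := fun h => hi' (by
      have := Ideal.add_mem _ (Ideal.pow_le_pow_right (m := i + 1 + 1) (by omega) hA)
        (dom_map x₀ hy h)
      rwa [sub_add_cancel] at this)
    have hB' : B ∉ aug (Fin N) k ^ (j + 1) := fun h => hj' (by
      have := Ideal.add_mem _ (Ideal.pow_le_pow_right (m := j + 1) (by omega) hB)
        (dom_map x₀ hy h)
      rwa [sub_add_cancel] at this)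
    refine mul_notMem_aug_pow hA' hB' (dom_jet x₀ hy φ h1 h2 (by omega) ?_)
    have h6 := Ideal.mem_iInf.1 hab (i + 1 + j + 1)
    have e : aeval (fun i => x (p i)) (A * B) = a * b - (a - aeval (fun i => x (p i)) A) * b -
        aeval (fun i => x (p i)) A * (b - aeval (fun i => x (p i)) B) := by
      rw [map_mul]
      ring
    rw [e]
    exact Ideal.sub_mem _ (Ideal.sub_mem _ h6 (Ideal.mul_mem_right _ _ hA))
      (Ideal.mul_mem_left _ _ hB)

end Pool.Agent.MP_b8b722_ag.dom

end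

end partDom

end partDom1

section partDom

/-!
Local rings of formally smooth algebras of finite type over an algebraically closed field are
domains.
-/

set_option linter.unusedSectionVars false
set_option linter.unusedVariables false

noncomputable section

namespace Pool.Agent.MP_b8b722_ag

theorem dom_point {k D : Type} [Field k] [IsAlgClosed k] [CommRing D] [Algebra k D]
    [Algebra.FiniteType k D] (𝔪 : Ideal D) [𝔪.IsMaximal] :
    ∃ ε : D →ₐ[k] k, RingHom.ker (ε : D →+* k) = 𝔪 := by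
  let := Ideal.Quotient.field 𝔪
  have : Module.Finite k (D ⧸ 𝔪) := finite_of_finite_type_of_isJacobsonRing k (D ⧸ 𝔪)
  have hb : Function.Bijective (Algebra.ofId k (D ⧸ 𝔪)) :=
    IsAlgClosed.algebraMap_bijective_of_isIntegral
  refine ⟨((AlgEquiv.ofBijective _ hb).symm : (D ⧸ 𝔪) →ₐ[k] k).comp (Ideal.Quotient.mkₐ k 𝔪), ?_⟩
  ext a
  rw [RingHom.mem_ker, ← Ideal.Quotient.eq_zero_iff_mem]
  exact (AlgEquiv.ofBijective _ hb).symm.map_eq_zero_iff

theorem dom_krull {D : Type} [CommRing D] [IsNoetherianRing D] (𝔪 : Ideal D) {a : D}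
    (ha : a ∈ ⨅ M : ℕ, 𝔪 ^ M) : ∃ r ∈ 𝔪, (1 - r) * a = 0 := by
  obtain ⟨r, hr⟩ := (𝔪.mem_iInf_smul_pow_eq_bot_iff (M := D) a).1 (by
    simpa only [smul_eq_mul, Ideal.mul_top] using ha)
  exact ⟨r, r.2, by rw [sub_mul, one_mul, ← smul_eq_mul, hr, sub_self]⟩

/-- Choose a maximal ideal `𝔪 ⊇ 𝔮`, the kernel of a `k`-point of `R ⧸ J`.  The ideal `⨅ 𝔪 ^ M` of
`R ⧸ J` is prime (copy the proof of `isPrime_iInf_pow` from
`Pool/Agent/MP_24718c_ag/Cell.lean`, lines 1-530, into this file, without importing that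
folder) and its elements are killed by an element outside `𝔪` (Krull). -/
theorem mul_mem_of_smooth {k R : Type} [Field k] [IsAlgClosed k] [CommRing R] [Algebra k R]
    [Algebra.FiniteType k R] (J : Ideal R) [Algebra.FormallySmooth k (R ⧸ J)] (𝔮 : Ideal R)
    [𝔮.IsPrime] (hJ : J ≤ 𝔮) {x y : R} (h : x * y ∈ J) :
    ∃ s, s ∉ 𝔮 ∧ (s * x ∈ J ∨ s * y ∈ J) := by
  have hN : IsNoetherianRing (R ⧸ J) := Algebra.FiniteType.isNoetherianRing k _
  have hq : (𝔮.map (Ideal.Quotient.mk J)).IsPrime :=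
    Ideal.map_isPrime_of_surjective Ideal.Quotient.mk_surjective (by rwa [Ideal.mk_ker])
  obtain ⟨𝔪, hm, hle⟩ := Ideal.exists_le_maximal _ hq.ne_top
  obtain ⟨ε, hε⟩ := dom_point (k := k) 𝔪
  have hP := dom.isPrime_iInf_pow ε
  rw [hε] at hP
  have key : ∀ z : R, Ideal.Quotient.mk J z ∈ (⨅ M : ℕ, 𝔪 ^ M) → ∃ s, s ∉ 𝔮 ∧ s * z ∈ J := by
    intro z hz
    obtain ⟨r, hr, h0⟩ := dom_krull 𝔪 hz
    obtain ⟨s, hs⟩ := Ideal.Quotient.mk_surjective (1 - r)
    refine ⟨s, fun hsq => hm.ne_top ((Ideal.eq_top_iff_one _).2 ?_), ?_⟩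
    · have h1 := hle (Ideal.mem_map_of_mem (Ideal.Quotient.mk J) hsq)
      rw [hs] at h1
      simpa only [sub_add_cancel] using 𝔪.add_mem h1 hr
    · rw [← Ideal.Quotient.eq_zero_iff_mem, map_mul, hs, h0]
  have hxy : Ideal.Quotient.mk J x * Ideal.Quotient.mk J y ∈ ⨅ M : ℕ, 𝔪 ^ M := by
    rw [← map_mul, Ideal.Quotient.eq_zero_iff_mem.2 h]
    exact zero_mem _
  rcases hP.mem_or_mem hxy with h1 | h1
  · obtain ⟨s, h2, h3⟩ := key x h1
    exact ⟨s, h2, Or.inl h3⟩
  · obtain ⟨s, h2, h3⟩ := key y h1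
    exact ⟨s, h2, Or.inr h3⟩

theorem isPrime_map_of_smooth {k R : Type} [Field k] [IsAlgClosed k] [CommRing R] [Algebra k R]
    [Algebra.FiniteType k R] (J : Ideal R) [Algebra.FormallySmooth k (R ⧸ J)] (𝔮 : Ideal R)
    [𝔮.IsPrime] (hJ : J ≤ 𝔮) :
    (J.map (algebraMap R (Localization.AtPrime 𝔮))).IsPrime := by
  have hmem : ∀ x : R, algebraMap R (Localization.AtPrime 𝔮) x ∈
      J.map (algebraMap R (Localization.AtPrime 𝔮)) ↔ ∃ s, s ∉ 𝔮 ∧ s * x ∈ J := fun x =>
    IsLocalization.algebraMap_mem_map_algebraMap_iff 𝔮.primeCompl _ J x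
  refine ⟨fun ht => ?_, fun {a b} hab => ?_⟩
  · obtain ⟨s, h1, h2⟩ := (hmem 1).1 (ht ▸ Submodule.mem_top)
    exact h1 (hJ (by rwa [mul_one] at h2))
  · obtain ⟨⟨x, u⟩, rfl⟩ := IsLocalization.mk'_surjective 𝔮.primeCompl a
    obtain ⟨⟨y, v⟩, rfl⟩ := IsLocalization.mk'_surjective 𝔮.primeCompl b
    dsimp only at hab ⊢
    rw [← IsLocalization.mk'_mul, IsLocalization.mk'_mem_iff, hmem] at hab
    obtain ⟨s, h1, h2⟩ := hab
    rw [← mul_assoc] at h2
    obtain ⟨t, h3, h4⟩ := mul_mem_of_smooth (k := k) J 𝔮 hJ h2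
    rw [IsLocalization.mk'_mem_iff, IsLocalization.mk'_mem_iff, hmem, hmem]
    rcases h4 with h4 | h4
    · exact Or.inl ⟨t * s, 𝔮.primeCompl.mul_mem h3 h1, by rwa [mul_assoc]⟩
    · exact Or.inr ⟨t, h3, h4⟩

/-- lifting criterion in universe `0` -/
theorem formallySmooth_of_lift {k R : Type} [Field k] [CommRing R] [Algebra k R] (J : Ideal R)
    (h : ∀ (S S' : Type) [CommRing S] [CommRing S'] [Algebra k S] [Algebra k S'] (f : S →ₐ[k] S'),
      Function.Surjective f → RingHom.ker (f : S →+* S') ^ 2 = ⊥ →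
      ∀ ρ' : R →ₐ[k] S', (∀ r ∈ J, ρ' r = 0) →
        ∃ ρ : R →ₐ[k] S, (∀ r ∈ J, ρ r = 0) ∧ f.comp ρ = ρ') :
    Algebra.FormallySmooth k (R ⧸ J) := by
  refine Algebra.FormallySmooth.of_comp_surjective fun B _ _ I hI φ => ?_
  obtain ⟨ρ, h1, h2⟩ := h B (B ⧸ I) (Ideal.Quotient.mkₐ k I) Ideal.Quotient.mk_surjective
    (by rw [← hI]; congr 1; exact Ideal.mk_ker) (φ.comp (Ideal.Quotient.mkₐ k J)) fun r hr => by
      rw [AlgHom.comp_apply, Ideal.Quotient.mkₐ_eq_mk, Ideal.Quotient.eq_zero_iff_mem.2 hr, map_zero]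
  refine ⟨Ideal.Quotient.liftₐ J ρ h1, AlgHom.ext fun a => ?_⟩
  obtain ⟨r, rfl⟩ := Ideal.Quotient.mk_surjective a
  exact DFunLike.congr_fun h2 r

end Pool.Agent.MP_b8b722_ag

end

end partDom

section partDesc0

/-!
Purely inseparable descent and tensor products.
-/

set_option linter.unusedSectionVars false
set_option linter.unusedVariables false

open Matrix TensorProduct

noncomputable section

namespace Pool.Agent.MP_b8b722_ag

/-- An element fixed by all automorphisms of an algebraic closure is purely inseparable. -/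
theorem pow_mem_of_fixed {K Ω : Type} [Field K] [Field Ω] [Algebra K Ω] [IsAlgClosed Ω]
    [Algebra.IsAlgebraic K Ω] {p : ℕ} [Fact p.Prime] [CharP K p] {x : Ω}
    (h : ∀ θ : Ω ≃ₐ[K] Ω, θ x = x) : ∃ (N : ℕ) (y : K), algebraMap K Ω y = x ^ p ^ N := by
  classical
  have : IsAlgClosure K Ω := ⟨inferInstance, inferInstance⟩
  have : ExpChar K p := ExpChar.prime Fact.out
  have hx : IsIntegral K x := Algebra.IsIntegral.isIntegral x
  have h1 : (minpoly K x).natSepDegree = 1 := by
    rw [Polynomial.natSepDegree_eq_of_isAlgClosed Ω, Finset.card_eq_one]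
    refine ⟨x, Finset.eq_singleton_iff_unique_mem.2 ⟨?_, fun y hy => ?_⟩⟩
    · rw [Multiset.mem_toFinset, Polynomial.mem_aroots]
      exact ⟨minpoly.ne_zero hx, minpoly.aeval K x⟩
    · rw [Multiset.mem_toFinset, Polynomial.mem_aroots] at hy
      obtain ⟨σ, hσ⟩ := minpoly.exists_algEquiv_of_root' hx.isAlgebraic hy.2
      rw [← hσ, h]
  obtain ⟨N, y, hy⟩ := (minpoly.natSepDegree_eq_one_iff_pow_mem p).1 h1
  exact ⟨N, y, hy⟩

/-- coordinates with respect to a basis detect the image of `A ⊗ B → A' ⊗ B` -/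
theorem mem_range_tensor {k A A' B : Type} [Field k] [CommRing A] [CommRing A'] [CommRing B]
    [Algebra k A] [Algebra k A'] [Algebra k B] (f : A →ₐ[k] A') (x : A' ⊗[k] B)
    (h : ∀ ε : B →ₗ[k] k, TensorProduct.rid k A' (ε.lTensor A' x) ∈ Set.range f) :
    ∃ y : A ⊗[k] B, Algebra.TensorProduct.map f (AlgHom.id k B) y = x := by
  classical
  let b := Module.Basis.ofVectorSpace k B
  obtain ⟨c, rfl⟩ := TensorProduct.eq_repr_basis_right b x
  have hc : ∀ i, c i ∈ Set.range f := by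
    intro i
    have := h (b.coord i)
    rw [map_finsuppSum, map_finsuppSum, Finsupp.sum, Finset.sum_eq_single i] at this
    · simpa only [Set.mem_range, LinearMap.lTensor_tmul, Module.Basis.coord_apply, Module.Basis.repr_self, Finsupp.single_eq_same, rid_tmul, one_smul] using this
    · intro j _ hj
      simp [hj]
    · intro hi
      simp only [Finsupp.notMem_support_iff.1 hi, zero_tmul, map_zero]
  choose a ha using hc
  refine ⟨∑ i ∈ c.support, a i ⊗ₜ b i, ?_⟩
  rw [map_sum, Finsupp.sum]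
  exact Finset.sum_congr rfl fun i _ => by simp [ha]

theorem tensor_map_injective {k A A' B : Type} [Field k] [CommRing A] [CommRing A'] [CommRing B]
    [Algebra k A] [Algebra k A'] [Algebra k B] (f : A →ₐ[k] A') (hf : Function.Injective f) :
    Function.Injective (Algebra.TensorProduct.map f (AlgHom.id k B)) :=
  Module.Flat.rTensor_preserves_injective_linearMap (M := B) f.toLinearMap hf

end Pool.Agent.MP_b8b722_ag

end

end partDesc0

section partAlg

/-!
Commutative algebra: points, unramified and smooth maps, heights, tensor products.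
-/

set_option linter.unusedSectionVars false
set_option linter.unusedVariables false

open TensorProduct

noncomputable section

namespace Pool.Agent.MP_b8b722_ag

/-- contraction with a linear form -/
def wtc_ct {k S M : Type} [Field k] [CommRing S] [Algebra k S] [CommRing M] [Algebra k M]
    (ε : M →ₗ[k] k) : S ⊗[k] M →ₗ[k] S :=
  (TensorProduct.rid k S).toLinearMap ∘ₗ ε.lTensor S

section

variable {k A A' M : Type} [Field k] [CommRing A] [Algebra k A] [CommRing A'] [Algebra k A']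
  [CommRing M] [Algebra k M]

/-- base change on the left factor -/
def wtc_bc (M : Type) [CommRing M] [Algebra k M] (h : A →ₐ[k] A') : A ⊗[k] M →+* A' ⊗[k] M :=
  (Algebra.TensorProduct.map h (AlgHom.id k M) : A ⊗[k] M →ₐ[k] A' ⊗[k] M)

/-- inclusion of the right factor -/
def wtc_ir (k A M : Type) [Field k] [CommRing A] [Algebra k A] [CommRing M] [Algebra k M] :
    M →+* A ⊗[k] M := (Algebra.TensorProduct.includeRight : M →ₐ[k] A ⊗[k] M)

theorem wtc_bc_tmul (h : A →ₐ[k] A') (a : A) (m : M) :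
    wtc_bc M h (a ⊗ₜ[k] m) = h a ⊗ₜ[k] m := rfl

theorem wtc_bc_left (h : A →ₐ[k] A') :
    (wtc_bc M h).comp Algebra.TensorProduct.includeLeftRingHom =
      Algebra.TensorProduct.includeLeftRingHom.comp (h : A →+* A') := rfl

theorem wtc_bc_right (h : A →ₐ[k] A') : (wtc_bc M h).comp (wtc_ir k A M) = wtc_ir k A' M :=
  RingHom.ext fun m => (wtc_bc_tmul h 1 m).trans (by rw [map_one]; rfl)

theorem wtc_ir_alg : (wtc_ir k A M).comp (algebraMap k M) =
    Algebra.TensorProduct.includeLeftRingHom.comp (algebraMap k A) :=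
  RingHom.ext fun x =>
    (Algebra.TensorProduct.includeRight : M →ₐ[k] A ⊗[k] M).commutes x

theorem wtc_retr (ξ : M →ₐ[k] A) : ∃ m : A ⊗[k] M →+* A, m.comp (wtc_ir k A M) = ξ ∧
    m.comp Algebra.TensorProduct.includeLeftRingHom = RingHom.id A :=
  ⟨(Algebra.TensorProduct.lift (AlgHom.id k A) ξ fun _ _ => Commute.all _ _ : A ⊗[k] M →ₐ[k] A),
    RingHom.ext fun x => by simp [wtc_ir], RingHom.ext fun x => by simp⟩

theorem wtc_tmul (ε : M →ₗ[k] k) (a : A) (m : M) : wtc_ct ε (a ⊗ₜ[k] m) = ε m • a := by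
  simp [wtc_ct]

theorem wtc_map (ε : M →ₗ[k] k) (h : A →ₐ[k] A') (z : A ⊗[k] M) :
    wtc_ct ε (wtc_bc M h z) = h (wtc_ct ε z) := by
  induction z with
  | zero => simp only [map_zero]
  | tmul a m => rw [wtc_bc_tmul, wtc_tmul, wtc_tmul, map_smul]
  | add x y hx hy => simp only [map_add, hx, hy]

theorem wtc_mul (ε : M →ₗ[k] k) (z : A ⊗[k] M) (c : A) :
    wtc_ct ε (z * Algebra.TensorProduct.includeLeftRingHom c) = wtc_ct ε z * c := by
  induction z with
  | zero => simp only [map_zero, zero_mul]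
  | tmul a m =>
    rw [Algebra.TensorProduct.includeLeftRingHom_apply, Algebra.TensorProduct.tmul_mul_tmul,
      mul_one, wtc_tmul, wtc_tmul, smul_mul_assoc]
  | add x y hx hy => simp only [add_mul, map_add, hx, hy]

theorem wtc_exists {z : A ⊗[k] M} (hz : z ≠ 0) : ∃ ε : M →ₗ[k] k, wtc_ct ε z ≠ 0 := by
  classical
  let b := Module.Basis.ofVectorSpace k M
  have h : ∀ (z : A ⊗[k] M) i, TensorProduct.equivFinsuppOfBasisRight b z i =
      wtc_ct (b.coord i) z := fun z i => by
    induction z with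
    | zero => simp only [map_zero, Finsupp.zero_apply]
    | tmul a m =>
      rw [TensorProduct.equivFinsuppOfBasisRight_apply_tmul_apply, wtc_tmul,
        Module.Basis.coord_apply]
    | add x y hx hy => simp only [map_add, Finsupp.add_apply, hx, hy]
  by_contra hne
  refine hz ((TensorProduct.equivFinsuppOfBasisRight b).map_eq_zero_iff.1 (Finsupp.ext fun i => ?_))
  rw [h]
  by_contra h2
  exact hne ⟨_, h2⟩

end

section Points

variable {k A R F : Type} [Field k] [CommRing A] [Algebra k A] [CommRing R] [Algebra k R]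
  [Field F] [Algebra k F]

theorem alga_point [IsAlgClosed k] [Algebra.FiniteType k R] {r : R} (h : ¬ IsNilpotent r) :
    ∃ ρ : R →ₐ[k] k, ρ r ≠ 0 := by
  have : IsJacobsonRing R := isJacobsonRing_of_finiteType (A := k)
  by_contra hne
  apply h
  rw [← mem_nilradical, nilradical, Ideal.radical_eq_jacobson, Ideal.jacobson, Ideal.mem_sInf]
  rintro 𝔪 ⟨-, h𝔪⟩
  obtain ⟨ε, hε⟩ := dom_point (k := k) 𝔪
  rw [← hε, RingHom.mem_ker]
  by_contra h2
  exact hne ⟨ε, h2⟩

/-- ALGA.  Points over a given generic point.  `A` is a domain, let `K` be its fraction field,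
embedded in `F` by `e`.  The localisation of `R` at the submonoid generated by `t` and the `ξ a`,
`a ≠ 0`, is a non-trivial `K`-algebra of finite type; divide by a maximal ideal, use Zariski's
lemma (`finite_of_finite_type_of_isJacobsonRing`) and `IsAlgClosed.lift` (or `exists_embed`). -/
theorem exists_point [IsAlgClosed F] [Algebra.FiniteType k R] (ξ : A →ₐ[k] R) (e : A →ₐ[k] F)
    (he : Function.Injective e) (t : R) (h : ∀ (a : A) (N : ℕ), a ≠ 0 → t ^ N * ξ a ≠ 0) :
    ∃ j : R →ₐ[k] F, j.comp ξ = e ∧ j t ≠ 0 := by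
  let _ : Algebra A R := (ξ : A →+* R).toAlgebra
  let _ : Algebra A F := (e : A →+* F).toAlgebra
  have : IsDomain A := Function.Injective.isDomain (e : A →+* F) he
  have : FaithfulSMul A F := (faithfulSMul_iff_algebraMap_injective A F).mpr he
  have : IsScalarTower k A R := IsScalarTower.of_algebraMap_eq fun c => (ξ.commutes c).symm
  have : Algebra.FiniteType A R := Algebra.FiniteType.of_restrictScalars_finiteType k A R
  have hn : ¬ IsNilpotent ((1 : F) ⊗ₜ[A] t) := by
    rintro ⟨N, hN⟩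
    rw [Algebra.TensorProduct.tmul_pow, one_pow] at hN
    let K := FractionRing A
    let _ : Algebra K F := FractionRing.liftAlgebra A F
    have : IsScalarTower A K F := FractionRing.isScalarTower_liftAlgebra A F
    obtain ⟨g, hg⟩ := (Algebra.linearMap K F).exists_leftInverse_of_injective
      (LinearMap.ker_eq_bot.2 (algebraMap K F).injective)
    have hg1 : g 1 = 1 := by simpa using LinearMap.congr_fun hg 1
    have h1 := congrArg ((g.restrictScalars A).rTensor R) hN
    rw [LinearMap.rTensor_tmul, map_zero, LinearMap.restrictScalars_apply, hg1] at h1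
    obtain ⟨a, ha⟩ := (IsLocalizedModule.eq_zero_iff (nonZeroDivisors A)
      (TensorProduct.mk A K R 1)).1 h1
    refine h a N (nonZeroDivisors.ne_zero a.2) ?_
    rw [mul_comm]
    exact ha
  obtain ⟨ρ, hρ⟩ := alga_point (k := F) hn
  let j : R →+* F := (ρ : F ⊗[A] R →+* F).comp
    (Algebra.TensorProduct.includeRight : R →ₐ[A] F ⊗[A] R)
  have hj : ∀ a, j (ξ a) = e a := fun a =>
    (congrArg ρ ((Algebra.TensorProduct.includeRight : R →ₐ[A] F ⊗[A] R).commutes a)).trans
      (ρ.commutes (e a))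
  refine ⟨⟨j, fun c => ?_⟩, AlgHom.ext hj, hρ⟩
  have := hj (algebraMap k A c)
  rwa [AlgHom.commutes, AlgHom.commutes] at this

/-- ALGA.  Nullstellensatz (`dom_point`, Jacobson rings). -/
theorem eq_zero_of_points [IsAlgClosed k] [Algebra.FiniteType k R] [IsDomain R] {r : R}
    (h : ∀ ρ : R →ₐ[k] k, ρ r = 0) : r = 0 := by
  by_contra hr
  obtain ⟨ρ, hρ⟩ := alga_point (k := k) (r := r) fun hn => hr hn.eq_zero
  exact hρ (h ρ)

/-- ALGA. -/
theorem isUnit_of_points [IsAlgClosed k] [Algebra.FiniteType k R] {r : R}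
    (h : ∀ ρ : R →ₐ[k] k, ρ r ≠ 0) : IsUnit r := by
  by_contra hr
  obtain ⟨𝔪, h𝔪, hm⟩ := exists_max_ideal_of_mem_nonunits (mem_nonunits_iff.2 hr)
  obtain ⟨ε, hε⟩ := dom_point (k := k) 𝔪
  rw [← hε] at hm
  exact h ε hm

/-- ALGA.  Lying over: choose a prime of `R` over `ker h`
(`Ideal.exists_ideal_over_prime_of_isIntegral`), the quotient is integral over `A ⧸ ker h ⊆ F`. -/
theorem lift_of_integral [IsAlgClosed F] (Λ : A →ₐ[k] R) (hΛ : Function.Injective Λ)
    (hi : (Λ : A →+* R).IsIntegral) (h : A →ₐ[k] F) : ∃ m : R →ₐ[k] F, m.comp Λ = h := by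
  let _ : Algebra A R := (Λ : A →+* R).toAlgebra
  have : Algebra.IsIntegral A R := ⟨hi⟩
  have hP : (RingHom.ker (h : A →+* F)).IsPrime := RingHom.ker_isPrime _
  obtain ⟨Q, -, hQ, hQP⟩ := Ideal.exists_ideal_over_prime_of_isIntegral
    (RingHom.ker (h : A →+* F)) (⊥ : Ideal R) (fun a ha => by
      rw [Ideal.mem_comap, Ideal.mem_bot] at ha
      rw [hΛ (ha.trans (map_zero Λ).symm)]
      exact Ideal.zero_mem _)
  let P : Ideal A := Q.comap (algebraMap A R)
  have hker : ∀ a ∈ P, (h : A →+* F) a = 0 := fun a ha => by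
    rw [← RingHom.mem_ker, ← hQP]; exact ha
  let h' : A ⧸ P →+* F := Ideal.Quotient.lift P (h : A →+* F) hker
  have hinj : Function.Injective h' := RingHom.lift_injective_of_ker_le_ideal P hker hQP.ge
  let _ : Algebra (A ⧸ P) F := h'.toAlgebra
  have : FaithfulSMul (A ⧸ P) F := (faithfulSMul_iff_algebraMap_injective _ F).mpr hinj
  have : FaithfulSMul (A ⧸ P) (R ⧸ Q) :=
    (faithfulSMul_iff_algebraMap_injective _ _).mpr Ideal.algebraMap_quotient_injective
  have : Algebra.IsIntegral (A ⧸ P) (R ⧸ Q) := Algebra.IsIntegral.quotient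
  let l : (R ⧸ Q) →ₐ[A ⧸ P] F := IsAlgClosed.lift
  let m : R →+* F := (l : R ⧸ Q →+* F).comp (Ideal.Quotient.mk Q)
  have hm : ∀ a, m (Λ a) = h a := fun a => l.commutes (Ideal.Quotient.mk P a)
  refine ⟨⟨m, fun c => ?_⟩, AlgHom.ext hm⟩
  have := hm (algebraMap k A c)
  rwa [AlgHom.commutes, AlgHom.commutes] at this

/-- ALGA.  `jet_step` and Krull's intersection theorem: `Λ f = 0` gives `f ∈ I ^ n` for all `n`. -/
theorem injective_of_jet [IsDomain R] [IsNoetherianRing R] (I : Ideal R) (hI : I ≠ ⊤)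
    (Λ : R →+* R) (h : ∀ f, Λ f - f ∈ I ^ 2) : Function.Injective Λ := by
  rw [injective_iff_map_eq_zero]
  intro f hf
  have h1 : ∀ n : ℕ, f ∈ I ^ n := fun n => by
    induction n with
    | zero => simp
    | succ n ih =>
      have h2 := dom.jet_step Λ (fun g => Ideal.pow_le_self two_ne_zero (h g)) (fun g _ => h g) n f ih
      rwa [hf, zero_sub, neg_mem_iff] at h2
  rw [← Ideal.mem_bot, ← Ideal.iInf_pow_eq_bot_of_isDomain I hI]
  exact Ideal.mem_iInf.2 h1

/-- ALGA.  Valuation rings are integrally closed. -/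
theorem IsVal.mem_of_alg {V : Subalgebra k F} (hV : IsVal V) (ρ : A →ₐ[k] V)
    (hρ : ∀ a, a ≠ 0 → IsUnit (ρ a)) {x : F} {P : Polynomial A} (hP : P ≠ 0)
    (hx : P.eval₂ (V.val.comp ρ : A →+* F) x = 0) : x ∈ V := by
  have : IsFractionRing V F :=
    inferInstanceAs (IsFractionRing (⟨V.toSubring, hV⟩ : ValuationSubring F) F)
  have : IsIntegrallyClosed V :=
    inferInstanceAs (IsIntegrallyClosed (⟨V.toSubring, hV⟩ : ValuationSubring F))
  have hu := hρ _ (Polynomial.leadingCoeff_ne_zero.2 hP)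
  have h1 : Polynomial.aeval x (P.map (ρ : A →+* V)) = 0 := by
    rw [Polynomial.aeval_def, Polynomial.eval₂_map]
    exact hx
  have h2 := isIntegral_leadingCoeff_smul _ x h1
  rw [Polynomial.leadingCoeff_map_of_leadingCoeff_ne_zero (ρ : A →+* V) hu.ne_zero] at h2
  obtain ⟨y, hy⟩ := IsIntegrallyClosed.isIntegral_iff.1 h2
  obtain ⟨u, hu⟩ := hu.exists_left_inv
  have h3 : x = ((u * y : V) : F) := by
    have h4 : (u : F) * (ρ P.leadingCoeff : F) = 1 := congrArg Subtype.val hu
    have h5 : (y : F) = (ρ P.leadingCoeff : F) * x := hy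
    rw [Subalgebra.coe_mul, h5, ← mul_assoc, h4, one_mul]
  rw [h3]
  exact (u * y).2

/-- ALGA.  An algebraic closure of `F(y)`. -/
theorem exists_trans (F : Type) [Field F] [Algebra k F] :
    ∃ (F' : Type) (_ : Field F') (_ : Algebra k F') (_ : IsAlgClosed F') (ι : F →ₐ[k] F') (y : F'ˣ),
      (y : F') ∉ ι.range ∧ ∀ (N : Finset ℤ) (c : ℤ → F),
        ∑ n ∈ N, ((y ^ n : F'ˣ) : F') * ι (c n) = 0 → ∀ n ∈ N, c n = 0 := by
  obtain ⟨F', _, _, _, t, ht⟩ : ∃ (F' : Type) (_ : Field F') (_ : Algebra F F')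
      (_ : IsAlgClosed F') (t : F'), Transcendental F t :=
    ⟨AlgebraicClosure (RatFunc F), inferInstance, inferInstance, inferInstance,
      algebraMap (RatFunc F) _ RatFunc.X,
      (transcendental_algebraMap_iff (RingHom.injective _)).mpr RatFunc.transcendental_X⟩
  have ht0 : t ≠ 0 := by
    rintro rfl
    exact ht isAlgebraic_zero
  let _ : Algebra k F' := ((algebraMap F F').comp (algebraMap k F)).toAlgebra
  have _ : IsScalarTower k F F' := IsScalarTower.of_algebraMap_eq fun _ => rfl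
  refine ⟨F', inferInstance, inferInstance, inferInstance, IsScalarTower.toAlgHom k F F',
    Units.mk0 t ht0, ?_, fun N c hc n hn => ?_⟩
  · rintro ⟨c, hc⟩
    have hc' : algebraMap F F' c = t := hc
    exact ht (hc' ▸ isAlgebraic_algebraMap c)
  · obtain ⟨m, hm⟩ := N.bddBelow
    have hm' : ∀ n ∈ N, (((n - m).toNat : ℕ) : ℤ) = n - m := fun n hn =>
      Int.toNat_of_nonneg (sub_nonneg.2 (hm hn))
    have h1 : Polynomial.aeval t (∑ n ∈ N, Polynomial.monomial (n - m).toNat (c n)) = 0 := by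
      have h2 := congrArg (t ^ (-m) * ·) hc
      simp only [mul_zero, Finset.mul_sum] at h2
      rw [map_sum, ← h2]
      refine Finset.sum_congr rfl fun n hn => ?_
      rw [Polynomial.aeval_monomial, ← zpow_natCast, hm' n hn, Units.val_zpow_eq_zpow_val,
        Units.val_mk0, ← mul_assoc, ← zpow_add₀ ht0, mul_comm, neg_add_eq_sub]
      rfl
    have h3 := congrArg (fun P => Polynomial.coeff P (n - m).toNat)
      (transcendental_iff.1 ht _ h1)
    simp only [Polynomial.finsetSum_coeff, Polynomial.coeff_monomial, Polynomial.coeff_zero] at h3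
    rw [Finset.sum_eq_single_of_mem n hn, if_pos rfl] at h3
    · exact h3
    · intro b hb hbn
      rw [if_neg]
      intro h4
      have h5 := hm' b hb
      rw [h4, hm' n hn] at h5
      exact hbn (sub_left_inj.1 h5).symm

theorem algb_alg {A D F : Type} [CommRing A] [CommRing D] [Field F] [Algebra A D] [Algebra A F]
    [Algebra.FiniteType A D] [Algebra.FormallyUnramified A D] (j : D →ₐ[A] F) (r : D) :
    ∃ P : Polynomial A, (∃ n, algebraMap A F (P.coeff n) ≠ 0) ∧
      P.eval₂ (algebraMap A F) (j r) = 0 := by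
  let p : Ideal A := RingHom.ker (algebraMap A F)
  have : p.IsPrime := RingHom.ker_isPrime _
  let l : p.ResidueField →+* F := Ideal.ResidueField.lift p (algebraMap A F) le_rfl
    fun a ha => (IsUnit.mem_submonoid_iff _).2 (isUnit_iff_ne_zero.2 ha)
  have hl : ∀ a, l (algebraMap A p.ResidueField a) = algebraMap A F a := fun a =>
    Ideal.ResidueField.lift_algebraMap _ _ _ _ _
  let _ : Algebra p.ResidueField F := l.toAlgebra
  have : IsScalarTower A p.ResidueField F := .of_algebraMap_eq fun a => (hl a).symm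
  let _ : Algebra (A ⧸ p) F := (l.comp (algebraMap (A ⧸ p) p.ResidueField)).toAlgebra
  have : IsScalarTower (A ⧸ p) p.ResidueField F := .of_algebraMap_eq fun a => rfl
  have : Module.Finite p.ResidueField (p.ResidueField ⊗[A] D) :=
    Algebra.FormallyUnramified.finite_of_free _ _
  let Φ : p.ResidueField ⊗[A] D →ₐ[p.ResidueField] F :=
    Algebra.TensorProduct.lift (Algebra.ofId _ F) j fun _ _ => Commute.all _ _
  have h1 : IsIntegral p.ResidueField (Φ (1 ⊗ₜ r)) := (IsIntegral.of_finite _ _).map Φ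
  have h2 : Φ (1 ⊗ₜ r) = j r := by
    rw [Algebra.TensorProduct.lift_tmul, map_one, one_mul]
  obtain ⟨Q, hQ0, hQ⟩ := (IsFractionRing.isAlgebraic_iff (A ⧸ p) p.ResidueField F).2
    (h2 ▸ h1).isAlgebraic
  obtain ⟨P, rfl⟩ := Polynomial.map_surjective (Ideal.Quotient.mk p) Ideal.Quotient.mk_surjective Q
  refine ⟨P, ?_, ?_⟩
  · by_contra hn
    refine hQ0 (Polynomial.ext fun n => ?_)
    rw [Polynomial.coeff_map, Polynomial.coeff_zero, Ideal.Quotient.eq_zero_iff_mem]
    by_contra h3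
    exact hn ⟨n, h3⟩
  · rw [Polynomial.aeval_def, Polynomial.eval₂_map] at hQ
    rw [← hQ]
    congr 1
    exact RingHom.ext fun a => (hl a).symm

/-- ALGB.  Unramified maps have algebraic fibres.  Let `K ⊆ F` be the subfield generated by the
image of `A` and `D` the `K`-subalgebra of `F` generated by `j R` and `(j t)⁻¹`.  It is of finite
type and formally unramified over `K` (`Algebra.FormallyUnramified.ext`-type criterion
`Algebra.FormallyUnramified.iff_comp_injective`), hence finite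
(`Algebra.FormallyUnramified.finite_of_free`).  Clear denominators. -/
theorem alg_of_unram [Algebra.FiniteType k R] (ξ : A →ₐ[k] R) (j : R →ₐ[k] F) (t : R)
    (ht : j t ≠ 0)
    (h : ∀ (S S' : Type) [CommRing S] [CommRing S'] [Algebra k S] [Algebra k S'] (f : S →ₐ[k] S'),
      Function.Surjective f → RingHom.ker (f : S →+* S') ^ 2 = ⊥ → ∀ ρ₁ ρ₂ : R →ₐ[k] S,
        f.comp ρ₁ = f.comp ρ₂ → IsUnit (ρ₁ t) → ρ₁.comp ξ = ρ₂.comp ξ → ρ₁ = ρ₂) (r : R) :
    ∃ P : Polynomial A, (∃ n, j (ξ (P.coeff n)) ≠ 0) ∧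
      P.eval₂ (j.comp ξ : A →+* F) (j r) = 0 := by
  let D := Localization.Away t
  let g : R →ₐ[k] D := IsScalarTower.toAlgHom k R D
  let _ : Algebra A D := (g.comp ξ : A →+* D).toAlgebra
  let _ : Algebra A F := (j.comp ξ : A →+* F).toAlgebra
  have : IsScalarTower k A D := .of_algebraMap_eq fun c => ((g.comp ξ).commutes c).symm
  have : Algebra.FiniteType k D := .trans (S := R) inferInstance inferInstance
  have : Algebra.FiniteType A D := .of_restrictScalars_finiteType k A D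
  have : Algebra.FormallyUnramified A D := by
    refine Algebra.FormallyUnramified.iff_comp_injective.2 fun B _ _ I hI φ₁ φ₂ e => ?_
    let _ : Algebra k B := ((algebraMap A B).comp (algebraMap k A)).toAlgebra
    have : IsScalarTower k A B := .of_algebraMap_eq fun c => rfl
    have h1 := h B (B ⧸ I) (Ideal.Quotient.mkₐ k I) Ideal.Quotient.mk_surjective
      (by rw [← hI]; congr 1; exact Ideal.mk_ker) ((φ₁.restrictScalars k).comp g)
      ((φ₂.restrictScalars k).comp g) (AlgHom.ext fun x => DFunLike.congr_fun e (g x))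
      ((IsLocalization.Away.algebraMap_isUnit (S := D) t).map φ₁)
      (AlgHom.ext fun a => (φ₁.commutes a).trans (φ₂.commutes a).symm)
    exact AlgHom.coe_ringHom_injective (IsLocalization.ringHom_ext (Submonoid.powers t)
      (RingHom.ext fun x => DFunLike.congr_fun h1 x))
  have hu : IsUnit ((j : R →+* F) t) := isUnit_iff_ne_zero.2 ht
  have h2 : ∀ x, IsLocalization.Away.lift (S := D) t hu (g x) = j x := fun x =>
    IsLocalization.Away.lift_eq t hu x
  have h3 := algb_alg (⟨IsLocalization.Away.lift (S := D) t hu, fun a => h2 (ξ a)⟩ : D →ₐ[A] F)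
    (g r)
  rw [← h2 r]
  exact h3

/-- ALGB.  Incomparability: divide the equation of `f r ≠ 0` by a power of `f r`; the lowest
coefficient `c` with `f (ξ c) ≠ 0` satisfies `ξ c + r * r' ∈ ker f ⊆ ker j`. -/
theorem ker_le_of_alg {Ω : Type} [Field Ω] [Algebra k Ω] (ξ : A →ₐ[k] R) (f : R →ₐ[k] F)
    (j : R →ₐ[k] Ω) (hfj : ∀ r, f r = 0 → j r = 0) (hj : Function.Injective (j.comp ξ))
    (h : ∀ r, ∃ P : Polynomial A, (∃ n, f (ξ (P.coeff n)) ≠ 0) ∧
      P.eval₂ (f.comp ξ : A →+* F) (f r) = 0) {r : R} (hr : j r = 0) : f r = 0 := by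
  by_contra hne
  obtain ⟨P, ⟨n, hn⟩, hP⟩ := h r
  have key : ∀ P : Polynomial A, P.eval₂ (f.comp ξ : A →+* F) (f r) = 0 →
      P.coeff 0 = 0 ∧ P.divX.eval₂ (f.comp ξ : A →+* F) (f r) = 0 := fun P hP => by
    rw [← P.X_mul_divX_add, Polynomial.eval₂_add, Polynomial.eval₂_mul, Polynomial.eval₂_X,
      Polynomial.eval₂_C] at hP
    have h1 : f (P.divX.eval₂ (ξ : A →+* R) r) = P.divX.eval₂ (f.comp ξ : A →+* F) (f r) :=
      Polynomial.hom_eval₂ _ _ (f : R →+* F) _
    have h2 := hfj (r * P.divX.eval₂ (ξ : A →+* R) r + ξ (P.coeff 0)) (by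
      rw [map_add, map_mul, h1]; exact hP)
    rw [map_add, map_mul, hr, zero_mul, zero_add] at h2
    have h3 : P.coeff 0 = 0 := hj (h2.trans (map_zero _).symm)
    rw [h3, map_zero, add_zero] at hP
    exact ⟨h3, (mul_eq_zero.1 hP).resolve_left hne⟩
  induction n generalizing P with
  | zero => exact hn (by rw [(key P hP).1, map_zero, map_zero])
  | succ n ih => exact ih P.divX (key P hP).2 (by rwa [Polynomial.coeff_divX])

/-- ALGB.  Smooth maps are flat.  The ring `R' = (R ⧸ J)[1 / t]` is formally smooth and of finite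
presentation over the noetherian ring `A`, so `Algebra.Smooth.flat` applies and `a` is a non-zero
divisor in `R'` (compare `formallySmooth_of_lift`). -/
theorem nzd_of_smooth [Algebra.FiniteType k A] [Algebra.FiniteType k R] [IsDomain A]
    (ξ : A →ₐ[k] R) (J : Ideal R) (t : R)
    (h : ∀ (S S' : Type) [CommRing S] [CommRing S'] [Algebra k S] [Algebra k S'] (f : S →ₐ[k] S'),
      Function.Surjective f → RingHom.ker (f : S →+* S') ^ 2 = ⊥ →
      ∀ (ζ : A →ₐ[k] S) (ρ' : R →ₐ[k] S'), ρ'.comp ξ = f.comp ζ → (∀ r ∈ J, ρ' r = 0) →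
        IsUnit (ρ' t) → ∃ ρ : R →ₐ[k] S, ρ.comp ξ = ζ ∧ f.comp ρ = ρ' ∧ ∀ r ∈ J, ρ r = 0)
    {a : A} (ha : a ≠ 0) {s : R} (hs : s * ξ a ∈ J) : ∃ N : ℕ, t ^ N * s ∈ J := by
  let t' := Ideal.Quotient.mk J t
  let D := Localization.Away t'
  let g : R →ₐ[k] D := (IsScalarTower.toAlgHom k (R ⧸ J) D).comp (Ideal.Quotient.mkₐ k J)
  have hg : ∀ r ∈ J, g r = 0 := fun r hr =>
    (congrArg (algebraMap (R ⧸ J) D) (Ideal.Quotient.eq_zero_iff_mem.2 hr)).trans (map_zero _)
  let _ : Algebra A D := (g.comp ξ : A →+* D).toAlgebra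
  have : IsScalarTower k A D := .of_algebraMap_eq fun c => ((g.comp ξ).commutes c).symm
  have : Algebra.FiniteType k D := .trans (S := R ⧸ J) inferInstance inferInstance
  have : IsNoetherianRing A := Algebra.FiniteType.isNoetherianRing k A
  have : Algebra.FinitePresentation A D :=
    Algebra.FinitePresentation.of_finiteType.1 (.of_restrictScalars_finiteType k A D)
  have : Algebra.FormallySmooth A D := by
    refine Algebra.FormallySmooth.of_comp_surjective fun B _ _ I hI φ => ?_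
    let _ : Algebra k B := ((algebraMap A B).comp (algebraMap k A)).toAlgebra
    have : IsScalarTower k A B := .of_algebraMap_eq fun c => rfl
    have hu := (IsLocalization.Away.algebraMap_isUnit (S := D) t').map φ
    obtain ⟨ρ, h1, h2, h3⟩ := h B (B ⧸ I) (Ideal.Quotient.mkₐ k I) Ideal.Quotient.mk_surjective
      (by rw [← hI]; congr 1; exact Ideal.mk_ker) (IsScalarTower.toAlgHom k A B)
      ((φ.restrictScalars k).comp g) (AlgHom.ext fun x => φ.commutes x)
      (fun r hr => (congrArg φ (hg r hr)).trans (map_zero φ)) hu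
    have h4 : IsUnit (Ideal.Quotient.lift J (ρ : R →+* B) h3 t') :=
      (IsNilpotent.isUnit_quotient_mk_iff ⟨2, hI⟩).1 ((DFunLike.congr_fun h2 t).symm ▸ hu)
    have h5 : ∀ x, IsLocalization.Away.lift (S := D) t' h4 (g x) = ρ x := fun x =>
      IsLocalization.Away.lift_eq t' h4 (Ideal.Quotient.mk J x)
    refine ⟨⟨IsLocalization.Away.lift (S := D) t' h4, fun x =>
      (h5 (ξ x)).trans (DFunLike.congr_fun h1 x)⟩, AlgHom.coe_ringHom_injective
      (IsLocalization.ringHom_ext (Submonoid.powers t') (Ideal.Quotient.ringHom_ext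
        (RingHom.ext fun x => ?_)))⟩
    exact (congrArg (Ideal.Quotient.mk I) (h5 x)).trans (DFunLike.congr_fun h2 x)
  have : Algebra.Smooth A D := ⟨inferInstance, inferInstance⟩
  have h6 : g s = 0 := (Module.Flat.isSMulRegular_of_nonZeroDivisors (M := D)
    (mem_nonZeroDivisors_of_ne_zero ha)).right_eq_zero_of_smul (by
      rw [Algebra.smul_def, mul_comm]
      exact (map_mul g s (ξ a)).symm.trans (hg _ hs))
  obtain ⟨⟨_, N, rfl⟩, hN⟩ := (IsLocalization.map_eq_zero_iff (Submonoid.powers t') D _).1 h6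
  exact ⟨N, Ideal.Quotient.eq_zero_iff_mem.1 (by rw [map_mul, map_pow]; exact hN)⟩

theorem algc_step {R S ι : Type} [CommRing R] [Algebra k R] [IsDomain R] [CommRing S]
    [Algebra k S] (φ : R →ₐ[k] S) {x : ι → R} (hx : AlgebraicIndependent k (φ ∘ x)) {g : R}
    (hg : g ≠ 0) (h0 : φ g = 0) : AlgebraicIndependent k fun o : Option ι => o.elim g x := by
  refine AlgebraicIndependent.option_iff.2 ⟨.of_comp φ hx, fun ha => ?_⟩
  obtain ⟨q, hq0, hq⟩ :=
    ha.exists_nonzero_coeff_and_aeval_eq_zero (mem_nonZeroDivisors_of_ne_zero hg)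
  have h1 : g ∣ (q.coeff 0 : R) := by
    have h2 := congrArg (Polynomial.aeval g) (Polynomial.X_mul_divX_add q)
    rw [hq, map_add, map_mul, Polynomial.aeval_X, Polynomial.aeval_C] at h2
    exact ⟨-Polynomial.aeval g q.divX, by rw [mul_neg]; exact eq_neg_of_add_eq_zero_right h2⟩
  have h3 : (q.coeff 0 : R) ∈ (MvPolynomial.aeval x : MvPolynomial ι k →ₐ[k] R).range := by
    rw [← Algebra.adjoin_range_eq_range_aeval]; exact (q.coeff 0).2
  obtain ⟨P, hP⟩ := h3
  obtain ⟨w, hw⟩ := h1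
  have h4 : MvPolynomial.aeval (φ ∘ x) P = 0 :=
    (MvPolynomial.comp_aeval_apply x φ P).symm.trans
      ((congrArg φ (hP.trans hw)).trans (by rw [map_mul, h0, zero_mul]))
  have h5 : P = 0 := hx.eq_zero_of_aeval_eq_zero P h4
  refine hq0 (Subtype.ext ?_)
  rw [← hP, h5]
  exact map_zero _

/-- ALGC.  A prime of height one.  Otherwise there is `f ∈ ker ι` outside `(π)`.  Lift a
transcendence basis of the image of `ι` (finite) to `x_1, …, x_n ∈ R`; then `x, f, π` are
algebraically independent in `R` (reduce modulo `π`, then modulo `ker ι`), so their images under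
`o` are `n + 2` algebraically independent elements that are algebraic over `k[ι x, θ]`. -/
theorem dvd_of_trdeg [Algebra.FiniteType k R] [IsDomain R] (o ι : R →ₐ[k] F)
    (ho : Function.Injective o) (θ : F)
    (h : ∀ r, IsAlgebraic (Algebra.adjoin k (Set.range ι ∪ {θ})) (o r)) {π : R} (hπ : Prime π)
    (h0 : ι π = 0) {f : R} (hf : ι f = 0) : π ∣ f := by
  by_contra hn
  let M := AlgebraicIndependent.matroid k F
  have hc : ∀ (s : Set F) (a : F), a ∈ M.closure s ↔ IsAlgebraic (Algebra.adjoin k s) a :=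
    fun s a => by
      rw [AlgebraicIndependent.matroid_closure_eq, SetLike.mem_coe,
        Subalgebra.mem_algebraicClosure]
  obtain ⟨s, hs⟩ := M.exists_isBasis (Set.range ι)
  obtain ⟨T, hT⟩ := Algebra.FiniteType.out (R := k) (A := R)
  have hfin : M.eRk (Set.range ι) ≠ ⊤ := by
    have h1 : Set.range ι ⊆ M.closure (ι '' T) := by
      rintro _ ⟨r, rfl⟩
      have h2 : ι r ∈ Algebra.adjoin k (ι '' T) := by
        rw [← AlgHom.map_adjoin, hT]; exact ⟨r, trivial, rfl⟩
      exact (hc _ _).2 (isAlgebraic_algebraMap (⟨_, h2⟩ : Algebra.adjoin k (ι '' T)))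
    exact ((M.eRk_mono h1).trans_lt ((M.eRk_closure_eq _).trans_lt
      ((M.eRk_le_encard _).trans_lt (T.finite_toSet.image ι).encard_lt_top))).ne
  choose x hx using fun a : s => hs.subset a.2
  let J : Ideal R := Ideal.span {π}
  have : J.IsPrime := (Ideal.span_singleton_prime hπ.ne_zero).2 hπ
  let ι₁ : (R ⧸ J) →ₐ[k] F := Ideal.Quotient.liftₐ J ι fun a ha => by
    obtain ⟨w, rfl⟩ := Ideal.mem_span_singleton.1 ha
    rw [map_mul, h0, zero_mul]
  have i0 : AlgebraicIndependent k (ι₁ ∘ Ideal.Quotient.mkₐ k J ∘ x) := by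
    have : ι₁ ∘ Ideal.Quotient.mkₐ k J ∘ x = fun a : s => (a : F) := funext hx
    rw [this]; exact hs.indep
  have i1 := algc_step ι₁ i0 (g := Ideal.Quotient.mkₐ k J f)
    (fun e => hn (Ideal.mem_span_singleton.1 (Ideal.Quotient.eq_zero_iff_mem.1 e))) hf
  have i2 : AlgebraicIndependent k (Ideal.Quotient.mkₐ k J ∘ fun o : Option s => o.elim f x) := by
    convert i1 using 1
    funext o; cases o <;> rfl
  have i3 := (algc_step _ i2 hπ.ne_zero
    (Ideal.Quotient.eq_zero_iff_mem.2 (Ideal.mem_span_singleton_self π))).map' ho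
  have i4 : M.Indep (Set.range _) := i3.to_subtype_range
  have i5 := i4.encard_le_eRk_of_subset (X := M.closure (insert θ (Set.range ι))) (by
    rintro _ ⟨r, rfl⟩
    rw [hc, ← Set.union_singleton]
    exact h _)
  rw [M.eRk_closure_eq] at i5
  have i6 := (i3.injective.encard_range.trans i5).trans (M.eRk_insert_le_add_one _ _)
  rw [← hs.encard_eq_eRk] at i6 hfin
  have : Fintype s := (Set.encard_ne_top_iff.1 hfin).fintype
  rw [← ENat.card_coe_set_eq, ENat.card_eq_coe_fintype_card, ENat.card_eq_coe_fintype_card,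
    Fintype.card_option, Fintype.card_option] at i6
  norm_cast at i6
  omega

/-- ALGC.  Gauss' lemma in a factorial ring. -/
theorem dvd_of_forall_dvd_mul [IsDomain R] [UniqueFactorizationMonoid R] {ι : Type} {d₀ d : R}
    (h0 : d₀ ≠ 0) (c : ι → R) (h1 : ∀ π : R, Prime π → π ∣ d₀ → ∃ i, ¬ π ∣ c i)
    (h2 : ∀ i, d₀ ∣ d * c i) : d₀ ∣ d := by
  induction d₀ using UniqueFactorizationMonoid.induction_on_prime generalizing d with
  | h₁ => exact absurd rfl h0
  | h₂ x hx => exact hx.dvd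
  | h₃ a π ha hπ ih =>
    obtain ⟨i, hi⟩ := h1 π hπ (dvd_mul_right _ _)
    obtain ⟨d', rfl⟩ := (hπ.dvd_or_dvd ((dvd_mul_right _ _).trans (h2 i))).resolve_right hi
    refine mul_dvd_mul_left π (ih ha (fun ρ hρ h => h1 ρ hρ (h.mul_left _)) fun j => ?_)
    have := h2 j
    rwa [mul_assoc, mul_dvd_mul_iff_left hπ.ne_zero] at this

/-- ALGC.  Units of Laurent polynomial rings are monomials (largest and smallest exponent for a
linear order on `I → ℤ`, or `UniqueSums`/`TwoUniqueSums`). -/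
theorem unit_laurent {I : Type} [Fintype I] {x : AddMonoidAlgebra k (I → ℤ)} (hx : IsUnit x) :
    ∃ (μ : I → ℤ) (c : k), c ≠ 0 ∧ x = AddMonoidAlgebra.single μ c := by
  classical
  obtain ⟨y, hy⟩ := hx.exists_right_inv
  have hy0 : y.coeff.support.Nonempty := by
    rw [Finsupp.support_nonempty_iff, Ne, AddMonoidAlgebra.coeff_eq_zero]
    exact right_ne_zero_of_mul_eq_one hy
  have hx0 : x.coeff.support.Nonempty := by
    rw [Finsupp.support_nonempty_iff, Ne, AddMonoidAlgebra.coeff_eq_zero]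
    exact hx.ne_zero
  have key : ∀ p ∈ x.coeff.support ×ˢ y.coeff.support,
      UniqueAdd x.coeff.support y.coeff.support p.1 p.2 → p.1 + p.2 = 0 := fun p hp hu => by
    have h1 := AddMonoidAlgebra.coeff_mul_add_of_uniqueAdd hu
    rw [Finset.mem_product, Finsupp.mem_support_iff, Finsupp.mem_support_iff] at hp
    rw [hy, AddMonoidAlgebra.one_def, AddMonoidAlgebra.coeff_single] at h1
    by_contra hne
    exact mul_ne_zero hp.1 hp.2 (h1.symm.trans (Finsupp.single_eq_of_ne hne))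
  have hc : x.coeff.support.card = 1 := by
    refine le_antisymm (not_lt.1 fun hlt => ?_) hx0.card_pos
    obtain ⟨p, hp, q, hq, hne, h1, h2⟩ := TwoUniqueSums.uniqueAdd_of_one_lt_card
      (hlt.trans_le (Nat.le_mul_of_pos_right _ hy0.card_pos))
    have h3 := h2 (Finset.mem_product.1 hp).1 (Finset.mem_product.1 hp).2
      ((key p hp h1).trans (key q hq h2).symm)
    exact hne (Prod.ext h3.1 h3.2)
  obtain ⟨μ, c, hc0, e⟩ := Finsupp.card_support_eq_one'.1 hc
  exact ⟨μ, c, hc0, AddMonoidAlgebra.coeff_injective e⟩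

/-- ALGC. -/
theorem eq_zero_of_zpow [IsAlgClosed k] {e : ℤ} (h : ∀ s : kˣ, s ^ e = 1) : e = 0 := by
  by_contra he
  have : NeZero e.natAbs := ⟨Int.natAbs_ne_zero.2 he⟩
  have h1 : Function.Injective fun s : kˣ =>
      (⟨s, (mem_rootsOfUnity _ _).2 (pow_natAbs_eq_one.2 (h s))⟩ : rootsOfUnity e.natAbs k) :=
    fun a b hab => congrArg Subtype.val hab
  have := Finite.of_injective _ h1
  have : Finite (Option kˣ) := inferInstance
  have : Finite k := Finite.of_surjective (fun o : Option kˣ => o.elim 0 Units.val) fun a =>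
    (eq_or_ne a 0).elim (fun e => ⟨none, e.symm⟩) fun e => ⟨some (Units.mk0 a e), rfl⟩
  exact not_finite k

/-- ALGC.  A polynomial with non-zero constant term that is a monomial in the function field. -/
theorem eq_zero_of_poly (j : Polynomial k →ₐ[k] F) (hj : Function.Injective j) {τ : Fˣ}
    (hτ : j Polynomial.X = τ) {P : Polynomial k} (hP : P.coeff 0 ≠ 0) {c : k} {e : ℤ}
    (h : j P = algebraMap k F c * (τ ^ e : Fˣ)) : e = 0 := by
  have hC : j (Polynomial.C c) = algebraMap k F c := j.commutes c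
  rcases e with (_ | n) | n
  · rfl
  · refine absurd ?_ hP
    have h1 : P = Polynomial.C c * Polynomial.X ^ (n + 1) := hj (by
      rw [h, map_mul, map_pow, hC, hτ, Int.ofNat_eq_natCast, zpow_natCast, Units.val_pow_eq_pow_val])
    rw [h1, Polynomial.coeff_C_mul, Polynomial.coeff_X_pow, if_neg n.succ_ne_zero.symm, mul_zero]
  · refine absurd ?_ hP
    have h1 : P * Polynomial.X ^ (n + 1) = Polynomial.C c := hj (by
      rw [map_mul, h, map_pow, hC, hτ, zpow_negSucc, ← Units.val_pow_eq_pow_val, mul_assoc,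
        Units.inv_mul, mul_one])
    have h2 := congrArg (fun Q => Q.coeff (0 + (n + 1))) h1
    simp only [Polynomial.coeff_mul_X_pow] at h2
    rw [h2, Polynomial.coeff_C, if_neg (by omega)]

end Points

section Tensor

variable {k A A' M : Type} [Field k] [CommRing A] [Algebra k A] [CommRing A'] [Algebra k A']
  [CommRing M] [Algebra k M]

theorem algd_expand (z : A ⊗[k] M) : ∃ (ι : Type) (s : Finset ι) (ε : ι → M →ₗ[k] k)
    (b : ι → M), z = ∑ i ∈ s, wtc_ct (ε i) z ⊗ₜ[k] b i := by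
  classical
  let b := Module.Basis.ofVectorSpace k M
  obtain ⟨c, rfl⟩ := TensorProduct.eq_repr_basis_right b z
  refine ⟨_, c.support, b.coord, b, Finset.sum_congr rfl fun i _ => ?_⟩
  rw [map_finsuppSum, Finsupp.sum, Finset.sum_eq_single i]
  · rw [wtc_tmul, Module.Basis.coord_apply, b.repr_self, Finsupp.single_eq_same, one_smul]
  · intro j _ hj
    rw [wtc_tmul, Module.Basis.coord_apply, b.repr_self, Finsupp.single_eq_of_ne' hj, zero_smul]
  · intro hi
    rw [wtc_tmul, Finsupp.notMem_support_iff.1 hi, smul_zero]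

/-- ALGD.  Use a basis of `M` as in `wtc_exists`. -/
theorem tensor_dvd {π : A} {z : A ⊗[k] M} (h : ∀ ε : M →ₗ[k] k, π ∣ wtc_ct ε z) :
    ∃ z', z = z' * Algebra.TensorProduct.includeLeftRingHom π := by
  obtain ⟨ι, s, ε, b, hz⟩ := algd_expand z
  choose w hw using h
  refine ⟨∑ i ∈ s, w (ε i) ⊗ₜ b i, hz.trans ?_⟩
  rw [Finset.sum_mul]
  refine Finset.sum_congr rfl fun i _ => ?_
  rw [Algebra.TensorProduct.includeLeftRingHom_apply, Algebra.TensorProduct.tmul_mul_tmul,
    mul_one, mul_comm, ← hw]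

/-- ALGD. -/
theorem tensor_cancel [IsDomain A] {a : A} (ha : a ≠ 0) {z z' : A ⊗[k] M}
    (h : z * Algebra.TensorProduct.includeLeftRingHom a =
      z' * Algebra.TensorProduct.includeLeftRingHom a) : z = z' := by
  by_contra hne
  obtain ⟨ε, hε⟩ := wtc_exists (sub_ne_zero.2 hne)
  have h1 := wtc_mul ε (z - z') a
  rw [sub_mul, h, sub_self, map_zero] at h1
  exact mul_ne_zero hε ha h1.symm

theorem algd_fixed {Ω : Type} [Field Ω] [Algebra k Ω] [IsAlgClosed Ω] {p : ℕ} [Fact p.Prime]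
    [CharP k p] (e : A →ₐ[k] Ω) (he : Function.Injective e)
    (halg : ∀ x : Ω, ∃ P : Polynomial A, P ≠ 0 ∧ P.eval₂ (e : A →+* Ω) x = 0) {x : Ω}
    (hx : ∀ θ : Ω →ₐ[k] Ω, θ.comp e = e → θ x = x) :
    ∃ (N : ℕ) (d a : A), d ≠ 0 ∧ e a = x ^ p ^ N * e d := by
  have : IsDomain A := Function.Injective.isDomain (e : A →+* Ω) he
  let _ : Algebra A Ω := (e : A →+* Ω).toAlgebra
  have : FaithfulSMul A Ω := (faithfulSMul_iff_algebraMap_injective A Ω).2 he
  let _ : Algebra (FractionRing A) Ω := FractionRing.liftAlgebra A Ω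
  have hK : ∀ a, algebraMap (FractionRing A) Ω (algebraMap A _ a) = e a := fun a =>
    (IsScalarTower.algebraMap_apply A (FractionRing A) Ω a).symm
  have : Algebra.IsAlgebraic (FractionRing A) Ω :=
    ⟨fun y => (IsFractionRing.isAlgebraic_iff A (FractionRing A) Ω).1 (halg y)⟩
  have : CharP (FractionRing A) p := charP_of_injective_algebraMap (algebraMap k _).injective p
  obtain ⟨N, y, hy⟩ := pow_mem_of_fixed (K := FractionRing A) (p := p) (x := x) fun θ => by
    have h1 : ∀ a, θ (e a) = e a := fun a => by rw [← hK, θ.commutes]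
    exact hx ⟨(θ : Ω →+* Ω), fun c => by rw [← e.commutes]; exact h1 _⟩ (AlgHom.ext h1)
  obtain ⟨⟨a, d⟩, h⟩ := IsLocalization.surj (nonZeroDivisors A) y
  refine ⟨N, d, a, nonZeroDivisors.coe_ne_zero d, ?_⟩
  rw [← hy, ← hK, ← hK, ← map_mul, h]

/-- ALGD.  Galois descent with denominators.  Expand `z` in a basis of `M`; every coefficient is
fixed by the automorphisms over the fraction field `K` of `A`, so a `p ^ N`-th power lies in `K`
(`pow_mem_of_fixed`); `(∑ z_i ⊗ b_i) ^ p ^ N = ∑ z_i ^ p ^ N ⊗ b_i ^ p ^ N`; clear denominators. -/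
theorem tensor_descent {Ω : Type} [Field Ω] [Algebra k Ω] [IsAlgClosed Ω] {p : ℕ} [Fact p.Prime]
    [CharP k p] (e : A →ₐ[k] Ω) (he : Function.Injective e)
    (halg : ∀ x : Ω, ∃ P : Polynomial A, P ≠ 0 ∧ P.eval₂ (e : A →+* Ω) x = 0) (z : Ω ⊗[k] M)
    (hz : ∀ θ : Ω →ₐ[k] Ω, θ.comp e = e → wtc_bc M θ z = z) :
    ∃ (N : ℕ) (d : A) (y : A ⊗[k] M), d ≠ 0 ∧
      wtc_bc M e y = z ^ p ^ N * Algebra.TensorProduct.includeLeftRingHom (e d) := by
  have : IsDomain A := Function.Injective.isDomain (e : A →+* Ω) he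
  rcases subsingleton_or_nontrivial (Ω ⊗[k] M) with hs | hs
  · exact ⟨0, 1, 0, one_ne_zero, Subsingleton.elim _ _⟩
  have : CharP (Ω ⊗[k] M) p := charP_of_injective_algebraMap (algebraMap k _).injective p
  have hl : ∀ d : A, wtc_bc M e (Algebra.TensorProduct.includeLeftRingHom d) =
      Algebra.TensorProduct.includeLeftRingHom (e d) := fun d => rfl
  obtain ⟨ι, s, ε, b, hs⟩ := algd_expand z
  rw [hs]
  refine Finset.sum_induction _ (fun w : Ω ⊗[k] M => ∃ (N : ℕ) (d : A) (y : A ⊗[k] M), d ≠ 0 ∧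
    wtc_bc M e y = w ^ p ^ N * Algebra.TensorProduct.includeLeftRingHom (e d)) ?_
    ⟨0, 1, 0, one_ne_zero, by rw [map_zero, pow_zero, pow_one, zero_mul]⟩ fun i _ => ?_
  · rintro v w ⟨N, d, y, hd, hy⟩ ⟨N', d', y', hd', hy'⟩
    refine ⟨N + N', d ^ p ^ N' * d' ^ p ^ N,
      y ^ p ^ N' * Algebra.TensorProduct.includeLeftRingHom d' ^ p ^ N +
        y' ^ p ^ N * Algebra.TensorProduct.includeLeftRingHom d ^ p ^ N',
      mul_ne_zero (pow_ne_zero _ hd) (pow_ne_zero _ hd'), ?_⟩
    simp only [map_add, map_mul, map_pow, hy, hy', hl, add_pow_char_pow, mul_pow, ← pow_mul]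
    rw [← pow_add, ← pow_add, add_comm N' N]
    ring
  · obtain ⟨N, d, a, hd, ha⟩ := algd_fixed (p := p) e he halg (x := wtc_ct (ε i) z) fun θ hθ => by
      rw [← wtc_map, hz θ hθ]
    refine ⟨N, d, a ⊗ₜ (b i ^ p ^ N), hd, ?_⟩
    rw [wtc_bc_tmul, Algebra.TensorProduct.includeLeftRingHom_apply,
      Algebra.TensorProduct.tmul_pow, Algebra.TensorProduct.tmul_mul_tmul, mul_one, ha]

/-- ALGD.  An algebraic closure of the fraction field. -/
theorem exists_closure (k A : Type) [Field k] [CommRing A] [IsDomain A] [Algebra k A] :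
    ∃ (Ω : Type) (_ : Field Ω) (_ : Algebra k Ω) (_ : IsAlgClosed Ω) (e : A →ₐ[k] Ω),
      Function.Injective e ∧
        ∀ x : Ω, ∃ P : Polynomial A, P ≠ 0 ∧ P.eval₂ (e : A →+* Ω) x = 0 := by
  refine ⟨AlgebraicClosure (FractionRing A), inferInstance, inferInstance, inferInstance,
    IsScalarTower.toAlgHom k A _, ?_, fun x => ?_⟩
  · exact (algebraMap (FractionRing A) (AlgebraicClosure (FractionRing A))).injective.comp
      (IsFractionRing.injective A (FractionRing A))
  · exact (IsFractionRing.isAlgebraic_iff A (FractionRing A) _).2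
      (Algebra.IsAlgebraic.isAlgebraic x)

end Tensor

end Pool.Agent.MP_b8b722_ag

end

end partAlg

section partLU0

/-!
Gaussian elimination.
-/

set_option linter.unusedSectionVars false
set_option linter.unusedVariables false

open Matrix

noncomputable section

namespace Pool.Agent.MP_b8b722_ag

theorem lu0_step {N : ℕ} {S : Type} [CommRing S] (y : Matrix (Fin N) (Fin N) S) (c₀ r : Fin N)
    (p : S) (hp : y r c₀ * p = 1) :
    y = (Matrix.of fun m c => if c < c₀ then y m c - y m c₀ * p * y r c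
        else if c = c₀ then y m c₀ * p else y m c) *
      Matrix.of fun l c => if l = c₀ then (if c ≤ c₀ then y r c else 0)
        else if l = c then 1 else 0 := by
  ext m c
  rw [Matrix.mul_apply, ← Finset.add_sum_erase _ _ (Finset.mem_univ c₀)]
  simp only [Matrix.of_apply, lt_irrefl, if_true, if_false]
  by_cases hc : c = c₀
  · subst hc
    rw [Finset.sum_eq_zero fun l hl => by
      simp only [if_neg (Finset.ne_of_mem_erase hl), mul_zero]]
    rw [if_pos le_rfl]
    linear_combination (-(y m c)) * hp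
  · rw [Finset.sum_eq_single c (fun l hl hlc => by
      simp only [if_neg (Finset.ne_of_mem_erase hl), if_neg hlc, mul_zero])
      fun h => absurd (Finset.mem_erase.2 ⟨hc, Finset.mem_univ c⟩) h]
    simp only [if_neg hc, if_true, mul_one]
    by_cases hl : c < c₀
    · rw [if_pos hl, if_pos hl.le]
      ring
    · rw [if_neg hl, if_neg fun h => hl (lt_of_le_of_ne h hc)]
      ring

theorem lu0_elim {N : ℕ} {S : Type} [CommRing S] (cl : Fin N → ℕ)
    (R : (Fin N → S) → Fin N → Fin N → Prop) (x : Matrix (Fin N) (Fin N) S)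
    (hx : ∀ a b, cl a ≠ cl b → x a b = 0)
    (H : ∀ (c₀ : Fin N) (y β : Matrix (Fin N) (Fin N) S) (π : Fin N → Fin N), x = y * β →
      (∀ a b, cl a ≠ cl b → y a b = 0) → (∀ m c, m < c → β m c = 0) →
      (∀ c c', c₀ < c' → c < c' → y (π c') c = 0) →
      (∀ c, c₀ < c → R (fun m => y m c) (π c) c) →
      ∃ r p, cl r = cl c₀ ∧ y r c₀ * p = 1 ∧ R (fun m => y m c₀ * p) r c₀) :
    ∃ (π : Fin N → Fin N) (y β : Matrix (Fin N) (Fin N) S), x = y * β ∧
      (∀ a b, cl a ≠ cl b → y a b = 0) ∧ (∀ m c, ¬ (cl m = cl c ∧ c ≤ m) → β m c = 0) ∧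
      (∀ c c', c < c' → y (π c') c = 0) ∧
      ∀ c, cl (π c) = cl c ∧ y (π c) c = 1 ∧ R (fun m => y m c) (π c) c := by
  have key : ∀ k, k ≤ N → ∃ (π : Fin N → Fin N) (y β : Matrix (Fin N) (Fin N) S), x = y * β ∧
      (∀ a b, cl a ≠ cl b → y a b = 0) ∧ (∀ m c, ¬ (cl m = cl c ∧ c ≤ m) → β m c = 0) ∧
      (∀ c c', k ≤ c'.val → c < c' → y (π c') c = 0) ∧
      ∀ c, k ≤ c.val → cl (π c) = cl c ∧ y (π c) c = 1 ∧ R (fun m => y m c) (π c) c := by
    intro k hk
    induction hk using Nat.decreasingInduction with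
    | self =>
      refine ⟨id, x, 1, (mul_one x).symm, hx, fun m c h => Matrix.one_apply_ne ?_,
        fun c c' h => absurd c'.isLt (not_lt.2 h), fun c h => absurd c.isLt (not_lt.2 h)⟩
      rintro rfl
      exact h ⟨rfl, le_rfl⟩
    | of_succ k hk ih =>
      obtain ⟨π, y, β, h1, h2, h3, h4, h5⟩ := ih
      obtain ⟨c₀, rfl⟩ : ∃ c₀ : Fin N, c₀.val = k := ⟨⟨k, hk⟩, rfl⟩
      obtain ⟨r, p, hr, hp, hR⟩ := H c₀ y β π h1 h2 (fun m c h => h3 m c fun h' => h'.2.not_gt h)
        (fun c c' h => h4 c c' h) fun c h => (h5 c h).2.2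
      refine ⟨Function.update π c₀ r, _, _,
        h1.trans ((congrArg (· * β) (lu0_step y c₀ r p hp)).trans (mul_assoc _ _ _)),
        fun a b hab => ?_, fun m c hmc => ?_, fun c c' hc' hc => ?_, fun c hc => ?_⟩
      · simp only [Matrix.of_apply]
        split_ifs with e1 e2
        · by_cases e : cl b = cl c₀
          · rw [h2 a b hab, h2 a c₀ (e ▸ hab)]
            ring
          · rw [h2 a b hab, h2 r b fun h => e (h.symm.trans hr)]
            ring
        · rw [h2 a c₀ (e2 ▸ hab), zero_mul]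
        · exact h2 a b hab
      · rw [Matrix.mul_apply]
        refine Finset.sum_eq_zero fun l _ => ?_
        by_cases e : cl l = cl c ∧ c ≤ l
        · have e' : ¬ (cl m = cl l ∧ l ≤ m) := fun h => hmc ⟨h.1.trans e.1, e.2.trans h.2⟩
          simp only [Matrix.of_apply]
          split_ifs with e1 e2 e3
          · rw [h2 r l fun h => e' ⟨e1 ▸ hr.symm.trans h, e1 ▸ e2⟩, zero_mul]
          · rw [zero_mul]
          · exact absurd ⟨by rw [e3], e3.ge⟩ e'
          · rw [zero_mul]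
        · rw [h3 l c e, mul_zero]
      · simp only [Matrix.of_apply]
        rcases eq_or_lt_of_le (show c₀ ≤ c' from hc') with e | e
        · subst e
          rw [Function.update_self, if_pos hc, hp]
          ring
        · rw [Function.update_of_ne e.ne', h4 c c' e hc, h4 c₀ c' e e]
          split_ifs <;> ring
      · simp only [Matrix.of_apply]
        rcases eq_or_lt_of_le (show c₀ ≤ c from hc) with e | e
        · subst e
          simp only [Function.update_self, lt_irrefl, if_true, if_false]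
          exact ⟨hr, hp, hR⟩
        · simp only [Function.update_of_ne e.ne', if_neg e.not_gt, if_neg e.ne']
          exact h5 c e
  obtain ⟨π, y, β, h1, h2, h3, h4, h5⟩ := key 0 (Nat.zero_le N)
  exact ⟨π, y, β, h1, h2, h3, fun c c' => h4 c c' (Nat.zero_le _), fun c => h5 c (Nat.zero_le _)⟩

theorem lu0_units {N : ℕ} {S : Type} [CommRing S] {x : GL (Fin N) S}
    {y β : Matrix (Fin N) (Fin N) S} (h : x.val = y * β) : IsUnit y ∧ IsUnit β := by
  have := (Matrix.isUnit_iff_isUnit_det _).1 x.isUnit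
  rw [h, Matrix.det_mul, IsUnit.mul_iff] at this
  exact ⟨(Matrix.isUnit_iff_isUnit_det _).2 this.1, (Matrix.isUnit_iff_isUnit_det _).2 this.2⟩

/-- Column elimination with an arbitrary pivot rule `R`.  Construct the columns `a · c` by
downward induction on `c`: subtract from `x · c` multiples of the `a · c'`, `c' > c`, to kill the
entries in the rows `π c'`, the result `y` is non-zero; choose the pivot row by `hR`. -/
theorem exists_pivot {N : ℕ} {F : Type} [Field F] (cl : Fin N → ℕ)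
    (R : (Fin N → F) → Fin N → Prop)
    (hR : ∀ y : Fin N → F, y ≠ 0 → ∃ r, y r ≠ 0 ∧ R (fun m => y m / y r) r)
    (x : GL (Fin N) F) (hx : ∀ a b, cl a ≠ cl b → x.val a b = 0) :
    ∃ (π : Equiv.Perm (Fin N)) (a β : GL (Fin N) F), x = a * β ∧ (∀ c, cl (π c) = cl c) ∧
      (∀ m c, cl m ≠ cl c → a.val m c = 0) ∧ (∀ m c, cl m ≠ cl c → β.val m c = 0) ∧
      (∀ m c, m < c → β.val m c = 0) ∧ (∀ c, a.val (π c) c = 1) ∧
      (∀ c c', c < c' → a.val (π c') c = 0) ∧ ∀ c, R (fun m => a.val m c) (π c) := by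
  obtain ⟨π, y, β, h1, h2, h3, h4, h5⟩ := lu0_elim cl (fun v r _ => R v r) x.val hx (by
    intro c₀ y β π h1 h2 _ _ _
    have hy : (fun m => y m c₀) ≠ 0 := fun h =>
      ((Matrix.isUnit_iff_isUnit_det _).1 (lu0_units h1).1).ne_zero
        (Matrix.det_eq_zero_of_column_eq_zero c₀ fun m => congrFun h m)
    obtain ⟨r, hr, hr'⟩ := hR _ hy
    refine ⟨r, (y r c₀)⁻¹, by_contra fun h => hr (h2 r c₀ h), mul_inv_cancel₀ hr, ?_⟩
    simpa only [div_eq_mul_inv] using hr')
  have hinj : Function.Injective π := by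
    have key : ∀ c c', c < c' → π c ≠ π c' := fun c c' h e => by
      have := h4 c c' h
      rw [← e, (h5 c).2.1] at this
      exact one_ne_zero this
    intro c c' e
    rcases lt_trichotomy c c' with h | h | h
    exacts [absurd e (key c c' h), h, absurd e.symm (key c' c h)]
  obtain ⟨⟨a, rfl⟩, ⟨b, rfl⟩⟩ := lu0_units h1
  exact ⟨Equiv.ofBijective π (Finite.injective_iff_bijective.1 hinj), a, b, Units.ext h1,
    fun c => (h5 c).1, h2, fun m c h => h3 m c fun h' => h h'.1,
    fun m c h => h3 m c fun h' => h'.2.not_gt h, fun c => (h5 c).2.1, h4, fun c => (h5 c).2.2⟩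

/-- `UL` decompositions lift along local homomorphisms (only the diagonal entries of `β` have to
be inverted in the elimination). -/
theorem exists_UL {N : ℕ} {S S' : Type} [CommRing S] [CommRing S'] (f : S →+* S') [IsLocalHom f]
    (x : GL (Fin N) S) (u' β' : GL (Fin N) S') (hu : ∀ a b, b < a → u'.val a b = 0)
    (hu1 : ∀ a, u'.val a a = 1) (hβ : ∀ a b, a < b → β'.val a b = 0)
    (h : Matrix.GeneralLinearGroup.map f x = u' * β') :
    ∃ u β : GL (Fin N) S, (∀ a b, b < a → u.val a b = 0) ∧ (∀ a, u.val a a = 1) ∧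
      (∀ a b, a < b → β.val a b = 0) ∧ x = u * β := by
  obtain ⟨π, y, β, h1, -, h3, h4, h5⟩ := lu0_elim (fun _ => 0) (fun _ r c => r = c) x.val
    (fun _ _ h => absurd rfl h) (by
    intro c₀ y β π h1 _ h3 h4 h5
    obtain ⟨⟨y, rfl⟩, ⟨β, rfl⟩⟩ := lu0_units h1
    have h1' : x = y * β := Units.ext h1
    set b := Matrix.GeneralLinearGroup.map f β with hb
    have hb1 : b.val.BlockTriangular OrderDual.toDual := fun i j hij => by
      show f (β.val i j) = 0
      rw [h3 i j hij, map_zero]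
    have hb2 : b⁻¹.val.BlockTriangular OrderDual.toDual := by
      have := b.invertible
      rw [Matrix.coe_units_inv]
      exact Matrix.blockTriangular_inv_of_blockTriangular hb1
    have hu2 : u'⁻¹.val.BlockTriangular id := by
      have := u'.invertible
      rw [Matrix.coe_units_inv]
      exact Matrix.blockTriangular_inv_of_blockTriangular fun i j hij => hu i j hij
    set γ := β' * b⁻¹ with hγ
    have hγ1 : γ.val.BlockTriangular OrderDual.toDual :=
      Matrix.BlockTriangular.mul (fun i j hij => hβ i j hij) hb2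
    have e1 : Matrix.GeneralLinearGroup.map f y = u' * γ := by
      rw [hγ, ← mul_assoc, ← h, h1', map_mul, mul_inv_cancel_right]
    have e2 : ∀ l, c₀ < l → γ.val l c₀ = 0 := fun l hl => by
      have : γ = u'⁻¹ * Matrix.GeneralLinearGroup.map f y := by rw [e1, inv_mul_cancel_left]
      rw [this, Units.val_mul, Matrix.mul_apply]
      refine Finset.sum_eq_zero fun n _ => ?_
      by_cases hn : n < l
      · rw [hu2 hn, zero_mul]
      · have hn' := lt_of_lt_of_le hl (not_lt.1 hn)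
        have := h4 c₀ n hn' hn'
        rw [h5 n hn'] at this
        show _ * f (y.val n c₀) = 0
        rw [this, map_zero, mul_zero]
    have e3 : f (y.val c₀ c₀) = γ.val c₀ c₀ := by
      show (Matrix.GeneralLinearGroup.map f y).val c₀ c₀ = _
      rw [e1, Units.val_mul, Matrix.mul_apply, Finset.sum_eq_single c₀, hu1, one_mul]
      · intro l _ hl
        rcases lt_or_gt_of_ne hl with hl | hl
        · rw [hu c₀ l hl, zero_mul]
        · rw [e2 l hl, mul_zero]
      · exact fun h => absurd (Finset.mem_univ _) h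
    have e4 : IsUnit (γ.val c₀ c₀) := by
      have := (Matrix.isUnit_iff_isUnit_det _).1 γ.isUnit
      rw [Matrix.det_of_isLowerTriangular _ hγ1] at this
      exact isUnit_of_dvd_unit (Finset.dvd_prod_of_mem (fun i => γ.val i i) (Finset.mem_univ c₀))
        this
    obtain ⟨p, hp⟩ := (IsUnit.of_map f _ (e3 ▸ e4)).exists_right_inv
    exact ⟨c₀, p, rfl, hp, rfl⟩)
  obtain ⟨⟨a, rfl⟩, ⟨b, rfl⟩⟩ := lu0_units h1
  refine ⟨a, b, fun i j hij => ?_, fun i => ?_, fun i j hij => h3 i j fun h' => h'.2.not_gt hij,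
    Units.ext h1⟩
  · have := h4 j i hij
    rwa [(h5 i).2.2] at this
  · have := (h5 i).2.1
    rwa [(h5 i).2.2] at this

end Pool.Agent.MP_b8b722_ag

end

end partLU0

section partConv

/-!
A convexity lemma for positive semidefinite (not symmetric) matrices and the induction over flags
of strata.
-/

set_option linter.unusedSectionVars false
set_option linter.unusedVariables false

open Matrix

namespace Pool.Agent.MP_b8b722_ag

/-- Either some convex combination makes all rows non-negative, or some convex combination makes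
all rows equal to the same negative number. -/
theorem conva_max {ι : Type*} [Fintype ι] [DecidableEq ι] [Nonempty ι] (G : ι → ι → ℝ)
    (hG : ∀ j i, j ≠ i → 0 ≤ G j i) :
    ∃ l : ι → ℝ, (∀ i, 0 ≤ l i) ∧ ∑ i, l i = 1 ∧
      ((∀ j, 0 ≤ ∑ i, l i * G j i) ∨ ∃ μ : ℝ, 0 < μ ∧ ∀ j, ∑ i, l i * G j i = -μ) := by
  have hne : (Finset.univ : Finset ι).Nonempty := Finset.univ_nonempty
  let φ : (ι → ℝ) → ℝ := fun l => Finset.univ.inf' hne fun j => ∑ i, l i * G j i
  have hc : Continuous φ := by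
    refine Continuous.finset_inf'_apply hne fun j _ => ?_
    exact continuous_finsetSum _ fun i _ => (continuous_apply i).mul continuous_const
  have hS : (stdSimplex ℝ ι).Nonempty :=
    ⟨Pi.single (Classical.arbitrary ι) 1, single_mem_stdSimplex ℝ _⟩
  obtain ⟨l, hl, hmax⟩ := (isCompact_stdSimplex ℝ ι).exists_isMaxOn hS hc.continuousOn
  refine ⟨l, hl.1, hl.2, ?_⟩
  have hle : ∀ j, φ l ≤ ∑ i, l i * G j i := fun j => Finset.inf'_le _ (Finset.mem_univ j)
  by_cases hφ : 0 ≤ φ l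
  · exact Or.inl fun j => hφ.trans (hle j)
  refine Or.inr ⟨-φ l, by linarith, fun i₀ => ?_⟩
  rw [neg_neg]
  by_contra hi
  have hlt : φ l < ∑ i, l i * G i₀ i := lt_of_le_of_ne (hle i₀) (Ne.symm hi)
  set s : ℝ := ∑ i, l i * G i₀ i with hs
  set c : ℝ := |s - G i₀ i₀| + (s - φ l) with hcdef
  have hab : 0 ≤ |s - G i₀ i₀| := abs_nonneg _
  have hc0 : 0 < c := by linarith
  set ε : ℝ := (s - φ l) / (2 * c) with hε
  have hε0 : 0 < ε := div_pos (by linarith only [hlt]) (by linarith)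
  have hεc : ε * c = (s - φ l) / 2 := by rw [hε]; field_simp
  have hε1 : ε ≤ 1 := by
    rw [hε, div_le_one (by linarith only [hlt, hab])]; linarith only [hlt, hab]
  let l' : ι → ℝ := fun i => (1 - ε) * l i + ε * (Pi.single i₀ (1 : ℝ) : ι → ℝ) i
  have hl' : l' ∈ stdSimplex ℝ ι := by
    refine ⟨fun i => ?_, ?_⟩
    · exact add_nonneg (mul_nonneg (by linarith only [hε1]) (hl.1 i))
        (mul_nonneg hε0.le ((single_mem_stdSimplex ℝ i₀).1 i))
    · simp only [l', Finset.sum_add_distrib, ← Finset.mul_sum, hl.2,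
        (single_mem_stdSimplex ℝ i₀).2]
      ring
  have hsum : ∀ j, ∑ i, l' i * G j i = (1 - ε) * ∑ i, l i * G j i + ε * G j i₀ := by
    intro j
    have h1 : ∑ i, (Pi.single i₀ (1 : ℝ) : ι → ℝ) i * G j i = G j i₀ := by
      rw [Finset.sum_eq_single i₀]
      · simp
      · intro i _ hi; simp [hi]
      · simp
    simp only [l', add_mul, mul_assoc, Finset.sum_add_distrib, ← Finset.mul_sum, h1]
  have hbig : φ l < φ l' := by
    refine (Finset.lt_inf'_iff hne).2 fun j _ => ?_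
    rw [hsum]
    by_cases hj : j = i₀
    · subst hj
      rw [← hs]
      have h2 : ε * (s - G j j) ≤ ε * c :=
        mul_le_mul_of_nonneg_left (by linarith only [le_abs_self (s - G j j), hlt]) hε0.le
      linarith only [hlt, hεc, h2]
    · have h2 : (1 - ε) * φ l ≤ (1 - ε) * ∑ i, l i * G j i :=
        mul_le_mul_of_nonneg_left (hle j) (by linarith only [hε1])
      have h3 : 0 ≤ ε * G j i₀ := mul_nonneg hε0.le (hG j i₀ hj)
      have h4 : 0 < ε * -φ l := mul_pos hε0 (by linarith only [hφ])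
      linarith only [h2, h3, h4]
  exact absurd (hmax hl') (not_le.2 hbig)

/-- Maximise `min_{j ∈ J} (b j - (A a) j)` over the convex hull of the `a i` (compactness of
`stdSimplex ℝ J`).  If the maximum `-μ` is negative, all `j ∈ J` are active at the maximiser
`a* = ∑ λ i • a i` (otherwise move towards `a i` for an inactive `i`).  With `N j i = (A (a* - a i)) j`
we have `N j i ≥ μ` for `j ≠ i` and `∑ i, λ i * N j i = 0`.  Averaging
`0 ≤ ⟨a* - a i, A (a* - a i)⟩` with the weights `λ i` gives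
`0 ≤ - ∑_{i ≠ j} λ i * (a i j - m j) * N j i`, hence `λ i * (a i j - m j) = 0` for all `i, j ∈ J`,
so `a* = a i` for an `i` with `λ i > 0`, contradicting `N j i ≥ μ` for some `j ≠ i`. -/
theorem convex_psd {d : ℕ} (A : Matrix (Fin d) (Fin d) ℝ) (b : Fin d → ℝ)
    (psd : ∀ v : Fin d → ℝ, 0 ≤ ∑ j, v j * A.mulVec v j) (J : Finset (Fin d)) (hJ : 2 ≤ J.card)
    (m : Fin d → ℝ) (a : Fin d → Fin d → ℝ) (h0 : ∀ i ∈ J, ∀ j, j ∉ J → a i j = m j)
    (h1 : ∀ i ∈ J, ∀ j ∈ J, m j ≤ a i j) (h2 : ∀ i ∈ J, a i i = m i)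
    (h3 : ∀ i ∈ J, ∀ j ∈ J, j ≠ i → A.mulVec (a i) j ≤ b j) :
    ∃ a' : Fin d → ℝ, (∀ j, j ∉ J → a' j = m j) ∧ (∀ j ∈ J, m j ≤ a' j) ∧
      ∀ j ∈ J, A.mulVec a' j ≤ b j := by
  classical
  have hne : J.Nonempty := Finset.card_pos.1 (by omega)
  have : Nonempty J := hne.to_subtype
  obtain ⟨l, hl0, hl1, h⟩ := conva_max (ι := J) (fun j i => b j - A.mulVec (a i) j)
    fun j i hji => sub_nonneg.2 (h3 i i.2 j j.2 fun e => hji (Subtype.ext e))
  let x : Fin d → ℝ := ∑ i : J, l i • a i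
  have hx : ∀ j, x j = ∑ i : J, l i * a i j := fun j => by
    simp only [x, Finset.sum_apply, Pi.smul_apply, smul_eq_mul]
  have hAx : ∀ j, A.mulVec x j = ∑ i : J, l i * A.mulVec (a i) j := fun j => by
    simp only [x, Matrix.mulVec_sum, Matrix.mulVec_smul, Finset.sum_apply, Pi.smul_apply,
      smul_eq_mul]
  have hone : ∀ t : ℝ, ∑ i : J, l i * t = t := fun t => by rw [← Finset.sum_mul, hl1, one_mul]
  have hG : ∀ j, ∑ i : J, l i * (b j - A.mulVec (a i) j) = b j - A.mulVec x j := fun j => by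
    simp only [mul_sub, Finset.sum_sub_distrib, hone, hAx]
  have hoff : ∀ j, j ∉ J → x j = m j := fun j hj => by
    rw [hx, ← hone (m j)]
    exact Finset.sum_congr rfl fun i _ => by rw [h0 i i.2 j hj]
  rcases h with h | ⟨μ, hμ, h⟩
  · refine ⟨x, hoff, fun j hj => ?_, fun j hj => ?_⟩
    · rw [hx, ← hone (m j)]
      exact Finset.sum_le_sum fun i _ => mul_le_mul_of_nonneg_left (h1 i i.2 j hj) (hl0 i)
    · have := h ⟨j, hj⟩
      rw [hG] at this
      linarith only [this]
  exfalso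
  let N : Fin d → J → ℝ := fun j i => A.mulVec x j - A.mulVec (a i) j
  have hN : ∀ j ∈ J, ∀ i : J, j ≠ i → μ ≤ N j i := fun j hj i hji => by
    have e1 := h ⟨j, hj⟩
    rw [hG] at e1
    have e2 := h3 i i.2 j hj hji
    simp only [N] at e1 ⊢
    linarith only [e1, e2]
  have hN0 : ∀ j, ∑ i : J, l i * N j i = 0 := fun j => by
    simp only [N, mul_sub, Finset.sum_sub_distrib, hone, ← hAx, sub_self]
  have hp : ∀ i : J, 0 ≤ ∑ j, (x j - a i j) * N j i := fun i => by
    have := psd (x - a i)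
    simpa only [Matrix.mulVec_sub, Pi.sub_apply] using this
  let t : J → Fin d → ℝ := fun i j => l i * (a i j - m j) * N j i
  have ht : ∀ i j, 0 ≤ t i j := fun i j => by
    by_cases hj : j ∈ J
    · by_cases hji : j = i
      · simp only [t, hji, h2 i i.2, sub_self, mul_zero, zero_mul, le_refl]
      · exact mul_nonneg (mul_nonneg (hl0 i) (sub_nonneg.2 (h1 i i.2 j hj)))
          (hμ.le.trans (hN j hj i hji))
    · simp only [t, h0 i i.2 j hj, sub_self, mul_zero, zero_mul, le_refl]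
  have hsum : ∑ i, ∑ j, t i j ≤ 0 := by
    have e1 : 0 ≤ ∑ i : J, l i * ∑ j, (x j - a i j) * N j i :=
      Finset.sum_nonneg fun i _ => mul_nonneg (hl0 i) (hp i)
    have e2 : ∑ i : J, ∑ j, (x j - m j) * (l i * N j i) = 0 := by
      rw [Finset.sum_comm]
      exact Finset.sum_eq_zero fun j _ => by rw [← Finset.mul_sum, hN0, mul_zero]
    have e3 : ∑ i : J, l i * ∑ j, (x j - a i j) * N j i =
        ∑ i : J, ∑ j, (x j - m j) * (l i * N j i) - ∑ i, ∑ j, t i j := by
      rw [← Finset.sum_sub_distrib]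
      refine Finset.sum_congr rfl fun i _ => ?_
      rw [← Finset.sum_sub_distrib, Finset.mul_sum]
      exact Finset.sum_congr rfl fun j _ => by simp only [t]; ring
    linarith only [e1, e2, e3]
  have ht0 : ∀ i j, t i j = 0 := fun i j => by
    have e1 : ∑ j, t i j ≤ ∑ i, ∑ j, t i j :=
      Finset.single_le_sum (f := fun i => ∑ j, t i j)
        (fun i _ => Finset.sum_nonneg fun j _ => ht i j) (Finset.mem_univ i)
    have e2 : t i j ≤ ∑ j, t i j :=
      Finset.single_le_sum (f := fun j => t i j) (fun j _ => ht i j) (Finset.mem_univ j)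
    linarith [ht i j]
  have hz : ∀ (i : J) j, l i * a i j = l i * m j := fun i j => by
    by_cases hj : j ∈ J
    · by_cases hji : j = i
      · rw [hji, h2 i i.2]
      · have e := ht0 i j
        have hpos : N j i ≠ 0 := (hμ.trans_le (hN j hj i hji)).ne'
        have := (mul_eq_zero.1 e).resolve_right hpos
        linarith only [this]
    · rw [h0 i i.2 j hj]
  obtain ⟨i, -, hi⟩ : ∃ i ∈ (Finset.univ : Finset J), l i ≠ 0 :=
    Finset.exists_ne_zero_of_sum_ne_zero (by rw [hl1]; exact one_ne_zero)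
  have hxa : x = a i := by
    funext j
    rw [hx, mul_left_cancel₀ hi (hz i j), ← hone (m j)]
    exact Finset.sum_congr rfl fun k _ => hz k j
  obtain ⟨j, hj, hji⟩ := Finset.exists_mem_ne (by omega : 1 < J.card) (i : Fin d)
  have := hN j hj i hji
  simp only [N, hxa, sub_self] at this
  linarith only [hμ, this]

theorem convb_exists {d : ℕ} {σ : List (Fin d)} (hσ : σ.Nodup) (f : List (Fin d) → Fin d → ℝ) :
    ∃ c : Fin d → ℝ, ∀ σ₁ i σ₂, σ = σ₁ ++ i :: σ₂ → c i = f σ₁ i := by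
  refine ⟨fun i => f (σ.take (σ.idxOf i)) i, ?_⟩
  rintro σ₁ i σ₂ rfl
  have hi : i ∉ σ₁ := fun h => (List.nodup_append.1 hσ).2.2 i h i List.mem_cons_self rfl
  simp only [List.idxOf_append_of_notMem hi, List.idxOf_cons_self, add_zero, List.take_left']

theorem convb_claim {d : ℕ} {K : Type*} (ex : K → List (Fin d) → Fin d → ℕ)
    (A : Matrix (Fin d) (Fin d) ℝ) (b : Fin d → ℝ)
    (psd : ∀ v : Fin d → ℝ, 0 ≤ ∑ j, v j * A.mulVec v j)
    (mono : ∀ y σ i j, (σ ++ [i, j]).Nodup → ex y σ j ≤ ex y (σ ++ [i]) j)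
    (bal : ∀ y σ j, (σ ++ [j]).Nodup → (∀ n, n ∈ σ ++ [j]) →
      ∃ y', (∀ σ₁ i σ₂, σ = σ₁ ++ i :: σ₂ → ex y' σ₁ i = ex y σ₁ i) ∧
        ∀ a : Fin d → ℝ, (∀ σ₁ i σ₂, σ ++ [j] = σ₁ ++ i :: σ₂ → a i = ex y' σ₁ i) →
          A.mulVec a j ≤ b j) (n : ℕ) :
    ∀ σ : List (Fin d), σ.Nodup → (Finset.univ.filter (· ∉ σ)).card = n + 1 → ∀ y₀ : K,
      ∃ a : Fin d → ℝ, (∀ σ₁ i σ₂, σ = σ₁ ++ i :: σ₂ → a i = ex y₀ σ₁ i) ∧
        (∀ j, j ∉ σ → ∃ y, (∀ σ₁ i σ₂, σ = σ₁ ++ i :: σ₂ → ex y σ₁ i = ex y₀ σ₁ i) ∧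
          (ex y σ j : ℝ) ≤ a j) ∧ ∀ j, j ∉ σ → A.mulVec a j ≤ b j := by
  have hnd : ∀ (σ : List (Fin d)) i, σ.Nodup → i ∉ σ → (σ ++ [i]).Nodup := fun σ i h hi =>
    List.nodup_append.2 ⟨h, List.nodup_singleton i, fun a ha c hc hac =>
      hi (by rw [← List.mem_singleton.1 hc, ← hac]; exact ha)⟩
  induction n with
  | zero =>
    intro σ hσ hc y₀
    obtain ⟨j, hj⟩ := Finset.card_eq_one.1 hc
    have hj' : ∀ i, i ∉ σ ↔ i = j := fun i => by
      rw [← Finset.mem_singleton, ← hj, Finset.mem_filter]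
      exact ⟨fun h => ⟨Finset.mem_univ i, h⟩, fun h => h.2⟩
    have hn := hnd σ j hσ ((hj' j).2 rfl)
    obtain ⟨y', h1, h2⟩ := bal y₀ σ j hn fun i => by
      by_cases hi : i ∈ σ
      · exact List.mem_append_left _ hi
      · exact List.mem_append_right _ (List.mem_singleton.2 ((hj' i).1 hi))
    obtain ⟨a, ha⟩ := convb_exists hn fun l i => ex y' l i
    refine ⟨a, fun σ₁ i σ₂ h => ?_, fun i hi => ⟨y', h1, ?_⟩, fun i hi => ?_⟩
    · rw [ha σ₁ i (σ₂ ++ [j]) (by rw [h]; simp), h1 σ₁ i σ₂ h]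
    · rw [(hj' i).1 hi, ha σ j [] rfl]
    · rw [(hj' i).1 hi]
      exact h2 a ha
  | succ n ih =>
    intro σ hσ hc y₀
    have hmin : ∀ i : Fin d, ∃ y, (∀ σ₁ l σ₂, σ = σ₁ ++ l :: σ₂ → ex y σ₁ l = ex y₀ σ₁ l) ∧
        ∀ y', (∀ σ₁ l σ₂, σ = σ₁ ++ l :: σ₂ → ex y' σ₁ l = ex y₀ σ₁ l) → ex y σ i ≤ ex y' σ i := by
      intro i
      have hne : {y | ∀ σ₁ l σ₂, σ = σ₁ ++ l :: σ₂ → ex y σ₁ l = ex y₀ σ₁ l}.Nonempty :=
        ⟨y₀, fun _ _ _ _ => rfl⟩
      exact ⟨_, Function.argminOn_mem (fun y => ex y σ i) _ hne,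
        fun y' hy' => Function.argminOn_le (fun y => ex y σ i)
          {y | ∀ σ₁ l σ₂, σ = σ₁ ++ l :: σ₂ → ex y σ₁ l = ex y₀ σ₁ l} hy'⟩
    choose Y hY1 hY2 using hmin
    set J := Finset.univ.filter (· ∉ σ) with hJ
    have hmem : ∀ i, i ∈ J ↔ i ∉ σ := fun i => by simp only [hJ, Finset.mem_filter, Finset.mem_univ, true_and]
    have hstep : ∀ i, i ∉ σ → ∃ a : Fin d → ℝ,
        (∀ σ₁ l σ₂, σ = σ₁ ++ l :: σ₂ → a l = ex y₀ σ₁ l) ∧ a i = ex (Y i) σ i ∧
        (∀ j, j ∉ σ → (ex (Y j) σ j : ℝ) ≤ a j) ∧ ∀ j, j ∉ σ → j ≠ i → A.mulVec a j ≤ b j := by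
      intro i hi
      have hcard : (Finset.univ.filter (· ∉ σ ++ [i])).card = n + 1 := by
        have : Finset.univ.filter (· ∉ σ ++ [i]) = J.erase i := by
          ext l
          simp only [List.mem_append, List.mem_cons, List.not_mem_nil, or_false, not_or, and_comm, Finset.mem_filter, Finset.mem_univ, true_and, Finset.mem_erase, ne_eq, hmem]
        rw [this, Finset.card_erase_of_mem ((hmem i).2 hi), hc]
        rfl
      obtain ⟨a, h1, h2, h3⟩ := ih (σ ++ [i]) (hnd σ i hσ hi) hcard (Y i)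
      have hji : ∀ j, j ∉ σ → j ≠ i → j ∉ σ ++ [i] := fun j hj hne => by simp [hj, hne]
      have hai := h1 σ i [] rfl
      refine ⟨a, fun σ₁ l σ₂ h => ?_, hai, fun j hj => ?_, fun j hj hne => h3 j (hji j hj hne)⟩
      · rw [h1 σ₁ l (σ₂ ++ [i]) (by rw [h]; simp), hY1 i σ₁ l σ₂ h]
      · by_cases hne : j = i
        · rw [hne, hai]
        · obtain ⟨y, hy, hle⟩ := h2 j (hji j hj hne)
          have e1 := hY2 j y fun σ₁ l σ₂ h => by
            rw [hy σ₁ l (σ₂ ++ [i]) (by rw [h]; simp), hY1 i σ₁ l σ₂ h]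
          have e2 := mono y σ i j (by
            have := hnd _ j (hnd σ i hσ hi) (hji j hj hne)
            rwa [List.append_assoc] at this)
          exact le_trans (Nat.cast_le.2 (e1.trans e2)) hle
    choose! a ha1 ha2 ha3 ha4 using hstep
    obtain ⟨c, hc'⟩ := convb_exists hσ fun l i => ex y₀ l i
    obtain ⟨a', h1, h2, h3⟩ := convex_psd A b psd J (by omega)
      (fun j => if j ∈ σ then c j else ex (Y j) σ j) a
      (fun i hi j hj => by
        have hj' : j ∈ σ := by simpa [hmem] using hj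
        obtain ⟨σ₁, σ₂, h⟩ := List.append_of_mem hj'
        rw [if_pos hj', hc' σ₁ j σ₂ h, ha1 i ((hmem i).1 hi) σ₁ j σ₂ h])
      (fun i hi j hj => by
        rw [if_neg ((hmem j).1 hj)]
        exact ha3 i ((hmem i).1 hi) j ((hmem j).1 hj))
      (fun i hi => by rw [if_neg ((hmem i).1 hi), ha2 i ((hmem i).1 hi)])
      (fun i hi j hj hne => ha4 i ((hmem i).1 hi) j ((hmem j).1 hj) hne)
    refine ⟨a', fun σ₁ i σ₂ h => ?_, fun j hj => ⟨Y j, hY1 j, ?_⟩,
      fun j hj => h3 j ((hmem j).2 hj)⟩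
    · have hi : i ∈ σ := by rw [h]; simp
      rw [h1 i (fun h' => (hmem i).1 h' hi), if_pos hi, hc' σ₁ i σ₂ h]
    · have := h2 j ((hmem j).2 hj)
      rwa [if_neg hj] at this

/-- Claim, by downward induction on the length of a duplicate-free list `σ` that does not contain
all indices: for every `y₀` let `K'` be the set of `y` with the same exponents along `σ` as `y₀`
and `m j = min_{y ∈ K'} ex y σ j` for `j ∉ σ`; then there is a vector `a` with the exponents of
`y₀` on `σ`, `a ≥ m` off `σ` and `(A a) j ≤ b j` for `j ∉ σ`. -/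
theorem lex_comb {d : ℕ} {K : Type*} [Nonempty K] (ex : K → List (Fin d) → Fin d → ℕ)
    (A : Matrix (Fin d) (Fin d) ℝ) (b : Fin d → ℝ)
    (psd : ∀ v : Fin d → ℝ, 0 ≤ ∑ j, v j * A.mulVec v j)
    (mono : ∀ y σ i j, (σ ++ [i, j]).Nodup → ex y σ j ≤ ex y (σ ++ [i]) j)
    (bal : ∀ y σ j, (σ ++ [j]).Nodup → (∀ n, n ∈ σ ++ [j]) →
      ∃ y', (∀ σ₁ i σ₂, σ = σ₁ ++ i :: σ₂ → ex y' σ₁ i = ex y σ₁ i) ∧
        ∀ a : Fin d → ℝ, (∀ σ₁ i σ₂, σ ++ [j] = σ₁ ++ i :: σ₂ → a i = ex y' σ₁ i) →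
          A.mulVec a j ≤ b j) :
    ∃ a : Fin d → ℝ, (∀ j, ∃ y, (ex y [] j : ℝ) ≤ a j) ∧ ∀ j, A.mulVec a j ≤ b j := by
  rcases d with _ | d
  · exact ⟨0, fun j => j.elim0, fun j => j.elim0⟩
  obtain ⟨a, -, h1, h2⟩ := convb_claim ex A b psd mono bal d [] List.nodup_nil (by simp)
    (Classical.arbitrary K)
  refine ⟨a, fun j => ?_, fun j => h2 j List.not_mem_nil⟩
  obtain ⟨y, -, hy⟩ := h1 j List.not_mem_nil
  exact ⟨y, hy⟩

end Pool.Agent.MP_b8b722_ag

end partConv
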