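import Mathlib

attribute [-instance] littleWedderburn MonTypeEquivalenceMon.monMonoid RKHS.instFunLike
  NonUnitalAlgHomClass.toNonUnitalRingHomClass AlgebraicGeometry.Scheme.hasCoeToTopCat
  NormedField.toField IdemCommSemiring.toCommSemiring KleeneAlgebra.toIdemSemiring
  CommMonTypeEquivalenceCommMon.commMonCommMonoid IdemCommSemiring.toIdemSemiring
  ESeminormedCommMonoid.toCommMonoid instCoeHTCTOfCoeTailOfCoeHTC
  NonUnitalAlgSemiHomClass.toMulHomClass Fintype.decidableExistsFintype instCharZeroOfIsSemireal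
  DivisionRing.toDivisionSemiring RingConeClass.toSubsemiringClass
  ContinuousMonoidHom.instCoeOutOfMonoidHomClassOfContinuousMapClass BialgHomClass.toMonoidHomClass
  NonUnitalNormedRing.toNormedAddCommGroup instCoeOutOfCoeFun instCoeTCOfCoe
  SubringClass.toSubsemiringClass ValuationClass.toMonoidWithZeroHomClass
  MulSemiringAction.toDistribMulAction TestFunctionClass.toDFunLike
  ContDiffMapSupportedInClass.toDFunLike FloorSemiring.instCharZero
  LinearOrderedAddCommMonoidWithTop.toAddCommMonoid MulCharClass.toMonoidHomClass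
  MulDistribMulActionSemiHomClass.toMonoidHomClass

section partDefs

/-!
Definitions for the statement: PEL data of type A,
the groups `G ⊇ P, Q, B` and the zip group `E` on points, induced representations as natural
functions, morphisms to the stack of `G`-zips as cocycles.
-/

open AlgebraicGeometry CategoryTheory Matrix

noncomputable section

namespace Pool.Agent.MP_b8b722_ag

/-- Basis vectors `0, …, 2g-1`, grouped into blocks by `blk`; `rev` exchanges every block with a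
different dual block; `σ` is the permutation of the basis induced by Frobenius. -/
structure Datum where
  g : ℕ
  blk : Fin (g + g) → ℕ
  σ : Equiv.Perm (Fin (g + g))
  blk_rev : ∀ a b, blk a = blk b → blk a.rev = blk b.rev
  blk_ne : ∀ a, blk a.rev ≠ blk a
  σ_rev : ∀ a, σ a.rev = (σ a).rev
  σ_blk : ∀ a b, blk (σ a) = blk (σ b) ↔ blk a = blk b
  σ_mono : ∀ a b, blk a = blk b → a < b → σ a < σ b

/-- restriction of functions -/
def res {X : Scheme.{0}} {U V : X.Opens} (h : V ≤ U) : Γ(X, U) →+* Γ(X, V) :=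
  (X.presheaf.map (homOfLE h).op).hom

/-- constants as functions on an open subset of a `k`-scheme -/
def cst {k : Type} [Field k] {X : Scheme.{0}} (π : X ⟶ Spec (CommRingCat.of k)) (U : X.Opens) :
    k →+* Γ(X, U) :=
  (res le_top).comp (π.appTop.hom.comp (Scheme.ΓSpecIso (CommRingCat.of k)).inv.hom)

namespace Datum

variable (D : Datum)

abbrev I : Type := Fin (D.g + D.g)

/-- functoriality of `GL` -/
abbrev mp {S S' : Type} [CommRing S] [CommRing S'] (f : S →+* S') : GL D.I S →* GL D.I S' :=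
  Matrix.GeneralLinearGroup.map f

/-- the antidiagonal pairing between dual blocks -/
def J (S : Type) [CommRing S] : Matrix D.I D.I S :=
  Matrix.of fun a b => if b = a.rev then 1 else 0

variable {S : Type} [CommRing S]

/-- block diagonal similitudes -/
def InG (x : GL D.I S) : Prop :=
  (∀ a b, D.blk a ≠ D.blk b → x.val a b = 0) ∧
    ∃ c : Sˣ, x.valᵀ * D.J S * x.val = c.val • D.J S

def InB (x : GL D.I S) : Prop := D.InG x ∧ ∀ a b, a < b → x.val a b = 0

def InP (x : GL D.I S) : Prop := D.InG x ∧ ∀ a b, a.val < D.g → D.g ≤ b.val → x.val a b = 0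

def InQ (x : GL D.I S) : Prop :=
  D.InG x ∧ ∀ a b, D.g ≤ a.val → b.val < D.g → x.val (D.σ a) (D.σ b) = 0

/-- the zip group: the Levi part of `y` is the Frobenius twist of the Levi part of `x` -/
def InE (p : ℕ) (x y : GL D.I S) : Prop :=
  D.InP x ∧ D.InQ y ∧
    ∀ a b, (a.val < D.g ↔ b.val < D.g) → y.val (D.σ a) (D.σ b) = x.val a b ^ p

/-- the character `∏ b_aa ^ ν a` of `B` -/
def chi (ν : D.I → ℤ) (b : GL D.I S) : S :=
  ∏ a, b.val a a ^ (ν a).toNat * b⁻¹.val a a ^ (-ν a).toNat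

/-- elements of `R ⊗ Ind_B^P ν`: functions on `Spec R × P` with `f (a b) = ν(b)⁻¹ f a` -/
structure Fn (R : Type) [CommRing R] (ν : D.I → ℤ) where
  f : ∀ (S : Type) [CommRing S], (R →+* S) → GL D.I S → S
  nat : ∀ (S S' : Type) [CommRing S] [CommRing S'] (h : S →+* S') (ξ : R →+* S) (a : GL D.I S),
    D.InP a → f S' (h.comp ξ) (D.mp h a) = h (f S ξ a)
  equi : ∀ (S : Type) [CommRing S] (ξ : R →+* S) (a b : GL D.I S),
    D.InP a → D.InB b → f S ξ (a * b) * D.chi ν b = f S ξ a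

def Fn.Nonzero {R : Type} [CommRing R] {ν : D.I → ℤ} (s : D.Fn R ν) : Prop :=
  ∃ (S : Type) (_ : CommRing S) (ξ : R →+* S) (a : GL D.I S), D.InP a ∧ s.f S ξ a ≠ 0

/-- global sections of `V_I(ν)` on `G-Zip = [E \ G]`: `E`-equivariant maps `G → Ind_B^P ν` -/
structure ZipSec (p : ℕ) (k : Type) [Field k] (ν : D.I → ℤ) where
  f : ∀ (S : Type) [CommRing S], (k →+* S) → GL D.I S → GL D.I S → S
  nat : ∀ (S S' : Type) [CommRing S] [CommRing S'] (h : S →+* S') (ξ : k →+* S) (g a : GL D.I S),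
    D.InG g → D.InP a → f S' (h.comp ξ) (D.mp h g) (D.mp h a) = h (f S ξ g a)
  equi : ∀ (S : Type) [CommRing S] (ξ : k →+* S) (g a b : GL D.I S),
    D.InG g → D.InP a → D.InB b → f S ξ g (a * b) * D.chi ν b = f S ξ g a
  inv : ∀ (S : Type) [CommRing S] (ξ : k →+* S) (g a x y : GL D.I S),
    D.InG g → D.InP a → D.InE p x y → f S ξ (x * g * y⁻¹) a = f S ξ g (x⁻¹ * a)

def ZipSec.Nonzero {p : ℕ} {k : Type} [Field k] {ν : D.I → ℤ} (F : D.ZipSec p k ν) : Prop :=
  ∃ (S : Type) (_ : CommRing S) (ξ : k →+* S) (g a : GL D.I S),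
    D.InG g ∧ D.InP a ∧ F.f S ξ g a ≠ 0

/-- a morphism `X → [E \ G]`: an `E`-torsor trivialised on an affine open cover, with an
equivariant map to `G` -/
structure ZipMap (p : ℕ) (X : Scheme.{0}) where
  ι : Type
  U : ι → X.Opens
  affine : ∀ i, IsAffineOpen (U i)
  cover : ⨆ i, U i = ⊤
  g : ∀ i, GL D.I Γ(X, U i)
  x : ∀ i j, GL D.I Γ(X, U i ⊓ U j)
  y : ∀ i j, GL D.I Γ(X, U i ⊓ U j)
  g_mem : ∀ i, D.InG (g i)
  xy_mem : ∀ i j, D.InE p (x i j) (y i j)
  glue : ∀ i j, D.mp (res inf_le_left) (g i) =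
    x i j * D.mp (res inf_le_right) (g j) * (y i j)⁻¹
  cocycle : ∀ i j l (V : X.Opens) (hi : V ≤ U i) (hj : V ≤ U j) (hl : V ≤ U l),
    D.mp (res (le_inf hi hl)) (x i l) =
      D.mp (res (le_inf hi hj)) (x i j) * D.mp (res (le_inf hj hl)) (x j l) ∧
    D.mp (res (le_inf hi hl)) (y i l) =
      D.mp (res (le_inf hi hj)) (y i j) * D.mp (res (le_inf hj hl)) (y j l)

/-- `z = w_{0,J} w_0` as a permutation, `J = σ I` -/
def IsFrame (z : Equiv.Perm D.I) : Prop :=
  (∀ a, D.blk (z a) = D.blk a) ∧ ∀ a b, D.blk a = D.blk b → a < b →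
    (D.g ≤ (D.σ.symm (z a)).val ∧ (D.σ.symm (z b)).val < D.g) ∨
      (((D.σ.symm (z a)).val < D.g ↔ (D.σ.symm (z b)).val < D.g) ∧ z a < z b)

/-- the signature `(r a, s a)` of the block of `a` -/
def r (a : D.I) : ℕ := (Finset.univ.filter fun b => D.blk b = D.blk a ∧ b.val < D.g).card

def s (a : D.I) : ℕ := (Finset.univ.filter fun b => D.blk b = D.blk a ∧ D.g ≤ b.val).card

/-- the condition on the signatures -/
def Sig : Prop :=
  ∀ (a : D.I) (n : ℕ), 0 < D.r a → 0 < D.s a → 0 < D.r ((D.σ ^ n) a) → 0 < D.s ((D.σ ^ n) a) →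
    D.r ((D.σ ^ n) a) = D.r a ∨ (D.blk ((D.σ ^ n) a) = D.blk a.rev ∧
      (D.r a = 1 ∨ D.s a = 1 ∨ D.r a = D.s a + 1 ∨ D.s a = D.r a + 1))

/-- simple roots -/
def Simple (i j : D.I) : Prop :=
  D.blk i = D.blk j ∧ i < j ∧ ∀ m, D.blk m = D.blk i → ¬ (i < m ∧ m < j)

/-- `h ∈ E · (B ∪ B s B) z⁻¹` for a simple reflection `s` -/
def Small (p : ℕ) (h : GL D.I S) : Prop :=
  ∃ z x y i j, D.IsFrame z ∧ D.InE p x y ∧ D.Simple i j ∧
    ∀ a b, a < b → (a, b) ≠ (i, j) → (a, b) ≠ (j.rev, i.rev) → (x * h * y⁻¹).val a (z b) = 0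

namespace ZipMap

variable {D} {p : ℕ} {k : Type} [Field k] {X : Scheme.{0}} (Z : D.ZipMap p X)

/-- the maps `E × U i → G`, `(x, y, u) ↦ x g_i(u) y⁻¹` are formally smooth -/
def Smooth (π : X ⟶ Spec (CommRingCat.of k)) : Prop :=
  ∀ (i : Z.ι) (S S' : Type) [CommRing S] [CommRing S'] (κ : k →+* S) (f : S →+* S'),
    Function.Surjective f → RingHom.ker f ^ 2 = ⊥ →
    ∀ (ξ' : Γ(X, Z.U i) →+* S') (x' y' : GL D.I S') (h : GL D.I S),
      ξ'.comp (cst π (Z.U i)) = f.comp κ → D.InE p x' y' → D.InG h →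
      D.mp f h = x' * D.mp ξ' (Z.g i) * y'⁻¹ →
      ∃ (ξ : Γ(X, Z.U i) →+* S) (x y : GL D.I S), ξ.comp (cst π (Z.U i)) = κ ∧ f.comp ξ = ξ' ∧
        D.InE p x y ∧ D.mp f x = x' ∧ D.mp f y = y' ∧ h = x * D.mp ξ (Z.g i) * y⁻¹

/-- every `E(k)`-orbit in `G(k)` is hit by a `k`-point -/
def Surj (π : X ⟶ Spec (CommRingCat.of k)) : Prop :=
  ∀ h : GL D.I k, D.InG h → ∃ (i : Z.ι) (ξ : Γ(X, Z.U i) →+* k) (x y : GL D.I k),
    ξ.comp (cst π (Z.U i)) = RingHom.id k ∧ D.InE p x y ∧ h = x * D.mp ξ (Z.g i) * y⁻¹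

/-- the points lying under a flag stratum of length at most one are in the image of a proper
`k`-scheme -/
def SmallProper (π : X ⟶ Spec (CommRingCat.of k)) : Prop :=
  ∃ (W : Scheme.{0}) (q : W ⟶ X), IsProper (q ≫ π) ∧
    ∀ (i : Z.ι) (F : Type) [Field F] (ξ : Γ(X, Z.U i) →+* F), D.Small p (D.mp ξ (Z.g i)) →
      ∃ w : W, q w = (Z.affine i).fromSpec ⟨RingHom.ker ξ, RingHom.ker_isPrime ξ⟩

/-- global sections of the pull-back of `V_I(ν)` -/
structure Sec (ν : D.I → ℤ) where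
  s : ∀ i, D.Fn Γ(X, Z.U i) ν
  glue : ∀ i j (S : Type) [CommRing S] (ξ : Γ(X, Z.U i ⊓ Z.U j) →+* S) (a : GL D.I S), D.InP a →
    (s i).f S (ξ.comp (res inf_le_left)) a =
      (s j).f S (ξ.comp (res inf_le_right)) ((D.mp ξ (Z.x i j))⁻¹ * a)

end ZipMap

end Datum

end Pool.Agent.MP_b8b722_ag

end

end partDefs

section partBasic

/-!
Matrix groups: adjoint, similitude, pattern subgroups, Levi parts, Frobenius.
-/

set_option linter.unusedSectionVars false
set_option linter.unusedVariables false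

open Matrix

noncomputable section

namespace Pool.Agent.MP_b8b722_ag

/-- datum with ground field -/
structure Ctx extends Datum where
  p : ℕ
  hp : p.Prime
  pos : 0 < g
  k : Type
  [fld : Field k]
  [acl : IsAlgClosed k]
  [chr : CharP k p]

attribute [instance] Ctx.fld Ctx.acl Ctx.chr

namespace Ctx

variable (C : Ctx)

instance : Fact C.p.Prime := ⟨C.hp⟩

/-- first half of the basis -/
abbrev lo (a : C.I) : Prop := a.val < C.g

/-- the image of the first half under `σ` -/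
abbrev lq (a : C.I) : Prop := C.lo (C.σ.symm a)

def a0 : C.I := ⟨0, by have := C.pos; omega⟩

theorem lo_a0 : C.lo C.a0 := C.pos

theorem lo_rev (a : C.I) : C.lo a.rev ↔ ¬ C.lo a := by
  have := a.isLt
  simp only [lo, Fin.val_rev]
  omega

theorem rev_ne (a : C.I) : a.rev ≠ a := fun h => by
  have := C.lo_rev a
  rw [h] at this
  tauto

theorem blk_rev_iff (a b : C.I) : C.blk a.rev = C.blk b.rev ↔ C.blk a = C.blk b :=
  ⟨fun h => by simpa using C.blk_rev _ _ h, C.blk_rev a b⟩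

theorem lo_of_le {a b : C.I} (h : a ≤ b) (hb : C.lo b) : C.lo a := lt_of_le_of_lt h hb

theorem lt_of_lo {a b : C.I} (ha : C.lo a) (hb : ¬ C.lo b) : a < b := by
  simp only [lo, not_lt] at ha hb
  exact Fin.lt_def.2 (lt_of_lt_of_le ha hb)

theorem lq_σ (a : C.I) : C.lq (C.σ a) ↔ C.lo a := by rw [lq, Equiv.symm_apply_apply]

theorem σ_symm_rev (a : C.I) : C.σ.symm a.rev = (C.σ.symm a).rev := by
  rw [Equiv.symm_apply_eq, C.σ_rev, Equiv.apply_symm_apply]

theorem lq_rev (a : C.I) : C.lq a.rev ↔ ¬ C.lq a := by rw [lq, σ_symm_rev, lo_rev]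

theorem σ_lt {a b : C.I} (h : C.blk a = C.blk b) : C.σ a < C.σ b ↔ a < b := by
  refine ⟨fun h1 => ?_, C.σ_mono a b h⟩
  rcases lt_trichotomy a b with h2 | h2 | h2
  · exact h2
  · subst h2; exact absurd h1 (lt_irrefl _)
  · exact absurd h1 (not_lt.2 (C.σ_mono b a h.symm h2).le)

theorem σ_le {a b : C.I} (h : C.blk a = C.blk b) : C.σ a ≤ C.σ b ↔ a ≤ b := by
  rw [← not_lt, ← not_lt, C.σ_lt h.symm]

theorem σ_symm_blk (a b : C.I) : C.blk (C.σ.symm a) = C.blk (C.σ.symm b) ↔ C.blk a = C.blk b := by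
  rw [← C.σ_blk, Equiv.apply_symm_apply, Equiv.apply_symm_apply]

theorem σ_symm_le {a b : C.I} (h : C.blk a = C.blk b) : C.σ.symm a ≤ C.σ.symm b ↔ a ≤ b := by
  rw [← C.σ_le ((C.σ_symm_blk a b).2 h), Equiv.apply_symm_apply, Equiv.apply_symm_apply]

theorem lq_of_le {a b : C.I} (hb : C.blk a = C.blk b) (h : a ≤ b) (hl : C.lq b) : C.lq a :=
  C.lo_of_le ((C.σ_symm_le hb).2 h) hl

theorem lt_of_lq {a b : C.I} (hb : C.blk a = C.blk b) (ha : C.lq a) (hl : ¬ C.lq b) : a < b :=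
  not_le.1 fun h => hl (C.lq_of_le hb.symm h ha)

theorem ne_rev {a b : C.I} (h : C.blk a = C.blk b) : a ≠ b.rev := fun e =>
  C.blk_ne b (by rw [← e, h])

/-- one block in each pair of dual blocks -/
abbrev hf (a : C.I) : Prop := C.blk a < C.blk a.rev

theorem hf_rev (a : C.I) : C.hf a.rev ↔ ¬ C.hf a := by
  have := C.blk_ne a
  simp only [hf, Fin.rev_rev]
  omega

theorem hf_blk {a b : C.I} (h : C.blk a = C.blk b) : C.hf a ↔ C.hf b := by
  rw [hf, hf, h, C.blk_rev a b h]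

section Ring

variable {S S' S'' : Type} [CommRing S] [CommRing S'] [CommRing S'']

@[simp] theorem mp_val (f : S →+* S') (x : GL C.I S) (a b : C.I) :
    (C.mp f x).val a b = f (x.val a b) := rfl

theorem mp_mat (f : S →+* S') (x : GL C.I S) : (C.mp f x).val = x.val.map f := rfl

theorem mp_comp (f : S →+* S') (f' : S' →+* S'') (x : GL C.I S) :
    C.mp (f'.comp f) x = C.mp f' (C.mp f x) := rfl

@[simp] theorem mp_id (x : GL C.I S) : C.mp (RingHom.id S) x = x := rfl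

theorem gl_ext {x y : GL C.I S} (h : ∀ a b, x.val a b = y.val a b) : x = y :=
  Units.ext (Matrix.ext h)

theorem mp_injective (f : S →+* S') (hf : Function.Injective f) : Function.Injective (C.mp f) :=
  fun x y h => C.gl_ext fun a b => hf (by rw [← C.mp_val, ← C.mp_val, h])

/-- an invertible matrix whose entries and inverse entries come from a subring -/
theorem exists_mp_eq (f : S →+* S') (hf : Function.Injective f) (x : GL C.I S')
    (h1 : ∀ a b, x.val a b ∈ f.range) (h2 : ∀ a b, x⁻¹.val a b ∈ f.range) :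
    ∃ x₀ : GL C.I S, C.mp f x₀ = x := by
  choose A hA using h1
  choose B hB using h2
  have eA : (Matrix.of A).map f = x.val := Matrix.ext fun a b => hA a b
  have eB : (Matrix.of B).map f = x⁻¹.val := Matrix.ext fun a b => hB a b
  have inj : Function.Injective fun M : Matrix C.I C.I S => M.map f := Matrix.map_injective hf
  refine ⟨⟨Matrix.of A, Matrix.of B, inj ?_, inj ?_⟩, Units.ext eA⟩
  · show (Matrix.of A * Matrix.of B).map f = (1 : Matrix C.I C.I S).map f
    rw [Matrix.map_mul, eA, eB, Matrix.map_one f (map_zero f) (map_one f)]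
    exact x.mul_inv
  · show (Matrix.of B * Matrix.of A).map f = (1 : Matrix C.I C.I S).map f
    rw [Matrix.map_mul, eA, eB, Matrix.map_one f (map_zero f) (map_one f)]
    exact x.inv_mul

def sg (S : Type) [CommRing S] (a : C.I) : S := 1

/-- adjoint `J⁻¹ xᵀ J` -/
def adj (x : Matrix C.I C.I S) : Matrix C.I C.I S :=
  Matrix.of fun a b => C.sg S a * C.sg S b * x b.rev a.rev

theorem adj_apply (x : Matrix C.I C.I S) (a b : C.I) :
    C.adj x a b = C.sg S a * C.sg S b * x b.rev a.rev := rfl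

theorem sg_eq (a : C.I) : C.sg S a = 1 := rfl

theorem adj_ent (x : Matrix C.I C.I S) (a b : C.I) : C.adj x a b = x b.rev a.rev := by
  rw [adj_apply, sg_eq, sg_eq, one_mul, one_mul]

theorem sg_mul_self (a : C.I) : C.sg S a * C.sg S a = 1 := one_mul _

theorem map_sg (f : S →+* S') (a : C.I) : f (C.sg S a) = C.sg S' a := map_one f

theorem adj_mul (x y : Matrix C.I C.I S) : C.adj (x * y) = C.adj y * C.adj x := by
  ext a b
  rw [adj_apply, Matrix.mul_apply, Matrix.mul_apply, Finset.mul_sum,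
    ← Equiv.sum_comp Fin.revPerm]
  refine Finset.sum_congr rfl fun c _ => ?_
  rw [adj_apply, adj_apply, Fin.revPerm_apply]
  linear_combination (-(C.sg S a * C.sg S b * x b.rev c.rev * y c.rev a.rev)) * C.sg_mul_self (S := S) c

theorem adj_one : C.adj (1 : Matrix C.I C.I S) = 1 := by
  ext a b
  rw [adj_apply]
  by_cases h : a = b
  · subst h
    rw [Matrix.one_apply_eq, Matrix.one_apply_eq, C.sg_mul_self, mul_one]
  · rw [Matrix.one_apply_ne h, Matrix.one_apply_ne fun e => h (Fin.rev_injective e).symm, mul_zero]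

theorem adj_adj (x : Matrix C.I C.I S) : C.adj (C.adj x) = x := by
  ext a b
  rw [adj_ent, adj_ent, Fin.rev_rev, Fin.rev_rev]

theorem adj_map (f : S →+* S') (x : Matrix C.I C.I S) : C.adj (x.map f) = (C.adj x).map f := by
  ext a b
  rw [adj_apply, Matrix.map_apply, Matrix.map_apply, adj_apply, map_mul, map_mul, C.map_sg,
    C.map_sg]

theorem adj_add (x y : Matrix C.I C.I S) : C.adj (x + y) = C.adj x + C.adj y := by
  ext a b
  rw [Matrix.add_apply, adj_apply, adj_apply, adj_apply, Matrix.add_apply, mul_add]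

theorem adj_smul (c : S) (x : Matrix C.I C.I S) : C.adj (c • x) = c • C.adj x := by
  ext a b
  rw [Matrix.smul_apply, adj_apply, adj_apply, Matrix.smul_apply, smul_eq_mul, smul_eq_mul]
  ring

theorem adj_diagonal (d : C.I → S) : C.adj (diagonal d) = diagonal fun a => d a.rev := by
  ext a b
  rw [adj_apply]
  by_cases h : a = b
  · subst h
    rw [Matrix.diagonal_apply_eq, Matrix.diagonal_apply_eq, C.sg_mul_self, one_mul]
  · rw [Matrix.diagonal_apply_ne _ h,
      Matrix.diagonal_apply_ne _ fun e => h (Fin.rev_injective e).symm, mul_zero]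

def adjG (x : GL C.I S) : GL C.I S :=
  ⟨C.adj x.val, C.adj x⁻¹.val, by rw [← adj_mul]; simp only [coe_units_inv, isUnits_det_units, nonsing_inv_mul, adj_one],
    by rw [← adj_mul]; simp only [coe_units_inv, isUnits_det_units, mul_nonsing_inv, adj_one]⟩

@[simp] theorem adjG_val (x : GL C.I S) : (C.adjG x).val = C.adj x.val := rfl

theorem adjG_mul (x y : GL C.I S) : C.adjG (x * y) = C.adjG y * C.adjG x :=
  Units.ext (C.adj_mul _ _)

theorem adjG_inv (x : GL C.I S) : C.adjG x⁻¹ = (C.adjG x)⁻¹ := rfl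

theorem adjG_one : C.adjG (1 : GL C.I S) = 1 := Units.ext C.adj_one

theorem adjG_adjG (x : GL C.I S) : C.adjG (C.adjG x) = x := Units.ext (C.adj_adj _)

theorem adjG_mp (f : S →+* S') (x : GL C.I S) : C.adjG (C.mp f x) = C.mp f (C.adjG x) :=
  Units.ext (C.adj_map f _)

theorem basica_J_mul (y : Matrix C.I C.I S) (a b : C.I) : (C.J S * y) a b = y a.rev b := by
  rw [Matrix.mul_apply, Finset.sum_eq_single a.rev]
  · simp [Datum.J]
  · intro c _ hc
    simp [Datum.J, hc]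
  · simp only [Finset.mem_univ, not_true_eq_false, IsEmpty.forall_iff]

theorem basica_mul_J (y : Matrix C.I C.I S) (a b : C.I) : (y * C.J S) a b = y a b.rev := by
  rw [Matrix.mul_apply, Finset.sum_eq_single b.rev]
  · simp only [Datum.J, Matrix.of_apply, Fin.rev_rev, if_true, mul_one]
  · intro c _ hc
    have : b ≠ c.rev := fun e => hc (by rw [e, Fin.rev_rev])
    simp [Datum.J, this]
  · simp only [Finset.mem_univ, not_true_eq_false, IsEmpty.forall_iff]

theorem basica_J_adj (x : Matrix C.I C.I S) : C.J S * C.adj x = xᵀ * C.J S := by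
  ext a b
  rw [basica_J_mul, basica_mul_J, adj_ent, Fin.rev_rev, Matrix.transpose_apply]

theorem basica_JJ : C.J S * C.J S = 1 := by
  ext a b
  rw [basica_J_mul]
  simp only [Datum.J, Matrix.of_apply, Fin.rev_rev, Matrix.one_apply, eq_comm]

theorem inG_iff (x : GL C.I S) : C.InG x ↔ (∀ a b, C.blk a ≠ C.blk b → x.val a b = 0) ∧
    ∃ c : S, IsUnit c ∧ C.adj x.val * x.val = c • (1 : Matrix C.I C.I S) := by
  have e : x.valᵀ * C.J S * x.val = C.J S * (C.adj x.val * x.val) := by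
    rw [← Matrix.mul_assoc, C.basica_J_adj]
  refine and_congr_right fun _ => ⟨?_, ?_⟩
  · rintro ⟨c, hc⟩
    refine ⟨c, c.isUnit, ?_⟩
    rw [e] at hc
    have h2 : C.J S * (C.J S * (C.adj x.val * x.val)) = C.J S * (c.val • C.J S) := by rw [hc]
    rwa [← Matrix.mul_assoc, Matrix.mul_smul, C.basica_JJ, Matrix.one_mul] at h2
  · rintro ⟨c, ⟨u, rfl⟩, hc⟩
    exact ⟨u, by rw [e, hc, Matrix.mul_smul, Matrix.mul_one]⟩

/-- similitude factor -/
def sim (x : GL C.I S) : S := (C.adj x.val * x.val) C.a0 C.a0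

theorem sim_mp (f : S →+* S') (x : GL C.I S) : C.sim (C.mp f x) = f (C.sim x) := by
  unfold sim
  rw [mp_mat, adj_map, ← Matrix.map_mul, Matrix.map_apply]

theorem sim_one : C.sim (1 : GL C.I S) = 1 := by
  unfold sim
  rw [Units.val_one, adj_one, Matrix.one_mul, Matrix.one_apply_eq]

variable {C}

theorem _root_.Pool.Agent.MP_b8b722_ag.Datum.InG.adj_mul {x : GL C.I S} (h : C.InG x) :
    C.adj x.val * x.val = C.sim x • (1 : Matrix C.I C.I S) := by
  obtain ⟨c, _, hc⟩ := ((C.inG_iff x).1 h).2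
  have : C.sim x = c := by
    unfold sim
    rw [hc, Matrix.smul_apply, Matrix.one_apply_eq, smul_eq_mul, mul_one]
  rw [this, hc]

theorem _root_.Pool.Agent.MP_b8b722_ag.Datum.InG.mul_adj {x : GL C.I S} (h : C.InG x) :
    x.val * C.adj x.val = C.sim x • (1 : Matrix C.I C.I S) := by
  have h1 : C.adj x.val = C.sim x • x⁻¹.val := by
    calc C.adj x.val = C.adj x.val * x.val * x⁻¹.val := by
          rw [Matrix.mul_assoc, x.mul_inv, Matrix.mul_one]
      _ = C.sim x • x⁻¹.val := by rw [h.adj_mul, Matrix.smul_mul, Matrix.one_mul]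
  rw [h1, Matrix.mul_smul, x.mul_inv]

theorem _root_.Pool.Agent.MP_b8b722_ag.Datum.InG.adj_eq {x : GL C.I S} (h : C.InG x) : C.adj x.val = C.sim x • x⁻¹.val := by
  calc C.adj x.val = C.adj x.val * x.val * x⁻¹.val := by
        rw [Matrix.mul_assoc, x.mul_inv, Matrix.mul_one]
    _ = C.sim x • x⁻¹.val := by rw [h.adj_mul, Matrix.smul_mul, Matrix.one_mul]

theorem _root_.Pool.Agent.MP_b8b722_ag.Datum.InG.sim_unit {x : GL C.I S} (h : C.InG x) : IsUnit (C.sim x) := by
  obtain ⟨c, hu, hc⟩ := ((C.inG_iff x).1 h).2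
  have : C.sim x = c := by
    unfold sim
    rw [hc, Matrix.smul_apply, Matrix.one_apply_eq, smul_eq_mul, mul_one]
  rw [this]
  exact hu

theorem _root_.Pool.Agent.MP_b8b722_ag.Datum.InG.inv_zero {x : GL C.I S} (h : C.InG x) {a b : C.I} (h0 : x.val b.rev a.rev = 0) :
    x⁻¹.val a b = 0 := by
  have h1 : C.adj x.val a b = (C.sim x • x⁻¹.val) a b := by rw [h.adj_eq]
  rw [adj_apply, h0, mul_zero, Matrix.smul_apply, smul_eq_mul] at h1
  exact (h.sim_unit.mul_right_eq_zero).1 h1.symm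

theorem _root_.Pool.Agent.MP_b8b722_ag.Datum.InG.one : C.InG (1 : GL C.I S) := by
  refine (C.inG_iff 1).2 ⟨fun a b hab => ?_, 1, isUnit_one, ?_⟩
  · exact Matrix.one_apply_ne fun e => hab (by rw [e])
  · rw [Units.val_one, adj_one, Matrix.one_mul, one_smul]

theorem basica_adj_mul_mul {x y : GL C.I S} (hx : C.InG x) (hy : C.InG y) :
    C.adj (x * y).val * (x * y).val = (C.sim x * C.sim y) • (1 : Matrix C.I C.I S) := by
  rw [Units.val_mul, adj_mul, Matrix.mul_assoc, ← Matrix.mul_assoc (C.adj x.val), hx.adj_mul,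
    Matrix.smul_mul, Matrix.one_mul, Matrix.mul_smul, hy.adj_mul, smul_smul]

theorem _root_.Pool.Agent.MP_b8b722_ag.Datum.InG.mul {x y : GL C.I S} (hx : C.InG x) (hy : C.InG y) : C.InG (x * y) := by
  refine (C.inG_iff _).2 ⟨fun a c h => ?_, C.sim x * C.sim y, hx.sim_unit.mul hy.sim_unit,
    basica_adj_mul_mul hx hy⟩
  rw [Units.val_mul, Matrix.mul_apply]
  refine Finset.sum_eq_zero fun b _ => ?_
  by_cases h1 : C.blk a = C.blk b
  · rw [hy.1 b c fun h2 => h (h1.trans h2), mul_zero]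
  · rw [hx.1 a b h1, zero_mul]

theorem _root_.Pool.Agent.MP_b8b722_ag.Datum.InG.inv {x : GL C.I S} (hx : C.InG x) : C.InG x⁻¹ := by
  obtain ⟨u, hu⟩ := hx.sim_unit
  refine (C.inG_iff _).2 ⟨fun a b h => hx.inv_zero (hx.1 _ _ fun e => h ?_),
    (u⁻¹ : Sˣ), (u⁻¹).isUnit, ?_⟩
  · exact ((C.blk_rev_iff b a).1 e).symm
  · have h1 : C.adj x⁻¹.val * C.adj x.val = 1 := by rw [← adj_mul, x.mul_inv, adj_one]
    rw [hx.adj_eq, Matrix.mul_smul, ← hu] at h1
    rw [← h1, smul_smul, u.inv_mul, one_smul]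

theorem _root_.Pool.Agent.MP_b8b722_ag.Datum.InG.sim_mul {x y : GL C.I S} (hx : C.InG x) (hy : C.InG y) :
    C.sim (x * y) = C.sim x * C.sim y := by
  conv_lhs => unfold sim
  rw [basica_adj_mul_mul hx hy, Matrix.smul_apply, Matrix.one_apply_eq, smul_eq_mul, mul_one]

theorem _root_.Pool.Agent.MP_b8b722_ag.Datum.InG.sim_inv {x : GL C.I S} (hx : C.InG x) : C.sim x * C.sim x⁻¹ = 1 := by
  rw [← hx.sim_mul hx.inv, mul_inv_cancel, sim_one]

theorem _root_.Pool.Agent.MP_b8b722_ag.Datum.InG.map (f : S →+* S') {x : GL C.I S} (hx : C.InG x) : C.InG (C.mp f x) := by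
  refine (C.inG_iff _).2 ⟨fun a b h => by rw [mp_val, hx.1 a b h, map_zero], f (C.sim x),
    hx.sim_unit.map f, ?_⟩
  rw [mp_mat, adj_map, ← Matrix.map_mul, hx.adj_mul]
  ext a b
  by_cases hab : a = b
  · subst hab
    simp
  · simp [Matrix.one_apply_ne hab]

theorem _root_.Pool.Agent.MP_b8b722_ag.Datum.InG.of_map (f : S →+* S') (hf : Function.Injective f) {x : GL C.I S}
    (hx : C.InG (C.mp f x)) : C.InG x := by
  have h1 : C.adj x.val * x.val = C.sim x • (1 : Matrix C.I C.I S) := by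
    have h2 := hx.adj_mul
    rw [mp_mat, adj_map, ← Matrix.map_mul, sim_mp] at h2
    ext a b
    apply hf
    have h3 := congrFun (congrFun h2 a) b
    rw [Matrix.map_apply] at h3
    rw [h3]
    by_cases hab : a = b
    · subst hab
      simp
    · simp [Matrix.one_apply_ne hab]
  refine (C.inG_iff _).2 ⟨fun a b h => hf (by rw [← C.mp_val, hx.1 a b h, map_zero]),
    C.sim x, ?_, h1⟩
  have h4 : C.adj x.val * x.val * (x⁻¹.val * C.adj x⁻¹.val) = 1 := by
    rw [Matrix.mul_assoc, ← Matrix.mul_assoc x.val, x.mul_inv, Matrix.one_mul, ← adj_mul,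
      x.inv_mul, adj_one]
  rw [h1, Matrix.smul_mul, Matrix.one_mul] at h4
  have h5 := congrFun (congrFun h4 C.a0) C.a0
  rw [Matrix.smul_apply, Matrix.one_apply_eq, smul_eq_mul] at h5
  exact IsUnit.of_mul_eq_one _ h5

variable (C)

/-- shapes of matrices inside the blocks -/
structure Rel where
  r : C.I → C.I → Prop
  refl : ∀ a, r a a
  trans : ∀ a b c, C.blk a = C.blk b → C.blk b = C.blk c → r a b → r b c → r a c
  mir : ∀ a b, r a b → r b.rev a.rev

/-- elements of `G` of a given shape -/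
def Pat (R : C.Rel) (S : Type) [CommRing S] : Subgroup (GL C.I S) where
  carrier := {x | C.InG x ∧ ∀ a b, ¬ R.r a b → x.val a b = 0}
  one_mem' := ⟨Datum.InG.one, fun a b h => by
    have : a ≠ b := fun e => h (e ▸ R.refl a)
    simp [Matrix.one_apply_ne this]⟩
  mul_mem' := fun {x y} hx hy => ⟨Datum.InG.mul hx.1 hy.1, fun a c h => by
    rw [Units.val_mul, Matrix.mul_apply]
    refine Finset.sum_eq_zero fun b _ => ?_
    by_cases h1 : C.blk a = C.blk b
    · by_cases h2 : C.blk b = C.blk c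
      · by_cases h3 : R.r a b
        · rw [hy.2 b c fun h4 => h (R.trans a b c h1 h2 h3 h4), mul_zero]
        · rw [hx.2 a b h3, zero_mul]
      · rw [hy.1.1 b c h2, mul_zero]
    · rw [hx.1.1 a b h1, zero_mul]⟩
  inv_mem' := fun {x} hx => ⟨Datum.InG.inv hx.1, fun a b h =>
    Datum.InG.inv_zero hx.1 (hx.2 _ _ fun h1 => h (by simpa using R.mir _ _ h1))⟩

theorem mem_Pat {R : C.Rel} {x : GL C.I S} :
    x ∈ C.Pat R S ↔ C.InG x ∧ ∀ a b, ¬ R.r a b → x.val a b = 0 := Iff.rfl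

variable {C}

theorem Pat.inG {R : C.Rel} {x : GL C.I S} (h : x ∈ C.Pat R S) : C.InG x := h.1

theorem Pat.zero {R : C.Rel} {x : GL C.I S} (h : x ∈ C.Pat R S) {a b : C.I} (hab : ¬ R.r a b) :
    x.val a b = 0 := h.2 a b hab

theorem Pat.blk {R : C.Rel} {x : GL C.I S} (h : x ∈ C.Pat R S) {a b : C.I}
    (hab : C.blk a ≠ C.blk b) : x.val a b = 0 := h.1.1 a b hab

theorem Pat.mono {R R' : C.Rel} (h : ∀ a b, C.blk a = C.blk b → R.r a b → R'.r a b) :
    C.Pat R S ≤ C.Pat R' S := fun x hx => ⟨hx.1, fun a b hab => by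
  by_cases h1 : C.blk a = C.blk b
  · exact hx.2 a b fun h2 => hab (h a b h1 h2)
  · exact hx.1.1 a b h1⟩

theorem Pat.map {R : C.Rel} (f : S →+* S') {x : GL C.I S} (h : x ∈ C.Pat R S) :
    C.mp f x ∈ C.Pat R S' :=
  ⟨Datum.InG.map f h.1, fun a b hab => by rw [mp_val, h.2 a b hab, map_zero]⟩

theorem Pat.of_map {R : C.Rel} (f : S →+* S') (hf : Function.Injective f) {x : GL C.I S}
    (h : C.mp f x ∈ C.Pat R S') : x ∈ C.Pat R S :=
  ⟨Datum.InG.of_map f hf h.1, fun a b hab => hf (by rw [← C.mp_val, h.2 a b hab, map_zero])⟩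

/-- diagonal entries are multiplicative at indices that are alone in their class -/
theorem Pat.mul_diag {R : C.Rel} {x y : GL C.I S} (hx : x ∈ C.Pat R S) (hy : y ∈ C.Pat R S)
    {a : C.I} (ha : ∀ b, C.blk a = C.blk b → R.r a b → R.r b a → a = b) :
    (x * y).val a a = x.val a a * y.val a a := by
  rw [Units.val_mul, Matrix.mul_apply, Finset.sum_eq_single a]
  · intro b _ hb
    by_cases h1 : C.blk a = C.blk b
    · by_cases h2 : R.r a b
      · rw [hy.2 b a fun h3 => hb (ha b h1 h2 h3).symm, mul_zero]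
      · rw [hx.2 a b h2, zero_mul]
    · rw [hx.1.1 a b h1, zero_mul]
  · simp only [Finset.mem_univ, not_true_eq_false, IsEmpty.forall_iff]

variable (C)

def rG : C.Rel := ⟨fun _ _ => True, fun _ => trivial, fun _ _ _ _ _ _ _ => trivial,
  fun _ _ _ => trivial⟩

def rB : C.Rel := ⟨fun a b => b ≤ a, fun _ => le_rfl, fun _ _ _ _ _ h h' => h'.trans h,
  fun _ _ h => Fin.rev_le_rev.2 h⟩

def rP : C.Rel := ⟨fun a b => C.lo a → C.lo b, fun _ h => h, fun _ _ _ _ _ h h' l => h' (h l),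
  fun a b h => by rw [C.lo_rev, C.lo_rev]; tauto⟩

def rPp : C.Rel := ⟨fun a b => C.lo b → C.lo a, fun _ h => h, fun _ _ _ _ _ h h' l => h (h' l),
  fun a b h => by rw [C.lo_rev, C.lo_rev]; tauto⟩

def rL : C.Rel := ⟨fun a b => C.lo a ↔ C.lo b, fun _ => Iff.rfl, fun _ _ _ _ _ h h' => h.trans h',
  fun a b h => by rw [C.lo_rev, C.lo_rev]; tauto⟩

def rT : C.Rel := ⟨fun a b => a = b, fun _ => rfl, fun _ _ _ _ _ h h' => h.trans h',
  fun a b h => by rw [h]⟩

/-- upper triangular elements of `L` -/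
def rU : C.Rel := ⟨fun a b => a ≤ b ∧ (C.lo a ↔ C.lo b), fun _ => ⟨le_rfl, Iff.rfl⟩,
  fun _ _ _ _ _ h h' => ⟨h.1.trans h'.1, h.2.trans h'.2⟩,
  fun a b h => ⟨Fin.rev_le_rev.2 h.1, by rw [C.lo_rev, C.lo_rev]; tauto⟩⟩

def rQ : C.Rel := ⟨fun a b => C.lq b → C.lq a, fun _ h => h, fun _ _ _ _ _ h h' l => h (h' l),
  fun a b h => by rw [C.lq_rev, C.lq_rev]; tauto⟩

def rM : C.Rel := ⟨fun a b => C.lq a ↔ C.lq b, fun _ => Iff.rfl, fun _ _ _ _ _ h h' => h.trans h',
  fun a b h => by rw [C.lq_rev, C.lq_rev]; tauto⟩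

/-- upper triangular elements -/
def rBp : C.Rel := ⟨fun a b => a ≤ b, fun _ => le_rfl, fun _ _ _ _ _ h h' => h.trans h',
  fun _ _ h => Fin.rev_le_rev.2 h⟩

/-- intersection of shapes -/
def Rel.inf {C : Ctx} (R R' : C.Rel) : C.Rel := ⟨fun a b => R.r a b ∧ R'.r a b,
  fun a => ⟨R.refl a, R'.refl a⟩,
  fun a b c h1 h2 h h' => ⟨R.trans a b c h1 h2 h.1 h'.1, R'.trans a b c h1 h2 h.2 h'.2⟩,
  fun a b h => ⟨R.mir a b h.1, R'.mir a b h.2⟩⟩

/-- the Borel subgroup `B_M R_u Q` of `Q` -/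
def rZ : C.Rel := ⟨fun a b => (C.lq a ∧ ¬ C.lq b) ∨ ((C.lq a ↔ C.lq b) ∧ b ≤ a),
  fun _ => Or.inr ⟨Iff.rfl, le_rfl⟩,
  fun _ _ _ _ _ h h' => by
    rcases h with h | h <;> rcases h' with h' | h'
    · tauto
    · tauto
    · tauto
    · exact Or.inr ⟨h.1.trans h'.1, h'.2.trans h.2⟩,
  fun a b h => by rw [C.lq_rev, C.lq_rev, Fin.rev_le_rev]; tauto⟩

abbrev G (S : Type) [CommRing S] := C.Pat C.rG S
abbrev B (S : Type) [CommRing S] := C.Pat C.rB S
abbrev P (S : Type) [CommRing S] := C.Pat C.rP S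
abbrev Pp (S : Type) [CommRing S] := C.Pat C.rPp S
abbrev Q (S : Type) [CommRing S] := C.Pat C.rQ S
abbrev M (S : Type) [CommRing S] := C.Pat C.rM S
abbrev Bp (S : Type) [CommRing S] := C.Pat C.rBp S
abbrev L (S : Type) [CommRing S] := C.Pat C.rL S
abbrev T (S : Type) [CommRing S] := C.Pat C.rT S
abbrev U (S : Type) [CommRing S] := C.Pat C.rU S
abbrev Z (S : Type) [CommRing S] := C.Pat C.rZ S

variable {C}

theorem mem_G {x : GL C.I S} : x ∈ C.G S ↔ C.InG x := ⟨fun h => h.1, fun h => ⟨h, by simp [rG]⟩⟩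

theorem mem_B {x : GL C.I S} : x ∈ C.B S ↔ C.InB x := by
  simp only [mem_Pat, rB, not_le, Datum.InB]

theorem mem_P {x : GL C.I S} : x ∈ C.P S ↔ C.InP x := by
  simp only [mem_Pat, rP, gt_iff_lt, Classical.not_imp, not_lt, and_imp, Datum.InP]

theorem mem_Q {x : GL C.I S} : x ∈ C.Q S ↔ C.InQ x := by
  refine and_congr_right fun _ => ⟨fun h a b h1 h2 => h _ _ fun h3 => ?_, fun h a b h1 => ?_⟩
  · exact absurd ((C.lq_σ a).1 (h3 ((C.lq_σ b).2 h2))) (not_lt.2 h1)
  · obtain ⟨a, rfl⟩ := C.σ.surjective a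
    obtain ⟨b, rfl⟩ := C.σ.surjective b
    simp only [rQ, lq_σ, Classical.not_imp, not_lt] at h1
    exact h a b h1.2 h1.1

theorem mem_inf {R R' : C.Rel} {x : GL C.I S} :
    x ∈ C.Pat (R.inf R') S ↔ x ∈ C.Pat R S ∧ x ∈ C.Pat R' S :=
  ⟨fun h => ⟨Pat.mono (R := R.inf R') (fun _ _ _ h => h.1) h,
    Pat.mono (R := R.inf R') (fun _ _ _ h => h.2) h⟩,
    fun h => ⟨h.1.1, fun a b hab => by
      by_cases h1 : R.r a b
      · exact h.2.2 a b fun h2 => hab ⟨h1, h2⟩
      · exact h.1.2 a b h1⟩⟩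

theorem Pat.le_G {R : C.Rel} : C.Pat R S ≤ C.G S := Pat.mono fun _ _ _ _ => trivial
theorem B_le_P : C.B S ≤ C.P S := Pat.mono fun _ _ _ h l => C.lo_of_le h l
theorem L_le_P : C.L S ≤ C.P S := Pat.mono fun _ _ _ h => h.1
theorem L_le_Pp : C.L S ≤ C.Pp S := Pat.mono fun _ _ _ h => h.2
theorem T_le {R : C.Rel} : C.T S ≤ C.Pat R S := Pat.mono fun a _ _ h => h ▸ R.refl a
theorem U_le_L : C.U S ≤ C.L S := Pat.mono fun _ _ _ h => h.2
theorem Z_le_Q : C.Z S ≤ C.Q S := Pat.mono fun _ _ _ h => by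
  simp only [rZ, rQ] at h ⊢; tauto
theorem M_le_Q : C.M S ≤ C.Q S := Pat.mono fun _ _ _ h => h.2
theorem Bp_le_Q : C.Bp S ≤ C.Q S := Pat.mono fun _ _ hb h l => C.lq_of_le hb h l
theorem Bp_le_Pp : C.Bp S ≤ C.Pp S := Pat.mono fun _ _ _ h l => C.lo_of_le h l
theorem U_le_Bp : C.U S ≤ C.Bp S := Pat.mono fun _ _ _ h => h.1
theorem mem_L_of {x : GL C.I S} (h1 : x ∈ C.P S) (h2 : x ∈ C.Pp S) : x ∈ C.L S :=
  ⟨h1.1, fun a b h => by
    by_cases h3 : C.lo a → C.lo b
    · exact h2.2 a b fun h4 => h ⟨h3, h4⟩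
    · exact h1.2 a b h3⟩
theorem mem_Z_of {x : GL C.I S} (h1 : x ∈ C.M S) (h2 : x ∈ C.B S) : x ∈ C.Z S :=
  ⟨h1.1, fun a b h => by
    by_cases h3 : C.lq a ↔ C.lq b
    · exact h2.2 a b fun h4 => h (Or.inr ⟨h3, h4⟩)
    · exact h1.2 a b h3⟩

theorem B.mul_diag {x y : GL C.I S} (hx : x ∈ C.B S) (hy : y ∈ C.B S) (a : C.I) :
    (x * y).val a a = x.val a a * y.val a a :=
  Pat.mul_diag hx hy fun _ _ h h' => le_antisymm h' h

theorem B.diag_inv {x : GL C.I S} (hx : x ∈ C.B S) (a : C.I) :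
    x.val a a * x⁻¹.val a a = 1 := by
  rw [← B.mul_diag hx (inv_mem hx)]; simp

theorem B.diag_unit {x : GL C.I S} (hx : x ∈ C.B S) (a : C.I) : IsUnit (x.val a a) :=
  IsUnit.of_mul_eq_one _ (B.diag_inv hx a)

theorem B.diag_rev {x : GL C.I S} (hx : x ∈ C.B S) (a : C.I) :
    x.val a a * x.val a.rev a.rev = C.sim x := by
  have h1 : C.adj x.val a a = (C.sim x • x⁻¹.val) a a := by rw [hx.1.adj_eq]
  rw [adj_apply, C.sg_mul_self, one_mul, Matrix.smul_apply, smul_eq_mul] at h1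
  rw [h1]
  linear_combination C.sim x * B.diag_inv hx a

theorem Z.mul_diag {x y : GL C.I S} (hx : x ∈ C.Z S) (hy : y ∈ C.Z S) (a : C.I) :
    (x * y).val a a = x.val a a * y.val a a :=
  Pat.mul_diag hx hy fun _ _ h h' => by
    simp only [rZ] at h h'
    rcases h with h | h <;> rcases h' with h' | h'
    · tauto
    · tauto
    · tauto
    · exact le_antisymm h'.2 h.2

theorem chi_mp (ν : C.I → ℤ) (f : S →+* S') (b : GL C.I S) :
    C.chi ν (C.mp f b) = f (C.chi ν b) := by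
  simp only [Datum.chi, map_prod, map_mul, map_pow, ← map_inv]
  rfl

theorem chi_one (ν : C.I → ℤ) : C.chi ν (1 : GL C.I S) = 1 := by
  simp only [Datum.chi, Units.val_one, one_apply_eq, one_pow, inv_one, mul_one, Finset.prod_const_one]

theorem basicb_pow (u : Sˣ) (n : ℤ) :
    (u : S) ^ n.toNat * ((u⁻¹ : Sˣ) : S) ^ (-n).toNat = ((u ^ n : Sˣ) : S) := by
  rw [← Units.val_pow_eq_pow_val, ← Units.val_pow_eq_pow_val, ← Units.val_mul, inv_pow,
    ← zpow_natCast, ← zpow_natCast, ← _root_.zpow_sub, Int.toNat_sub_toNat_neg]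

theorem basicb_units (ν : C.I → ℤ) {x : GL C.I S} (hx : x ∈ C.B S) (u : C.I → Sˣ)
    (hu : ∀ a, x.val a a = u a) : C.chi ν x = (∏ a, u a ^ ν a : Sˣ) := by
  rw [Datum.chi, Units.coe_prod]
  refine Finset.prod_congr rfl fun a _ => ?_
  have h := B.diag_inv hx a
  rw [hu] at h
  rw [hu, ← Units.inv_eq_of_mul_eq_one_right h, basicb_pow]

theorem chi_mul (ν : C.I → ℤ) {x y : GL C.I S} (hx : x ∈ C.B S) (hy : y ∈ C.B S) :
    C.chi ν (x * y) = C.chi ν x * C.chi ν y := by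
  rw [basicb_units ν hx _ fun a => (B.diag_unit hx a).unit_spec.symm,
    basicb_units ν hy _ fun a => (B.diag_unit hy a).unit_spec.symm,
    basicb_units ν (mul_mem hx hy) (fun a => (B.diag_unit hx a).unit * (B.diag_unit hy a).unit)
      fun a => by rw [B.mul_diag hx hy, Units.val_mul, IsUnit.unit_spec, IsUnit.unit_spec],
    ← Units.val_mul, ← Finset.prod_mul_distrib]
  simp only [mul_zpow]

theorem chi_unit (ν : C.I → ℤ) {x : GL C.I S} (hx : x ∈ C.B S) : IsUnit (C.chi ν x) := by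
  rw [basicb_units ν hx _ fun a => (B.diag_unit hx a).unit_spec.symm]
  exact Units.isUnit _

theorem chi_add (ν μ : C.I → ℤ) {x : GL C.I S} (hx : x ∈ C.B S) :
    C.chi (ν + μ) x = C.chi ν x * C.chi μ x := by
  rw [basicb_units ν hx _ fun a => (B.diag_unit hx a).unit_spec.symm,
    basicb_units μ hx _ fun a => (B.diag_unit hx a).unit_spec.symm,
    basicb_units (ν + μ) hx _ fun a => (B.diag_unit hx a).unit_spec.symm,
    ← Units.val_mul, ← Finset.prod_mul_distrib]
  simp only [Pi.add_apply, _root_.zpow_add]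

theorem chi_nsmul (m : ℕ) (ν : C.I → ℤ) {x : GL C.I S} (hx : x ∈ C.B S) :
    C.chi (m • ν) x = C.chi ν x ^ m := by
  induction m with
  | zero => simp only [Datum.chi, zero_nsmul, Pi.zero_apply, Int.toNat_zero, pow_zero, coe_units_inv, neg_zero, mul_one, Finset.prod_const_one]
  | succ m ih => rw [succ_nsmul, chi_add _ _ hx, ih, pow_succ]

theorem chi_congr (ν : C.I → ℤ) {x y : GL C.I S} (hx : x ∈ C.B S) (hy : y ∈ C.B S)
    (h : ∀ a, x.val a a = y.val a a) : C.chi ν x = C.chi ν y := by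
  rw [basicb_units ν hy _ fun a => (B.diag_unit hy a).unit_spec.symm,
    basicb_units ν hx _ fun a => (h a).trans (B.diag_unit hy a).unit_spec.symm]

theorem chi_field {F : Type} [Field F] (ν : C.I → ℤ) {x : GL C.I F} (hx : x ∈ C.B F) :
    C.chi ν x = ∏ a, x.val a a ^ ν a := by
  rw [basicb_units ν hx _ fun a => (B.diag_unit hx a).unit_spec.symm, Units.coe_prod]
  refine Finset.prod_congr rfl fun a _ => ?_
  rw [Units.val_zpow_eq_zpow_val, IsUnit.unit_spec]

theorem chi_units (ν : C.I → ℤ) {x : GL C.I S} (hx : x ∈ C.B S) (u : C.I → Sˣ)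
    (hu : ∀ a, x.val a a = u a) : C.chi ν x = (∏ a, u a ^ ν a : Sˣ) := by
  exact basicb_units ν hx u hu

variable (C)

/-- unipotent upper triangular elements of `L` -/
def IsU (u : GL C.I S) : Prop := u ∈ C.U S ∧ ∀ a, u.val a a = 1

/-- invertible diagonal matrix -/
def dgG (d : C.I → Sˣ) : GL C.I S :=
  ⟨diagonal fun a => (d a : S), diagonal fun a => ((d a)⁻¹ : Sˣ),
    by rw [diagonal_mul_diagonal]; simp, by rw [diagonal_mul_diagonal]; simp⟩

@[simp] theorem dgG_val (d : C.I → Sˣ) : (C.dgG d).val = diagonal fun a => (d a : S) := rfl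

/-- Levi part of a matrix -/
def levM (x : Matrix C.I C.I S) : Matrix C.I C.I S :=
  Matrix.of fun a b => if (C.lo a ↔ C.lo b) then x a b else 0

/-- upper left block, completed by the identity -/
def loM (x : Matrix C.I C.I S) : Matrix C.I C.I S :=
  Matrix.of fun a b => if C.lo a ∧ C.lo b then x a b else if a = b then 1 else 0

open Classical in
def lev (x : GL C.I S) : GL C.I S := if h : IsUnit (C.levM x.val) then h.unit else 1

open Classical in
def lop (x : GL C.I S) : GL C.I S := if h : IsUnit (C.loM x.val) then h.unit else 1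

/-- block matrices supported in the upper left corner -/
def IsLoM (A : Matrix C.I C.I S) : Prop :=
  ∀ a b, ¬ (C.lo a ∧ C.lo b ∧ C.blk a = C.blk b) → A a b = if a = b then 1 else 0

/-- the element of `L` with upper left block `A` and similitude `c` -/
def mkL (A : GL C.I S) (c : Sˣ) : GL C.I S :=
  A * (C.adjG A)⁻¹ * C.dgG fun a => if C.lo a then 1 else c

variable {C}

theorem IsU.one : C.IsU (1 : GL C.I S) := ⟨one_mem _, fun a => by simp⟩

theorem IsU.mul {u v : GL C.I S} (hu : C.IsU u) (hv : C.IsU v) : C.IsU (u * v) := by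
  refine ⟨mul_mem hu.1 hv.1, fun a => ?_⟩
  rw [Pat.mul_diag hu.1 hv.1 fun _ _ h h' => le_antisymm h.1 h'.1, hu.2, hv.2, one_mul]

theorem IsU.inv {u : GL C.I S} (hu : C.IsU u) : C.IsU u⁻¹ := by
  refine ⟨inv_mem hu.1, fun a => ?_⟩
  have h := Pat.mul_diag hu.1 (inv_mem hu.1) (a := a) fun _ _ h h' => le_antisymm h.1 h'.1
  rw [hu.2, one_mul, mul_inv_cancel, Units.val_one, Matrix.one_apply_eq] at h
  exact h.symm

theorem IsU.sim {u : GL C.I S} (hu : C.IsU u) : C.sim u = 1 := by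
  rw [Ctx.sim, Matrix.mul_apply, Finset.sum_eq_single C.a0]
  · rw [adj_apply, sg_mul_self, hu.2, hu.2, one_mul, one_mul]
  · intro b _ hb
    rw [Pat.zero hu.1 (a := b) (b := C.a0) fun h => hb (le_antisymm h.1 (Nat.zero_le _)), mul_zero]
  · exact fun h => absurd (Finset.mem_univ _) h

theorem IsU.map (f : S →+* S') {u : GL C.I S} (hu : C.IsU u) : C.IsU (C.mp f u) :=
  ⟨Pat.map f hu.1, fun a => by rw [mp_val, hu.2, map_one]⟩

theorem IsU.eq_one {u : GL C.I S} (hu : C.IsU u) (hb : u ∈ C.B S) : u = 1 := by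
  refine C.gl_ext fun a b => ?_
  rcases lt_trichotomy a b with h | h | h
  · rw [Pat.zero hb (not_le.2 h), Units.val_one, Matrix.one_apply_ne h.ne]
  · rw [h, hu.2, Units.val_one, Matrix.one_apply_eq]
  · rw [Pat.zero hu.1 fun h' => absurd h'.1 (not_le.2 h), Units.val_one, Matrix.one_apply_ne h.ne']

theorem dgG_mem (d : C.I → Sˣ) (c : Sˣ) (h : ∀ a, d a * d a.rev = c) : C.dgG d ∈ C.T S := by
  refine ⟨(C.inG_iff _).2 ⟨fun a b hab => ?_, c, c.isUnit, ?_⟩, fun a b hab => ?_⟩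
  · exact Matrix.diagonal_apply_ne _ fun e => hab (by rw [e])
  · rw [dgG_val, adj_diagonal, diagonal_mul_diagonal, smul_one_eq_diagonal]
    congr 1
    funext a
    rw [← h a, Units.val_mul, mul_comm]
  · exact Matrix.diagonal_apply_ne _ hab

theorem dgG_sim (d : C.I → Sˣ) : C.sim (C.dgG d) = (d C.a0 * d C.a0.rev : Sˣ) := by
  rw [Ctx.sim, dgG_val, adj_diagonal, diagonal_mul_diagonal, diagonal_apply_eq, Units.val_mul,
    mul_comm]

theorem T.eq_dgG {x : GL C.I S} (hx : x ∈ C.T S) :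
    ∃ (d : C.I → Sˣ) (c : Sˣ), (∀ a, d a * d a.rev = c) ∧ x = C.dgG d := by
  have hb : x ∈ C.B S := T_le hx
  refine ⟨fun a => (B.diag_unit hb a).unit, (Pat.inG hx).sim_unit.unit, fun a => Units.ext ?_,
    C.gl_ext fun a b => ?_⟩
  · rw [Units.val_mul, IsUnit.unit_spec, IsUnit.unit_spec, IsUnit.unit_spec, B.diag_rev hb]
  · rw [dgG_val]
    by_cases h : a = b
    · rw [h, diagonal_apply_eq, IsUnit.unit_spec]
    · rw [Matrix.diagonal_apply_ne _ h]
      exact Pat.zero hx h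

theorem levM_map (f : S →+* S') (x : Matrix C.I C.I S) :
    C.levM (x.map f) = (C.levM x).map f := by
  ext a b
  simp only [levM, Matrix.map_apply, Matrix.of_apply]
  split_ifs
  · rfl
  · rw [map_zero]

theorem loM_map (f : S →+* S') (x : Matrix C.I C.I S) : C.loM (x.map f) = (C.loM x).map f := by
  ext a b
  simp only [loM, Matrix.map_apply, Matrix.of_apply]
  split_ifs
  · rfl
  · rw [map_one]
  · rw [map_zero]

theorem basicb_levM_mul (A A' : Matrix C.I C.I S)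
    (h : ∀ a b c, (C.lo a ↔ C.lo c) → ¬ (C.lo a ↔ C.lo b) → A a b * A' b c = 0) :
    C.levM (A * A') = C.levM A * C.levM A' := by
  ext a c
  simp only [levM, Matrix.mul_apply, Matrix.of_apply]
  by_cases h1 : C.lo a ↔ C.lo c
  · rw [if_pos h1]
    refine Finset.sum_congr rfl fun b _ => ?_
    by_cases h2 : C.lo a ↔ C.lo b
    · rw [if_pos h2, if_pos (h2.symm.trans h1)]
    · rw [if_neg h2, zero_mul, h a b c h1 h2]
  · rw [if_neg h1]
    refine (Finset.sum_eq_zero fun b _ => ?_).symm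
    by_cases h2 : C.lo a ↔ C.lo b
    · rw [if_neg (fun h3 : C.lo b ↔ C.lo c => h1 (h2.trans h3)), mul_zero]
    · rw [if_neg h2, zero_mul]

theorem levM_mul_P {x y : GL C.I S} (hx : x ∈ C.P S) (hy : y ∈ C.P S) :
    C.levM (x * y).val = C.levM x.val * C.levM y.val := by
  refine basicb_levM_mul _ _ fun a b c h1 h2 => ?_
  by_cases h : C.lo a
  · rw [Pat.zero hx (a := a) (b := b) fun h' => h2 ⟨h', fun _ => h⟩, zero_mul]
  · rw [Pat.zero hy (a := b) (b := c) fun h' => h2 ⟨fun h3 => absurd h3 h, fun h3 => h1.2 (h' h3)⟩,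
      mul_zero]

theorem levM_mul_Pp {x y : GL C.I S} (hx : x ∈ C.Pp S) (hy : y ∈ C.Pp S) :
    C.levM (x * y).val = C.levM x.val * C.levM y.val := by
  refine basicb_levM_mul _ _ fun a b c h1 h2 => ?_
  by_cases h : C.lo a
  · rw [Pat.zero hy (a := b) (b := c) fun h' => h2 ⟨fun h3 => h' (h1.1 h3), fun _ => h⟩, mul_zero]
  · rw [Pat.zero hx (a := a) (b := b) fun h' => h2 ⟨fun h3 => absurd h3 h, h'⟩, zero_mul]

theorem basicb_loM_mul (A A' : Matrix C.I C.I S)
    (h : ∀ a b c, C.lo a → ¬ C.lo b → C.lo c → A a b * A' b c = 0) :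
    C.loM (A * A') = C.loM A * C.loM A' := by
  ext a c
  simp only [loM, Matrix.mul_apply, Matrix.of_apply]
  by_cases ha : C.lo a
  · by_cases hc : C.lo c
    · rw [if_pos ⟨ha, hc⟩]
      refine Finset.sum_congr rfl fun b _ => ?_
      by_cases hb : C.lo b
      · rw [if_pos ⟨ha, hb⟩, if_pos ⟨hb, hc⟩]
      · rw [if_neg fun h' => hb h'.2, if_neg fun e : a = b => hb (e ▸ ha), zero_mul,
          h a b c ha hb hc]
    · have h1 : ∀ b, ¬ (C.lo b ∧ C.lo c) := fun b h' => hc h'.2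
      simp only [if_neg (h1 _)]
      rw [Finset.sum_eq_single c]
      · rw [if_neg (h1 _), if_pos (rfl : c = c), mul_one]
      · intro b _ hb
        rw [if_neg hb, mul_zero]
      · exact fun h => absurd (Finset.mem_univ _) h
  · have h1 : ∀ b, ¬ (C.lo a ∧ C.lo b) := fun b h' => ha h'.1
    simp only [if_neg (h1 _)]
    rw [Finset.sum_eq_single a]
    · rw [if_neg (h1 _), if_pos (rfl : a = a), one_mul]
    · intro b _ hb
      rw [if_neg hb.symm, zero_mul]
    · exact fun h => absurd (Finset.mem_univ _) h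

theorem basicb_loM_P {x : GL C.I S} (hx : x ∈ C.P S) (h : Matrix C.I C.I S) :
    C.loM (x.val * h) = C.loM x.val * C.loM h :=
  basicb_loM_mul _ _ fun a b c ha hb _ => by
    rw [Pat.zero hx (a := a) (b := b) fun h' => hb (h' ha), zero_mul]

theorem basicb_loM_Pp {y : GL C.I S} (hy : y ∈ C.Pp S) (h : Matrix C.I C.I S) :
    C.loM (h * y.val) = C.loM h * C.loM y.val :=
  basicb_loM_mul _ _ fun a b c _ hb hc => by
    rw [Pat.zero hy (a := b) (b := c) fun h' => hb (h' hc), mul_zero]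

/-- the upper left block of `x h y` -/
theorem loM_mul3 {x y : GL C.I S} (hx : x ∈ C.P S) (hy : y ∈ C.Pp S) (h : Matrix C.I C.I S) :
    C.loM (x.val * h * y.val) = C.loM x.val * C.loM h * C.loM y.val := by
  rw [basicb_loM_Pp hy, basicb_loM_P hx]

theorem loM_mul_P {x : GL C.I S} (hx : x ∈ C.P S) (h : Matrix C.I C.I S) :
    C.loM (x.val * h) = C.loM x.val * C.loM h := by
  exact basicb_loM_P hx h

theorem loM_mul_Pp {y : GL C.I S} (hy : y ∈ C.Pp S) (h : Matrix C.I C.I S) :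
    C.loM (h * y.val) = C.loM h * C.loM y.val := by
  exact basicb_loM_Pp hy h

theorem loM_one : C.loM (1 : Matrix C.I C.I S) = 1 := by
  ext a b
  simp only [loM, Matrix.of_apply, Matrix.one_apply, ite_self]

theorem basicc_levM_one : C.levM (1 : Matrix C.I C.I S) = 1 := by
  ext a b
  simp only [levM, of_apply, one_apply]
  split_ifs with h1 h2 h2
  · rfl
  · rfl
  · exact absurd (h2 ▸ Iff.rfl) h1
  · rfl

theorem basicc_levM_mul {x y : GL C.I S} (hx : x ∈ C.P S ∧ y ∈ C.P S ∨ x ∈ C.Pp S ∧ y ∈ C.Pp S) :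
    C.levM (x * y).val = C.levM x.val * C.levM y.val :=
  hx.elim (fun h => levM_mul_P h.1 h.2) fun h => levM_mul_Pp h.1 h.2

theorem basicc_levM_adj (x : Matrix C.I C.I S) : C.levM (C.adj x) = C.adj (C.levM x) := by
  ext a b
  have h : (C.lo b.rev ↔ C.lo a.rev) ↔ (C.lo a ↔ C.lo b) := by rw [C.lo_rev, C.lo_rev]; tauto
  simp only [levM, of_apply, adj_apply, h]
  split_ifs <;> simp

theorem basicc_levM_smul (c : S) (x : Matrix C.I C.I S) : C.levM (c • x) = c • C.levM x := by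
  ext a b
  simp only [levM, of_apply, Matrix.smul_apply]
  split_ifs <;> simp

theorem basicc_inv_mul {x : GL C.I S} (hx : x ∈ C.P S ∨ x ∈ C.Pp S) :
    C.levM x⁻¹.val * C.levM x.val = 1 := by
  rw [← basicc_levM_mul (hx.imp (fun h => ⟨inv_mem h, h⟩) fun h => ⟨inv_mem h, h⟩),
    inv_mul_cancel, Units.val_one, basicc_levM_one]

theorem basicc_inG {x : GL C.I S} (hx : x ∈ C.P S ∨ x ∈ C.Pp S) : C.InG x :=
  hx.elim Pat.inG Pat.inG

theorem lev_val {x : GL C.I S} (hx : x ∈ C.P S ∨ x ∈ C.Pp S) : (C.lev x).val = C.levM x.val := by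
  have h : IsUnit (C.levM x.val) := IsUnit.of_mul_eq_one_right _ (basicc_inv_mul hx)
  rw [lev, dif_pos h, IsUnit.unit_spec]

theorem basicc_adj_lev {x : GL C.I S} (hx : x ∈ C.P S ∨ x ∈ C.Pp S) :
    C.adj (C.lev x).val * (C.lev x).val = C.sim x • (1 : Matrix C.I C.I S) := by
  rw [lev_val hx, ← basicc_levM_adj, (basicc_inG hx).adj_eq, basicc_levM_smul, smul_mul_assoc,
    basicc_inv_mul hx]

theorem basicc_lev_apply {x : GL C.I S} (hx : x ∈ C.P S ∨ x ∈ C.Pp S) (a b : C.I) :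
    (C.lev x).val a b = if (C.lo a ↔ C.lo b) then x.val a b else 0 := by
  rw [lev_val hx]; rfl

theorem lev_mem {x : GL C.I S} (hx : x ∈ C.P S ∨ x ∈ C.Pp S) : C.lev x ∈ C.L S := by
  refine ⟨(C.inG_iff _).2 ⟨fun a b h => ?_, _, (basicc_inG hx).sim_unit, basicc_adj_lev hx⟩,
    fun a b h => ?_⟩
  · rw [basicc_lev_apply hx, (basicc_inG hx).1 a b h, ite_self]
  · rw [basicc_lev_apply hx]; exact if_neg h

theorem lev_mul_P {x y : GL C.I S} (hx : x ∈ C.P S) (hy : y ∈ C.P S) :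
    C.lev (x * y) = C.lev x * C.lev y := by
  refine Units.ext ?_
  rw [Units.val_mul, lev_val (Or.inl (mul_mem hx hy)), lev_val (Or.inl hx), lev_val (Or.inl hy),
    levM_mul_P hx hy]

theorem lev_mul_Pp {x y : GL C.I S} (hx : x ∈ C.Pp S) (hy : y ∈ C.Pp S) :
    C.lev (x * y) = C.lev x * C.lev y := by
  refine Units.ext ?_
  rw [Units.val_mul, lev_val (Or.inr (mul_mem hx hy)), lev_val (Or.inr hx), lev_val (Or.inr hy),
    levM_mul_Pp hx hy]

theorem lev_of_L {x : GL C.I S} (hx : x ∈ C.L S) : C.lev x = x := by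
  refine C.gl_ext fun a b => ?_
  rw [basicc_lev_apply (Or.inl (L_le_P hx))]
  split_ifs with h
  · rfl
  · exact (hx.2 a b h).symm

theorem lev_inv {x : GL C.I S} (hx : x ∈ C.P S ∨ x ∈ C.Pp S) : C.lev x⁻¹ = (C.lev x)⁻¹ := by
  refine eq_inv_of_mul_eq_one_left (Units.ext ?_)
  rw [Units.val_mul, lev_val hx, lev_val (hx.imp inv_mem inv_mem), basicc_inv_mul hx,
    Units.val_one]

theorem lev_mp (f : S →+* S') {x : GL C.I S} (hx : x ∈ C.P S ∨ x ∈ C.Pp S) :
    C.lev (C.mp f x) = C.mp f (C.lev x) := by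
  refine Units.ext ?_
  rw [lev_val (hx.imp (Pat.map f) (Pat.map f)), mp_mat, mp_mat, lev_val hx, levM_map]

theorem lev_sim {x : GL C.I S} (hx : x ∈ C.P S ∨ x ∈ C.Pp S) : C.sim (C.lev x) = C.sim x := by
  rw [sim, basicc_adj_lev hx]
  simp

theorem lev_pat {R : C.Rel} {x : GL C.I S} (hx : x ∈ C.P S ∨ x ∈ C.Pp S) (h : x ∈ C.Pat R S) :
    C.lev x ∈ C.Pat R S := by
  refine ⟨(lev_mem hx).1, fun a b hab => ?_⟩
  rw [basicc_lev_apply hx, h.2 a b hab, ite_self]

theorem lev_diag {x : GL C.I S} (hx : x ∈ C.P S ∨ x ∈ C.Pp S) (a : C.I) :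
    (C.lev x).val a a = x.val a a := by
  rw [basicc_lev_apply hx, if_pos Iff.rfl]

theorem loM_lev {x : GL C.I S} (hx : x ∈ C.P S ∨ x ∈ C.Pp S) :
    C.loM (C.lev x).val = C.loM x.val := by
  ext a b
  simp only [loM, of_apply]
  by_cases h : C.lo a ∧ C.lo b
  · rw [if_pos h, if_pos h, basicc_lev_apply hx, if_pos (iff_of_true h.1 h.2)]
  · rw [if_neg h, if_neg h]

theorem mem_B_of_lev {x : GL C.I S} (hx : x ∈ C.P S) (h : C.lev x ∈ C.B S) : x ∈ C.B S := by
  refine ⟨hx.1, fun a b hab => ?_⟩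
  by_cases h1 : C.lo a ↔ C.lo b
  · have := h.2 a b hab
    rwa [basicc_lev_apply (Or.inl hx), if_pos h1] at this
  · refine hx.2 a b fun h2 => h1 ⟨h2, fun hb => C.lo_of_le (not_le.1 hab).le hb⟩

/-- `(lev x)⁻¹ x` lies in the unipotent radical of `P` -/
theorem lev_inv_mul {x : GL C.I S} (hx : x ∈ C.P S) :
    (C.lev x)⁻¹ * x ∈ C.B S ∧ ∀ a, ((C.lev x)⁻¹ * x).val a a = 1 := by
  have hl : C.lev x ∈ C.L S := lev_mem (Or.inl hx)
  have hu : (C.lev x)⁻¹ * x ∈ C.P S := mul_mem (inv_mem (L_le_P hl)) hx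
  have h1 : C.lev ((C.lev x)⁻¹ * x) = 1 := by
    rw [lev_mul_P (inv_mem (L_le_P hl)) hx, lev_of_L (inv_mem hl), inv_mul_cancel]
  refine ⟨mem_B_of_lev hu (h1 ▸ one_mem _), fun a => ?_⟩
  rw [← lev_diag (Or.inl hu), h1]
  simp

theorem lop_val {x : GL C.I S} (hx : IsUnit (C.loM x.val).det) :
    (C.lop x).val = C.loM x.val := by
  rw [lop, dif_pos ((Matrix.isUnit_iff_isUnit_det _).2 hx), IsUnit.unit_spec]

theorem loM_det_unit {x : GL C.I S} (hx : x ∈ C.P S ∨ x ∈ C.Pp S) : IsUnit (C.loM x.val).det := by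
  rw [← Matrix.isUnit_iff_isUnit_det]
  rcases hx with hx | hx
  · refine IsUnit.of_mul_eq_one (C.loM x⁻¹.val) ?_
    rw [← loM_mul_P hx, Units.mul_inv, loM_one]
  · refine IsUnit.of_mul_eq_one_right (C.loM x⁻¹.val) ?_
    rw [← loM_mul_Pp hx, Units.inv_mul, loM_one]

theorem isLoM_loM {x : GL C.I S} (hx : C.InG x) : C.IsLoM (C.loM x.val) := by
  intro a b h
  simp only [loM, of_apply]
  by_cases h1 : C.lo a ∧ C.lo b
  · have h2 : C.blk a ≠ C.blk b := fun h2 => h ⟨h1.1, h1.2, h2⟩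
    rw [if_pos h1, hx.1 a b h2, if_neg fun h3 => h2 (by rw [h3])]
  · rw [if_neg h1]

theorem IsLoM.loM {A : Matrix C.I C.I S} (h : C.IsLoM A) : C.loM A = A := by
  ext a b
  simp only [Ctx.loM, of_apply]
  by_cases h1 : C.lo a ∧ C.lo b
  · rw [if_pos h1]
  · rw [if_neg h1, h a b fun h2 => h1 ⟨h2.1, h2.2.1⟩]

theorem IsLoM.one : C.IsLoM (1 : Matrix C.I C.I S) := fun a b _ => Matrix.one_apply

theorem IsLoM.mul {A A' : Matrix C.I C.I S} (h : C.IsLoM A) (h' : C.IsLoM A') :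
    C.IsLoM (A * A') := by
  intro a b hab
  rw [Matrix.mul_apply]
  by_cases ha : C.lo a
  · by_cases hb : C.lo b
    · have h2 : C.blk a ≠ C.blk b := fun h2 => hab ⟨ha, hb, h2⟩
      rw [if_neg fun h3 => h2 (by rw [h3])]
      refine Finset.sum_eq_zero fun c _ => ?_
      by_cases h3 : C.blk a = C.blk c
      · rw [h' c b fun h4 => h2 (h3.trans h4.2.2), if_neg fun h4 => h2 (by rw [h3, h4]), mul_zero]
      · rw [h a c fun h4 => h3 h4.2.2, if_neg fun h4 => h3 (by rw [h4]), zero_mul]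
    · rw [Finset.sum_eq_single b]
      · rw [h' b b fun h4 => hb h4.1, if_pos rfl, mul_one, h a b hab]
      · intro c _ hc
        rw [h' c b fun h4 => hb h4.2.1, if_neg hc, mul_zero]
      · simp only [Finset.mem_univ, not_true_eq_false, IsEmpty.forall_iff]
  · rw [Finset.sum_eq_single a]
    · rw [h a a fun h4 => ha h4.1, if_pos rfl, one_mul, h' a b hab]
    · intro c _ hc
      rw [h a c fun h4 => ha h4.1, if_neg hc.symm, zero_mul]
    · simp only [Finset.mem_univ, not_true_eq_false, IsEmpty.forall_iff]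

theorem IsLoM.inv {A : GL C.I S} (h : C.IsLoM A.val) : C.IsLoM A⁻¹.val := by
  classical
  intro a b hab
  set c : C.I → Prop := fun m => C.lo m ∧ C.blk m = C.blk a with hc
  by_cases ha : C.lo a
  · have hcomm : diagonal (fun m => if c m then (1 : S) else 0) * A.val
        = A.val * diagonal (fun m => if c m then (1 : S) else 0) := by
      ext m n
      rw [diagonal_mul, mul_diagonal]
      by_cases h1 : C.lo m ∧ C.lo n ∧ C.blk m = C.blk n
      · have : c m ↔ c n := by simp only [hc, h1.1, h1.2.1, h1.2.2]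
        simp only [this, mul_comm]
      · rw [h m n h1]
        by_cases h2 : m = n
        · subst h2; simp
        · simp [h2]
    have hcomm' : diagonal (fun m => if c m then (1 : S) else 0) * A⁻¹.val
        = A⁻¹.val * diagonal (fun m => if c m then (1 : S) else 0) := by
      calc _ = A⁻¹.val * (A.val * diagonal (fun m => if c m then (1 : S) else 0)) * A⁻¹.val := by
            rw [← Matrix.mul_assoc, Units.inv_mul, Matrix.one_mul]
        _ = _ := by
            rw [← hcomm, Matrix.mul_assoc, Matrix.mul_assoc, Units.mul_inv, Matrix.mul_one]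
    have h3 := congrFun (congrFun hcomm' a) b
    have h4 : ¬ c b := fun h4 => hab ⟨ha, h4.1, h4.2.symm⟩
    have h5 : c a := ⟨ha, rfl⟩
    rw [diagonal_mul, mul_diagonal, if_pos h5, if_neg h4, one_mul, mul_zero] at h3
    rw [h3, if_neg fun h6 : a = b => h4 (h6 ▸ h5)]
  · have h1 := congrFun (congrFun A.mul_inv a) b
    rw [Matrix.mul_apply, Finset.sum_eq_single a] at h1
    · rwa [h a a fun h4 => ha h4.1, if_pos rfl, one_mul, one_apply] at h1
    · intro m _ hm
      rw [h a m fun h4 => ha h4.1, if_neg hm.symm, zero_mul]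
    · simp only [Finset.mem_univ, not_true_eq_false, coe_units_inv, IsEmpty.forall_iff]

theorem IsLoM.map (f : S →+* S') {A : Matrix C.I C.I S} (h : C.IsLoM A) : C.IsLoM (A.map f) := by
  intro a b hab
  rw [map_apply, h a b hab]
  split_ifs <;> simp

theorem basicc_adj_lo {A : Matrix C.I C.I S} (h : C.IsLoM A) {a b : C.I}
    (hab : C.lo a ∨ C.lo b ∨ C.blk a ≠ C.blk b) : C.adj A a b = if a = b then 1 else 0 := by
  rw [adj_apply, h b.rev a.rev (by rw [C.lo_rev, C.lo_rev, C.blk_rev_iff]; tauto)]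
  by_cases h1 : a = b
  · subst h1; simp [sg_mul_self]
  · rw [if_neg h1, if_neg fun h2 => h1 (Fin.rev_injective h2).symm, mul_zero]

theorem basicc_mkL_val {A : GL C.I S} (h : C.IsLoM A.val) (c : Sˣ) (a b : C.I) :
    (C.mkL A c).val a b =
      if C.lo b then A.val a b else C.adj A⁻¹.val a b * c := by
  have e : (C.mkL A c).val = A.val * C.adj A⁻¹.val *
      diagonal fun a => ((if C.lo a then 1 else c : Sˣ) : S) := rfl
  rw [e, mul_diagonal, Matrix.mul_apply]
  by_cases hb : C.lo b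
  · rw [if_pos hb, if_pos hb, Units.val_one, mul_one, Finset.sum_eq_single b]
    · rw [basicc_adj_lo h.inv (Or.inl hb), if_pos rfl, mul_one]
    · intro m _ hm
      rw [basicc_adj_lo h.inv (Or.inr (Or.inl hb)), if_neg hm, mul_zero]
    · simp only [Finset.mem_univ, not_true_eq_false, coe_units_inv, IsEmpty.forall_iff]
  · rw [if_neg hb, if_neg hb, Finset.sum_eq_single a]
    · by_cases ha : C.lo a
      · rw [basicc_adj_lo h.inv (Or.inl ha), if_neg fun h1 : a = b => hb (h1 ▸ ha), mul_zero]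
      · rw [h a a fun h4 => ha h4.1, if_pos rfl, one_mul]
    · intro m _ hm
      by_cases hm' : C.lo m
      · rw [basicc_adj_lo h.inv (Or.inl hm'), if_neg fun h1 : m = b => hb (h1 ▸ hm'), mul_zero]
      · rw [h a m fun h4 => hm' h4.2.1, if_neg hm.symm, zero_mul]
    · simp only [Finset.mem_univ, not_true_eq_false, coe_units_inv, IsEmpty.forall_iff]

theorem basicc_comm {A : Matrix C.I C.I S} {A' : Matrix C.I C.I S} (h : C.IsLoM A)
    (h' : C.IsLoM A') : C.adj A' * A = A * C.adj A' := by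
  ext a b
  have e : ∀ a b, (A * C.adj A') a b = if C.lo b then A a b else C.adj A' a b := by
    intro a b
    rw [Matrix.mul_apply]
    by_cases hb : C.lo b
    · rw [if_pos hb, Finset.sum_eq_single b]
      · rw [basicc_adj_lo h' (Or.inl hb), if_pos rfl, mul_one]
      · intro m _ hm
        rw [basicc_adj_lo h' (Or.inr (Or.inl hb)), if_neg hm, mul_zero]
      · simp only [Finset.mem_univ, not_true_eq_false, IsEmpty.forall_iff]
    · rw [if_neg hb, Finset.sum_eq_single a]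
      · by_cases ha : C.lo a
        · rw [basicc_adj_lo h' (Or.inl ha), if_neg fun h1 : a = b => hb (h1 ▸ ha), mul_zero]
        · rw [h a a fun h4 => ha h4.1, if_pos rfl, one_mul]
      · intro m _ hm
        by_cases hm' : C.lo m
        · rw [basicc_adj_lo h' (Or.inl hm'), if_neg fun h1 : m = b => hb (h1 ▸ hm'), mul_zero]
        · rw [h a m fun h4 => hm' h4.2.1, if_neg hm.symm, zero_mul]
      · simp only [Finset.mem_univ, not_true_eq_false, IsEmpty.forall_iff]
  rw [e, Matrix.mul_apply]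
  by_cases hb : C.lo b
  · rw [if_pos hb, Finset.sum_eq_single a]
    · by_cases ha : C.lo a
      · rw [basicc_adj_lo h' (Or.inl ha), if_pos rfl, one_mul]
      · rw [h a b fun h4 => ha h4.1, if_neg fun h1 : a = b => ha (h1 ▸ hb), mul_zero]
    · intro m _ hm
      by_cases hm' : C.lo m
      · rw [basicc_adj_lo h' (Or.inr (Or.inl hm')), if_neg hm.symm, zero_mul]
      · rw [h m b fun h4 => hm' h4.1, if_neg fun h1 : m = b => hm' (h1 ▸ hb), mul_zero]
    · simp only [Finset.mem_univ, not_true_eq_false, IsEmpty.forall_iff]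
  · rw [if_neg hb, Finset.sum_eq_single b]
    · rw [h b b fun h4 => hb h4.1, if_pos rfl, mul_one]
    · intro m _ hm
      rw [h m b fun h4 => hb h4.2.1, if_neg hm, mul_zero]
    · simp only [Finset.mem_univ, not_true_eq_false, IsEmpty.forall_iff]

theorem basicc_adj_mkL {A : GL C.I S} (h : C.IsLoM A.val) (c : Sˣ) :
    C.adj (C.mkL A c).val * (C.mkL A c).val = (c : S) • (1 : Matrix C.I C.I S) := by
  have e : (C.mkL A c).val = A.val * C.adj A⁻¹.val *
      diagonal fun a => ((if C.lo a then 1 else c : Sˣ) : S) := rfl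
  have h1 : A⁻¹.val * C.adj A.val * (A.val * C.adj A⁻¹.val) = 1 := by
    rw [← basicc_comm h.inv h, ← basicc_comm h h.inv, Matrix.mul_assoc,
      basicc_comm h h.inv, ← Matrix.mul_assoc A⁻¹.val, Units.inv_mul, Matrix.one_mul, ← adj_mul,
      Units.inv_mul, adj_one]
  rw [e, adj_mul, adj_mul, adj_adj, adj_diagonal, Matrix.mul_assoc, ← Matrix.mul_assoc (_ * _), h1,
    Matrix.one_mul, diagonal_mul_diagonal]
  ext a b
  rw [Matrix.smul_apply, diagonal_apply, one_apply]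
  have := C.lo_rev a
  by_cases h2 : a = b
  · rw [if_pos h2, if_pos h2]
    by_cases ha : C.lo a
    · rw [if_pos ha, if_neg fun h3 => this.1 h3 ha]; simp
    · rw [if_neg ha, if_pos (this.2 ha)]; simp
  · rw [if_neg h2, if_neg h2, smul_zero]

theorem mkL_mem {A : GL C.I S} (h : C.IsLoM A.val) (c : Sˣ) : C.mkL A c ∈ C.L S := by
  refine ⟨(C.inG_iff _).2 ⟨fun a b hab => ?_, _, c.isUnit, basicc_adj_mkL h c⟩, fun a b hab => ?_⟩
  · have h1 : a ≠ b := fun h1 => hab (by rw [h1])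
    rw [basicc_mkL_val h]
    split_ifs
    · rw [h a b fun h4 => hab h4.2.2, if_neg h1]
    · rw [basicc_adj_lo h.inv (Or.inr (Or.inr hab)), if_neg h1, zero_mul]
  · have h1 : a ≠ b := fun h1 => hab (h1 ▸ Iff.rfl)
    simp only [rL] at hab
    rw [basicc_mkL_val h]
    split_ifs with hb
    · rw [h a b fun h4 => hab (iff_of_true h4.1 hb), if_neg h1]
    · rw [basicc_adj_lo h.inv (Or.inl (by tauto)), if_neg h1, zero_mul]

theorem loM_mkL {A : GL C.I S} (h : C.IsLoM A.val) (c : Sˣ) : C.loM (C.mkL A c).val = A.val := by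
  ext a b
  simp only [loM, of_apply]
  by_cases h1 : C.lo a ∧ C.lo b
  · rw [if_pos h1, basicc_mkL_val h, if_pos h1.2]
  · rw [if_neg h1, h a b fun h2 => h1 ⟨h2.1, h2.2.1⟩]

theorem sim_mkL {A : GL C.I S} (h : C.IsLoM A.val) (c : Sˣ) : C.sim (C.mkL A c) = c := by
  rw [sim, basicc_adj_mkL h c]
  simp

/-- entries of the lower right block -/
theorem mkL_hi {A : GL C.I S} (h : C.IsLoM A.val) (c : Sˣ) {a b : C.I} (ha : ¬ C.lo a)
    (hb : ¬ C.lo b) : (C.mkL A c).val a b = c * A⁻¹.val b.rev a.rev := by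
  rw [basicc_mkL_val h, if_neg hb, adj_ent, mul_comm]

theorem mkL_mp (f : S →+* S') (A : GL C.I S) (c : Sˣ) :
    C.mp f (C.mkL A c) = C.mkL (C.mp f A) (Units.map (f : S →* S') c) := by
  rw [mkL, mkL, map_mul, map_mul, map_inv, adjG_mp]
  congr 1
  refine C.gl_ext fun a b => ?_
  rw [mp_val, dgG_val, dgG_val, diagonal_apply, diagonal_apply]
  split_ifs <;> simp

theorem L_ext {x y : GL C.I S} (hx : x ∈ C.L S) (hy : y ∈ C.L S) (h1 : C.loM x.val = C.loM y.val)
    (h2 : C.sim x = C.sim y) : x = y := by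
  have hlo : ∀ {u v : GL C.I S}, C.loM u.val = C.loM v.val → ∀ a b, C.lo a → C.lo b →
      u.val a b = v.val a b := by
    intro u v h a b ha hb
    have := congrFun (congrFun h a) b
    simpa only [loM, of_apply, ha, hb, and_self, if_true] using this
  have h3 : C.loM x⁻¹.val = C.loM y⁻¹.val := by
    have e1 : C.loM x⁻¹.val * C.loM x.val = 1 := by
      rw [← loM_mul_P (inv_mem (L_le_P hx)), Units.inv_mul, loM_one]
    have e2 : C.loM y.val * C.loM y⁻¹.val = 1 := by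
      rw [← loM_mul_P (L_le_P hy), Units.mul_inv, loM_one]
    rw [← Matrix.mul_one (C.loM x⁻¹.val), ← e2, ← Matrix.mul_assoc, ← h1, e1, Matrix.one_mul]
  refine C.gl_ext fun a b => ?_
  by_cases hab : C.lo a ↔ C.lo b
  · by_cases ha : C.lo a
    · exact hlo h1 a b ha (hab.1 ha)
    · have hb : ¬ C.lo b := fun hb => ha (hab.2 hb)
      rw [← C.adj_adj x.val, ← C.adj_adj y.val, hx.1.adj_eq, hy.1.adj_eq, adj_apply, adj_apply,
        Matrix.smul_apply, Matrix.smul_apply, h2, hlo h3 _ _ ((C.lo_rev b).2 hb) ((C.lo_rev a).2 ha)]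
  · rw [hx.2 a b hab, hy.2 a b hab]

/-- an element of `P` whose upper left block is lower triangular lies in `B` -/
theorem mem_B_of_lo {x : GL C.I S} (hx : x ∈ C.P S)
    (h : ∀ a b, C.lo a → C.lo b → a < b → x.val a b = 0) : x ∈ C.B S := by
  refine mem_B_of_lev hx ?_
  have hl : C.lev x ∈ C.L S := lev_mem (Or.inl hx)
  have ht : (C.loM x.val).BlockTriangular OrderDual.toDual := by
    intro a b hab
    have hab' : a < b := hab
    simp only [loM, of_apply]
    by_cases h1 : C.lo a ∧ C.lo b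
    · rw [if_pos h1, h a b h1.1 h1.2 hab']
    · rw [if_neg h1, if_neg hab'.ne]
  have e : C.loM x⁻¹.val * C.loM x.val = 1 := by
    rw [← loM_mul_P (inv_mem hx), Units.inv_mul, loM_one]
  have := invertibleOfLeftInverse _ _ e
  have ht' := Matrix.blockTriangular_inv_of_blockTriangular ht
  rw [Matrix.inv_eq_left_inv e] at ht'
  refine ⟨hl.1, fun a b hab => ?_⟩
  have hab' : a < b := not_le.1 hab
  rw [basicc_lev_apply (Or.inl hx)]
  split_ifs with h1
  · by_cases ha : C.lo a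
    · exact h a b ha (h1.1 ha) hab'
    · have hb : ¬ C.lo b := fun hb => ha (h1.2 hb)
      have h2 := ht' (i := b.rev) (j := a.rev) (Fin.rev_lt_rev.2 hab')
      simp only [loM, of_apply, (C.lo_rev b).2 hb, (C.lo_rev a).2 ha, and_self, if_true] at h2
      exact (Datum.InG.inv hx.1).inv_zero h2
  · rfl

/-- an element of `L` has shape `R` as soon as the upper left blocks of `x` and `x⁻¹` have -/
theorem mem_Pat_of_lo {R : C.Rel} {x : GL C.I S} (hx : x ∈ C.L S)
    (h : ∀ a b, C.lo a → C.lo b → ¬ R.r a b → x.val a b = 0)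
    (h' : ∀ a b, C.lo a → C.lo b → ¬ R.r a b → x⁻¹.val a b = 0) : x ∈ C.Pat R S := by
  refine ⟨hx.1, fun a b hab => ?_⟩
  by_cases h1 : C.lo a ↔ C.lo b
  · by_cases ha : C.lo a
    · exact h a b ha (h1.1 ha) hab
    · have hb : ¬ C.lo b := fun hb => ha (h1.2 hb)
      refine (Datum.InG.inv hx.1).inv_zero
        (h' _ _ ((C.lo_rev b).2 hb) ((C.lo_rev a).2 ha) fun h2 => hab ?_)
      simpa using R.mir _ _ h2
  · exact hx.2 a b h1

variable (C) in
/-- Levi subgroups -/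
structure Lv extends C.Rel where
  symm : ∀ a b, r a b → r b a

namespace Lv

variable (Λ : C.Lv)

/-- the shape `R` lies in a parabolic subgroup with Levi subgroup `Λ` -/
def Ov (R : C.Rel) : Prop :=
  ∀ a b c, C.blk a = C.blk b → C.blk b = C.blk c → R.r a b → R.r b c → Λ.r a c → Λ.r a b

open Classical in
def levM (x : Matrix C.I C.I S) : Matrix C.I C.I S :=
  Matrix.of fun a b => if Λ.r a b then x a b else 0

open Classical in
/-- the Levi part -/
def lev (x : GL C.I S) : GL C.I S := if h : IsUnit (Λ.levM x.val) then h.unit else 1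

/-- the Levi subgroup -/
abbrev Gp (S : Type) [CommRing S] := C.Pat Λ.toRel S

variable {Λ} {R : C.Rel}

theorem ov_self : Λ.Ov Λ.toRel := fun _ _ _ _ _ h _ _ => h

theorem Ov.mono {R' : C.Rel} (h : Λ.Ov R) (hR : ∀ a b, C.blk a = C.blk b → R'.r a b → R.r a b) :
    Λ.Ov R' := fun a b c h1 h2 h3 h4 => h a b c h1 h2 (hR _ _ h1 h3) (hR _ _ h2 h4)

theorem levM_pos {x : Matrix C.I C.I S} {a b : C.I} (h : Λ.r a b) : Λ.levM x a b = x a b :=
  if_pos h

theorem levM_neg {x : Matrix C.I C.I S} {a b : C.I} (h : ¬ Λ.r a b) : Λ.levM x a b = 0 :=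
  if_neg h

theorem levM_mul (h : Λ.Ov R) {x y : GL C.I S} (hx : x ∈ C.Pat R S) (hy : y ∈ C.Pat R S) :
    Λ.levM (x * y).val = Λ.levM x.val * Λ.levM y.val := by
  ext a c
  have z1 : ∀ b, C.blk a ≠ C.blk b → Λ.levM x.val a b = 0 := fun b hb => by
    by_cases h1 : Λ.r a b
    · rw [levM_pos h1, Pat.blk hx hb]
    · exact levM_neg h1
  have z2 : ∀ b, C.blk b ≠ C.blk c → Λ.levM y.val b c = 0 := fun b hb => by
    by_cases h1 : Λ.r b c
    · rw [levM_pos h1, Pat.blk hy hb]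
    · exact levM_neg h1
  rw [Matrix.mul_apply]
  by_cases h1 : Λ.r a c
  · rw [levM_pos h1, Units.val_mul, Matrix.mul_apply]
    refine Finset.sum_congr rfl fun b _ => ?_
    by_cases b1 : C.blk a = C.blk b
    · by_cases b2 : C.blk b = C.blk c
      · by_cases h2 : Λ.r a b
        · rw [levM_pos h2, levM_pos (Λ.trans b a c b1.symm (b1.trans b2) (Λ.symm _ _ h2) h1)]
        · rw [levM_neg h2, zero_mul]
          by_cases r1 : R.r a b
          · rw [Pat.zero hy fun r2 => h2 (h a b c b1 b2 r1 r2 h1), mul_zero]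
          · rw [Pat.zero hx r1, zero_mul]
      · rw [z2 b b2, Pat.blk hy b2, mul_zero, mul_zero]
    · rw [z1 b b1, Pat.blk hx b1, zero_mul, zero_mul]
  · rw [levM_neg h1]
    refine (Finset.sum_eq_zero fun b _ => ?_).symm
    by_cases b1 : C.blk a = C.blk b
    · by_cases b2 : C.blk b = C.blk c
      · by_cases h2 : Λ.r a b
        · rw [levM_neg fun h3 => h1 (Λ.trans a b c b1 b2 h2 h3), mul_zero]
        · rw [levM_neg h2, zero_mul]
      · rw [z2 b b2, mul_zero]
    · rw [z1 b b1, zero_mul]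

theorem levM_one : Λ.levM (1 : Matrix C.I C.I S) = 1 := by
  ext a b
  by_cases h : Λ.r a b
  · exact levM_pos h
  · rw [levM_neg h, Matrix.one_apply_ne fun e : a = b => h (e ▸ Λ.refl a)]

theorem levM_inv_mul (h : Λ.Ov R) {x : GL C.I S} (hx : x ∈ C.Pat R S) :
    Λ.levM x⁻¹.val * Λ.levM x.val = 1 := by
  rw [← levM_mul h (inv_mem hx) hx, inv_mul_cancel, Units.val_one, levM_one]

theorem lev_val (h : Λ.Ov R) {x : GL C.I S} (hx : x ∈ C.Pat R S) :
    (Λ.lev x).val = Λ.levM x.val := by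
  have h1 : IsUnit (Λ.levM x.val) := IsUnit.of_mul_eq_one_right _ (levM_inv_mul h hx)
  rw [lev, dif_pos h1, IsUnit.unit_spec]

theorem lev_pos (h : Λ.Ov R) {x : GL C.I S} (hx : x ∈ C.Pat R S) {a b : C.I} (hab : Λ.r a b) :
    (Λ.lev x).val a b = x.val a b := by rw [lev_val h hx, levM_pos hab]

theorem lev_neg (h : Λ.Ov R) {x : GL C.I S} (hx : x ∈ C.Pat R S) {a b : C.I} (hab : ¬ Λ.r a b) :
    (Λ.lev x).val a b = 0 := by rw [lev_val h hx, levM_neg hab]

theorem adj_lev (h : Λ.Ov R) {x : GL C.I S} (hx : x ∈ C.Pat R S) :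
    C.adj (Λ.lev x).val * (Λ.lev x).val = C.sim x • (1 : Matrix C.I C.I S) := by
  have e : C.adj (Λ.levM x.val) = C.sim x • Λ.levM x⁻¹.val := by
    ext a b
    have h1 := congrFun (congrFun hx.1.adj_eq a) b
    rw [adj_ent, Matrix.smul_apply] at h1 ⊢
    by_cases h2 : Λ.r a b
    · rw [levM_pos h2, levM_pos (Λ.mir _ _ h2), h1]
    · rw [levM_neg h2, levM_neg fun h3 => h2 (by simpa using Λ.mir _ _ h3), smul_zero]
  rw [lev_val h hx, e, smul_mul_assoc, levM_inv_mul h hx]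

theorem lev_mem (h : Λ.Ov R) {x : GL C.I S} (hx : x ∈ C.Pat R S) : Λ.lev x ∈ Λ.Gp S := by
  refine ⟨(C.inG_iff _).2 ⟨fun a b hab => ?_, _, hx.1.sim_unit, adj_lev h hx⟩,
    fun a b hab => lev_neg h hx hab⟩
  by_cases h1 : Λ.r a b
  · rw [lev_pos h hx h1, Pat.blk hx hab]
  · exact lev_neg h hx h1

theorem lev_mul (h : Λ.Ov R) {x y : GL C.I S} (hx : x ∈ C.Pat R S) (hy : y ∈ C.Pat R S) :
    Λ.lev (x * y) = Λ.lev x * Λ.lev y := by
  refine Units.ext ?_
  rw [Units.val_mul, lev_val h (mul_mem hx hy), lev_val h hx, lev_val h hy, levM_mul h hx hy]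

theorem lev_of_mem {x : GL C.I S} (hx : x ∈ Λ.Gp S) : Λ.lev x = x := by
  refine C.gl_ext fun a b => ?_
  by_cases h : Λ.r a b
  · exact lev_pos ov_self hx h
  · rw [lev_neg ov_self hx h, Pat.zero hx h]

theorem lev_one : Λ.lev (1 : GL C.I S) = 1 := lev_of_mem (one_mem _)

theorem lev_inv (h : Λ.Ov R) {x : GL C.I S} (hx : x ∈ C.Pat R S) : Λ.lev x⁻¹ = (Λ.lev x)⁻¹ :=
  eq_inv_of_mul_eq_one_left (by rw [← lev_mul h (inv_mem hx) hx, inv_mul_cancel, lev_one])

theorem lev_mp (h : Λ.Ov R) (f : S →+* S') {x : GL C.I S} (hx : x ∈ C.Pat R S) :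
    Λ.lev (C.mp f x) = C.mp f (Λ.lev x) := by
  refine C.gl_ext fun a b => ?_
  by_cases h1 : Λ.r a b
  · rw [lev_pos h (Pat.map f hx) h1, mp_val, mp_val, lev_pos h hx h1]
  · rw [lev_neg h (Pat.map f hx) h1, mp_val, lev_neg h hx h1, map_zero]

theorem lev_sim (h : Λ.Ov R) {x : GL C.I S} (hx : x ∈ C.Pat R S) : C.sim (Λ.lev x) = C.sim x := by
  rw [sim, adj_lev h hx]
  simp

theorem lev_pat (h : Λ.Ov R) {R' : C.Rel} {x : GL C.I S} (hx : x ∈ C.Pat R S)
    (hx' : x ∈ C.Pat R' S) : Λ.lev x ∈ C.Pat R' S := by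
  refine ⟨(lev_mem h hx).1, fun a b hab => ?_⟩
  by_cases h1 : Λ.r a b
  · rw [lev_pos h hx h1, Pat.zero hx' hab]
  · exact lev_neg h hx h1

theorem lev_diag (h : Λ.Ov R) {x : GL C.I S} (hx : x ∈ C.Pat R S) (a : C.I) :
    (Λ.lev x).val a a = x.val a a := lev_pos h hx (Λ.refl a)

/-- an element has shape `R'` if its Levi part has and `R'` contains the rest of `R` -/
theorem mem_of_lev (h : Λ.Ov R) {R' : C.Rel} {x : GL C.I S} (hx : x ∈ C.Pat R S)
    (hl : Λ.lev x ∈ C.Pat R' S)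
    (hR : ∀ a b, C.blk a = C.blk b → R.r a b → ¬ Λ.r a b → R'.r a b) : x ∈ C.Pat R' S := by
  refine ⟨hx.1, fun a b hab => ?_⟩
  by_cases h1 : Λ.r a b
  · rw [← lev_pos h hx h1, Pat.zero hl hab]
  · by_cases h2 : C.blk a = C.blk b
    · exact Pat.zero hx fun h3 => hab (hR a b h2 h3 h1)
    · exact Pat.blk hx h2

theorem lev_lev_inv_mul (h : Λ.Ov R) {x : GL C.I S} (hx : x ∈ C.Pat R S) :
    Λ.lev ((Λ.lev x)⁻¹ * x) = 1 := by
  rw [lev_mul h (inv_mem (lev_pat h hx hx)) hx, lev_of_mem (inv_mem (lev_mem h hx)),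
    inv_mul_cancel]

end Lv

variable (C) in
def lvL : C.Lv := { C.rL with symm := fun _ _ h => Iff.symm h }

variable (C) in
def lvM : C.Lv := { C.rM with symm := fun _ _ h => Iff.symm h }

theorem ovP : C.lvL.Ov C.rP := fun a b c _ _ h1 h2 h3 => ⟨h1, fun hb => h3.2 (h2 hb)⟩
theorem ovPp : C.lvL.Ov C.rPp := fun a b c _ _ h1 h2 h3 => ⟨fun ha => h2 (h3.1 ha), h1⟩
theorem ovQ : C.lvM.Ov C.rQ := fun a b c _ _ h1 h2 h3 => ⟨fun ha => h2 (h3.1 ha), h1⟩

theorem lvL_lev {x : GL C.I S} (hx : x ∈ C.P S ∨ x ∈ C.Pp S) : C.lvL.lev x = C.lev x := by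
  refine C.gl_ext fun a b => ?_
  rw [basicc_lev_apply hx]
  split_ifs with h
  · exact hx.elim (fun hx => Lv.lev_pos ovP hx h) fun hx => Lv.lev_pos ovPp hx h
  · exact hx.elim (fun hx => Lv.lev_neg ovP hx h) fun hx => Lv.lev_neg ovPp hx h

theorem lev_pos {x : GL C.I S} (hx : x ∈ C.P S ∨ x ∈ C.Pp S) {a b : C.I} (h : C.lo a ↔ C.lo b) :
    (C.lev x).val a b = x.val a b := by rw [basicc_lev_apply hx, if_pos h]

theorem lev_neg {x : GL C.I S} (hx : x ∈ C.P S ∨ x ∈ C.Pp S) {a b : C.I}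
    (h : ¬ (C.lo a ↔ C.lo b)) : (C.lev x).val a b = 0 := by rw [basicc_lev_apply hx, if_neg h]

variable (C) in
/-- the projection `Q → M` -/
abbrev lq' (y : GL C.I S) : GL C.I S := C.lvM.lev y

theorem mem_Z_of_lev {y : GL C.I S} (hy : y ∈ C.Q S) (h : C.lq' y ∈ C.B S) : y ∈ C.Z S :=
  Lv.mem_of_lev ovQ hy (mem_Z_of (Lv.lev_mem ovQ hy) h) fun a b _ h1 h2 => Or.inl (by
    simp only [rQ, lvM, rM] at h1 h2; tauto)

variable (C) in
/-- permutations of the basis that normalise `G` -/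
def IsAut (τ : Equiv.Perm C.I) : Prop :=
  (∀ a, τ a.rev = (τ a).rev) ∧ ∀ a b, C.blk (τ a) = C.blk (τ b) ↔ C.blk a = C.blk b

theorem isAut_σ : C.IsAut C.σ := ⟨C.σ_rev, C.σ_blk⟩

theorem IsAut.inv {τ : Equiv.Perm C.I} (h : C.IsAut τ) : C.IsAut τ⁻¹ :=
  ⟨fun a => τ.injective (by simp [h.1]), fun a b => by rw [← h.2]; simp⟩

theorem IsAut.mul {τ τ' : Equiv.Perm C.I} (h : C.IsAut τ) (h' : C.IsAut τ') : C.IsAut (τ * τ') :=
  ⟨fun a => by simp [h.1, h'.1], fun a b => by
    rw [Equiv.Perm.mul_apply, Equiv.Perm.mul_apply, h.2, h'.2]⟩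

theorem IsAut.pow {τ : Equiv.Perm C.I} (h : C.IsAut τ) (n : ℕ) : C.IsAut (τ ^ n) := by
  induction n with
  | zero => exact ⟨fun _ => rfl, fun _ _ => Iff.rfl⟩
  | succ n ih => rw [pow_succ]; exact ih.mul h

variable (C) in
/-- apply `f` to the entries and move the entry `(a, b)` to `(τ a, τ b)` -/
def tw (f : S →+* S') (τ : Equiv.Perm C.I) : GL C.I S →* GL C.I S' where
  toFun x := ⟨(x.val.map f).submatrix τ.symm τ.symm, (x⁻¹.val.map f).submatrix τ.symm τ.symm,
    by rw [submatrix_mul_equiv, ← Matrix.map_mul]; simp only [coe_units_inv, isUnits_det_units, mul_nonsing_inv, map_zero, map_one, Matrix.map_one, submatrix_one_equiv],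
    by rw [submatrix_mul_equiv, ← Matrix.map_mul]; simp only [coe_units_inv, isUnits_det_units, nonsing_inv_mul, map_zero, map_one, Matrix.map_one, submatrix_one_equiv]⟩
  map_one' := Units.ext (by simp)
  map_mul' x y := Units.ext (by
    change ((x.val * y.val).map f).submatrix τ.symm τ.symm =
      (x.val.map f).submatrix τ.symm τ.symm * (y.val.map f).submatrix τ.symm τ.symm
    rw [submatrix_mul_equiv, Matrix.map_mul])

theorem tw_symm (f : S →+* S') (τ : Equiv.Perm C.I) (x : GL C.I S) (a b : C.I) :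
    (C.tw f τ x).val a b = f (x.val (τ.symm a) (τ.symm b)) := rfl

theorem tw_val (f : S →+* S') (τ : Equiv.Perm C.I) (x : GL C.I S) (a b : C.I) :
    (C.tw f τ x).val (τ a) (τ b) = f (x.val a b) := by
  rw [tw_symm, Equiv.symm_apply_apply, Equiv.symm_apply_apply]

theorem tw_adj (f : S →+* S') {τ : Equiv.Perm C.I} (hτ : C.IsAut τ) {x : GL C.I S}
    (hx : C.InG x) : C.adj (C.tw f τ x).val * (C.tw f τ x).val =
      f (C.sim x) • (1 : Matrix C.I C.I S') := by
  have e : C.adj (C.tw f τ x).val = f (C.sim x) • (C.tw f τ x⁻¹).val := by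
    ext a b
    obtain ⟨a, rfl⟩ := τ.surjective a
    obtain ⟨b, rfl⟩ := τ.surjective b
    rw [adj_ent, ← hτ.1, ← hτ.1, tw_val, Matrix.smul_apply, tw_val, ← C.adj_ent x.val, hx.adj_eq,
      Matrix.smul_apply, smul_eq_mul, smul_eq_mul, map_mul]
  rw [e, smul_mul_assoc, ← Units.val_mul, ← map_mul, inv_mul_cancel, map_one, Units.val_one]

theorem tw_inG (f : S →+* S') {τ : Equiv.Perm C.I} (hτ : C.IsAut τ) {x : GL C.I S}
    (hx : C.InG x) : C.InG (C.tw f τ x) := by
  refine (C.inG_iff _).2 ⟨fun a b hab => ?_, _, hx.sim_unit.map f, tw_adj f hτ hx⟩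
  obtain ⟨a, rfl⟩ := τ.surjective a
  obtain ⟨b, rfl⟩ := τ.surjective b
  rw [tw_val, hx.1 a b fun h => hab ((hτ.2 a b).2 h), map_zero]

theorem tw_sim (f : S →+* S') {τ : Equiv.Perm C.I} (hτ : C.IsAut τ) {x : GL C.I S}
    (hx : C.InG x) : C.sim (C.tw f τ x) = f (C.sim x) := by
  rw [sim, tw_adj f hτ hx]
  simp

theorem tw_pat (f : S →+* S') {τ : Equiv.Perm C.I} (hτ : C.IsAut τ) {R R' : C.Rel}
    (h : ∀ a b, C.blk a = C.blk b → R.r a b → R'.r (τ a) (τ b)) {x : GL C.I S}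
    (hx : x ∈ C.Pat R S) : C.tw f τ x ∈ C.Pat R' S' := by
  refine ⟨tw_inG f hτ hx.1, fun a b hab => ?_⟩
  obtain ⟨a, rfl⟩ := τ.surjective a
  obtain ⟨b, rfl⟩ := τ.surjective b
  rw [tw_val]
  by_cases h1 : C.blk a = C.blk b
  · rw [hx.2 a b fun h2 => hab (h a b h1 h2), map_zero]
  · rw [hx.1.1 a b h1, map_zero]

end Ring

section Frob

variable {C} {S S' : Type} [CommRing S] [CommRing S'] [Algebra C.k S] [Algebra C.k S']

variable (C) in
/-- functoriality for algebra maps -/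
abbrev ma (f : S →ₐ[C.k] S') : GL C.I S →* GL C.I S' := C.mp (f : S →+* S')

variable (C S) in
theorem p_eq_zero : (C.p : S) = 0 := by
  rw [← map_natCast (algebraMap C.k S), CharP.cast_eq_zero, map_zero]

variable (C S) in
/-- the `p`-th power map of a `k`-algebra -/
def frob : S →+* S where
  toFun x := x ^ C.p
  map_one' := one_pow _
  map_mul' x y := mul_pow _ _ _
  map_zero' := zero_pow C.hp.ne_zero
  map_add' x y := by
    obtain ⟨r, hr⟩ := exists_add_pow_prime_eq C.hp x y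
    rw [hr, C.p_eq_zero S]; ring

@[simp] theorem frob_apply (x : S) : C.frob S x = x ^ C.p := rfl

variable (C) in
/-- Frobenius on matrices -/
def frM (x : Matrix C.I C.I S) : Matrix C.I C.I S :=
  Matrix.of fun a b => x (C.σ.symm a) (C.σ.symm b) ^ C.p

theorem frM_apply (x : Matrix C.I C.I S) (a b : C.I) : C.frM x (C.σ a) (C.σ b) = x a b ^ C.p := by
  simp [frM]

theorem basicd_frM_eq (x : Matrix C.I C.I S) :
    C.frM x = (x.map (C.frob S)).submatrix C.σ.symm C.σ.symm := rfl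

theorem basicd_ext {x y : Matrix C.I C.I S}
    (h : ∀ a b, x (C.σ a) (C.σ b) = y (C.σ a) (C.σ b)) : x = y := by
  ext a b
  simpa using h (C.σ.symm a) (C.σ.symm b)

theorem basicd_ite (a b : C.I) :
    (if a = b then (1 : S) else 0) ^ C.p = if C.σ a = C.σ b then 1 else 0 := by
  simp only [C.σ.injective.eq_iff]
  split_ifs
  · exact one_pow _
  · exact zero_pow C.hp.ne_zero

theorem frM_mul (x y : Matrix C.I C.I S) : C.frM (x * y) = C.frM x * C.frM y := by
  rw [basicd_frM_eq, basicd_frM_eq, basicd_frM_eq, Matrix.map_mul, submatrix_mul_equiv]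

theorem frM_one : C.frM (1 : Matrix C.I C.I S) = 1 := by
  refine basicd_ext fun a b => ?_
  rw [frM_apply, one_apply, one_apply, basicd_ite]

theorem frM_map (f : S →+* S') (x : Matrix C.I C.I S) : C.frM (x.map f) = (C.frM x).map f := by
  ext a b
  simp [frM]

theorem frM_adj (x : Matrix C.I C.I S) : C.frM (C.adj x) = C.adj (C.frM x) := by
  refine basicd_ext fun a b => ?_
  rw [frM_apply, adj_ent, adj_ent, ← C.σ_rev, ← C.σ_rev, frM_apply]

variable (C) in
/-- Frobenius on `GL` -/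
def fr : GL C.I S →* GL C.I S where
  toFun x := ⟨C.frM x.val, C.frM x⁻¹.val, by rw [← frM_mul]; simp only [coe_units_inv, isUnits_det_units, mul_nonsing_inv, frM_one],
    by rw [← frM_mul]; simp only [coe_units_inv, isUnits_det_units, nonsing_inv_mul, frM_one]⟩
  map_one' := Units.ext frM_one
  map_mul' x y := Units.ext (frM_mul _ _)

@[simp] theorem fr_mat (x : GL C.I S) : (C.fr x).val = C.frM x.val := rfl

theorem fr_val (x : GL C.I S) (a b : C.I) : (C.fr x).val (C.σ a) (C.σ b) = x.val a b ^ C.p :=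
  frM_apply _ _ _

theorem fr_mp (f : S →+* S') (x : GL C.I S) : C.fr (C.mp f x) = C.mp f (C.fr x) :=
  Units.ext (frM_map f _)

theorem basicd_adj_fr {x : GL C.I S} (hx : C.InG x) :
    C.adj (C.fr x).val * (C.fr x).val = C.sim x ^ C.p • (1 : Matrix C.I C.I S) := by
  rw [fr_mat, ← frM_adj, ← frM_mul, hx.adj_mul]
  refine basicd_ext fun a b => ?_
  rw [frM_apply, Matrix.smul_apply, Matrix.smul_apply, one_apply, one_apply, smul_eq_mul, smul_eq_mul, mul_pow,
    basicd_ite]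

theorem fr_inG {x : GL C.I S} (hx : C.InG x) : C.InG (C.fr x) := by
  refine (C.inG_iff _).2 ⟨fun a b hab => ?_, _, hx.sim_unit.pow _, basicd_adj_fr hx⟩
  obtain ⟨a, rfl⟩ := C.σ.surjective a
  obtain ⟨b, rfl⟩ := C.σ.surjective b
  rw [fr_val, hx.1 a b fun h => hab ((C.σ_blk a b).2 h), zero_pow C.hp.ne_zero]

theorem fr_sim {x : GL C.I S} (hx : C.InG x) : C.sim (C.fr x) = C.sim x ^ C.p := by
  rw [sim, basicd_adj_fr hx]
  simp

theorem fr_pat {R R' : C.Rel} (h : ∀ a b, C.blk a = C.blk b → R.r a b → R'.r (C.σ a) (C.σ b))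
    {x : GL C.I S} (hx : x ∈ C.Pat R S) : C.fr x ∈ C.Pat R' S := by
  refine ⟨fr_inG hx.1, fun a b hab => ?_⟩
  obtain ⟨a, rfl⟩ := C.σ.surjective a
  obtain ⟨b, rfl⟩ := C.σ.surjective b
  rw [fr_val]
  by_cases h1 : C.blk a = C.blk b
  · rw [hx.2 a b fun h2 => hab (h a b h1 h2), zero_pow C.hp.ne_zero]
  · rw [hx.1.1 a b h1, zero_pow C.hp.ne_zero]

theorem basicd_le {a b : C.I} (h : C.blk a = C.blk b) (hab : a ≤ b) : C.σ a ≤ C.σ b := by
  rcases hab.eq_or_lt with rfl | h1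
  · exact le_rfl
  · exact (C.σ_mono a b h h1).le

theorem fr_G {x : GL C.I S} (hx : x ∈ C.G S) : C.fr x ∈ C.G S := by
  exact fr_pat (fun _ _ _ _ => trivial) hx
theorem fr_B {x : GL C.I S} (hx : x ∈ C.B S) : C.fr x ∈ C.B S := by
  exact fr_pat (fun _ _ h h' => basicd_le h.symm h') hx
theorem fr_Bp {x : GL C.I S} (hx : x ∈ C.Bp S) : C.fr x ∈ C.Bp S := by
  exact fr_pat (fun _ _ h h' => basicd_le h h') hx
theorem fr_L {x : GL C.I S} (hx : x ∈ C.L S) : C.fr x ∈ C.M S := by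
  exact fr_pat (fun a b _ h' => (C.lq_σ a).trans (Iff.trans h' (C.lq_σ b).symm)) hx
theorem fr_T {x : GL C.I S} (hx : x ∈ C.T S) : C.fr x ∈ C.T S := by
  exact fr_pat (fun a b _ h' => congrArg C.σ h') hx

theorem fr_eq_tw (x : GL C.I S) : C.fr x = C.tw (C.frob S) C.σ x := rfl

variable (C) in
/-- Frobenius twisted by a permutation -/
abbrev ft (τ : Equiv.Perm C.I) : GL C.I S →* GL C.I S := C.tw (C.frob S) τ

theorem ft_val (τ : Equiv.Perm C.I) (x : GL C.I S) (a b : C.I) :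
    (C.ft τ x).val (τ a) (τ b) = x.val a b ^ C.p := tw_val _ _ _ _ _

theorem ft_mp (f : S →+* S') (τ : Equiv.Perm C.I) (x : GL C.I S) :
    C.ft τ (C.mp f x) = C.mp f (C.ft τ x) :=
  C.gl_ext fun a b => (map_pow f _ _).symm

variable (C) in
/-- the zip group -/
abbrev E (x y : GL C.I S) : Prop := C.InE C.p x y

theorem E_iff {x y : GL C.I S} :
    C.E x y ↔ x ∈ C.P S ∧ y ∈ C.Q S ∧ C.lq' y = C.fr (C.lev x) := by
  rw [E, Datum.InE, ← mem_P, ← mem_Q]
  refine and_congr_right fun hx => and_congr_right fun hy => ?_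
  have e : ∀ a b, C.lvM.r (C.σ a) (C.σ b) ↔ (C.lo a ↔ C.lo b) := fun a b => by
    simp only [lvM, rM, lq_σ]
  constructor
  · intro h
    refine Units.ext (basicd_ext fun a b => ?_)
    rw [fr_val]
    by_cases h1 : C.lo a ↔ C.lo b
    · rw [Lv.lev_pos ovQ hy ((e a b).2 h1), lev_pos (Or.inl hx) h1, h a b h1]
    · rw [Lv.lev_neg ovQ hy fun h2 => h1 ((e a b).1 h2), lev_neg (Or.inl hx) h1,
        zero_pow C.hp.ne_zero]
  · intro h a b hab
    rw [← Lv.lev_pos ovQ hy ((e a b).2 hab), ← lev_pos (Or.inl hx) hab, ← fr_val, ← h]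

theorem E.memP {x y : GL C.I S} (h : C.E x y) : x ∈ C.P S := (E_iff.1 h).1
theorem E.memQ {x y : GL C.I S} (h : C.E x y) : y ∈ C.Q S := (E_iff.1 h).2.1

theorem E.one : C.E (1 : GL C.I S) 1 := by
  refine E_iff.2 ⟨one_mem _, one_mem _, ?_⟩
  rw [lev_of_L (one_mem _), map_one, lq', Lv.lev_one]

theorem E.mul {x y x' y' : GL C.I S} (h : C.E x y) (h' : C.E x' y') : C.E (x * x') (y * y') := by
  obtain ⟨h1, h2, h3⟩ := E_iff.1 h
  obtain ⟨h4, h5, h6⟩ := E_iff.1 h'
  refine E_iff.2 ⟨mul_mem h1 h4, mul_mem h2 h5, ?_⟩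
  rw [lq', Lv.lev_mul ovQ h2 h5, lev_mul_P h1 h4, map_mul, ← h3, ← h6]

theorem E.inv {x y : GL C.I S} (h : C.E x y) : C.E x⁻¹ y⁻¹ := by
  obtain ⟨h1, h2, h3⟩ := E_iff.1 h
  refine E_iff.2 ⟨inv_mem h1, inv_mem h2, ?_⟩
  rw [lq', Lv.lev_inv ovQ h2, lev_inv (Or.inl h1), map_inv, ← h3]

theorem E.map (f : S →+* S') {x y : GL C.I S} (h : C.E x y) : C.E (C.mp f x) (C.mp f y) := by
  refine ⟨mem_P.1 (Pat.map f h.memP), mem_Q.1 (Pat.map f h.memQ), fun a b hab => ?_⟩
  rw [mp_val, mp_val, h.2.2 a b hab, map_pow]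

theorem E.of_map (f : S →+* S') (hf : Function.Injective f) {x y : GL C.I S}
    (h : C.E (C.mp f x) (C.mp f y)) : C.E x y := by
  refine ⟨mem_P.1 (Pat.of_map f hf h.memP), mem_Q.1 (Pat.of_map f hf h.memQ),
    fun a b hab => hf ?_⟩
  rw [map_pow, ← mp_val, ← mp_val]
  exact h.2.2 a b hab

theorem E.of_P {x : GL C.I S} (h : x ∈ C.P S) : C.E x (C.fr (C.lev x)) := by
  have h1 : C.fr (C.lev x) ∈ C.M S := fr_L (lev_mem (Or.inl h))
  exact E_iff.2 ⟨h, M_le_Q h1, Lv.lev_of_mem (Λ := C.lvM) h1⟩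

theorem E.of_L {x : GL C.I S} (h : x ∈ C.L S) : C.E x (C.fr x) := by
  have := E.of_P (L_le_P h)
  rwa [lev_of_L h] at this

theorem E.memZ {x y : GL C.I S} (h : C.E x y) (hx : x ∈ C.B S) : y ∈ C.Z S := by
  obtain ⟨h1, h2, h3⟩ := E_iff.1 h
  exact mem_Z_of_lev h2 (h3 ▸ fr_B (lev_pat (Or.inl h1) hx))

theorem E.diag {x y : GL C.I S} (h : C.E x y) (a : C.I) :
    y.val (C.σ a) (C.σ a) = x.val a a ^ C.p := h.2.2 a a Iff.rfl

end Frob

theorem basicd_fix {π : Equiv.Perm C.I} (n : ℕ) (h1 : ∀ a, C.blk a = n → C.blk (π a) = n)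
    (h2 : ∀ a b, C.blk a = n → C.blk b = n → a < b → π a < π b) (a : C.I) (ha : C.blk a = n) :
    π a = a := by
  let f : {a : C.I // C.blk a = n} → {a : C.I // C.blk a = n} := fun a => ⟨π a, h1 a a.2⟩
  have hf : StrictMono f := fun a b hab => h2 a b a.2 b.2 hab
  have h3 : f ⟨a, ha⟩ = ⟨a, ha⟩ := le_antisymm hf.apply_le hf.le_apply
  exact congrArg Subtype.val h3

/-- a permutation that preserves the blocks and is increasing on them is the identity -/
theorem perm_eq_one {π : Equiv.Perm C.I} (h1 : ∀ a, C.blk (π a) = C.blk a)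
    (h2 : ∀ a b, C.blk a = C.blk b → a < b → π a < π b) : π = 1 := by
  ext a
  rw [basicd_fix C (C.blk a) (fun b hb => (h1 b).trans hb)
    (fun b c hb hc => h2 b c (hb.trans hc.symm)) a rfl]
  rfl

theorem σ_pow_blk (n : ℕ) (a b : C.I) :
    C.blk ((C.σ ^ n) a) = C.blk ((C.σ ^ n) b) ↔ C.blk a = C.blk b := by
  induction n with
  | zero => rfl
  | succ n ih => rw [pow_succ', Equiv.Perm.mul_apply, Equiv.Perm.mul_apply, C.σ_blk, ih]

theorem σ_pow_lt (n : ℕ) {a b : C.I} (h : C.blk a = C.blk b) :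
    (C.σ ^ n) a < (C.σ ^ n) b ↔ a < b := by
  have key : ∀ {a b : C.I}, C.blk a = C.blk b → a < b → (C.σ ^ n) a < (C.σ ^ n) b := by
    intro a b h hab
    induction n with
    | zero => exact hab
    | succ n ih =>
      rw [pow_succ', Equiv.Perm.mul_apply, Equiv.Perm.mul_apply]
      exact C.σ_mono _ _ ((C.σ_pow_blk n a b).2 h) ih
  refine ⟨fun h1 => ?_, key h⟩
  rcases lt_trichotomy a b with h2 | h2 | h2
  · exact h2
  · subst h2; exact absurd h1 (lt_irrefl _)
  · exact absurd h1 (not_lt.2 (key h.symm h2).le)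

theorem σ_pow_rev (n : ℕ) (a : C.I) : (C.σ ^ n) a.rev = ((C.σ ^ n) a).rev := by
  induction n with
  | zero => rfl
  | succ n ih => rw [pow_succ', Equiv.Perm.mul_apply, Equiv.Perm.mul_apply, ih, C.σ_rev]

/-- a power of `σ` that maps a block to itself fixes it pointwise -/
theorem σ_pow_fix (n : ℕ) {a : C.I} (h : C.blk ((C.σ ^ n) a) = C.blk a) : (C.σ ^ n) a = a := by
  exact basicd_fix C (C.blk a) (fun b hb => ((C.σ_pow_blk n b a).2 hb).trans h)
    (fun b c hb hc => (C.σ_pow_lt n (hb.trans hc.symm)).2) a rfl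

end Ctx

namespace Datum.Fn

variable {C : Ctx} {R R' : Type} [CommRing R] [CommRing R'] {ν : C.I → ℤ}

/-- base change -/
def pull (s : C.Fn R ν) (j : R →+* R') : C.Fn R' ν where
  f S _ ξ a := s.f S (ξ.comp j) a
  nat S S' _ _ h ξ a ha := s.nat S S' h (ξ.comp j) a ha
  equi S _ ξ a b ha hb := s.equi S (ξ.comp j) a b ha hb

/-- left translation -/
def tr (s : C.Fn R ν) (x : GL C.I R) (hx : x ∈ C.P R) : C.Fn R ν where
  f S _ ξ a := s.f S ξ (C.mp ξ x * a)
  nat S S' _ _ h ξ a ha := by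
    rw [← s.nat S S' h ξ _ (Ctx.mem_P.1 (mul_mem (Ctx.Pat.map ξ hx) (Ctx.mem_P.2 ha))), map_mul]
    rfl
  equi S _ ξ a b ha hb := by
    rw [← mul_assoc]
    exact s.equi S ξ _ b (Ctx.mem_P.1 (mul_mem (Ctx.Pat.map ξ hx) (Ctx.mem_P.2 ha))) hb

/-- sections only depend on the Levi part -/
theorem f_lev (s : C.Fn R ν) {S : Type} [CommRing S] (ξ : R →+* S) {a : GL C.I S}
    (ha : a ∈ C.P S) : s.f S ξ (C.lev a) = s.f S ξ a := by
  obtain ⟨h1, h2⟩ := Ctx.lev_inv_mul ha
  have h3 := s.equi S ξ (C.lev a) _ (Ctx.mem_P.1 (Ctx.L_le_P (Ctx.lev_mem (Or.inl ha))))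
    (Ctx.mem_B.1 h1)
  rw [Ctx.chi_congr ν h1 (one_mem _) (fun b => by rw [h2]; simp), Ctx.chi_one, mul_one,
    mul_inv_cancel_left] at h3
  exact h3.symm

end Datum.Fn

end Pool.Agent.MP_b8b722_ag

end

end partBasic
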