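import Pool.Agent.MP_b8b722_ag.A2

attribute [-instance] Algebra.Generators.instRing littleWedderburn MonTypeEquivalenceMon.monMonoid
  instCharZeroOfIsSemireal IsAffineAddMonoid.toIsCancelAdd RKHS.instFunLike IdemSemiring.toSemiring
  Algebra.Generators.instIsScalarTowerRing DistribMulActionSemiHomClass.toAddMonoidHomClass
  FloorSemiring.instCharZero Field.instIsIntegrallyClosed NormedField.toField
  IdemCommSemiring.toCommSemiring NonUnitalAlgHomClass.toNonUnitalRingHomClass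
  instIsRightCancelAddOfAddRightReflectLE BialgHomClass.toMonoidHomClass RCLike.charZero_rclike
  instCoeTCOfCoe instIsDedekindFiniteMonoidOfFinite CommGroup.toDivisionCommMonoid
  DivisionRing.toDivisionSemiring Fintype.decidableForallFintype TestFunctionClass.toDFunLike
  NumberField.to_charZero NormedDivisionRing.toDivisionRing ContDiffMapSupportedInClass.toDFunLike
  RingConeClass.toSubsemiringClass CommMonTypeEquivalenceCommMon.commMonCommMonoid
  IsPurelyInseparable.instOfHasExponent instIsFractionRing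
  ContinuousSemilinearMapClass.toSemilinearMapClass SubringClass.toSubsemiringClass
  instNonUnitalAlgHomClassOfNonUnitalAlgEquivClass instSMulZeroClass
  MulSemiringAction.toDistribMulAction LocalizedModule.instIsScalarTower BooleanRing.toRing
  BialgHomClass.toAlgHomClass NormMulClass.toNoZeroDivisors NonUnitalNormedRing.toNormedAddCommGroup
  ValuationClass.toMonoidWithZeroHomClass

section partRefl

/-!
Simple roots, minimal parabolic subgroups, the two charts of `B \ P_s`.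
-/

set_option linter.unusedSectionVars false
set_option linter.unusedVariables false

open Matrix

noncomputable section

namespace Pool.Agent.MP_b8b722_ag

namespace Ctx

variable (C : Ctx)

/-- simple roots -/
structure Sp where
  i : C.I
  j : C.I
  h : C.Simple i j

/-- coroot of the root `e_i - e_j` -/
def cv (i j a : C.I) : ℤ := if a = i ∨ a = j.rev then 1 else if a = j ∨ a = i.rev then -1 else 0

/-- reflection in the root `e_i - e_j` -/
def sw (i j : C.I) : Equiv.Perm C.I :=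
  if j = i.rev then Equiv.swap i j else Equiv.swap i j * Equiv.swap j.rev i.rev

/-- `(p σ - 1) η = - M α^∨` -/
def IsEta (i j : C.I) (M : ℕ) (η : C.I → ℤ) : Prop :=
  0 < M ∧ ∀ a, (C.p : ℤ) * η (C.σ.symm a) - η a = - (M : ℤ) * C.cv i j a

/-- Weyl group elements -/
def IsW (π : Equiv.Perm C.I) : Prop :=
  (∀ a, C.blk (π a) = C.blk a) ∧ ∀ a, π a.rev = (π a).rev

/-- families of pairwise orthogonal simple roots -/
structure Arr where
  A : C.I → C.I → Prop
  simple : ∀ a b, A a b → C.Simple a b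
  mir : ∀ a b, A a b → A b.rev a.rev
  nochain : ∀ a b c, A a b → ¬ A b c

variable {C}

theorem simple_rev {i j : C.I} (h : C.Simple i j) : C.Simple j.rev i.rev := by
  refine ⟨C.blk_rev _ _ h.1.symm, Fin.rev_lt_rev.2 h.2.1, fun m hm hlt => ?_⟩
  refine h.2.2 m.rev ?_ ⟨Fin.lt_rev_iff.1 hlt.2, Fin.rev_lt_iff.1 hlt.1⟩
  have := C.blk_rev _ _ hm
  rw [Fin.rev_rev] at this
  exact this.trans h.1.symm

theorem simple_σ {i j : C.I} (h : C.Simple i j) (n : ℕ) :
    C.Simple ((C.σ ^ n) i) ((C.σ ^ n) j) := by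
  refine ⟨(C.σ_pow_blk n i j).2 h.1, (C.σ_pow_lt n h.1).2 h.2.1, fun m hm hlt => ?_⟩
  obtain ⟨m, rfl⟩ := (C.σ ^ n).surjective m
  have h1 := (C.σ_pow_blk n m i).1 hm
  exact h.2.2 m h1 ⟨(C.σ_pow_lt n h1.symm).1 hlt.1, (C.σ_pow_lt n (h1.trans h.1)).1 hlt.2⟩

theorem simple_right_unique {i j j' : C.I} (h : C.Simple i j) (h' : C.Simple i j') : j = j' := by
  rcases lt_trichotomy j j' with h1 | h1 | h1
  · exact absurd ⟨h.2.1, h1⟩ (h'.2.2 j h.1.symm)
  · exact h1
  · exact absurd ⟨h'.2.1, h1⟩ (h.2.2 j' h'.1.symm)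

theorem simple_left_unique {i i' j : C.I} (h : C.Simple i j) (h' : C.Simple i' j) : i = i' := by
  rcases lt_trichotomy i i' with h1 | h1 | h1
  · exact absurd ⟨h1, h'.2.1⟩ (h.2.2 i' (h'.1.trans h.1.symm))
  · exact h1
  · exact absurd ⟨h1, h.2.1⟩ (h'.2.2 i (h.1.trans h'.1.symm))

theorem refla_ne {i j : C.I} (h : j ≠ i.rev) : i ≠ j.rev := fun e => h (by rw [e, Fin.rev_rev])

theorem sw_left {i j : C.I} (h : i ≠ j) : C.sw i j i = j := by
  unfold sw
  split_ifs with h1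
  · exact Equiv.swap_apply_left _ _
  · rw [Equiv.Perm.mul_apply, Equiv.swap_apply_of_ne_of_ne (refla_ne h1) (C.rev_ne i).symm,
      Equiv.swap_apply_left]

theorem sw_right {i j : C.I} (h : i ≠ j) : C.sw i j j = i := by
  unfold sw
  split_ifs with h1
  · exact Equiv.swap_apply_right _ _
  · rw [Equiv.Perm.mul_apply, Equiv.swap_apply_of_ne_of_ne (C.rev_ne j).symm h1,
      Equiv.swap_apply_right]

theorem sw_rev_left {i j : C.I} (h : i ≠ j) : C.sw i j i.rev = j.rev := by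
  unfold sw
  split_ifs with h1
  · rw [← h1, Equiv.swap_apply_right, h1, Fin.rev_rev]
  · rw [Equiv.Perm.mul_apply, Equiv.swap_apply_right,
      Equiv.swap_apply_of_ne_of_ne (refla_ne h1).symm (C.rev_ne j)]

theorem sw_rev_right {i j : C.I} (h : i ≠ j) : C.sw i j j.rev = i.rev := by
  unfold sw
  split_ifs with h1
  · rw [h1, Fin.rev_rev, Equiv.swap_apply_left]
  · rw [Equiv.Perm.mul_apply, Equiv.swap_apply_left,
      Equiv.swap_apply_of_ne_of_ne (C.rev_ne i) (Ne.symm h1)]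

theorem sw_other {i j a : C.I} (h1 : a ≠ i) (h2 : a ≠ j) (h3 : a ≠ i.rev) (h4 : a ≠ j.rev) :
    C.sw i j a = a := by
  unfold sw
  split_ifs with h5
  · exact Equiv.swap_apply_of_ne_of_ne h1 h2
  · rw [Equiv.Perm.mul_apply, Equiv.swap_apply_of_ne_of_ne h4 h3,
      Equiv.swap_apply_of_ne_of_ne h1 h2]

theorem refla_cases (i j a : C.I) :
    a = i ∨ a = j ∨ a = i.rev ∨ a = j.rev ∨ (a ≠ i ∧ a ≠ j ∧ a ≠ i.rev ∧ a ≠ j.rev) := by
  tauto

theorem sw_sw {i j : C.I} (h : i ≠ j) (a : C.I) : C.sw i j (C.sw i j a) = a := by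
  rcases refla_cases i j a with rfl | rfl | rfl | rfl | ⟨h1, h2, h3, h4⟩
  · rw [sw_left h, sw_right h]
  · rw [sw_right h, sw_left h]
  · rw [sw_rev_left h, sw_rev_right h]
  · rw [sw_rev_right h, sw_rev_left h]
  · rw [sw_other h1 h2 h3 h4, sw_other h1 h2 h3 h4]

theorem sw_isW {i j : C.I} (h : i ≠ j) (hb : C.blk i = C.blk j) : C.IsW (C.sw i j) := by
  refine ⟨fun a => ?_, fun a => ?_⟩
  · rcases refla_cases i j a with rfl | rfl | rfl | rfl | ⟨h1, h2, h3, h4⟩
    · rw [sw_left h, hb]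
    · rw [sw_right h, hb]
    · rw [sw_rev_left h, C.blk_rev _ _ hb]
    · rw [sw_rev_right h, C.blk_rev _ _ hb]
    · rw [sw_other h1 h2 h3 h4]
  · rcases refla_cases i j a with rfl | rfl | rfl | rfl | ⟨h1, h2, h3, h4⟩
    · rw [sw_left h, sw_rev_left h]
    · rw [sw_right h, sw_rev_right h]
    · rw [Fin.rev_rev, sw_left h, sw_rev_left h, Fin.rev_rev]
    · rw [Fin.rev_rev, sw_right h, sw_rev_right h, Fin.rev_rev]
    · rw [sw_other h1 h2 h3 h4, sw_other (refla_ne h3).symm (refla_ne h4).symm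
        (Fin.rev_injective.ne h1) (Fin.rev_injective.ne h2)]

theorem sw_mirror {i j : C.I} (h : i ≠ j) : C.sw j.rev i.rev = C.sw i j := by
  have h' : j.rev ≠ i.rev := Fin.rev_injective.ne h.symm
  have e1 := sw_rev_left (C := C) h'
  have e2 := sw_rev_right (C := C) h'
  rw [Fin.rev_rev, Fin.rev_rev] at e1 e2
  ext1 a
  rcases refla_cases i j a with rfl | rfl | rfl | rfl | ⟨h1, h2, h3, h4⟩
  · rw [e2, sw_left h]
  · rw [e1, sw_right h]
  · rw [sw_right h', sw_rev_left h]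
  · rw [sw_left h', sw_rev_right h]
  · rw [sw_other h1 h2 h3 h4, sw_other h4 h3 (by rwa [Fin.rev_rev]) (by rwa [Fin.rev_rev])]

theorem refla_swap_blk {i j : C.I} (h : C.blk i = C.blk j) (a : C.I) :
    C.blk (Equiv.swap i j a) = C.blk a := by
  rw [Equiv.swap_apply_def]
  split_ifs with h1 h2
  · rw [h1, h]
  · rw [h2, h]
  · rfl

theorem refla_swap_lt {i j a b : C.I} (hs : C.Simple i j) (hb : C.blk a = C.blk b) (h : a < b)
    (h1 : (a, b) ≠ (i, j)) : Equiv.swap i j a < Equiv.swap i j b := by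
  obtain ⟨e, hij, hm⟩ := hs
  by_cases a1 : a = i
  · subst a1
    have b1 : b ≠ j := fun e => h1 (by rw [e])
    rw [Equiv.swap_apply_left, Equiv.swap_apply_of_ne_of_ne h.ne' b1]
    exact lt_of_le_of_ne (not_lt.1 fun h2 => hm b hb.symm ⟨h, h2⟩) b1.symm
  by_cases a2 : a = j
  · subst a2
    rw [Equiv.swap_apply_right, Equiv.swap_apply_of_ne_of_ne (hij.trans h).ne' h.ne']
    exact hij.trans h
  rw [Equiv.swap_apply_of_ne_of_ne a1 a2]
  by_cases b1 : b = i
  · subst b1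
    rw [Equiv.swap_apply_left]
    exact h.trans hij
  by_cases b2 : b = j
  · subst b2
    rw [Equiv.swap_apply_right]
    exact lt_of_le_of_ne (not_lt.1 fun h2 => hm a (hb.trans e.symm) ⟨h2, h⟩) a1
  rwa [Equiv.swap_apply_of_ne_of_ne b1 b2]

/-- a simple reflection reverses the order of exactly one pair, up to mirror image -/
theorem sw_lt (s : C.Sp) {a b : C.I} (hb : C.blk a = C.blk b) (h : a < b)
    (h1 : (a, b) ≠ (s.i, s.j)) (h2 : (a, b) ≠ (s.j.rev, s.i.rev)) :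
    C.sw s.i s.j a < C.sw s.i s.j b := by
  unfold sw
  split_ifs with h3
  · exact refla_swap_lt s.h hb h h1
  · have h4 := simple_rev s.h
    refine refla_swap_lt s.h ?_ (refla_swap_lt h4 hb h h2) fun e => h1 ?_
    · rw [refla_swap_blk h4.1, refla_swap_blk h4.1, hb]
    · obtain ⟨e1, e2⟩ := Prod.ext_iff.1 e
      rw [Equiv.swap_apply_eq_iff] at e1 e2
      rw [e1, e2, Equiv.swap_apply_of_ne_of_ne (refla_ne h3) (C.rev_ne _).symm,
        Equiv.swap_apply_of_ne_of_ne (C.rev_ne _).symm h3]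

theorem cv_rev {i j : C.I} (h : i ≠ j) (a : C.I) : C.cv i j a.rev = - C.cv i j a := by
  have e1 : a.rev = i ∨ a.rev = j.rev ↔ a = j ∨ a = i.rev := by
    rw [Fin.rev_eq_iff, Fin.rev_inj, or_comm]
  have e2 : a.rev = j ∨ a.rev = i.rev ↔ a = i ∨ a = j.rev := by
    rw [Fin.rev_eq_iff, Fin.rev_inj, or_comm]
  have e3 : ¬ ((a = i ∨ a = j.rev) ∧ (a = j ∨ a = i.rev)) := by
    rintro ⟨rfl | rfl, h1 | h1⟩
    · exact h h1
    · exact C.rev_ne _ h1.symm
    · exact C.rev_ne _ h1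
    · exact h (Fin.rev_injective h1).symm
  unfold cv
  simp only [e1, e2]
  split_ifs with h1 h2
  · exact absurd ⟨h2, h1⟩ e3
  all_goals rfl

theorem IsW.one : C.IsW 1 := ⟨fun _ => rfl, fun _ => rfl⟩

theorem IsW.mul {π π' : Equiv.Perm C.I} (h : C.IsW π) (h' : C.IsW π') : C.IsW (π * π') := by
  refine ⟨fun a => ?_, fun a => ?_⟩
  · rw [Equiv.Perm.mul_apply, h.1, h'.1]
  · rw [Equiv.Perm.mul_apply, Equiv.Perm.mul_apply, h'.2, h.2]

theorem IsW.inv {π : Equiv.Perm C.I} (h : C.IsW π) : C.IsW π⁻¹ := by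
  refine ⟨fun a => ?_, fun a => π.injective ?_⟩
  · rw [← h.1, Equiv.Perm.coe_inv, Equiv.apply_symm_apply]
  · rw [h.2, Equiv.Perm.coe_inv, Equiv.apply_symm_apply, Equiv.apply_symm_apply]

/-- the shape of the parabolic subgroup attached to a family -/
def Arr.rel (A : C.Arr) : C.Rel where
  r a b := b ≤ a ∨ A.A a b
  refl _ := Or.inl le_rfl
  trans := by
    rintro a b c hab hbc (h1 | h1) (h2 | h2)
    · exact Or.inl (h2.trans h1)
    · rcases h1.eq_or_lt with rfl | h3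
      · exact Or.inr h2
      · exact Or.inl (not_lt.1 fun h4 => (A.simple _ _ h2).2.2 a hab ⟨h3, h4⟩)
    · rcases h2.eq_or_lt with rfl | h3
      · exact Or.inr h1
      · exact Or.inl (not_lt.1 fun h4 => (A.simple _ _ h1).2.2 c (hab.trans hbc).symm ⟨h4, h3⟩)
    · exact absurd h2 (A.nochain _ _ _ h1)
  mir a b h := h.elim (fun h => Or.inl (Fin.rev_le_rev.2 h)) fun h => Or.inr (A.mir a b h)

/-- a single simple root -/
def Sp.arr (s : C.Sp) : C.Arr where
  A a b := (a, b) = (s.i, s.j) ∨ (a, b) = (s.j.rev, s.i.rev)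
  simple := by
    rintro a b (h | h) <;> obtain ⟨rfl, rfl⟩ := Prod.ext_iff.1 h
    · exact s.h
    · exact simple_rev s.h
  mir := by
    rintro a b (h | h) <;> obtain ⟨rfl, rfl⟩ := Prod.ext_iff.1 h
    · exact Or.inr rfl
    · exact Or.inl (by rw [Fin.rev_rev, Fin.rev_rev])
  nochain := by
    rintro a b c (h | h) (h' | h') <;>
      have e := (Prod.ext_iff.1 h).2.symm.trans (Prod.ext_iff.1 h').1
    · exact s.h.2.1.ne' e
    · exact C.rev_ne _ e.symm
    · exact C.rev_ne _ e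
    · exact s.h.2.1.ne (Fin.rev_injective e)

theorem Sp.ne (s : C.Sp) : s.i ≠ s.j := s.h.2.1.ne

theorem Sp.ne_rev (s : C.Sp) : s.j ≠ s.i.rev := C.ne_rev s.h.1.symm

variable (C) in
abbrev PA (A : C.Arr) (S : Type) [CommRing S] := C.Pat A.rel S

variable (C) in
abbrev Ps (s : C.Sp) (S : Type) [CommRing S] := C.PA s.arr S

variable {S S' : Type} [CommRing S] [CommRing S']

theorem B_le_PA {A : C.Arr} : C.B S ≤ C.PA A S := Pat.mono fun _ _ _ h => Or.inl h

theorem PA_mono {A A' : C.Arr} (h : ∀ a b, A.A a b → A'.A a b) : C.PA A S ≤ C.PA A' S :=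
  Pat.mono fun a b _ h1 => h1.imp id (h a b)

theorem PA.mem_B {A : C.Arr} {x : GL C.I S} (hx : x ∈ C.PA A S)
    (h : ∀ a b, A.A a b → x.val a b = 0) : x ∈ C.B S :=
  ⟨hx.1, fun a b hab => by
    by_cases h1 : A.A a b
    · exact h a b h1
    · exact hx.2 a b fun h2 => h2.elim hab h1⟩

/-- the `2 × 2` blocks are multiplicative -/
theorem PA.mul_ent {A : C.Arr} {x y : GL C.I S} (hx : x ∈ C.PA A S) (hy : y ∈ C.PA A S)
    {i j a b : C.I} (hij : A.A i j) (ha : a = i ∨ a = j) (hb : b = i ∨ b = j) :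
    (x * y).val a b = x.val a i * y.val i b + x.val a j * y.val j b := by
  have hs := A.simple i j hij
  have lt := hs.2.1
  rw [Units.val_mul, Matrix.mul_apply]
  refine Fintype.sum_eq_add i j lt.ne fun c hc => ?_
  have a1 : a ≤ j := by rcases ha with rfl | rfl; exacts [lt.le, le_rfl]
  have b1 : i ≤ b := by rcases hb with rfl | rfl; exacts [le_rfl, lt.le]
  have a2 : C.blk a = C.blk i := by rcases ha with rfl | rfl; exacts [rfl, hs.1.symm]
  by_cases h1 : C.blk a = C.blk c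
  · by_cases h2 : j < c
    · rw [hx.2 a c, zero_mul]
      rintro (h3 | h3)
      · exact absurd (a1.trans_lt h2) (not_lt.2 h3)
      · rcases ha with rfl | rfl
        · exact hc.2 (simple_right_unique (A.simple _ _ h3) hs)
        · exact A.nochain _ _ _ hij h3
    · have h4 : c < i := by
        by_contra h5
        exact hs.2.2 c (h1.symm.trans a2)
          ⟨lt_of_le_of_ne (not_lt.1 h5) hc.1.symm, lt_of_le_of_ne (not_lt.1 h2) hc.2⟩
      rw [hy.2 c b, mul_zero]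
      rintro (h3 | h3)
      · exact absurd (h4.trans_le b1) (not_lt.2 h3)
      · rcases hb with rfl | rfl
        · exact A.nochain _ _ _ h3 hij
        · exact hc.1 (simple_left_unique (A.simple _ _ h3) hs)
  · rw [Pat.blk hx h1, zero_mul]

theorem PA.mul_other {A : C.Arr} {x y : GL C.I S} (hx : x ∈ C.PA A S) (hy : y ∈ C.PA A S)
    {a : C.I} (ha : ∀ b, ¬ A.A a b ∧ ¬ A.A b a) : (x * y).val a a = x.val a a * y.val a a :=
  Pat.mul_diag hx hy fun b _ h1 h2 =>
    le_antisymm (h2.resolve_right (ha b).2) (h1.resolve_right (ha b).1)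

theorem PA.det_unit {A : C.Arr} {x : GL C.I S} (hx : x ∈ C.PA A S) {i j : C.I} (hij : A.A i j) :
    IsUnit (x.val i i * x.val j j - x.val i j * x.val j i) := by
  have ne := (A.simple i j hij).2.1.ne
  have h1 := PA.mul_ent hx (inv_mem hx) hij (Or.inl rfl) (Or.inl rfl)
  have h2 := PA.mul_ent hx (inv_mem hx) hij (Or.inl rfl) (Or.inr rfl)
  have h3 := PA.mul_ent hx (inv_mem hx) hij (Or.inr rfl) (Or.inl rfl)
  have h4 := PA.mul_ent hx (inv_mem hx) hij (Or.inr rfl) (Or.inr rfl)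
  rw [mul_inv_cancel, Units.val_one] at h1 h2 h3 h4
  rw [Matrix.one_apply_eq] at h1 h4
  rw [Matrix.one_apply_ne ne] at h2
  rw [Matrix.one_apply_ne ne.symm] at h3
  refine IsUnit.of_mul_eq_one (x⁻¹.val i i * x⁻¹.val j j - x⁻¹.val i j * x⁻¹.val j i) ?_
  linear_combination (-(x.val j i * x⁻¹.val i j + x.val j j * x⁻¹.val j j)) * h1 - h4 +
    (x.val j i * x⁻¹.val i i + x.val j j * x⁻¹.val j i) * h2

theorem reflb_inv_zero {A : C.Arr} {x : GL C.I S} (hx : x ∈ C.PA A S) {i j : C.I}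
    (hij : A.A i j) (h : x.val i j = 0) : x⁻¹.val i j = 0 := by
  have h2 := PA.mul_ent hx (inv_mem hx) hij (Or.inl rfl) (Or.inr rfl)
  rw [mul_inv_cancel, Units.val_one, Matrix.one_apply_ne (A.simple i j hij).2.1.ne, h, zero_mul,
    add_zero] at h2
  have h1 := PA.det_unit hx hij
  rw [h, zero_mul, sub_zero] at h1
  exact (isUnit_of_mul_isUnit_left h1).mul_right_eq_zero.1 h2.symm

/-- the mirror entry vanishes together with the entry -/
theorem PA.mirror_zero {A : C.Arr} {x : GL C.I S} (hx : x ∈ C.PA A S) {i j : C.I} (hij : A.A i j)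
    (h : x.val i j = 0) : x.val j.rev i.rev = 0 := by
  have h1 := congrFun (congrFun (Datum.InG.adj_eq hx.1) i) j
  rw [adj_apply, Matrix.smul_apply, reflb_inv_zero hx hij h, smul_zero] at h1
  have e1 := C.sg_mul_self (S := S) i
  have e2 := C.sg_mul_self (S := S) j
  linear_combination (C.sg S i * C.sg S j) * h1 -
    (C.sg S j * C.sg S j * x.val j.rev i.rev) * e1 - x.val j.rev i.rev * e2

theorem PA.inv_zero {A : C.Arr} {x : GL C.I S} (hx : x ∈ C.PA A S) {i j : C.I} (hij : A.A i j)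
    (h : x.val i j = 0) : x⁻¹.val i j = 0 :=
  reflb_inv_zero hx hij h

theorem Ps.mem_B {s : C.Sp} {x : GL C.I S} (hx : x ∈ C.Ps s S) (h : x.val s.i s.j = 0) :
    x ∈ C.B S :=
  PA.mem_B hx fun a b hab => by
    rcases hab with e | e <;> obtain ⟨rfl, rfl⟩ := Prod.mk.inj e
    · exact h
    · exact PA.mirror_zero hx (Or.inl rfl) h

variable (C) in
/-- the homomorphism `SL₂ → G` of a simple root on matrices -/
def embM (s : C.Sp) (a b c d : S) : Matrix C.I C.I S :=
  Matrix.of fun m n =>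
    if (m, n) = (s.i, s.i) ∨ (m, n) = (s.j.rev, s.j.rev) then a
    else if (m, n) = (s.j, s.j) ∨ (m, n) = (s.i.rev, s.i.rev) then d
    else if (m, n) = (s.i, s.j) then b
    else if (m, n) = (s.j, s.i) then c
    else if (m, n) = (s.j.rev, s.i.rev) then - (C.sg S s.i * C.sg S s.j) * b
    else if (m, n) = (s.i.rev, s.j.rev) then - (C.sg S s.i * C.sg S s.j) * c
    else if m = n then 1 else 0

theorem reflb_row_i (s : C.Sp) (a b c d : S) (n : C.I) :
    C.embM s a b c d s.i n = if n = s.i then a else if n = s.j then b else 0 := by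
  have h1 := s.ne
  have h2 := (C.rev_ne s.i).symm
  simp only [embM, Matrix.of_apply, Prod.mk.injEq, h1, h2, true_and, false_and, or_self, if_false]
  by_cases e1 : n = s.i
  · rw [if_pos (Or.inl e1), if_pos e1]
  · rw [if_neg (fun h => h.elim e1 fun h => e1 (h.2.trans h.1.symm)), if_neg e1]
    by_cases e2 : n = s.j
    · rw [if_pos e2, if_pos e2]
    · rw [if_neg e2, if_neg e2, if_neg (fun h => e2 (by rw [h.2, h.1, Fin.rev_rev])),
        if_neg (Ne.symm e1)]

theorem reflb_row_j (s : C.Sp) (a b c d : S) (n : C.I) :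
    C.embM s a b c d s.j n = if n = s.i then c else if n = s.j then d else 0 := by
  have h1 := s.ne.symm
  have h2 := (C.rev_ne s.j).symm
  simp only [embM, Matrix.of_apply, Prod.mk.injEq, h1, h2, true_and, false_and, or_self, if_false]
  by_cases e2 : n = s.j
  · rw [if_pos (Or.inl e2), if_neg (fun h => h1 (e2.symm.trans h)), if_pos e2]
  · rw [if_neg (fun h => h.elim e2 fun h => e2 (h.2.trans h.1.symm))]
    by_cases e1 : n = s.i
    · rw [if_pos e1, if_pos e1]
    · rw [if_neg e1, if_neg e1, if_neg (fun h => e1 (by rw [h.2, h.1, Fin.rev_rev])),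
        if_neg (Ne.symm e2), if_neg e2]

theorem reflb_row_jr (s : C.Sp) (h : s.j ≠ s.i.rev) (a b c d : S) (n : C.I) :
    C.embM s a b c d s.j.rev n = if n = s.j.rev then a else
      if n = s.i.rev then - (C.sg S s.i * C.sg S s.j) * b else 0 := by
  have h1 : s.j.rev ≠ s.i.rev := fun e => s.ne (Fin.rev_injective e).symm
  have h2 := C.rev_ne s.j
  have h3 : s.j.rev ≠ s.i := fun e => h (by rw [← e, Fin.rev_rev])
  simp only [embM, Matrix.of_apply, Prod.mk.injEq, h1, h2, h3, true_and, false_and, or_self,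
    if_false, false_or]
  by_cases e1 : n = s.j.rev
  · rw [if_pos e1, if_pos e1]
  · rw [if_neg e1, if_neg e1, if_neg (Ne.symm e1)]

theorem reflb_row_ir (s : C.Sp) (h : s.j ≠ s.i.rev) (a b c d : S) (n : C.I) :
    C.embM s a b c d s.i.rev n = if n = s.j.rev then - (C.sg S s.i * C.sg S s.j) * c else
      if n = s.i.rev then d else 0 := by
  have h1 : s.i.rev ≠ s.j.rev := fun e => s.ne (Fin.rev_injective e)
  have h2 := C.rev_ne s.i
  have h3 := h.symm
  simp only [embM, Matrix.of_apply, Prod.mk.injEq, h1, h2, h3, true_and, false_and, or_self,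
    if_false, false_or]
  by_cases e1 : n = s.i.rev
  · rw [if_pos e1, if_neg (fun e => h1 (e1.symm.trans e)), if_pos e1]
  · rw [if_neg e1, if_neg e1, if_neg (Ne.symm e1)]

theorem reflb_row_o (s : C.Sp) (a b c d : S) {m : C.I} (h1 : m ≠ s.i) (h2 : m ≠ s.j)
    (h3 : m ≠ s.i.rev) (h4 : m ≠ s.j.rev) (n : C.I) :
    C.embM s a b c d m n = if m = n then 1 else 0 := by
  simp only [embM, Matrix.of_apply, Prod.mk.injEq, h1, h2, h3, h4, false_and, or_self, if_false]

theorem reflb_col_o (s : C.Sp) (a b c d : S) {n : C.I} (h1 : n ≠ s.i) (h2 : n ≠ s.j)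
    (h3 : n ≠ s.i.rev) (h4 : n ≠ s.j.rev) (m : C.I) :
    C.embM s a b c d m n = if m = n then 1 else 0 := by
  simp only [embM, Matrix.of_apply, Prod.mk.injEq, h1, h2, h3, h4, and_false, or_self, if_false]

theorem reflb_cases (s : C.Sp) (m : C.I) :
    m = s.i ∨ m = s.j ∨ (s.j ≠ s.i.rev ∧ m = s.j.rev) ∨ (s.j ≠ s.i.rev ∧ m = s.i.rev) ∨
      (m ≠ s.i ∧ m ≠ s.j ∧ m ≠ s.i.rev ∧ m ≠ s.j.rev) := by
  by_cases h1 : m = s.i
  · exact Or.inl h1
  by_cases h2 : m = s.j
  · exact Or.inr (Or.inl h2)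
  by_cases h4 : m = s.j.rev
  · exact Or.inr (Or.inr (Or.inl ⟨fun e => h1 (by rw [h4, e, Fin.rev_rev]), h4⟩))
  by_cases h3 : m = s.i.rev
  · exact Or.inr (Or.inr (Or.inr (Or.inl ⟨fun e => h2 (h3.trans e.symm), h3⟩)))
  · exact Or.inr (Or.inr (Or.inr (Or.inr ⟨h1, h2, h3, h4⟩)))

theorem reflb_sum2 {u v : C.I} (huv : u ≠ v) {α β : S} {f : C.I → S}
    (hf : ∀ k, f k = if k = u then α else if k = v then β else 0) (g : C.I → S) :
    ∑ k, f k * g k = α * g u + β * g v := by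
  rw [Fintype.sum_eq_add u v huv fun k hk => by rw [hf, if_neg hk.1, if_neg hk.2, zero_mul],
    hf u, hf v, if_pos rfl, if_neg huv.symm, if_pos rfl]

theorem embM_mul (s : C.Sp) (a b c d a' b' c' d' : S) :
    C.embM s a b c d * C.embM s a' b' c' d' =
      C.embM s (a * a' + b * c') (a * b' + b * d') (c * a' + d * c') (c * b' + d * d') := by
  ext m n
  have e1 := C.sg_mul_self (S := S) s.i
  have e2 := C.sg_mul_self (S := S) s.j
  have hr : s.j.rev ≠ s.i.rev := fun e => s.ne (Fin.rev_injective e).symm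
  rw [Matrix.mul_apply]
  rcases reflb_cases s m with rfl | rfl | ⟨h, rfl⟩ | ⟨h, rfl⟩ | ⟨h1, h2, h3, h4⟩
  · rw [reflb_sum2 s.ne (reflb_row_i s a b c d), reflb_row_i, reflb_row_j, reflb_row_i]
    split_ifs <;> ring
  · rw [reflb_sum2 s.ne (reflb_row_j s a b c d), reflb_row_i, reflb_row_j, reflb_row_j]
    split_ifs <;> ring
  · rw [reflb_sum2 hr (reflb_row_jr s h a b c d), reflb_row_jr s h, reflb_row_ir s h,
      reflb_row_jr s h]
    split_ifs
    · linear_combination (C.sg S s.j * C.sg S s.j * b * c') * e1 + (b * c') * e2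
    · ring
    · ring
  · rw [reflb_sum2 hr (reflb_row_ir s h a b c d), reflb_row_jr s h, reflb_row_ir s h,
      reflb_row_ir s h]
    split_ifs
    · ring
    · linear_combination (C.sg S s.j * C.sg S s.j * c * b') * e1 + (c * b') * e2
    · ring
  · rw [Fintype.sum_eq_single m fun k hk => by
      rw [reflb_row_o s a b c d h1 h2 h3 h4, if_neg hk.symm, zero_mul],
      reflb_row_o s a b c d h1 h2 h3 h4, if_pos rfl, one_mul, reflb_row_o _ _ _ _ _ h1 h2 h3 h4,
      reflb_row_o _ _ _ _ _ h1 h2 h3 h4]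

theorem embM_one (s : C.Sp) : C.embM s (1 : S) 0 0 1 = 1 := by
  ext m n
  rw [Matrix.one_apply]
  rcases reflb_cases s m with rfl | rfl | ⟨h, rfl⟩ | ⟨h, rfl⟩ | ⟨h1, h2, h3, h4⟩
  · rw [reflb_row_i, ite_self]
    exact if_congr eq_comm rfl rfl
  · rw [reflb_row_j]
    by_cases e : n = s.i
    · rw [if_pos e, if_neg fun e' => s.ne (e'.trans e).symm]
    · rw [if_neg e]
      exact if_congr eq_comm rfl rfl
  · rw [reflb_row_jr s h, mul_zero, ite_self]
    exact if_congr eq_comm rfl rfl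
  · rw [reflb_row_ir s h, mul_zero]
    by_cases e : n = s.j.rev
    · rw [if_pos e, if_neg fun e' => s.ne (Fin.rev_injective (e'.trans e))]
    · rw [if_neg e]
      exact if_congr eq_comm rfl rfl
  · exact reflb_row_o _ _ _ _ _ h1 h2 h3 h4 _

theorem embM_map (f : S →+* S') (s : C.Sp) (a b c d : S) :
    (C.embM s a b c d).map f = C.embM s (f a) (f b) (f c) (f d) := by
  ext m n
  simp only [embM, Matrix.map_apply, Matrix.of_apply, apply_ite f, map_mul, map_neg, map_sg,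
    map_one, map_zero]

theorem embM_adj (s : C.Sp) (a b c d : S) :
    C.adj (C.embM s a b c d) = C.embM s d (-b) (-c) a := by
  ext m n
  have one : ∀ m n : C.I, (C.sg S m * C.sg S n * if n.rev = m.rev then 1 else 0) =
      if m = n then 1 else 0 := fun m n => by
    by_cases e : m = n
    · rw [e, if_pos rfl, if_pos rfl, mul_one, sg_mul_self]
    · rw [if_neg e, if_neg fun e' => e (Fin.rev_injective e').symm, mul_zero]
  have oth : ∀ m : C.I, m ≠ s.i ∧ m ≠ s.j ∧ m ≠ s.i.rev ∧ m ≠ s.j.rev →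
      m.rev ≠ s.i ∧ m.rev ≠ s.j ∧ m.rev ≠ s.i.rev ∧ m.rev ≠ s.j.rev := fun m h =>
    ⟨fun e => h.2.2.1 (by rw [← e, Fin.rev_rev]), fun e => h.2.2.2 (by rw [← e, Fin.rev_rev]),
      fun e => h.1 (Fin.rev_injective e), fun e => h.2.1 (Fin.rev_injective e)⟩
  rw [adj_apply]
  by_cases hm : m ≠ s.i ∧ m ≠ s.j ∧ m ≠ s.i.rev ∧ m ≠ s.j.rev
  · obtain ⟨h1, h2, h3, h4⟩ := oth m hm
    rw [reflb_col_o _ _ _ _ _ h1 h2 h3 h4, reflb_row_o _ _ _ _ _ hm.1 hm.2.1 hm.2.2.1 hm.2.2.2, one]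
  by_cases hn : n ≠ s.i ∧ n ≠ s.j ∧ n ≠ s.i.rev ∧ n ≠ s.j.rev
  · obtain ⟨h1, h2, h3, h4⟩ := oth n hn
    rw [reflb_row_o _ _ _ _ _ h1 h2 h3 h4, reflb_col_o _ _ _ _ _ hn.1 hn.2.1 hn.2.2.1 hn.2.2.2, one]
  have e1 := C.sg_mul_self (S := S) s.i
  have e2 := C.sg_mul_self (S := S) s.j
  have n1 := s.ne
  have n2 := s.ne.symm
  by_cases h : s.j = s.i.rev
  · exact absurd h (C.ne_rev s.h.1.symm)
  · have n3 := C.rev_ne s.i
    have n4 := C.rev_ne s.j
    have n5 : s.j.rev ≠ s.i := fun e => h (by rw [← e, Fin.rev_rev])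
    have e3 : ∀ t : S, C.sg S s.i * C.sg S s.j * (C.sg S s.i * C.sg S s.j * t) = t := fun t => by
      linear_combination (C.sg S s.j * C.sg S s.j * t) * e1 + t * e2
    have e4 : C.sg S s.j * C.sg S s.i = C.sg S s.i * C.sg S s.j := mul_comm _ _
    rcases reflb_cases s m with rfl | rfl | ⟨-, rfl⟩ | ⟨-, rfl⟩ | h1 <;>
    rcases reflb_cases s n with rfl | rfl | ⟨-, rfl⟩ | ⟨-, rfl⟩ | h2 <;>
    first
    | contradiction
    | simp only [Fin.rev_rev, Fin.rev_inj, reflb_row_i, reflb_row_j, reflb_row_ir s h,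
        reflb_row_jr s h, n1, n2, n3, n4, n5, n3.symm, n4.symm, n5.symm, h, Ne.symm h, e1, e2, e3,
        e4, sg_eq, if_true, if_false, one_mul, mul_one, neg_mul, mul_neg, neg_neg, mul_zero]

variable (C) in
def emb (s : C.Sp) (a b c d : S) (h : a * d - b * c = 1) : GL C.I S :=
  ⟨C.embM s a b c d, C.embM s d (-b) (-c) a,
    by rw [embM_mul, ← embM_one s]; congr 1 <;> first | ring1 | linear_combination h,
    by rw [embM_mul, ← embM_one s]; congr 1 <;> first | ring1 | linear_combination h⟩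

@[simp] theorem emb_val (s : C.Sp) (a b c d : S) (h : a * d - b * c = 1) :
    (C.emb s a b c d h).val = C.embM s a b c d := rfl

theorem reflb_supp (s : C.Sp) (a b c d : S) {m n : C.I} (h0 : m ≠ n) (h1 : (m, n) ≠ (s.i, s.j))
    (h2 : (m, n) ≠ (s.j, s.i)) (h3 : (m, n) ≠ (s.j.rev, s.i.rev))
    (h4 : (m, n) ≠ (s.i.rev, s.j.rev)) : C.embM s a b c d m n = 0 := by
  have dg : ∀ u : C.I, (m, n) ≠ (u, u) := fun u e =>
    h0 ((Prod.mk.inj e).1.trans (Prod.mk.inj e).2.symm)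
  simp only [embM, Matrix.of_apply, dg, h0, h1, h2, h3, h4, or_self, if_false]

theorem reflb_adj_mul (s : C.Sp) {a b c d : S} (h : a * d - b * c = 1) :
    C.adj (C.embM s a b c d) * C.embM s a b c d = 1 := by
  rw [embM_adj, embM_mul, ← embM_one s]
  congr 1 <;> first | ring1 | linear_combination h

theorem emb_mem (s : C.Sp) (a b c d : S) (h : a * d - b * c = 1) :
    C.emb s a b c d h ∈ C.Ps s S := by
  have hb := s.h.1
  have lt := s.h.2.1
  refine ⟨(C.inG_iff _).2 ⟨fun m n hmn => reflb_supp s a b c d ?_ ?_ ?_ ?_ ?_, 1, isUnit_one, ?_⟩,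
    fun m n hmn => reflb_supp s a b c d ?_ ?_ ?_ ?_ ?_⟩
  · exact fun e => hmn (by rw [e])
  · exact fun e => hmn (by obtain ⟨rfl, rfl⟩ := Prod.mk.inj e; exact hb)
  · exact fun e => hmn (by obtain ⟨rfl, rfl⟩ := Prod.mk.inj e; exact hb.symm)
  · exact fun e => hmn (by obtain ⟨rfl, rfl⟩ := Prod.mk.inj e; exact C.blk_rev _ _ hb.symm)
  · exact fun e => hmn (by obtain ⟨rfl, rfl⟩ := Prod.mk.inj e; exact C.blk_rev _ _ hb)
  · rw [emb_val, reflb_adj_mul s h, one_smul]
  · exact fun e => hmn (Or.inl e.ge)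
  · exact fun e => hmn (Or.inr (Or.inl e))
  · exact fun e => hmn (Or.inl (by obtain ⟨rfl, rfl⟩ := Prod.mk.inj e; exact lt.le))
  · exact fun e => hmn (Or.inr (Or.inr e))
  · exact fun e => hmn (Or.inl (by
      obtain ⟨rfl, rfl⟩ := Prod.mk.inj e; exact Fin.rev_le_rev.2 lt.le))

theorem emb_sim (s : C.Sp) (a b c d : S) (h : a * d - b * c = 1) :
    C.sim (C.emb s a b c d h) = 1 := by
  rw [sim, emb_val, reflb_adj_mul s h, Matrix.one_apply_eq]

theorem embM_ii (s : C.Sp) (a b c d : S) : C.embM s a b c d s.i s.i = a := by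
  rw [reflb_row_i, if_pos rfl]
theorem embM_ij (s : C.Sp) (a b c d : S) : C.embM s a b c d s.i s.j = b := by
  rw [reflb_row_i, if_neg s.ne.symm, if_pos rfl]
theorem embM_ji (s : C.Sp) (a b c d : S) : C.embM s a b c d s.j s.i = c := by
  rw [reflb_row_j, if_pos rfl]
theorem embM_jj (s : C.Sp) (a b c d : S) : C.embM s a b c d s.j s.j = d := by
  rw [reflb_row_j, if_neg s.ne.symm, if_pos rfl]
theorem embM_other (s : C.Sp) (a b c d : S) {m : C.I} (h1 : m ≠ s.i) (h2 : m ≠ s.j)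
    (h3 : m ≠ s.i.rev) (h4 : m ≠ s.j.rev) (n : C.I) :
    C.embM s a b c d m n = if m = n then 1 else 0 :=
  reflb_row_o s a b c d h1 h2 h3 h4 n

variable (C) in
/-- the two charts of `B \ P_s = ℙ¹`; first row `(1, t)` or `(t, 1)` -/
def X (s : C.Sp) (ε : Bool) (t : S) : GL C.I S :=
  if ε then C.emb s t 1 (-1) 0 (by ring) else C.emb s 1 t 0 1 (by ring)

/-- the coordinate whose vanishing defines the point `B` of `B \ P_s` -/
def Tv (ε : Bool) (t : S) : S := if ε then 1 else t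

variable (C) in
/-- root subgroup in `B` -/
def xm (s : C.Sp) (t : S) : GL C.I S := C.emb s 1 0 t 1 (by ring)

theorem X_mem (s : C.Sp) (ε : Bool) (t : S) : C.X s ε t ∈ C.Ps s S := by
  unfold X; split_ifs <;> exact emb_mem _ _ _ _ _ _

theorem X_sim (s : C.Sp) (ε : Bool) (t : S) : C.sim (C.X s ε t) = 1 := by
  unfold X; split_ifs <;> exact emb_sim _ _ _ _ _ _

theorem X_mp (f : S →+* S') (s : C.Sp) (ε : Bool) (t : S) :
    C.mp f (C.X s ε t) = C.X s ε (f t) := by
  cases ε <;> refine Units.ext ?_ <;> rw [mp_mat] <;> simp only [X, Bool.false_eq_true, ↓ reduceIte, emb_val, embM_map, map_one, map_zero, map_neg]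

theorem X_ij (s : C.Sp) (ε : Bool) (t : S) : (C.X s ε t).val s.i s.j = Tv ε t := by
  cases ε <;> simp [X, Tv, embM_ij]

theorem X_ii (s : C.Sp) (ε : Bool) (t : S) : (C.X s ε t).val s.i s.i = if ε then t else 1 := by
  cases ε <;> simp [X, embM_ii]

theorem X_false_zero (s : C.Sp) : C.X s false (0 : S) = 1 := by
  exact Units.ext (embM_one s)

theorem Tv_map (f : S →+* S') (ε : Bool) (t : S) : f (Tv ε t) = Tv ε (f t) := by
  unfold Tv; split_ifs <;> simp

theorem xm_mem (s : C.Sp) (t : S) : C.xm s t ∈ C.B S := by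
  exact Ps.mem_B (emb_mem s _ _ _ _ _) (embM_ij s _ _ _ _)

theorem xm_add (s : C.Sp) (t u : S) : C.xm s (t + u) = C.xm s t * C.xm s u := by
  refine Units.ext ?_
  simp only [xm, Units.val_mul, emb_val, embM_mul]
  congr 1 <;> ring

theorem xm_zero (s : C.Sp) : C.xm s (0 : S) = 1 := by
  exact Units.ext (embM_one s)

theorem xm_mp (f : S →+* S') (s : C.Sp) (t : S) : C.mp f (C.xm s t) = C.xm s (f t) := by
  refine Units.ext ?_
  rw [mp_mat]
  simp [xm, embM_map]

/-- the entry that has to be invertible on the chart `ε` -/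
def Sp.piv (s : C.Sp) (ε : Bool) (x : GL C.I S) : S := if ε then x.val s.i s.j else x.val s.i s.i

theorem reflc_row {s : C.Sp} {x y : GL C.I S} (hx : x ∈ C.Ps s S) (hy : y ∈ C.Ps s S) {b : C.I}
    (hb : b = s.i ∨ b = s.j) :
    (x * y).val s.i b = x.val s.i s.i * y.val s.i b + x.val s.i s.j * y.val s.j b :=
  PA.mul_ent hx hy (Or.inl rfl) (Or.inl rfl) hb

theorem reflc_rowB {s : C.Sp} {x y : GL C.I S} (hx : x ∈ C.B S) (hy : y ∈ C.Ps s S) {b : C.I}
    (hb : b = s.i ∨ b = s.j) : (x * y).val s.i b = x.val s.i s.i * y.val s.i b := by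
  rw [reflc_row (B_le_PA hx) hy hb, Pat.zero hx (not_le.2 s.h.2.1), zero_mul, add_zero]

theorem reflc_false {s : C.Sp} {x : GL C.I S} (hx : x ∈ C.Ps s S) {t : S}
    (h : x.val s.i s.j = x.val s.i s.i * t) : x * (C.X s false t)⁻¹ ∈ C.B S := by
  have hX := inv_mem (X_mem s false t)
  refine Ps.mem_B (mul_mem hx hX) ?_
  have e : (C.X s false t)⁻¹.val = C.embM s 1 (-t) (-0) 1 := rfl
  rw [reflc_row hx hX (Or.inr rfl), e, embM_ij, embM_jj, h]
  ring

theorem reflc_true {s : C.Sp} {x : GL C.I S} (hx : x ∈ C.Ps s S) {t : S}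
    (h : x.val s.i s.i = x.val s.i s.j * t) : x * (C.X s true t)⁻¹ ∈ C.B S := by
  have hX := inv_mem (X_mem s true t)
  refine Ps.mem_B (mul_mem hx hX) ?_
  have e : (C.X s true t)⁻¹.val = C.embM s 0 (-1) (- -1) t := rfl
  rw [reflc_row hx hX (Or.inr rfl), e, embM_ij, embM_jj, h]
  ring

theorem Ps.exists_chart {s : C.Sp} {x : GL C.I S} (hx : x ∈ C.Ps s S) (ε : Bool)
    (h : IsUnit (s.piv ε x)) : ∃ t, x * (C.X s ε t)⁻¹ ∈ C.B S := by
  obtain ⟨u, hu⟩ := h.exists_right_inv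
  cases ε
  · refine ⟨u * x.val s.i s.j, reflc_false hx ?_⟩
    rw [← mul_assoc, show x.val s.i s.i * u = 1 from hu, one_mul]
  · refine ⟨u * x.val s.i s.i, reflc_true hx ?_⟩
    rw [← mul_assoc, show x.val s.i s.j * u = 1 from hu, one_mul]

theorem Ps.piv_unit {s : C.Sp} {x : GL C.I S} {ε : Bool} {t : S}
    (h : x * (C.X s ε t)⁻¹ ∈ C.B S) : IsUnit (s.piv ε x) := by
  have h1 := reflc_rowB h (X_mem s ε t) (Or.inl rfl)
  have h2 := reflc_rowB h (X_mem s ε t) (Or.inr rfl)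
  rw [inv_mul_cancel_right, X_ii] at h1
  rw [inv_mul_cancel_right, X_ij] at h2
  have h3 := B.diag_unit h s.i
  cases ε
  · rw [if_neg Bool.false_ne_true, mul_one] at h1
    rw [← h1] at h3
    exact h3
  · rw [show Tv true t = 1 from rfl, mul_one] at h2
    rw [← h2] at h3
    exact h3

theorem X_uniq {s : C.Sp} {ε : Bool} {t t' : S} {β : GL C.I S} (hβ : β ∈ C.B S)
    (h : C.X s ε t = β * C.X s ε t') : t = t' ∧ β = 1 := by
  have h1 := reflc_rowB hβ (X_mem s ε t') (Or.inl rfl)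
  have h2 := reflc_rowB hβ (X_mem s ε t') (Or.inr rfl)
  rw [← h, X_ii, X_ii] at h1
  rw [← h, X_ij, X_ij] at h2
  have h3 : t = t' := by
    cases ε
    · simp only [Bool.false_eq_true, if_false, mul_one] at h1
      rwa [← h1, one_mul] at h2
    · simp only [Tv, if_true, mul_one] at h1 h2
      rwa [← h2, one_mul] at h1
  subst h3
  exact ⟨rfl, (mul_eq_right.1 h.symm)⟩

/-- Iwasawa decomposition in rank one -/
theorem Ps.exists_chart_val {F : Type} [Field F] (V : Subring F) (hV : ∀ x : F, x ∈ V ∨ x⁻¹ ∈ V)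
    {s : C.Sp} {x : GL C.I F} (hx : x ∈ C.Ps s F) :
    ∃ ε t, t ∈ V ∧ x * (C.X s ε t)⁻¹ ∈ C.B F := by
  have hd := (PA.det_unit hx (Or.inl rfl : s.arr.A s.i s.j)).ne_zero
  by_cases h0 : x.val s.i s.i = 0
  · exact ⟨true, 0, V.zero_mem, reflc_true hx (by rw [h0, mul_zero])⟩
  · by_cases h1 : x.val s.i s.j = 0
    · exact ⟨false, 0, V.zero_mem, reflc_false hx (by rw [h1, mul_zero])⟩
    · rcases hV (x.val s.i s.j / x.val s.i s.i) with h | h
      · exact ⟨false, _, h, reflc_false hx (mul_div_cancel₀ _ h0).symm⟩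
      · rw [inv_div] at h
        exact ⟨true, _, h, reflc_true hx (mul_div_cancel₀ _ h1).symm⟩

/-- Bruhat decomposition in rank one -/
theorem Ps.bruhat {s : C.Sp} {x : GL C.I S} (hx : x ∈ C.Ps s S) (h : IsUnit (x.val s.i s.j)) :
    ∃ c, (C.xm s c * C.X s true 0)⁻¹ * x ∈ C.B S := by
  obtain ⟨u, hu⟩ := h.exists_left_inv
  refine ⟨x.val s.j s.j * u, ?_⟩
  have hX := inv_mem (mul_mem (B_le_PA (xm_mem s (x.val s.j s.j * u))) (X_mem s true (0 : S)))
  refine Ps.mem_B (mul_mem hX hx) ?_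
  have e : (C.xm s (x.val s.j s.j * u) * C.X s true 0)⁻¹.val =
      C.embM s 0 (-1) (- -1) 0 * C.embM s 1 (-0) (-(x.val s.j s.j * u)) 1 := rfl
  rw [reflc_row hX hx (Or.inr rfl), e, embM_mul, embM_ii, embM_ij]
  linear_combination x.val s.j s.j * hu

theorem refld_det (s : C.Sp) (ε : Bool) (t : S) :
    (C.X s ε t).val s.i s.i * (C.X s ε t).val s.j s.j -
      (C.X s ε t).val s.i s.j * (C.X s ε t).val s.j s.i = 1 := by
  unfold X
  split_ifs <;> rw [emb_val, embM_ii, embM_ij, embM_ji, embM_jj] <;> ring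

theorem refld_other (s : C.Sp) (ε : Bool) (t : S) {a : C.I} (h1 : a ≠ s.i) (h2 : a ≠ s.j)
    (h3 : a ≠ s.i.rev) (h4 : a ≠ s.j.rev) : (C.X s ε t).val a a = 1 := by
  unfold X
  split_ifs <;> rw [emb_val, embM_other _ _ _ _ _ h1 h2 h3 h4, if_pos rfl]

/-- change of coordinates on `B \ P_s` -/
theorem exch {s : C.Sp} {ε ε' : Bool} {t t' : S} {β β' : GL C.I S} (hβ : β ∈ C.B S)
    (hβ' : β' ∈ C.B S) (h : C.X s ε t * β = β' * C.X s ε' t') :
    Tv ε' t' * β'.val s.i s.i = Tv ε t * β.val s.j s.j ∧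
      β'.val s.i s.i * β'.val s.j s.j = β.val s.i s.i * β.val s.j s.j ∧
      C.sim β' = C.sim β ∧
      ∀ a, a ≠ s.i → a ≠ s.j → a ≠ s.i.rev → a ≠ s.j.rev → β'.val a a = β.val a a := by
  have hX := X_mem s ε t
  have hX' := X_mem s ε' t'
  have hs : s.arr.A s.i s.j := Or.inl rfl
  have ent := fun (a b : C.I) (ha : a = s.i ∨ a = s.j) (hb : b = s.i ∨ b = s.j) =>
    (PA.mul_ent hX (B_le_PA hβ) hs ha hb).symm.trans
      ((congrArg (fun z : GL C.I S => z.val a b) h).trans (PA.mul_ent (B_le_PA hβ') hX' hs ha hb))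
  have h1 := ent _ _ (Or.inl rfl) (Or.inl rfl)
  have h2 := ent _ _ (Or.inl rfl) (Or.inr rfl)
  have h3 := ent _ _ (Or.inr rfl) (Or.inl rfl)
  have h4 := ent _ _ (Or.inr rfl) (Or.inr rfl)
  have z : β.val s.i s.j = 0 := Pat.zero hβ (not_le.2 s.h.2.1)
  have z' : β'.val s.i s.j = 0 := Pat.zero hβ' (not_le.2 s.h.2.1)
  have d := refld_det s ε t
  have d' := refld_det s ε' t'
  rw [z] at h2 h4
  rw [z'] at h1 h2
  refine ⟨?_, ?_, ?_, fun a a1 a2 a3 a4 => ?_⟩
  · rw [X_ij, X_ij] at h2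
    linear_combination -h2
  · generalize (C.X s ε t).val = x at *
    generalize (C.X s ε' t').val = y at *
    linear_combination (β.val s.i s.i * β.val s.j s.j) * d - (β'.val s.i s.i * β'.val s.j s.j) * d' -
      (x s.j s.j * β.val s.j s.j) * h1 - (β'.val s.i s.i * y s.i s.i) * h4 +
      (x s.j s.i * β.val s.i s.i + x s.j s.j * β.val s.j s.i) * h2 +
      (β'.val s.i s.i * y s.i s.j) * h3
  · have e := congrArg C.sim h
    rw [Datum.InG.sim_mul hX.1 hβ.1, Datum.InG.sim_mul hβ'.1 hX'.1, X_sim, X_sim, one_mul,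
      mul_one] at e
    exact e.symm
  · have ha : ∀ b, ¬ s.arr.A a b ∧ ¬ s.arr.A b a := fun b =>
      ⟨fun e => e.elim (fun e => a1 (Prod.mk.inj e).1) fun e => a4 (Prod.mk.inj e).1,
        fun e => e.elim (fun e => a2 (Prod.mk.inj e).2) fun e => a3 (Prod.mk.inj e).2⟩
    have e := congrArg (fun z : GL C.I S => z.val a a) h
    beta_reduce at e
    rw [PA.mul_other hX (B_le_PA hβ) ha, PA.mul_other (B_le_PA hβ') hX' ha,
      refld_other s _ _ a1 a2 a3 a4, refld_other s _ _ a1 a2 a3 a4, one_mul, mul_one] at e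
    exact e.symm

/-- the torus parts in terms of the unit `u = T' / T` -/
theorem exch_torus {s : C.Sp} {ε ε' : Bool} {t t' : S} {β β' : GL C.I S} (hβ : β ∈ C.B S)
    (hβ' : β' ∈ C.B S) (h : C.X s ε t * β = β' * C.X s ε' t') :
    ∃ u : Sˣ, Tv ε' t' = u * Tv ε t ∧ u * β'.val s.i s.i = β.val s.j s.j ∧
      ∀ a, β'.val a a * (u ^ C.cv s.i s.j a : Sˣ) =
        β.val (C.sw s.i s.j a) (C.sw s.i s.j a) := by
  obtain ⟨h1, h2, h3, h4⟩ := exch hβ hβ' h
  obtain ⟨v, hv⟩ := B.diag_unit hβ s.j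
  obtain ⟨w, hw⟩ := B.diag_unit hβ' s.i
  obtain ⟨u, hu⟩ : ∃ u : Sˣ, u * β'.val s.i s.i = β.val s.j s.j :=
    ⟨v * w⁻¹, by rw [← hv, ← hw, Units.val_mul, Units.inv_mul_cancel_right]⟩
  have c' := B.diag_unit hβ' s.i
  have c := B.diag_unit hβ s.i
  have e1 : β'.val s.j s.j = β.val s.i s.i * u := c'.mul_left_cancel (by
    linear_combination h2 - β.val s.i s.i * hu)
  have r1 := B.diag_rev hβ s.i
  have r2 := B.diag_rev hβ s.j
  have r3 := B.diag_rev hβ' s.i
  have r4 := B.diag_rev hβ' s.j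
  refine ⟨u, c'.mul_left_cancel (by linear_combination h1 - Tv ε t * hu), hu, fun a => ?_⟩
  by_cases a1 : a = s.i
  · rw [a1, sw_left s.ne, cv, if_pos (Or.inl rfl), zpow_one, mul_comm, hu]
  by_cases a2 : a = s.j
  · rw [a2, sw_right s.ne, cv, if_neg (not_or.2 ⟨s.ne.symm, (C.rev_ne _).symm⟩),
      if_pos (Or.inl rfl), _root_.zpow_neg_one, e1, Units.mul_inv_cancel_right]
  by_cases a4 : a = s.j.rev
  · rw [a4, sw_rev_right s.ne, cv, if_pos (Or.inr rfl), zpow_one]
    exact c.mul_left_cancel (by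
      linear_combination r4 + h3 - r1 - β'.val s.j.rev s.j.rev * e1)
  by_cases a3 : a = s.i.rev
  · rw [a3, sw_rev_left s.ne, cv, if_neg (not_or.2 ⟨C.rev_ne _, a3 ▸ a4⟩), if_pos (Or.inr rfl),
      _root_.zpow_neg_one, Units.mul_inv_eq_iff_eq_mul]
    exact c'.mul_left_cancel (by
      linear_combination r3 + h3 - r2 - β.val s.j.rev s.j.rev * hu)
  · rw [sw_other a1 a2 a3 a4, cv, if_neg (not_or.2 ⟨a1, a4⟩), if_neg (not_or.2 ⟨a2, a3⟩), zpow_zero,
      Units.val_one, mul_one, h4 a a1 a2 a3 a4]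

/-- at the point `B` the torus part does not change -/
theorem exch_zero {s : C.Sp} {ε ε' : Bool} {t t' : S} {β β' : GL C.I S} (hβ : β ∈ C.B S)
    (hβ' : β' ∈ C.B S) (h : C.X s ε t * β = β' * C.X s ε' t') {F : Type} [Field F] (f : S →+* F)
    (h0 : f (Tv ε t) = 0) (a : C.I) : f (β'.val a a) = f (β.val a a) := by
  obtain ⟨u, hu, -⟩ := exch_torus hβ hβ' h
  have h0' : f (Tv ε' t') = 0 := by rw [hu, map_mul, h0, mul_zero]
  have one : ∀ (ε : Bool) (t : S), f (Tv ε t) = 0 → C.mp f (C.X s ε t) = 1 := fun ε t e => by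
    cases ε
    · rw [X_mp, show f t = 0 from e, X_false_zero]
    · exact absurd ((map_one f).symm.trans e) one_ne_zero
  have e := congrArg (C.mp f) h
  rw [map_mul, map_mul, one _ _ h0, one _ _ h0', one_mul, mul_one] at e
  exact (congrArg (fun z : GL C.I F => z.val a a) e).symm

end Ctx

end Pool.Agent.MP_b8b722_ag

end

end partRefl

section partWord

/-!
Reduced words of the frame `z`; pure combinatorics of permutations.
-/

set_option linter.unusedSectionVars false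
set_option linter.unusedVariables false

noncomputable section

namespace Pool.Agent.MP_b8b722_ag

namespace Ctx

variable (C : Ctx)

/-- `π` reverses the order inside the classes of `cl` -/
def IsRev (cl : C.I → ℕ) (π : Equiv.Perm C.I) : Prop :=
  (∀ a, cl (π a) = cl a) ∧ ∀ a b, cl a = cl b → a < b → π b < π a

variable {C}

theorem perm_eq_one_cl (cl : C.I → ℕ) {π : Equiv.Perm C.I} (h1 : ∀ a, cl (π a) = cl a)
    (h2 : ∀ a b, cl a = cl b → a < b → π a < π b) : π = 1 := by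
  refine Equiv.ext fun a => ?_
  let f : {b : C.I // cl b = cl a} → {b : C.I // cl b = cl a} := fun b => ⟨π b, (h1 b).trans b.2⟩
  have hf : StrictMono f := fun b c hbc => h2 b c (b.2.trans c.2.symm) hbc
  have h3 : f ⟨a, rfl⟩ = ⟨a, rfl⟩ := le_antisymm hf.apply_le hf.le_apply
  exact congrArg Subtype.val h3

theorem IsRev.mul_eq_one {cl : C.I → ℕ} {π π' : Equiv.Perm C.I} (h : C.IsRev cl π)
    (h' : C.IsRev cl π') : π * π' = 1 :=
  perm_eq_one_cl cl (fun a => (h.1 _).trans (h'.1 a)) fun a b hb hab =>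
    h.2 _ _ (by rw [h'.1, h'.1, hb]) (h'.2 a b hb hab)

theorem IsRev.unique {cl : C.I → ℕ} {π π' : Equiv.Perm C.I} (h : C.IsRev cl π)
    (h' : C.IsRev cl π') : π = π' :=
  mul_left_cancel (a := π) ((h.mul_eq_one h).trans (h.mul_eq_one h').symm)

theorem IsRev.lt_iff {cl : C.I → ℕ} {π : Equiv.Perm C.I} (h : C.IsRev cl π) {a b : C.I}
    (hb : cl a = cl b) : π b < π a ↔ a < b := by
  refine ⟨fun h1 => ?_, h.2 a b hb⟩
  rcases lt_trichotomy a b with h2 | h2 | h2
  · exact h2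
  · subst h2; exact absurd h1 (lt_irrefl _)
  · exact absurd h1 (not_lt.2 (h.2 b a hb.symm h2).le)

theorem exists_isRev (cl : C.I → ℕ) : ∃ π, C.IsRev cl π := by
  let f₁ : C.I → ℕ ×ₗ ℕ := fun a => toLex (cl a, a.val)
  let f₂ : C.I → ℕ ×ₗ ℕ := fun a => toLex (cl a, a.rev.val)
  have m₁ := Tuple.monotone_sort f₁
  have m₂ := Tuple.monotone_sort f₂
  have n₁ : Monotone (cl ∘ Tuple.sort f₁) := fun a b hab => Prod.Lex.monotone_fst _ _ (m₁ hab)
  have n₂ : Monotone (cl ∘ Tuple.sort f₂) := fun a b hab => Prod.Lex.monotone_fst _ _ (m₂ hab)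
  have e := Tuple.unique_monotone n₁ n₂
  have hb : ∀ a, cl (Tuple.sort f₂ ((Tuple.sort f₁).symm a)) = cl a := fun a => by
    have := congrFun e ((Tuple.sort f₁).symm a)
    simp only [Function.comp_apply, Equiv.apply_symm_apply] at this
    exact this.symm
  refine ⟨(Tuple.sort f₁).symm.trans (Tuple.sort f₂), hb, fun a b hab hlt => ?_⟩
  have h1 : (Tuple.sort f₁).symm a < (Tuple.sort f₁).symm b := by
    by_contra hc
    have := m₁ (not_lt.1 hc)
    simp only [Function.comp_apply, Equiv.apply_symm_apply, f₁, Prod.Lex.toLex_le_toLex] at this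
    have h2 : a.val < b.val := hlt
    omega
  have h2 := m₂ h1.le
  simp only [Function.comp_apply, f₂, Prod.Lex.toLex_le_toLex, hb] at h2
  refine lt_of_le_of_ne (Fin.rev_le_rev.1 ?_) fun h3 => hlt.ne' (Equiv.injective _ h3)
  rcases h2 with h2 | h2
  · omega
  · exact h2.2

/-- conjugation by a map that permutes the classes monotonically or antitonically -/
theorem IsRev.comm {cl : C.I → ℕ} {π : Equiv.Perm C.I} (h : C.IsRev cl π) (τ : Equiv.Perm C.I)
    (h1 : ∀ a b, cl (τ a) = cl (τ b) ↔ cl a = cl b)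
    (h2 : (∀ a b, cl a = cl b → (τ a < τ b ↔ a < b)) ∨ ∀ a b, cl a = cl b → (τ a < τ b ↔ b < a))
    (a : C.I) : π (τ a) = τ (π a) := by
  have h' : C.IsRev cl (τ * π * τ⁻¹) := by
    refine ⟨fun a => ?_, fun a b hb hab => ?_⟩
    · obtain ⟨a, rfl⟩ := τ.surjective a
      simp only [Equiv.Perm.mul_apply, Equiv.Perm.coe_inv, Equiv.symm_apply_apply]
      rw [h1, h.1]
    · obtain ⟨a, rfl⟩ := τ.surjective a
      obtain ⟨b, rfl⟩ := τ.surjective b
      simp only [Equiv.Perm.mul_apply, Equiv.Perm.coe_inv, Equiv.symm_apply_apply]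
      rw [h1] at hb
      have hb' : cl (π b) = cl (π a) := by rw [h.1, h.1, hb]
      rcases h2 with h2 | h2
      · exact (h2 _ _ hb').2 (h.2 a b hb ((h2 a b hb).1 hab))
      · exact (h2 _ _ hb').2 (h.2 b a hb.symm ((h2 a b hb).1 hab))
  have := Equiv.congr_fun (h.unique h') (τ a)
  simpa using this

variable (C)

/-- the longest element -/
def w0 : Equiv.Perm C.I := (exists_isRev C.blk).choose

/-- blocks of `L` -/
def clL (a : C.I) : ℕ := 2 * C.blk a + if C.lo a then 0 else 1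

/-- the longest element of the Weyl group of `L` -/
def wI : Equiv.Perm C.I := (exists_isRev C.clL).choose

def wJ : Equiv.Perm C.I := C.σ * C.wI * C.σ⁻¹

/-- `w = w_{0,I} w_0` -/
def wf : Equiv.Perm C.I := C.wI * C.w0

/-- Weyl group of `L` -/
def IsWL (π : Equiv.Perm C.I) : Prop := C.IsW π ∧ ∀ a, C.lo (π a) ↔ C.lo a

variable {C}

theorem clL_eq {a b : C.I} : C.clL a = C.clL b ↔ C.blk a = C.blk b ∧ (C.lo a ↔ C.lo b) := by
  unfold clL
  split_ifs with h1 h2 h2 <;> simp only [h1, h2, iff_self, iff_false, not_true,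
    and_true, and_false, iff_true] <;> omega

theorem w0_rev : C.IsRev C.blk C.w0 := (exists_isRev C.blk).choose_spec
theorem wI_rev : C.IsRev C.clL C.wI := (exists_isRev C.clL).choose_spec

theorem w0_lt {a b : C.I} (h : C.blk a = C.blk b) : C.w0 b < C.w0 a ↔ a < b := w0_rev.lt_iff h

theorem wI_lt {a b : C.I} (h : C.blk a = C.blk b) (hl : C.lo a ↔ C.lo b) :
    C.wI b < C.wI a ↔ a < b := wI_rev.lt_iff (clL_eq.2 ⟨h, hl⟩)

theorem w0_mul_self : C.w0 * C.w0 = 1 := w0_rev.mul_eq_one w0_rev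
theorem wI_mul_self : C.wI * C.wI = 1 := wI_rev.mul_eq_one wI_rev
theorem w0_w0 (a : C.I) : C.w0 (C.w0 a) = a := Equiv.congr_fun w0_mul_self a
theorem wI_wI (a : C.I) : C.wI (C.wI a) = a := Equiv.congr_fun wI_mul_self a
theorem w0_inv : C.w0⁻¹ = C.w0 := inv_eq_of_mul_eq_one_right w0_mul_self
theorem wI_inv : C.wI⁻¹ = C.wI := inv_eq_of_mul_eq_one_right wI_mul_self

theorem w0_isW : C.IsW C.w0 :=
  ⟨w0_rev.1, fun a => w0_rev.comm Fin.revPerm C.blk_rev_iff
    (Or.inr fun _ _ _ => Fin.rev_lt_rev) a⟩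

theorem w0_σ (a : C.I) : C.w0 (C.σ a) = C.σ (C.w0 a) :=
  w0_rev.comm C.σ C.σ_blk (Or.inl fun _ _ h => C.σ_lt h) a

theorem w0_σ_symm (a : C.I) : C.w0 (C.σ.symm a) = C.σ.symm (C.w0 a) := by
  rw [Equiv.eq_symm_apply, ← w0_σ, Equiv.apply_symm_apply]

theorem wI_isWL : C.IsWL C.wI := by
  refine ⟨⟨fun a => (clL_eq.1 (wI_rev.1 a)).1, fun a => wI_rev.comm Fin.revPerm (fun a b => ?_)
    (Or.inr fun _ _ _ => Fin.rev_lt_rev) a⟩, fun a => (clL_eq.1 (wI_rev.1 a)).2⟩
  rw [clL_eq, clL_eq, Fin.revPerm_apply, Fin.revPerm_apply, C.blk_rev_iff, C.lo_rev, C.lo_rev,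
    not_iff_not]

theorem wJ_σ (a : C.I) : C.wJ (C.σ a) = C.σ (C.wI a) := by simp [wJ]

theorem σ_symm_wJ (a : C.I) : C.σ.symm (C.wJ a) = C.wI (C.σ.symm a) := by
  obtain ⟨a, rfl⟩ := C.σ.surjective a
  rw [wJ_σ, Equiv.symm_apply_apply, Equiv.symm_apply_apply]

theorem wJ_mul_self : C.wJ * C.wJ = 1 := by
  have : C.wJ * C.wJ = C.σ * (C.wI * C.wI) * C.σ⁻¹ := by unfold wJ; group
  rw [this, wI_mul_self, mul_one, mul_inv_cancel]

theorem wJ_isW : C.IsW C.wJ := by
  refine ⟨fun a => ?_, fun a => ?_⟩ <;> obtain ⟨a, rfl⟩ := C.σ.surjective a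
  · rw [wJ_σ, C.σ_blk, wI_isWL.1.1]
  · rw [← C.σ_rev, wJ_σ, wJ_σ, wI_isWL.1.2, C.σ_rev]

theorem wf_isW : C.IsW C.wf := wI_isWL.1.mul w0_isW

theorem wf_symm_blk (a : C.I) : C.blk (C.wf.symm a) = C.blk a := wf_isW.inv.1 a

theorem wI_mul_wf : C.wI * C.wf = C.w0 := by rw [wf, ← mul_assoc, wI_mul_self, one_mul]

theorem wI_wf (a : C.I) : C.wI (C.wf a) = C.w0 a := wI_wI _

theorem wf_symm (a : C.I) : C.wf.symm a = C.w0 (C.wI a) := by
  rw [Equiv.symm_apply_eq, wf, Equiv.Perm.mul_apply, w0_w0, wI_wI]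

theorem wf_symm_lt {a b : C.I} (hb : C.blk a = C.blk b) :
    C.wf.symm a < C.wf.symm b ↔ (¬ C.lo a ∧ C.lo b) ∨ ((C.lo a ↔ C.lo b) ∧ a < b) := by
  rw [wf_symm, wf_symm, w0_lt (by rw [wI_isWL.1.1, wI_isWL.1.1, hb])]
  by_cases h : C.lo a ↔ C.lo b
  · rw [wI_lt hb h]; tauto
  · have ha := wI_isWL.2 a
    have hb := wI_isWL.2 b
    by_cases h1 : C.lo a
    · have h2 : ¬ C.lo b := fun h2 => h (iff_of_true h1 h2)
      have := C.lt_of_lo (ha.2 h1) (mt hb.1 h2)
      exact iff_of_false this.not_gt (by tauto)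
    · have h2 : C.lo b := by tauto
      exact iff_of_true (C.lt_of_lo (hb.2 h2) (mt ha.1 h1)) (Or.inl ⟨h1, h2⟩)

theorem frame_lt {z : Equiv.Perm C.I} (h : C.IsFrame z) {a b : C.I} (hb : C.blk a = C.blk b)
    (hab : a < b) : (¬ C.lq (z a) ∧ C.lq (z b)) ∨ ((C.lq (z a) ↔ C.lq (z b)) ∧ z a < z b) :=
  (h.2 a b hb hab).imp_left fun h => ⟨not_lt.2 h.1, h.2⟩

/-- the frame is `w_{0,J} w_0` -/
theorem frame_eq {z : Equiv.Perm C.I} (h : C.IsFrame z) : z = C.wJ * C.w0 := by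
  have key : C.w0 * C.wJ * z = 1 := by
    refine C.perm_eq_one (fun a => ?_) fun a b hb hab => ?_
    · rw [Equiv.Perm.mul_apply, Equiv.Perm.mul_apply, w0_isW.1, wJ_isW.1, h.1]
    · have hz : C.blk (C.σ.symm (z a)) = C.blk (C.σ.symm (z b)) := by
        rw [C.σ_symm_blk, h.1, h.1, hb]
      have e : ∀ c, C.σ.symm ((C.w0 * C.wJ * z) c) = C.wf.symm (C.σ.symm (z c)) := fun c => by
        rw [wf_symm, ← σ_symm_wJ, w0_σ_symm]; rfl
      have h1 : C.wf.symm (C.σ.symm (z a)) < C.wf.symm (C.σ.symm (z b)) := by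
        rw [wf_symm_lt hz]
        refine (frame_lt h hb hab).imp_right fun h2 => ⟨h2.1, ?_⟩
        rw [← C.σ_lt hz, Equiv.apply_symm_apply, Equiv.apply_symm_apply]
        exact h2.2
      rw [← e, ← e, ← C.σ_lt (by rw [e, e, wf_symm_blk, wf_symm_blk, hz]),
        Equiv.apply_symm_apply, Equiv.apply_symm_apply] at h1
      exact h1
  rw [← mul_one (C.wJ * C.w0), ← key]
  have : C.wJ * C.w0 * (C.w0 * C.wJ * z) = C.wJ * (C.w0 * C.w0) * C.wJ * z := by group
  rw [this, w0_mul_self, mul_one, wJ_mul_self, one_mul]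

theorem zf_symm (a : C.I) : (C.wJ * C.w0).symm a = C.σ (C.wf.symm (C.σ.symm a)) := by
  rw [wf_symm, ← σ_symm_wJ, w0_σ_symm, Equiv.apply_symm_apply, Equiv.symm_apply_eq,
    Equiv.Perm.mul_apply, w0_w0]
  exact (Equiv.congr_fun wJ_mul_self a).symm

theorem frame_isW {z : Equiv.Perm C.I} (h : C.IsFrame z) : C.IsW z :=
  frame_eq h ▸ wJ_isW.mul w0_isW

theorem zf_symm_lt {a b : C.I} (hb : C.blk a = C.blk b) :
    (C.wJ * C.w0).symm a < (C.wJ * C.w0).symm b ↔
      (¬ C.lq a ∧ C.lq b) ∨ ((C.lq a ↔ C.lq b) ∧ a < b) := by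
  have hz : C.blk (C.σ.symm a) = C.blk (C.σ.symm b) := (C.σ_symm_blk a b).2 hb
  rw [zf_symm, zf_symm, C.σ_lt (by rw [wf_symm_blk, wf_symm_blk, hz]), wf_symm_lt hz,
    ← C.σ_lt hz, Equiv.apply_symm_apply, Equiv.apply_symm_apply]

theorem frame_symm_lt {z : Equiv.Perm C.I} (h : C.IsFrame z) {a b : C.I} (hb : C.blk a = C.blk b) :
    z.symm a < z.symm b ↔ (¬ C.lq a ∧ C.lq b) ∨ ((C.lq a ↔ C.lq b) ∧ a < b) :=
  frame_eq h ▸ zf_symm_lt hb

theorem isFrame_zf : C.IsFrame (C.wJ * C.w0) := by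
  have hW : C.IsW (C.wJ * C.w0) := wJ_isW.mul w0_isW
  refine ⟨hW.1, fun a b hb hab => ?_⟩
  have := (zf_symm_lt (a := (C.wJ * C.w0) a) (b := (C.wJ * C.w0) b)
    (by rw [hW.1, hW.1, hb])).1 (by rwa [Equiv.symm_apply_apply, Equiv.symm_apply_apply])
  exact this.imp_left fun h => ⟨not_lt.1 h.1, h.2⟩

/-- the image of a simple root under `- w_0` -/
def Sp.op (s : C.Sp) : C.Sp :=
  ⟨C.w0 s.j, C.w0 s.i, by rw [w0_isW.1, w0_isW.1, s.h.1], (w0_lt s.h.1).2 s.h.2.1,
    fun m hm hc => by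
      obtain ⟨m, rfl⟩ := C.w0.surjective m
      rw [w0_isW.1, w0_isW.1] at hm
      exact s.h.2.2 m (hm.trans s.h.1.symm)
        ⟨(w0_lt (s.h.1.trans hm.symm)).1 hc.2, (w0_lt hm).1 hc.1⟩⟩

/-- a transitive relation that holds for simple roots holds for positive roots -/
theorem wordb_chain {R : C.I → C.I → Prop} (ht : ∀ a b c, R a b → R b c → R a c)
    (hs : ∀ a b, C.Simple a b → R a b) {a b : C.I} (hb : C.blk a = C.blk b) (hab : a < b) :
    R a b := by
  induction hn : b.val - a.val using Nat.strong_induction_on generalizing a b with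
  | _ n ih =>
    by_cases h : C.Simple a b
    · exact hs a b h
    · have : ∃ m, C.blk m = C.blk a ∧ a < m ∧ m < b := by
        by_contra hc
        exact h ⟨hb, hab, fun m hm hm' => hc ⟨m, hm, hm'⟩⟩
      obtain ⟨m, hm, h1, h2⟩ := this
      have h1' := Fin.lt_def.1 h1
      have h2' := Fin.lt_def.1 h2
      exact ht a m b (ih _ (by omega) hm.symm h1 rfl) (ih _ (by omega) (hm.trans hb) h2 rfl)

/-- a non-trivial Weyl group element has a descent -/
theorem exists_descent {π : Equiv.Perm C.I} (h : C.IsW π) (h1 : π ≠ 1) :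
    ∃ s : C.Sp, π s.j < π s.i := by
  by_contra hn
  refine h1 (C.perm_eq_one h.1 fun a b hb hab => ?_)
  refine wordb_chain (R := fun a b => π a < π b) (fun a b c => lt_trans) (fun a b hs => ?_) hb hab
  exact lt_of_le_of_ne (not_lt.1 fun hl => hn ⟨⟨a, b, hs⟩, hl⟩)
    fun e => hs.2.1.ne (π.injective e)

/-- a measure that increases when a descent is removed -/
def ht (π : Equiv.Perm C.I) : ℕ := ∑ a, a.val * (π a).val

theorem wordb_ht_swap {π : Equiv.Perm C.I} {a b : C.I} (hab : a < b) (h : π b < π a) :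
    ht π < ht (π * Equiv.swap a b) := by
  have hb : b ∈ Finset.univ.erase a := Finset.mem_erase.2 ⟨hab.ne', Finset.mem_univ _⟩
  unfold ht
  rw [← Finset.add_sum_erase _ _ (Finset.mem_univ a), ← Finset.add_sum_erase _ _ hb,
    ← Finset.add_sum_erase _ (fun x : C.I => x.val * ((π * Equiv.swap a b) x).val)
      (Finset.mem_univ a),
    ← Finset.add_sum_erase _ (fun x : C.I => x.val * ((π * Equiv.swap a b) x).val) hb]
  have e : ∑ x ∈ (Finset.univ.erase a).erase b, x.val * ((π * Equiv.swap a b) x).val =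
      ∑ x ∈ (Finset.univ.erase a).erase b, x.val * (π x).val := by
    refine Finset.sum_congr rfl fun x hx => ?_
    have h1 := Finset.mem_erase.1 hx
    have h2 := Finset.mem_erase.1 h1.2
    rw [Equiv.Perm.mul_apply, Equiv.swap_apply_of_ne_of_ne h2.1 h1.1]
  rw [e, Equiv.Perm.mul_apply, Equiv.Perm.mul_apply, Equiv.swap_apply_left,
    Equiv.swap_apply_right]
  obtain ⟨u, hu⟩ := Nat.exists_eq_add_of_lt (Fin.lt_def.1 hab)
  obtain ⟨v, hv⟩ := Nat.exists_eq_add_of_lt (Fin.lt_def.1 h)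
  rw [hu, hv]
  linarith only [Nat.zero_le (u * v)]

theorem ht_lt {π : Equiv.Perm C.I} (h : C.IsW π) (s : C.Sp) (hs : π s.j < π s.i) :
    ht π < ht (π * C.sw s.i s.j) := by
  have hne := s.ne
  unfold sw
  split_ifs with hj
  · exact wordb_ht_swap s.h.2.1 hs
  · rw [← mul_assoc]
    refine (wordb_ht_swap s.h.2.1 hs).trans (wordb_ht_swap (Fin.rev_lt_rev.2 s.h.2.1) ?_)
    have e1 : Equiv.swap s.i s.j s.i.rev = s.i.rev :=
      Equiv.swap_apply_of_ne_of_ne (C.rev_ne _) (Ne.symm hj)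
    have e2 : Equiv.swap s.i s.j s.j.rev = s.j.rev :=
      Equiv.swap_apply_of_ne_of_ne (fun e => hj (by rw [← e, Fin.rev_rev])) (C.rev_ne _)
    rw [Equiv.Perm.mul_apply, Equiv.Perm.mul_apply, e1, e2, h.2, h.2]
    exact Fin.rev_lt_rev.2 hs

theorem ht_le (π : Equiv.Perm C.I) : ht π ≤ (C.g + C.g) ^ 3 := by
  unfold ht
  calc ∑ a : C.I, a.val * (π a).val ≤ ∑ _a : C.I, (C.g + C.g) * (C.g + C.g) :=
        Finset.sum_le_sum fun a _ => Nat.mul_le_mul a.isLt.le (π a).isLt.le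
    _ = (C.g + C.g) ^ 3 := by
        rw [Finset.sum_const, Finset.card_univ, Fintype.card_fin, smul_eq_mul]; ring

/-- induction over the weak order -/
theorem IsW.induction {Φ : Equiv.Perm C.I → Prop} (h1 : Φ 1)
    (hs : ∀ π (s : C.Sp), C.IsW π → π s.i < π s.j → Φ π → Φ (π * C.sw s.i s.j))
    {π : Equiv.Perm C.I} (h : C.IsW π) : Φ π := by
  induction hn : (C.g + C.g) ^ 3 - ht π using Nat.strong_induction_on generalizing π with
  | _ n ih =>
    by_cases hπ : π = 1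
    · rw [hπ]; exact h1
    obtain ⟨s, hd⟩ := exists_descent h hπ
    have hW : C.IsW (π * C.sw s.i s.j) := h.mul (sw_isW s.ne s.h.1)
    have e : π = π * C.sw s.i s.j * C.sw s.i s.j := by
      ext a
      rw [Equiv.Perm.mul_apply, Equiv.Perm.mul_apply, sw_sw s.ne]
    have l1 := ht_lt h s hd
    have l2 := ht_le (π * C.sw s.i s.j)
    rw [e]
    refine hs _ s hW ?_ (ih _ (by omega) hW rfl)
    rw [Equiv.Perm.mul_apply, Equiv.Perm.mul_apply, sw_left s.ne, sw_right s.ne]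
    exact hd

theorem wordb_word {π : Equiv.Perm C.I} (h : C.IsW π) :
    ∃ (d : ℕ) (s : Fin d → C.Sp) (w : ℕ → Equiv.Perm C.I), w 0 = 1 ∧
      (∀ n : Fin d, w (n + 1) = w n * C.sw (s n).i (s n).j) ∧ w d = π ∧
      ∀ n : Fin d, w n (s n).i < w n (s n).j := by
  refine IsW.induction (Φ := fun π => ∃ (d : ℕ) (s : Fin d → C.Sp) (w : ℕ → Equiv.Perm C.I),
    w 0 = 1 ∧ (∀ n : Fin d, w (n + 1) = w n * C.sw (s n).i (s n).j) ∧ w d = π ∧
      ∀ n : Fin d, w n (s n).i < w n (s n).j) ?_ ?_ h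
  · exact ⟨0, Fin.elim0, fun _ => 1, rfl, fun n => n.elim0, rfl, fun n => n.elim0⟩
  · rintro π t - hlt ⟨d, s, w, h0, h1, h2, h3⟩
    refine ⟨d + 1, fun n => if hn : n.val < d then s ⟨n, hn⟩ else t,
      fun n => if n ≤ d then w n else π * C.sw t.i t.j, ?_, fun n => ?_, ?_, fun n => ?_⟩
    · simp only [Nat.zero_le, if_true, h0]
    · by_cases hn : n.val < d
      · simp only [dif_pos hn, if_pos hn.le, if_pos (Nat.succ_le_of_lt hn)]
        exact h1 ⟨n, hn⟩
      · have e : n.val = d := by have := n.isLt; omega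
        simp only [dif_neg (lt_irrefl d), e, le_refl, if_true, if_neg (Nat.not_succ_le_self d), h2]
    · simp only [if_neg (Nat.not_succ_le_self d)]
    · by_cases hn : n.val < d
      · simp only [dif_pos hn, if_pos hn.le]
        exact h3 ⟨n, hn⟩
      · have e : n.val = d := by have := n.isLt; omega
        simp only [dif_neg (lt_irrefl d), e, le_refl, if_true, h2]
        exact hlt

variable (C) in
/-- a word `s_0 ⋯ s_{d-1}` with partial products `w` that starts with a reduced word of `wf` -/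
structure Wd where
  z : Equiv.Perm C.I
  frame : C.IsFrame z
  d : ℕ
  s : Fin d → C.Sp
  w : ℕ → Equiv.Perm C.I
  w_zero : w 0 = 1
  w_succ : ∀ n : Fin d, w (n + 1) = w n * C.sw (s n).i (s n).j
  m : ℕ
  m_le : m ≤ d
  w_m : w m = C.wf
  red : ∀ n : Fin d, n.val < m → w n (s n).i < w n (s n).j

theorem exists_wd0 : ∃ W : C.Wd, W.d = W.m := by
  obtain ⟨d, s, w, h0, h1, h2, h3⟩ := wordb_word (wf_isW (C := C))
  exact ⟨⟨_, isFrame_zf, d, s, w, h0, h1, d, le_rfl, h2, fun n _ => h3 n⟩, rfl⟩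

theorem exists_wd1 (t : C.Sp) :
    ∃ (W : C.Wd) (l : Fin W.d), W.d = W.m + 1 ∧ l.val = W.m ∧ W.s l = t := by
  obtain ⟨d, s, w, h0, h1, h2, h3⟩ := wordb_word (wf_isW (C := C))
  refine ⟨⟨_, isFrame_zf, d + 1, fun n => if hn : n.val < d then s ⟨n, hn⟩ else t,
    fun n => if n ≤ d then w n else w d * C.sw t.i t.j, ?_, fun n => ?_, d, Nat.le_succ d, ?_,
    fun n hn => ?_⟩, Fin.last d, rfl, rfl, dif_neg (lt_irrefl d)⟩
  · simp only [Nat.zero_le, if_true, h0]
  · by_cases hn : n.val < d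
    · simp only [dif_pos hn, if_pos hn.le, if_pos (Nat.succ_le_of_lt hn)]
      exact h1 ⟨n, hn⟩
    · have e : n.val = d := by have := n.isLt; omega
      simp only [dif_neg (lt_irrefl d), e, le_refl, if_true, if_neg (Nat.not_succ_le_self d)]
  · simp only [le_refl, if_true, h2]
  · simp only [dif_pos hn, if_pos hn.le]
    exact h3 ⟨n, hn⟩

namespace Wd

variable (W : C.Wd)

theorem isW {n : ℕ} (hn : n ≤ W.d) : C.IsW (W.w n) := by
  induction n with
  | zero => rw [W.w_zero]; exact IsW.one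
  | succ n ih =>
    rw [W.w_succ ⟨n, hn⟩]
    exact (ih (Nat.le_of_succ_le hn)).mul (sw_isW (W.s _).ne (W.s _).h.1)

theorem wordb_symm (n : Fin W.d) (a : C.I) :
    (W.w (n + 1)).symm a = C.sw (W.s n).i (W.s n).j ((W.w n).symm a) := by
  rw [Equiv.symm_apply_eq, W.w_succ, Equiv.Perm.mul_apply, sw_sw (W.s n).ne,
    Equiv.apply_symm_apply]

theorem wordb_blk1 {n : ℕ} (hn : n ≤ W.d) (a : C.I) : C.blk ((W.w n).symm a) = C.blk a :=
  (W.isW hn).inv.1 a

theorem wordb_blk {n : ℕ} (hn : n ≤ W.d) {a b : C.I} (h : C.blk a = C.blk b) :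
    C.blk ((W.w n).symm a) = C.blk ((W.w n).symm b) := by
  rw [W.wordb_blk1 hn, W.wordb_blk1 hn, h]

/-- once a pair is inverted it stays inverted -/
theorem inv_mono {a b : C.I} (hb : C.blk a = C.blk b) (hab : a < b) {m n : ℕ} (hmn : m ≤ n)
    (hn' : n ≤ W.m) (h : (W.w m).symm b < (W.w m).symm a) : (W.w n).symm b < (W.w n).symm a := by
  induction n, hmn using Nat.le_induction with
  | base => exact h
  | succ n hmn ih =>
    have hn : n + 1 ≤ W.d := hn'.trans W.m_le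
    have h' := ih (Nat.le_of_succ_le hn')
    have hW := W.isW (Nat.le_of_succ_le hn)
    have hr := W.red ⟨n, hn⟩ hn'
    rw [W.wordb_symm ⟨n, hn⟩, W.wordb_symm ⟨n, hn⟩]
    refine sw_lt _ (W.wordb_blk (Nat.le_of_succ_le hn) hb.symm) h' (fun e => ?_) fun e => ?_
    · obtain ⟨e1, e2⟩ := Prod.mk.inj e
      rw [← e1, ← e2, Equiv.apply_symm_apply, Equiv.apply_symm_apply] at hr
      exact absurd hr hab.not_gt
    · obtain ⟨e1, e2⟩ := Prod.mk.inj e
      have hr' := Fin.rev_lt_rev.2 hr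
      rw [← hW.2, ← hW.2, ← e1, ← e2, Equiv.apply_symm_apply, Equiv.apply_symm_apply] at hr'
      exact absurd hr' hab.not_gt

/-- the inversions of `wf` join the two halves -/
theorem cross (n : Fin W.d) (hn : n.val < W.m) :
    C.lo (W.w n (W.s n).i) ∧ ¬ C.lo (W.w n (W.s n).j) := by
  have hW := W.isW n.isLt.le
  have hb : C.blk (W.w n (W.s n).i) = C.blk (W.w n (W.s n).j) := by
    rw [hW.1, hW.1, (W.s n).h.1]
  have h := W.inv_mono hb (W.red n hn) (Nat.succ_le_of_lt hn) le_rfl (by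
    rw [W.wordb_symm, W.wordb_symm, Equiv.symm_apply_apply, Equiv.symm_apply_apply,
      sw_left (W.s n).ne, sw_right (W.s n).ne]
    exact (W.s n).h.2.1)
  rw [W.w_m, wf_symm_lt hb.symm] at h
  rcases h with h | h
  · exact ⟨h.2, h.1⟩
  · exact absurd h.2 (W.red n hn).not_gt

theorem z_eq : W.z = C.wJ * C.w0 := frame_eq W.frame

theorem z_isW : C.IsW W.z := frame_isW W.frame

theorem wJ_mul_z : C.wJ * W.z = C.w0 := by rw [W.z_eq, ← mul_assoc, wJ_mul_self, one_mul]

/-- `τ = z⁻¹ σ` -/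
def τ : Equiv.Perm C.I := W.z⁻¹ * C.σ

theorem τ_aut : C.IsAut W.τ :=
  IsAut.mul (IsAut.inv ⟨W.z_isW.2, fun a b => by rw [W.z_isW.1, W.z_isW.1]⟩) isAut_σ

theorem z_τ (a : C.I) : W.z (W.τ a) = C.σ a := by simp [τ]

theorem τ_lt {a b : C.I} (hb : C.blk a = C.blk b) (hl : C.lo a ↔ C.lo b) :
    W.τ a < W.τ b ↔ a < b := by
  change W.z.symm (C.σ a) < W.z.symm (C.σ b) ↔ _
  rw [frame_symm_lt W.frame ((C.σ_blk a b).2 hb), C.lq_σ, C.lq_σ, C.σ_lt hb]
  tauto

end Wd

end Ctx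

end Pool.Agent.MP_b8b722_ag

end

end partWord

section partUniv

/-!
The coordinate ring of the Levi subgroup.
-/

set_option linter.unusedSectionVars false
set_option linter.unusedVariables false

open Matrix

noncomputable section

namespace Pool.Agent.MP_b8b722_ag

namespace Ctx

variable (C : Ctx)

/-- positions of the upper left blocks -/
abbrev Var : Type := {q : C.I × C.I // C.lo q.1 ∧ C.lo q.2 ∧ C.blk q.1 = C.blk q.2}

/-- polynomial ring in the entries of the upper left blocks and the similitude (`none`) -/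
abbrev R0 : Type := MvPolynomial (Option C.Var) C.k

/-- the generic upper left block -/
def A0 : Matrix C.I C.I C.R0 :=
  Matrix.of fun a b => if h : C.lo a ∧ C.lo b ∧ C.blk a = C.blk b then
    MvPolynomial.X (some ⟨(a, b), h⟩) else if a = b then 1 else 0

def c0 : C.R0 := MvPolynomial.X none

def d0 : C.R0 := C.A0.det * C.c0

/-- the coordinate ring of `L` -/
abbrev RL : Type := Localization.Away C.d0

variable {C} {S S' : Type} [CommRing S] [CommRing S'] [Algebra C.k S] [Algebra C.k S']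

variable (C) in
/-- evaluation at a matrix and a scalar -/
def ev0 (A : Matrix C.I C.I S) (c : S) : C.R0 →ₐ[C.k] S :=
  MvPolynomial.aeval fun o => o.elim c fun q => A q.1.1 q.1.2

theorem isLoM_A0 : C.IsLoM C.A0 := fun a b h => by
  simp only [A0, Matrix.of_apply, dif_neg h]

theorem ev0_c0 (A : Matrix C.I C.I S) (c : S) : C.ev0 A c C.c0 = c := by
  simp [ev0, c0]

theorem ev0_A0 {A : Matrix C.I C.I S} (h : C.IsLoM A) (c : S) :
    C.A0.map (C.ev0 A c) = A := by
  ext a b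
  rw [Matrix.map_apply]
  by_cases hab : C.lo a ∧ C.lo b ∧ C.blk a = C.blk b
  · simp only [A0, Matrix.of_apply, dif_pos hab, ev0, MvPolynomial.aeval_X, Option.elim]
  · rw [isLoM_A0 a b hab, h a b hab]
    split_ifs <;> simp

theorem R0_ext {f f' : C.R0 →ₐ[C.k] S} (h1 : C.A0.map f = C.A0.map f') (h2 : f C.c0 = f' C.c0) :
    f = f' := by
  refine MvPolynomial.algHom_ext fun o => ?_
  rcases o with _ | ⟨⟨a, b⟩, hab⟩
  · exact h2
  · have := congrFun (congrFun h1 a) b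
    simpa only [Matrix.map_apply, A0, Matrix.of_apply, dif_pos hab] using this

theorem ev0_comp (h : S →ₐ[C.k] S') (A : Matrix C.I C.I S) (c : S) :
    h.comp (C.ev0 A c) = C.ev0 (A.map h) (h c) := by
  refine MvPolynomial.algHom_ext fun o => ?_
  rcases o with _ | q <;> simp [ev0]

theorem d0_ne : C.d0 ≠ 0 := by
  intro h0
  have h1 := congrArg (C.ev0 (1 : Matrix C.I C.I C.k) 1) h0
  rw [d0, map_mul, ev0_c0, AlgHom.map_det, AlgHom.mapMatrix_apply, ev0_A0 IsLoM.one] at h1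
  simp at h1

instance : IsDomain C.RL :=
  IsLocalization.isDomain_localization (powers_le_nonZeroDivisors_of_noZeroDivisors d0_ne)

instance : IsIntegrallyClosed C.RL :=
  isIntegrallyClosed_of_isLocalization C.RL (Submonoid.powers C.d0)
    (powers_le_nonZeroDivisors_of_noZeroDivisors d0_ne)

theorem exists_m0 : ∃ m ∈ C.L C.RL, C.loM m.val = C.A0.map (algebraMap C.R0 C.RL) ∧
    C.sim m = algebraMap C.R0 C.RL C.c0 := by
  have hd : IsUnit (algebraMap C.R0 C.RL (C.A0.det * C.c0)) :=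
    IsLocalization.Away.algebraMap_isUnit C.d0
  rw [map_mul, IsUnit.mul_iff, RingHom.map_det, RingHom.mapMatrix_apply] at hd
  obtain ⟨A, hA⟩ := (Matrix.isUnit_iff_isUnit_det _).2 hd.1
  obtain ⟨c, hc⟩ := hd.2
  have h : C.IsLoM A.val := hA ▸ isLoM_A0.map _
  exact ⟨C.mkL A c, mkL_mem h c, (loM_mkL h c).trans hA, (sim_mkL h c).trans hc⟩

variable (C) in
/-- the universal point of `L` -/
def m0 : GL C.I C.RL := exists_m0.choose

theorem m0_mem : C.m0 ∈ C.L C.RL := exists_m0.choose_spec.1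

theorem loM_m0 : C.loM C.m0.val = C.A0.map (algebraMap C.R0 C.RL) := exists_m0.choose_spec.2.1

theorem sim_m0 : C.sim C.m0 = algebraMap C.R0 C.RL C.c0 := exists_m0.choose_spec.2.2

theorem univ_loM_ma (ρ : C.RL →ₐ[C.k] S) : C.loM (C.ma ρ C.m0).val =
    C.A0.map (ρ.comp (IsScalarTower.toAlgHom C.k C.R0 C.RL)) := by
  rw [mp_mat, loM_map, loM_m0, Matrix.map_map]
  rfl

theorem univ_sim_ma (ρ : C.RL →ₐ[C.k] S) : C.sim (C.ma ρ C.m0) =
    ρ.comp (IsScalarTower.toAlgHom C.k C.R0 C.RL) C.c0 := by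
  rw [sim_mp, sim_m0]
  rfl

theorem univ_lift (f : C.R0 →ₐ[C.k] S) (h : IsUnit (f C.d0)) : ∃ ρ : C.RL →ₐ[C.k] S,
    ρ.comp (IsScalarTower.toAlgHom C.k C.R0 C.RL) = f := by
  have hu : ∀ y : Submonoid.powers C.d0, IsUnit (f y) := by
    rintro ⟨_, n, rfl⟩
    rw [map_pow]
    exact h.pow n
  refine ⟨IsLocalization.liftAlgHom hu, AlgHom.ext fun r => ?_⟩
  rw [AlgHom.comp_apply, IsScalarTower.toAlgHom_apply, IsLocalization.liftAlgHom_apply,
    IsLocalization.lift_eq]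
  rfl

theorem exists_evL {l : GL C.I S} (hl : l ∈ C.L S) : ∃ ρ : C.RL →ₐ[C.k] S, C.ma ρ C.m0 = l := by
  have hG : C.InG l := Pat.inG hl
  have h0 : IsUnit (C.ev0 (C.loM l.val) (C.sim l) C.d0) := by
    rw [d0, map_mul, ev0_c0, AlgHom.map_det, AlgHom.mapMatrix_apply, ev0_A0 (isLoM_loM hG)]
    exact (loM_det_unit (Or.inl (L_le_P hl))).mul hG.sim_unit
  obtain ⟨ρ, he⟩ := univ_lift _ h0
  refine ⟨ρ, L_ext (Pat.map _ m0_mem) hl ?_ ?_⟩
  · rw [univ_loM_ma, he, ev0_A0 (isLoM_loM hG)]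
  · rw [univ_sim_ma, he, ev0_c0]

theorem RL_ext {ρ ρ' : C.RL →ₐ[C.k] S} (h : C.ma ρ C.m0 = C.ma ρ' C.m0) : ρ = ρ' := by
  refine IsLocalization.algHom_ext (Submonoid.powers C.d0) (R0_ext ?_ ?_)
  · exact (univ_loM_ma ρ).symm.trans (h ▸ univ_loM_ma ρ')
  · exact (univ_sim_ma ρ).symm.trans (h ▸ univ_sim_ma ρ')

open Classical in
variable (C) in
/-- the point of `RL` given by the Levi part of `a` -/
def evL (a : GL C.I S) : C.RL →ₐ[C.k] S :=
  if h : a ∈ C.P S then (exists_evL (lev_mem (Or.inl h))).choose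
  else (exists_evL (one_mem (C.L S))).choose

theorem evL_m0 {a : GL C.I S} (h : a ∈ C.P S) : C.ma (C.evL a) C.m0 = C.lev a := by
  rw [evL, dif_pos h]
  exact (exists_evL (lev_mem (Or.inl h))).choose_spec

theorem evL_comp (f : S →ₐ[C.k] S') {a : GL C.I S} (h : a ∈ C.P S) :
    f.comp (C.evL a) = C.evL (C.ma f a) := by
  refine RL_ext ?_
  rw [evL_m0 (Pat.map _ h), lev_mp _ (Or.inl h), ← evL_m0 h]
  rfl

theorem evL_algebraMap {a : GL C.I S} (h : a ∈ C.P S) (r : C.R0) :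
    C.evL a (algebraMap C.R0 C.RL r) = C.ev0 (C.loM a.val) (C.sim a) r := by
  have hG : C.InG a := Pat.inG h
  have : (C.evL a).comp (IsScalarTower.toAlgHom C.k C.R0 C.RL) =
      C.ev0 (C.loM a.val) (C.sim a) := by
    refine R0_ext ?_ ?_
    · rw [← univ_loM_ma, evL_m0 h, loM_lev (Or.inl h), ev0_A0 (isLoM_loM hG)]
    · rw [← univ_sim_ma, evL_m0 h, lev_sim (Or.inl h), ev0_c0]
  exact DFunLike.congr_fun this r

theorem evL_self : C.evL C.m0 = AlgHom.id C.k C.RL := by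
  refine RL_ext ?_
  rw [evL_m0 (L_le_P m0_mem), lev_of_L m0_mem]
  rfl

/-- block diagonal matrices of shape `Λ` -/
def univ_sh (Λ : C.Rel) (T : Type) [CommRing T] : Subalgebra T (Matrix C.I C.I T) where
  carrier := {A | ∀ a b, ¬ (C.blk a = C.blk b ∧ Λ.r a b) → A a b = 0}
  mul_mem' := fun {x y} hx hy a c h => by
    rw [Matrix.mul_apply]
    refine Finset.sum_eq_zero fun b _ => ?_
    by_cases h1 : C.blk a = C.blk b ∧ Λ.r a b
    · rw [hy b c fun h2 => h ⟨h1.1.trans h2.1, Λ.trans a b c h1.1 h2.1 h1.2 h2.2⟩, mul_zero]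
    · rw [hx a b h1, zero_mul]
  add_mem' := fun {x y} hx hy a b h => by rw [Matrix.add_apply, hx a b h, hy a b h, add_zero]
  algebraMap_mem' := fun r a b h => by
    have : a ≠ b := fun e => h (e ▸ ⟨rfl, Λ.refl a⟩)
    rw [Matrix.algebraMap_matrix_apply, if_neg this]

theorem univ_inv_mem {T : Type} [CommRing T] (D : Subalgebra T (Matrix C.I C.I T)) (A : GL C.I T)
    (h : A.val ∈ D) : A⁻¹.val ∈ D := by
  have h0 : IsUnit (A.val.charpoly.coeff 0) := by
    have h1 : IsUnit A.val.det := (Matrix.isUnit_iff_isUnit_det _).1 A.isUnit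
    rw [Matrix.det_eq_sign_charpoly_coeff] at h1
    exact (IsUnit.mul_iff.1 h1).2
  obtain ⟨u, hu⟩ := h0
  have h2 := Matrix.aeval_self_charpoly A.val
  rw [← Polynomial.X_mul_divX_add A.val.charpoly, map_add, map_mul, Polynomial.aeval_X,
    Polynomial.aeval_C, ← hu, Algebra.algebraMap_eq_smul_one] at h2
  have h3 : Polynomial.aeval A.val A.val.charpoly.divX ∈ D :=
    Algebra.adjoin_le (S := D) (Set.singleton_subset_iff.2 h)
      (Polynomial.aeval_mem_adjoin_singleton T A.val)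
  have h4 := congrArg (fun M => A⁻¹.val * M) h2
  simp only [Matrix.mul_add, ← Matrix.mul_assoc, Units.inv_mul, Matrix.one_mul, Matrix.mul_smul,
    Matrix.mul_one, Matrix.mul_zero] at h4
  have h5 : A⁻¹.val = (-(u⁻¹ : Tˣ).val) • Polynomial.aeval A.val A.val.charpoly.divX := by
    rw [eq_neg_of_add_eq_zero_left h4, neg_smul_neg, smul_smul, Units.inv_mul, one_smul]
  rw [h5]
  exact D.smul_mem h3 _

variable (C) in
/-- the projector on the blocks in `hf` -/
def univ_e (T : Type) [CommRing T] : Matrix C.I C.I T := diagonal fun a => if C.hf a then 1 else 0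

theorem univ_e_mul {T : Type} [CommRing T] (x : Matrix C.I C.I T) (a b : C.I) :
    (C.univ_e T * x) a b = if C.hf a then x a b else 0 := by
  rw [univ_e, diagonal_mul, ite_mul, one_mul, zero_mul]

theorem univ_e_comm {T : Type} [CommRing T] {x : Matrix C.I C.I T}
    (h : ∀ a b, C.blk a ≠ C.blk b → x a b = 0) : x * C.univ_e T = C.univ_e T * x := by
  ext a b
  rw [univ_e, diagonal_mul, mul_diagonal, mul_comm]
  by_cases h1 : C.blk a = C.blk b
  · simp only [C.hf_blk h1]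
  · rw [h a b h1, mul_zero, mul_zero]

theorem univ_e_e {T : Type} [CommRing T] : C.univ_e T * C.univ_e T = C.univ_e T := by
  rw [univ_e, diagonal_mul_diagonal]
  congr 1
  funext a
  split_ifs <;> simp

theorem univ_adj_e {T : Type} [CommRing T] : C.adj (C.univ_e T) = 1 - C.univ_e T := by
  rw [univ_e, adj_diagonal, ← diagonal_one, diagonal_sub]
  congr 1
  funext a
  by_cases h : C.hf a
  · rw [if_pos h, if_neg fun h1 => (C.hf_rev a).1 h1 h, sub_self]
  · rw [if_neg h, if_pos ((C.hf_rev a).2 h), sub_zero]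

theorem univ_ext {T : Type} [CommRing T] {x y : GL C.I T} (hx : C.InG x) (hy : C.InG y)
    (h1 : ∀ a b, C.hf a → x.val a b = y.val a b) (h2 : C.sim x = C.sim y) : x = y := by
  have e1 : C.univ_e T * x.val = C.univ_e T * y.val := by
    ext a b
    rw [univ_e_mul, univ_e_mul]
    split_ifs with h
    · exact h1 a b h
    · rfl
  have e2 : C.univ_e T * x⁻¹.val = C.univ_e T * y⁻¹.val := by
    calc C.univ_e T * x⁻¹.val = y⁻¹.val * (y.val * C.univ_e T) * x⁻¹.val := by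
          rw [← Matrix.mul_assoc, Units.inv_mul, Matrix.one_mul]
      _ = C.univ_e T * y⁻¹.val := by
          rw [univ_e_comm hy.1, ← e1, Matrix.mul_assoc, Matrix.mul_assoc, Units.mul_inv,
            Matrix.mul_one, univ_e_comm hy.inv.1]
  refine C.gl_ext fun a b => ?_
  by_cases ha : C.hf a
  · exact h1 a b ha
  · by_cases hab : C.blk a = C.blk b
    · have hb : C.hf b.rev := (C.hf_rev b).2 fun h => ha ((C.hf_blk hab).2 h)
      have e3 := congrFun (congrFun e2 b.rev) a.rev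
      rw [univ_e_mul, univ_e_mul, if_pos hb, if_pos hb] at e3
      rw [← C.adj_adj x.val, ← C.adj_adj y.val, hx.adj_eq, hy.adj_eq, adj_ent, adj_ent,
        Matrix.smul_apply, Matrix.smul_apply, h2, e3]
    · rw [hx.1 a b hab, hy.1 a b hab]

theorem univ_mk {T : Type} [CommRing T] {Λ : C.Rel} {A : Matrix C.I C.I T} (hA : A ∈ univ_sh Λ T)
    (hd : IsUnit A.det) {c : T} (hc : IsUnit c) :
    ∃ x ∈ C.Pat Λ T, (∀ a b, C.hf a → x.val a b = A a b) ∧ C.sim x = c := by
  obtain ⟨A, rfl⟩ := (Matrix.isUnit_iff_isUnit_det _).2 hd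
  have hA' := univ_inv_mem _ A hA
  let X : Matrix C.I C.I T := C.univ_e T * A.val + c • (C.adj (C.univ_e T) * C.adj A⁻¹.val)
  have hX : ∀ a b, X a b = if C.hf a then A.val a b else c * A⁻¹.val b.rev a.rev := by
    intro a b
    simp only [X]
    rw [Matrix.add_apply, univ_e_mul, Matrix.smul_apply, univ_adj_e, Matrix.sub_mul,
      Matrix.one_mul, Matrix.sub_apply, univ_e_mul, adj_ent]
    split_ifs <;> simp
  have hz : ∀ a b, ¬ (C.blk a = C.blk b ∧ Λ.r a b) → X a b = 0 := by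
    intro a b h
    rw [hX, hA a b h, hA' b.rev a.rev fun h1 => h ⟨((C.blk_rev_iff b a).1 h1.1).symm, by
      simpa using Λ.mir _ _ h1.2⟩, mul_zero, ite_self]
  have z1 : C.adj (C.univ_e T) * C.univ_e T = 0 := by
    rw [univ_adj_e, Matrix.sub_mul, Matrix.one_mul, univ_e_e, sub_self]
  have z2 : C.univ_e T * C.adj (C.univ_e T) = 0 := by
    rw [univ_adj_e, Matrix.mul_sub, Matrix.mul_one, univ_e_e, sub_self]
  have z3 : A⁻¹.val * C.univ_e T * (C.univ_e T * A.val) = C.univ_e T := by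
    rw [Matrix.mul_assoc, ← Matrix.mul_assoc (C.univ_e T), univ_e_e,
      ← univ_e_comm fun a b h => hA a b fun h1 => h h1.1, ← Matrix.mul_assoc, Units.inv_mul,
      Matrix.one_mul]
  have z4 : C.adj A.val * C.adj (C.univ_e T) * (C.adj (C.univ_e T) * C.adj A⁻¹.val) =
      C.adj (C.univ_e T) := by
    rw [← adj_mul, ← adj_mul, ← adj_mul, z3]
  have h1 : C.adj X * X = c • (1 : Matrix C.I C.I T) := by
    simp only [X]
    rw [adj_add, adj_smul, adj_mul, adj_mul, adj_adj, adj_adj, Matrix.add_mul, Matrix.mul_add,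
      Matrix.mul_add, Matrix.mul_smul, Matrix.mul_smul, Matrix.smul_mul, Matrix.smul_mul, z3, z4,
      Matrix.mul_assoc, ← Matrix.mul_assoc _ (C.univ_e T), z1, Matrix.mul_assoc,
      ← Matrix.mul_assoc (C.univ_e T), z2, univ_adj_e]
    simp only [zero_mul, mul_zero, smul_sub, zero_add, coe_units_inv, smul_zero, add_zero, sub_add_cancel]
  have hu : IsUnit X := by
    obtain ⟨u, rfl⟩ := hc
    refine IsUnit.of_mul_eq_one_right ((u⁻¹ : Tˣ).val • C.adj X) ?_
    rw [Matrix.smul_mul, h1, smul_smul, Units.inv_mul, one_smul]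
  refine ⟨hu.unit, ⟨(C.inG_iff _).2 ⟨fun a b h => hz a b fun h1 => h h1.1, c, hc, h1⟩,
    fun a b h => hz a b fun h1 => h h1.2⟩, fun a b h => (hX a b).trans (if_pos h), ?_⟩
  rw [sim, IsUnit.unit_spec, h1, Matrix.smul_apply, Matrix.one_apply_eq, smul_eq_mul, mul_one]

open Classical in
/-- the blocks in `hf`, completed by the identity -/
def univ_cm {T : Type} [CommRing T] (Λ : C.Rel) (v : C.I → C.I → T) : Matrix C.I C.I T :=
  Matrix.of fun a b => if C.hf a ∧ C.blk a = C.blk b ∧ Λ.r a b then v a b else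
    if a = b then 1 else 0

theorem univ_cm_mem {T : Type} [CommRing T] (Λ : C.Rel) (v : C.I → C.I → T) :
    univ_cm Λ v ∈ univ_sh Λ T := fun a b h => by
  have : a ≠ b := fun e => h (e ▸ ⟨rfl, Λ.refl a⟩)
  rw [univ_cm, Matrix.of_apply, if_neg fun h1 => h h1.2, if_neg this]

theorem univ_cm_map {T T' : Type} [CommRing T] [CommRing T'] (Λ : C.Rel) (f : T →+* T')
    {v : C.I → C.I → T} {w : C.I → C.I → T'}
    (h : ∀ a b, C.hf a ∧ C.blk a = C.blk b ∧ Λ.r a b → f (v a b) = w a b) :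
    (univ_cm Λ v).map f = univ_cm Λ w := by
  ext a b
  simp only [univ_cm, Matrix.map_apply, Matrix.of_apply]
  split_ifs with h1
  · exact h a b h1
  · exact map_one f
  · exact map_zero f

theorem univ_cm_eq {T : Type} [CommRing T] {Λ : C.Rel} {x : GL C.I T} (hx : x ∈ C.Pat Λ T) :
    univ_cm Λ x.val = C.univ_e T * x.val + (1 - C.univ_e T) := by
  ext a b
  rw [Matrix.add_apply, univ_e_mul, univ_cm, Matrix.of_apply, ← Matrix.mul_one (C.univ_e T),
    Matrix.sub_apply, univ_e_mul, Matrix.one_apply]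
  by_cases ha : C.hf a
  · rw [if_pos ha, if_pos ha, sub_self, add_zero]
    by_cases h : C.blk a = C.blk b ∧ Λ.r a b
    · exact if_pos ⟨ha, h⟩
    · rw [if_neg fun h1 => h h1.2, if_neg fun e : a = b => h (e ▸ ⟨rfl, Λ.refl a⟩)]
      by_cases h1 : C.blk a = C.blk b
      · exact (Pat.zero hx fun h2 => h ⟨h1, h2⟩).symm
      · exact (Pat.blk hx h1).symm
  · rw [if_neg ha, if_neg ha, if_neg fun h1 => ha h1.1, sub_zero, zero_add]

theorem univ_cm_hf {T : Type} [CommRing T] {Λ : C.Rel} {x : GL C.I T} (hx : x ∈ C.Pat Λ T)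
    {a : C.I} (ha : C.hf a) (b : C.I) : univ_cm Λ x.val a b = x.val a b := by
  rw [univ_cm_eq hx, Matrix.add_apply, univ_e_mul, ← Matrix.mul_one (C.univ_e T),
    Matrix.sub_apply, univ_e_mul, if_pos ha, if_pos ha, sub_self, add_zero]

theorem univ_cm_det {T : Type} [CommRing T] {Λ : C.Rel} {x : GL C.I T} (hx : x ∈ C.Pat Λ T) :
    IsUnit (univ_cm Λ x.val).det := by
  rw [← Matrix.isUnit_iff_isUnit_det, univ_cm_eq hx]
  refine IsUnit.of_mul_eq_one (x⁻¹.val * C.univ_e T + (1 - C.univ_e T)) ?_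
  have z1 : C.univ_e T * x.val * (x⁻¹.val * C.univ_e T) = C.univ_e T := by
    rw [Matrix.mul_assoc, ← Matrix.mul_assoc x.val, Units.mul_inv, Matrix.one_mul, univ_e_e]
  have z2 : C.univ_e T * x.val * (1 - C.univ_e T) = 0 := by
    rw [← univ_e_comm hx.1.1, Matrix.mul_assoc, Matrix.mul_sub, Matrix.mul_one, univ_e_e, sub_self,
      Matrix.mul_zero]
  have z3 : (1 - C.univ_e T) * (x⁻¹.val * C.univ_e T) = 0 := by
    rw [univ_e_comm hx.1.inv.1, ← Matrix.mul_assoc, Matrix.sub_mul, Matrix.one_mul, univ_e_e,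
      sub_self, Matrix.zero_mul]
  have z4 : (1 - C.univ_e T) * (1 - C.univ_e T) = 1 - C.univ_e T := by
    rw [Matrix.mul_sub, Matrix.mul_one, Matrix.sub_mul, Matrix.one_mul, univ_e_e, sub_self,
      sub_zero]
  rw [Matrix.add_mul, Matrix.mul_add, Matrix.mul_add, z1, z2, z3, z4, add_zero, zero_add,
    add_sub_cancel]

/-- UNIV.  The groups `Pat Λ` are smooth.  An element of `G` is determined by its blocks in `hf`
(arbitrary invertible matrices) and its similitude: on the dual blocks it is `c * adj A⁻¹`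
(imitate `mkL` with `hf` in place of `lo`).  The inverse of an invertible block diagonal matrix of
shape `Λ` has shape `Λ` (Cayley-Hamilton, `Matrix.aeval_self_charpoly`, or `adjugate`). -/
theorem Pat.lift {T T' : Type} [CommRing T] [CommRing T'] {Λ : C.Rel} (f : T →+* T') [IsLocalHom f]
    (hf : Function.Surjective f) {x' : GL C.I T'} (hx : x' ∈ C.Pat Λ T') :
    ∃ x ∈ C.Pat Λ T, C.mp f x = x' := by
  choose g hg using hf
  have e : (univ_cm Λ fun a b => g (x'.val a b)).map f = univ_cm Λ x'.val :=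
    univ_cm_map Λ f fun a b _ => hg _
  have hd : IsUnit (univ_cm Λ fun a b => g (x'.val a b)).det := by
    refine IsUnit.of_map f _ ?_
    rw [RingHom.map_det, RingHom.mapMatrix_apply, e]
    exact univ_cm_det hx
  have hc : IsUnit (g (C.sim x')) := IsUnit.of_map f _ (by
    rw [hg]; exact hx.1.sim_unit)
  obtain ⟨x, h1, h2, h3⟩ := univ_mk (univ_cm_mem Λ _) hd hc
  refine ⟨x, h1, univ_ext (h1.1.map f) hx.1 (fun a b ha => ?_) ?_⟩
  · rw [mp_val, h2 a b ha, ← univ_cm_hf hx ha, ← e, Matrix.map_apply]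
  · rw [sim_mp, h3, hg]

variable (C) in
/-- the coordinate ring of `Pat Λ` -/
structure UR (Λ : C.Rel) where
  R : Type
  [cr : CommRing R]
  [alg : Algebra C.k R]
  ft : Algebra.FiniteType C.k R
  dom : IsDomain R
  ufd : UniqueFactorizationMonoid R
  m : GL C.I R
  mem : m ∈ C.Pat Λ R
  lift : ∀ (S : Type) [CommRing S] [Algebra C.k S] (x : GL C.I S), x ∈ C.Pat Λ S →
    ∃ ρ : R →ₐ[C.k] S, C.ma ρ m = x
  ext : ∀ (S : Type) [CommRing S] [Algebra C.k S] (ρ ρ' : R →ₐ[C.k] S), C.ma ρ m = C.ma ρ' m → ρ = ρ'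

attribute [instance] UR.cr UR.alg UR.ft UR.dom UR.ufd

variable (C) in
/-- a versal element of the zip group -/
structure VE where
  R : Type
  [cr : CommRing R]
  [alg : Algebra C.k R]
  ft : Algebra.FiniteType C.k R
  dom : IsDomain R
  x : GL C.I R
  y : GL C.I R
  he : C.E x y
  lift : ∀ (S : Type) [CommRing S] [Algebra C.k S] (x' y' : GL C.I S), C.E x' y' →
    ∃ ρ : R →ₐ[C.k] S, C.ma ρ x = x' ∧ C.ma ρ y = y'

attribute [instance] VE.cr VE.alg VE.ft VE.dom

theorem univ_exists (Λ : C.Rel) (A : Type) [CommRing A] [IsDomain A] :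
    ∃ (R : Type) (_ : CommRing R) (_ : Algebra A R), Algebra.FiniteType A R ∧ IsDomain R ∧
      (UniqueFactorizationMonoid A → UniqueFactorizationMonoid R) ∧ ∃ m ∈ C.Pat Λ R,
      (∀ (T : Type) [CommRing T] [Algebra A T] (x : GL C.I T), x ∈ C.Pat Λ T →
        ∃ ρ : R →ₐ[A] T, C.mp (ρ : R →+* T) m = x) ∧
      ∀ (T : Type) [CommRing T] [Algebra A T] (ρ ρ' : R →ₐ[A] T),
        C.mp (ρ : R →+* T) m = C.mp (ρ' : R →+* T) m → ρ = ρ' := by
  classical
  let V : Type := Option {q : C.I × C.I // C.hf q.1 ∧ C.blk q.1 = C.blk q.2 ∧ Λ.r q.1 q.2}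
  let v : C.I → C.I → MvPolynomial V A := fun a b =>
    if h : C.hf a ∧ C.blk a = C.blk b ∧ Λ.r a b then MvPolynomial.X (some ⟨(a, b), h⟩) else 0
  let d : MvPolynomial V A := (univ_cm Λ v).det * MvPolynomial.X none
  have key : ∀ (T : Type) [CommRing T] [Algebra A T] (x : GL C.I T), x ∈ C.Pat Λ T →
      ∃ φ : MvPolynomial V A →ₐ[A] T, (univ_cm Λ v).map φ = univ_cm Λ x.val ∧
        φ (MvPolynomial.X none) = C.sim x ∧ IsUnit (φ d) := by
    intro T _ _ x hx
    let φ : MvPolynomial V A →ₐ[A] T :=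
      MvPolynomial.aeval fun o => Option.elim o (C.sim x) fun q => x.val q.1.1 q.1.2
    have e1 : (univ_cm Λ v).map φ = univ_cm Λ x.val :=
      univ_cm_map Λ (φ : MvPolynomial V A →+* T) fun a b h => by
        simp only [v, dif_pos h]
        exact MvPolynomial.aeval_X _ _
    have e2 : φ (MvPolynomial.X none) = C.sim x := MvPolynomial.aeval_X _ _
    refine ⟨φ, e1, e2, ?_⟩
    rw [map_mul, AlgHom.map_det, AlgHom.mapMatrix_apply, e1, e2]
    exact (univ_cm_det hx).mul hx.1.sim_unit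
  have hd : d ≠ 0 := by
    intro h0
    obtain ⟨φ, -, -, h⟩ := key A 1 (one_mem _)
    rw [h0, map_zero] at h
    exact not_isUnit_zero h
  have hu : IsUnit (algebraMap (MvPolynomial V A) (Localization.Away d) d) :=
    IsLocalization.Away.algebraMap_isUnit d
  rw [map_mul, IsUnit.mul_iff, RingHom.map_det, RingHom.mapMatrix_apply,
    univ_cm_map Λ _ fun a b _ => rfl] at hu
  obtain ⟨m, hm, h2, h3⟩ := univ_mk (univ_cm_mem Λ _) hu.1 hu.2
  rw [← univ_cm_map Λ (algebraMap (MvPolynomial V A) (Localization.Away d)) (v := v)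
    fun a b _ => rfl] at h2
  have fp : Algebra.FinitePresentation (MvPolynomial V A) (Localization.Away d) :=
    IsLocalization.Away.finitePresentation d
  refine ⟨Localization.Away d, inferInstance, inferInstance,
    Algebra.FiniteType.trans (S := MvPolynomial V A) inferInstance inferInstance,
    IsLocalization.isDomain_localization (powers_le_nonZeroDivisors_of_noZeroDivisors hd),
    fun _ => inferInstance, m, hm, fun T _ _ x hx => ?_, fun T _ _ ρ ρ' h => ?_⟩
  · obtain ⟨φ, e1, e2, e3⟩ := key T x hx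
    have hy : ∀ y : Submonoid.powers d, IsUnit (φ y) := by
      rintro ⟨_, n, rfl⟩
      rw [map_pow]
      exact e3.pow n
    have e4 : ∀ r, (IsLocalization.liftAlgHom hy : Localization.Away d →ₐ[A] T)
        (algebraMap _ _ r) = φ r := fun r => by
      rw [IsLocalization.liftAlgHom_apply, IsLocalization.lift_eq]
      rfl
    refine ⟨IsLocalization.liftAlgHom hy, univ_ext (hm.1.map _) hx.1 (fun a b ha => ?_) ?_⟩
    · rw [mp_val, h2 a b ha, ← univ_cm_hf hx ha, ← e1, Matrix.map_apply, Matrix.map_apply]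
      exact e4 _
    · rw [sim_mp, h3, ← e2]
      exact e4 _
  · refine IsLocalization.algHom_ext (Submonoid.powers d) (MvPolynomial.algHom_ext fun o => ?_)
    rcases o with _ | ⟨⟨a, b⟩, hab⟩
    · have h4 := congrArg C.sim h
      rw [sim_mp, sim_mp, h3] at h4
      exact h4
    · have h4 := congrArg (fun z : GL C.I T => z.val a b) h
      simp only [mp_val, h2 a b hab.1, Matrix.map_apply, univ_cm, Matrix.of_apply, if_pos hab, v,
        dif_pos hab] at h4
      exact h4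

/-- UNIV.  Localisation of the polynomial ring in the entries `(a, b)` with `hf a`, `blk a = blk b`,
`Λ.r a b` and the similitude at `det * c` (as for `RL`;
`UniqueFactorizationMonoid.of_isLocalization`).  Do the construction over an arbitrary base
`k`-algebra `A`, it is needed for `exists_VE`. -/
theorem exists_UR (Λ : C.Rel) : Nonempty (C.UR Λ) := by
  obtain ⟨R, _, _, h1, h2, h3, m, hm, h4, h5⟩ := univ_exists Λ C.k
  exact ⟨⟨R, h1, h2, h3 inferInstance, m, hm, h4, h5⟩⟩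

/-- UNIV.  The coordinate ring of `Q` over the coordinate ring of `P`; with the universal elements
`x₀ ∈ P`, `q₀ ∈ Q` take `x = x₀`, `y = fr (lev x₀) * (lq' q₀)⁻¹ * q₀`. -/
theorem exists_VE : Nonempty C.VE := by
  obtain ⟨𝒢⟩ := exists_UR C.rP
  obtain ⟨R, _, _, h1, h2, -, q, hq, h4, -⟩ := univ_exists C.rQ 𝒢.R
  let : Algebra C.k R := ((algebraMap 𝒢.R R).comp (algebraMap C.k 𝒢.R)).toAlgebra
  have : IsScalarTower C.k 𝒢.R R := IsScalarTower.of_algebraMap_eq fun _ => rfl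
  have hx : C.mp (algebraMap 𝒢.R R) 𝒢.m ∈ C.P R := Pat.map _ 𝒢.mem
  have hl : C.fr (C.lev (C.mp (algebraMap 𝒢.R R) 𝒢.m)) ∈ C.M R := fr_L (lev_mem (Or.inl hx))
  have hr : (C.lq' q)⁻¹ * q ∈ C.Q R := mul_mem (inv_mem (Lv.lev_pat ovQ hq hq)) hq
  refine ⟨⟨R, Algebra.FiniteType.trans (S := 𝒢.R) inferInstance h1, h2,
    C.mp (algebraMap 𝒢.R R) 𝒢.m,
    C.fr (C.lev (C.mp (algebraMap 𝒢.R R) 𝒢.m)) * ((C.lq' q)⁻¹ * q),
    E_iff.2 ⟨hx, mul_mem (M_le_Q hl) hr, ?_⟩, fun T _ _ x' y' h => ?_⟩⟩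
  · rw [lq', Lv.lev_mul ovQ (M_le_Q hl) hr, Lv.lev_lev_inv_mul ovQ hq, mul_one,
      Lv.lev_of_mem (Λ := C.lvM) hl]
  · obtain ⟨ρ₁, e1⟩ := 𝒢.lift T x' h.memP
    let : Algebra 𝒢.R T := (ρ₁ : 𝒢.R →+* T).toAlgebra
    have : IsScalarTower C.k 𝒢.R T :=
      IsScalarTower.of_algebraMap_eq fun r => (ρ₁.commutes r).symm
    obtain ⟨ρ₂, e2⟩ := h4 T y' h.memQ
    have e3 : C.mp (ρ₂ : R →+* T) (C.mp (algebraMap 𝒢.R R) 𝒢.m) = x' := by
      rw [← mp_comp, ρ₂.comp_algebraMap]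
      exact e1
    refine ⟨ρ₂.restrictScalars C.k, e3, ?_⟩
    show C.mp (ρ₂ : R →+* T) _ = y'
    rw [map_mul, map_mul, map_inv, ← fr_mp, ← lev_mp _ (Or.inl hx), lq', ← Lv.lev_mp ovQ _ hq, e2,
      e3, ← (E_iff.1 h).2.2, mul_inv_cancel_left]

namespace UR

variable {Λ : C.Rel} (𝒢 : C.UR Λ)

open Classical in
/-- evaluation at a point -/
def ev (x : GL C.I S) : 𝒢.R →ₐ[C.k] S :=
  if h : x ∈ C.Pat Λ S then (𝒢.lift S x h).choose else (𝒢.lift S 1 (one_mem _)).choose

theorem ev_m {x : GL C.I S} (h : x ∈ C.Pat Λ S) : C.ma (𝒢.ev x) 𝒢.m = x := by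
  rw [ev, dif_pos h]
  exact (𝒢.lift S x h).choose_spec

theorem ev_comp (f : S →ₐ[C.k] S') {x : GL C.I S} (h : x ∈ C.Pat Λ S) :
    f.comp (𝒢.ev x) = 𝒢.ev (C.ma f x) := by
  refine 𝒢.ext _ _ _ ?_
  rw [𝒢.ev_m (Pat.map _ h)]
  exact congrArg (C.ma f) (𝒢.ev_m h)

theorem ev_ma (ρ : 𝒢.R →ₐ[C.k] S) : 𝒢.ev (C.ma ρ 𝒢.m) = ρ :=
  𝒢.ext _ _ _ (𝒢.ev_m (Pat.map _ 𝒢.mem))

end UR

end Ctx

end Pool.Agent.MP_b8b722_ag

end

end partUniv
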