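import Pool.Agent.MP_b8b722_ag.A3
import Pool.Agent.MP_b8b722_ag.A1

attribute [-instance] UniqueFactorizationMonoid.toIsWellFounded RKHS.instFunLike
  MonTypeEquivalenceMon.monMonoid littleWedderburn SemilinearMapClass.distribMulActionSemiHomClass
  AddQuantale.instAddLeftMono instCharZeroOfIsSemireal TestFunctionClass.toDFunLike
  ContDiffMapSupportedInClass.toDFunLike IdemSemiring.toSemiring CompletePartialOrder.toPartialOrder
  NumberField.to_charZero instCoeTCOfCoe AddQuantale.instAddRightMono NormedField.toField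
  SemilinearMapClass.toAddHomClass CommMonTypeEquivalenceCommMon.commMonCommMonoid instCoeTOfCoeDep
  NeZero.of_gt' NonUnitalAlgHomClass.toNonUnitalRingHomClass instCoeOutOfCoeFun NormedRing.toRing
  BialgHomClass.toMonoidHomClass NonUnitalRing.toNonUnitalNonAssocRing
  ContinuousMonoidHom.instCoeOutOfMonoidHomClassOfContinuousMapClass RCLike.charZero_rclike
  Quantale.instMulRightMono instCoeHTCTOfCoeTailOfCoeHTC
  LinearOrderedCommMonoidWithZero.toPosMulStrictMono MulSemiringAction.toDistribMulAction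
  Prod.instAddCommMonoid instCoeOutOfCoeSort Invertible.toNeZero
  instNonUnitalAlgHomClassOfNonUnitalAlgEquivClass NormedCommRing.toCommRing
  IdemCommSemiring.toCommSemiring BialgHomClass.toAlgHomClass IsometryClass.instCoeOutIsometryEquiv
  AddCommGroupWithOne.toAddGroupWithOne NonUnitalNonAssocSemiring.toMulZeroClass
  SeminormedRing.toRing NormedDivisionRing.toDivisionRing IdemSemiring.toCanonicallyOrderedAdd
  OmegaCompletePartialOrder.toPartialOrder MulCharClass.toMonoidHomClass BooleanRing.toRing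
  Fintype.decidableExistsFintype EuclideanDomain.toCommRing SeminormedCommRing.toCommRing
  HomeomorphClass.instCoeOutHomeomorph DivisionRing.toDivisionSemiring
  ContinuousAddMonoidHom.instCoeOutOfAddMonoidHomClassOfContinuousMapClass
  LieAdmissibleRing.toNonUnitalNonAssocRing ChainCompletePartialOrder.toPartialOrder
  MulDistribMulActionSemiHomClass.toMonoidHomClass ValuationClass.toMonoidWithZeroHomClass
  GrpTypeEquivalenceGrp.grpGroup GeneralizedCoheytingAlgebra.toLattice MonoidWithZero.toMonoid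
  Prod.instAddGroup NonUnitalSemiring.toNonUnitalNonAssocSemiring

section partLin

/-!
Linear algebra in the cocharacter space.
-/

set_option linter.unusedSectionVars false
set_option linter.unusedVariables false

open Matrix

noncomputable section

namespace Pool.Agent.MP_b8b722_ag

/-- `1 - p π` is invertible up to the factor `p ^ r - 1`, `π ^ r = 1`:
`θ = ∑_{n < r} p ^ n • c ∘ π ^ n`. -/
theorem exists_solve {I : Type} [Fintype I] (π : Equiv.Perm I) {p : ℕ} (hp : 1 < p) :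
    ∃ M : ℕ, 0 < M ∧ ∀ c : I → ℤ, ∃ θ : I → ℤ, ∀ a, θ a - p * θ (π a) = - M * c a := by
  have hr : 0 < orderOf π := orderOf_pos π
  have h1 : 1 < p ^ orderOf π := Nat.one_lt_pow hr.ne' hp
  refine ⟨p ^ orderOf π - 1, Nat.sub_pos_of_lt h1, fun c =>
    ⟨fun a => ∑ n ∈ Finset.range (orderOf π), (p : ℤ) ^ n * c ((π ^ n) a), fun a => ?_⟩⟩
  have h2 := Finset.sum_range_sub' (fun n => (p : ℤ) ^ n * c ((π ^ n) a)) (orderOf π)
  simp only [pow_orderOf_eq_one, pow_zero, Equiv.Perm.one_apply, one_mul] at h2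
  have h3 : (p : ℤ) * ∑ n ∈ Finset.range (orderOf π), (p : ℤ) ^ n * c ((π ^ n) (π a)) =
      ∑ n ∈ Finset.range (orderOf π), (p : ℤ) ^ (n + 1) * c ((π ^ (n + 1)) a) := by
    rw [Finset.mul_sum]
    refine Finset.sum_congr rfl fun n _ => ?_
    rw [pow_succ π, Equiv.Perm.mul_apply, pow_succ]
    ring
  rw [h3, ← Finset.sum_sub_distrib, h2, Nat.cast_sub h1.le]
  push_cast
  ring

/-- maximum principle -/
theorem nonpos_of_step {I : Type} [Finite I] (π : I → I) {p : ℝ} (hp : 1 < p) (f : I → ℝ)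
    (h : ∀ a, p * f (π a) ≤ f a) (hπ : Function.Surjective π) (a : I) : f a ≤ 0 := by
  have : Nonempty I := ⟨a⟩
  obtain ⟨m, hm⟩ := Finite.exists_max f
  obtain ⟨b, rfl⟩ := hπ m
  have h1 := (h b).trans (hm b)
  have h2 : f (π b) ≤ 0 := by
    by_contra h3
    nlinarith only [hp, h1, h3]
  exact (hm a).trans h2

theorem solve_unique {I : Type} [Finite I] (π : Equiv.Perm I) {p : ℝ} (hp : 1 < p) (f : I → ℝ)
    (h : ∀ a, p * f (π a) = f a) (a : I) : f a = 0 := by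
  have h1 := nonpos_of_step π hp f (fun a => (h a).le) π.surjective a
  have h2 := nonpos_of_step π hp (fun a => - f a) (fun a => by
    rw [← h a, mul_neg]) π.surjective a
  linarith

namespace Ctx

variable {C : Ctx}

theorem exists_isEta (i j : C.I) : ∃ M η, C.IsEta i j M η := by
  obtain ⟨M, hM, h⟩ := exists_solve C.σ.symm C.hp.one_lt
  obtain ⟨θ, hθ⟩ := h fun a => - C.cv i j a
  exact ⟨M, θ, hM, fun a => by linear_combination - hθ a⟩

theorem lina_one_lt : (1 : ℝ) < C.p := by exact_mod_cast C.hp.one_lt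

theorem lina_symm_rev (a : C.I) : C.σ.symm a.rev = (C.σ.symm a).rev := by
  rw [Equiv.symm_apply_eq, C.σ_rev, Equiv.apply_symm_apply]

theorem IsEta.rev {i j : C.I} {M : ℕ} {η : C.I → ℤ} (h : C.IsEta i j M η) (hij : i ≠ j) (a : C.I) :
    η a.rev = - η a := by
  have h1 := solve_unique C.σ.symm lina_one_lt (fun a => ((η a.rev + η a : ℤ) : ℝ)) (fun a => by
    have h2 := h.2 a
    have h3 := h.2 a.rev
    rw [lina_symm_rev, cv_rev hij] at h3
    have h4 : (C.p : ℤ) * (η (C.σ.symm a).rev + η (C.σ.symm a)) = η a.rev + η a := by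
      linear_combination h2 + h3
    exact_mod_cast h4) a
  have h2 : η a.rev + η a = 0 := by exact_mod_cast h1
  linear_combination h2

theorem lina_symm_lt {a b : C.I} (hb : C.blk a = C.blk b) (hab : a < b) :
    C.blk (C.σ.symm a) = C.blk (C.σ.symm b) ∧ C.σ.symm a < C.σ.symm b := by
  have h1 : C.blk (C.σ.symm a) = C.blk (C.σ.symm b) := (C.σ_blk _ _).1 (by simpa using hb)
  refine ⟨h1, lt_of_not_ge fun h2 => ?_⟩
  rcases h2.eq_or_lt with h3 | h3
  · exact hab.ne' (C.σ.symm.injective h3)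
  · have h4 := C.σ_mono _ _ h1.symm h3
    rw [Equiv.apply_symm_apply, Equiv.apply_symm_apply] at h4
    exact hab.not_gt h4

variable (C) in
/-- `β ∈ Δ^Q` -/
def TopQ (β : C.Sp) : Prop := C.lq β.i ∧ ¬ C.lq β.j

variable (C) in
/-- the grading cocharacter `ξ` -/
def IsXi (ξ : C.I → ℤ) : Prop :=
  (∀ a, ξ a.rev = - ξ a) ∧ (∀ β : C.Sp, C.TopQ β → ξ β.i - ξ β.j = 1) ∧
    ∀ a b, C.blk a = C.blk b → (C.lo a ↔ C.lo b) → ξ (C.σ a) - ξ (C.σ b) = C.p * (ξ a - ξ b)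

/-- `y_β = M - ⟨β, η⟩` -/
def yb (β : C.Sp) (M : ℕ) (η : C.I → ℤ) : ℤ := M - (η β.i - η β.j)

/-- position in the block -/
def lina_pos (c : C.I) : ℕ := (Finset.univ.filter fun d => C.blk d = C.blk c ∧ d < c).card

theorem lina_pos_σ (n : ℕ) (c : C.I) : lina_pos ((C.σ ^ n) c) = lina_pos c := by
  refine (Finset.card_equiv (C.σ ^ n) fun d => ?_).symm
  simp only [Finset.mem_filter, Finset.mem_univ, true_and]
  rw [C.σ_pow_blk]
  exact and_congr_right fun h => (C.σ_pow_lt n h).symm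

theorem lina_pos_lt {c d : C.I} (hb : C.blk c = C.blk d) (h : c < d) : lina_pos c < lina_pos d := by
  refine Finset.card_lt_card ((Finset.ssubset_iff_of_subset fun e he => ?_).2 ⟨c, ?_, ?_⟩)
  · simp only [Finset.mem_filter, Finset.mem_univ, true_and] at he ⊢
    exact ⟨he.1.trans hb, he.2.trans h⟩
  · exact Finset.mem_filter.2 ⟨Finset.mem_univ _, hb, h⟩
  · exact fun he => lt_irrefl c (Finset.mem_filter.1 he).2.2

theorem lina_pos_lo {c : C.I} (h : C.lo c) : lina_pos c < C.r c := by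
  refine Finset.card_lt_card ((Finset.ssubset_iff_of_subset fun e he => ?_).2 ⟨c, ?_, ?_⟩)
  · simp only [Finset.mem_filter, Finset.mem_univ, true_and] at he ⊢
    exact ⟨he.1, C.lo_of_le he.2.le h⟩
  · exact Finset.mem_filter.2 ⟨Finset.mem_univ _, rfl, h⟩
  · exact fun he => lt_irrefl c (Finset.mem_filter.1 he).2.2

theorem lina_pos_hi {c : C.I} (h : ¬ C.lo c) : C.r c ≤ lina_pos c := by
  refine Finset.card_le_card fun e he => ?_
  simp only [Finset.mem_filter, Finset.mem_univ, true_and] at he ⊢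
  exact ⟨he.1, C.lt_of_lo he.2 h⟩

theorem lina_r_blk {c d : C.I} (h : C.blk c = C.blk d) : C.r c = C.r d := by
  unfold Datum.r
  rw [h]

theorem lina_s_blk {c d : C.I} (h : C.blk c = C.blk d) : C.s c = C.s d := by
  unfold Datum.s
  rw [h]

theorem lina_r_rev (c : C.I) : C.r c.rev = C.s c := by
  refine (Finset.card_equiv Fin.revPerm fun d => ?_).symm
  simp only [Finset.mem_filter, Finset.mem_univ, true_and, Fin.revPerm_apply]
  rw [C.blk_rev_iff]
  exact and_congr_right fun _ => ((C.lo_rev d).trans not_lt).symm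

theorem lina_s_pos {c : C.I} (h : ¬ C.lo c) : 0 < C.s c :=
  Finset.card_pos.2 ⟨c, Finset.mem_filter.2 ⟨Finset.mem_univ _, rfl, not_lt.1 h⟩⟩

theorem lina_le_top {u v d : C.I} (h : C.Simple u v) (hv : ¬ C.lo v) (hb : C.blk d = C.blk u)
    (hd : C.lo d) : d ≤ u :=
  not_lt.1 fun h1 => h.2.2 d hb ⟨h1, C.lt_of_lo hd hv⟩

theorem lina_top_le {u v d : C.I} (h : C.Simple u v) (hu : C.lo u) (hb : C.blk d = C.blk u)
    (hd : ¬ C.lo d) : v ≤ d :=
  not_lt.1 fun h1 => h.2.2 d hb ⟨C.lt_of_lo hu hd, h1⟩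

theorem lina_pos_u {u v : C.I} (h : C.Simple u v) (hv : ¬ C.lo v) : C.r u ≤ lina_pos u + 1 := by
  refine le_trans (Finset.card_le_card fun e he => ?_) (Finset.card_insert_le u _)
  simp only [Finset.mem_filter, Finset.mem_univ, true_and, Finset.mem_insert] at he ⊢
  exact (lina_le_top h hv he.1 he.2).eq_or_lt.imp_right fun h1 => ⟨he.1, h1⟩

theorem lina_pos_v {u v : C.I} (h : C.Simple u v) (hu : C.lo u) : lina_pos v ≤ C.r v := by
  refine Finset.card_le_card fun e he => ?_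
  simp only [Finset.mem_filter, Finset.mem_univ, true_and] at he ⊢
  exact ⟨he.1, C.lo_of_le (not_lt.1 fun h1 => h.2.2 e (he.1.trans h.1.symm) ⟨h1, he.2⟩) hu⟩

theorem lina_sig (hD : C.Sig) {u v a b : C.I} (h : C.Simple u v) (hu : C.lo u) (hv : ¬ C.lo v)
    (hb : C.blk a = C.blk b) (ha : C.lo a) (hb' : ¬ C.lo b) (n : ℕ)
    (hn : (C.σ ^ n) a = v ∨ (C.σ ^ n) b = u) : a = v.rev ∨ b = u.rev := by
  have hx : C.blk ((C.σ ^ n) a) = C.blk u := by
    rcases hn with e | e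
    · rw [e, h.1]
    · rw [← e, C.σ_pow_blk, hb]
  have p1 := lina_pos_lo ha
  have p2 := lina_pos_hi hb'
  have p3 := lina_pos_lo hu
  have p4 := lina_pos_hi hv
  have p5 := lina_pos_u h hv
  have p6 := lina_pos_v h hu
  have r1 := lina_r_blk hb
  have r2 := lina_r_blk h.1
  have r3 := lina_r_blk hx
  have s1 : 0 < C.s a := by rw [lina_s_blk hb]; exact lina_s_pos hb'
  have s2 : 0 < C.s ((C.σ ^ n) a) := by rw [lina_s_blk (hx.trans h.1)]; exact lina_s_pos hv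
  have q : lina_pos a = lina_pos v ∨ lina_pos b = lina_pos u :=
    hn.imp (fun e => by rw [← e, lina_pos_σ]) fun e => by rw [← e, lina_pos_σ]
  rcases hD a n (by omega) s1 (by omega) s2 with e | ⟨e, e'⟩
  · omega
  by_contra hc
  obtain ⟨c1, c2⟩ := not_or.1 hc
  have h' := simple_rev h
  have lv : C.lo v.rev := (C.lo_rev v).2 hv
  have lu : ¬ C.lo u.rev := fun h1 => (C.lo_rev u).1 h1 hu
  have hab : C.blk a = C.blk v.rev := by
    rw [← C.blk_rev_iff, Fin.rev_rev, ← e, hx, h.1]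
  have l1 : a < v.rev := lt_of_le_of_ne (lina_le_top h' lu hab ha) c1
  have l2 : u.rev < b := lt_of_le_of_ne (lina_top_le h' lv (hb.symm.trans hab) hb') (Ne.symm c2)
  have hub : C.blk u.rev = C.blk b := (h'.1.symm.trans hab.symm).trans hb
  have p7 := lina_pos_lt hab l1
  have p8 := lina_pos_lt hub l2
  have p9 := lina_pos_lo lv
  have p10 := lina_pos_hi lu
  have r4 := lina_r_blk hab
  have r5 := lina_r_blk hub
  have r6 : C.r ((C.σ ^ n) a) = C.s a := by rw [lina_r_blk e, lina_r_rev]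
  have s3 : 1 < C.s a := Finset.one_lt_card.2
    ⟨u.rev, Finset.mem_filter.2 ⟨Finset.mem_univ _, hub.trans hb.symm, not_lt.1 lu⟩,
      b, Finset.mem_filter.2 ⟨Finset.mem_univ _, hb.symm, not_lt.1 hb'⟩, l2.ne⟩
  omega

theorem lina_cv_σ (i j a : C.I) : C.cv (C.σ i) (C.σ j) (C.σ a) = C.cv i j a := by
  simp only [cv, ← C.σ_rev, C.σ.injective.eq_iff]

theorem lina_simple (a b : C.I) : C.Simple (C.σ a) (C.σ b) ↔ C.Simple a b := by
  refine ⟨fun h => ?_, fun h => simple_σ h 1⟩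
  have h1 := (C.σ_blk a b).1 h.1
  exact ⟨h1, (C.σ_lt h1).1 h.2.1, fun m hm hl => h.2.2 (C.σ m) ((C.σ_blk m a).2 hm)
    ⟨(C.σ_lt hm.symm).2 hl.1, (C.σ_lt (hm.trans h1)).2 hl.2⟩⟩

theorem lina_cv_le (i j a : C.I) : C.cv i j a ≤ 1 := by
  unfold cv
  split_ifs <;> norm_num

theorem lina_cv_ge (i j a : C.I) : -1 ≤ C.cv i j a := by
  unfold cv
  split_ifs <;> norm_num

theorem lina_cv_nonneg {i j a : C.I} (h : ¬ (a = j ∨ a = i.rev)) : 0 ≤ C.cv i j a := by
  unfold cv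
  rw [if_neg h]
  split_ifs <;> norm_num

theorem lina_cv_nonpos {i j a : C.I} (h : ¬ (a = i ∨ a = j.rev)) : C.cv i j a ≤ 0 := by
  unfold cv
  rw [if_neg h]
  split_ifs <;> norm_num

theorem lina_cv_diff {i j x y : C.I} (h : C.Simple i j) (hb : C.blk x = C.blk y) (hxy : x < y) :
    C.cv i j y - C.cv i j x ≤ 1 := by
  have h1 := lina_cv_le i j y
  have h2 := lina_cv_ge i j x
  by_cases h3 : x = j ∨ x = i.rev
  · have h4 : ¬ (y = i ∨ y = j.rev) := by
      rcases h3 with rfl | rfl <;> rintro (rfl | rfl)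
      · exact hxy.not_gt h.2.1
      · exact C.blk_ne _ hb.symm
      · exact C.blk_ne _ hb
      · exact hxy.not_gt (Fin.rev_lt_rev.2 h.2.1)
    have := lina_cv_nonpos h4
    omega
  · have := lina_cv_nonneg h3
    omega

theorem lina_bound {β : C.Sp} {M : ℕ} {η : C.I → ℤ} (h : C.IsEta β.i β.j M η) {x y : C.I}
    (hb : C.blk x = C.blk y) (hxy : x < y) : η x - η y ≤ M := by
  let P := {q : C.I × C.I // C.blk q.1 = C.blk q.2 ∧ q.1 < q.2}
  let π : P → P := fun q => ⟨(C.σ.symm q.1.1, C.σ.symm q.1.2), lina_symm_lt q.2.1 q.2.2⟩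
  have hπ : Function.Surjective π := fun q =>
    ⟨⟨(C.σ q.1.1, C.σ q.1.2), (C.σ_blk _ _).2 q.2.1, C.σ_mono _ _ q.2.1 q.2.2⟩,
      Subtype.ext (Prod.ext (C.σ.symm_apply_apply _) (C.σ.symm_apply_apply _))⟩
  have hp : (2 : ℤ) ≤ C.p := by exact_mod_cast C.hp.two_le
  have h1 := nonpos_of_step π lina_one_lt (fun q => ((η q.1.1 - η q.1.2 - M : ℤ) : ℝ))
    (fun q => by
      have h2 := h.2 q.1.1
      have h3 := h.2 q.1.2
      have h4 := lina_cv_diff β.h q.2.1 q.2.2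
      have h5 : (0 : ℤ) ≤ M := Int.natCast_nonneg M
      have h6 : (C.p : ℤ) * (η (C.σ.symm q.1.1) - η (C.σ.symm q.1.2) - M) ≤
          η q.1.1 - η q.1.2 - M := by
        have := mul_nonneg h5 (sub_nonneg.2 h4)
        have := mul_nonneg h5 (sub_nonneg.2 hp)
        linarith
      exact_mod_cast h6) hπ ⟨(x, y), hb, hxy⟩
  have h2 : η x - η y - M ≤ 0 := by exact_mod_cast h1
  linarith only [h2]

/-- LINA.  Paper 1.1. -/
theorem IsEta.kst (hD : C.Sig) {β : C.Sp} (hβ : C.TopQ β) {M : ℕ} {η : C.I → ℤ}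
    (h : C.IsEta β.i β.j M η) {a b : C.I} (hb : C.blk a = C.blk b) (ha : C.lo a) (hb' : ¬ C.lo b) :
    η a ≤ η b := by
  obtain ⟨i, hi⟩ := C.σ.surjective β.i
  obtain ⟨j, hj⟩ := C.σ.surjective β.j
  have hs : C.Simple i j := (lina_simple i j).1 (by rw [hi, hj]; exact β.h)
  have li : C.lo i := (C.lq_σ i).1 (by rw [hi]; exact hβ.1)
  have lj : ¬ C.lo j := fun h1 => hβ.2 (by rw [← hj]; exact (C.lq_σ j).2 h1)
  have lj' : C.lo j.rev := (C.lo_rev j).2 lj
  have li' : ¬ C.lo i.rev := fun h1 => (C.lo_rev i).1 h1 li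
  have hab := C.lt_of_lo ha hb'
  have hM : (0 : ℤ) < M := by exact_mod_cast h.1
  have hp : (2 : ℤ) ≤ C.p := by exact_mod_cast C.hp.two_le
  have step : ∀ c, (C.p : ℤ) * η c = η (C.σ c) - M * C.cv i j c := fun c => by
    have h1 := h.2 (C.σ c)
    rw [Equiv.symm_apply_apply, ← hi, ← hj, lina_cv_σ] at h1
    linear_combination h1
  have bd : ∀ n : ℕ, η ((C.σ ^ n) a) - η ((C.σ ^ n) b) ≤ M := fun n =>
    lina_bound h ((C.σ_pow_blk n a b).2 hb) ((C.σ_pow_lt n hb).2 hab)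
  by_contra hc
  have hc' : 1 ≤ η a - η b := by omega
  have ca : 0 ≤ C.cv i j a := lina_cv_nonneg (by rintro (rfl | rfl); exacts [lj ha, li' ha])
  have cb : C.cv i j b ≤ 0 := lina_cv_nonpos (by rintro (rfl | rfl); exacts [hb' li, hb' lj'])
  have t0 : C.cv i j a - C.cv i j b ≤ 0 := by
    by_contra h1
    have h2 : 1 ≤ C.cv i j a - C.cv i j b := by omega
    have h3 := bd 1
    rw [pow_one] at h3
    have h4 := step a
    have h5 := step b
    have := mul_nonneg hM.le (sub_nonneg.2 h2)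
    have := mul_nonneg (le_trans (by norm_num) hp) (sub_nonneg.2 hc')
    linarith
  have na : ¬ (a = i ∨ a = j.rev) := fun e => by
    have : C.cv i j a = 1 := if_pos e
    omega
  have nb : ¬ (b = j ∨ b = i.rev) := fun e => by
    have h1 : ¬ (b = i ∨ b = j.rev) := by rintro (rfl | rfl); exacts [hb' li, hb' lj']
    have : C.cv i j b = -1 := by rw [cv, if_neg h1, if_pos e]
    omega
  have tk : ∀ n : ℕ, C.cv i j ((C.σ ^ n) b) ≤ 0 ∧ 0 ≤ C.cv i j ((C.σ ^ n) a) := fun n => by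
    have k1 := lina_sig hD hs li lj hb ha hb' n
    have k2 := lina_sig hD (simple_rev hs) lj' li' hb ha hb' n
    rw [Fin.rev_rev, Fin.rev_rev] at k2
    exact ⟨lina_cv_nonpos (by tauto), lina_cv_nonneg (by tauto)⟩
  have key : ∀ n : ℕ, (n : ℤ) + 1 ≤ η ((C.σ ^ n) a) - η ((C.σ ^ n) b) := fun n => by
    induction n with
    | zero => simpa only [CharP.cast_eq_zero, zero_add, pow_zero, Equiv.Perm.coe_one, id_eq] using hc'
    | succ n ih =>
      have h1 := step ((C.σ ^ n) a)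
      have h2 := step ((C.σ ^ n) b)
      have h3 := tk n
      have h4 : (0 : ℤ) ≤ n := Int.natCast_nonneg n
      rw [Nat.cast_succ, pow_succ', Equiv.Perm.mul_apply, Equiv.Perm.mul_apply]
      have := mul_nonneg hM.le h3.2
      have := mul_nonneg hM.le (neg_nonneg.2 h3.1)
      have := mul_nonneg (sub_nonneg.2 hp)
        (show (0 : ℤ) ≤ η ((C.σ ^ n) a) - η ((C.σ ^ n) b) by linarith only [ih])
      linarith
  have h1 := key M
  have h2 := bd M
  omega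

theorem linb_zi (i j : C.I) : C.cv i j i = 1 := if_pos (Or.inl rfl)

theorem linb_zj {i j : C.I} (h : i ≠ j) : C.cv i j j = -1 := by
  rw [cv, if_neg (not_or.2 ⟨h.symm, (C.rev_ne j).symm⟩), if_pos (Or.inl rfl)]

theorem linb_zsum (β : C.Sp) (f : C.I → ℤ) (hf : ∀ a, f a.rev = - f a) :
    ∑ a, C.cv β.i β.j a * f a = 2 * (f β.i - f β.j) := by
  have h := β.ne
  have e := β.ne_rev
  have e' : β.i ≠ β.j.rev := C.ne_rev β.h.1
  have h1 := C.rev_ne β.i
  have h2 := C.rev_ne β.j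
  have h3 : β.i.rev ≠ β.j.rev := fun e => h (Fin.rev_injective e)
  have h4 : ∀ a, C.cv β.i β.j a * f a = (if a = β.i then f a else 0) - (if a = β.j then f a else 0)
      + (if a = β.j.rev then f a else 0) - (if a = β.i.rev then f a else 0) := fun a => by
    unfold cv
    by_cases a1 : a = β.i
    · rw [a1, if_pos (Or.inl rfl), if_pos rfl, if_neg h, if_neg e', if_neg h1.symm]
      ring
    by_cases a2 : a = β.j
    · rw [a2, if_neg (not_or.2 ⟨h.symm, h2.symm⟩), if_pos (Or.inl rfl), if_neg h.symm, if_pos rfl,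
        if_neg h2.symm, if_neg e]
      ring
    by_cases a3 : a = β.j.rev
    · rw [a3, if_pos (Or.inr rfl), if_neg e'.symm, if_neg h2, if_pos rfl, if_neg h3.symm]
      ring
    by_cases a4 : a = β.i.rev
    · rw [a4, if_neg (not_or.2 ⟨h1, h3⟩), if_pos (Or.inr rfl), if_neg h1, if_neg e.symm, if_neg h3,
        if_pos rfl]
      ring
    · rw [if_neg (not_or.2 ⟨a1, a3⟩), if_neg (not_or.2 ⟨a2, a4⟩), if_neg a1, if_neg a2, if_neg a3,
        if_neg a4]
      ring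
  simp only [h4, Finset.sum_sub_distrib, Finset.sum_add_distrib, Finset.sum_ite_eq',
    Finset.mem_univ, if_true, hf]
  ring

theorem linb_zsq (β : C.Sp) (f : C.I → ℤ) (hf : ∀ a, f a.rev = - f a) (u t : ℤ) :
    ∑ a, (u * f a - t * C.cv β.i β.j a) ^ 2 =
      u ^ 2 * ∑ a, f a ^ 2 - 4 * u * t * (f β.i - f β.j) + 4 * t ^ 2 := by
  have h1 := linb_zsum β f hf
  have h2 := linb_zsum β _ (cv_rev β.ne)
  rw [linb_zi, linb_zj β.ne] at h2
  have h3 : ∑ a, (u * f a - t * C.cv β.i β.j a) ^ 2 = u ^ 2 * ∑ a, f a ^ 2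
      - 2 * u * t * ∑ a, C.cv β.i β.j a * f a
      + t ^ 2 * ∑ a, C.cv β.i β.j a * C.cv β.i β.j a := by
    rw [Finset.mul_sum, Finset.mul_sum, Finset.mul_sum, ← Finset.sum_sub_distrib,
      ← Finset.sum_add_distrib]
    exact Finset.sum_congr rfl fun a _ => by ring
  rw [h3, h1, h2]
  ring

/-- LINB.  Paper 1.2: `Y = y / M ≥ (p - 1) / (p + 1)`. -/
theorem IsEta.yb_ge {β : C.Sp} {M : ℕ} {η : C.I → ℤ} (h : C.IsEta β.i β.j M η) :
    ((C.p : ℤ) - 1) * M ≤ ((C.p : ℤ) + 1) * yb β M η := by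
  have hp : (2 : ℤ) ≤ C.p := by exact_mod_cast C.hp.two_le
  have hM : (0 : ℤ) < M := by exact_mod_cast h.1
  have hr := h.rev β.ne
  have hr' : ∀ a : C.I, η (C.σ.symm a.rev) = - η (C.σ.symm a) := fun a => by
    rw [lina_symm_rev, hr]
  have h1 := linb_zsq β η hr 1 M
  obtain ⟨e, he⟩ : ∃ e, e = η (C.σ.symm β.i) - η (C.σ.symm β.j) := ⟨_, rfl⟩
  have h2 := linb_zsq β (fun a => η (C.σ.symm a)) hr' 2 e
  have h3 : ∑ a, η (C.σ.symm a) ^ 2 = ∑ a, η a ^ 2 := Equiv.sum_comp C.σ.symm fun a => η a ^ 2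
  have h4 : ∑ a, (1 * η a - M * C.cv β.i β.j a) ^ 2 = (C.p : ℤ) ^ 2 * ∑ a, η a ^ 2 := by
    rw [← h3, Finset.mul_sum]
    refine Finset.sum_congr rfl fun a _ => ?_
    have h5 : 1 * η a - M * C.cv β.i β.j a = C.p * η (C.σ.symm a) := by
      linear_combination - h.2 a
    rw [h5, mul_pow]
  have h5 : 0 ≤ ∑ a, (2 * η (C.σ.symm a) - e * C.cv β.i β.j a) ^ 2 :=
    Finset.sum_nonneg fun a _ => sq_nonneg _
  rw [h2, h3, ← he] at h5
  rw [h4] at h1
  have h6 := h.2 β.i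
  have h7 := h.2 β.j
  rw [linb_zi] at h6
  rw [linb_zj β.ne] at h7
  obtain ⟨S, hS⟩ : ∃ S, S = ∑ a, η a ^ 2 := ⟨_, rfl⟩
  obtain ⟨y, hy⟩ : ∃ y, y = yb β M η := ⟨_, rfl⟩
  rw [← hS] at h1 h5
  rw [← hy]
  unfold yb at hy
  obtain ⟨p, hq⟩ : ∃ p : ℤ, p = C.p := ⟨_, rfl⟩
  rw [← hq] at hp h1 h6 h7 ⊢
  have h8 : p * e = - (y + M) := by
    rw [he, hy]
    linear_combination h6 - h7
  have h9 : (p ^ 2 - 1) * S = 4 * M * y := by
    rw [hy]
    linear_combination h1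
  have h10 : e ^ 2 ≤ S := by linarith only [h5]
  have h11 : 0 ≤ p ^ 2 * (p ^ 2 - 1) := mul_nonneg (sq_nonneg p) (by nlinarith only [hp])
  have h12 : ((p + 1) * y - (p - 1) * M) * ((p - 1) * y - (p + 1) * M) ≤ 0 := by
    have h13 := mul_le_mul_of_nonneg_left h10 h11
    have h14 : ((p + 1) * y - (p - 1) * M) * ((p - 1) * y - (p + 1) * M) =
        p ^ 2 * (p ^ 2 - 1) * e ^ 2 - p ^ 2 * (p ^ 2 - 1) * S := by
      linear_combination (p ^ 2) * h9 - (p ^ 2 - 1) * (p * e - (y + M)) * h8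
    linarith only [h13, h14]
  by_contra h15
  have h16 : (p + 1) * y - (p - 1) * M < 0 := sub_neg.2 (not_le.1 h15)
  have h17 : 0 ≤ (p - 1) * y - (p + 1) * M := by
    by_contra h18
    exact absurd h12 (not_le.2 (mul_pos_of_neg_of_neg h16 (not_le.1 h18)))
  have h19 : 0 < (p - 1) * y := by nlinarith only [hM, hp, h17]
  have h20 : 0 < y := (mul_pos_iff_of_pos_left (by linarith only [hp])).1 h19
  linarith only [hM, h15, h17, h20]

theorem IsEta.yb_pos {β : C.Sp} {M : ℕ} {η : C.I → ℤ} (h : C.IsEta β.i β.j M η) :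
    0 < yb β M η := by
  have h1 := h.yb_ge
  have h2 : (1 : ℤ) < C.p := by exact_mod_cast C.hp.one_lt
  have h3 : (0 : ℤ) < M := by exact_mod_cast h.1
  by_contra h4
  nlinarith only [mul_pos (sub_pos.2 h2) h3, h1, h4]

theorem linb_zsymm {a b : C.I} (h : C.Simple a b) : C.Simple (C.σ.symm a) (C.σ.symm b) := by
  refine ⟨(lina_symm_lt h.1 h.2.1).1, (lina_symm_lt h.1 h.2.1).2, fun m hm hc => ?_⟩
  have h1 := C.σ_mono _ _ hm.symm hc.1
  have h2 := C.σ_mono _ _ (hm.trans (lina_symm_lt h.1 h.2.1).1) hc.2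
  have h3 := (C.σ_blk _ _).2 hm
  rw [Equiv.apply_symm_apply] at h1 h2 h3
  exact h.2.2 _ h3 ⟨h1, h2⟩

theorem linb_zσ {a b : C.I} (h : C.Simple a b) : C.Simple (C.σ a) (C.σ b) := by
  have h1 := simple_σ h 1
  rwa [pow_one] at h1

/-- prescribed values on the simple roots -/
theorem linb_zval (V : C.I → C.I → ℤ) (hV : ∀ a b, V b.rev a.rev = V a b) :
    ∃ ξ : C.I → ℤ, (∀ a, ξ a.rev = - ξ a) ∧ ∀ a b, C.Simple a b → ξ a - ξ b = V a b := by
  classical
  obtain ⟨f, hf⟩ : ∃ f : C.I → ℤ, f = fun a => ∑ s : C.I × C.I,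
      if C.Simple s.1 s.2 ∧ C.blk s.1 = C.blk a ∧ a ≤ s.1 then V s.1 s.2 else 0 := ⟨_, rfl⟩
  have h1 : ∀ a b, C.Simple a b → f a - f b = V a b := fun a b hs => by
    have h2 : V a b = ∑ s : C.I × C.I, if s = (a, b) then V s.1 s.2 else 0 := by
      rw [Finset.sum_ite_eq', if_pos (Finset.mem_univ _)]
    rw [hf, h2, ← Finset.sum_sub_distrib]
    refine Finset.sum_congr rfl fun s _ => ?_
    by_cases e : s = (a, b)
    · rw [if_pos e, if_pos (by rw [e]; exact ⟨hs, rfl, le_rfl⟩),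
        if_neg (fun h3 => by rw [e] at h3; exact absurd hs.2.1 (not_lt.2 h3.2.2)), sub_zero]
    · rw [if_neg e, sub_eq_zero]
      refine if_congr ⟨fun h3 => ⟨h3.1, h3.2.1.trans hs.1, ?_⟩,
        fun h3 => ⟨h3.1, h3.2.1.trans hs.1.symm, hs.2.1.le.trans h3.2.2⟩⟩ rfl rfl
      by_contra h4
      rcases h3.2.2.eq_or_lt with h5 | h5
      · refine e (Prod.ext h5.symm (simple_right_unique h3.1 ?_))
        rw [← h5]
        exact hs
      · exact hs.2.2 _ h3.2.1 ⟨h5, not_le.1 h4⟩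
  refine ⟨fun a => if C.hf a then f a else - f a.rev, fun a => ?_, fun a b hs => ?_⟩
  · by_cases h2 : C.hf a
    · simp only [if_pos h2, if_neg (fun h3 => (C.hf_rev a).1 h3 h2), Fin.rev_rev]
    · simp only [if_neg h2, if_pos ((C.hf_rev a).2 h2), neg_neg]
  · by_cases h2 : C.hf a
    · simp only [if_pos h2, if_pos ((C.hf_blk hs.1).1 h2)]
      exact h1 a b hs
    · simp only [if_neg h2, if_neg (fun h3 => h2 ((C.hf_blk hs.1).2 h3))]
      rw [← hV, ← h1 _ _ (simple_rev hs)]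
      ring

theorem linb_zshift (p : ℤ) {S T : Set ℕ} [Decidable S.Nonempty] [Decidable T.Nonempty]
    (h0 : 0 ∉ T) (h : ∀ m, m + 1 ∈ T ↔ m ∈ S) :
    (if T.Nonempty then p ^ sInf T else 0) = p * if S.Nonempty then p ^ sInf S else 0 := by
  by_cases hS : S.Nonempty
  · have h1 := (h _).2 (Nat.sInf_mem hS)
    have h2 := Nat.sInf_mem (⟨_, h1⟩ : T.Nonempty)
    obtain ⟨k, hk⟩ := Nat.exists_eq_succ_of_ne_zero fun e : sInf T = 0 => h0 (e ▸ h2)
    have h3 : sInf T = sInf S + 1 := by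
      refine le_antisymm (Nat.sInf_le h1) ?_
      rw [hk] at h2 ⊢
      exact Nat.succ_le_succ (Nat.sInf_le ((h k).1 h2))
    rw [if_pos hS, if_pos ⟨_, h1⟩, h3, pow_succ']
  · rw [if_neg hS, if_neg, mul_zero]
    rintro ⟨m, hm⟩
    obtain ⟨k, rfl⟩ := Nat.exists_eq_succ_of_ne_zero fun e : m = 0 => h0 (e ▸ hm)
    exact hS ⟨k, (h k).1 hm⟩

/-- a transitive relation on pairs of `L` -/
theorem linb_zchain {R : C.I → C.I → Prop} (ht : ∀ a b c, R a b → R b c → R a c)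
    (hs : ∀ a b, C.Simple a b → (C.lo a ↔ C.lo b) → R a b) {a b : C.I} (hb : C.blk a = C.blk b)
    (hl : C.lo a ↔ C.lo b) (hab : a < b) : R a b := by
  refine (wordb_chain (R := fun a b => a ≤ b ∧ ((C.lo a ↔ C.lo b) → R a b))
    (fun a b c h1 h2 => ⟨h1.1.trans h2.1, fun h3 => ?_⟩)
    (fun a b h1 => ⟨h1.2.1.le, hs a b h1⟩) hb hab).2 hl
  have h4 := C.lo_of_le h1.1
  have h5 := C.lo_of_le h2.1
  exact ht a b c (h1.2 ⟨fun h6 => h5 (h3.1 h6), h4⟩) (h2.2 ⟨fun h6 => h3.1 (h4 h6), h5⟩)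

/-- LINB.  Paper 1.3.  Give the simple root `s` the value `v s = p ^ m`, `m` least with `σ ^ (-m) s`
not in `M`, and `0` if there is none; on the blocks in `hf` put `ξ a = ∑ v s` over the simple
roots `s = (i, j)` of the block with `a ≤ i`, and `ξ a = - ξ a.rev` on the other blocks. -/
theorem exists_isXi : ∃ ξ, C.IsXi ξ := by
  classical
  obtain ⟨T, hT⟩ : ∃ T : C.I → C.I → Set ℕ, T = fun a b =>
      {m | ¬ (C.lq (C.σ.symm^[m] a) ↔ C.lq (C.σ.symm^[m] b))} := ⟨_, rfl⟩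
  have h1 : ∀ (m : ℕ) (a : C.I), C.σ.symm^[m] a.rev = (C.σ.symm^[m] a).rev := fun m a =>
    (Function.Commute.iterate_left (f := C.σ.symm) (g := Fin.rev) lina_symm_rev m) a
  have h2 : ∀ a b : C.I, T b.rev a.rev = T a b := fun a b => by
    rw [hT]
    refine Set.ext fun m => ?_
    simp only [Set.mem_ofPred_eq]
    rw [h1, h1, C.lq_rev, C.lq_rev, not_iff_not, not_iff_not]
    exact Iff.comm
  obtain ⟨ξ, h3, h4⟩ := linb_zval (fun a b => if (T a b).Nonempty then (C.p : ℤ) ^ sInf (T a b) else 0)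
    (fun a b => by rw [h2])
  have h5 : ∀ a b, C.blk a = C.blk b → (C.lo a ↔ C.lo b) → a < b →
      ξ (C.σ a) - ξ (C.σ b) = C.p * (ξ a - ξ b) := fun a b hb hl hab => by
    refine linb_zchain (R := fun a b => ξ (C.σ a) - ξ (C.σ b) = C.p * (ξ a - ξ b))
      (fun a b c h5 h6 => by linear_combination h5 + h6) (fun a b hs hl => ?_) hb hl hab
    rw [h4 _ _ hs, h4 _ _ (linb_zσ hs)]
    refine linb_zshift _ ?_ fun m => ?_
    · rw [hT]
      simp only [Set.mem_ofPred_eq, Function.iterate_zero_apply, not_not]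
      rw [C.lq_σ, C.lq_σ]
      exact hl
    · rw [hT]
      simp only [Set.mem_ofPred_eq, Function.iterate_succ_apply, Equiv.symm_apply_apply]
  refine ⟨ξ, h3, fun β hβ => ?_, fun a b hb hl => ?_⟩
  · have h6 : 0 ∈ T β.i β.j := by
      rw [hT]
      exact fun h7 => hβ.2 (h7.1 hβ.1)
    rw [h4 _ _ β.h, if_pos ⟨0, h6⟩, Nat.sInf_eq_zero.2 (Or.inl h6), pow_zero]
  · rcases lt_trichotomy a b with h6 | h6 | h6
    · exact h5 a b hb hl h6
    · rw [h6, sub_self, sub_self, mul_zero]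
    · linear_combination - h5 b a hb.symm hl.symm h6

theorem linb_zcv {β : C.Sp} {a b : C.I} (hs : C.Simple a b) :
    (a = β.i ∧ b = β.j) ∨ (a = β.j.rev ∧ b = β.i.rev) ∨ C.cv β.i β.j a - C.cv β.i β.j b ≤ 0 := by
  by_cases h1 : a = β.i
  · exact Or.inl ⟨h1, simple_right_unique hs (h1 ▸ β.h)⟩
  by_cases h2 : a = β.j.rev
  · exact Or.inr (Or.inl ⟨h2, simple_right_unique hs (h2 ▸ simple_rev β.h)⟩)
  have h3 : b ≠ β.j := fun e => h1 (simple_left_unique hs (e ▸ β.h))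
  have h4 : b ≠ β.i.rev := fun e => h2 (simple_left_unique hs (e ▸ simple_rev β.h))
  refine Or.inr (Or.inr ?_)
  unfold cv
  rw [if_neg (not_or.2 ⟨h1, h2⟩), if_neg (not_or.2 ⟨h3, h4⟩)]
  split_ifs <;> norm_num

/-- maximum principle on the simple roots -/
theorem linb_zmax {β : C.Sp} {M : ℕ} {η : C.I → ℤ} (h : C.IsEta β.i β.j M η) {a b : C.I}
    (hs : C.Simple a b) : (C.p : ℤ) * (η b - η a) ≤ yb β M η + M := by
  have hp : (2 : ℤ) ≤ C.p := by exact_mod_cast C.hp.two_le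
  have hM : (0 : ℤ) < M := by exact_mod_cast h.1
  have hy := h.yb_pos
  have hr := h.rev β.ne
  have : Nonempty {s : C.I × C.I // C.Simple s.1 s.2} := ⟨⟨(a, b), hs⟩⟩
  obtain ⟨⟨⟨c, d⟩, hc⟩, hm⟩ := Finite.exists_max
    fun s : {s : C.I × C.I // C.Simple s.1 s.2} => η s.1.2 - η s.1.1
  have h1 : η b - η a ≤ η d - η c := hm ⟨(a, b), hs⟩
  have h2 : η (C.σ d) - η (C.σ c) ≤ η d - η c := hm ⟨(C.σ c, C.σ d), linb_zσ hc⟩
  refine (mul_le_mul_of_nonneg_left h1 (by linarith only [hp])).trans ?_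
  have h3 := h.2 (C.σ c)
  have h4 := h.2 (C.σ d)
  rw [Equiv.symm_apply_apply] at h3 h4
  rcases linb_zcv (β := β) (linb_zσ hc) with h5 | h5 | h5
  · rw [h5.1, linb_zi] at h3
    rw [h5.2, linb_zj β.ne] at h4
    unfold yb
    linarith only [h3, h4]
  · rw [h5.1, cv_rev β.ne, linb_zj β.ne, hr] at h3
    rw [h5.2, cv_rev β.ne, linb_zi, hr] at h4
    unfold yb
    linarith
  · have h6 := mul_nonpos_of_nonneg_of_nonpos hM.le h5
    have h7 : (C.p : ℤ) * (η d - η c) ≤ η d - η c := by linarith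
    have h8 : η d - η c ≤ 0 := by
      by_contra h9
      nlinarith only [hp, h2, h3, h4, h6, h9]
    linarith

theorem linb_ztop {a b : C.I} (hs : C.Simple a b) (hl : ¬ (C.lo a ↔ C.lo b)) :
    C.lo a ∧ ¬ C.lo b := by
  have h1 := C.lo_of_le hs.2.1.le
  tauto

/-- `ξ` is positive on `Δ^P` -/
theorem linb_zpos {ξ : C.I → ℤ} (hξ : C.IsXi ξ) {a b : C.I} (hs : C.Simple a b)
    (hl : ¬ (C.lo a ↔ C.lo b)) : 0 < ξ a - ξ b := by
  have hp : (0 : ℤ) < C.p := by exact_mod_cast C.hp.pos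
  have h0 : ∀ a b, C.Simple a b → ¬ (C.lo a ↔ C.lo b) → ξ (C.σ a) - ξ (C.σ b) = 1 :=
    fun a b hs hl => hξ.2.1 ⟨_, _, linb_zσ hs⟩
      ⟨(C.lq_σ a).2 (linb_ztop hs hl).1, fun h1 => (linb_ztop hs hl).2 ((C.lq_σ b).1 h1)⟩
  by_contra h1
  have h2 : ∀ k : ℕ, C.Simple ((C.σ⁻¹ ^ k) a) ((C.σ⁻¹ ^ k) b) ∧
      ξ ((C.σ⁻¹ ^ k) a) - ξ ((C.σ⁻¹ ^ k) b) ≤ 0 := by
    intro k
    induction k with
    | zero => exact ⟨hs, not_lt.1 h1⟩
    | succ k ih =>
      rw [pow_succ', Equiv.Perm.mul_apply, Equiv.Perm.mul_apply, Equiv.Perm.inv_def]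
      have h3 := linb_zsymm ih.1
      refine ⟨h3, ?_⟩
      by_cases h4 : C.lo (C.σ.symm ((C.σ⁻¹ ^ k) a)) ↔ C.lo (C.σ.symm ((C.σ⁻¹ ^ k) b))
      · have h5 := hξ.2.2 _ _ h3.1 h4
        rw [Equiv.apply_symm_apply, Equiv.apply_symm_apply] at h5
        by_contra h6
        exact absurd (h5 ▸ ih.2) (not_le.2 (mul_pos hp (not_le.1 h6)))
      · have h5 := h0 _ _ h3 h4
        rw [Equiv.apply_symm_apply, Equiv.apply_symm_apply] at h5
        exact absurd (h5 ▸ ih.2) (by norm_num)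
  obtain ⟨k, hk⟩ := Nat.exists_eq_succ_of_ne_zero (orderOf_pos C.σ⁻¹).ne'
  have h3 : C.σ⁻¹ ^ k = C.σ := by
    have h4 := pow_orderOf_eq_one C.σ⁻¹
    rw [hk, pow_succ] at h4
    exact mul_inv_eq_one.1 h4
  have h4 := (h2 k).2
  rw [h3, h0 a b hs hl] at h4
  norm_num at h4

/-- LINB.  Paper 1.4: `η + y ξ` is dominant for `L` (`wordb_chain` reduces to simple roots). -/
theorem IsEta.dom {β : C.Sp} (hβ : C.TopQ β) {M : ℕ} {η ξ : C.I → ℤ} (h : C.IsEta β.i β.j M η)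
    (hξ : C.IsXi ξ) {a b : C.I} (hb : C.blk a = C.blk b) (hl : C.lo a ↔ C.lo b) (hab : a < b) :
    η b + yb β M η * ξ b ≤ η a + yb β M η * ξ a := by
  have hp : (2 : ℤ) ≤ C.p := by exact_mod_cast C.hp.two_le
  have hM : (0 : ℤ) < M := by exact_mod_cast h.1
  have hy := h.yb_pos
  have hg := h.yb_ge
  have hz := fun a b (hs : C.Simple a b) => linb_zmax h hs
  obtain ⟨y, hy'⟩ : ∃ y, y = yb β M η := ⟨_, rfl⟩
  rw [← hy'] at hy hg hz ⊢
  refine linb_zchain (R := fun a b => η b + y * ξ b ≤ η a + y * ξ a)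
    (fun a b c h1 h2 => h2.trans h1) (fun a b hs hl => ?_) hb hl hab
  have : Nonempty {s : C.I × C.I // C.Simple s.1 s.2 ∧ (C.lo s.1 ↔ C.lo s.2)} :=
    ⟨⟨(a, b), hs, hl⟩⟩
  obtain ⟨⟨⟨c, d⟩, hc, hd⟩, hm⟩ := Finite.exists_min
    fun s : {s : C.I × C.I // C.Simple s.1 s.2 ∧ (C.lo s.1 ↔ C.lo s.2)} =>
      η s.1.1 + y * ξ s.1.1 - (η s.1.2 + y * ξ s.1.2)
  have h1 : η c + y * ξ c - (η d + y * ξ d) ≤ η a + y * ξ a - (η b + y * ξ b) :=
    hm ⟨(a, b), hs, hl⟩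
  refine sub_nonneg.1 (le_trans (not_lt.1 fun h2 => ?_) h1)
  have h3 := h.2 (C.σ c)
  have h4 := h.2 (C.σ d)
  rw [Equiv.symm_apply_apply] at h3 h4
  have h5 := hξ.2.2 c d hc.1 hd
  have h6 : C.lq (C.σ c) ↔ C.lq (C.σ d) := by rw [C.lq_σ, C.lq_σ]; exact hd
  have h7 : C.cv β.i β.j (C.σ c) - C.cv β.i β.j (C.σ d) ≤ 0 := by
    rcases linb_zcv (β := β) (linb_zσ hc) with h8 | h8 | h8
    · rw [h8.1, h8.2] at h6
      exact absurd (h6.1 hβ.1) hβ.2
    · rw [h8.1, h8.2, C.lq_rev, C.lq_rev] at h6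
      exact absurd hβ.1 (h6.1 hβ.2)
    · exact h8
  have h8 := mul_nonpos_of_nonneg_of_nonpos hM.le h7
  obtain ⟨D, hD⟩ : ∃ D, D = η c + y * ξ c - (η d + y * ξ d) := ⟨_, rfl⟩
  obtain ⟨D', hD'⟩ : ∃ D', D' = η (C.σ c) + y * ξ (C.σ c) - (η (C.σ d) + y * ξ (C.σ d)) := ⟨_, rfl⟩
  have h9 : D' ≤ C.p * D := by
    have h10 : C.p * D = D' - M * (C.cv β.i β.j (C.σ c) - C.cv β.i β.j (C.σ d)) := by
      rw [hD, hD']
      linear_combination h3 - h4 - y * h5
    linarith only [h8, h10]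
  rw [← hD] at h2
  have h10 : C.p * D < D := by nlinarith only [hp, h2]
  by_cases h11 : C.lo (C.σ c) ↔ C.lo (C.σ d)
  · have h12 : η c + y * ξ c - (η d + y * ξ d) ≤
        η (C.σ c) + y * ξ (C.σ c) - (η (C.σ d) + y * ξ (C.σ d)) :=
      hm ⟨(C.σ c, C.σ d), linb_zσ hc, h11⟩
    rw [← hD, ← hD'] at h12
    linarith only [h9, h10, h12]
  · have h12 := linb_zpos hξ (linb_zσ hc) h11
    rw [h5] at h12
    have h13 : 1 ≤ ξ c - ξ d := (mul_pos_iff_of_pos_left (by linarith only [hp])).1 h12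
    have h14 := hz _ _ (linb_zσ hc)
    have h15 : C.p * D' = - (C.p * (η (C.σ d) - η (C.σ c))) + C.p ^ 2 * y * (ξ c - ξ d) := by
      rw [hD']
      linear_combination (C.p * y) * h5
    have h16 : (C.p : ℤ) ^ 2 * y * 1 ≤ C.p ^ 2 * y * (ξ c - ξ d) :=
      mul_le_mul_of_nonneg_left h13 (mul_nonneg (sq_nonneg _) hy.le)
    have h17 : ((C.p : ℤ) - 1) * ((C.p - 1) * M) ≤ (C.p - 1) * ((C.p + 1) * y) :=
      mul_le_mul_of_nonneg_left hg (by linarith only [hp])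
    have h18 : 1 * (M : ℤ) ≤ ((C.p - 1) * (C.p - 1)) * M :=
      mul_le_mul_of_nonneg_right (by nlinarith only [hp]) hM.le
    have h19 : (C.p : ℤ) * D' < 0 := mul_neg_of_pos_of_neg (by linarith only [hp]) (by linarith only [h2, h9, h10])
    linarith only [h14, h15, h16, h17, h18, h19]

theorem lina_sum_cv {i j : C.I} (h : C.Simple i j) (f : C.I → ℤ) :
    ∑ c, f c * C.cv i j c = (f i - f i.rev) - (f j - f j.rev) := by
  have hne := h.2.1.ne
  have e1 : i ≠ j.rev := C.ne_rev h.1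
  have e2 : j ≠ i.rev := C.ne_rev h.1.symm
  have e3 := C.rev_ne i
  have e4 := C.rev_ne j
  have e5 : i.rev ≠ j.rev := fun e => hne (Fin.rev_injective e)
  have h1 : ∀ c, f c * C.cv i j c = (if c = i then f c else 0) - (if c = i.rev then f c else 0) -
      ((if c = j then f c else 0) - (if c = j.rev then f c else 0)) := fun c => by
    unfold cv
    by_cases a1 : c = i
    · subst a1
      simp [hne, e1, e3.symm]
    by_cases a2 : c = j
    · subst a2
      simp [a1, e2, e4.symm]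
    by_cases a3 : c = j.rev
    · subst a3
      simp [a1, a2, e5.symm]
    by_cases a4 : c = i.rev
    · subst a4
      simp [a1, a2, a3]
    simp [a1, a2, a3, a4]
  simp only [h1, Finset.sum_sub_distrib, Finset.sum_ite_eq', Finset.mem_univ, if_true]

/-- LINA.  Paper 5 (e).  `exists_solve` for `σ`; the pairing with the equation of `η` gives
`⟨ψ, β^∨⟩ = 0` on `Δ^Q`, and `p ⟨ψ, (σ s)^∨⟩ = ⟨ψ, s^∨⟩` for simple roots `s` of `L`; a simple root
with maximal `|⟨ψ, s^∨⟩|` shows that `ψ` kills all coroots. -/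
theorem exists_psi (μ : C.I → ℤ)
    (h1 : ∀ s : C.Sp, (C.lo s.i ↔ C.lo s.j) → ∑ c, μ c * C.cv s.i s.j c = 0)
    (h2 : ∀ β : C.Sp, C.TopQ β → ∃ M η, C.IsEta β.i β.j M η ∧ ∑ c, μ c * η c = 0) :
    ∃ (N : ℕ) (ψ : C.I → ℤ), 0 < N ∧ (∀ c, ψ c - C.p * ψ (C.σ c) = - N * μ c) ∧
      ∀ a b, C.blk a = C.blk b → ψ a - ψ a.rev = ψ b - ψ b.rev := by
  classical
  obtain ⟨N, hN, hs⟩ := exists_solve C.σ C.hp.one_lt
  obtain ⟨ψ, hψ⟩ := hs μ
  refine ⟨N, ψ, hN, hψ, ?_⟩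
  obtain ⟨F, hF⟩ : ∃ F : C.I → C.I → ℤ, ∀ a b, F a b = (ψ a - ψ a.rev) - (ψ b - ψ b.rev) :=
    ⟨_, fun _ _ => rfl⟩
  have k1 : ∀ a b, C.Simple a b → (C.lo a ↔ C.lo b) → F a b = C.p * F (C.σ a) (C.σ b) := by
    intro a b hab hl
    have h3 := h1 ⟨a, b, hab⟩ hl
    rw [lina_sum_cv hab] at h3
    rw [hF, hF, ← C.σ_rev, ← C.σ_rev]
    linear_combination hψ a - hψ a.rev - hψ b + hψ b.rev - N * h3
  have k2 : ∀ β : C.Sp, C.TopQ β → F β.i β.j = 0 := by
    intro β hβ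
    obtain ⟨M, η, hη, h3⟩ := h2 β hβ
    have h4 : ∑ c, ψ c * η (C.σ.symm c) = ∑ c, ψ (C.σ c) * η c := by
      rw [← Equiv.sum_comp C.σ]
      simp only [Equiv.symm_apply_apply]
    have h5 : (M : ℤ) * ∑ c, ψ c * C.cv β.i β.j c =
        ∑ c, ψ c * η c - C.p * ∑ c, ψ c * η (C.σ.symm c) := by
      rw [Finset.mul_sum, Finset.mul_sum, ← Finset.sum_sub_distrib]
      exact Finset.sum_congr rfl fun c _ => by linear_combination ψ c * hη.2 c
    have h6 : ∑ c, ψ c * η c - C.p * ∑ c, ψ (C.σ c) * η c = - N * ∑ c, μ c * η c := by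
      rw [Finset.mul_sum, Finset.mul_sum, ← Finset.sum_sub_distrib]
      exact Finset.sum_congr rfl fun c _ => by linear_combination η c * hψ c
    rw [h4, h6, h3, mul_zero, lina_sum_cv β.h, ← hF] at h5
    exact (mul_eq_zero.1 h5).resolve_left (by exact_mod_cast hη.1.ne')
  have hp := lina_one_lt (C := C)
  have k3 := nonpos_of_step (Prod.map C.σ C.σ) hp
    (fun q => if C.Simple q.1 q.2 then |(F q.1 q.2 : ℝ)| else 0) (fun q => by
      simp only [Prod.map_fst, Prod.map_snd, lina_simple]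
      split_ifs with h3
      · by_cases h4 : C.lo q.1 ↔ C.lo q.2
        · rw [k1 _ _ h3 h4, Int.cast_mul, abs_mul, Int.cast_natCast, Nat.abs_cast]
        · have h5 : C.lo q.1 ∧ ¬ C.lo q.2 := by
            have := C.lo_of_le h3.2.1.le
            tauto
          have h6 := k2 ⟨_, _, (lina_simple _ _).2 h3⟩
            ⟨(C.lq_σ _).2 h5.1, fun h7 => h5.2 ((C.lq_σ _).1 h7)⟩
          rw [h6, Int.cast_zero, abs_zero, mul_zero]
          exact abs_nonneg _
      · rw [mul_zero]) (C.σ.surjective.prodMap C.σ.surjective)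
  have k4 : ∀ a b, C.blk a = C.blk b → a < b → ψ a - ψ a.rev = ψ b - ψ b.rev := fun a b hb hab =>
    wordb_chain (R := fun a b => ψ a - ψ a.rev = ψ b - ψ b.rev) (fun _ _ _ => Eq.trans)
      (fun a b h3 => by
        have h4 := k3 (a, b)
        rw [if_pos h3, abs_nonpos_iff, Int.cast_eq_zero, hF] at h4
        exact sub_eq_zero.1 h4) hb hab
  intro a b hb
  rcases lt_trichotomy a b with h3 | h3 | h3
  · exact k4 a b hb h3
  · rw [h3]
  · exact (k4 b a hb.symm h3).symm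

namespace Wd

variable (W : C.Wd)

/-- `(1 - p s_n z⁻¹ σ) θ = - M α_n^∨` -/
def IsTheta (n : Fin W.d) (M : ℕ) (θ : C.I → ℤ) : Prop :=
  0 < M ∧ ∀ a, θ a - C.p * θ (C.σ.symm (W.z (C.sw (W.s n).i (W.s n).j a))) =
    - M * C.cv (W.s n).i (W.s n).j a

/-- the inequality given by the curve `n₀` -/
def Ineq (ν : C.I → ℤ) (n₀ : Fin W.d) (a : Fin W.d → ℝ) (M : ℕ) (θ : C.I → ℤ) : Prop :=
  M * a n₀ + ∑ c, (ν c * θ c : ℝ)
    - C.p * ∑ n, (if n₀ < n then
        a n * (θ (C.σ.symm (W.z (W.s n).i)) - θ (C.σ.symm (W.z (W.s n).j))) else 0)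
    - ∑ n, (if n < n₀ then a n * (θ (W.s n).i - θ (W.s n).j) else 0) ≤ 0

/-- `ρ_n = (p z⁻¹ σ - 1)⁻¹ α_n^∨` -/
def IsRho (ρ : Fin W.d → C.I → ℝ) : Prop :=
  ∀ n a, C.p * ρ n (C.σ.symm (W.z a)) - ρ n a = C.cv (W.s n).i (W.s n).j a

theorem exists_isRho : ∃ ρ, W.IsRho ρ := by
  obtain ⟨M, hM, h⟩ := exists_solve (W.z.trans C.σ.symm) C.hp.one_lt
  choose θ hθ using h
  refine ⟨fun n a => θ (C.cv (W.s n).i (W.s n).j) a / M, fun n a => ?_⟩
  have h1 : (M : ℝ) ≠ 0 := by exact_mod_cast hM.ne'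
  have h2 : (θ (C.cv (W.s n).i (W.s n).j) a : ℝ) -
      C.p * θ (C.cv (W.s n).i (W.s n).j) (C.σ.symm (W.z a)) = - M * C.cv (W.s n).i (W.s n).j a := by
    exact_mod_cast hθ (C.cv (W.s n).i (W.s n).j) a
  field_simp
  linear_combination - h2

/-- `|α^∨|² / 2` -/
def cn (n : Fin W.d) : ℝ := if (W.s n).j = (W.s n).i.rev then 1 else 2

/-- the intersection matrix -/
def mat (ρ : Fin W.d → C.I → ℝ) : Matrix (Fin W.d) (Fin W.d) ℝ :=
  Matrix.of fun n m => ((if n = m then 1 else 0) +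
    (if n < m then (C.cv (W.s n).i (W.s n).j (W.s m).i - C.cv (W.s n).i (W.s n).j (W.s m).j : ℝ)
      else 0) + (ρ n (W.s m).i - ρ n (W.s m).j)) / W.cn n

variable {W}

theorem IsRho.rev {ρ : Fin W.d → C.I → ℝ} (h : W.IsRho ρ) (n : Fin W.d) (a : C.I) :
    ρ n a.rev = - ρ n a := by
  have h1 := solve_unique (W.z.trans C.σ.symm) lina_one_lt (fun a => ρ n a.rev + ρ n a)
    (fun a => by
      have h2 := h n a
      have h3 := h n a.rev
      rw [(frame_isW W.frame).2, lina_symm_rev, cv_rev (W.s n).ne] at h3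
      push_cast at h3
      rw [Equiv.trans_apply]
      linear_combination h2 + h3) a
  linear_combination h1

theorem lina_cn_pos (n : Fin W.d) : 0 < W.cn n := by
  unfold cn
  split_ifs <;> norm_num

theorem lina_cv_rev (n : Fin W.d) (a : C.I) :
    (C.cv (W.s n).i (W.s n).j a.rev : ℝ) = - (C.cv (W.s n).i (W.s n).j a : ℝ) := by
  rw [cv_rev (W.s n).ne, Int.cast_neg]

theorem lina_cv_eq {i j : C.I} (h : i ≠ j) (a : C.I) : (C.cv i j a : ℝ) =
    ((if a = i then 1 else 0) - (if a = j then 1 else 0) + (if a = j.rev then 1 else 0) -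
      (if a = i.rev then 1 else 0)) * (if j = i.rev then 1 / 2 else 1) := by
  have h1 := C.rev_ne i
  have h2 := C.rev_ne j
  have h3 : i.rev ≠ j.rev := fun e => h (Fin.rev_injective e)
  unfold cv
  by_cases e : j = i.rev
  · subst e
    rw [Fin.rev_rev]
    by_cases a1 : a = i
    · subst a1
      simp [h]
      norm_num
    · by_cases a2 : a = i.rev
      · subst a2
        simp [h1]
        norm_num
      · simp [a1, a2]
  · have e' : i ≠ j.rev := fun e2 => e (by rw [e2, Fin.rev_rev])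
    by_cases a1 : a = i
    · subst a1
      simp [h, e, e', h1.symm]
    · by_cases a2 : a = j
      · subst a2
        simp [a1, e, h2.symm]
      · by_cases a3 : a = j.rev
        · subst a3
          simp [a1, a2, e, h.symm]
        · by_cases a4 : a = i.rev
          · subst a4
            simp [a1, a2, e, h]
          · simp [a1, a2, a3, a4]

theorem lina_pair (n : Fin W.d) (y : C.I → ℝ) (hy : ∀ a, y a.rev = - y a) :
    ∑ a, (C.cv (W.s n).i (W.s n).j a : ℝ) * y a = W.cn n * (y (W.s n).i - y (W.s n).j) := by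
  have h1 : ∀ a, (C.cv (W.s n).i (W.s n).j a : ℝ) * y a =
      ((if a = (W.s n).i then y a else 0) - (if a = (W.s n).j then y a else 0) +
        (if a = (W.s n).j.rev then y a else 0) - (if a = (W.s n).i.rev then y a else 0)) *
        (if (W.s n).j = (W.s n).i.rev then 1 / 2 else 1) := fun a => by
    rw [lina_cv_eq (W.s n).ne, mul_right_comm]
    simp only [sub_mul, add_mul, ite_mul, one_mul, zero_mul]
  simp only [h1, ← Finset.sum_mul, Finset.sum_sub_distrib, Finset.sum_add_distrib,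
    Finset.sum_ite_eq', Finset.mem_univ, if_true, hy, cn]
  split_ifs <;> ring

theorem lina_self (n : Fin W.d) :
    ∑ a, (C.cv (W.s n).i (W.s n).j a : ℝ) * (C.cv (W.s n).i (W.s n).j a : ℝ) = 2 * W.cn n := by
  have h1 : C.cv (W.s n).i (W.s n).j (W.s n).i = 1 := if_pos (Or.inl rfl)
  have h2 : C.cv (W.s n).i (W.s n).j (W.s n).j = -1 := by
    unfold cv
    rw [if_neg (not_or.2 ⟨(W.s n).ne.symm, (C.rev_ne _).symm⟩), if_pos (Or.inl rfl)]
  rw [lina_pair n _ (lina_cv_rev n), h1, h2]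
  push_cast
  ring

theorem lina_sq {I : Type} [Fintype I] (π : Equiv.Perm I) (p : ℝ) (u r : I → ℝ)
    (h : ∀ a, p * r (π a) - r a = u a) :
    (∑ a, u a * u a) / 2 + ∑ a, u a * r a = (p ^ 2 - 1) / 2 * ∑ a, r a ^ 2 := by
  have h1 : ∑ a, r (π a) ^ 2 = ∑ a, r a ^ 2 := Equiv.sum_comp π fun a => r a ^ 2
  have h2 : (∑ a, u a * u a) / 2 + ∑ a, u a * r a =
      p ^ 2 / 2 * ∑ a, r (π a) ^ 2 - 1 / 2 * ∑ a, r a ^ 2 := by
    rw [Finset.sum_div, Finset.mul_sum, Finset.mul_sum, ← Finset.sum_add_distrib,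
      ← Finset.sum_sub_distrib]
    refine Finset.sum_congr rfl fun a _ => ?_
    rw [← h a]
    ring
  rw [h2, h1]
  ring

theorem lina_bil {I J : Type} [Fintype I] [Fintype J] (c d : J → I → ℝ) (w : J → ℝ) :
    ∑ a, (∑ m, w m * c m a) * (∑ n, w n * d n a) = ∑ n, ∑ m, w n * w m * ∑ a, c m a * d n a := by
  simp only [Finset.sum_mul, Finset.mul_sum]
  rw [Finset.sum_comm]
  refine Finset.sum_congr rfl fun n _ => ?_
  rw [Finset.sum_comm]
  exact Finset.sum_congr rfl fun m _ => Finset.sum_congr rfl fun a _ => by ring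

theorem lina_form {I J : Type} [Fintype I] [Fintype J] [LinearOrder J] (π : Equiv.Perm I) (p : ℝ)
    (c ρ : J → I → ℝ) (h : ∀ n a, p * ρ n (π a) - ρ n a = c n a) (w : J → ℝ) :
    ∑ n, ∑ m, w n * w m * ((if n = m then (∑ a, c n a * c n a) / 2 else 0) +
      (if n < m then ∑ a, c m a * c n a else 0) + ∑ a, c m a * ρ n a) =
      (p ^ 2 - 1) / 2 * ∑ a, (∑ n, w n * ρ n a) ^ 2 := by
  have h1 := lina_sq π p (fun a => ∑ n, w n * c n a) (fun a => ∑ n, w n * ρ n a) fun a => by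
    rw [Finset.mul_sum, ← Finset.sum_sub_distrib]
    exact Finset.sum_congr rfl fun n _ => by rw [← h n a]; ring
  rw [← h1, lina_bil, lina_bil]
  set A : J → J → ℝ := fun n m => w n * w m * ((if n = m then (∑ a, c n a * c n a) / 2 else 0) +
      (if n < m then ∑ a, c m a * c n a else 0)) with hA
  have h2 : ∀ n m, w n * w m * ∑ a, c m a * c n a = A n m + A m n := fun n m => by
    have h3 : ∑ a, c n a * c m a = ∑ a, c m a * c n a :=
      Finset.sum_congr rfl fun a _ => mul_comm _ _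
    simp only [hA]
    rcases lt_trichotomy n m with h4 | h4 | h4
    · rw [if_neg h4.ne, if_pos h4, if_neg h4.ne', if_neg h4.not_gt]
      ring
    · subst h4
      rw [if_pos rfl, if_neg (lt_irrefl n)]
      ring
    · rw [if_neg h4.ne', if_neg h4.not_gt, if_neg h4.ne, if_pos h4, h3]
      ring
  have h3 : ∑ n, ∑ m, w n * w m * ∑ a, c m a * c n a = 2 * ∑ n, ∑ m, A n m := by
    simp only [h2, Finset.sum_add_distrib]
    rw [Finset.sum_comm (f := fun n m => A m n)]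
    ring
  rw [h3, mul_div_cancel_left₀ _ two_ne_zero, ← Finset.sum_add_distrib]
  refine Finset.sum_congr rfl fun n _ => ?_
  rw [← Finset.sum_add_distrib]
  exact Finset.sum_congr rfl fun m _ => mul_add _ _ _

/-- For `y` with `y a.rev = - y a` one has `∑ a, cv a * y a = cn * (y i - y j)`.  With
`u = ∑ n, (v n / cn n) • cv n` and `r = ∑ n, (v n / cn n) • ρ n` the form equals
`|u|² / 2 + ⟨u, r⟩ = (p² - 1) |r|² / 2` since `u = p ϖ r - r`. -/
theorem mat_psd {ρ : Fin W.d → C.I → ℝ} (h : W.IsRho ρ) (v : Fin W.d → ℝ) :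
    0 ≤ ∑ n, v n * (W.mat ρ).mulVec v n := by
  have hc := lina_cn_pos (W := W)
  have h1 := lina_form (W.z.trans C.σ.symm) (C.p : ℝ)
    (fun n a => (C.cv (W.s n).i (W.s n).j a : ℝ)) ρ h fun n => v n / W.cn n
  have h2 : ∑ n, v n * (W.mat ρ).mulVec v n = ((C.p : ℝ) ^ 2 - 1) / 2 *
      ∑ a, (∑ n, v n / W.cn n * ρ n a) ^ 2 := by
    rw [← h1]
    refine Finset.sum_congr rfl fun n _ => ?_
    rw [Matrix.mulVec, dotProduct, Finset.mul_sum]
    refine Finset.sum_congr rfl fun m _ => ?_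
    rw [lina_pair m (ρ n) (h.rev n), lina_pair m _ (lina_cv_rev n), lina_self n, mat,
      Matrix.of_apply]
    have h3 := (hc n).ne'
    have h4 := (hc m).ne'
    by_cases h5 : n = m
    · subst h5
      rw [if_pos rfl, if_pos rfl, if_neg (lt_irrefl n), if_neg (lt_irrefl n)]
      field_simp
      ring
    · rw [if_neg h5, if_neg h5]
      split_ifs
      · field_simp
        ring
      · field_simp
        ring
  rw [h2]
  have h3 := lina_one_lt (C := C)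
  exact mul_nonneg (by nlinarith only [h3]) (Finset.sum_nonneg fun a _ => sq_nonneg _)

/-- the diagonal case of the previous computation -/
theorem IsRho.pos {ρ : Fin W.d → C.I → ℝ} (h : W.IsRho ρ) (n : Fin W.d) :
    0 < 1 + (ρ n (W.s n).i - ρ n (W.s n).j) := by
  have h1 := lina_sq (W.z.trans C.σ.symm) (C.p : ℝ)
    (fun a => (C.cv (W.s n).i (W.s n).j a : ℝ)) (ρ n) (h n)
  rw [lina_self, lina_pair n _ (h.rev n)] at h1
  have h2 := lina_cn_pos (W := W) n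
  have h3 := lina_one_lt (C := C)
  have h4 : 0 < ∑ a, ρ n a ^ 2 := by
    refine lt_of_le_of_ne (Finset.sum_nonneg fun a _ => sq_nonneg _) fun h5 => ?_
    have h6 : ∀ a, ρ n a = 0 := fun a => pow_eq_zero_iff (two_ne_zero) |>.1
      ((Finset.sum_eq_zero_iff_of_nonneg fun a _ => sq_nonneg (ρ n a)).1 h5.symm a
        (Finset.mem_univ a))
    rw [← h5, h6, h6] at h1
    linarith
  have h5 : 0 < W.cn n * (1 + (ρ n (W.s n).i - ρ n (W.s n).j)) := by
    have h6 : 0 < ((C.p : ℝ) ^ 2 - 1) / 2 * ∑ a, ρ n a ^ 2 := mul_pos (by nlinarith only [h3]) h4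
    linarith
  exact (mul_pos_iff_of_pos_left h2).1 h5

theorem linb_cv_i (i j : C.I) : C.cv i j i = 1 := if_pos (Or.inl rfl)

theorem linb_cv_j {i j : C.I} (h : i ≠ j) : C.cv i j j = -1 := by
  rw [cv, if_neg (not_or.2 ⟨h.symm, (C.rev_ne j).symm⟩), if_pos (Or.inl rfl)]

/-- the reflection acts on antisymmetric vectors by the usual formula -/
theorem linb_sw {i j : C.I} (h : i ≠ j) {y : C.I → ℝ} (hy : ∀ a, y a.rev = - y a) (a : C.I) :
    y (C.sw i j a) = y a - C.cv i j a * (y i - y j) := by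
  by_cases h1 : a = i
  · rw [h1, sw_left h, linb_cv_i]
    push_cast
    ring
  by_cases h2 : a = j
  · rw [h2, sw_right h, linb_cv_j h]
    push_cast
    ring
  by_cases h3 : a = i.rev
  · rw [h3, sw_rev_left h, cv_rev h, linb_cv_i, hy, hy]
    push_cast
    ring
  by_cases h4 : a = j.rev
  · rw [h4, sw_rev_right h, cv_rev h, linb_cv_j h, hy, hy]
    push_cast
    ring
  rw [sw_other h1 h2 h3 h4, cv, if_neg (not_or.2 ⟨h1, h4⟩), if_neg (not_or.2 ⟨h2, h3⟩)]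
  push_cast
  ring

theorem linb_symm_rev (a : C.I) : C.σ.symm a.rev = (C.σ.symm a).rev := by
  rw [Equiv.symm_apply_eq, C.σ_rev, Equiv.apply_symm_apply]

theorem linb_symm_blk {a b : C.I} (hb : C.blk a = C.blk b) :
    C.blk (C.σ.symm a) = C.blk (C.σ.symm b) := by
  rw [← C.σ_blk, Equiv.apply_symm_apply, Equiv.apply_symm_apply, hb]

theorem linb_symm_lt {a b : C.I} (hb : C.blk a = C.blk b) (hab : a < b) :
    C.σ.symm a < C.σ.symm b := by
  rcases lt_trichotomy (C.σ.symm a) (C.σ.symm b) with h | h | h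
  · exact h
  · exact absurd (C.σ.symm.injective h) hab.ne
  · have h1 := C.σ_mono _ _ (linb_symm_blk hb).symm h
    rw [Equiv.apply_symm_apply, Equiv.apply_symm_apply] at h1
    exact absurd h1 hab.not_gt

theorem linb_cv_map {π : Equiv.Perm C.I} (h : C.IsW π) (i j a : C.I) :
    C.cv (π i) (π j) (π a) = C.cv i j a := by
  simp only [cv, ← h.2, π.injective.eq_iff]

theorem linb_cv_mir (i j a : C.I) : C.cv j.rev i.rev a = C.cv i j a := by
  simp only [cv, Fin.rev_rev, or_comm]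

theorem linb_p : (1 : ℝ) < C.p := by exact_mod_cast C.hp.one_lt

theorem linb_cn (n : Fin W.d) : 0 < W.cn n := by
  unfold cn
  split_ifs <;> norm_num

theorem linb_theta {ρ : Fin W.d → C.I → ℝ} (h : W.IsRho ρ) {n : Fin W.d} {M : ℕ} {θ : C.I → ℤ}
    (hθ : W.IsTheta n M θ) (c : C.I) :
    (1 + (ρ n (W.s n).i - ρ n (W.s n).j)) * θ c = - (M * ρ n c) := by
  have hne := (W.s n).ne
  have hy : ∀ a : C.I, ρ n (C.σ.symm (W.z a.rev)) = - ρ n (C.σ.symm (W.z a)) := fun a => by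
    rw [(frame_isW W.frame).2, linb_symm_rev, h.rev]
  refine eq_neg_of_add_eq_zero_left ?_
  refine solve_unique (((C.sw (W.s n).i (W.s n).j).trans W.z).trans C.σ.symm) (linb_p (C := C))
    (fun c => (1 + (ρ n (W.s n).i - ρ n (W.s n).j)) * θ c + M * ρ n c) (fun a => ?_) c
  have h1 : (θ a : ℝ) - C.p * θ (C.σ.symm (W.z (C.sw (W.s n).i (W.s n).j a))) =
      - M * C.cv (W.s n).i (W.s n).j a := by exact_mod_cast hθ.2 a
  have h2 := linb_sw hne (y := fun a => ρ n (C.σ.symm (W.z a))) hy a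
  have h3 := h n a
  have h4 := h n (W.s n).i
  have h5 := h n (W.s n).j
  rw [linb_cv_i] at h4
  rw [linb_cv_j hne] at h5
  push_cast at h4 h5
  simp only [Equiv.trans_apply]
  rw [h2]
  linear_combination (-(1 + (ρ n (W.s n).i - ρ n (W.s n).j))) * h1 + M * h3
    - M * C.cv (W.s n).i (W.s n).j a * (h4 - h5)

/-- `(1 - p s ϖ) ρ = (1 + α(ρ)) α^∨`, so `(1 + α(ρ)) θ = - M ρ` by `solve_unique`. -/
theorem mat_of_ineq {ρ : Fin W.d → C.I → ℝ} (h : W.IsRho ρ) (ν : C.I → ℤ) (n₀ : Fin W.d)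
    (a : Fin W.d → ℝ) {M : ℕ} {θ : C.I → ℤ} (hθ : W.IsTheta n₀ M θ) (hi : W.Ineq ν n₀ a M θ) :
    (W.mat ρ).mulVec a n₀ ≤ (∑ c, ν c * ρ n₀ c) / W.cn n₀ := by
  have hκ := h.pos n₀
  have hM : (0 : ℝ) < M := by exact_mod_cast hθ.1
  have ht := linb_theta h hθ
  obtain ⟨κ, hk⟩ : ∃ κ, κ = 1 + (ρ n₀ (W.s n₀).i - ρ n₀ (W.s n₀).j) := ⟨_, rfl⟩
  rw [← hk] at hκ ht
  have h1 : κ * ∑ c, (ν c * θ c : ℝ) = - (M * ∑ c, ν c * ρ n₀ c) := by
    rw [Finset.mul_sum, Finset.mul_sum, ← Finset.sum_neg_distrib]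
    exact Finset.sum_congr rfl fun c _ => by linear_combination (ν c : ℝ) * ht c
  have h2 : M * ((W.mat ρ).mulVec a n₀ * W.cn n₀) = κ * (M * a n₀)
      - κ * (C.p * ∑ n, (if n₀ < n then
        a n * (θ (C.σ.symm (W.z (W.s n).i)) - θ (C.σ.symm (W.z (W.s n).j))) else 0))
      - κ * ∑ n, (if n < n₀ then a n * (θ (W.s n).i - θ (W.s n).j) else 0) := by
    have h3 : κ * (M * a n₀) = ∑ n, if n₀ = n then κ * (M * a n₀) else 0 := by
      rw [Finset.sum_ite_eq, if_pos (Finset.mem_univ _)]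
    rw [h3, Matrix.mulVec, dotProduct, Finset.sum_mul, Finset.mul_sum, Finset.mul_sum,
      Finset.mul_sum, Finset.mul_sum, ← Finset.sum_sub_distrib, ← Finset.sum_sub_distrib]
    refine Finset.sum_congr rfl fun n _ => ?_
    rw [mat, Matrix.of_apply, mul_right_comm, div_mul_cancel₀ _ (linb_cn n₀).ne']
    rcases lt_trichotomy n₀ n with h4 | h4 | h4
    · simp only [if_pos h4, if_neg h4.ne, if_neg h4.not_gt]
      linear_combination a n * C.p * (ht (C.σ.symm (W.z (W.s n).i)) - ht (C.σ.symm (W.z (W.s n).j)))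
        - M * a n * (h n₀ (W.s n).i - h n₀ (W.s n).j)
    · subst h4
      simp only [if_true, lt_irrefl, if_false]
      rw [hk]
      ring
    · simp only [if_pos h4, if_neg h4.ne', if_neg h4.not_gt]
      linear_combination a n * (ht (W.s n).i - ht (W.s n).j)
  have h5 := mul_nonpos_of_nonneg_of_nonpos hκ.le hi
  rw [le_div_iff₀ (linb_cn n₀)]
  refine le_of_mul_le_mul_left ?_ hM
  rw [h2]
  linarith

/-- the duality argument for a path `ζ` from `η` to `p ϖ η` -/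
theorem linb_dual {ρ : Fin W.d → C.I → ℝ} (h : W.IsRho ρ) (ν : C.I → ℝ) (a : Fin W.d → ℝ)
    (hb : ∀ n, (W.mat ρ).mulVec a n ≤ (∑ c, ν c * ρ n c) / W.cn n)
    (ζ : ℕ → C.I → ℝ) (x : Fin W.d → ℝ) (hx : ∀ n, 0 ≤ x n)
    (hs : ∀ (n : Fin W.d) c, ζ (n + 1) c = ζ n c + x n * C.cv (W.s n).i (W.s n).j c)
    (hd : ∀ c, ζ W.d c = C.p * ζ 0 (C.σ.symm (W.z c))) :
    ∑ n, (x n + (ζ n (W.s n).i - ζ n (W.s n).j)) * a n ≤ ∑ c, ν c * ζ 0 c := by
  have h1 : ∀ m, m ≤ W.d → ∀ c, ζ m c = ζ 0 c +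
      ∑ n : Fin W.d, if n.val < m then x n * C.cv (W.s n).i (W.s n).j c else 0 := by
    intro m
    induction m with
    | zero => simp only [zero_le, not_lt_zero, ↓ reduceIte, Finset.sum_const_zero, add_zero, implies_true, imp_self]
    | succ m ih =>
      intro hm c
      have h2 := hs ⟨m, hm⟩ c
      have h3 : x ⟨m, hm⟩ * C.cv (W.s ⟨m, hm⟩).i (W.s ⟨m, hm⟩).j c = ∑ n : Fin W.d,
          if ⟨m, hm⟩ = n then x n * C.cv (W.s n).i (W.s n).j c else 0 := by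
        rw [Finset.sum_ite_eq, if_pos (Finset.mem_univ _)]
      rw [h2, ih (Nat.le_of_succ_le hm), h3, add_assoc, ← Finset.sum_add_distrib]
      refine congrArg _ (Finset.sum_congr rfl fun n _ => ?_)
      simp only [Fin.ext_iff]
      rcases lt_trichotomy n.val m with h4 | h4 | h4
      · rw [if_pos h4, if_neg h4.ne', if_pos (Nat.lt_succ_of_lt h4), add_zero]
      · rw [if_neg h4.not_lt, if_pos h4.symm, if_pos (Nat.lt_succ_of_le h4.le), zero_add]
      · rw [if_neg h4.not_gt, if_neg h4.ne, if_neg (Nat.not_lt.2 h4), add_zero]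
  have h2 : ∀ c, ∑ n, x n * ρ n c = ζ 0 c := fun c => by
    refine eq_of_sub_eq_zero (solve_unique (W.z.trans C.σ.symm) (linb_p (C := C))
      (fun c => ∑ n, x n * ρ n c - ζ 0 c) (fun c => ?_) c)
    have h3 := h1 W.d le_rfl c
    simp only [Fin.is_lt, if_true] at h3
    have h4 : C.p * ∑ n, x n * ρ n (C.σ.symm (W.z c)) - ∑ n, x n * ρ n c =
        ∑ n, x n * C.cv (W.s n).i (W.s n).j c := by
      rw [Finset.mul_sum, ← Finset.sum_sub_distrib]
      exact Finset.sum_congr rfl fun n _ => by linear_combination x n * h n c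
    simp only [Equiv.trans_apply]
    linear_combination h4 - h3 + hd c
  have h3 : ∀ m, ∑ n, x n * W.cn n * W.mat ρ n m = x m + (ζ m (W.s m).i - ζ m (W.s m).j) := by
    intro m
    have h4 : x m = ∑ n, if n = m then x n else 0 := by
      rw [Finset.sum_ite_eq', if_pos (Finset.mem_univ _)]
    rw [h1 m m.2.le, h1 m m.2.le, ← h2, ← h2, h4, ← Finset.sum_add_distrib,
      ← Finset.sum_add_distrib, ← Finset.sum_sub_distrib, ← Finset.sum_add_distrib]
    refine Finset.sum_congr rfl fun n _ => ?_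
    rw [mat, Matrix.of_apply, mul_assoc, mul_div_cancel₀ _ (linb_cn n).ne']
    simp only [Fin.lt_def]
    split_ifs <;> ring
  calc _ = ∑ m, (∑ n, x n * W.cn n * W.mat ρ n m) * a m :=
        Finset.sum_congr rfl fun m _ => by rw [h3]
    _ = ∑ n, x n * ((W.mat ρ).mulVec a n * W.cn n) := by
        simp only [Finset.sum_mul, Matrix.mulVec, dotProduct, Finset.mul_sum]
        rw [Finset.sum_comm]
        exact Finset.sum_congr rfl fun n _ => Finset.sum_congr rfl fun m _ => by ring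
    _ ≤ ∑ n, x n * ∑ c, ν c * ρ n c :=
        Finset.sum_le_sum fun n _ =>
          mul_le_mul_of_nonneg_left ((le_div_iff₀ (linb_cn n)).1 (hb n)) (hx n)
    _ = ∑ c, ν c * ζ 0 c := by
        simp only [← h2, Finset.mul_sum]
        rw [Finset.sum_comm]
        exact Finset.sum_congr rfl fun c _ => Finset.sum_congr rfl fun n _ => by ring

variable (W) in
/-- the word is a reduced word of `wf` followed by the letter `- w_0 β` -/
structure Last (β : C.Sp) (l : Fin W.d) : Prop where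
  hd : W.d = W.m + 1
  hl : l.val = W.m
  hs : W.s l = β.op

theorem Last.lt {β : C.Sp} {l : Fin W.d} (h : W.Last β l) {n : Fin W.d} : n.val < W.m ↔ n ≠ l := by
  have h1 := h.hd
  have h2 := h.hl
  have h3 := n.isLt
  rw [Ne, Fin.ext_iff]
  omega

theorem lina_cv_swap {i j : C.I} (h : C.Simple i j) (a : C.I) : C.cv j i a = - C.cv i j a := by
  have e : ¬ ((a = i ∨ a = j.rev) ∧ (a = j ∨ a = i.rev)) := by
    rintro ⟨rfl | rfl, h1 | h1⟩
    · exact h.2.1.ne h1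
    · exact C.rev_ne _ h1.symm
    · exact C.rev_ne _ h1
    · exact h.2.1.ne (Fin.rev_injective h1).symm
  unfold cv
  split_ifs with h1 h2
  · exact absurd ⟨h2, h1⟩ e
  all_goals rfl

/-- LINA.  The dual path (paper 4).  `ζ n = η ∘ wI ∘ w n` for `n ≤ m`, `ζ (m + 1) = η ∘ w0 + M cv (s l)`;
`x n = ζ n (j n) - ζ n (i n) ≥ 0` for `n < m` by `cross` and `hK`, `x l = M`; use `linb_dual`,
`linb_sw`, `w_m`, `wI_wf`, `σ_symm_wJ`, `z_eq`. -/
theorem dual {ρ : Fin W.d → C.I → ℝ} (h : W.IsRho ρ) (ν : C.I → ℤ) (a : Fin W.d → ℝ)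
    (hb : ∀ n, (W.mat ρ).mulVec a n ≤ (∑ c, ν c * ρ n c) / W.cn n) {β : C.Sp} {l : Fin W.d}
    (hW : W.Last β l) {M : ℕ} {η : C.I → ℤ} (hη : C.IsEta β.i β.j M η)
    (hK : ∀ a b, C.blk a = C.blk b → C.lo a → ¬ C.lo b → η a ≤ η b) :
    (yb β M η : ℝ) * a l ≤ ((∑ c, ν c * η (C.wI c) : ℤ) : ℝ) := by
  have hm : l.val = W.m := hW.hl
  have hI := wI_isWL (C := C)
  obtain ⟨y, hy⟩ : ∃ y : ℕ → C.I → ℝ, ∀ n c, y n c = η (C.wI (W.w n c)) := ⟨_, fun _ _ => rfl⟩
  obtain ⟨ζ, hζ⟩ : ∃ ζ : ℕ → C.I → ℝ, ∀ n c, ζ n c =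
      if n ≤ W.m then y n c else y W.m c + M * C.cv (W.s l).i (W.s l).j c := ⟨_, fun _ _ => rfl⟩
  obtain ⟨x, hx⟩ : ∃ x : Fin W.d → ℝ, ∀ n, x n =
      if n.val < W.m then y n (W.s n).j - y n (W.s n).i else M := ⟨_, fun _ => rfl⟩
  have hle : ∀ n : Fin W.d, n.val ≤ W.m := fun n => by
    have h1 := hW.hd
    have h2 := n.isLt
    omega
  have h1 := linb_dual h (fun c => (ν c : ℝ)) a hb ζ x (fun n => ?_) (fun n c => ?_) fun c => ?_
  · rw [Finset.sum_eq_single l (fun n _ hn => ?_) fun hn => absurd (Finset.mem_univ l) hn] at h1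
    · have h2 : ∀ c, ζ 0 c = η (C.wI c) := fun c => by
        rw [hζ, if_pos (Nat.zero_le _), hy, W.w_zero, Equiv.Perm.one_apply]
      have h3 : ∀ c, ζ l c = η (C.w0 c) := fun c => by
        rw [hζ, if_pos hm.le, hy, hm, W.w_m, wI_wf]
      have h4 : (W.s l).i = C.w0 β.j := by rw [hW.hs]; rfl
      have h5 : (W.s l).j = C.w0 β.i := by rw [hW.hs]; rfl
      rw [hx, if_neg hm.not_lt, h3, h3, h4, h5, w0_w0, w0_w0] at h1
      simp only [h2] at h1
      unfold yb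
      push_cast
      linarith only [h1]
    · rw [hx, if_pos (hW.lt.2 hn), hζ, hζ, if_pos (hle n), if_pos (hle n)]
      ring
  · rw [hx]
    split_ifs with hn
    · have h2 := W.cross n hn
      have h3 := W.isW n.isLt.le
      rw [hy, hy, sub_nonneg, Int.cast_le]
      exact hK _ _ (by rw [hI.1.1, hI.1.1, h3.1, h3.1, (W.s n).h.1]) ((hI.2 _).2 h2.1)
        fun h4 => h2.2 ((hI.2 _).1 h4)
    · exact Nat.cast_nonneg M
  · by_cases hn : n.val < W.m
    · have h3 := W.isW n.isLt.le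
      have h4 := linb_sw (W.s n).ne (y := y n) (fun c => by
        rw [hy, hy, h3.2, hI.1.2, hη.rev β.ne, Int.cast_neg]) c
      rw [hζ, hζ, hx, if_pos (Nat.succ_le_of_lt hn), if_pos hn.le, if_pos hn, hy, W.w_succ,
        Equiv.Perm.mul_apply, ← hy, h4]
      ring
    · have e : n = l := by
        by_contra h2
        exact hn (hW.lt.2 h2)
      subst e
      rw [hζ, hζ, hx, if_neg hn, if_pos hm.le, if_neg (by omega), hm]
  · have h2 : ¬ W.d ≤ W.m := by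
      have := hW.hd
      omega
    have h4 : (W.s l).i = C.w0 β.j := by rw [hW.hs]; rfl
    have h5 : (W.s l).j = C.w0 β.i := by rw [hW.hs]; rfl
    have h6 : C.cv (W.s l).i (W.s l).j c = - C.cv β.i β.j (C.w0 c) := by
      rw [h4, h5, ← lina_cv_swap β.h, ← linb_cv_map w0_isW β.j β.i, w0_w0]
    have h7 : (C.p : ℝ) * η (C.σ.symm (C.w0 c)) - η (C.w0 c) = - M * C.cv β.i β.j (C.w0 c) := by
      exact_mod_cast hη.2 (C.w0 c)
    rw [hζ, hζ, if_neg h2, if_pos (Nat.zero_le _), hy, hy, W.w_m, wI_wf, W.w_zero,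
      Equiv.Perm.one_apply, W.z_eq, Equiv.Perm.mul_apply, σ_symm_wJ, wI_wI, h6]
    push_cast
    linear_combination - h7

end Wd

end Ctx

end Pool.Agent.MP_b8b722_ag

end

end partLin

section partMachDefs

/-!
Abstract local rings of the Bott-Samelson tower.
-/

set_option linter.unusedSectionVars false
set_option linter.unusedVariables false

noncomputable section

namespace Pool.Agent.MP_b8b722_ag

/-- a local ring with boundary equations `T`, a function `φ` and torus coordinates `b` -/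
structure LP (k : Type) [Field k] (d : ℕ) (I : Type) where
  O : Type
  [cr : CommRing O]
  [alg : Algebra k O]
  [loc : IsLocalRing O]
  [noeth : IsNoetherianRing O]
  T : Fin d → O
  φ : O
  b : I → O

attribute [instance] LP.cr LP.alg LP.loc LP.noeth

/-- `ρ` exhibits `O'` as a localisation of the domain `O` -/
def IsLoc {O O' : Type} [CommRing O] [CommRing O'] (ρ : O →+* O') : Prop :=
  Function.Injective ρ ∧ ∀ x : O', ∃ r s : O, IsUnit (ρ s) ∧ x * ρ s = ρ r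

namespace LP

variable {k : Type} [Field k] {d : ℕ} {I : Type} (y : LP k d I)

/-- ideal of a stratum -/
def IS (S : Finset (Fin d)) : Ideal y.O := Ideal.span (y.T '' (S : Set (Fin d)))

/-- simple normal crossings -/
def SNC : Prop :=
  ∀ S : Finset (Fin d), (∀ n ∈ S, ¬ IsUnit (y.T n)) → (y.IS S).IsPrime ∧ ∀ n ∉ S, y.T n ∉ y.IS S

abbrev κ : Type := IsLocalRing.ResidueField y.O

abbrev r : y.O →ₐ[k] y.κ := resA k y.O

end LP

namespace Ctx

variable {C : Ctx} (W : C.Wd)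

/-- the change of coordinates between two charts at the generic point `y` of the curve `n₀` -/
def Wd.Transf (ν : C.I → ℤ) (n₀ : Fin W.d) (y y' : LP C.k W.d C.I) (ρ : y'.O →ₐ[C.k] y.O) : Prop :=
  ∃ (x τ₀ τ₁ : C.I → y.κ) (u : Fin W.d → y.Oˣ) (v : y.Oˣ),
    (∀ a, x a ≠ 0) ∧ (∀ a, τ₀ a ≠ 0) ∧ (∀ a, τ₁ a ≠ 0) ∧
    (∀ n, ρ (y'.T n) = u n * y.T n) ∧ ρ y'.φ = v * y.φ ∧ y.r v = ∏ a, x a ^ ν a ∧
    (∀ n, n₀ < n → y.r (u n) * τ₁ (W.s n).i = τ₁ (W.s n).j) ∧
    (∀ n, n < n₀ → y.r (u n) * τ₀ (W.s n).i = τ₀ (W.s n).j) ∧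
    (∀ a, τ₀ a * y.r (u n₀) ^ C.cv (W.s n₀).i (W.s n₀).j a =
      τ₁ (C.sw (W.s n₀).i (W.s n₀).j a)) ∧
    (∀ a, τ₁ (W.z.symm (C.σ a)) * x a ^ C.p = 1) ∧
    ∀ a, y.r (ρ (y'.b a)) = x a * y.r (y.b a) * τ₀ a

/-- the properties of the family of local rings that are used in the valuation argument -/
structure Wd.Tower (ν : C.I → ℤ) (Pts : Set (LP C.k W.d C.I)) : Prop where
  snc : ∀ y ∈ Pts, y.SNC
  φ_ne : ∀ y ∈ Pts, y.φ ≠ 0
  b_unit : ∀ y ∈ Pts, ∀ a, IsUnit (y.b a)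
  gen : ∀ y ∈ Pts, ∀ S : Finset (Fin W.d), (∀ n ∈ S, ¬ IsUnit (y.T n)) →
    ∃ y' ∈ Pts, ∃ ρ : y.O →ₐ[C.k] y'.O, IsLoc (ρ : y.O →+* y'.O) ∧
      IsLocalRing.maximalIdeal y'.O = y'.IS S ∧ (∀ n, ρ (y.T n) = y'.T n) ∧ ρ y.φ = y'.φ ∧
      ∀ a, ρ (y.b a) = y'.b a
  prop : ∀ y ∈ Pts, ∀ n₀ : Fin W.d, IsLocalRing.maximalIdeal y.O = y.IS (Finset.univ.erase n₀) →
    ∀ V : Subalgebra C.k y.κ, IsVal V →
    ∃ y' ∈ Pts, ∃ ρ : y'.O →ₐ[C.k] y.O, IsLoc (ρ : y'.O →+* y.O) ∧ (∀ x, y.r (ρ x) ∈ V) ∧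
      W.Transf ν n₀ y y' ρ
  min : ∃ y ∈ Pts, ∀ n, ¬ IsUnit (y.T n)

end Ctx

end Pool.Agent.MP_b8b722_ag

end

end partMachDefs

section partLex

/-!
Lexicographic leading terms along a flag of strata.
-/

set_option linter.unusedSectionVars false
set_option linter.unusedVariables false

noncomputable section

namespace Pool.Agent.MP_b8b722_ag

variable {d : ℕ} {O O' : Type} [CommRing O] [CommRing O']

def IdS (T : Fin d → O) (S : Finset (Fin d)) : Ideal O := Ideal.span (T '' (S : Set (Fin d)))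

/-- `ψ` is the leading coefficient of `φ` modulo `T_S` along the list, with exponents `a` -/
def Lex (T : Fin d → O) (a : Fin d → ℕ) : List (Fin d) → Finset (Fin d) → O → O → Prop
  | [], S, φ, ψ => φ - ψ ∈ IdS T S ∧ ψ ∉ IdS T S
  | n :: σ, S, φ, ψ => ∃ φ', φ - T n ^ a n * φ' ∈ IdS T S ∧ φ' ∉ IdS T (insert n S) ∧
      Lex T a σ (insert n S) φ' ψ

/-- normal crossings for the indices in `S₀` -/
def NC (T : Fin d → O) (S₀ : Finset (Fin d)) : Prop :=
  ∀ S ⊆ S₀, (IdS T S).IsPrime ∧ ∀ n ∉ S, T n ∉ IdS T S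

variable {T : Fin d → O} {S₀ : Finset (Fin d)}

theorem lex_le {S S' : Finset (Fin d)} (h : S ⊆ S') : IdS T S ≤ IdS T S' :=
  Ideal.span_mono (Set.image_mono (by exact_mod_cast h))

theorem lex_mem {S : Finset (Fin d)} {n : Fin d} (h : n ∈ S) : T n ∈ IdS T S :=
  Ideal.subset_span ⟨n, by exact_mod_cast h, rfl⟩

theorem lex_insert {S : Finset (Fin d)} {n : Fin d} {x : O} :
    x ∈ IdS T (insert n S) ↔ ∃ c, x - T n * c ∈ IdS T S := by
  constructor
  · intro h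
    rw [IdS, Finset.coe_insert, Set.image_insert_eq, Ideal.mem_span_insert] at h
    obtain ⟨c, z, hz, rfl⟩ := h
    exact ⟨c, by rw [mul_comm c, add_sub_cancel_left]; exact hz⟩
  · rintro ⟨c, hc⟩
    have h1 := lex_le (T := T) (Finset.subset_insert n S) hc
    have h2 : T n * c ∈ IdS T (insert n S) :=
      Ideal.mul_mem_right _ _ (lex_mem (Finset.mem_insert_self n S))
    have h3 := add_mem h1 h2
    rwa [sub_add_cancel] at h3

theorem lex_union (n : Fin d) (σ : List (Fin d)) (S : Finset (Fin d)) :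
    S ∪ (n :: σ).toFinset = insert n S ∪ σ.toFinset := by
  rw [List.toFinset_cons, Finset.union_insert, Finset.insert_union]

theorem lex_left {a : Fin d → ℕ} {σ : List (Fin d)} {S : Finset (Fin d)} {φ φ' ψ : O}
    (hφ : φ' - φ ∈ IdS T S) (h : Lex T a σ S φ ψ) : Lex T a σ S φ' ψ := by
  cases σ with
  | nil =>
    refine ⟨?_, h.2⟩
    have := add_mem hφ h.1
    rwa [sub_add_sub_cancel] at this
  | cons n σ =>
    obtain ⟨x, h1, h2, h3⟩ := h
    refine ⟨x, ?_, h2, h3⟩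
    have := add_mem hφ h1
    rwa [sub_add_sub_cancel] at this

theorem lex_step {J : Ideal O} (hJ : J.IsPrime) {t x y : O} (ht : t ∉ J) {a b : ℕ} (hab : a ≤ b)
    (h : t ^ a * x - t ^ b * y ∈ J) : x - t ^ (b - a) * y ∈ J := by
  obtain ⟨c, rfl⟩ := Nat.exists_eq_add_of_le hab
  rw [Nat.add_sub_cancel_left]
  rw [show t ^ a * x - t ^ (a + c) * y = t ^ a * (x - t ^ c * y) by ring] at h
  exact (hJ.mem_or_mem h).resolve_left fun h' => ht (hJ.mem_of_pow_mem a h')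

theorem lex_not_lt {S : Finset (Fin d)} {n : Fin d} (hJ : (IdS T S).IsPrime)
    (ht : T n ∉ IdS T S) {x y : O} {a b : ℕ} (h : T n ^ a * x - T n ^ b * y ∈ IdS T S)
    (hx : x ∉ IdS T (insert n S)) : b ≤ a := by
  by_contra hab
  rw [not_le] at hab
  have h1 := lex_step hJ ht hab.le h
  obtain ⟨c, hc⟩ : ∃ c, b - a = c + 1 := ⟨b - a - 1, by omega⟩
  rw [hc, pow_succ', mul_assoc] at h1
  exact hx (lex_insert.2 ⟨_, h1⟩)

theorem Lex.congr {a a' : Fin d → ℕ} {σ : List (Fin d)} {S : Finset (Fin d)} {φ ψ : O}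
    (h : Lex T a σ S φ ψ) (ha : ∀ n ∈ σ, a n = a' n) : Lex T a' σ S φ ψ := by
  induction σ generalizing S φ with
  | nil => exact h
  | cons n σ ih =>
    obtain ⟨x, h1, h2, h3⟩ := h
    exact ⟨x, ha n List.mem_cons_self ▸ h1, h2,
      ih h3 fun m hm => ha m (List.mem_cons_of_mem n hm)⟩

theorem Lex.not_mem {a : Fin d → ℕ} {σ : List (Fin d)} {S : Finset (Fin d)} {φ ψ : O}
    (h : Lex T a σ S φ ψ) : ψ ∉ IdS T (S ∪ σ.toFinset) := by
  induction σ generalizing S φ with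
  | nil => rw [List.toFinset_nil, Finset.union_empty]; exact h.2
  | cons n σ ih =>
    obtain ⟨x, -, -, h3⟩ := h
    rw [lex_union]; exact ih h3

/-- Krull's intersection theorem in the domain `O ⧸ IdS T S` -/
theorem exists_lex [IsNoetherianRing O] (hT : NC T S₀) {σ : List (Fin d)} {S : Finset (Fin d)}
    (hσ : σ.Nodup) (hd : ∀ n ∈ σ, n ∉ S) (hs : S ∪ σ.toFinset ⊆ S₀) {φ : O} (hφ : φ ∉ IdS T S) :
    ∃ a ψ, Lex T a σ S φ ψ := by
  induction σ generalizing S φ with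
  | nil => exact ⟨fun _ => 0, φ, by rw [sub_self]; exact zero_mem _, hφ⟩
  | cons n σ ih =>
    rw [lex_union] at hs
    obtain ⟨hn, hσ'⟩ := List.nodup_cons.1 hσ
    have hS1 : insert n S ⊆ S₀ := Finset.subset_union_left.trans hs
    have hp := (hT S ((Finset.subset_insert n S).trans hS1)).1
    have hp1 := (hT _ hS1).1
    have hu : ¬ IsUnit (Ideal.Quotient.mk (IdS T S) (T n)) := by
      intro hu
      obtain ⟨c, hc⟩ := hu.exists_right_inv
      obtain ⟨c, rfl⟩ := Ideal.Quotient.mk_surjective c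
      refine hp1.ne_top ((Ideal.eq_top_iff_one _).2 (lex_insert.2 ⟨c, ?_⟩))
      rw [← Ideal.Quotient.eq, map_one, map_mul, hc]
    obtain ⟨k, x, hx, e⟩ := WfDvdMonoid.max_power_factor'
      (fun h => hφ (Ideal.Quotient.eq_zero_iff_mem.1 h) : Ideal.Quotient.mk (IdS T S) φ ≠ 0) hu
    obtain ⟨x, rfl⟩ := Ideal.Quotient.mk_surjective x
    have hx1 : x ∉ IdS T (insert n S) := by
      intro h
      obtain ⟨c, hc⟩ := lex_insert.1 h
      exact hx ⟨Ideal.Quotient.mk _ c, by rw [← map_mul, Ideal.Quotient.eq]; exact hc⟩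
    obtain ⟨a, ψ, h⟩ := ih hσ' (fun m hm => by
      rw [Finset.mem_insert, not_or]
      exact ⟨fun e => hn (e ▸ hm), hd m (List.mem_cons_of_mem n hm)⟩) hs hx1
    refine ⟨Function.update a n k, ψ, x, ?_, hx1, h.congr fun m hm => ?_⟩
    · rw [Function.update_self, ← Ideal.Quotient.eq, e, map_mul, map_pow]
    · rw [Function.update_of_ne fun e : m = n => hn (e ▸ hm)]

theorem Lex.unique (hT : NC T S₀) {a a' : Fin d → ℕ} {σ : List (Fin d)} {S : Finset (Fin d)}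
    (hσ : σ.Nodup) (hd : ∀ n ∈ σ, n ∉ S) (hs : S ∪ σ.toFinset ⊆ S₀) {φ φ' ψ ψ' : O}
    (hφ : φ - φ' ∈ IdS T S) (h : Lex T a σ S φ ψ) (h' : Lex T a' σ S φ' ψ') :
    (∀ n ∈ σ, a n = a' n) ∧ ψ - ψ' ∈ IdS T (S ∪ σ.toFinset) := by
  induction σ generalizing S φ φ' with
  | nil =>
    refine ⟨fun n hn => absurd hn List.not_mem_nil, ?_⟩
    rw [List.toFinset_nil, Finset.union_empty,
      show ψ - ψ' = (φ - φ') - (φ - ψ) + (φ' - ψ') by ring]
    exact add_mem (sub_mem hφ h.1) h'.1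
  | cons n σ ih =>
    rw [lex_union] at hs ⊢
    obtain ⟨hn, hσ'⟩ := List.nodup_cons.1 hσ
    have hS1 : insert n S ⊆ S₀ := Finset.subset_union_left.trans hs
    obtain ⟨hp, hT1⟩ := hT S ((Finset.subset_insert n S).trans hS1)
    have ht := hT1 n (hd n List.mem_cons_self)
    obtain ⟨x, h1, h2, h3⟩ := h
    obtain ⟨x', h1', h2', h3'⟩ := h'
    have e : T n ^ a n * x - T n ^ a' n * x' ∈ IdS T S := by
      rw [show T n ^ a n * x - T n ^ a' n * x' =
        (φ - φ') - (φ - T n ^ a n * x) + (φ' - T n ^ a' n * x') by ring]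
      exact add_mem (sub_mem hφ h1) h1'
    have e' : T n ^ a' n * x' - T n ^ a n * x ∈ IdS T S := by
      rw [← neg_sub]; exact neg_mem e
    have hn' : a n = a' n := le_antisymm (lex_not_lt hp ht e' h2') (lex_not_lt hp ht e h2)
    have hx : x - x' ∈ IdS T S := by
      have := lex_step hp ht hn'.le e
      rwa [hn', Nat.sub_self, pow_zero, one_mul] at this
    obtain ⟨i1, i2⟩ := ih hσ' (fun m hm => by
      rw [Finset.mem_insert, not_or]
      exact ⟨fun e => hn (e ▸ hm), hd m (List.mem_cons_of_mem n hm)⟩) hs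
      (lex_le (Finset.subset_insert n S) hx) h3 h3'
    refine ⟨fun m hm => ?_, i2⟩
    rcases List.mem_cons.1 hm with rfl | hm
    exacts [hn', i1 m hm]

theorem lex_append {a : Fin d → ℕ} {σ σ' : List (Fin d)} {S : Finset (Fin d)} {φ ψ : O} :
    ((σ ≠ [] ∨ φ ∉ IdS T S) → Lex T a (σ ++ σ') S φ ψ →
      ∃ ψ₁, Lex T a σ S φ ψ₁ ∧ Lex T a σ' (S ∪ σ.toFinset) ψ₁ ψ) ∧
    ((∃ ψ₁, Lex T a σ S φ ψ₁ ∧ Lex T a σ' (S ∪ σ.toFinset) ψ₁ ψ) → Lex T a (σ ++ σ') S φ ψ) := by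
  induction σ generalizing S φ with
  | nil =>
    rw [List.toFinset_nil, Finset.union_empty, List.nil_append]
    refine ⟨fun h0 h => ⟨φ, ⟨by rw [sub_self]; exact zero_mem _, h0.resolve_left (· rfl)⟩, h⟩, ?_⟩
    rintro ⟨ψ₁, h1, h2⟩
    exact lex_left h1.1 h2
  | cons n σ ih =>
    rw [lex_union, List.cons_append]
    constructor
    · rintro - ⟨x, h1, h2, h3⟩
      obtain ⟨ψ₁, h4, h5⟩ := ih.1 (Or.inr h2) h3
      exact ⟨ψ₁, ⟨x, h1, h2, h4⟩, h5⟩
    · rintro ⟨ψ₁, ⟨x, h1, h2, h4⟩, h5⟩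
      exact ⟨x, h1, h2, ih.2 ⟨ψ₁, h4, h5⟩⟩

theorem lex_dvd {S : Finset (Fin d)} {j : Fin d} (hp : (IdS T S).IsPrime) (hj : T j ∉ IdS T S)
    (hp1 : (IdS T (insert j S)).IsPrime) {t x : O} (ht : t ∉ IdS T (insert j S)) (k : ℕ) :
    ∀ y : O, T j ^ k * x - t * y ∈ IdS T S → ∃ z, y - T j ^ k * z ∈ IdS T S := by
  induction k with
  | zero => exact fun y _ => ⟨y, by rw [pow_zero, one_mul, sub_self]; exact zero_mem _⟩
  | succ k ih =>
    intro y h
    have h1 : t * y ∈ IdS T (insert j S) := lex_insert.2 ⟨T j ^ k * x, by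
      rw [← neg_sub, ← mul_assoc, ← pow_succ']; exact neg_mem h⟩
    obtain ⟨c, hc⟩ := lex_insert.1 ((hp1.mem_or_mem h1).resolve_left ht)
    have h2 : T j * (T j ^ k * x - t * c) ∈ IdS T S := by
      rw [show T j * (T j ^ k * x - t * c) =
        (T j ^ (k + 1) * x - t * y) + t * (y - T j * c) by ring]
      exact add_mem h (Ideal.mul_mem_left _ _ hc)
    obtain ⟨z, hz⟩ := ih c ((hp.mem_or_mem h2).resolve_left hj)
    refine ⟨z, ?_⟩
    rw [show y - T j ^ (k + 1) * z = (y - T j * c) + T j * (c - T j ^ k * z) by ring]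
    exact add_mem hc (Ideal.mul_mem_left _ _ hz)

/-- the order along `T j` can only grow when one first passes to the leading term along `T i` -/
theorem lex_mono (hT : NC T S₀) {a a' : Fin d → ℕ} {i j : Fin d} {S : Finset (Fin d)}
    (hij : i ≠ j) (hi : i ∉ S) (hj : j ∉ S) (hs : insert i (insert j S) ⊆ S₀) {φ ψ ψ' : O}
    (h : Lex T a [j] S φ ψ) (h' : Lex T a' [i, j] S φ ψ') : a j ≤ a' j := by
  obtain ⟨x, h1, -, -⟩ := h
  obtain ⟨y, h2, -, z, h3, h4, -⟩ := h'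
  have s1 : insert j S ⊆ S₀ := (Finset.subset_insert i _).trans hs
  have s2 : insert i S ⊆ S₀ :=
    (Finset.insert_subset_insert i (Finset.subset_insert j S)).trans hs
  obtain ⟨p0, n0⟩ := hT S ((Finset.subset_insert j S).trans s1)
  obtain ⟨p1, n1⟩ := hT _ s1
  obtain ⟨p2, n2⟩ := hT _ s2
  have hi1 : T i ∉ IdS T (insert j S) := n1 i (by rw [Finset.mem_insert, not_or]; exact ⟨hij, hi⟩)
  have hj2 : T j ∉ IdS T (insert i S) :=
    n2 j (by rw [Finset.mem_insert, not_or]; exact ⟨hij.symm, hj⟩)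
  obtain ⟨w, hw⟩ := lex_dvd p0 (n0 j hj) p1 (t := T i ^ a' i) (x := x)
    (fun h => hi1 (p1.mem_of_pow_mem _ h)) (a j) y (by
      rw [show T j ^ a j * x - T i ^ a' i * y = (φ - T i ^ a' i * y) - (φ - T j ^ a j * x) by ring]
      exact sub_mem h2 h1)
  refine lex_not_lt p2 hj2 (x := z) (y := w) ?_ h4
  rw [show T j ^ a' j * z - T j ^ a j * w = (y - T j ^ a j * w) - (y - T j ^ a' j * z) by ring]
  exact sub_mem (lex_le (Finset.subset_insert i S) hw) h3

theorem lex_map_mem {T' : Fin d → O'} (ρ : O →+* O') (u : Fin d → O'ˣ)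
    (hu : ∀ n, ρ (T n) = u n * T' n) {S : Finset (Fin d)} {x : O} (hx : x ∈ IdS T S) :
    ρ x ∈ IdS T' S := by
  have : IdS T S ≤ (IdS T' S).comap ρ := Ideal.span_le.2 (by
    rintro _ ⟨n, hn, rfl⟩
    rw [SetLike.mem_coe, Ideal.mem_comap, hu]
    exact Ideal.mul_mem_left _ _ (lex_mem (by exact_mod_cast hn)))
  exact this hx

/-- transport along a ring map that rescales the `T n` by units -/
theorem Lex.map {T' : Fin d → O'} (ρ : O →+* O') (u : Fin d → O'ˣ) (hu : ∀ n, ρ (T n) = u n * T' n)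
    (hρ : ∀ S ⊆ S₀, ∀ x, ρ x ∈ IdS T' S → x ∈ IdS T S) {a : Fin d → ℕ} {σ : List (Fin d)}
    {S : Finset (Fin d)} (hs : S ∪ σ.toFinset ⊆ S₀) {φ ψ : O} (h : Lex T a σ S φ ψ) (v : O'ˣ) :
    Lex T' a σ S (v * ρ φ) (v * (σ.map fun n => (u n : O') ^ a n).prod * ρ ψ) := by
  induction σ generalizing S φ v with
  | nil =>
    rw [List.toFinset_nil, Finset.union_empty] at hs
    rw [List.map_nil, List.prod_nil, mul_one]
    refine ⟨?_, fun h' => h.2 (hρ S hs _ ((Ideal.unit_mul_mem_iff_mem _ v.isUnit).1 h'))⟩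
    rw [← mul_sub, ← map_sub]
    exact Ideal.mul_mem_left _ _ (lex_map_mem ρ u hu h.1)
  | cons n σ ih =>
    rw [lex_union] at hs
    obtain ⟨x, h1, h2, h3⟩ := h
    refine ⟨(v * u n ^ a n : O'ˣ) * ρ x, ?_, fun h' => h2 (hρ _
      (Finset.subset_union_left.trans hs) _
        ((Ideal.unit_mul_mem_iff_mem _ (v * u n ^ a n).isUnit).1 h')), ?_⟩
    · have := Ideal.mul_mem_left _ (v : O') (lex_map_mem ρ u hu h1)
      rw [map_sub, map_mul, map_pow, hu] at this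
      rw [Units.val_mul, Units.val_pow_eq_pow_val]
      convert this using 1
      ring
    · have := ih hs h3 (v * u n ^ a n)
      rw [List.map_cons, List.prod_cons, ← mul_assoc (v : O')]
      rwa [Units.val_mul, Units.val_pow_eq_pow_val] at this ⊢

/-- primes below the centre of a localisation are contracted -/
theorem IsLoc.comap_IdS [IsLocalRing O'] {T' : Fin d → O'} {ρ : O →+* O'} (h : IsLoc ρ)
    (u : Fin d → O'ˣ) (hu : ∀ n, ρ (T n) = u n * T' n) {S : Finset (Fin d)}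
    (hp : (IdS T S).IsPrime) (hS : ∀ n ∈ S, ¬ IsUnit (T' n)) {x : O} (hx : ρ x ∈ IdS T' S) :
    x ∈ IdS T S := by
  have key : ∀ y ∈ IdS T' S, ∃ r s : O, r ∈ IdS T S ∧ IsUnit (ρ s) ∧ y * ρ s = ρ r := by
    intro y hy
    refine Submodule.span_induction (p := fun y _ =>
      ∃ r s : O, r ∈ IdS T S ∧ IsUnit (ρ s) ∧ y * ρ s = ρ r) ?_ ?_ ?_ ?_ hy
    · rintro _ ⟨n, hn, rfl⟩
      obtain ⟨r, s, hs, e⟩ := h.2 ((u n)⁻¹ : O'ˣ)
      refine ⟨r * T n, s, Ideal.mul_mem_left _ _ (lex_mem (by exact_mod_cast hn)), hs, ?_⟩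
      rw [map_mul, ← e, hu, mul_right_comm, Units.inv_mul_cancel_left]
    · exact ⟨0, 1, zero_mem _, by rw [map_one]; exact isUnit_one, by rw [zero_mul, map_zero]⟩
    · rintro y y' - - ⟨r, s, hr, hs, e⟩ ⟨r', s', hr', hs', e'⟩
      refine ⟨r * s' + s * r', s * s', add_mem (Ideal.mul_mem_right _ _ hr)
        (Ideal.mul_mem_left _ _ hr'), by rw [map_mul]; exact hs.mul hs', ?_⟩
      rw [map_add, map_mul, map_mul, map_mul, ← e, ← e']; ring
    · rintro c y - ⟨r, s, hr, hs, e⟩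
      obtain ⟨r', s', hs', e'⟩ := h.2 c
      refine ⟨r' * r, s' * s, Ideal.mul_mem_left _ _ hr, by rw [map_mul]; exact hs'.mul hs, ?_⟩
      rw [map_mul, map_mul, ← e, ← e', smul_eq_mul]; ring
  obtain ⟨r, s, hr, hs, e⟩ := key _ hx
  rw [← map_mul] at e
  refine (hp.mem_or_mem (h.1 e ▸ hr : x * s ∈ IdS T S)).resolve_right fun h' => ?_
  have hle : IdS T' S ≤ IsLocalRing.maximalIdeal O' := Ideal.span_le.2 (by
    rintro _ ⟨n, hn, rfl⟩
    exact (IsLocalRing.mem_maximalIdeal _).2 (hS n (by exact_mod_cast hn)))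
  exact (IsLocalRing.mem_maximalIdeal _).1 (hle (lex_map_mem ρ u hu h')) hs

end Pool.Agent.MP_b8b722_ag

end

end partLex

section partBal

/-!
Zeros and poles on the one-dimensional strata; the inequality `ν(η) ≥ 0`.
-/

set_option linter.unusedSectionVars false
set_option linter.unusedVariables false

noncomputable section

namespace Pool.Agent.MP_b8b722_ag

namespace LP

variable {k : Type} [Field k] {d : ℕ} {I : Type} (y : LP k d I)

open Classical in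
/-- exponent of `T n` in the leading term of `φ` along `σ ++ [n]` -/
def ex (σ : List (Fin d)) (n : Fin d) : ℕ :=
  if h : ∃ a ψ, Lex y.T a (σ ++ [n]) ∅ y.φ ψ then h.choose n else 0

variable {y}

theorem SNC.nc (h : y.SNC) {S₀ : Finset (Fin d)} (hS : ∀ n ∈ S₀, ¬ IsUnit (y.T n)) :
    NC y.T S₀ := fun S hs => h S fun n hn => hS n (hs hn)

/-- the exponents of any leading term are given by `ex` -/
theorem ex_eq (h : y.SNC) {σ : List (Fin d)} (hσ : σ.Nodup) (hS : ∀ n ∈ σ, ¬ IsUnit (y.T n))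
    {a : Fin d → ℕ} {ψ : y.O} (hl : Lex y.T a σ ∅ y.φ ψ) {σ₁ σ₂ : List (Fin d)} {i : Fin d}
    (e : σ = σ₁ ++ i :: σ₂) : y.ex σ₁ i = a i := by
  have e' : σ = (σ₁ ++ [i]) ++ σ₂ := by simp [e]
  subst e
  rw [e'] at hl hσ
  obtain ⟨ψ₁, h1, -⟩ := lex_append.1 (Or.inl (by simp)) hl
  have hex : ∃ a ψ, Lex y.T a (σ₁ ++ [i]) ∅ y.φ ψ := ⟨a, ψ₁, h1⟩
  unfold ex
  rw [dif_pos hex]
  obtain ⟨ψ', h2⟩ := hex.choose_spec
  have hnc : NC y.T (σ₁ ++ [i]).toFinset := h.nc fun n hn => hS n (by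
    rw [e']; exact List.mem_append_left _ (List.mem_toFinset.1 hn))
  exact (Lex.unique hnc hσ.of_append_left (fun n _ => Finset.notMem_empty n)
    (by rw [Finset.empty_union]) (by rw [sub_self]; exact zero_mem _) h2 h1).1 i (by simp)

theorem bala_glue {O : Type} [CommRing O] {T : Fin d → O} {a a' : Fin d → ℕ}
    {σ σ' : List (Fin d)} {S : Finset (Fin d)} {φ ψ₁ ψ : O} (h1 : Lex T a σ S φ ψ₁)
    (h2 : Lex T a' σ' (S ∪ σ.toFinset) ψ₁ ψ) (hd : ∀ n ∈ σ', n ∉ σ) :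
    Lex T (fun n => if n ∈ σ then a n else a' n) (σ ++ σ') S φ ψ :=
  lex_append.2 ⟨ψ₁, h1.congr fun n hn => by simp [hn], h2.congr fun n hn => by simp [hd n hn]⟩

theorem bala_not_mem_empty {O : Type} [CommRing O] (T : Fin d → O) {φ : O} (hφ : φ ≠ 0) :
    φ ∉ IdS T ∅ := by
  simpa [IdS] using hφ

theorem ex_mono (h : y.SNC) (hφ : y.φ ≠ 0) (hS : ∀ n, ¬ IsUnit (y.T n)) {σ : List (Fin d)}
    {i j : Fin d} (hσ : (σ ++ [i, j]).Nodup) : y.ex σ j ≤ y.ex (σ ++ [i]) j := by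
  have hnc : NC y.T Finset.univ := h.nc fun n _ => hS n
  obtain ⟨hσ1, hσ2, hσ3⟩ := List.nodup_append.1 hσ
  have hij : i ≠ j := by simpa using hσ2
  have hi : i ∉ σ := fun hi => hσ3 i hi i (by simp) rfl
  have hj : j ∉ σ := fun hj => hσ3 j hj j (by simp) rfl
  obtain ⟨a, ψ, h0⟩ := exists_lex hnc (S := ∅) hσ1 (fun n _ => Finset.notMem_empty n)
    (Finset.subset_univ _) (bala_not_mem_empty y.T hφ)
  obtain ⟨a1, ψ1, h1⟩ := exists_lex hnc (σ := [j]) (S := ∅ ∪ σ.toFinset) (by simp)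
    (by simpa using hj) (Finset.subset_univ _) h0.not_mem
  obtain ⟨a2, ψ2, h2⟩ := exists_lex hnc (σ := [i, j]) (S := ∅ ∪ σ.toFinset) hσ2
    (by simpa using ⟨hi, hj⟩) (Finset.subset_univ _) h0.not_mem
  have h3 : a1 j ≤ a2 j :=
    lex_mono hnc hij (by simpa using hi) (by simpa using hj) (Finset.subset_univ _) h1 h2
  have hσj : (σ ++ [j]).Nodup :=
    List.nodup_append.2 ⟨hσ1, by simp, fun n hn m hm e => hj (by
      rw [List.mem_singleton.1 hm] at e; exact e ▸ hn)⟩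
  rw [ex_eq h hσj (fun n _ => hS n) (bala_glue h0 h1 (by simpa using hj)) (σ₂ := []) rfl,
    ex_eq h hσ (fun n _ => hS n) (bala_glue h0 h2 (by simpa using ⟨hi, hj⟩)) (σ₂ := [])
      (by simp)]
  simpa [hj] using h3

end LP

namespace Ctx

variable {C : Ctx} {W : C.Wd}

theorem balb_sum {I J A : Type} [Fintype I] [Fintype J] [DecidableEq I] [AddCommGroup A]
    (k : J → ℤ) (f g : J → I) (y : I → A) :
    ∑ c, (∑ n, k n * ((if c = f n then 1 else 0) - (if c = g n then 1 else 0))) • y c =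
      ∑ n, k n • (y (f n) - y (g n)) := by
  simp only [Finset.sum_smul]
  rw [Finset.sum_comm]
  refine Finset.sum_congr rfl fun n _ => ?_
  simp only [mul_smul, sub_smul, ite_smul, one_smul, zero_smul]
  rw [← Finset.smul_sum, Finset.sum_sub_distrib, Finset.sum_ite_eq', Finset.sum_ite_eq']
  simp only [Finset.mem_univ, ↓ reduceIte]

theorem balb_adj {I A : Type} [Fintype I] [AddCommGroup A] (π : Equiv.Perm I) (p : ℤ)
    (l : I → ℤ) (y : I → A) :
    ∑ c, l c • (y c - p • y (π c)) = ∑ c, (l c - p * l (π.symm c)) • y c := by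
  simp only [smul_sub, sub_smul, Finset.sum_sub_distrib]
  congr 1
  refine Fintype.sum_equiv π _ _ fun c => ?_
  rw [Equiv.symm_apply_apply, smul_smul, mul_comm]

theorem balb_add {I A : Type} {d : ℕ} [Fintype I] [DecidableEq I] [AddCommGroup A]
    (ϖ s : Equiv.Perm I) (p M : ℤ) (ν cv l : I → ℤ) (n₀ : Fin d) (a : Fin d → ℕ)
    (i j : Fin d → I)
    (hl : ∀ c, l c - p * l ((ϖ * s).symm c) = - M * (ν c
      - p * ∑ n, (if n₀ < n then (a n : ℤ) else 0) *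
          ((if c = ϖ (i n) then 1 else 0) - (if c = ϖ (j n) then 1 else 0))
      - ∑ n, (if n < n₀ then (a n : ℤ) else 0) *
          ((if c = i n then 1 else 0) - (if c = j n then 1 else 0))))
    (X T₀ T₁ : I → A) (U : Fin d → A)
    (h1 : ∀ n, n₀ < n → U n + T₁ (i n) = T₁ (j n))
    (h0 : ∀ n, n < n₀ → U n + T₀ (i n) = T₀ (j n))
    (h2 : ∀ c, T₀ c + cv c • U n₀ = T₁ (s c))
    (h3 : ∀ c, T₁ c + p • X (ϖ c) = 0) :
    M • (∑ c, ν c • X c - ∑ n ∈ Finset.univ.erase n₀, (a n : ℤ) • U n) +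
      (∑ c, l c * cv c) • U n₀ +
      ∑ c, (l c - M * ∑ n, (if n < n₀ then (a n : ℤ) else 0) *
          ((if c = i n then 1 else 0) - (if c = j n then 1 else 0))) • (X c + T₀ c) = 0 := by
  have e1 : ∀ c, T₁ c = - (p • X (ϖ c)) := fun c => eq_neg_of_add_eq_zero_left (h3 c)
  have e2 : ∀ c, X c + T₀ c = (X c - p • X ((ϖ * s) c)) - cv c • U n₀ := fun c => by
    rw [eq_sub_of_add_eq (h2 c), e1, Equiv.Perm.mul_apply]
    abel
  have e3 : ∑ c, l c • (X c + T₀ c) =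
      ∑ c, (l c - p * l ((ϖ * s).symm c)) • X c - (∑ c, l c * cv c) • U n₀ := by
    rw [← balb_adj, Finset.sum_smul, ← Finset.sum_sub_distrib]
    refine Finset.sum_congr rfl fun c _ => ?_
    rw [e2, smul_sub (l c) _ (cv c • U n₀), smul_smul]
  have e4 : ∑ c, (l c - p * l ((ϖ * s).symm c)) • X c = - (M • (∑ c, ν c • X c
      - p • ∑ n, (if n₀ < n then (a n : ℤ) else 0) • (X (ϖ (i n)) - X (ϖ (j n)))
      - ∑ n, (if n < n₀ then (a n : ℤ) else 0) • (X (i n) - X (j n)))) := by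
    rw [← balb_sum _ (fun n => ϖ (i n)) (fun n => ϖ (j n)), ← balb_sum _ i j, Finset.smul_sum,
      ← Finset.sum_sub_distrib, ← Finset.sum_sub_distrib, Finset.smul_sum,
      ← Finset.sum_neg_distrib]
    refine Finset.sum_congr rfl fun c _ => ?_
    rw [hl, neg_mul, neg_smul, mul_smul, sub_smul, sub_smul, mul_smul]
  have e5 : ∑ n ∈ Finset.univ.erase n₀, (a n : ℤ) • U n =
      p • ∑ n, (if n₀ < n then (a n : ℤ) else 0) • (X (ϖ (i n)) - X (ϖ (j n)))
      - ∑ n, (if n < n₀ then (a n : ℤ) else 0) • (T₀ (i n) - T₀ (j n)) := by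
    rw [Finset.smul_sum, ← Finset.sum_sub_distrib]
    refine Eq.trans (Finset.sum_congr rfl fun n hn => ?_) (Finset.sum_erase (a := n₀) _ (by simp))
    rcases lt_or_gt_of_ne (Finset.ne_of_mem_erase hn) with h | h
    · rw [if_neg h.not_gt, if_pos h, eq_sub_of_add_eq (h0 n h), zero_smul, smul_zero, zero_sub,
        ← smul_neg, neg_sub]
    · rw [if_pos h, if_neg (not_lt.2 h.le), eq_sub_of_add_eq (h1 n h), e1, e1, zero_smul, sub_zero,
        smul_comm p, smul_sub p]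
      congr 1
      abel
  have e6 : ∑ n, (if n < n₀ then (a n : ℤ) else 0) • ((X (i n) + T₀ (i n)) - (X (j n) + T₀ (j n))) =
      ∑ n, (if n < n₀ then (a n : ℤ) else 0) • (X (i n) - X (j n)) +
      ∑ n, (if n < n₀ then (a n : ℤ) else 0) • (T₀ (i n) - T₀ (j n)) := by
    rw [← Finset.sum_add_distrib]
    refine Finset.sum_congr rfl fun n _ => ?_
    rw [← smul_add]
    congr 1
    abel
  simp only [sub_smul (l _) (M * _), mul_smul M]
  rw [Finset.sum_sub_distrib, ← Finset.smul_sum, balb_sum _ i j (fun c => X c + T₀ c), e6, e3, e4,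
    e5]
  simp only [smul_sub M, smul_add M]
  abel

/-- The invariant monomial.  Additively, with `X = log x`, `w = log u_{n₀}`, `δ = X + τ₀`:
`τ₁ = - p ϖ X`, `τ₀ = s τ₁ - w α^∨`, so `δ + w α^∨ = (1 - p π) X` for `π = s ϖ`, and
`log ψ' - log ψ = Λ(X) + ∑_{n < n₀} a n α_n(δ)`.  Solve the adjoint equation
`l c - p * l (π c) = - M * lam c` with `exists_solve`, where `Λ(X) = ∑ lam c * X c`, take
`e = l - M ∑_{n < n₀} a n α_n`, `m = ∑ l c * cv c = Λ(θ)`. -/
theorem Wd.exists_invariant (ν : C.I → ℤ) (n₀ : Fin W.d) (a : Fin W.d → ℕ) :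
    ∃ (M : ℕ) (θ e : C.I → ℤ) (m : ℤ), W.IsTheta n₀ M θ ∧
      (∀ t : ℕ, (M : ℤ) * t + m ≤ 0 → W.Ineq ν n₀ (fun n => if n = n₀ then t else a n) M θ) ∧
      ∀ (F : Type) [Field F] (x τ₀ τ₁ : C.I → F) (u : Fin W.d → F),
        (∀ c, x c ≠ 0) → (∀ c, τ₀ c ≠ 0) → (∀ c, τ₁ c ≠ 0) → (∀ n, u n ≠ 0) →
        (∀ n, n₀ < n → u n * τ₁ (W.s n).i = τ₁ (W.s n).j) →
        (∀ n, n < n₀ → u n * τ₀ (W.s n).i = τ₀ (W.s n).j) →
        (∀ c, τ₀ c * u n₀ ^ C.cv (W.s n₀).i (W.s n₀).j c = τ₁ (C.sw (W.s n₀).i (W.s n₀).j c)) →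
        (∀ c, τ₁ (W.z.symm (C.σ c)) * x c ^ C.p = 1) →
        ((∏ c, x c ^ ν c) / ∏ n ∈ Finset.univ.erase n₀, u n ^ a n) ^ M * u n₀ ^ m *
          ∏ c, (x c * τ₀ c) ^ e c = 1 := by
  classical
  let ϖ : Equiv.Perm C.I := C.σ.symm * W.z
  let s : Equiv.Perm C.I := C.sw (W.s n₀).i (W.s n₀).j
  let cv : C.I → ℤ := C.cv (W.s n₀).i (W.s n₀).j
  let lam : C.I → ℤ := fun c => ν c
      - C.p * ∑ n, (if n₀ < n then (a n : ℤ) else 0) *
          ((if c = ϖ (W.s n).i then 1 else 0) - (if c = ϖ (W.s n).j then 1 else 0))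
      - ∑ n, (if n < n₀ then (a n : ℤ) else 0) *
          ((if c = (W.s n).i then 1 else 0) - (if c = (W.s n).j then 1 else 0))
  obtain ⟨M₁, hM₁, H₁⟩ := exists_solve (ϖ * s) C.hp.one_lt
  obtain ⟨M₂, hM₂, H₂⟩ := exists_solve (ϖ * s).symm C.hp.one_lt
  obtain ⟨θ, hθ⟩ := H₁ fun c => M₂ * cv c
  obtain ⟨l, hl⟩ := H₂ fun c => M₁ * lam c
  have hθ' : ∀ c, θ c - C.p * θ ((ϖ * s) c) = - ((M₁ * M₂ : ℕ) : ℤ) * cv c := fun c => by
    rw [hθ]; push_cast; ring
  have hl' : ∀ c, l c - C.p * l ((ϖ * s).symm c) = - ((M₁ * M₂ : ℕ) : ℤ) * lam c := fun c => by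
    rw [hl]; push_cast; ring
  have hM : 0 < M₁ * M₂ := Nat.mul_pos hM₁ hM₂
  generalize M₁ * M₂ = M at hθ' hl' hM
  have hm : ∑ c, l c * cv c = ∑ c, lam c * θ c := by
    have k := balb_adj (ϖ * s) (C.p : ℤ) l θ
    simp only [smul_eq_mul, hθ', hl'] at k
    have k2 : (- (M : ℤ)) * ∑ c, l c * cv c = (- (M : ℤ)) * ∑ c, lam c * θ c := by
      rw [Finset.mul_sum, Finset.mul_sum]
      refine Eq.trans (Finset.sum_congr rfl fun c _ => ?_)
        (k.trans (Finset.sum_congr rfl fun c _ => ?_)) <;> ring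
    exact mul_left_cancel₀ (neg_ne_zero.2 (by exact_mod_cast hM.ne')) k2
  refine ⟨M, θ, fun c => l c - M * ∑ n, (if n < n₀ then (a n : ℤ) else 0) *
      ((if c = (W.s n).i then 1 else 0) - (if c = (W.s n).j then 1 else 0)),
    ∑ c, l c * cv c, ⟨hM, hθ'⟩, fun t ht => ?_, ?_⟩
  · have k1 := balb_sum (fun n => if n₀ < n then (a n : ℤ) else 0) (fun n => ϖ (W.s n).i)
      (fun n => ϖ (W.s n).j) θ
    have k0 := balb_sum (fun n => if n < n₀ then (a n : ℤ) else 0) (fun n => (W.s n).i)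
      (fun n => (W.s n).j) θ
    simp only [smul_eq_mul] at k1 k0
    have k : ∑ c, lam c * θ c = ∑ c, ν c * θ c
        - C.p * ∑ n, (if n₀ < n then (a n : ℤ) else 0) * (θ (ϖ (W.s n).i) - θ (ϖ (W.s n).j))
        - ∑ n, (if n < n₀ then (a n : ℤ) else 0) * (θ (W.s n).i - θ (W.s n).j) := by
      rw [← k1, ← k0, Finset.mul_sum, ← Finset.sum_sub_distrib, ← Finset.sum_sub_distrib]
      refine Finset.sum_congr rfl fun c _ => ?_
      simp only [lam]
      ring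
    rw [hm, k] at ht
    have ht' := (Int.cast_le (R := ℝ)).2 ht
    push_cast at ht'
    unfold Wd.Ineq
    have q1 : ∑ n, (if n₀ < n then ((if n = n₀ then t else a n : ℕ) : ℝ) *
        ((θ (C.σ.symm (W.z (W.s n).i)) : ℝ) - θ (C.σ.symm (W.z (W.s n).j))) else 0) =
        ∑ n, (if n₀ < n then (a n : ℝ) else 0) * ((θ (ϖ (W.s n).i) : ℝ) - θ (ϖ (W.s n).j)) := by
      refine Finset.sum_congr rfl fun n _ => ?_
      by_cases h : n₀ < n
      · rw [if_pos h, if_pos h, if_neg h.ne']; rfl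
      · rw [if_neg h, if_neg h, zero_mul]
    have q0 : ∑ n, (if n < n₀ then ((if n = n₀ then t else a n : ℕ) : ℝ) *
        ((θ (W.s n).i : ℝ) - θ (W.s n).j) else 0) =
        ∑ n, (if n < n₀ then (a n : ℝ) else 0) * ((θ (W.s n).i : ℝ) - θ (W.s n).j) := by
      refine Finset.sum_congr rfl fun n _ => ?_
      by_cases h : n < n₀
      · rw [if_pos h, if_pos h, if_neg h.ne]
      · rw [if_neg h, if_neg h, zero_mul]
    push_cast at q1 q0
    simp only [if_true]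
    rw [q1, q0]
    linarith only [ht']
  · intro F _ x τ₀ τ₁ u hx h0 h1 hu r1 r0 r2 r3
    have k := balb_add (A := Additive Fˣ) ϖ s C.p M ν cv l n₀ a (fun n => (W.s n).i)
      (fun n => (W.s n).j) hl' (fun c => Additive.ofMul (Units.mk0 _ (hx c)))
      (fun c => Additive.ofMul (Units.mk0 _ (h0 c))) (fun c => Additive.ofMul (Units.mk0 _ (h1 c)))
      (fun n => Additive.ofMul (Units.mk0 _ (hu n)))
      (fun n h => congrArg Additive.ofMul (Units.ext (r1 n h)))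
      (fun n h => congrArg Additive.ofMul (Units.ext (r0 n h)))
      (fun c => by
        rw [← ofMul_zpow, ← ofMul_mul]
        refine congrArg Additive.ofMul (Units.ext ?_)
        rw [Units.val_mul, Units.val_zpow_eq_zpow_val]
        exact r2 c)
      (fun c => by
        rw [← ofMul_zpow, ← ofMul_mul, ← ofMul_one]
        refine congrArg Additive.ofMul (Units.ext ?_)
        rw [Units.val_mul, Units.val_zpow_eq_zpow_val, zpow_natCast]
        have := r3 (ϖ c)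
        simp only [ϖ, Equiv.Perm.mul_apply, Equiv.apply_symm_apply, Equiv.symm_apply_apply] at this
        exact this)
    have k2 := congrArg (fun z : Additive Fˣ => ((Additive.toMul z : Fˣ) : F)) k
    simpa only [toMul_add, toMul_sub, toMul_zsmul, toMul_sum, toMul_ofMul, toMul_zero,
      Units.val_mul, Units.val_zpow_eq_zpow_val, Units.val_div_eq_div_val, Units.coe_prod,
      Units.val_mk0, Units.val_one, zpow_natCast, Units.val_pow_eq_pow_val] using k2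

theorem bala_zpow {O F : Type} [CommRing O] [Field F] (j : O →+* F) {b : O} (hb : IsUnit b)
    (e : ℤ) : ∃ g : O, IsUnit g ∧ j g = j b ^ e := by
  obtain ⟨w, rfl⟩ := hb
  refine ⟨(w ^ e : Oˣ), Units.isUnit _, ?_⟩
  have h1 : j (w ^ e : Oˣ) = ((Units.map (j : O →* F) (w ^ e) : Fˣ) : F) := rfl
  rw [h1, map_zpow, Units.val_zpow_eq_zpow_val]
  rfl

theorem bala_prod {O F I : Type} [CommRing O] [Field F] [Fintype I] (j : O →+* F) {b : I → O}
    (hb : ∀ c, IsUnit (b c)) (e : I → ℤ) : ∃ g : O, IsUnit g ∧ j g = ∏ c, j (b c) ^ e c := by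
  choose g hg1 hg2 using fun c => bala_zpow j (hb c) (e c)
  exact ⟨∏ c, g c, IsUnit.prod_univ_iff.2 hg1, by rw [map_prod]; simp only [hg2]⟩

theorem bala_ker {O F : Type} [CommRing O] [Field F] (j : O →+* F) {d : ℕ} {T : Fin d → O}
    {S : Finset (Fin d)} (hj : ∀ n ∈ S, j (T n) = 0) {x : O} (hx : x ∈ IdS T S) : j x = 0 := by
  have : IdS T S ≤ RingHom.ker j := by
    unfold IdS
    rw [Ideal.span_le]
    rintro _ ⟨n, hn, rfl⟩
    exact hj n hn
  exact this hx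

theorem bala_step {k : Type} [Field k] {d : ℕ} {I : Type} [Fintype I] {y : LP k d I} (h : y.SNC)
    (hm : ∀ n, ¬ IsUnit (y.T n)) (hb : ∀ c, IsUnit (y.b c)) {σ : List (Fin d)} {n₀ : Fin d}
    (hσ : (σ ++ [n₀]).Nodup) (hall : ∀ n, n ∈ σ ++ [n₀]) {a' a₀ : Fin d → ℕ} {ψ : y.O}
    (hl : Lex y.T a' σ ∅ y.φ ψ) (ha : ∀ n ∈ σ, a' n = a₀ n) {F : Type} [Field F]
    (j : y.O →+* F) (hj : ∀ n ∈ σ, j (y.T n) = 0) (hj0 : j (y.T n₀) ≠ 0) (M : ℕ) (m : ℤ)
    (e : I → ℤ) :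
    ∃ t : ℕ, (∀ a : Fin d → ℝ, (∀ σ₁ i σ₂, σ ++ [n₀] = σ₁ ++ i :: σ₂ → a i = y.ex σ₁ i) →
        a = fun n => if n = n₀ then (t : ℝ) else (a₀ n : ℝ)) ∧
      (0 < (M : ℤ) * t + m → ∃ g : y.O, ¬ IsUnit g ∧
        j g = j ψ ^ M * j (y.T n₀) ^ m * ∏ c, j (y.b c) ^ e c) := by
  have hnc : NC y.T Finset.univ := h.nc fun n _ => hm n
  obtain ⟨hσ1, -, hσ3⟩ := List.nodup_append.1 hσ
  have hn : n₀ ∉ σ := fun hi => hσ3 n₀ hi n₀ (by simp) rfl
  obtain ⟨a1, ψ1, h1⟩ := exists_lex hnc (σ := [n₀]) (S := ∅ ∪ σ.toFinset) (by simp)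
    (by simpa using hn) (Finset.subset_univ _) hl.not_mem
  have h2 := LP.bala_glue hl h1 (by simpa using hn)
  refine ⟨a1 n₀, fun a hex => funext fun n => ?_, fun hpos => ?_⟩
  · obtain ⟨σ₁, σ₂, e1⟩ := List.append_of_mem (hall n)
    rw [hex σ₁ n σ₂ e1, LP.ex_eq h hσ (fun n _ => hm n) h2 e1]
    by_cases hn0 : n = n₀
    · subst hn0
      simp [hn]
    · have hnσ : n ∈ σ := by simpa [hn0] using hall n
      simp [hn0, hnσ, ha n hnσ]
  · obtain ⟨φ', h3, -, -⟩ := h1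
    have h4 : j ψ = j (y.T n₀) ^ a1 n₀ * j φ' := by
      have := bala_ker j (fun n hn => hj n (by simpa using hn)) h3
      rw [map_sub, map_mul, map_pow] at this
      exact sub_eq_zero.1 this
    obtain ⟨g, hg1, hg2⟩ := bala_prod j hb e
    obtain ⟨N, hN⟩ : ∃ N : ℕ, (M : ℤ) * a1 n₀ + m = N + 1 :=
      ⟨((M : ℤ) * a1 n₀ + m - 1).toNat, by omega⟩
    refine ⟨y.T n₀ * (y.T n₀ ^ N * φ' ^ M * g), fun hu => hm n₀ (isUnit_of_mul_isUnit_left hu), ?_⟩
    have h5 : j (y.T n₀) ^ m * (j (y.T n₀) ^ a1 n₀) ^ M = j (y.T n₀) * j (y.T n₀) ^ N := by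
      rw [← pow_mul, ← zpow_natCast, ← zpow_add₀ hj0, ← pow_succ', ← zpow_natCast]
      congr 1
      push_cast
      linarith only [hN]
    rw [map_mul, map_mul, map_mul, map_pow, map_pow, hg2, h4, mul_pow]
    linear_combination (-(j φ' ^ M * ∏ c, j (y.b c) ^ e c)) * h5

/-- Let `y` be the generisation of `y₀` along `σ`, `κ` its residue field, `ψ ∈ κˣ` the leading
coefficient and `f = ψ ^ M * T ^ m * ∏ b ^ e ∈ κˣ`.  If `M * ex y' σ n₀ + m > 0` for all
admissible `y'`, then `f` lies in every valuation ring of `κ` (use `prop`, `Lex.map`,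
`Lex.unique`, invariance of `f`), so it is constant, but `f` is a non-unit in a valuation ring
dominating the image of `y₀.O` (`exists_isVal_center`). -/
theorem Wd.Tower.bal {ν : C.I → ℤ} {Pts : Set (LP C.k W.d C.I)} (h : W.Tower ν Pts)
    {y₀ : LP C.k W.d C.I} (hy : y₀ ∈ Pts) (hm : ∀ n, ¬ IsUnit (y₀.T n)) {σ : List (Fin W.d)}
    {n₀ : Fin W.d} (hσ : (σ ++ [n₀]).Nodup) (hall : ∀ n, n ∈ σ ++ [n₀]) :
    ∃ y' ∈ Pts, (∀ n, ¬ IsUnit (y'.T n)) ∧
      (∀ σ₁ i σ₂, σ = σ₁ ++ i :: σ₂ → y'.ex σ₁ i = y₀.ex σ₁ i) ∧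
      ∀ a : Fin W.d → ℝ, (∀ σ₁ i σ₂, σ ++ [n₀] = σ₁ ++ i :: σ₂ → a i = y'.ex σ₁ i) →
        ∃ M θ, W.IsTheta n₀ M θ ∧ W.Ineq ν n₀ a M θ := by
  obtain ⟨hσ1, -, hσ3⟩ := List.nodup_append.1 hσ
  have hn : n₀ ∉ σ := fun hi => hσ3 n₀ hi n₀ (by simp) rfl
  have hS : σ.toFinset = Finset.univ.erase n₀ := by
    ext n
    have := hall n
    simp only [List.mem_append, List.mem_singleton] at this
    simp only [List.mem_toFinset, Finset.mem_erase, Finset.mem_univ, and_true]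
    exact ⟨fun h1 h2 => hn (h2 ▸ h1), fun h1 => this.resolve_right h1⟩
  have hsub : ∅ ∪ σ.toFinset ⊆ σ.toFinset := by rw [Finset.empty_union]
  have hemp : ∀ n ∈ σ, n ∉ (∅ : Finset (Fin W.d)) := fun n _ => Finset.notMem_empty n
  have hnc₀ : NC y₀.T σ.toFinset := (h.snc _ hy).nc fun n _ => hm n
  obtain ⟨a₀, ψ₀, hl₀⟩ := exists_lex hnc₀ hσ1 hemp hsub
    (LP.bala_not_mem_empty y₀.T (h.φ_ne _ hy))
  obtain ⟨y, hyP, ρ₀, hρ₀, hmax, hT₀, hφ₀, hb₀⟩ := h.gen y₀ hy σ.toFinset fun n _ => hm n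
  have hmem : ∀ x : y.O, x ∈ IdS y.T σ.toFinset ↔ y.r x = 0 := fun x => by
    rw [resA_eq_zero, ← mem_nonunits_iff, ← IsLocalRing.mem_maximalIdeal, hmax]
    rfl
  have hTy : ∀ n ∈ σ.toFinset, y.r (y.T n) = 0 := fun n hn =>
    (hmem _).1 (Ideal.subset_span ⟨n, hn, rfl⟩)
  have hTy' : ∀ n ∈ σ.toFinset, ¬ IsUnit (y.T n) := fun n hn =>
    (resA_eq_zero _ _).1 (hTy n hn)
  have hnc : NC y.T σ.toFinset := (h.snc _ hyP).nc hTy'
  have hT0 : y.r (y.T n₀) ≠ 0 := fun h0 =>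
    (hnc _ subset_rfl).2 n₀ (by simpa using hn) ((hmem _).2 h0)
  have hl : Lex y.T a₀ σ ∅ y.φ (ρ₀ ψ₀) := by
    have := Lex.map (S₀ := σ.toFinset) (T' := y.T) (ρ₀ : y₀.O →+* y.O) (fun _ => 1)
      (fun n => by simpa using hT₀ n)
      (fun S hs x hx => hρ₀.comap_IdS (fun _ => 1) (fun n => by simpa using hT₀ n)
        (hnc₀ S hs).1 (fun n hn => hTy' n (hs hn)) hx) hsub hl₀ 1
    simpa [hφ₀] using this
  have hψ : y.r (ρ₀ ψ₀) ≠ 0 := fun h0 => by
    have := hl.not_mem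
    rw [Finset.empty_union] at this
    exact this ((hmem _).2 h0)
  obtain ⟨M, θ, e, m, hθ, hineq, hinv⟩ := Wd.exists_invariant (W := W) ν n₀ a₀
  by_contra hcon
  -- the invariant function
  set f : y.κ := y.r (ρ₀ ψ₀) ^ M * y.r (y.T n₀) ^ m * ∏ c, y.r (y.b c) ^ e c with hf
  have hru : ∀ x : y.O, IsUnit x → y.r x ≠ 0 := fun x hx h0 => (resA_eq_zero _ _).1 h0 hx
  have hf0 : f ≠ 0 :=
    mul_ne_zero (mul_ne_zero (pow_ne_zero _ hψ) (zpow_ne_zero _ hT0))
      (Finset.prod_ne_zero_iff.2 fun c _ => zpow_ne_zero _ (hru _ (h.b_unit _ hyP c)))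
  -- at an admissible point the function vanishes
  have key : ∀ y' ∈ Pts, (∀ n, ¬ IsUnit (y'.T n)) → ∀ (a' : Fin W.d → ℕ) (ψ' : y'.O),
      Lex y'.T a' σ ∅ y'.φ ψ' → (∀ n ∈ σ, a' n = a₀ n) → ∀ j : y'.O →+* y.κ,
      (∀ n ∈ σ, j (y'.T n) = 0) → j (y'.T n₀) ≠ 0 → ∃ g : y'.O, ¬ IsUnit g ∧
        j g = j ψ' ^ M * j (y'.T n₀) ^ m * ∏ c, j (y'.b c) ^ e c := by
    intro y' hy' hm' a' ψ' hl' ha' j hj hj0
    obtain ⟨t, ht1, ht2⟩ := bala_step (h.snc _ hy') hm' (h.b_unit _ hy') hσ hall hl' ha' j hj hj0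
      M m e
    refine ht2 (not_le.1 fun hle => hcon ⟨y', hy', hm', fun σ₁ i σ₂ e1 => ?_, fun a ha => ?_⟩)
    · rw [LP.ex_eq (h.snc _ hy') hσ1 (fun n _ => hm' n) hl' e1,
        LP.ex_eq (h.snc _ hy) hσ1 (fun n _ => hm n) hl₀ e1]
      exact ha' i (by simp [e1])
    · rw [ht1 a ha]
      exact ⟨M, θ, hθ, hineq t hle⟩
  have hV : ∀ V : Subalgebra C.k y.κ, IsVal V → f ∈ V := by
    intro V hV
    obtain ⟨y', hy', ρ, hρ, hρV, x, τ₀, τ₁, u, v, hx, hτ₀, hτ₁, hu, hv, hrv, h1, h2, h3, h4, h5⟩ :=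
      h.prop y hyP n₀ (by rw [hmax, hS]) V hV
    have hT' : ∀ n ∈ σ.toFinset, ¬ IsUnit (y'.T n) := fun n hn hu' => by
      have h6 := hu'.map ρ
      rw [hu] at h6
      exact hTy' n hn (isUnit_of_mul_isUnit_right h6)
    have hnc' : NC y'.T σ.toFinset := (h.snc _ hy').nc hT'
    obtain ⟨a', ψ', hl'⟩ := exists_lex hnc' hσ1 hemp hsub
      (LP.bala_not_mem_empty y'.T (h.φ_ne _ hy'))
    have hl2 := Lex.map (S₀ := σ.toFinset) (T' := y.T) (ρ : y'.O →+* y.O) u hu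
      (fun S hs x hx => hρ.comap_IdS u hu (hnc' S hs).1 (fun n hn => hTy' n (hs hn)) hx)
      hsub hl' v⁻¹
    obtain ⟨ha', hψ'⟩ := Lex.unique hnc hσ1 hemp hsub (by
      rw [RingHom.coe_coe, hv, Units.inv_mul_cancel_left, sub_self]; exact zero_mem _) hl2 hl
    rw [Finset.empty_union, hmem, map_sub, sub_eq_zero, map_mul, map_mul, map_list_prod,
      List.map_map, RingHom.coe_coe] at hψ'
    have hu0 : ∀ n, y.r (u n) ≠ 0 := fun n => hru _ (u n).isUnit
    have hprod : (σ.map (y.r ∘ fun n => (u n : y.O) ^ a' n)).prod =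
        ∏ n ∈ Finset.univ.erase n₀, y.r (u n) ^ a₀ n := by
      rw [← hS, List.prod_toFinset _ hσ1]
      congr 1
      exact List.map_congr_left fun n hn => by simp [ha' n hn]
    have hvv : y.r (v⁻¹ : y.Oˣ) * y.r v = 1 := by rw [← map_mul]; simp
    have hp0 : ∏ n ∈ Finset.univ.erase n₀, y.r (u n) ^ a₀ n ≠ 0 :=
      Finset.prod_ne_zero_iff.2 fun n _ => pow_ne_zero _ (hu0 n)
    have hψ2 : y.r (ρ ψ') = y.r (ρ₀ ψ₀) *
        ((∏ c, x c ^ ν c) / ∏ n ∈ Finset.univ.erase n₀, y.r (u n) ^ a₀ n) := by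
      rw [← hψ', hprod, ← hrv, mul_div_assoc', eq_div_iff hp0]
      linear_combination (-(y.r (ρ ψ') * ∏ n ∈ Finset.univ.erase n₀, y.r (u n) ^ a₀ n)) * hvv
    have hI := hinv y.κ x τ₀ τ₁ (fun n => y.r (u n)) hx hτ₀ hτ₁ hu0 h1 h2 h3 h4
    let j : y'.O →+* y.κ := (y.r.comp ρ : y'.O →ₐ[C.k] y.κ)
    have hj : ∀ z, j z = y.r (ρ z) := fun z => rfl
    have hfe : j ψ' ^ M * j (y'.T n₀) ^ m * ∏ c, j (y'.b c) ^ e c = f := by
      have h6 : ∏ c, j (y'.b c) ^ e c = (∏ c, y.r (y.b c) ^ e c) * ∏ c, (x c * τ₀ c) ^ e c := by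
        rw [← Finset.prod_mul_distrib]
        refine Finset.prod_congr rfl fun c _ => ?_
        rw [hj, h5, ← mul_zpow]
        congr 1
        ring
      rw [h6, hj, hj, hψ2, hu, map_mul, mul_pow, mul_zpow]
      linear_combination f * hI
    have hjT : ∀ n ∈ σ, j (y'.T n) = 0 := fun n hn => by
      rw [hj, hu, map_mul, hTy n (List.mem_toFinset.2 hn), mul_zero]
    have hj0 : j (y'.T n₀) ≠ 0 := by
      rw [hj, hu, map_mul]
      exact mul_ne_zero (hu0 _) hT0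
    by_cases hu' : IsUnit (y'.T n₀)
    · obtain ⟨g1, -, hg1⟩ := bala_zpow j hu' m
      obtain ⟨g2, -, hg2⟩ := bala_prod j (h.b_unit _ hy') e
      rw [← hfe, ← hg1, ← hg2, ← map_pow, ← map_mul, ← map_mul]
      exact hρV _
    · have hm' : ∀ n, ¬ IsUnit (y'.T n) := fun n => by
        by_cases hn0 : n = n₀
        · exact hn0 ▸ hu'
        · exact hT' n (by simp only [hS, Finset.mem_erase, ne_eq, hn0, not_false_eq_true, Finset.mem_univ, and_self])
      obtain ⟨g, -, hg⟩ := key y' hy' hm' a' ψ' hl' ha' j hjT hj0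
      rw [← hfe, ← hg]
      exact hρV _
  obtain ⟨c, hc⟩ := const_of_isVal hV
  have hc0 : c ≠ 0 := fun h0 => hf0 (by rw [hc, h0, map_zero])
  let j : y₀.O →ₐ[C.k] y.κ := y.r.comp ρ₀
  have hj : ∀ z, (j : y₀.O →+* y.κ) z = y.r (ρ₀ z) := fun z => rfl
  obtain ⟨g, hg1, hg2⟩ := key y₀ hy hm a₀ ψ₀ hl₀ (fun _ _ => rfl) (j : y₀.O →+* y.κ)
    (fun n hn => by rw [hj, hT₀, hTy n (List.mem_toFinset.2 hn)]) (by rw [hj, hT₀]; exact hT0)
  simp only [hj, hT₀, hb₀] at hg2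
  have hcu : IsUnit (algebraMap C.k y₀.O c - g + g) := by
    rw [sub_add_cancel]
    exact (IsUnit.mk0 c hc0).map _
  have hu := (IsLocalRing.isUnit_or_isUnit_of_isUnit_add hcu).resolve_right hg1
  refine hru _ (hu.map ρ₀) ?_
  rw [map_sub, map_sub, hg2, ← hf, hc, AlgHom.commutes, AlgHom.commutes, sub_self]

theorem Wd.Tower.bound {ν : C.I → ℤ} {Pts : Set (LP C.k W.d C.I)} (h : W.Tower ν Pts)
    (hD : C.Sig) {β : C.Sp} (hβ : C.TopQ β) {l : Fin W.d} (hW : W.Last β l) {M : ℕ} {η : C.I → ℤ}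
    (hη : C.IsEta β.i β.j M η) {N : ℤ}
    (hN : ∀ y ∈ Pts, (∀ n, ¬ IsUnit (y.T n)) → N ≤ y.ex [] l) :
    yb β M η * N ≤ ∑ c, ν c * η (C.wI c) := by
  obtain ⟨ρ, hρ⟩ := W.exists_isRho
  let K := {y : LP C.k W.d C.I // y ∈ Pts ∧ ∀ n, ¬ IsUnit (y.T n)}
  have : Nonempty K := by
    obtain ⟨y, h1, h2⟩ := h.min
    exact ⟨⟨y, h1, h2⟩⟩
  obtain ⟨a, ha, hb⟩ := lex_comb (K := K) (fun y => y.1.ex) (W.mat ρ)
    (fun n => (∑ c, ν c * ρ n c) / W.cn n) (Wd.mat_psd hρ)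
    (fun y σ i j hσ => LP.ex_mono (h.snc _ y.2.1) (h.φ_ne _ y.2.1) y.2.2 hσ)
    (fun y σ j hσ hall => by
      obtain ⟨y', h1, h2, h3, h4⟩ := h.bal y.2.1 y.2.2 hσ hall
      refine ⟨⟨y', h1, h2⟩, h3, fun a ha => ?_⟩
      obtain ⟨M, θ, h5, h6⟩ := h4 a ha
      exact Wd.mat_of_ineq hρ ν j a h5 h6)
  obtain ⟨y, hy⟩ := ha l
  have h1 : (N : ℝ) ≤ a l := le_trans (by exact_mod_cast hN _ y.2.1 y.2.2) hy
  have h2 := Wd.dual hρ ν a hb hW hη fun a b => hη.kst hD hβ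
  have h3 : (0 : ℝ) ≤ yb β M η := by exact_mod_cast hη.yb_pos.le
  exact_mod_cast (mul_le_mul_of_nonneg_left h1 h3).trans h2

end Ctx

end Pool.Agent.MP_b8b722_ag

end

end partBal
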