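import Pool.Agent.MP_b8b722_ag.A3
import Pool.Agent.MP_b8b722_ag.A1
import Pool.Agent.MP_b8b722_ag.A2

attribute [-instance] ContinuousMonoidHom.instCoeOutOfMonoidHomClassOfContinuousMapClass
  CommGroup.toDivisionCommMonoid littleWedderburn NonUnitalAlgHomClass.toNonUnitalRingHomClass
  MonTypeEquivalenceMon.monMonoid instCoeHTCTOfCoeTailOfCoeHTC instCoeTCOfCoe RKHS.instFunLike
  instCoeOutOfCoeFun RingConeClass.toSubsemiringClass
  DistribMulActionSemiHomClass.toAddMonoidHomClass HomeomorphClass.instCoeOutHomeomorph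
  NormedField.toField IsometryClass.instCoeOutIsometryEquiv IdemCommSemiring.toCommSemiring
  KleeneAlgebra.toIdemSemiring
  ContinuousAddMonoidHom.instCoeOutOfAddMonoidHomClassOfContinuousMapClass
  IdemCommSemiring.toIdemSemiring SubsemiringClass.toSubmonoidClass SemilinearMapClass.toAddHomClass
  instCharZeroOfIsSemireal instCoeTCOfCoe_1 Semiring.toNonUnitalSemiring
  instNonUnitalAlgHomClassOfNonUnitalAlgEquivClass Fintype.decidableForallFintype
  DivisionRing.toDivisionSemiring NonUnitalRing.toNonUnitalSemiring instCoeTOfCoeDep instCoeTC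
  TestFunctionClass.toDFunLike GroupConeClass.toSubmonoidClass ContDiffMapSupportedInClass.toDFunLike
  BialgHomClass.toAlgHomClass CoheytingAlgebra.toOrderTop CancelCommMonoid.toLeftCancelMonoid
  SetLike.GradeZero.instCommSemiring BialgHomClass.toMonoidHomClass
  NonUnitalNormedRing.toNormedAddCommGroup Units.instPartialOrderUnits
  Group.IsPerfect.subsingleton_of_isMulCommutative NormedCommRing.toCommRing
  FloorSemiring.instCharZero instCoeHTC instCoeHTCT NormedDivisionRing.toDivisionRing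
  Quantale.instMulLeftMono NormedRing.toRing BooleanRing.toRing AddQuantale.instAddRightMono
  CoalgEquivClass.instCoeToCoalgEquiv StarRingEquivClass.instCoeHead BialgHomClass.instCoeToBialgHom
  BialgEquivClass.instCoeToBialgEquiv CompletelyPositiveMapClass.instCoeToCompletelyPositiveMap
  AlgEquivClass.toAlgHomClass RingEquivClass.toNonUnitalRingHomClass LieRing.toAddCommGroup
  LinearOrderedAddCommGroupWithTop.toOrderTop CoalgHomClass.instCoeToCoalgHom
  GroupWithZero.toDivisionMonoid StarAlgEquivClass.instCoeHead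
  AlgebraicGeometry.universallyClosedTypeComp SemilinearMapClass.instCoeToSemilinearMap
  EuclideanDomain.toCommRing SetLike.GradeZero.instSemiring LinearMapClass.instCoeToLinearMap
  LinearOrderedAddCommMonoidWithTop.toOrderTop CommMonTypeEquivalenceCommMon.commMonCommMonoid

section partCell

-- part MP_b8b722_ag.Cell
section

/-!
Monomial matrices and Bruhat cells.
-/

set_option linter.unusedSectionVars false
set_option linter.unusedVariables false

open Matrix

noncomputable section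

namespace Pool.Agent.MP_b8b722_ag

namespace Ctx

variable (C : Ctx) {S S' : Type} [CommRing S] [CommRing S']

/-- `n ∈ G` is a monomial matrix with underlying permutation `π` -/
def Mon (π : Equiv.Perm C.I) (n : GL C.I S) : Prop :=
  n ∈ C.G S ∧ ∀ a b, a ≠ π b → n.val a b = 0

/-- `x ∈ B π B` -/
def Cell (π : Equiv.Perm C.I) (x : GL C.I S) : Prop :=
  ∃ b n b', b ∈ C.B S ∧ C.Mon π n ∧ b' ∈ C.B S ∧ x = b * n * b'

/-- permutation matrix -/
def pm (S : Type) [CommRing S] (π : Equiv.Perm C.I) : GL C.I S :=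
  ⟨Matrix.of fun a b => if a = π b then 1 else 0, Matrix.of fun a b => if b = π a then 1 else 0,
    by
      ext a b
      simp only [Matrix.mul_apply, Matrix.of_apply, Matrix.one_apply]
      rw [Finset.sum_eq_single (π.symm a)]
      · simp [eq_comm]
      · intro c _ hc
        rw [if_neg (fun h => hc (by simp [h])), zero_mul]
      · simp only [Finset.mem_univ, not_true_eq_false, Equiv.apply_symm_apply, ↓ reduceIte, mul_ite, mul_one, mul_zero, ite_eq_right_iff, IsEmpty.forall_iff],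
    by
      ext a b
      simp only [Matrix.mul_apply, Matrix.of_apply, Matrix.one_apply]
      rw [Finset.sum_eq_single (π a)]
      · simp
      · intro c _ hc
        rw [if_neg hc, zero_mul]
      · simp only [Finset.mem_univ, not_true_eq_false, ↓ reduceIte, EmbeddingLike.apply_eq_iff_eq, mul_ite, mul_one, mul_zero, ite_eq_right_iff, IsEmpty.forall_iff]⟩

/-- products of final segments -/
def suf {d : ℕ} (x : Fin d → GL C.I S) (n : ℕ) : GL C.I S := ((List.ofFn x).drop n).prod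

variable {C}

theorem pm_val (π : Equiv.Perm C.I) (a b : C.I) :
    (C.pm S π).val a b = if a = π b then 1 else 0 := rfl

theorem pm_mp (f : S →+* S') (π : Equiv.Perm C.I) : C.mp f (C.pm S π) = C.pm S' π := by
  refine C.gl_ext fun a b => ?_
  rw [mp_val, pm_val, pm_val]
  split_ifs <;> simp

theorem cella_adj_pm {π : Equiv.Perm C.I} (h : C.IsW π) :
    C.adj (C.pm S π).val * (C.pm S π).val = 1 := by
  have e : C.adj (C.pm S π).val = (C.pm S π)⁻¹.val := by
    ext a b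
    rw [adj_ent]
    change (if b.rev = π a.rev then (1 : S) else 0) = if b = π a then 1 else 0
    rw [h.2]
    exact if_congr Fin.rev_inj rfl rfl
  rw [e]
  exact (C.pm S π).inv_mul

theorem pm_memG {π : Equiv.Perm C.I} (h : C.IsW π) : C.pm S π ∈ C.G S := by
  refine mem_G.2 ((C.inG_iff _).2 ⟨fun a b hab => ?_, 1, isUnit_one, ?_⟩)
  · rw [pm_val, if_neg]
    rintro rfl
    exact hab (h.1 b)
  · rw [cella_adj_pm h, one_smul]

theorem pm_pat {π : Equiv.Perm C.I} (h : C.IsW π) {R : C.Rel} (hR : ∀ a, R.r (π a) a) :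
    C.pm S π ∈ C.Pat R S := by
  refine ⟨(pm_memG h).1, fun a b hab => ?_⟩
  rw [pm_val, if_neg]
  rintro rfl
  exact hab (hR b)

theorem pm_mem {π : Equiv.Perm C.I} (h : C.IsWL π) : C.pm S π ∈ C.L S := pm_pat h.1 h.2

theorem pm_sim {π : Equiv.Perm C.I} (h : C.IsW π) : C.sim (C.pm S π) = 1 := by
  rw [sim, cella_adj_pm h, Matrix.one_apply_eq]

theorem pm_mon {π : Equiv.Perm C.I} (h : C.IsW π) : C.Mon π (C.pm S π) :=
  ⟨pm_memG h, fun a b hab => if_neg hab⟩

theorem pm_one : C.pm S 1 = 1 := C.gl_ext fun a b => by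
  rw [pm_val, Units.val_one, Matrix.one_apply]; rfl

theorem pm_mul (π π' : Equiv.Perm C.I) : C.pm S (π * π') = C.pm S π * C.pm S π' := by
  refine C.gl_ext fun a b => ?_
  rw [Units.val_mul, Matrix.mul_apply, Finset.sum_eq_single (π' b)]
  · rw [pm_val, pm_val, pm_val, if_pos rfl, mul_one]; rfl
  · intro c _ hc
    rw [pm_val π', if_neg hc, mul_zero]
  · simp only [Finset.mem_univ, not_true_eq_false, IsEmpty.forall_iff]

theorem pm_inv (π : Equiv.Perm C.I) : C.pm S π⁻¹ = (C.pm S π)⁻¹ :=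
  eq_inv_of_mul_eq_one_left (by rw [← pm_mul, inv_mul_cancel, pm_one])

theorem tw_pm (f : S →+* S') (τ π : Equiv.Perm C.I) :
    C.tw f τ (C.pm S π) = C.pm S' (τ * π * τ⁻¹) := by
  refine C.gl_ext fun a b => ?_
  rw [tw_symm, pm_val, pm_val]
  have : τ.symm a = π (τ.symm b) ↔ a = (τ * π * τ⁻¹) b := Equiv.symm_apply_eq τ
  rw [if_congr this rfl rfl]
  split_ifs <;> simp

theorem fr_pm [Algebra C.k S] (π : Equiv.Perm C.I) :
    C.fr (C.pm S π) = C.pm S (C.σ * π * C.σ⁻¹) := by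
  rw [fr_eq_tw, tw_pm]

/-- conjugation by a permutation matrix moves the entries -/
theorem pm_conj (π : Equiv.Perm C.I) (x : GL C.I S) :
    C.pm S π * x * (C.pm S π)⁻¹ = C.tw (RingHom.id S) π x := by
  refine C.gl_ext fun a b => ?_
  obtain ⟨a, rfl⟩ := π.surjective a
  obtain ⟨b, rfl⟩ := π.surjective b
  rw [tw_val, Units.val_mul, Units.val_mul, Matrix.mul_apply, Finset.sum_eq_single b,
    Matrix.mul_apply, Finset.sum_eq_single a]
  · change (if π a = π a then (1 : S) else 0) * _ * (if π b = π b then (1 : S) else 0) = _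
    rw [if_pos rfl, if_pos rfl, one_mul, mul_one]; rfl
  · intro c _ hc
    rw [pm_val, if_neg fun e => hc (π.injective e).symm, zero_mul]
  · simp only [Finset.mem_univ, not_true_eq_false, IsEmpty.forall_iff]
  · intro c _ hc
    change _ * (if π b = π c then (1 : S) else 0) = _
    rw [if_neg fun e => hc (π.injective e).symm, mul_zero]
  · simp only [Finset.mem_univ, not_true_eq_false, coe_units_inv, IsEmpty.forall_iff]

theorem suf_last {d : ℕ} (x : Fin d → GL C.I S) {n : ℕ} (h : d ≤ n) : C.suf x n = 1 := by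
  rw [suf, List.drop_eq_nil_of_le (by simpa using h), List.prod_nil]

theorem suf_succ {d : ℕ} (x : Fin d → GL C.I S) (n : Fin d) :
    C.suf x n = x n * C.suf x (n + 1) := by
  rw [suf, suf, List.drop_eq_getElem_cons (by simp), List.prod_cons]
  simp only [List.getElem_ofFn, Fin.eta, List.length_ofFn, Fin.is_lt, List.prod_drop_succ, mul_inv_cancel_left]

theorem suf_mp (f : S →+* S') {d : ℕ} (x : Fin d → GL C.I S) (n : ℕ) :
    C.mp f (C.suf x n) = C.suf (fun m => C.mp f (x m)) n := by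
  rw [suf, suf, map_list_prod, List.map_drop, List.map_ofFn]
  rfl

theorem suf_mem {d : ℕ} {H : Subgroup (GL C.I S)} {x : Fin d → GL C.I S} (h : ∀ m, x m ∈ H)
    (n : ℕ) : C.suf x n ∈ H := by
  refine H.list_prod_mem fun y hy => ?_
  obtain ⟨m, rfl⟩ := List.mem_ofFn.1 (List.mem_of_mem_drop hy)
  exact h m

/-- downward induction along a word -/
theorem down_ind {d : ℕ} {Φ : ℕ → Prop} (hd : Φ d) (hs : ∀ n : Fin d, Φ (n + 1) → Φ n) {n : ℕ}
    (hn : n ≤ d) : Φ n := by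
  induction hn using Nat.decreasingInduction with
  | self => exact hd
  | of_succ k hk ih => exact hs ⟨k, hk⟩ ih

theorem Mon.one : C.Mon 1 (1 : GL C.I S) := by
  exact ⟨one_mem _, fun a b h => Matrix.one_apply_ne h⟩

theorem Mon.mul {π π' : Equiv.Perm C.I} {n n' : GL C.I S} (h : C.Mon π n) (h' : C.Mon π' n') :
    C.Mon (π * π') (n * n') := by
  refine ⟨mul_mem h.1 h'.1, fun a b hab => ?_⟩
  rw [Units.val_mul, Matrix.mul_apply]
  refine Finset.sum_eq_zero fun c _ => ?_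
  by_cases hc : c = π' b
  · rw [h.2 a c (by rw [hc]; exact hab), zero_mul]
  · rw [h'.2 c b hc, mul_zero]

theorem cella_mul_right {π : Equiv.Perm C.I} {n : GL C.I S} (h : C.Mon π n)
    (x : Matrix C.I C.I S) (a b : C.I) : (x * n.val) a b = x a (π b) * n.val (π b) b := by
  rw [Matrix.mul_apply, Finset.sum_eq_single (π b)]
  · intro c _ hc
    rw [h.2 c b hc, mul_zero]
  · simp only [Finset.mem_univ, not_true_eq_false, IsEmpty.forall_iff]

theorem cella_inv_ent {π : Equiv.Perm C.I} {n : GL C.I S} (h : C.Mon π n) (b : C.I) :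
    n⁻¹.val b (π b) * n.val (π b) b = 1 := by
  rw [← cella_mul_right h, n.inv_mul, Matrix.one_apply_eq]

theorem Mon.unit {π : Equiv.Perm C.I} {n : GL C.I S} (h : C.Mon π n) (b : C.I) :
    IsUnit (n.val (π b) b) := by
  exact IsUnit.of_mul_eq_one _ (by rw [mul_comm]; exact cella_inv_ent h b)

theorem Mon.inv {π : Equiv.Perm C.I} {n : GL C.I S} (h : C.Mon π n) : C.Mon π⁻¹ n⁻¹ := by
  refine ⟨inv_mem h.1, fun a b hab => ?_⟩
  obtain ⟨c, rfl⟩ := π.surjective b
  have h1 := cella_mul_right h n⁻¹.val a c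
  rw [n.inv_mul, Matrix.one_apply_ne (by simpa using hab)] at h1
  exact (h.unit c).mul_left_eq_zero.1 h1.symm

theorem Mon.inv_ent {π : Equiv.Perm C.I} {n : GL C.I S} (h : C.Mon π n) (b : C.I) :
    n⁻¹.val b (π b) * n.val (π b) b = 1 := by
  exact cella_inv_ent h b

theorem Mon.map (f : S →+* S') {π : Equiv.Perm C.I} {n : GL C.I S} (h : C.Mon π n) :
    C.Mon π (C.mp f n) := by
  exact ⟨Pat.map f h.1, fun a b hab => by rw [mp_val, h.2 a b hab, map_zero]⟩

theorem Mon.mem_T {n : GL C.I S} (h : C.Mon 1 n) : n ∈ C.T S := by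
  exact ⟨h.1.1, fun a b hab => h.2 a b hab⟩

theorem Mon.of_T {n : GL C.I S} (h : n ∈ C.T S) : C.Mon 1 n := by
  exact ⟨Pat.le_G h, fun a b hab => h.2 a b hab⟩

theorem Mon.mul_left {π : Equiv.Perm C.I} {n : GL C.I S} (h : C.Mon π n)
    (x : Matrix C.I C.I S) (a b : C.I) : (n.val * x) (π a) b = n.val (π a) a * x a b := by
  rw [Matrix.mul_apply, Finset.sum_eq_single a]
  · intro c _ hc
    rw [h.2 _ c fun e => hc (π.injective e).symm, zero_mul]
  · simp only [Finset.mem_univ, not_true_eq_false, IsEmpty.forall_iff]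

theorem Mon.mul_right {π : Equiv.Perm C.I} {n : GL C.I S} (h : C.Mon π n)
    (x : Matrix C.I C.I S) (a b : C.I) : (x * n.val) a b = x a (π b) * n.val (π b) b := by
  exact cella_mul_right h x a b

/-- entries of `n⁻¹ x n` -/
theorem Mon.conj_ent {π : Equiv.Perm C.I} {n : GL C.I S} (h : C.Mon π n) (x : GL C.I S)
    (a b : C.I) :
    (n⁻¹ * x * n).val a b = n⁻¹.val a (π a) * x.val (π a) (π b) * n.val (π b) b := by
  have h1 := h.inv.mul_left x.val (π a) (π b)
  rw [show π⁻¹ (π a) = a from π.symm_apply_apply a] at h1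
  rw [Units.val_mul, Units.val_mul, h.mul_right, h1]

theorem Mon.conj_diag {π : Equiv.Perm C.I} {n : GL C.I S} (h : C.Mon π n) (x : GL C.I S)
    (a : C.I) : (n⁻¹ * x * n).val a a = x.val (π a) (π a) := by
  rw [h.conj_ent, mul_right_comm, h.inv_ent, one_mul]

theorem Mon.conj_pat {π : Equiv.Perm C.I} {n : GL C.I S} (h : C.Mon π n) (hπ : C.IsW π)
    {R R' : C.Rel} (hR : ∀ a b, C.blk a = C.blk b → R.r (π a) (π b) → R'.r a b) {x : GL C.I S}
    (hx : x ∈ C.Pat R S) : n⁻¹ * x * n ∈ C.Pat R' S := by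
  have hG : n⁻¹ * x * n ∈ C.G S := mul_mem (mul_mem (inv_mem h.1) (Pat.le_G hx)) h.1
  refine ⟨hG.1, fun a b hab => ?_⟩
  by_cases hb : C.blk a = C.blk b
  · rw [h.conj_ent, hx.2 _ _ fun h1 => hab (hR a b hb h1), mul_zero, zero_mul]
  · exact hG.1.1 a b hb

theorem Mon.isW [Nontrivial S] {π : Equiv.Perm C.I} {n : GL C.I S} (h : C.Mon π n) : C.IsW π := by
  refine ⟨fun a => ?_, fun a => ?_⟩
  · by_contra h1
    exact (h.unit a).ne_zero (h.1.1.1 _ _ h1)
  · by_contra h1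
    have h2 := h.inv_ent a
    rw [Datum.InG.inv_zero h.1.1 (h.2 _ _ fun e => h1 e.symm), zero_mul] at h2
    exact zero_ne_one h2

theorem mon_X (s : C.Sp) : C.Mon (C.sw s.i s.j) (C.X s true (0 : S)) := by
  refine ⟨Pat.le_G (X_mem s true 0), fun a b hab => ?_⟩
  change C.embM s (0 : S) 1 (-1) 0 a b = 0
  simp only [embM, Matrix.of_apply, Prod.mk.injEq]
  split_ifs with h1 h2 h3 h4 h5 h6 h7
  · rfl
  · rfl
  · exact absurd (by rw [h3.1, h3.2, sw_right s.ne]) hab
  · exact absurd (by rw [h4.1, h4.2, sw_left s.ne]) hab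
  · exact absurd (by rw [h5.1, h5.2, sw_rev_left s.ne]) hab
  · exact absurd (by rw [h6.1, h6.2, sw_rev_right s.ne]) hab
  · subst h7
    exact absurd (sw_other (fun e => h1 (Or.inl ⟨e, e⟩)) (fun e => h2 (Or.inl ⟨e, e⟩))
      (fun e => h2 (Or.inr ⟨e, e⟩)) (fun e => h1 (Or.inr ⟨e, e⟩))).symm hab
  · rfl

theorem Mon.fr [Algebra C.k S] {π : Equiv.Perm C.I} {n : GL C.I S} (h : C.Mon π n) :
    C.Mon (C.σ * π * C.σ⁻¹) (C.fr n) := by
  refine ⟨fr_G h.1, fun a b hab => ?_⟩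
  obtain ⟨a', rfl⟩ := C.σ.surjective a
  obtain ⟨b', rfl⟩ := C.σ.surjective b
  rw [fr_val, h.2 a' b' fun e => hab (by simp [e]), zero_pow C.hp.ne_zero]

/-- every Weyl group element has a representative over every ring -/
theorem IsW.exists_mon {π : Equiv.Perm C.I} (h : C.IsW π) (S : Type) [CommRing S] :
    ∃ n : GL C.I S, C.Mon π n := by
  refine IsW.induction (Φ := fun π => ∃ n : GL C.I S, C.Mon π n) ⟨1, Mon.one⟩ ?_ h
  rintro π s - - ⟨n, hn⟩
  exact ⟨_, hn.mul (mon_X s)⟩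

theorem Mon.conj_xm {π : Equiv.Perm C.I} {n : GL C.I S} (h : C.Mon π n) (hπ : C.IsW π) (s : C.Sp)
    (hs : π s.i < π s.j) (c : S) : n * C.xm s c * n⁻¹ ∈ C.B S := by
  have hG : n * C.xm s c * n⁻¹ ∈ C.G S :=
    mul_mem (mul_mem h.1 (Pat.le_G (xm_mem s c))) (inv_mem h.1)
  refine ⟨hG.1, fun a b hab => ?_⟩
  have hlt : a < b := not_le.1 hab
  obtain ⟨a', rfl⟩ := π.surjective a
  obtain ⟨b', rfl⟩ := π.surjective b
  have h0 : (C.xm s c).val a' b' = 0 := by
    change C.embM s (1 : S) 0 c 1 a' b' = 0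
    simp only [embM, Matrix.of_apply, Prod.mk.injEq]
    have hne : a' ≠ b' := fun e => hlt.ne (by rw [e])
    split_ifs with h1 h2 h3 h4 h5 h6
    · exact absurd (h1.elim (fun e => e.1.trans e.2.symm) fun e => e.1.trans e.2.symm) hne
    · exact absurd (h2.elim (fun e => e.1.trans e.2.symm) fun e => e.1.trans e.2.symm) hne
    · rfl
    · rw [h4.1, h4.2] at hlt
      exact absurd hs hlt.not_gt
    · exact mul_zero _
    · rw [h6.1, h6.2, hπ.2, hπ.2, Fin.rev_lt_rev] at hlt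
      exact absurd hs hlt.not_gt
    · rfl
  have h1 := h.inv.conj_ent (C.xm s c) (π a') (π b')
  rw [inv_inv, show π⁻¹ (π a') = a' from π.symm_apply_apply a',
    show π⁻¹ (π b') = b' from π.symm_apply_apply b', h0, mul_zero, zero_mul] at h1
  exact h1

theorem Cell.memG {π : Equiv.Perm C.I} {x : GL C.I S} (h : C.Cell π x) : x ∈ C.G S := by
  obtain ⟨b, n, b', hb, hn, hb', rfl⟩ := h
  exact mul_mem (mul_mem (Pat.le_G hb) hn.1) (Pat.le_G hb')

theorem Cell.of_mon {π : Equiv.Perm C.I} {n : GL C.I S} (h : C.Mon π n) : C.Cell π n :=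
  ⟨1, n, 1, one_mem _, h, one_mem _, by simp⟩

theorem Cell.of_B {x : GL C.I S} (h : x ∈ C.B S) : C.Cell 1 x :=
  ⟨x, 1, 1, h, Mon.one, one_mem _, by simp⟩

theorem Cell.mem_B {x : GL C.I S} (h : C.Cell 1 x) : x ∈ C.B S := by
  obtain ⟨b, n, b', hb, hn, hb', rfl⟩ := h
  exact mul_mem (mul_mem hb (T_le hn.mem_T)) hb'

theorem Cell.B_mul {π : Equiv.Perm C.I} {b x : GL C.I S} (hb : b ∈ C.B S) (h : C.Cell π x) :
    C.Cell π (b * x) := by
  obtain ⟨c, n, c', hc, hn, hc', rfl⟩ := h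
  exact ⟨b * c, n, c', mul_mem hb hc, hn, hc', by simp only [mul_assoc]⟩

theorem Cell.mul_B {π : Equiv.Perm C.I} {b x : GL C.I S} (h : C.Cell π x) (hb : b ∈ C.B S) :
    C.Cell π (x * b) := by
  obtain ⟨c, n, c', hc, hn, hc', rfl⟩ := h
  exact ⟨c, n, c' * b, hc, hn, mul_mem hc' hb, by simp only [mul_assoc]⟩

theorem Cell.inv {π : Equiv.Perm C.I} {x : GL C.I S} (h : C.Cell π x) : C.Cell π⁻¹ x⁻¹ := by
  obtain ⟨c, n, c', hc, hn, hc', rfl⟩ := h
  exact ⟨c'⁻¹, n⁻¹, c⁻¹, inv_mem hc', hn.inv, inv_mem hc, by simp only [_root_.mul_inv_rev, mul_assoc]⟩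

theorem Cell.map (f : S →+* S') {π : Equiv.Perm C.I} {x : GL C.I S} (h : C.Cell π x) :
    C.Cell π (C.mp f x) := by
  obtain ⟨c, n, c', hc, hn, hc', rfl⟩ := h
  exact ⟨_, _, _, Pat.map f hc, hn.map f, Pat.map f hc', by simp only [map_mul]⟩

theorem Cell.fr [Algebra C.k S] {π : Equiv.Perm C.I} {x : GL C.I S} (h : C.Cell π x) :
    C.Cell (C.σ * π * C.σ⁻¹) (C.fr x) := by
  obtain ⟨c, n, c', hc, hn, hc', rfl⟩ := h
  exact ⟨_, _, _, fr_B hc, hn.fr, fr_B hc', by simp only [map_mul]⟩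

/-- two elements of the same cell differ by `B × B` -/
theorem Cell.rel {π : Equiv.Perm C.I} {x x' : GL C.I S} (h : C.Cell π x) (h' : C.Cell π x') :
    ∃ b b', b ∈ C.B S ∧ b' ∈ C.B S ∧ x' = b * x * b' := by
  obtain ⟨b, n, b', hb, hn, hb', rfl⟩ := h
  obtain ⟨c, n', c', hc, hn', hc', rfl⟩ := h'
  have h1 : C.Mon 1 (n⁻¹ * n') := by simpa using hn.inv.mul hn'
  exact ⟨c * b⁻¹, b'⁻¹ * (n⁻¹ * n') * c', mul_mem hc (inv_mem hb),
    mul_mem (mul_mem (inv_mem hb') (T_le h1.mem_T)) hc', by group⟩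

/-- From `b n = n' b'` and the diagonal entries of `b`: `π'⁻¹ π c ≥ c` for all `c`. -/
theorem Cell.disjoint [Nontrivial S] {π π' : Equiv.Perm C.I} {x : GL C.I S} (h : C.Cell π x)
    (h' : C.Cell π' x) : π = π' := by
  obtain ⟨b, n, b', hb, hn, hb', rfl⟩ := h
  obtain ⟨c, n', c', hc, hn', hc', e⟩ := h'
  have e1 : c⁻¹ * b * n = n' * (c' * b'⁻¹) := by
    rw [← mul_right_inj c, ← mul_left_inj b']
    calc c * (c⁻¹ * b * n) * b' = b * n * b' := by group
      _ = c * n' * c' := e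
      _ = c * (n' * (c' * b'⁻¹)) * b' := by group
  have hβ := mul_mem (inv_mem hc) hb
  have hβ' := mul_mem hc' (inv_mem hb')
  have hle : ∀ a, a ≤ π'.symm (π a) := fun a => by
    by_contra hlt
    have h1 : (c⁻¹ * b * n).val (π a) a = (c⁻¹ * b).val (π a) (π a) * n.val (π a) a :=
      hn.mul_right _ _ _
    have h2 := hn'.mul_left (c' * b'⁻¹).val (π'.symm (π a)) a
    rw [Equiv.apply_symm_apply, Pat.zero hβ' hlt, mul_zero, ← Units.val_mul, ← e1, h1] at h2
    exact ((B.diag_unit hβ _).mul (hn.unit a)).ne_zero h2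
  have hsum : ∑ a : C.I, a.val = ∑ a : C.I, ((π.trans π'.symm) a).val :=
    ((π.trans π'.symm).sum_comp fun a => a.val).symm
  have := (Finset.sum_eq_sum_iff_of_le fun a _ => Fin.le_def.1 (hle a)).1 hsum
  ext a
  have h3 : a = π'.symm (π a) := Fin.ext (this a (Finset.mem_univ a))
  rw [Equiv.eq_symm_apply] at h3
  rw [h3]

/-- `B π B · B s B ⊆ B π s B` if `π s > π` -/
theorem Cell.mul_simple {π : Equiv.Perm C.I} (hπ : C.IsW π) {x y : GL C.I S} (h : C.Cell π x)
    (s : C.Sp) (hs : π s.i < π s.j) (hy : y ∈ C.Ps s S) (hu : IsUnit (y.val s.i s.j)) :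
    C.Cell (π * C.sw s.i s.j) (x * y) := by
  obtain ⟨b, n, b', hb, hn, hb', rfl⟩ := h
  have h1 : b' * y ∈ C.Ps s S := mul_mem (B_le_PA hb') hy
  have h2 : IsUnit ((b' * y).val s.i s.j) := by
    rw [PA.mul_ent (B_le_PA hb') hy (Or.inl rfl) (Or.inl rfl) (Or.inr rfl),
      Pat.zero hb' (not_le.2 s.h.2.1), zero_mul, add_zero]
    exact (B.diag_unit hb' _).mul hu
  obtain ⟨c, hc⟩ := Ps.bruhat h1 h2
  exact ⟨b * (n * C.xm s c * n⁻¹), n * C.X s true 0, _, mul_mem hb (hn.conj_xm hπ s hs c),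
    hn.mul (mon_X s), hc, by group⟩

/-- minimal coset representatives: the entry `(π i, π j)` of the lower triangular matrix
`n b' h c'⁻¹ n'⁻¹` vanishes -/
theorem Cell.min {π : Equiv.Perm C.I} (s : C.Sp) (hs : π s.i < π s.j) {x x' : GL C.I S}
    (h : C.Cell π x) (h' : C.Cell π x') (hx : x⁻¹ * x' ∈ C.Ps s S) : x⁻¹ * x' ∈ C.B S := by
  obtain ⟨b, n, b', hb, hn, hb', rfl⟩ := h
  obtain ⟨c, n', c', hc, hn', hc', rfl⟩ := h'
  have h1 : b' * ((b * n * b')⁻¹ * (c * n' * c')) * c'⁻¹ ∈ C.Ps s S :=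
    mul_mem (mul_mem (B_le_PA hb') hx) (B_le_PA (inv_mem hc'))
  have e : b' * ((b * n * b')⁻¹ * (c * n' * c')) * c'⁻¹ = n⁻¹ * (b⁻¹ * c) * n * (n⁻¹ * n') := by
    group
  have h2 : C.Mon 1 (n⁻¹ * n') := by simpa using hn.inv.mul hn'
  have h3 : b' * ((b * n * b')⁻¹ * (c * n' * c')) * c'⁻¹ ∈ C.B S := by
    refine Ps.mem_B h1 ?_
    rw [e, Units.val_mul, h2.mul_right, Equiv.Perm.one_apply, hn.conj_ent,
      Pat.zero (mul_mem (inv_mem hb) hc) (not_le.2 hs), mul_zero, zero_mul, zero_mul]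
  have := mul_mem (mul_mem (inv_mem hb') h3) hc'
  rwa [show b'⁻¹ * (b' * ((b * n * b')⁻¹ * (c * n' * c')) * c'⁻¹) * c' =
    (b * n * b')⁻¹ * (c * n' * c') by group] at this

section Field

variable {F : Type} [Field F]

theorem cellc_min {π : Equiv.Perm C.I} (hπ : C.IsW π) {x : GL C.I F} (h : C.Cell π x)
    (s : C.Sp) : ∃ π' b n, C.IsW π' ∧ π' s.i < π' s.j ∧ b ∈ C.B F ∧ C.Mon π' n ∧
      (b * n)⁻¹ * x ∈ C.Ps s F := by
  obtain ⟨b, n, b', hb, hn, hb', rfl⟩ := h
  rcases lt_or_gt_of_ne (π.injective.ne s.ne) with hlt | hlt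
  · exact ⟨π, b, n, hπ, hlt, hb, hn, by rw [inv_mul_cancel_left]; exact B_le_PA hb'⟩
  · refine ⟨π * C.sw s.i s.j, b, n * C.X s true 0, hπ.mul (sw_isW s.ne s.h.1), ?_, hb,
      hn.mul (mon_X s), ?_⟩
    · rwa [Equiv.Perm.mul_apply, Equiv.Perm.mul_apply, sw_left s.ne, sw_right s.ne]
    · simpa [mul_assoc] using mul_mem (inv_mem (X_mem s true (0 : F))) (B_le_PA hb')

/-- adapted Bruhat decomposition for products of minimal parabolic subgroups -/
theorem exists_cell_of_prod {l : List (GL C.I F)} (hl : ∀ y ∈ l, ∃ s : C.Sp, y ∈ C.Ps s F) :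
    ∃ π, C.IsW π ∧ C.Cell π l.prod := by
  induction l using List.reverseRecOn with
  | nil => exact ⟨1, IsW.one, Cell.of_B (one_mem _)⟩
  | append_singleton l y ih =>
    obtain ⟨π, hπ, hc⟩ := ih fun z hz => hl z (List.mem_append_left _ hz)
    obtain ⟨s, hy⟩ := hl y (by simp)
    obtain ⟨π', b, n, h1, h2, h3, h4, h5⟩ := cellc_min hπ hc s
    have h6 := mul_mem h5 hy
    have h7 := (Cell.of_mon h4).B_mul h3
    have e : (l ++ [y]).prod = b * n * ((b * n)⁻¹ * l.prod * y) := by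
      rw [List.prod_append, List.prod_singleton, mul_assoc (b * n)⁻¹, mul_inv_cancel_left]
    rw [e]
    by_cases h0 : ((b * n)⁻¹ * l.prod * y).val s.i s.j = 0
    · exact ⟨π', h1, h7.mul_B (Ps.mem_B h6 h0)⟩
    · exact ⟨_, h1.mul (sw_isW s.ne s.h.1), h7.mul_simple h1 s h2 h6 (Ne.isUnit h0)⟩

/-- `x ∈ B n P_s` with `n` minimal -/
theorem Cell.exists_min {π : Equiv.Perm C.I} (hπ : C.IsW π) {x : GL C.I F} (h : C.Cell π x)
    (s : C.Sp) : ∃ π' b n, C.IsW π' ∧ π' s.i < π' s.j ∧ b ∈ C.B F ∧ C.Mon π' n ∧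
      (b * n)⁻¹ * x ∈ C.Ps s F := by
  exact cellc_min hπ h s

end Field

namespace Wd

variable (W : C.Wd)

/-- the representatives of the letters -/
def sd (S : Type) [CommRing S] : Fin W.d → GL C.I S := fun n => C.X (W.s n) true 0

/-- the representative of `z` -/
def zd (S : Type) [CommRing S] : GL C.I S := C.pm S W.z

theorem celld_step {d : ℕ} (y : Fin d → GL C.I S) {n : ℕ} (hn : n < d) :
    C.suf y 0 * (C.suf y (n + 1))⁻¹ = C.suf y 0 * (C.suf y n)⁻¹ * y ⟨n, hn⟩ := by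
  have h : C.suf y n = y ⟨n, hn⟩ * C.suf y (n + 1) := suf_succ y ⟨n, hn⟩
  rw [h]
  group

theorem sd_mon {n : ℕ} (hn : n ≤ W.d) :
    C.Mon (W.w n) (C.suf (W.sd S) 0 * (C.suf (W.sd S) n)⁻¹) := by
  induction n with
  | zero =>
    rw [W.w_zero, mul_inv_cancel]
    exact Mon.one
  | succ n ih =>
    rw [celld_step _ hn, W.w_succ ⟨n, hn⟩]
    exact (ih (Nat.le_of_succ_le hn)).mul (mon_X _)

theorem sd_mp (f : S →+* S') (n : ℕ) : C.mp f (C.suf (W.sd S) n) = C.suf (W.sd S') n := by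
  rw [suf_mp]
  congr 1
  funext n
  rw [sd, sd, X_mp, map_zero]

theorem zd_mon : C.Mon W.z (W.zd S) := pm_mon W.z_isW

theorem zd_mem : W.zd S ∈ C.G S := W.zd_mon.1

theorem zd_mp (f : S →+* S') : C.mp f (W.zd S) = W.zd S' := pm_mp f _

theorem conj_Z {y : GL C.I S} (hy : y ∈ C.Z S) : (W.zd S)⁻¹ * y * W.zd S ∈ C.B S := by
  refine W.zd_mon.conj_pat (frame_isW W.frame) (fun a b hab h => ?_) hy
  by_contra h1
  have h2 := frame_lt W.frame hab (not_le.1 h1)
  rcases h with h | h <;> rcases h2 with h2 | h2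
  · exact h2.1 h.1
  · exact h.2 (h2.1.1 h.1)
  · exact h2.1 (h.1.2 h2.2)
  · exact absurd h2.2 (not_lt.2 h.2)

theorem conj_B {b : GL C.I S} (hb : b ∈ C.B S) : W.zd S * b * (W.zd S)⁻¹ ∈ C.Z S := by
  have h := W.zd_mon.inv.conj_pat (R' := C.rZ) (frame_isW W.frame).inv (fun a b hab h => ?_) hb
  · rwa [inv_inv] at h
  · have h1 : W.z.symm b ≤ W.z.symm a := h
    rcases h1.eq_or_lt with h2 | h2
    · rw [W.z.symm.injective h2]
      exact C.rZ.refl a
    · rcases (frame_symm_lt W.frame hab.symm).1 h2 with h3 | h3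
      · exact Or.inl ⟨h3.2, h3.1⟩
      · exact Or.inr ⟨h3.1.symm, h3.2.le⟩

/-- the product `B P_{s_0} ⋯ P_{s_{d-1}}` -/
def Sch (x : GL C.I S) : Prop :=
  ∃ (b : GL C.I S) (y : Fin W.d → GL C.I S), b ∈ C.B S ∧ (∀ n, y n ∈ C.Ps (W.s n) S) ∧
    x = b * C.suf y 0

variable {W}

theorem celld_congr {d : ℕ} {y y' : Fin d → GL C.I S} {n : ℕ} (hn : n ≤ d)
    (h : ∀ m : Fin d, n ≤ m → y m = y' m) : C.suf y n = C.suf y' n := by
  revert h
  refine down_ind (Φ := fun n => (∀ m : Fin d, n ≤ m → y m = y' m) → C.suf y n = C.suf y' n)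
    (fun _ => ?_) (fun m ih h => ?_) hn
  · rw [suf_last _ le_rfl, suf_last _ le_rfl]
  · rw [suf_succ, suf_succ, h m le_rfl, ih fun k hk => h k (Nat.le_of_succ_le hk)]

variable (W) in
/-- the product `B P_{s_n} ⋯ P_{s_{d-1}}` -/
def celld_Sch (n : ℕ) (x : GL C.I S) : Prop :=
  ∃ (b : GL C.I S) (y : Fin W.d → GL C.I S), b ∈ C.B S ∧ (∀ n, y n ∈ C.Ps (W.s n) S) ∧
    x = b * C.suf y n

theorem celld_last {x : GL C.I S} (hx : x ∈ C.B S) : W.celld_Sch W.d x :=
  ⟨x, fun _ => 1, hx, fun _ => one_mem _, by rw [suf_last _ le_rfl, mul_one]⟩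

theorem celld_cons {n : ℕ} (hn : n < W.d) {p x : GL C.I S} (hp : p ∈ C.Ps (W.s ⟨n, hn⟩) S)
    (h : W.celld_Sch (n + 1) x) : W.celld_Sch n (p * x) := by
  obtain ⟨b, y, hb, hy, rfl⟩ := h
  refine ⟨1, Function.update y ⟨n, hn⟩ (p * b), one_mem _, fun m => ?_, ?_⟩
  · by_cases hm : m = ⟨n, hn⟩
    · subst hm
      rw [Function.update_self]
      exact mul_mem hp (B_le_PA hb)
    · rw [Function.update_of_ne hm]
      exact hy m
  · have h1 := suf_succ (Function.update y ⟨n, hn⟩ (p * b)) ⟨n, hn⟩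
    have h2 : C.suf (Function.update y ⟨n, hn⟩ (p * b)) (n + 1) = C.suf y (n + 1) :=
      celld_congr hn fun m hm => Function.update_of_ne (fun e => by
        rw [e] at hm
        exact Nat.not_succ_le_self n hm) _ _
    rw [Function.update_self] at h1
    rw [one_mul, ← mul_assoc, ← h2]
    exact h1.symm

theorem Sch.B_mul {b x : GL C.I S} (hb : b ∈ C.B S) (h : W.Sch x) : W.Sch (b * x) := by
  obtain ⟨b', y, hb', hy, rfl⟩ := h
  exact ⟨b * b', y, mul_mem hb hb', hy, (mul_assoc _ _ _).symm⟩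

theorem Sch.mul_B {b x : GL C.I S} (h : W.Sch x) (hb : b ∈ C.B S) : W.Sch (x * b) := by
  obtain ⟨b', y, hb', hy, rfl⟩ := h
  have h1 : W.celld_Sch 0 (C.suf y 0 * b) := by
    refine down_ind (Φ := fun n => W.celld_Sch n (C.suf y n * b)) ?_ (fun m ih => ?_)
      (Nat.zero_le W.d)
    · rw [suf_last _ le_rfl, one_mul]
      exact celld_last hb
    · rw [suf_succ, mul_assoc]
      exact celld_cons m.2 (hy m) ih
  rw [mul_assoc]
  exact Sch.B_mul hb' h1

theorem Sch.map (f : S →+* S') {x : GL C.I S} (h : W.Sch x) : W.Sch (C.mp f x) := by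
  obtain ⟨b, y, hb, hy, rfl⟩ := h
  exact ⟨C.mp f b, fun n => C.mp f (y n), Pat.map f hb, fun n => Pat.map f (hy n),
    by rw [map_mul, suf_mp]⟩

/-- partial products of generic elements -/
theorem cell_prod {y : Fin W.d → GL C.I S} (hy : ∀ n, y n ∈ C.Ps (W.s n) S)
    (hu : ∀ n : Fin W.d, n.val < W.m → IsUnit ((y n).val (W.s n).i (W.s n).j)) {n : ℕ}
    (hn : n ≤ W.m) : C.Cell (W.w n) (C.suf y 0 * (C.suf y n)⁻¹) := by
  induction n with
  | zero =>
    rw [W.w_zero, mul_inv_cancel]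
    exact Cell.of_mon Mon.one
  | succ n ih =>
    have hd : n < W.d := lt_of_lt_of_le hn W.m_le
    rw [celld_step _ hd, W.w_succ ⟨n, hd⟩]
    exact (ih (Nat.le_of_succ_le hn)).mul_simple (W.isW hd.le) _ (W.red ⟨n, hd⟩ hn)
      (hy _) (hu _ hn)

end Wd

end Ctx

end Pool.Agent.MP_b8b722_ag

end
end

-- part MP_b8b722_ag.LU
section

/-!
Gaussian elimination: charts of `P / B`, Iwasawa and Bruhat decompositions, lifting in `B`,
block decomposition of ordinary elements.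
-/

set_option linter.unusedSectionVars false
set_option linter.unusedVariables false

open Matrix

noncomputable section

namespace Pool.Agent.MP_b8b722_ag

namespace Ctx

variable {C : Ctx} {S S' : Type} [CommRing S] [CommRing S']

theorem U_uniq {u u' : GL C.I S} (hu : C.IsU u) (hu' : C.IsU u') (h : u⁻¹ * u' ∈ C.B S) :
    u = u' := by
  have := (hu.inv.mul hu').eq_one h
  exact inv_mul_eq_one.1 this

theorem lua_inv {α : Type} [LinearOrder α] {e : C.I → α} {x : GL C.I S}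
    (h : x.val.BlockTriangular e) : x⁻¹.val.BlockTriangular e := by
  have := x.invertible
  rw [Matrix.coe_units_inv]
  exact Matrix.blockTriangular_inv_of_blockTriangular h

theorem lua_diag {A A' : Matrix C.I C.I S} (h : A.BlockTriangular id) (h' : A'.BlockTriangular id)
    (a : C.I) : (A * A') a a = A a a * A' a a := by
  rw [Matrix.mul_apply, Finset.sum_eq_single a]
  · intro c _ hc
    rcases lt_or_gt_of_ne hc with h1 | h1
    · rw [h h1, zero_mul]
    · rw [h' h1, mul_zero]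
  · simp only [Finset.mem_univ, not_true_eq_false, IsEmpty.forall_iff]

theorem lua_one {A A' : Matrix C.I C.I S} (h : A.BlockTriangular id) (h' : A'.BlockTriangular id)
    (h1 : ∀ a, A a a = 1) (h1' : ∀ a, A' a a = 1)
    (hl : (A * A').BlockTriangular OrderDual.toDual) : A * A' = 1 := by
  ext a b
  rcases lt_trichotomy a b with hab | rfl | hab
  · rw [Matrix.one_apply_ne hab.ne]
    exact hl hab
  · rw [lua_diag h h', h1, h1', mul_one, Matrix.one_apply_eq]
  · rw [Matrix.one_apply_ne hab.ne']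
    exact h.mul h' hab

/-- the block diagonal part -/
def lua_pr (M : Matrix C.I C.I S) : Matrix C.I C.I S :=
  Matrix.of fun a b => if C.blk a = C.blk b then M a b else 0

theorem lua_pr_mul (M x : Matrix C.I C.I S) (hx : ∀ a b, C.blk a ≠ C.blk b → x a b = 0) :
    lua_pr M * x = lua_pr (M * x) := by
  ext a b
  simp only [lua_pr, Matrix.mul_apply, Matrix.of_apply]
  split_ifs with h
  · refine Finset.sum_congr rfl fun c _ => ?_
    split_ifs with h1
    · rfl
    · rw [hx c b fun h2 => h1 (h.trans h2.symm), mul_zero, mul_zero]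
  · refine Finset.sum_eq_zero fun c _ => ?_
    split_ifs with h1
    · rw [hx c b fun h2 => h (h1.trans h2), mul_zero]
    · rw [zero_mul]

theorem lua_pr_one : lua_pr (1 : Matrix C.I C.I S) = 1 := by
  ext a b
  simp only [lua_pr, Matrix.of_apply]
  split_ifs with h
  · rfl
  · exact (Matrix.one_apply_ne fun e => h (by rw [e])).symm

theorem lua_pr_tri {α : Type} [LT α] {e : C.I → α} {M : Matrix C.I C.I S}
    (h : M.BlockTriangular e) : (lua_pr M).BlockTriangular e := fun a b hab => by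
  simp only [lua_pr, Matrix.of_apply, h hab, ite_self]

theorem lua_left {M : Matrix C.I C.I S} {u : GL C.I S} (h : M * u.val = 1) : M = u⁻¹.val := by
  rw [← Matrix.mul_one M, ← u.mul_inv, ← Matrix.mul_assoc, h, Matrix.one_mul]

/-- If `x = u β ∈ P` is a `UL` decomposition in `GL`, then both factors lie in `G`: the block
diagonal part of `u⁻¹` also makes `x` lower triangular, and `adj u * u` is upper unipotent and
lower triangular. -/
theorem isU_of_UL {x u β : GL C.I S} (hx : x ∈ C.P S) (hu : ∀ a b, b < a → u.val a b = 0)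
    (hu1 : ∀ a, u.val a a = 1) (hβ : ∀ a b, a < b → β.val a b = 0) (h : x = u * β) :
    C.IsU u ∧ β ∈ C.B S := by
  have tu : u.val.BlockTriangular id := fun a b hab => hu a b hab
  have tβ : β.val.BlockTriangular OrderDual.toDual := fun a b hab => hβ a b hab
  have tu' := lua_inv tu
  have tβ' := lua_inv tβ
  have hu1' : ∀ a, u⁻¹.val a a = 1 := fun a => by
    have := lua_diag tu tu' a
    rwa [u.mul_inv, Matrix.one_apply_eq, hu1, one_mul, eq_comm] at this
  have e1 : u = x * β⁻¹ := by rw [h, mul_inv_cancel_right]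
  have e2 : β = u⁻¹ * x := by rw [h, inv_mul_cancel_left]
  have k1 : lua_pr u⁻¹.val * u.val = 1 := by
    refine lua_one (lua_pr_tri tu') tu (fun a => by simp only [lua_pr, Matrix.of_apply, hu1', ite_true])
      hu1 ?_
    have : lua_pr u⁻¹.val * u.val = lua_pr β.val * β⁻¹.val := by
      conv_lhs => arg 2; rw [e1, Units.val_mul]
      rw [← Matrix.mul_assoc, lua_pr_mul _ _ hx.1.1, ← Units.val_mul, ← e2]
    rw [this]
    exact (lua_pr_tri tβ).mul tβ'
  have k2 : ∀ a b, C.blk a ≠ C.blk b → u⁻¹.val a b = 0 := fun a b hab => by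
    rw [← lua_left k1]
    exact if_neg hab
  have k3 : ∀ a b, C.blk a ≠ C.blk b → u.val a b = 0 := fun a b hab => by
    have : lua_pr u.val * u⁻¹.val = 1 := by rw [lua_pr_mul _ _ k2, u.mul_inv, lua_pr_one]
    rw [← inv_inv u, ← lua_left this]
    exact if_neg hab
  have k4 : C.adj u.val * u.val = 1 := by
    refine lua_one (fun a b hab => ?_) tu (fun a => ?_) hu1 ?_
    · rw [adj_apply, hu b.rev a.rev (Fin.rev_lt_rev.2 hab), mul_zero]
    · rw [adj_apply, sg_mul_self, hu1, mul_one]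
    · have : C.adj u.val * u.val = C.sim x • (C.adj β⁻¹.val * β⁻¹.val) := by
        rw [e1, Units.val_mul, adj_mul, Matrix.mul_assoc, ← Matrix.mul_assoc (C.adj x.val),
          hx.1.adj_mul, Matrix.smul_mul, Matrix.one_mul, Matrix.mul_smul]
      rw [this]
      have t1 : (C.adj β⁻¹.val).BlockTriangular OrderDual.toDual := fun a b hab => by
        rw [adj_apply, show β⁻¹.val b.rev a.rev = 0 from tβ' (Fin.rev_lt_rev.2 hab : b.rev < a.rev),
          mul_zero]
      intro a b hab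
      rw [Matrix.smul_apply, t1.mul tβ' hab, smul_zero]
  have hG : C.InG u := (C.inG_iff u).2 ⟨k3, 1, isUnit_one, by rw [k4, one_smul]⟩
  refine ⟨⟨⟨hG, fun a b hab => ?_⟩, hu1⟩, e2 ▸ hG.inv.mul hx.1, fun a b hab => hβ a b (not_le.1 hab)⟩
  rcases lt_or_ge b a with h1 | h1
  · exact hu a b h1
  have h2 : C.lo a ∧ ¬ C.lo b := by
    have h3 : ¬ (C.lo a ↔ C.lo b) := fun h4 => hab ⟨h1, h4⟩
    have := C.lo_of_le h1
    tauto
  rw [e1, Units.val_mul, Matrix.mul_apply]
  refine Finset.sum_eq_zero fun c _ => ?_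
  by_cases hc : C.lo c
  · rw [tβ' (C.lt_of_lo hc h2.2), mul_zero]
  · rw [hx.2 a c fun h5 => hc (h5 h2.1), zero_mul]

/-- the charts of `P / B` are open -/
theorem P.open_chart (f : S →+* S') [IsLocalHom f] {x : GL C.I S} (hx : x ∈ C.P S)
    {π : Equiv.Perm C.I} (hπ : C.IsWL π) {u' : GL C.I S'} (hu : C.IsU u')
    (h : (C.pm S' π * u')⁻¹ * C.mp f x ∈ C.B S') :
    ∃ u, C.IsU u ∧ (C.pm S π * u)⁻¹ * x ∈ C.B S ∧ C.mp f u = u' := by
  have e : C.mp f ((C.pm S π)⁻¹ * x) = u' * ((C.pm S' π * u')⁻¹ * C.mp f x) := by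
    rw [map_mul, map_inv, pm_mp]
    group
  obtain ⟨u, β, h1, h2, h3, h4⟩ := exists_UL f ((C.pm S π)⁻¹ * x) u' _
    (fun a b hab => hu.1.2 a b fun h5 => absurd h5.1 (not_le.2 hab)) hu.2
    (fun a b hab => h.2 a b (not_le.2 hab)) e
  obtain ⟨k1, k2⟩ := isU_of_UL (mul_mem (inv_mem (L_le_P (pm_mem hπ))) hx) h1 h2 h3 h4
  refine ⟨u, k1, ?_, U_uniq (k1.map f) hu ?_⟩
  · rwa [_root_.mul_inv_rev, mul_assoc, h4, inv_mul_cancel_left]
  · rw [h4, map_mul] at e
    rw [← mul_inv_eq_iff_eq_mul.2 e, mul_assoc, inv_mul_cancel_left]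
    exact mul_mem (Pat.map f k2) (inv_mem h)

/-- symmetrisation of a permutation of the first half -/
theorem exists_isWL (π₀ : Equiv.Perm C.I) (h1 : ∀ a, C.blk (π₀ a) = C.blk a)
    (h2 : ∀ a, ¬ C.lo a → π₀ a = a) : ∃ π, C.IsWL π ∧ ∀ a, C.lo a → π a = π₀ a := by
  have h3 : ∀ a, C.lo a → C.lo (π₀ a) := fun a ha => by
    by_contra h
    rw [π₀.injective (h2 _ h)] at h
    exact h ha
  obtain ⟨π, hπ⟩ : ∃ π : Equiv.Perm C.I, ∀ a, π a = π₀ (π₀ a.rev).rev :=
    ⟨π₀ * (Fin.revPerm * π₀ * Fin.revPerm), fun _ => rfl⟩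
  have k1 : ∀ a, C.lo a → π a = π₀ a := fun a ha => by
    rw [hπ, h2 a.rev fun h => (C.lo_rev a).1 h ha, Fin.rev_rev]
  have k2 : ∀ a, ¬ C.lo a → π a = (π₀ a.rev).rev := fun a ha => by
    rw [hπ, h2 _ fun h => (C.lo_rev _).1 h (h3 _ ((C.lo_rev a).2 ha))]
  refine ⟨π, ⟨⟨fun a => ?_, fun a => ?_⟩, fun a => ?_⟩, k1⟩
  · by_cases ha : C.lo a
    · rw [k1 a ha, h1]
    · rw [k2 a ha, C.blk_rev _ _ (h1 a.rev), Fin.rev_rev]
  · by_cases ha : C.lo a
    · rw [k1 a ha, k2 _ fun h => (C.lo_rev a).1 h ha, Fin.rev_rev]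
    · rw [k2 a ha, k1 _ ((C.lo_rev a).2 ha), Fin.rev_rev]
  · by_cases ha : C.lo a
    · rw [k1 a ha]
      exact iff_of_true (h3 a ha) ha
    · rw [k2 a ha]
      exact iff_of_false (fun h => (C.lo_rev _).1 h (h3 _ ((C.lo_rev a).2 ha))) ha

/-- the inverse of a unitriangular matrix over a subring -/
theorem lub_tri_inv {N : ℕ} (V : Subring S) {M M' : Matrix (Fin N) (Fin N) S} (h : M' * M = 1)
    (h0 : ∀ a b, b < a → M a b = 0) (h1 : ∀ a, M a a = 1) (hV : ∀ a b, M a b ∈ V) :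
    (∀ a b, b < a → M' a b = 0) ∧ (∀ a, M' a a = 1) ∧ ∀ a b, M' a b ∈ V := by
  let M₁ : Matrix (Fin N) (Fin N) V := Matrix.of fun a b => ⟨M a b, hV a b⟩
  have hM : M₁.map V.subtype = M := rfl
  have ht : M₁.BlockTriangular id := fun a b hab => Subtype.ext (h0 a b hab)
  have hd : M₁.det = 1 := by
    rw [Matrix.det_of_isUpperTriangular ht]
    exact Finset.prod_eq_one fun a _ => Subtype.ext (h1 a)
  have hu : IsUnit M₁.det := hd ▸ isUnit_one
  let _ := Matrix.invertibleOfIsUnitDet M₁ hu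
  have ht' : M₁⁻¹.BlockTriangular id := Matrix.blockTriangular_inv_of_blockTriangular ht
  have hm : M * M₁⁻¹.map V.subtype = 1 := by
    rw [← hM, ← Matrix.map_mul, Matrix.mul_nonsing_inv _ hu]
    exact Matrix.map_one _ (map_zero _) (map_one _)
  have he : M' = M₁⁻¹.map V.subtype := by
    rw [← Matrix.mul_one M', ← hm, ← Matrix.mul_assoc, h, Matrix.one_mul]
  have hz : ∀ a b, b < a → M' a b = 0 := fun a b hab => by
    rw [he, Matrix.map_apply, ht' hab, map_zero]
  refine ⟨hz, fun a => ?_, fun a b => by rw [he]; exact (M₁⁻¹ a b).2⟩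
  have := congrFun (congrFun h a) a
  rw [Matrix.mul_apply, Finset.sum_eq_single a, h1, mul_one, Matrix.one_apply_eq] at this
  · exact this
  · intro b _ hb
    rcases lt_or_gt_of_ne hb with hb | hb
    · rw [hz a b hb, zero_mul]
    · rw [h0 b a hb, mul_zero]
  · simp only [Finset.mem_univ, not_true_eq_false, IsEmpty.forall_iff]

theorem lub_loM_lo (x : Matrix C.I C.I S) {a b : C.I} (ha : C.lo a) (hb : C.lo b) :
    C.loM x a b = x a b := if_pos ⟨ha, hb⟩

theorem lub_loM_hi (x : Matrix C.I C.I S) {a b : C.I} (h : ¬ (C.lo a ∧ C.lo b)) :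
    C.loM x a b = if a = b then 1 else 0 := if_neg h

theorem lub_sim_mul_one {x y : GL C.I S} (hx : C.InG x) (hy : C.InG y) (h1 : C.sim x = 1)
    (h2 : C.sim y = 1) : C.sim (x * y) = 1 := by
  rw [hx.sim_mul hy, h1, h2, mul_one]

theorem lub_sim_inv_one {x : GL C.I S} (hx : C.InG x) (h1 : C.sim x = 1) : C.sim x⁻¹ = 1 := by
  have := hx.sim_inv
  rwa [h1, one_mul] at this

/-- entries of the lower right block -/
theorem lub_hi {u : GL C.I S} (hu : C.InG u) (hs : C.sim u = 1) {a b : C.I} (ha : ¬ C.lo a)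
    (hb : ¬ C.lo b) : u.val a b = u⁻¹.val b.rev a.rev := by
  have := congrFun (congrFun hu.adj_eq b.rev) a.rev
  rw [hs, one_smul, adj_ent, Fin.rev_rev, Fin.rev_rev] at this
  exact this

theorem lub_memV (V : Subring S) {u : GL C.I S} (hu : u ∈ C.L S) (hs : C.sim u = 1)
    (h : ∀ a b, C.lo a → C.lo b → u.val a b ∈ V) (h' : ∀ a b, C.lo a → C.lo b → u⁻¹.val a b ∈ V)
    (a b : C.I) : u.val a b ∈ V := by
  by_cases ha : C.lo a <;> by_cases hb : C.lo b
  · exact h a b ha hb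
  · rw [Pat.zero hu (fun e : C.lo a ↔ C.lo b => hb (e.1 ha))]; exact V.zero_mem
  · rw [Pat.zero hu (fun e : C.lo a ↔ C.lo b => ha (e.2 hb))]; exact V.zero_mem
  · rw [lub_hi hu.1 hs ha hb]; exact h' _ _ ((C.lo_rev b).2 hb) ((C.lo_rev a).2 ha)

/-- an element of `L` whose upper left block is unitriangular -/
theorem lub_isU (V : Subring S) {u : GL C.I S} (hu : u ∈ C.L S) (hs : C.sim u = 1)
    (h0 : ∀ a b, C.lo a → C.lo b → b < a → u.val a b = 0) (h1 : ∀ a, C.lo a → u.val a a = 1)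
    (hV : ∀ a b, C.lo a → C.lo b → u.val a b ∈ V) :
    C.IsU u ∧ (∀ a b, u.val a b ∈ V) ∧ ∀ a b, u⁻¹.val a b ∈ V := by
  have hm : C.loM u⁻¹.val * C.loM u.val = 1 := by
    rw [← loM_mul_P (L_le_P (inv_mem hu)), ← Units.val_mul, inv_mul_cancel, Units.val_one, loM_one]
  obtain ⟨k0, k1, kV⟩ := lub_tri_inv V hm
    (fun a b hab => by
      by_cases h : C.lo a ∧ C.lo b
      · rw [lub_loM_lo _ h.1 h.2, h0 a b h.1 h.2 hab]
      · rw [lub_loM_hi _ h, if_neg hab.ne'])
    (fun a => by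
      by_cases h : C.lo a
      · rw [lub_loM_lo _ h h, h1 a h]
      · rw [lub_loM_hi _ fun e => h e.1, if_pos rfl])
    (fun a b => by
      by_cases h : C.lo a ∧ C.lo b
      · rw [lub_loM_lo _ h.1 h.2]; exact hV a b h.1 h.2
      · rw [lub_loM_hi _ h]
        split_ifs
        · exact V.one_mem
        · exact V.zero_mem)
  have kV' : ∀ a b, C.lo a → C.lo b → u⁻¹.val a b ∈ V := fun a b ha hb => by
    rw [← lub_loM_lo u⁻¹.val ha hb]; exact kV a b
  refine ⟨⟨mem_Pat_of_lo hu (fun a b ha hb h => ?_) (fun a b ha hb h => ?_), fun a => ?_⟩,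
    lub_memV V hu hs hV kV',
    lub_memV V (inv_mem hu) (lub_sim_inv_one hu.1 hs) kV' (by simpa only [gt_iff_lt, inv_inv] using hV)⟩
  · exact h0 a b ha hb (not_le.1 fun e => h ⟨e, iff_of_true ha hb⟩)
  · rw [← lub_loM_lo u⁻¹.val ha hb]
    exact k0 a b (not_le.1 fun e => h ⟨e, iff_of_true ha hb⟩)
  · by_cases h : C.lo a
    · exact h1 a h
    · have h' := (C.lo_rev a).2 h
      rw [lub_hi hu.1 hs h h, ← lub_loM_lo u⁻¹.val h' h']
      exact k1 _

/-- column elimination in the upper left block -/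
theorem lub_pivot {F : Type} [Field F] (R : (C.I → F) → C.I → Prop)
    (hR : ∀ y : C.I → F, y ≠ 0 → ∃ r, y r ≠ 0 ∧ R (fun m => y m / y r) r)
    {x : GL C.I F} (hx : x ∈ C.P F) :
    ∃ (π : Equiv.Perm C.I) (l : GL C.I F), C.IsWL π ∧ l ∈ C.L F ∧ C.sim l = 1 ∧
      l⁻¹ * x ∈ C.B F ∧ (∀ c, C.lo c → l.val (π c) c = 1) ∧
      (∀ c c', C.lo c → C.lo c' → c < c' → l.val (π c') c = 0) ∧
      ∀ c, C.lo c → R (fun m => C.loM l.val m c) (π c) := by
  let cl : C.I → ℕ := fun a => if C.lo a then 2 * C.blk a else 2 * a.val + 1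
  have hcl : ∀ a b, cl a = cl b ↔ (C.lo a ∧ C.lo b ∧ C.blk a = C.blk b) ∨ a = b := by
    intro a b
    constructor
    · intro h
      by_cases ha : C.lo a <;> by_cases hb : C.lo b <;>
        simp only [cl, ha, hb, if_true, if_false] at h
      · exact Or.inl ⟨ha, hb, by omega⟩
      · omega
      · omega
      · exact Or.inr (Fin.ext (by omega))
    · rintro (⟨ha, hb, h⟩ | rfl)
      · simp only [cl, ha, hb, if_true, h]
      · rfl
  have hA : (C.lop x).val = C.loM x.val := lop_val (loM_det_unit (Or.inl hx))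
  have hAl : C.IsLoM (C.loM x.val) := isLoM_loM hx.1
  obtain ⟨π₀, a, β, e, p1, p2, -, p4, p5, p6, p7⟩ := exists_pivot cl R hR (C.lop x) (by
    intro a b hab
    rw [hA, hAl a b fun h => hab ((hcl a b).2 (Or.inl h)),
      if_neg fun h => hab ((hcl a b).2 (Or.inr h))])
  have hhi : ∀ c, ¬ C.lo c → π₀ c = c := fun c hc =>
    ((hcl _ _).1 (p1 c)).resolve_left fun h => hc h.2.1
  obtain ⟨π, hπ, hπ'⟩ := exists_isWL π₀ (fun c => by
    rcases (hcl _ _).1 (p1 c) with h | h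
    · exact h.2.2
    · rw [h]) hhi
  have ha : C.IsLoM a.val := by
    intro m c h
    by_cases hmc : m = c
    · subst hmc
      have hm : ¬ C.lo m := fun hm => h ⟨hm, hm, rfl⟩
      have := p5 m
      rw [hhi m hm] at this
      rw [this, if_pos rfl]
    · rw [if_neg hmc]
      exact p2 m c fun h' => ((hcl _ _).1 h').elim h hmc
  have hl := mkL_mem ha 1
  have hlo := loM_mkL ha 1
  have hent : ∀ m c, C.lo m → C.lo c → (C.mkL a 1).val m c = a.val m c := fun m c hm hc => by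
    rw [← lub_loM_lo (C.mkL a 1).val hm hc, hlo]
  have hP : (C.mkL a 1)⁻¹ * x ∈ C.P F := mul_mem (L_le_P (inv_mem hl)) hx
  refine ⟨π, C.mkL a 1, hπ, hl, by simpa using sim_mkL ha 1, mem_B_of_lo hP ?_, ?_, ?_, ?_⟩
  · have h1 : a.val * C.loM ((C.mkL a 1)⁻¹ * x).val = a.val * β.val := by
      rw [← Units.val_mul a β, ← e, hA]
      conv_lhs => rw [← hlo]
      rw [← loM_mul_P (L_le_P hl), ← Units.val_mul, mul_inv_cancel_left]
    have h2 := (Units.mul_right_inj a).1 h1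
    intro m c hm hc hmc
    rw [← lub_loM_lo ((C.mkL a 1)⁻¹ * x).val hm hc, h2]
    exact p4 m c hmc
  · intro c hc
    rw [hent _ _ ((hπ.2 c).2 hc) hc, hπ' c hc]
    exact p5 c
  · intro c c' hc hc' h
    rw [hent _ _ ((hπ.2 c').2 hc') hc, hπ' c' hc']
    exact p6 c c' h
  · intro c hc
    rw [hlo, hπ' c hc]
    exact p7 c

/-- an entry of maximal absolute value -/
theorem lub_max {F ι : Type} [Field F] [Fintype ι] (V : Subring F) (hV : ∀ x : F, x ∈ V ∨ x⁻¹ ∈ V)
    (y : ι → F) (hy : y ≠ 0) : ∃ r, y r ≠ 0 ∧ ∀ m, y m / y r ∈ V := by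
  classical
  obtain ⟨r₀, hr₀⟩ := Function.ne_iff.1 hy
  have key : ∀ s : Finset ι, ∃ r, y r ≠ 0 ∧ ∀ m ∈ s, y m / y r ∈ V := by
    intro s
    induction s using Finset.induction_on with
    | empty => exact ⟨r₀, hr₀, by simp⟩
    | insert a s _ ih =>
      obtain ⟨r, hr, h⟩ := ih
      by_cases ha : y a / y r ∈ V
      · exact ⟨r, hr, fun m hm => (Finset.mem_insert.1 hm).elim (fun e => e ▸ ha) (h m)⟩
      · have ha0 : y a ≠ 0 := fun e => ha (by rw [e, zero_div]; exact V.zero_mem)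
        have h1 : y r / y a ∈ V := by
          have := (hV (y a / y r)).resolve_left ha
          rwa [inv_div] at this
        refine ⟨a, ha0, fun m hm => ?_⟩
        rcases Finset.mem_insert.1 hm with e | hm
        · rw [e, div_self ha0]; exact V.one_mem
        · rw [← div_mul_div_cancel₀ hr]
          exact V.mul_mem (h m hm) h1
  obtain ⟨r, hr, h⟩ := key Finset.univ
  exact ⟨r, hr, fun m => h m (Finset.mem_univ m)⟩

theorem lub_pm_inv_mul (π : Equiv.Perm C.I) (l : GL C.I S) (a b : C.I) :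
    ((C.pm S π)⁻¹ * l).val a b = l.val (π a) b := by
  rw [Units.val_mul, Matrix.mul_apply, Finset.sum_eq_single (π a)]
  · change (if π a = π a then (1 : S) else 0) * _ = _
    rw [if_pos rfl, one_mul]
  · intro c _ hc
    change (if c = π a then (1 : S) else 0) * _ = _
    rw [if_neg hc, zero_mul]
  · simp only [Finset.mem_univ, not_true_eq_false, coe_units_inv, IsEmpty.forall_iff]

theorem lub_mul_pm_inv (π : Equiv.Perm C.I) (l : GL C.I S) (a b : C.I) :
    (l * (C.pm S π)⁻¹).val a (π b) = l.val a b := by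
  rw [Units.val_mul, Matrix.mul_apply, Finset.sum_eq_single b]
  · change _ * (if π b = π b then (1 : S) else 0) = _
    rw [if_pos rfl, mul_one]
  · intro c _ hc
    change _ * (if π b = π c then (1 : S) else 0) = _
    rw [if_neg fun e => hc (π.injective e).symm, mul_zero]
  · simp only [Finset.mem_univ, not_true_eq_false, coe_units_inv, IsEmpty.forall_iff]

/-- Iwasawa decomposition: apply `exists_pivot` to `lop x` with the classes
`lo ∩ block` and singletons, the pivot being an entry of maximal absolute value. -/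
theorem P.exists_chart_val {F : Type} [Field F] (V : Subring F) (hV : ∀ x : F, x ∈ V ∨ x⁻¹ ∈ V)
    {x : GL C.I F} (hx : x ∈ C.P F) :
    ∃ π u, C.IsWL π ∧ C.IsU u ∧ (∀ a b, u.val a b ∈ V) ∧ (∀ a b, u⁻¹.val a b ∈ V) ∧
      (C.pm F π * u)⁻¹ * x ∈ C.B F := by
  obtain ⟨π, l, hπ, hl, hs, hB, h1, h0, hR⟩ :=
    lub_pivot (C := C) (fun y _ => ∀ m, y m ∈ V) (lub_max V hV) hx
  have hp := pm_mem (S := F) hπ
  obtain ⟨k1, k2, k3⟩ := lub_isU V (mul_mem (inv_mem hp) hl)
    (lub_sim_mul_one hp.1.inv hl.1 (lub_sim_inv_one hp.1 (pm_sim hπ.1)) hs)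
    (fun a b ha hb hab => by rw [lub_pm_inv_mul]; exact h0 b a hb ha hab)
    (fun a ha => by rw [lub_pm_inv_mul]; exact h1 a ha)
    (fun a b ha hb => by
      rw [lub_pm_inv_mul, ← lub_loM_lo l.val ((hπ.2 a).2 ha) hb]; exact hR b hb _)
  exact ⟨π, _, hπ, k1, k2, k3, by rwa [mul_inv_cancel_left]⟩

/-- Bruhat decomposition: the pivot is the first non-zero entry -/
theorem P.exists_cell {F : Type} [Field F] {x : GL C.I F} (hx : x ∈ C.P F) :
    ∃ π, C.IsWL π ∧ C.Cell π x := by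
  classical
  obtain ⟨π, l, hπ, hl, -, hB, -, -, hR⟩ :=
    lub_pivot (C := C) (F := F) (fun y r => ∀ m, m < r → y m = 0) (fun y hy => by
      obtain ⟨r₀, hr₀⟩ := Function.ne_iff.1 hy
      obtain ⟨r, hr, h⟩ := Finset.exists_min_image (Finset.univ.filter fun m => y m ≠ 0) id
        ⟨r₀, by simpa only [ne_eq, Finset.mem_filter, Finset.mem_univ, true_and, Pi.zero_apply] using hr₀⟩
      refine ⟨r, (Finset.mem_filter.1 hr).2, fun m hm => ?_⟩
      have : y m = 0 := by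
        by_contra h0
        exact absurd (h m (by simpa only [ne_eq, Finset.mem_filter, Finset.mem_univ, true_and] using h0)) (not_le.2 hm)
      change y m / y r = 0
      rw [this, zero_div]) hx
  have hp := pm_mem (S := F) hπ
  refine ⟨π, hπ, l * (C.pm F π)⁻¹, C.pm F π, l⁻¹ * x,
    mem_B_of_lo (L_le_P (mul_mem hl (inv_mem hp))) fun a b ha hb hab => ?_, pm_mon hπ.1, hB, by group⟩
  obtain ⟨c, rfl⟩ := π.surjective b
  have hc := (hπ.2 c).1 hb
  rw [lub_mul_pm_inv, ← lub_loM_lo l.val ha hc]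
  exact hR c hc a hab

theorem lua_nil {Y Y' : Matrix C.I C.I S} (h : ∀ a b, ¬ C.lo b → Y a b = 0)
    (h' : ∀ a b, C.lo a → Y' a b = 0) : Y * Y' = 0 := by
  ext a b
  rw [Matrix.mul_apply]
  refine Finset.sum_eq_zero fun c _ => ?_
  by_cases hc : C.lo c
  · rw [h' c b hc, mul_zero]
  · rw [h a c hc, zero_mul]

/-- lifting in the unipotent radical of `P` -/
theorem lua_lift_N (f : S →+* S') (hf : Function.Surjective f) {n' : GL C.I S'}
    (hn : n' ∈ C.P S') (h1 : C.lev n' = 1) : ∃ n ∈ C.B S, C.mp f n = n' := by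
  classical
  obtain ⟨σ, hσ, hσ0⟩ : ∃ σ : S' → S, (∀ t, f (σ t) = t) ∧ σ 0 = 0 := by
    choose τ hτ using hf
    refine ⟨fun t => if t = 0 then 0 else τ t, fun t => ?_, if_pos rfl⟩
    by_cases h : t = 0
    · simp only [h, ite_true, map_zero]
    · simp only [h, ite_false, hτ]
  obtain ⟨Y', hY'⟩ : ∃ Y' : Matrix C.I C.I S', ∀ a b,
      Y' a b = if ¬ C.lo a ∧ C.lo b then n'.val a b else 0 := ⟨Matrix.of _, fun _ _ => rfl⟩
  have y1 : ∀ a b, ¬ C.lo b → Y' a b = 0 := fun a b h => by rw [hY', if_neg fun h' => h h'.2]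
  have y2 : ∀ a b, C.lo a → Y' a b = 0 := fun a b h => by rw [hY', if_neg fun h' => h'.1 h]
  have e1 : n'.val = 1 + Y' := by
    ext a b
    have h2 : C.levM n'.val a b = (1 : Matrix C.I C.I S') a b := by
      rw [← lev_val (Or.inl hn), h1, Units.val_one]
    rw [Matrix.add_apply, ← h2, hY', levM, Matrix.of_apply]
    by_cases ha : C.lo a <;> by_cases hb : C.lo b
    · rw [if_pos (iff_of_true ha hb), if_neg fun h => h.1 ha, add_zero]
    · rw [if_neg fun h => hb (h.1 ha), if_neg fun h => h.1 ha, add_zero]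
      exact hn.2 a b fun h => hb (h ha)
    · rw [if_neg fun h => ha (h.2 hb), if_pos ⟨ha, hb⟩, zero_add]
    · rw [if_pos (iff_of_false ha hb), if_neg fun h => hb h.2, add_zero]
  have sym : ∀ a b, Y' b.rev a.rev = - Y' a b := fun a b => by
    by_cases hab : ¬ C.lo a ∧ C.lo b
    · have h3 := congrFun (congrFun hn.1.adj_mul a) b
      have hne : a ≠ b := fun e => hab.1 (e ▸ hab.2)
      have h4 : C.adj Y' * Y' = 0 := lua_nil (fun a b h => by
        rw [adj_apply, y2 _ _ ((C.lo_rev b).2 h), mul_zero]) y2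
      rw [e1, adj_add, adj_one, Matrix.add_mul, Matrix.one_mul, Matrix.mul_add, Matrix.mul_one, h4,
        add_zero, Matrix.smul_apply, Matrix.add_apply, Matrix.add_apply, Matrix.one_apply_ne hne,
        adj_ent, smul_zero] at h3
      linear_combination h3
    · rw [hY' a b, if_neg hab, hY', if_neg, neg_zero]
      rw [C.lo_rev, C.lo_rev]
      tauto
  obtain ⟨Y, hY⟩ : ∃ Y : Matrix C.I C.I S, ∀ a b,
      Y a b = if C.hf a then σ (Y' a b) else - σ (- Y' a b) := ⟨Matrix.of _, fun _ _ => rfl⟩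
  have z0 : ∀ a b, Y' a b = 0 → Y a b = 0 := fun a b h => by
    rw [hY, h, neg_zero, hσ0, neg_zero, ite_self]
  have z1 : ∀ a b, ¬ C.lo b → Y a b = 0 := fun a b h => z0 a b (y1 a b h)
  have z2 : ∀ a b, C.lo a → Y a b = 0 := fun a b h => z0 a b (y2 a b h)
  have z3 : ∀ a b, C.blk a ≠ C.blk b → Y' a b = 0 := fun a b h => by
    rw [hY', hn.1.1 a b h, ite_self]
  have hYY : Y * Y = 0 := lua_nil z1 z2
  have m1 : (1 + Y) * (1 - Y) = 1 := by
    rw [add_mul, one_mul, mul_sub, mul_one, hYY, sub_zero, sub_add_cancel]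
  have m2 : (1 - Y) * (1 + Y) = 1 := by
    rw [sub_mul, one_mul, mul_add, mul_one, hYY, add_zero, add_sub_cancel_right]
  have hadj : C.adj (1 + Y) = 1 - Y := by
    rw [adj_add, adj_one, sub_eq_add_neg]
    congr 1
    ext a b
    rw [adj_ent, Matrix.neg_apply]
    by_cases hab : C.blk a = C.blk b
    · rw [hY, hY, sym, neg_neg]
      by_cases ha : C.hf a
      · rw [if_pos ha, if_neg fun h => (C.hf_rev b).1 h ((C.hf_blk hab).1 ha)]
      · rw [if_neg ha, if_pos ((C.hf_rev b).2 fun h => ha ((C.hf_blk hab).2 h)), neg_neg]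
    · rw [z0 a b (z3 a b hab), z0 _ _ (z3 _ _ fun h => hab ((C.blk_rev_iff _ _).1 h).symm), neg_zero]
  refine ⟨⟨1 + Y, 1 - Y, m1, m2⟩, ⟨(C.inG_iff _).2 ⟨fun a b hab => ?_, 1, isUnit_one, ?_⟩,
    fun a b hab => ?_⟩, C.gl_ext fun a b => ?_⟩
  · show (1 + Y) a b = 0
    rw [Matrix.add_apply, Matrix.one_apply_ne fun e => hab (by rw [e]), z0 a b (z3 a b hab),
      add_zero]
  · show C.adj (1 + Y) * (1 + Y) = _
    rw [hadj, m2, one_smul]
  · have hab' : a < b := not_le.1 hab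
    show (1 + Y) a b = 0
    rw [Matrix.add_apply, Matrix.one_apply_ne hab'.ne, zero_add]
    by_cases hb : C.lo b
    · exact z2 a b (C.lo_of_le hab'.le hb)
    · exact z1 a b hb
  · show f ((1 + Y) a b) = _
    have : f (Y a b) = Y' a b := by
      rw [hY]
      split_ifs
      · exact hσ _
      · rw [map_neg, hσ, neg_neg]
    rw [e1, Matrix.add_apply, Matrix.add_apply, map_add, this, Matrix.one_apply, Matrix.one_apply]
    split_ifs <;> simp

/-- lifting in the Borel subgroup of `L` -/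
theorem lua_lift_L (f : S →+* S') [IsLocalHom f] (hf : Function.Surjective f) {l' : GL C.I S'}
    (hl : l' ∈ C.L S') (hb : l' ∈ C.B S') : ∃ l ∈ C.B S, C.mp f l = l' := by
  classical
  choose τ hτ using hf
  have hP : l' ∈ C.P S' ∨ l' ∈ C.Pp S' := Or.inl (L_le_P hl)
  have hA' := isLoM_loM hl.1
  obtain ⟨A, hA⟩ : ∃ A : Matrix C.I C.I S, ∀ a b, A a b =
      if C.lo a ∧ C.lo b ∧ C.blk a = C.blk b ∧ b ≤ a then τ (l'.val a b)
      else if a = b then 1 else 0 := ⟨Matrix.of _, fun _ _ => rfl⟩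
  have hAf : A.map f = C.loM l'.val := by
    ext a b
    rw [Matrix.map_apply, hA]
    by_cases h1 : C.lo a ∧ C.lo b ∧ C.blk a = C.blk b
    · rw [loM, Matrix.of_apply, if_pos (⟨h1.1, h1.2.1⟩ : C.lo a ∧ C.lo b)]
      by_cases h2 : b ≤ a
      · rw [if_pos ⟨h1.1, h1.2.1, h1.2.2, h2⟩, hτ]
      · rw [if_neg fun h => h2 h.2.2.2, if_neg fun e => h2 e.ge, map_zero, hb.2 a b h2]
    · rw [if_neg fun h => h1 ⟨h.1, h.2.1, h.2.2.1⟩, hA' a b h1]
      split_ifs <;> simp
  have hdet : IsUnit A.det := by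
    refine (isUnit_map_iff f _).1 ?_
    rw [RingHom.map_det, RingHom.mapMatrix_apply, hAf]
    exact loM_det_unit hP
  obtain ⟨A₀, rfl⟩ := (Matrix.isUnit_iff_isUnit_det A).2 hdet
  have hlo : C.IsLoM A₀.val := fun a b h => by
    rw [hA, if_neg fun h1 => h ⟨h1.1, h1.2.1, h1.2.2.1⟩]
  have hc : IsUnit (τ (C.sim l')) :=
    (isUnit_map_iff f _).1 (by rw [hτ]; exact hl.1.sim_unit)
  have hm := mkL_mem hlo hc.unit
  refine ⟨C.mkL A₀ hc.unit, mem_B_of_lo (L_le_P hm) fun a b ha hb' hab => ?_,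
    L_ext (Pat.map f hm) hl ?_ ?_⟩
  · have h1 := congrFun (congrFun (loM_mkL hlo hc.unit) a) b
    rw [loM, Matrix.of_apply, if_pos (⟨ha, hb'⟩ : C.lo a ∧ C.lo b)] at h1
    rw [h1, hA, if_neg fun h => absurd h.2.2.2 (not_le.2 hab), if_neg hab.ne]
  · rw [mp_mat, loM_map, loM_mkL hlo, hAf]
  · rw [sim_mp, sim_mkL hlo, hc.unit_spec, hτ]

/-- `B` is smooth -/
theorem B.lift (f : S →+* S') [IsLocalHom f] (hf : Function.Surjective f) {b' : GL C.I S'}
    (hb : b' ∈ C.B S') : ∃ b ∈ C.B S, C.mp f b = b' := by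
  have hP : b' ∈ C.P S' := B_le_P hb
  have hL := lev_mem (Or.inl hP)
  obtain ⟨l, hl, el⟩ := lua_lift_L f hf hL (lev_pat (Or.inl hP) hb)
  obtain ⟨n, hn, en⟩ := lua_lift_N f hf (mul_mem (inv_mem (L_le_P hL)) hP) (by
    rw [lev_mul_P (inv_mem (L_le_P hL)) hP, lev_of_L (inv_mem hL), inv_mul_cancel])
  exact ⟨l * n, mul_mem hl hn, by rw [map_mul, el, en, mul_inv_cancel_left]⟩

theorem lub_lev_eq_one {x : GL C.I S} (hx : x ∈ C.P S ∨ x ∈ C.Pp S) (h1 : C.loM x.val = 1)
    (h2 : C.sim x = 1) : C.lev x = 1 :=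
  L_ext (lev_mem hx) (one_mem _) (by rw [loM_lev hx, h1, Units.val_one, loM_one])
    (by rw [lev_sim hx, h2, sim_one])

/-- products of matrices supported in the upper right block vanish -/
theorem lub_sq_zero {M N : Matrix C.I C.I S} (hM : ∀ a b, C.lo b → M a b = 0)
    (hN : ∀ a b, ¬ C.lo a → N a b = 0) : M * N = 0 := by
  ext a b
  rw [Matrix.mul_apply, Matrix.zero_apply]
  refine Finset.sum_eq_zero fun c _ => ?_
  by_cases hc : C.lo c
  · rw [hM a c hc, zero_mul]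
  · rw [hN c b hc, mul_zero]

/-- the case of a trivial upper left block -/
theorem lub_LU {h : GL C.I S} (hh : h ∈ C.G S) (h1 : C.loM h.val = 1) (hs : C.sim h = 1) :
    ∃ u v, u ∈ C.P S ∧ C.lev u = 1 ∧ v ∈ C.Pp S ∧ C.lev v = 1 ∧ h = u * v := by
  let N : Matrix C.I C.I S := Matrix.of fun a b => if C.lo a ∧ ¬ C.lo b then h.val a b else 0
  have hN : ∀ a b, C.lo a → ¬ C.lo b → N a b = h.val a b := fun a b ha hb => if_pos ⟨ha, hb⟩
  have hN1 : ∀ a b, C.lo b → N a b = 0 := fun a b hb => if_neg fun e => e.2 hb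
  have hN2 : ∀ a b, ¬ C.lo a → N a b = 0 := fun a b ha => if_neg fun e => ha e.1
  have hNN : N * N = 0 := lub_sq_zero hN1 hN2
  have hlo : ∀ a b, C.lo a → C.lo b → h.val a b = if a = b then 1 else 0 := fun a b ha hb => by
    rw [← lub_loM_lo h.val ha hb, h1, Matrix.one_apply]
  have hsym : ∀ a b, C.lo a → ¬ C.lo b → h.val b.rev a.rev = - h.val a b := by
    intro a b ha hb
    have hab : a ≠ b := fun e => hb (e ▸ ha)
    have hb' := (C.lo_rev b).2 hb
    have := congrFun (congrFun hh.1.mul_adj a) b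
    rw [hs, one_smul, Matrix.one_apply_ne hab, Matrix.mul_apply,
      Finset.sum_eq_add_of_mem a b (Finset.mem_univ _) (Finset.mem_univ _) hab, adj_ent,
      adj_ent, hlo a a ha ha, hlo _ _ hb' hb', if_pos rfl, if_pos rfl] at this
    · linear_combination this
    · intro c _ hc
      by_cases hl : C.lo c
      · rw [hlo a c ha hl, if_neg hc.1.symm, zero_mul]
      · rw [adj_apply, hlo _ _ hb' ((C.lo_rev c).2 hl),
          if_neg fun e => hc.2 (Fin.rev_injective e).symm, mul_zero, mul_zero]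
  have hadj : C.adj N = -N := by
    ext a b
    rw [adj_apply, Matrix.neg_apply]
    by_cases ha : C.lo a
    · by_cases hb : C.lo b
      · rw [hN1 a b hb, hN2 _ _ fun e => (C.lo_rev b).1 e hb, mul_zero, neg_zero]
      · rw [hN a b ha hb, hN _ _ ((C.lo_rev b).2 hb) fun e => (C.lo_rev a).1 e ha, hsym a b ha hb,
          sg_eq, sg_eq, one_mul, one_mul]
    · rw [hN2 a b ha, hN1 _ _ ((C.lo_rev a).2 ha), mul_zero, neg_zero]
  have e1 : (1 + N) * (1 - N) = 1 := by
    rw [add_mul, mul_sub, mul_sub, hNN]; simp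
  have e2 : (1 - N) * (1 + N) = 1 := by
    rw [sub_mul, mul_add, mul_add, hNN]; simp
  let v : GL C.I S := ⟨1 + N, 1 - N, e1, e2⟩
  have hv1 : C.adj v.val * v.val = (1 : S) • (1 : Matrix C.I C.I S) := by
    change C.adj (1 + N) * (1 + N) = _
    rw [adj_add, adj_one, hadj, ← sub_eq_add_neg, e2, one_smul]
  have hvG : C.InG v := by
    refine (C.inG_iff v).2 ⟨fun a b hab => ?_, 1, isUnit_one, hv1⟩
    change (1 + N) a b = 0
    rw [Matrix.add_apply, Matrix.one_apply_ne fun e => hab (by rw [e]), zero_add]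
    change (if _ then _ else _) = _
    rw [Pat.blk hh hab, ite_self]
  have hvQ : v ∈ C.Pp S := by
    refine ⟨hvG, fun a b hab => ?_⟩
    have hab' : C.lo b ∧ ¬ C.lo a := Classical.not_imp.1 hab
    change (1 + N) a b = 0
    have hne : a ≠ b := fun e => hab'.2 (e ▸ hab'.1)
    rw [Matrix.add_apply, Matrix.one_apply_ne hne, hN1 a b hab'.1, add_zero]
  have hvs : C.sim v = 1 := by
    rw [sim, hv1, one_smul, Matrix.one_apply_eq]
  have hvl : C.loM v.val = 1 := by
    ext a b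
    by_cases hab : C.lo a ∧ C.lo b
    · rw [lub_loM_lo _ hab.1 hab.2]
      change (1 + N) a b = _
      rw [Matrix.add_apply, hN1 a b hab.2, add_zero]
    · rw [lub_loM_hi _ hab, Matrix.one_apply]
  have huP : h * v⁻¹ ∈ C.P S := by
    refine ⟨hh.1.mul hvG.inv, fun a b hab => ?_⟩
    have hab' : C.lo a ∧ ¬ C.lo b := Classical.not_imp.1 hab
    change (h.val * (1 - N)) a b = 0
    rw [mul_sub, mul_one, Matrix.sub_apply, Matrix.mul_apply, Finset.sum_eq_single a,
      hlo a a hab'.1 hab'.1, if_pos rfl, one_mul, hN a b hab'.1 hab'.2, sub_self]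
    · intro c _ hc
      by_cases hl : C.lo c
      · rw [hlo a c hab'.1 hl, if_neg hc.symm, zero_mul]
      · rw [hN2 c b hl, mul_zero]
    · simp only [Finset.mem_univ, not_true_eq_false, IsEmpty.forall_iff]
  refine ⟨h * v⁻¹, v, huP, lub_lev_eq_one (Or.inl huP) ?_
    (lub_sim_mul_one hh.1 hvG.inv hs (lub_sim_inv_one hvG hvs)), hvQ,
    lub_lev_eq_one (Or.inr hvQ) hvl hvs, by group⟩
  have := loM_mul_Pp hvQ (h * v⁻¹).val
  rw [← Units.val_mul, inv_mul_cancel_right, h1, hvl, mul_one] at this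
  exact this.symm

/-- block `LDU` decomposition -/
theorem exists_LDU {g : GL C.I S} (hg : g ∈ C.G S) (h : IsUnit (C.loM g.val).det) :
    ∃ u l v, u ∈ C.P S ∧ C.lev u = 1 ∧ l ∈ C.L S ∧ v ∈ C.Pp S ∧ C.lev v = 1 ∧ g = u * l * v := by
  have hA : (C.lop g).val = C.loM g.val := lop_val h
  have hAl : C.IsLoM (C.lop g).val := hA ▸ isLoM_loM hg.1
  obtain ⟨c, hc⟩ := hg.1.sim_unit
  have hl := mkL_mem hAl c
  have hlo := loM_mkL hAl c
  have hls := sim_mkL hAl c
  generalize C.mkL (C.lop g) c = l at hl hlo hls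
  have hlP := L_le_P hl
  obtain ⟨u, v, hu, hu1, hv, hv1, e⟩ := lub_LU (h := l⁻¹ * g)
    (mul_mem (Pat.le_G (inv_mem hl)) hg)
    (by
      rw [Units.val_mul, loM_mul_P (inv_mem hlP), ← hA, ← hlo, ← loM_mul_P (inv_mem hlP),
        ← Units.val_mul, inv_mul_cancel, Units.val_one, loM_one])
    (by rw [hl.1.inv.sim_mul hg.1, ← hc, ← hls, mul_comm, hl.1.sim_inv])
  refine ⟨l * u * l⁻¹, l, v, mul_mem (mul_mem hlP hu) (inv_mem hlP), ?_, hl, hv, hv1, ?_⟩
  · rw [lev_mul_P (mul_mem hlP hu) (inv_mem hlP), lev_mul_P hlP hu, hu1, lev_inv (Or.inl hlP),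
      mul_one, mul_inv_cancel]
  · rw [inv_mul_cancel_right, mul_assoc, ← e, mul_inv_cancel_left]

theorem loM_det_unit_of_PQ {x y : GL C.I S} (hx : x ∈ C.P S) (hy : y ∈ C.Pp S) :
    IsUnit (C.loM (x * y).val).det := by
  rw [Units.val_mul, loM_mul_P hx, Matrix.det_mul]
  exact (loM_det_unit (Or.inl hx)).mul (loM_det_unit (Or.inr hy))

end Ctx

end Pool.Agent.MP_b8b722_ag

end
end

-- part MP_b8b722_ag.Lang
section

/-!
Lang's theorem for the Levi subgroup, the torus, and integrality of the Lang map.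
-/

set_option linter.unusedSectionVars false
set_option linter.unusedVariables false

open Matrix

noncomputable section

namespace Pool.Agent.MP_b8b722_ag

namespace Ctx

variable {C : Ctx} {F : Type} [Field F] [Algebra C.k F]

theorem charP_of_algebra (F : Type) [Field F] [Algebra C.k F] : CharP F C.p :=
  charP_of_injective_algebraMap (algebraMap C.k F).injective C.p

theorem langa_val (W : ValuationSubring F) (M : Matrix C.I C.I F)
    (h : ∀ t, (∀ c d, W.valuation (M c d) ≤ t) → ∀ a b, W.valuation (M a b ^ C.p) ≤ t) (a b : C.I) :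
    M a b ∈ W := by
  obtain ⟨q, -, hq⟩ := Finset.exists_max_image (Finset.univ : Finset (C.I × C.I))
    (fun q => W.valuation (M q.1 q.2)) ⟨(a, b), Finset.mem_univ _⟩
  have h1 := h _ (fun c d => hq (c, d) (Finset.mem_univ _)) q.1 q.2
  rw [map_pow] at h1
  rw [← W.valuation_le_one_iff]
  refine (hq (a, b) (Finset.mem_univ _)).trans ?_
  by_contra h2
  have h3 : 1 < W.valuation (M q.1 q.2) := not_le.1 h2
  have h4 := pow_lt_pow_right₀ h3 C.hp.one_lt
  rw [pow_one] at h4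
  exact absurd h1 (not_le.2 h4)

/-- An entry `t` of `m` of maximal absolute value satisfies `|t| ^ p ≤ |t|`, because
`fr m = l⁻¹ m`; similarly `fr m⁻¹ = m⁻¹ l`. -/
theorem lang_integral (τ : Equiv.Perm C.I) (V : Subring F) (hV : ∀ x : F, x ∈ V ∨ x⁻¹ ∈ V)
    {l m : GL C.I F} (h : l = m * (C.ft τ m)⁻¹) (h1 : ∀ a b, l.val a b ∈ V)
    (h2 : ∀ a b, l⁻¹.val a b ∈ V) : (∀ a b, m.val a b ∈ V) ∧ ∀ a b, m⁻¹.val a b ∈ V := by
  let W : ValuationSubring F := ⟨V, hV⟩
  have e1 : C.ft τ m = l⁻¹ * m := by rw [h]; group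
  have e2 : C.ft τ m⁻¹ = m⁻¹ * l := by rw [map_inv, e1]; group
  refine ⟨langa_val W m.val fun t ht a b => ?_, langa_val W m⁻¹.val fun t ht a b => ?_⟩
  · rw [← ft_val τ, e1, Units.val_mul, Matrix.mul_apply]
    refine Valuation.map_sum_le _ fun c _ => ?_
    rw [map_mul]
    exact (mul_le_mul' ((W.valuation_le_one_iff _).2 (h2 _ _)) (ht _ _)).trans (one_mul t).le
  · rw [← ft_val τ, e2, Units.val_mul, Matrix.mul_apply]
    refine Valuation.map_sum_le _ fun c _ => ?_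
    rw [map_mul]
    exact (mul_le_mul' (ht _ _) ((W.valuation_le_one_iff _).2 (h1 _ _))).trans (mul_one t).le

theorem langb_iter (τ : Equiv.Perm C.I) (x : GL C.I F) (n : ℕ) (a b : C.I) :
    ((C.ft τ)^[n] x).val ((τ ^ n) a) ((τ ^ n) b) = x.val a b ^ C.p ^ n := by
  induction n with
  | zero => simp only [Function.iterate_zero, id_eq, pow_zero, Equiv.Perm.coe_one, pow_one]
  | succ n ih =>
    rw [Function.iterate_succ_apply', pow_succ' τ, Equiv.Perm.mul_apply, Equiv.Perm.mul_apply,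
      ft_val, ih, ← pow_mul, pow_succ]

theorem langb_ord (τ : Equiv.Perm C.I) (x : GL C.I F) (a b : C.I) :
    ((C.ft τ)^[orderOf τ] x).val a b = x.val a b ^ C.p ^ orderOf τ := by
  have := langb_iter τ x (orderOf τ) a b
  rwa [pow_orderOf_eq_one] at this

theorem langb_lt (τ : Equiv.Perm C.I) : 1 < C.p ^ orderOf τ :=
  Nat.one_lt_pow (orderOf_pos _).ne' C.hp.one_lt

theorem langb_const {τ : Equiv.Perm C.I} {x : GL C.I F} (h : (C.ft τ)^[orderOf τ] x = x) :
    ∃ γ : GL C.I C.k, C.mp (algebraMap C.k F) γ = x := by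
  have key : ∀ y : GL C.I F, (C.ft τ)^[orderOf τ] y = y →
      ∀ a b, y.val a b ∈ (algebraMap C.k F).range := fun y hy a b => by
    have e := langb_ord τ y a b
    rw [hy] at e
    obtain ⟨c, hc⟩ := const_of_pow (k := C.k) (langb_lt τ) e.symm
    exact ⟨c, hc.symm⟩
  exact C.exists_mp_eq _ (algebraMap C.k F).injective x (key x h)
    (key x⁻¹ (by rw [iterate_map_inv, h]))

/-- fixed points of Frobenius are defined over `k` -/
theorem exists_fixed {τ : Equiv.Perm C.I} {x : GL C.I F} (h : C.ft τ x = x) :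
    ∃ γ : GL C.I C.k, C.ft τ γ = γ ∧ C.mp (algebraMap C.k F) γ = x := by
  obtain ⟨γ, hγ⟩ := langb_const (Function.iterate_fixed h _)
  exact ⟨γ, C.mp_injective _ (algebraMap C.k F).injective (by rw [← ft_mp, hγ, h]), hγ⟩

variable (C) in
/-- the finite group `L(𝔽_p)` -/
def Gam : Subgroup (GL C.I C.k) where
  carrier := {γ | γ ∈ C.L C.k ∧ C.fr γ = γ}
  one_mem' := ⟨one_mem _, map_one _⟩
  mul_mem' := fun {x y} hx hy => ⟨mul_mem hx.1 hy.1, by rw [map_mul, hx.2, hy.2]⟩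
  inv_mem' := fun {x} hx => ⟨inv_mem hx.1, by rw [map_inv, hx.2]⟩

instance Gam_finite : Finite C.Gam := by
  have h : {t : C.k | t ^ C.p ^ orderOf C.σ = t}.Finite :=
    (Polynomial.finite_setOfPred_isRoot
      (FiniteField.X_pow_card_sub_X_ne_zero C.k (langb_lt C.σ))).subset fun t ht => by
      simpa [sub_eq_zero] using ht
  have := h.to_subtype
  refine Finite.of_injective (β := C.I → C.I → {t : C.k | t ^ C.p ^ orderOf C.σ = t})
    (fun γ a b => ⟨γ.1.val a b, ?_⟩) fun γ γ' e => Subtype.ext (C.gl_ext fun a b => ?_)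
  · have e := langb_ord C.σ γ.1 a b
    rw [Function.iterate_fixed (f := C.ft C.σ) γ.2.2] at e
    exact e.symm
  · exact congrArg Subtype.val (congrFun (congrFun e a) b)

end Ctx

end Pool.Agent.MP_b8b722_ag

end
end

end partCell

section partAtlas

/-!
The commutative algebra extracted from an integral scheme with a morphism to the stack of zips.
-/

set_option linter.unusedSectionVars false
set_option linter.unusedVariables false

noncomputable section

namespace Pool.Agent.MP_b8b722_ag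

/-- `ω ∈ e(A_𝔭)` -/
def InLoc {k A Ω : Type} [Field k] [CommRing A] [Algebra k A] [Field Ω] [Algebra k Ω]
    (e : A →ₐ[k] Ω) (𝔭 : Ideal A) (ω : Ω) : Prop :=
  ∃ a s, s ∉ 𝔭 ∧ ω * e s = e a

namespace Ctx

variable (C : Ctx)

/-- formal smoothness of `E × Spec A → G` -/
def Lifts (A : Type) [CommRing A] [Algebra C.k A] (g : GL C.I A) : Prop :=
  ∀ (S S' : Type) [CommRing S] [CommRing S'] [Algebra C.k S] [Algebra C.k S']
    (f : S →ₐ[C.k] S'), Function.Surjective f → RingHom.ker (f : S →+* S') ^ 2 = ⊥ →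
    ∀ (ξ' : A →ₐ[C.k] S') (x' y' : GL C.I S') (h : GL C.I S), C.E x' y' → h ∈ C.G S →
      C.ma f h = x' * C.ma ξ' g * y'⁻¹ →
      ∃ (ξ : A →ₐ[C.k] S) (x y : GL C.I S), f.comp ξ = ξ' ∧ C.E x y ∧ C.ma f x = x' ∧
        C.ma f y = y' ∧ h = x * C.ma ξ g * y⁻¹

/-- Affine charts `A i` inside an algebraically closed field `Ω`. -/
structure Atlas where
  Ω : Type
  [fld : Field Ω]
  [algΩ : Algebra C.k Ω]
  [acl : IsAlgClosed Ω]
  ι : Type
  A : ι → Type
  [cr : ∀ i, CommRing (A i)]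
  [algA : ∀ i, Algebra C.k (A i)]
  ft : ∀ i, Algebra.FiniteType C.k (A i)
  e : ∀ i, A i →ₐ[C.k] Ω
  inj : ∀ i, Function.Injective (e i)
  g : ∀ i, GL C.I (A i)
  g_mem : ∀ i, g i ∈ C.G (A i)
  g0 : GL C.I Ω
  g0_mem : g0 ∈ C.G Ω
  x : ι → GL C.I Ω
  y : ι → GL C.I Ω
  xy : ∀ i, C.E (x i) (y i)
  triv : ∀ i, C.ma (e i) (g i) = x i * g0 * (y i)⁻¹
  smooth : ∀ i, C.Lifts (A i) (g i)
  surj : ∀ h ∈ C.G C.k, ∃ (i : ι) (ξ : A i →ₐ[C.k] C.k) (x y : GL C.I C.k),
    C.E x y ∧ h = x * C.ma ξ (g i) * y⁻¹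
  cval : ∀ (i : ι) (F : Type) [Field F] [Algebra C.k F] (ξ : A i →ₐ[C.k] F),
    C.Small C.p (C.ma ξ (g i)) → ∀ V : Subalgebra C.k F, IsVal V →
    ∃ (i' : ι) (𝔭' : Ideal (A i')), 𝔭'.IsPrime ∧
      (∀ ω, InLoc (e i) (RingHom.ker ξ) ω ↔ InLoc (e i') 𝔭' ω) ∧
      (∀ t ∈ [x i' * (x i)⁻¹, x i * (x i')⁻¹, y i' * (y i)⁻¹, y i * (y i')⁻¹], ∀ a b,
        InLoc (e i) (RingHom.ker ξ) (t.val a b)) ∧
      ∀ (a' : A i') (a s : A i), ξ s ≠ 0 → e i' a' * e i s = e i a → ξ a / ξ s ∈ V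

attribute [instance] Atlas.fld Atlas.algΩ Atlas.acl Atlas.cr Atlas.algA Atlas.ft

variable {C}

/-- a section of `V_I(ν)` in terms of the atlas -/
structure Atlas.Sec (𝒜 : C.Atlas) (ν : C.I → ℤ) where
  s : ∀ i, C.Fn (𝒜.A i) ν
  s0 : C.Fn 𝒜.Ω ν
  compat : ∀ i (S : Type) [CommRing S] (ρ : 𝒜.Ω →+* S) (a : GL C.I S), a ∈ C.P S →
    (s i).f S (ρ.comp (𝒜.e i : 𝒜.A i →+* 𝒜.Ω)) (C.mp ρ (𝒜.x i) * a) = s0.f S ρ a
  ne : ∃ i, (s i).Nonzero

/-- `Ω` is an algebraic closure of the function field -/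
def Atlas.Alg (𝒜 : C.Atlas) : Prop :=
  ∀ i (ω : 𝒜.Ω), ∃ P : Polynomial (𝒜.A i), P ≠ 0 ∧ P.eval₂ (𝒜.e i : 𝒜.A i →+* 𝒜.Ω) ω = 0

theorem InLoc.map {k A Ω Ω' : Type} [Field k] [CommRing A] [Algebra k A] [Field Ω] [Algebra k Ω]
    [Field Ω'] [Algebra k Ω'] (ι : Ω →ₐ[k] Ω') {e : A →ₐ[k] Ω} {𝔭 : Ideal A} {ω : Ω}
    (h : InLoc e 𝔭 ω) : InLoc (ι.comp e) 𝔭 (ι ω) := by
  obtain ⟨a, s, h1, h2⟩ := h
  exact ⟨a, s, h1, by rw [AlgHom.comp_apply, AlgHom.comp_apply, ← map_mul, h2]⟩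

theorem inLoc_ext {k A Ω Ω' : Type} [Field k] [CommRing A] [Algebra k A] [Field Ω] [Algebra k Ω]
    [Field Ω'] [Algebra k Ω'] (ι : Ω →ₐ[k] Ω') {e : A →ₐ[k] Ω} (he : Function.Injective e)
    {𝔭 : Ideal A} {ω : Ω'} (h : InLoc (ι.comp e) 𝔭 ω) : ∃ ω₀, InLoc e 𝔭 ω₀ ∧ ι ω₀ = ω := by
  obtain ⟨a, s, h1, h2⟩ := h
  have h0 : e s ≠ 0 := fun h0 => h1 (by
    rw [he (h0.trans (map_zero e).symm)]
    exact zero_mem _)
  refine ⟨e a / e s, ⟨a, s, h1, div_mul_cancel₀ _ h0⟩, ?_⟩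
  rw [map_div₀, div_eq_iff ((map_ne_zero ι).2 h0)]
  exact h2.symm

/-- extension of the field `Ω` -/
def Atlas.ext (𝒜 : C.Atlas) {Ω : Type} [Field Ω] [Algebra C.k Ω] [IsAlgClosed Ω]
    (ι : 𝒜.Ω →ₐ[C.k] Ω) : C.Atlas :=
  { Ω := Ω
    ι := 𝒜.ι
    A := 𝒜.A
    ft := 𝒜.ft
    e := fun i => ι.comp (𝒜.e i)
    inj := fun i => (ι : 𝒜.Ω →+* Ω).injective.comp (𝒜.inj i)
    g := 𝒜.g
    g_mem := 𝒜.g_mem
    g0 := C.ma ι 𝒜.g0
    g0_mem := Pat.map _ 𝒜.g0_mem
    x := fun i => C.ma ι (𝒜.x i)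
    y := fun i => C.ma ι (𝒜.y i)
    xy := fun i => (𝒜.xy i).map _
    triv := fun i => by
      rw [← map_inv, ← map_mul, ← map_mul, ← 𝒜.triv]
      rfl
    smooth := 𝒜.smooth
    surj := 𝒜.surj
    cval := fun i F _ _ ξ hs V hV => by
      obtain ⟨i', 𝔭', h1, h2, h3, h4⟩ := 𝒜.cval i F ξ hs V hV
      refine ⟨i', 𝔭', h1, fun ω => ⟨fun h => ?_, fun h => ?_⟩, fun t ht a b => ?_,
        fun a' a s hs e => h4 a' a s hs ((ι : 𝒜.Ω →+* Ω).injective ((map_mul ι _ _).trans e))⟩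
      · obtain ⟨ω₀, h5, rfl⟩ := inLoc_ext ι (𝒜.inj i) h
        exact InLoc.map ι ((h2 _).1 h5)
      · obtain ⟨ω₀, h5, rfl⟩ := inLoc_ext ι (𝒜.inj i') h
        exact InLoc.map ι ((h2 _).2 h5)
      · simp only [List.mem_cons, List.not_mem_nil, or_false, forall_eq_or_imp, forall_eq] at ht h3
        rcases ht with rfl | rfl | rfl | rfl <;> rw [← map_inv, ← map_mul]
        · exact InLoc.map ι (h3.1 a b)
        · exact InLoc.map ι (h3.2.1 a b)
        · exact InLoc.map ι (h3.2.2.1 a b)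
        · exact InLoc.map ι (h3.2.2.2 a b) }

/-- change of the generic trivialisation -/
def Atlas.retriv (𝒜 : C.Atlas) (x y : GL C.I 𝒜.Ω) (h : C.E x y) (hg : 𝒜.g0 = x * y⁻¹) :
    C.Atlas :=
  { 𝒜 with
    g0 := 1
    g0_mem := one_mem _
    x := fun i => 𝒜.x i * x
    y := fun i => 𝒜.y i * y
    xy := fun i => (𝒜.xy i).mul h
    triv := fun i => by rw [𝒜.triv i, hg]; group
    cval := fun i F _ _ ξ hs V hV => by
      obtain ⟨i', 𝔭', h1, h2, h3, h4⟩ := 𝒜.cval i F ξ hs V hV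
      refine ⟨i', 𝔭', h1, h2, ?_, h4⟩
      simpa only [mul_inv_rev, mul_assoc, mul_inv_cancel_left, List.mem_cons, List.not_mem_nil, or_false, forall_eq_or_imp, Units.val_mul, Matrix.coe_units_inv, forall_eq] using h3 }

end Ctx

end Pool.Agent.MP_b8b722_ag

end

end partAtlas

section partSch

/-!
From schemes to atlases.
-/

set_option linter.unusedSectionVars false
set_option linter.unusedVariables false

open AlgebraicGeometry CategoryTheory Matrix

noncomputable section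

namespace Pool.Agent.MP_b8b722_ag

theorem res_res {X : Scheme.{0}} {U V V' : X.Opens} (h : V ≤ U) (h' : V' ≤ V) :
    (res h').comp (res h) = res (h'.trans h) := by
  unfold res
  rw [← CommRingCat.hom_comp, ← Functor.map_comp]
  rfl

theorem res_cst {k : Type} [Field k] {X : Scheme.{0}} (π : X ⟶ Spec (CommRingCat.of k))
    {U V : X.Opens} (h : V ≤ U) : (res h).comp (cst π U) = cst π V := by
  unfold cst
  rw [← RingHom.comp_assoc, res_res]

theorem scha_cst_eq {k : Type} [Field k] {X : Scheme.{0}} (π : X ⟶ Spec (CommRingCat.of k))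
    (U : X.Opens) :
    cst π U = ((Scheme.ΓSpecIso (CommRingCat.of k)).inv ≫ π.appLE ⊤ U le_top).hom := rfl

theorem cst_finiteType {k : Type} [Field k] {X : Scheme.{0}} (π : X ⟶ Spec (CommRingCat.of k))
    [LocallyOfFiniteType π] {U : X.Opens} (hU : IsAffineOpen U) : (cst π U).FiniteType := by
  rw [scha_cst_eq, CommRingCat.hom_comp]
  refine RingHom.FiniteType.comp (π.finiteType_appLE (isAffineOpen_top _) hU le_top) ?_
  exact RingHom.FiniteType.of_surjective _
    (Scheme.ΓSpecIso (CommRingCat.of k)).symm.commRingCatIsoToRingEquiv.surjective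

/-- rational functions -/
def toK {X : Scheme.{0}} [IsIntegral X] (U : X.Opens) [Nonempty U] :
    Γ(X, U) →+* X.functionField := (X.germToFunctionField U).hom

theorem toK_res {X : Scheme.{0}} [IsIntegral X] {U V : X.Opens} [Nonempty U] [Nonempty V]
    (h : V ≤ U) : (toK V).comp (res h) = toK U := by
  unfold toK res
  rw [← CommRingCat.hom_comp, X.presheaf.germ_res]

theorem scha_loc {X : Scheme.{0}} [IsIntegral X] {U : X.Opens} (hU : IsAffineOpen U)
    [Nonempty U] (𝔭 : PrimeSpectrum Γ(X, U)) {x : X} (hx : hU.fromSpec 𝔭 = x)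
    (ω : X.functionField) : (∃ a s, s ∉ 𝔭.asIdeal ∧ ω * toK U s = toK U a) ↔
      ∃ z : X.presheaf.stalk x, algebraMap _ X.functionField z = ω := by
  subst hx
  have hy : hU.fromSpec 𝔭 ∈ U := by
    have : hU.fromSpec 𝔭 ∈ Set.range hU.fromSpec := ⟨_, rfl⟩
    rwa [hU.range_fromSpec] at this
  let _ : Algebra Γ(X, U) (X.presheaf.stalk (hU.fromSpec 𝔭)) :=
    TopCat.Presheaf.algebra_section_stalk X.presheaf ⟨hU.fromSpec 𝔭, hy⟩
  have hL : IsLocalization 𝔭.asIdeal.primeCompl (X.presheaf.stalk (hU.fromSpec 𝔭)) :=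
    hU.isLocalization_stalk' 𝔭 hy
  have e : ∀ a : Γ(X, U), algebraMap (X.presheaf.stalk (hU.fromSpec 𝔭)) X.functionField
      (algebraMap Γ(X, U) (X.presheaf.stalk (hU.fromSpec 𝔭)) a) = toK U a := fun a =>
    X.algebraMap_germ_eq_germToFunctionField hy a
  constructor
  · rintro ⟨a, s, hs, h⟩
    obtain ⟨u, hu⟩ := IsLocalization.map_units (X.presheaf.stalk (hU.fromSpec 𝔭))
      (⟨s, hs⟩ : 𝔭.asIdeal.primeCompl)
    refine ⟨algebraMap Γ(X, U) _ a * (u⁻¹ : _ˣ), ?_⟩
    rw [map_mul, e, ← h, ← e s, mul_assoc, ← map_mul]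
    rw [show algebraMap Γ(X, U) (X.presheaf.stalk (hU.fromSpec 𝔭)) s = u from hu.symm,
      Units.mul_inv, map_one, mul_one]
  · rintro ⟨z, rfl⟩
    obtain ⟨⟨a, s⟩, h⟩ := IsLocalization.surj 𝔭.asIdeal.primeCompl z
    exact ⟨a, s, s.2, by rw [← e, ← e, ← map_mul]; exact congrArg _ h⟩

/-- the stalk at the point of an affine open given by a prime is the localisation: a function
defined near the point is a quotient -/
theorem exists_quot {X : Scheme.{0}} [IsIntegral X] {U V : X.Opens} (hU : IsAffineOpen U)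
    [Nonempty U] [Nonempty V] (𝔭 : PrimeSpectrum Γ(X, U)) (h : hU.fromSpec 𝔭 ∈ V) (f : Γ(X, V)) :
    ∃ a s, s ∉ 𝔭.asIdeal ∧ toK V f * toK U s = toK U a :=
  (scha_loc hU 𝔭 rfl _).2 ⟨X.presheaf.germ V _ h f, X.algebraMap_germ_eq_germToFunctionField h f⟩

/-- the localisations of two affine charts at the same point agree -/
theorem quot_iff {X : Scheme.{0}} [IsIntegral X] {U V : X.Opens} (hU : IsAffineOpen U)
    (hV : IsAffineOpen V) [Nonempty U] [Nonempty V] (𝔭 : PrimeSpectrum Γ(X, U))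
    (𝔭' : PrimeSpectrum Γ(X, V)) (h : hU.fromSpec 𝔭 = hV.fromSpec 𝔭') (ω : X.functionField)
    (hω : ∃ a s, s ∉ 𝔭.asIdeal ∧ ω * toK U s = toK U a) :
    ∃ a s, s ∉ 𝔭'.asIdeal ∧ ω * toK V s = toK V a :=
  (scha_loc hV 𝔭' h.symm ω).2 ((scha_loc hU 𝔭 rfl ω).1 hω)

theorem scha_factor {X : Scheme.{0}} {U : X.Opens} (hU : IsAffineOpen U) {R : CommRingCat.{0}}
    (f : Spec R ⟶ X) (h : ∀ p, f p ∈ U) : ∃ η : Γ(X, U) ⟶ R, Spec.map η ≫ hU.fromSpec = f := by
  have H : Set.range f ⊆ Set.range hU.fromSpec := by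
    rw [hU.range_fromSpec]
    rintro _ ⟨p, rfl⟩
    exact h p
  exact ⟨Spec.preimage (IsOpenImmersion.lift hU.fromSpec f H), by
    rw [Spec.map_preimage, IsOpenImmersion.lift_fac]⟩

theorem scha_cst {k : Type} [Field k] {X : Scheme.{0}} (π : X ⟶ Spec (CommRingCat.of k))
    {U : X.Opens} (hU : IsAffineOpen U) :
    hU.fromSpec ≫ π = Spec.map (CommRingCat.ofHom (cst π U)) := by
  rw [← IsAffineOpen.SpecMap_appLE_fromSpec π (isAffineOpen_top _) hU le_top,
    IsAffineOpen.fromSpec_top, Scheme.isoSpec_Spec_inv, ← Spec.map_comp]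
  rfl

theorem scha_pt {A : CommRingCat.{0}} {F : Type} [Field F] (η : A ⟶ CommRingCat.of F)
    (p : Spec (CommRingCat.of F)) :
    Spec.map η p = (⟨RingHom.ker η.hom, RingHom.ker_isPrime _⟩ : PrimeSpectrum A) := by
  refine PrimeSpectrum.ext ?_
  have : p.asIdeal = ⊥ := @Ideal.eq_bot_of_prime F _ p.asIdeal p.isPrime
  change Ideal.comap η.hom p.asIdeal = _
  rw [this]
  rfl

theorem scha_rel {X : Scheme.{0}} [IsIntegral X] {U V : X.Opens} (hU : IsAffineOpen U)
    (hV : IsAffineOpen V) [Nonempty U] [Nonempty V] {F : Type} [Field F]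
    (α : Γ(X, U) ⟶ CommRingCat.of F) (β : Γ(X, V) ⟶ CommRingCat.of F)
    (h : Spec.map α ≫ hU.fromSpec = Spec.map β ≫ hV.fromSpec) (a' : Γ(X, V)) (a s : Γ(X, U))
    (e : toK V a' * toK U s = toK U a) : β.hom a' * α.hom s = α.hom a := by
  let p : Spec (CommRingCat.of F) := (⊥ : PrimeSpectrum F)
  have m : ∀ {T : X.Opens} (hT : IsAffineOpen T) y, hT.fromSpec y ∈ T := fun {T} hT y => by
    have : hT.fromSpec y ∈ Set.range hT.fromSpec := ⟨_, rfl⟩
    rwa [hT.range_fromSpec] at this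
  have h1 : (Spec.map α ≫ hU.fromSpec) p ∈ U ⊓ V := ⟨m hU _, by rw [h]; exact m hV _⟩
  obtain ⟨_, ⟨T, hT, rfl⟩, hp, hle⟩ :=
    X.isBasis_affineOpens.exists_subset_of_mem_open h1 (U ⊓ V).isOpen
  have hle : T ≤ U ⊓ V := hle
  have : Nonempty T := ⟨_, hp⟩
  obtain ⟨τ, hτ⟩ := scha_factor hT (Spec.map α ≫ hU.fromSpec) fun p' => by
    rw [Subsingleton.elim (α := PrimeSpectrum F) p' p]
    exact hp
  have k : ∀ {S : X.Opens} (hS : IsAffineOpen S) (l : T ≤ S) (γ : Γ(X, S) ⟶ CommRingCat.of F),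
      Spec.map τ ≫ (show IsAffineOpen T from hT).fromSpec = Spec.map γ ≫ hS.fromSpec →
      ∀ b, γ.hom b = τ.hom (res l b) := fun {S} hS l γ H b => by
    rw [← hS.map_fromSpec hT (homOfLE l).op, ← Category.assoc, cancel_mono,
      ← Spec.map_comp] at H
    rw [← Spec.map_injective H]
    rfl
  rw [k hU (hle.trans inf_le_left) α hτ, k hU (hle.trans inf_le_left) α hτ,
    k hV (hle.trans inf_le_right) β (hτ.trans h), ← map_mul]
  congr 1
  refine X.germToFunctionField_injective T ?_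
  change toK T _ = toK T _
  rw [map_mul, ← RingHom.comp_apply, ← RingHom.comp_apply, ← RingHom.comp_apply (toK T), toK_res,
    toK_res, e]

/-- The valuative criterion.  The point `x` given by `ξ` is the image of `w ∈ W`.  The fields `F`
and `κ(w)` are extensions of `κ(x)`; embed them into a common field `F'` (`exists_amalg`), extend
`V` to `V'` (`IsVal.extend`) and lift `Spec F' → W` to `Spec V' → W` over `Spec k`
(`UniversallyClosed.eq_valuativeCriterion`).  The closed point of `Spec V'` maps to a point `x'`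
of some member `U'` of the cover, so `Spec V' → X` factors through `U'` and `x ∈ U'`. -/
theorem exists_center {k : Type} [Field k] {X W : Scheme.{0}} [IsIntegral X]
    (π : X ⟶ Spec (CommRingCat.of k)) (q : W ⟶ X) [IsProper (q ≫ π)] {ι : Type} (U : ι → X.Opens)
    (hU : ∀ i, IsAffineOpen (U i)) (hc : ⨆ i, U i = ⊤) (i : ι) [Nonempty (U i)] (F : Type)
    [Field F] [Algebra k F] (ξ : Γ(X, U i) →+* F) (hξ : ξ.comp (cst π (U i)) = algebraMap k F)
    (hw : ∃ w : W, q w = (hU i).fromSpec ⟨RingHom.ker ξ, RingHom.ker_isPrime ξ⟩)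
    (V : Subalgebra k F) (hV : IsVal V) :
    ∃ (i' : ι) (_ : Nonempty (U i')),
      (hU i).fromSpec ⟨RingHom.ker ξ, RingHom.ker_isPrime ξ⟩ ∈ U i' ∧
      ∀ (a' : Γ(X, U i')) (a s : Γ(X, U i)), ξ s ≠ 0 →
        toK (U i') a' * toK (U i) s = toK (U i) a → ξ a / ξ s ∈ V := by
  obtain ⟨w, hw⟩ := hw
  have m : ∀ {T : X.Opens} (hT : IsAffineOpen T) y, hT.fromSpec y ∈ T := fun {T} hT y => by
    have : hT.fromSpec y ∈ Set.range hT.fromSpec := ⟨_, rfl⟩
    rwa [hT.range_fromSpec] at this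
  let κ : Type := W.residueField w
  let ψ : Spec (CommRingCat.of κ) ⟶ W := W.fromSpecResidueField w
  have hψ : ∀ p, (ψ ≫ q) p = q w := fun p =>
    congrArg q (Scheme.fromSpecResidueField_apply w p)
  obtain ⟨η, hη⟩ := scha_factor (hU i) (ψ ≫ q) fun p => by
    rw [hψ, hw]
    exact m (hU i) _
  have hker : RingHom.ker η.hom = RingHom.ker ξ := by
    obtain ⟨p⟩ : Nonempty (Spec (CommRingCat.of κ)) := inferInstance
    have h1 := hψ p
    rw [← hη, hw, Scheme.Hom.comp_apply, scha_pt] at h1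
    exact congrArg PrimeSpectrum.asIdeal ((hU i).fromSpec.isOpenEmbedding.injective h1)
  let _ : Algebra k Γ(X, U i) := (cst π (U i)).toAlgebra
  let _ : Algebra k κ := (η.hom.comp (cst π (U i))).toAlgebra
  obtain ⟨F', _, _, g₁, g₂, hg⟩ := exists_amalg (k := k) (A := Γ(X, U i)) (F₁ := F) (F₂ := κ)
    { ξ with commutes' := fun c => DFunLike.congr_fun hξ c }
    { η.hom with commutes' := fun c => rfl } fun a => by
      change ξ a = 0 ↔ η.hom a = 0
      rw [← RingHom.mem_ker, ← RingHom.mem_ker, hker]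
  have hg' : ∀ a, g₁ (ξ a) = g₂ (η.hom a) := fun a => DFunLike.congr_fun hg a
  obtain ⟨V', hV', hVV⟩ := hV.extend g₁
  obtain ⟨O, hO⟩ := hV'.exists_valuationSubring
  let c : k →+* O := (algebraMap k F').codRestrict O fun t => (hO _).2 (V'.algebraMap_mem t)
  have hE : ValuativeCriterion.Existence (q ≫ π) := by
    have : UniversallyClosed (q ≫ π) := inferInstance
    rw [UniversallyClosed.eq_valuativeCriterion] at this
    exact this.1
  let S : ValuativeCommSq (q ≫ π) :=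
    { R := O, K := F', i₁ := Spec.map (CommRingCat.ofHom g₂.toRingHom) ≫ ψ
      i₂ := Spec.map (CommRingCat.ofHom c)
      commSq := ⟨by
        rw [Category.assoc, ← Category.assoc ψ, ← hη, Category.assoc, scha_cst π (hU i),
          ← Spec.map_comp, ← Spec.map_comp, ← Spec.map_comp]
        congr 1
        ext t
        exact g₂.commutes t⟩ }
  obtain ⟨⟨l, hl, -⟩⟩ := (hE S).exists_lift
  have hl : Spec.map (CommRingCat.ofHom (algebraMap O F')) ≫ l =
    Spec.map (CommRingCat.ofHom g₂.toRingHom) ≫ ψ := hl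
  obtain ⟨i', hi'⟩ : ∃ i', (l ≫ q) (IsLocalRing.closedPoint O) ∈ U i' :=
    TopologicalSpace.Opens.mem_iSup.1 (by rw [hc]; trivial)
  have hne : Nonempty (U i') := ⟨_, hi'⟩
  obtain ⟨ρ, hρ⟩ := scha_factor (hU i') (l ≫ q) fun p => by
    have := Scheme.preimage_eq_top_of_closedPoint_mem (R := CommRingCat.of O) (l ≫ q) hi'
    exact (this.ge trivial : p ∈ (l ≫ q) ⁻¹ᵁ U i')
  have key : Spec.map (η ≫ CommRingCat.ofHom g₂.toRingHom) ≫ (hU i).fromSpec =
      Spec.map (ρ ≫ CommRingCat.ofHom (algebraMap O F')) ≫ (hU i').fromSpec := by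
    rw [Spec.map_comp, Spec.map_comp, Category.assoc, Category.assoc, hη]
    refine Eq.symm ((congrArg _ hρ).trans ?_)
    rw [← Category.assoc, hl, Category.assoc]
  refine ⟨i', hne, ?_, fun a' a s hs e => ?_⟩
  · obtain ⟨p⟩ : Nonempty (Spec (CommRingCat.of F')) := inferInstance
    have h1 := m (hU i') (Spec.map (ρ ≫ CommRingCat.ofHom (algebraMap O F')) p)
    rw [← Scheme.Hom.comp_apply, ← key, Spec.map_comp, Category.assoc, hη, Scheme.Hom.comp_apply,
      hψ, hw] at h1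
    exact h1
  · have h1 : ((ρ.hom a' : O) : F') * g₂ (η.hom s) = g₂ (η.hom a) :=
      scha_rel (hU i) (hU i') _ _ key a' a s e
    rw [← hVV, map_div₀, hg', hg', ← h1, mul_div_cancel_right₀, ← hO]
    · exact (ρ.hom a').2
    · rw [← hg']
      exact (map_ne_zero g₁).2 hs

theorem schb_nonempty {X : Scheme.{0}} {U : X.Opens} {S : Type} [CommRing S] [Nontrivial S]
    (ξ : Γ(X, U) →+* S) : Nonempty U := by
  by_contra h
  have e : U = ⊥ := by
    ext x
    exact ⟨fun hx => h ⟨⟨x, hx⟩⟩, fun hx => hx.elim⟩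
  subst e
  exact not_subsingleton _ ξ.codomain_trivial

theorem schb_inf {X : Scheme.{0}} [IsIntegral X] (U V : X.Opens) [hU : Nonempty U]
    [hV : Nonempty V] : Nonempty (U ⊓ V : X.Opens) := by
  obtain ⟨⟨x, hx⟩⟩ := hU
  obtain ⟨⟨y, hy⟩⟩ := hV
  obtain ⟨z, hz⟩ := nonempty_preirreducible_inter U.isOpen V.isOpen ⟨x, hx⟩ ⟨y, hy⟩
  exact ⟨⟨z, hz⟩⟩

/-- functions as elements of an algebraic closure of the function field -/
def schb_tau {X : Scheme.{0}} [IsIntegral X] (U : X.Opens) (h : Nonempty U) :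
    Γ(X, U) →+* AlgebraicClosure X.functionField :=
  (algebraMap X.functionField (AlgebraicClosure X.functionField)).comp (toK U)

theorem schb_tau_res {X : Scheme.{0}} [IsIntegral X] {U V : X.Opens} (hU : Nonempty U)
    (hV : Nonempty V) (h : V ≤ U) : (schb_tau V hV).comp (res h) = schb_tau U hU := by
  rw [schb_tau, schb_tau, RingHom.comp_assoc, toK_res]

theorem schb_tau_inj {X : Scheme.{0}} [IsIntegral X] {U : X.Opens} (hU : Nonempty U) :
    Function.Injective (schb_tau U hU) :=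
  (algebraMap X.functionField (AlgebraicClosure X.functionField)).injective.comp
    (X.germToFunctionField_injective U)

theorem schb_alg {X : Scheme.{0}} [IsIntegral X] {U : X.Opens} (hA : IsAffineOpen U)
    (hU : Nonempty U) (ω : AlgebraicClosure X.functionField) :
    ∃ P : Polynomial Γ(X, U), P ≠ 0 ∧ P.eval₂ (schb_tau U hU) ω = 0 := by
  have := functionField_isFractionRing_of_isAffineOpen X U hA
  exact (IsFractionRing.isAlgebraic_iff Γ(X, U) X.functionField _).2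
    (Algebra.IsAlgebraic.isAlgebraic ω)

theorem schb_quot {X : Scheme.{0}} [IsIntegral X] {U V : X.Opens} (hU : IsAffineOpen U)
    (hV : IsAffineOpen V) (nU : Nonempty U) (nV : Nonempty V) (𝔭 : PrimeSpectrum Γ(X, U))
    (𝔭' : PrimeSpectrum Γ(X, V)) (h : hU.fromSpec 𝔭 = hV.fromSpec 𝔭')
    (ω : AlgebraicClosure X.functionField)
    (hω : ∃ a s, s ∉ 𝔭.asIdeal ∧ ω * schb_tau U nU s = schb_tau U nU a) :
    ∃ a s, s ∉ 𝔭'.asIdeal ∧ ω * schb_tau V nV s = schb_tau V nV a := by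
  obtain ⟨a, s, hs, e⟩ := hω
  have s0 : toK U s ≠ 0 := fun z => hs (by
    have : s = 0 := X.germToFunctionField_injective U (z.trans (map_zero _).symm)
    rw [this]; exact zero_mem _)
  obtain ⟨a', s', hs', e'⟩ := quot_iff hU hV 𝔭 𝔭' h (toK U a / toK U s)
    ⟨a, s, hs, div_mul_cancel₀ _ s0⟩
  refine ⟨a', s', hs', ?_⟩
  have e1 : ω = algebraMap X.functionField _ (toK U a / toK U s) := by
    rw [map_div₀, eq_div_iff ((map_ne_zero _).2 s0)]
    exact e
  rw [e1]
  exact (map_mul _ _ _).symm.trans (congrArg _ e')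

theorem schb_entry {X : Scheme.{0}} [IsIntegral X] {U V : X.Opens} (hU : IsAffineOpen U)
    (nU : Nonempty U) (nV : Nonempty V) (𝔭 : PrimeSpectrum Γ(X, U)) (h : hU.fromSpec 𝔭 ∈ V)
    (f : Γ(X, V)) :
    ∃ a s, s ∉ 𝔭.asIdeal ∧ schb_tau V nV f * schb_tau U nU s = schb_tau U nU a := by
  obtain ⟨a, s, hs, e⟩ := exists_quot hU 𝔭 h f
  exact ⟨a, s, hs, (map_mul (algebraMap X.functionField (AlgebraicClosure X.functionField))
    _ _).symm.trans (congrArg _ e)⟩

theorem schb_cocycle (C : Ctx) {X : Scheme.{0}} [IsIntegral X] (Z : C.ZipMap C.p X)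
    (i j l : Z.ι) (ni : Nonempty (Z.U i)) (nj : Nonempty (Z.U j)) (nl : Nonempty (Z.U l)) :
    C.mp (schb_tau _ (schb_inf _ _)) (Z.x i l) * (C.mp (schb_tau _ (schb_inf _ _)) (Z.x j l))⁻¹ =
      C.mp (schb_tau _ (schb_inf _ _)) (Z.x i j) ∧
    C.mp (schb_tau _ (schb_inf _ _)) (Z.y i l) * (C.mp (schb_tau _ (schb_inf _ _)) (Z.y j l))⁻¹ =
      C.mp (schb_tau _ (schb_inf _ _)) (Z.y i j) := by
  have nij := schb_inf (Z.U i) (Z.U j)
  have nV := schb_inf (Z.U i ⊓ Z.U j) (Z.U l)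
  obtain ⟨h1, h2⟩ := Z.cocycle i j l (Z.U i ⊓ Z.U j ⊓ Z.U l) (inf_le_left.trans inf_le_left)
    (inf_le_left.trans inf_le_right) inf_le_right
  replace h1 := congrArg (C.mp (schb_tau _ nV)) h1
  replace h2 := congrArg (C.mp (schb_tau _ nV)) h2
  rw [map_mul, ← C.mp_comp, ← C.mp_comp, ← C.mp_comp, schb_tau_res (schb_inf _ _),
    schb_tau_res (schb_inf _ _), schb_tau_res (schb_inf _ _)] at h1 h2
  exact ⟨by rw [h1, mul_inv_cancel_right], by rw [h2, mul_inv_cancel_right]⟩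

namespace Ctx

/-- Take the non-empty members of the cover, `Ω` an algebraic closure of the function field, a
base index `i₀`, `g0` the image of `g i₀`, `x i`, `y i` the images of the transition elements
`x i i₀`, `y i i₀`. -/
theorem exists_atlas (C : Ctx) (X : Scheme.{0}) (π : X ⟶ Spec (CommRingCat.of C.k)) [IsIntegral X]
    [LocallyOfFiniteType π] (Z : C.ZipMap C.p X) (hA : Z.Smooth π) (hB : Z.Surj π)
    (hC : Z.SmallProper π) (ν : C.I → ℤ) (s : Z.Sec ν) (hs : ∃ i, (s.s i).Nonzero) :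
    ∃ 𝒜 : C.Atlas, 𝒜.Alg ∧ Nonempty (𝒜.Sec ν) := by
  obtain ⟨i₀, hi₀⟩ := hs
  have n₀ : Nonempty (Z.U i₀) := by
    obtain ⟨S, _, ξ, a, -, h⟩ := hi₀
    have : Nontrivial S := nontrivial_of_ne _ _ h
    exact schb_nonempty ξ
  obtain ⟨W, q, hq, hW⟩ := hC
  let Ω := AlgebraicClosure X.functionField
  let algΩ : Algebra C.k Ω := ((schb_tau _ n₀).comp (cst π (Z.U i₀))).toAlgebra
  let algA : ∀ U : X.Opens, Algebra C.k Γ(X, U) := fun U => (cst π U).toAlgebra
  have hτ : ∀ (U : X.Opens) (h : Nonempty U),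
      (schb_tau U h).comp (cst π U) = algebraMap C.k Ω := fun U h => by
    have nt : Nonempty (⊤ : X.Opens) := h.elim fun x => ⟨⟨x.1, trivial⟩⟩
    change _ = (schb_tau _ n₀).comp (cst π (Z.U i₀))
    rw [← res_cst π (le_top (a := U)), ← res_cst π (le_top (a := Z.U i₀)), ← RingHom.comp_assoc,
      ← RingHom.comp_assoc, schb_tau_res nt, schb_tau_res nt]
  let e : ∀ (U : X.Opens) (h : Nonempty U), Γ(X, U) →ₐ[C.k] Ω := fun U h =>
    { schb_tau U h with commutes' := fun c => DFunLike.congr_fun (hτ U h) c }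
  let 𝒜 : C.Atlas :=
    { Ω := Ω
      ι := {i : Z.ι // Nonempty (Z.U i)}
      A := fun i => Γ(X, Z.U i.1)
      ft := fun i => cst_finiteType π (Z.affine i.1)
      e := fun i => e _ i.2
      inj := fun i => schb_tau_inj i.2
      g := fun i => Z.g i.1
      g_mem := fun i => mem_G.2 (Z.g_mem i.1)
      g0 := C.mp (schb_tau _ n₀) (Z.g i₀)
      g0_mem := Pat.map _ (mem_G.2 (Z.g_mem i₀))
      x := fun i => C.mp (schb_tau _ (schb_inf _ _ (hU := i.2))) (Z.x i.1 i₀)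
      y := fun i => C.mp (schb_tau _ (schb_inf _ _ (hU := i.2))) (Z.y i.1 i₀)
      xy := fun i => E.map _ (Z.xy_mem i.1 i₀)
      triv := fun i => by
        have h := congrArg (C.mp (schb_tau _ (schb_inf _ _ (hU := i.2)))) (Z.glue i.1 i₀)
        rw [map_mul, map_mul, map_inv, ← C.mp_comp, ← C.mp_comp, schb_tau_res i.2,
          schb_tau_res n₀] at h
        exact h
      smooth := fun i S S' _ _ _ _ f hf hk ξ' x' y' h hE hh he => by
        obtain ⟨ξ, x, y, h1, h2, h3⟩ := hA i.1 S S' (algebraMap C.k S) f hf hk ξ' x' y' h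
          (ξ'.comp_algebraMap.trans f.comp_algebraMap.symm) hE (mem_G.1 hh) he
        exact ⟨{ ξ with commutes' := fun c => DFunLike.congr_fun h1 c }, x, y,
          AlgHom.ext fun c => DFunLike.congr_fun h2 c, h3⟩
      surj := fun h hh => by
        obtain ⟨i, ξ, x, y, h1, h2⟩ := hB h (mem_G.1 hh)
        exact ⟨⟨i, schb_nonempty ξ⟩, { ξ with commutes' := fun c => DFunLike.congr_fun h1 c },
          x, y, h2⟩
      cval := fun i F _ _ ξ hsm V hV => by
        have ni := i.2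
        obtain ⟨i', ni', hx, hv⟩ := exists_center π q Z.U Z.affine Z.cover i.1 F ξ
          ξ.comp_algebraMap (hW i.1 F ξ hsm) V hV
        have hp := (Z.affine i').fromSpec_primeIdealOf ⟨_, hx⟩
        have hxi : (Z.affine i.1).fromSpec ⟨RingHom.ker (ξ : Γ(X, Z.U i.1) →+* F),
            RingHom.ker_isPrime _⟩ ∈ Z.U i.1 := by
          rw [← SetLike.mem_coe, ← (Z.affine i.1).range_fromSpec]
          exact ⟨_, rfl⟩
        refine ⟨⟨i', ni'⟩, ((Z.affine i').primeIdealOf ⟨_, hx⟩).asIdeal,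
          ((Z.affine i').primeIdealOf ⟨_, hx⟩).isPrime,
          fun ω => ⟨schb_quot _ _ ni ni' _ _ hp.symm ω, schb_quot _ _ ni' ni _ _ hp ω⟩,
          fun t ht a b => ?_, fun a' a s hs he => hv a' a s hs
            ((algebraMap X.functionField Ω).injective ((map_mul _ _ _).trans he))⟩
        have c1 := schb_cocycle C Z i' i.1 i₀ ni' ni n₀
        have c2 := schb_cocycle C Z i.1 i' i₀ ni ni' n₀
        have m1 : _ ∈ Z.U i' ⊓ Z.U i.1 := ⟨hx, hxi⟩
        have m2 : _ ∈ Z.U i.1 ⊓ Z.U i' := ⟨hxi, hx⟩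
        simp only [List.mem_cons, List.not_mem_nil, or_false] at ht
        rcases ht with rfl | rfl | rfl | rfl
        · rw [c1.1]; exact schb_entry _ ni (schb_inf _ _) _ m1 _
        · rw [c2.1]; exact schb_entry _ ni (schb_inf _ _) _ m2 _
        · rw [c1.2]; exact schb_entry _ ni (schb_inf _ _) _ m1 _
        · rw [c2.2]; exact schb_entry _ ni (schb_inf _ _) _ m2 _ }
  refine ⟨𝒜, fun i ω => schb_alg (Z.affine i.1) i.2 ω, ⟨
    { s := fun i => s.s i.1
      s0 :=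
        { f := fun S _ ρ a => (s.s i₀).f S (ρ.comp (schb_tau _ n₀)) a
          nat := fun S S' _ _ h ξ a ha => (s.s i₀).nat S S' h (ξ.comp (schb_tau _ n₀)) a ha
          equi := fun S _ ξ a b ha hb => (s.s i₀).equi S _ a b ha hb }
      compat := fun i S _ ρ a ha => ?_
      ne := ⟨⟨i₀, n₀⟩, hi₀⟩ }⟩⟩
  have h := s.glue i.1 i₀ S (ρ.comp (schb_tau _ (schb_inf _ _ (hU := i.2))))
    (C.mp ρ (𝒜.x i) * a) (mem_P.1 (mul_mem (Pat.map ρ (𝒜.xy i).memP) ha))
  rw [RingHom.comp_assoc, RingHom.comp_assoc, schb_tau_res i.2, schb_tau_res n₀] at h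
  refine h.trans ?_
  congr 1
  exact inv_mul_cancel_left _ _

end Ctx

end Pool.Agent.MP_b8b722_ag

end

end partSch
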