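import Pool.Agent.MP_b8b722_ag.A5
import Pool.Agent.MP_b8b722_ag.A3
import Pool.Agent.MP_b8b722_ag.A4
import Pool.Agent.MP_b8b722_ag.A1

attribute [-instance] SubmoduleClass.module MonTypeEquivalenceMon.monMonoid littleWedderburn
  Polynomial.charZero RKHS.instFunLike ESeminormedCommMonoid.toCommMonoid
  CommMonTypeEquivalenceCommMon.commMonCommMonoid RingConeClass.toSubsemiringClass
  instCharZeroOfIsSemireal instNonUnitalAlgHomClassOfNonUnitalAlgEquivClass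
  SemigroupWithZero.toSemigroup ContinuousSemilinearMapClass.toSemilinearMapClass
  IntermediateField.module' NormedField.toField Submodule.Quotient.addCommMonoid
  IdemCommSemiring.toCommSemiring KleeneAlgebra.toIdemSemiring TestFunctionClass.toDFunLike
  FloorSemiring.instCharZero ContDiffMapSupportedInClass.toDFunLike
  CoalgHomClass.toSemilinearMapClass IdemCommSemiring.toIdemSemiring
  NonUnitalAlgHomClass.toNonUnitalRingHomClass NormedAlgebra.toAlgebra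
  BialgEquivClass.toBialgHomClass CommGrpTypeEquivalenceCommGrp.commGrpCommGroup
  SubalgebraClass.toAlgebra MulOne.toOne SMulZeroClass.toSMul instCoeTCOfCoe
  DivisionRing.toDivisionSemiring MonoidWithZero.toMonoid Action.FintypeCat.instMulActionObjFiniteOf
  ContinuousMonoidHom.instCoeOutOfMonoidHomClassOfContinuousMapClass Fintype.decidableExistsFintype
  NonUnitalAlgHomClass.instSemilinearMapClassOfNonUnitalAlgSemiHomClassToMonoidHomRingHom
  ValuationClass.toMonoidWithZeroHomClass SetLike.GradeZero.instCommSemiring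
  GroupConeClass.toSubmonoidClass MulCharClass.toMonoidHomClass
  instCommGroupOfIsSimpleGroupOfIsNilpotent instCoeOutOfCoeFun SetLike.GradeZero.instCommRing
  RCLike.charZero_rclike SemilinearIsometryClass.toSemilinearMapClass SetLike.GradeZero.instSemiring
  NormedCommRing.toCommRing NormedRing.toRing

/-!
Fixed point lemmas, Lang's theorem, stabilisers and the open cell.
-/

set_option linter.unusedSectionVars false
set_option linter.unusedVariables false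

open Matrix

noncomputable section

namespace Pool.Agent.MP_b8b722_ag

namespace Ctx

variable {C : Ctx}

section Ring

variable {S S' : Type} [CommRing S] [CommRing S']

/-- the largest `τ`-stable Levi subgroup in `Λ` -/
def Lv.st (Λ : C.Lv) {τ : Equiv.Perm C.I} (hτ : C.IsAut τ) : C.Lv where
  r a b := ∀ n : ℕ, Λ.r ((τ ^ n) a) ((τ ^ n) b)
  refl _ _ := Λ.refl _
  trans a b c h1 h2 h3 h4 n :=
    Λ.trans _ _ _ (((hτ.pow n).2 a b).2 h1) (((hτ.pow n).2 b c).2 h2) (h3 n) (h4 n)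
  mir a b h n := by rw [(hτ.pow n).1, (hτ.pow n).1]; exact Λ.mir _ _ (h n)
  symm _ _ h n := Λ.symm _ _ (h n)

/-- `τ` is monotone on the pairs of `Λ` -/
def Lv.Mono (Λ : C.Lv) (τ : Equiv.Perm C.I) : Prop :=
  ∀ a b, C.blk a = C.blk b → Λ.r a b → (τ a < τ b ↔ a < b)

variable (C) in
/-- the largest Levi subgroup of `L` that is defined over `𝔽_p` -/
def L0 : C.Lv := C.lvL.st isAut_σ

/-- the largest Levi subgroup of `L` that is stable under `z⁻¹ σ` -/
def Wd.Lc (W : C.Wd) : C.Lv := C.lvL.st W.τ_aut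

theorem Lv.st_le {Λ : C.Lv} {τ : Equiv.Perm C.I} (hτ : C.IsAut τ) {a b : C.I}
    (h : (Λ.st hτ).r a b) : Λ.r a b := h 0

theorem Lv.st_apply {Λ : C.Lv} {τ : Equiv.Perm C.I} (hτ : C.IsAut τ) (a b : C.I) :
    (Λ.st hτ).r (τ a) (τ b) ↔ (Λ.st hτ).r a b := by
  refine ⟨fun h n => ?_, fun h n => by simpa only [pow_succ, Equiv.Perm.mul_apply] using h (n + 1)⟩
  have h1 := h (n + (orderOf τ - 1))
  rwa [← Equiv.Perm.mul_apply, ← Equiv.Perm.mul_apply, ← pow_succ, add_assoc,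
    Nat.sub_add_cancel (orderOf_pos τ), pow_add, pow_orderOf_eq_one, mul_one] at h1

theorem ovB : C.lvL.Ov C.rB := ovP.mono fun _ _ _ h l => C.lo_of_le h l

theorem ovBp : C.lvL.Ov C.rBp := ovPp.mono fun _ _ _ h l => C.lo_of_le h l

theorem mono_σ (Λ : C.Lv) : Λ.Mono C.σ := fun _ _ h _ => C.σ_lt h

theorem Wd.mono_τ (W : C.Wd) : C.lvL.Mono W.τ := fun _ _ h hl => W.τ_lt h hl

theorem fixa_anti {o : C.Rel} (ho : o = C.rB ∨ o = C.rBp) {a b : C.I} (h1 : o.r a b)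
    (h2 : o.r b a) : a = b := by
  rcases ho with rfl | rfl
  · exact le_antisymm h2 h1
  · exact le_antisymm h1 h2

theorem fixa_mono {o : C.Rel} (ho : o = C.rB ∨ o = C.rBp) {Λ : C.Lv} {τ : Equiv.Perm C.I}
    (hm : Λ.Mono τ) {a b : C.I} (hb : C.blk a = C.blk b) (h : Λ.r a b) (h1 : o.r a b) :
    o.r (τ a) (τ b) := by
  rcases ho with rfl | rfl
  · exact not_lt.1 fun h2 => not_lt.2 h1 ((hm a b hb h).1 h2)
  · exact not_lt.1 fun h2 => not_lt.2 h1 ((hm b a hb.symm (Λ.symm _ _ h)).1 h2)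

/-- FIXA.  The classes of the stable Levi subgroup are intervals (induction on the exponent). -/
theorem Lv.ov_st {Λ : C.Lv} {τ : Equiv.Perm C.I} (hτ : C.IsAut τ) {o : C.Rel}
    (ho : o = C.rB ∨ o = C.rBp) (hov : Λ.Ov o) (hm : Λ.Mono τ) : (Λ.st hτ).Ov o := by
  intro a b c h1 h2 h3 h4 h5
  have b1 := fun n => ((hτ.pow n).2 a b).2 h1
  have b2 := fun n => ((hτ.pow n).2 b c).2 h2
  have key : ∀ n : ℕ, o.r ((τ ^ n) a) ((τ ^ n) b) ∧ o.r ((τ ^ n) b) ((τ ^ n) c) := fun n => by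
    induction n with
    | zero => exact ⟨h3, h4⟩
    | succ n ih =>
      have l1 := hov _ _ _ (b1 n) (b2 n) ih.1 ih.2 (h5 n)
      have l2 := Λ.trans _ _ _ (b1 n).symm ((b1 n).trans (b2 n)) (Λ.symm _ _ l1) (h5 n)
      rw [pow_succ']
      exact ⟨fixa_mono ho hm (b1 n) l1 ih.1, fixa_mono ho hm (b2 n) l2 ih.2⟩
  exact fun n => hov _ _ _ (b1 n) (b2 n) (key n).1 (key n).2 (h5 n)

theorem ov0B : C.L0.Ov C.rB := Lv.ov_st _ (Or.inl rfl) ovB (mono_σ _)

theorem ov0Bp : C.L0.Ov C.rBp := Lv.ov_st _ (Or.inr rfl) ovBp (mono_σ _)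

theorem Wd.ovc (W : C.Wd) : W.Lc.Ov C.rB := Lv.ov_st _ (Or.inl rfl) ovB W.mono_τ

/-- induction over the rank of a pair -/
theorem fixa_ind {Λ : C.Lv} {τ : Equiv.Perm C.I} (hτ : C.IsAut τ) {o : C.Rel}
    (ho : o = C.rB ∨ o = C.rBp) (hov : Λ.Ov o) (hm : Λ.Mono τ) (P : C.I → C.I → Prop)
    (h0 : ∀ a b, ¬ Λ.r a b → P a b) (h1 : ∀ a b, (Λ.st hτ).r a b → P a b)
    (hs : ∀ a b, (∀ e, C.blk a = C.blk e → C.blk e = C.blk b → Λ.r a e → o.r a e →
      o.r (τ e) (τ b) → P a e) → P (τ a) (τ b)) (a b : C.I) : P a b := by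
  obtain ⟨N, hN⟩ : ∃ N : C.I → C.I → ℕ,
      ∀ a b, N a b = Set.ncard {x | C.blk a = C.blk x ∧ o.r a x ∧ o.r x b} := ⟨_, fun _ _ => rfl⟩
  have key : ∀ n a b, N a b < n → P a b := fun n => by
    induction n with
    | zero => exact fun a b h => absurd h (Nat.not_lt_zero _)
    | succ n ih =>
      have inner : ∀ (k : ℕ) a b, N a b < n + 1 → ¬ Λ.r ((τ⁻¹ ^ k) a) ((τ⁻¹ ^ k) b) → P a b := by
        intro k
        induction k with
        | zero => exact fun a b _ h => h0 a b h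
        | succ k ihk =>
          intro a b hn hk
          obtain ⟨a, rfl⟩ := τ.surjective a
          obtain ⟨b, rfl⟩ := τ.surjective b
          refine hs a b fun e e1 e2 e3 e4 e5 => ?_
          have hle : N a e ≤ N (τ a) (τ e) := by
            rw [hN, hN]
            refine Set.ncard_le_ncard_of_injOn τ (fun x hx => ?_) τ.injective.injOn
            have x1 := hx.1.symm.trans e1
            have l1 := hov _ _ _ hx.1 x1 hx.2.1 hx.2.2 e3
            have l2 := Λ.trans _ _ _ hx.1.symm e1 (Λ.symm _ _ l1) e3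
            exact ⟨(hτ.2 _ _).2 hx.1, fixa_mono ho hm hx.1 l1 hx.2.1,
              fixa_mono ho hm x1 l2 hx.2.2⟩
          by_cases e6 : e = b
          · subst e6
            refine ihk a e (hle.trans_lt hn) ?_
            simpa only [pow_succ, Equiv.Perm.mul_apply, Equiv.Perm.coe_inv,
              Equiv.symm_apply_apply] using hk
          · have t1 := (hτ.2 _ _).2 e1
            have t2 := (hτ.2 _ _).2 e2
            have hlt : N (τ a) (τ e) < N (τ a) (τ b) := by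
              rw [hN, hN]
              refine Set.ncard_lt_ncard ⟨fun x hx => ⟨hx.1, hx.2.1,
                o.trans _ _ _ (hx.1.symm.trans t1) t2 hx.2.2 e5⟩, fun h => e6 ?_⟩
              have := h (a := τ b) ⟨t1.trans t2,
                o.trans _ _ _ t1 t2 (fixa_mono ho hm e1 e3 e4) e5, o.refl _⟩
              exact τ.injective (fixa_anti ho e5 this.2.2)
            exact ih a e (by omega)
      intro a b hn
      by_cases h : (Λ.st hτ).r a b
      · exact h1 a b h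
      · obtain ⟨j, hj⟩ := not_forall.1 h
        have e1 : τ⁻¹ ^ (orderOf τ - 1) = τ := by
          rw [inv_pow, inv_eq_iff_mul_eq_one, ← pow_succ, Nat.sub_add_cancel (orderOf_pos τ),
            pow_orderOf_eq_one]
        refine inner ((orderOf τ - 1) * j) a b hn ?_
        rwa [pow_mul, e1]
  exact key _ a b (Nat.lt_succ_self _)

theorem fixa_lev_one {Λ : C.Lv} {o : C.Rel} (hov : Λ.Ov o) {x : GL C.I S} (hx : x ∈ C.Pat o S) :
    Λ.lev x = 1 ↔ ∀ a b, Λ.r a b → x.val a b = (1 : Matrix C.I C.I S) a b := by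
  refine ⟨fun h a b hab => by rw [← Lv.lev_pos hov hx hab, h, Units.val_one],
    fun h => C.gl_ext fun a b => ?_⟩
  by_cases hab : Λ.r a b
  · rw [Lv.lev_pos hov hx hab, h a b hab, Units.val_one]
  · rw [Lv.lev_neg hov hx hab, Units.val_one,
      Matrix.one_apply_ne fun e : a = b => hab (e ▸ Λ.refl a)]

/-- FIXA.  Paper 2.1.  The map `Ψ u = Λ.lev (tw f τ u * m)` preserves the set of `u` with the first
three properties, and the entry `(a, b)` of `Ψ u` only depends on entries of `u` of smaller rank. -/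
theorem exists_fix (f : S →+* S) {τ : Equiv.Perm C.I} (hτ : C.IsAut τ) (Λ : C.Lv) {o : C.Rel}
    (ho : o = C.rB ∨ o = C.rBp) (hov : Λ.Ov o) (hm : Λ.Mono τ) {m : GL C.I S}
    (h1 : m ∈ C.Pat o S) (h2 : (Λ.st hτ).lev m = 1) :
    ∃! u, u ∈ Λ.Gp S ∧ u ∈ C.Pat o S ∧ (Λ.st hτ).lev u = 1 ∧ u = Λ.lev (C.tw f τ u * m) := by
  have hs := Lv.ov_st hτ ho hov hm
  obtain ⟨Ψ, hΨ⟩ : ∃ Ψ : GL C.I S → GL C.I S, ∀ u, Ψ u = Λ.lev (C.tw f τ u * m) :=
    ⟨_, fun _ => rfl⟩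
  obtain ⟨A, hA⟩ : ∃ A : GL C.I S → Prop,
      ∀ u, A u ↔ u ∈ Λ.Gp S ∧ u ∈ C.Pat o S ∧ (Λ.st hτ).lev u = 1 := ⟨_, fun _ => Iff.rfl⟩
  have htw : ∀ u, A u → C.tw f τ u ∈ C.Pat o S := fun u hu =>
    tw_pat f hτ (R := Λ.toRel.inf o) (fun a b hb h => fixa_mono ho hm hb h.1 h.2)
      (mem_inf.2 ⟨((hA u).1 hu).1, ((hA u).1 hu).2.1⟩)
  have hone : ∀ u, A u → ∀ a b, (Λ.st hτ).r a b → u.val a b = (1 : Matrix C.I C.I S) a b :=
    fun u hu => (fixa_lev_one hs ((hA u).1 hu).2.1).1 ((hA u).1 hu).2.2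
  have hp : ∀ u, A u → A (Ψ u) := fun u hu => by
    have h3 := mul_mem (htw u hu) h1
    have h4 : (Λ.st hτ).lev (C.tw f τ u) = 1 := (fixa_lev_one hs (htw u hu)).2 fun a b hab => by
      obtain ⟨a, rfl⟩ := τ.surjective a
      obtain ⟨b, rfl⟩ := τ.surjective b
      rw [tw_val, hone u hu a b ((Lv.st_apply hτ a b).1 hab)]
      by_cases e : a = b
      · rw [e, Matrix.one_apply_eq, Matrix.one_apply_eq, map_one]
      · rw [Matrix.one_apply_ne e, Matrix.one_apply_ne (τ.injective.ne e), map_zero]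
    have h5 := (fixa_lev_one hs h3).1 (by rw [Lv.lev_mul hs (htw u hu) h1, h4, h2, one_mul])
    rw [hA, hΨ]
    exact ⟨Lv.lev_mem hov h3, Lv.lev_pat hov h3 h3, (fixa_lev_one hs (Lv.lev_pat hov h3 h3)).2
      fun a b hab => by rw [Lv.lev_pos hov h3 (Lv.st_le hτ hab), h5 a b hab]⟩
  have hi : ∀ (k : ℕ) u, A u → A (Ψ^[k] u) := fun k u hu => Function.Iterate.rec A hu hp k
  have key := fixa_ind hτ ho hov hm
    (fun a b => ∀ᶠ k in Filter.atTop, ∀ u v, A u → A v → (Ψ^[k] u).val a b = (Ψ^[k] v).val a b)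
    (fun a b h => Filter.Eventually.of_forall fun k u v hu hv => by
      rw [Pat.zero ((hA _).1 (hi k u hu)).1 h, Pat.zero ((hA _).1 (hi k v hv)).1 h])
    (fun a b h => Filter.Eventually.of_forall fun k u v hu hv => by
      rw [hone _ (hi k u hu) a b h, hone _ (hi k v hv) a b h])
    (fun a b h => by
      have h3 : ∀ᶠ k in Filter.atTop, ∀ e, C.blk a = C.blk e → C.blk e = C.blk b → Λ.r a e →
          o.r a e → o.r (τ e) (τ b) → ∀ u v, A u → A v →
            (Ψ^[k] u).val a e = (Ψ^[k] v).val a e := by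
        refine Filter.eventually_all.2 fun e => ?_
        by_cases c : C.blk a = C.blk e ∧ C.blk e = C.blk b ∧ Λ.r a e ∧ o.r a e ∧ o.r (τ e) (τ b)
        · exact (h e c.1 c.2.1 c.2.2.1 c.2.2.2.1 c.2.2.2.2).mono fun k hk _ _ _ _ _ => hk
        · exact Filter.Eventually.of_forall fun k c1 c2 c3 c4 c5 => absurd ⟨c1, c2, c3, c4, c5⟩ c
      obtain ⟨n, hn⟩ := Filter.eventually_atTop.1 h3
      refine Filter.eventually_atTop.2 ⟨n + 1, fun k hk u v hu hv => ?_⟩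
      obtain ⟨k, rfl⟩ : ∃ j, k = j + 1 := ⟨k - 1, by omega⟩
      have hu' := hi k u hu
      have hv' := hi k v hv
      have u1 := mul_mem (htw _ hu') h1
      have v1 := mul_mem (htw _ hv') h1
      rw [Function.iterate_succ_apply', Function.iterate_succ_apply', hΨ, hΨ]
      by_cases c0 : Λ.r (τ a) (τ b)
      · rw [Lv.lev_pos hov u1 c0, Lv.lev_pos hov v1 c0, Units.val_mul, Units.val_mul,
          Matrix.mul_apply, Matrix.mul_apply]
        refine Finset.sum_congr rfl fun e _ => ?_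
        obtain ⟨e, rfl⟩ := τ.surjective e
        rw [tw_val, tw_val]
        have u2 := (hA _).1 hu'
        have v2 := (hA _).1 hv'
        by_cases c1 : C.blk a = C.blk e
        · by_cases c2 : C.blk e = C.blk b
          · by_cases c3 : Λ.r a e
            · by_cases c4 : o.r a e
              · by_cases c5 : o.r (τ e) (τ b)
                · rw [hn k (by omega) e c1 c2 c3 c4 c5 u v hu hv]
                · rw [Pat.zero h1 c5, mul_zero, mul_zero]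
              · rw [Pat.zero u2.2.1 c4, Pat.zero v2.2.1 c4]
            · rw [Pat.zero u2.1 c3, Pat.zero v2.1 c3]
          · rw [Pat.blk h1 fun c => c2 ((hτ.2 _ _).1 c), mul_zero, mul_zero]
        · rw [Pat.blk u2.1 c1, Pat.blk v2.1 c1]
      · rw [Lv.lev_neg hov u1 c0, Lv.lev_neg hov v1 c0])
  obtain ⟨n, hn⟩ := (Filter.eventually_all.2 fun a => Filter.eventually_all.2 fun b =>
    key a b).exists
  have hc : ∀ u v, A u → A v → Ψ^[n] u = Ψ^[n] v := fun u v hu hv =>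
    C.gl_ext fun a b => hn a b u v hu hv
  have a1 : A 1 := (hA 1).2 ⟨one_mem _, one_mem _, Lv.lev_one⟩
  have a2 := (hA _).1 (hi n 1 a1)
  refine ⟨Ψ^[n] 1, ⟨a2.1, a2.2.1, a2.2.2, ?_⟩, fun u hu => ?_⟩
  · rw [← hΨ, ← Function.iterate_succ_apply' Ψ, Function.iterate_succ_apply]
    exact hc _ _ a1 (hp 1 a1)
  · have e : Ψ u = u := by rw [hΨ, ← hu.2.2.2]
    rw [← hc u 1 ((hA u).2 ⟨hu.1, hu.2.1, hu.2.2.1⟩) a1, Function.iterate_fixed e]

variable (C) in
/-- the value of a cocharacter -/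
def coch (ξ : C.I → ℤ) (y : Sˣ) : GL C.I S := C.dgG fun a => y ^ ξ a

theorem coch_mem {ξ : C.I → ℤ} (h : ∀ a, ξ a.rev = - ξ a) (y : Sˣ) : C.coch ξ y ∈ C.T S :=
  dgG_mem _ 1 fun a => by rw [h, ← _root_.zpow_add, add_neg_cancel, _root_.zpow_zero]

theorem coch_mp (f : S →+* S') (ξ : C.I → ℤ) (y : Sˣ) :
    C.mp f (C.coch ξ y) = C.coch ξ (Units.map (f : S →* S') y) := by
  refine C.gl_ext fun a b => ?_
  rw [coch, coch, mp_val, dgG_val, dgG_val, diagonal_apply, diagonal_apply, ← map_zpow]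
  split_ifs
  · rfl
  · exact map_zero f

theorem chi_coch {ξ : C.I → ℤ} (h : ∀ a, ξ a.rev = - ξ a) (μ : C.I → ℤ) (y : Sˣ) :
    C.chi μ (C.coch ξ y) = (y ^ ∑ c, μ c * ξ c : Sˣ) := by
  rw [chi_units μ (T_le (coch_mem h y)) (fun a => y ^ ξ a) fun a => by
    rw [coch, dgG_val, diagonal_apply_eq]]
  congr 1
  have : ∀ s : Finset C.I, ∏ a ∈ s, (y ^ ξ a) ^ μ a = y ^ ∑ c ∈ s, μ c * ξ c := fun s => by
    induction s using Finset.induction_on with
    | empty => simp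
    | insert a s ha ih =>
      rw [Finset.prod_insert ha, Finset.sum_insert ha, ih, _root_.zpow_add, ← _root_.zpow_mul,
        mul_comm (ξ a)]
  exact this _

/-- FIXF.  Entries of conjugates by cocharacters. -/
theorem coch_conj (ξ : C.I → ℤ) (y : Sˣ) (x : GL C.I S) (a b : C.I) :
    ((C.coch ξ y)⁻¹ * x * C.coch ξ y).val a b = (y ^ (ξ b - ξ a) : Sˣ) * x.val a b := by
  change (diagonal (fun a => (((y ^ ξ a)⁻¹ : Sˣ) : S)) * x.val *
    diagonal fun a => ((y ^ ξ a : Sˣ) : S)) a b = _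
  rw [mul_diagonal, diagonal_mul, _root_.zpow_sub, Units.val_mul]
  ring

/-- FIXF. -/
theorem pm_coch (π : Equiv.Perm C.I) (ξ : C.I → ℤ) (y : Sˣ) :
    C.coch ξ y * C.pm S π = C.pm S π * C.coch (fun c => ξ (π c)) y := by
  refine C.gl_ext fun a b => ?_
  rw [Units.val_mul, Units.val_mul, coch, coch, dgG_val, dgG_val, diagonal_mul, mul_diagonal,
    pm_val]
  split_ifs with h
  · rw [h, mul_comm]
  · rw [mul_zero, zero_mul]

variable (C) in
/-- the open set `R_u(P) B⁺` -/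
def InN (n : GL C.I S) : Prop :=
  n ∈ C.G S ∧ (∀ a b, C.lo a → C.lo b → b < a → n.val a b = 0) ∧ ∀ a, C.lo a → IsUnit (n.val a a)

theorem fixb_loM_one {x : GL C.I S} (hx : x ∈ C.P S ∨ x ∈ C.Pp S) (h : C.lev x = 1) :
    C.loM x.val = 1 := by
  rw [← loM_lev hx, h, Units.val_one, loM_one]

theorem fixb_diag_unit {x : GL C.I S} (hx : x ∈ C.Bp S) (a : C.I) : IsUnit (x.val a a) := by
  refine IsUnit.of_mul_eq_one (x⁻¹.val a a) ?_
  rw [← Pat.mul_diag hx (inv_mem hx) fun _ _ h h' => le_antisymm h h', mul_inv_cancel,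
    Units.val_one, Matrix.one_apply_eq]

theorem fixb_tri {x : Matrix C.I C.I S} (h : ∀ a b, C.lo a → C.lo b → b < a → x a b = 0) :
    (C.loM x).BlockTriangular id := by
  intro a b hab
  have hab' : b < a := hab
  by_cases h1 : C.lo a ∧ C.lo b
  · rw [lub_loM_lo _ h1.1 h1.2, h a b h1.1 h1.2 hab']
  · rw [lub_loM_hi _ h1, if_neg hab'.ne']

theorem fixb_mem_Bp {x : GL C.I S} (hx : x ∈ C.L S)
    (h : ∀ a b, C.lo a → C.lo b → b < a → x.val a b = 0) : x ∈ C.Bp S := by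
  have e : C.loM x⁻¹.val * C.loM x.val = 1 := by
    rw [← loM_mul_P (inv_mem (L_le_P hx)), Units.inv_mul, loM_one]
  have := invertibleOfLeftInverse _ _ e
  have ht := Matrix.blockTriangular_inv_of_blockTriangular (fixb_tri h)
  rw [Matrix.inv_eq_left_inv e] at ht
  refine mem_Pat_of_lo hx (fun a b ha hb hab => h a b ha hb (not_le.1 hab))
    fun a b ha hb hab => ?_
  rw [← lub_loM_lo x⁻¹.val ha hb]
  exact ht (not_le.1 hab)

theorem fixb_rad_Bp {x : GL C.I S} (hx : x ∈ C.Pp S) (h : C.lev x = 1) : x ∈ C.Bp S := by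
  refine ⟨hx.1, fun a b hab => ?_⟩
  have hlt : b < a := not_le.1 hab
  by_cases h1 : C.lo a ↔ C.lo b
  · rw [← lev_pos (Or.inr hx) h1, h, Units.val_one, Matrix.one_apply_ne hlt.ne']
  · exact hx.2 a b fun h2 => h1 ⟨fun ha => C.lo_of_le hlt.le ha, h2⟩

/-- FIXB.  Paper 2.5, `exists_LDU`; the lower right block is obtained by duality (`adj`). -/
theorem inN_iff {n : GL C.I S} :
    C.InN n ↔ ∃ r b, r ∈ C.P S ∧ C.lev r = 1 ∧ b ∈ C.Bp S ∧ n = r * b := by
  constructor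
  · rintro ⟨hn, h1, h2⟩
    have hd : IsUnit (C.loM n.val).det := by
      rw [Matrix.det_of_isUpperTriangular (fixb_tri h1)]
      refine IsUnit.prod_iff.2 fun a _ => ?_
      by_cases ha : C.lo a
      · rw [lub_loM_lo _ ha ha]; exact h2 a ha
      · rw [lub_loM_hi _ fun e => ha e.1, if_pos rfl]; exact isUnit_one
    obtain ⟨u, l, v, hu, hu1, hl, hv, hv1, e⟩ := exists_LDU hn hd
    have e1 : C.loM n.val = C.loM l.val := by
      rw [e, Units.val_mul, Units.val_mul, loM_mul3 hu hv, fixb_loM_one (Or.inl hu) hu1,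
        fixb_loM_one (Or.inr hv) hv1, Matrix.one_mul, Matrix.mul_one]
    refine ⟨u, l * v, hu, hu1, mul_mem (fixb_mem_Bp hl fun a b ha hb hab => ?_)
      (fixb_rad_Bp hv hv1), by rw [e, mul_assoc]⟩
    rw [← lub_loM_lo l.val ha hb, ← e1, lub_loM_lo _ ha hb, h1 a b ha hb hab]
  · rintro ⟨r, b, hr, hr1, hb, rfl⟩
    have e : ∀ a c, C.lo a → C.lo c → (r * b).val a c = b.val a c := fun a c ha hc => by
      rw [← lub_loM_lo (r * b).val ha hc, Units.val_mul, loM_mul_P hr, fixb_loM_one (Or.inl hr) hr1,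
        Matrix.one_mul, lub_loM_lo _ ha hc]
    refine ⟨mul_mem (Pat.le_G hr) (Pat.le_G hb), fun a c ha hc hac => ?_, fun a ha => ?_⟩
    · rw [e a c ha hc]; exact Pat.zero hb (not_le.2 hac)
    · rw [e a a ha ha]; exact fixb_diag_unit hb a

/-- FIXB.  `wI (B w B) w0⁻¹ = R_u(P) B⁺` (`Mon.conj_pat`, `wI_mul_wf`). -/
theorem cell_iff_inN {h : GL C.I S} :
    C.Cell C.wf h ↔ C.InN (C.pm S C.wI * h * (C.pm S C.w0)⁻¹) := by
  have hs : C.pm S C.wI ∈ C.L S := pm_mem wI_isWL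
  have ms : C.Mon C.wI (C.pm S C.wI) := pm_mon wI_isWL.1
  have mt : C.Mon C.w0 (C.pm S C.w0) := pm_mon w0_isW
  generalize C.pm S C.wI = s at hs ms
  generalize C.pm S C.w0 = t at mt
  have hsP := L_le_P hs
  have ms' := ms.inv
  have mt' := mt.inv
  rw [wI_inv] at ms'
  rw [w0_inv] at mt'
  rw [inN_iff]
  constructor
  · rintro ⟨b, n, b', hb, hn, hb', rfl⟩
    have hbP := B_le_P hb
    have hl := lev_mem (Or.inl hbP)
    have hlP := L_le_P hl
    have h1 : s⁻¹⁻¹ * C.lev b * s⁻¹ ∈ C.Bp S :=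
      ms'.conj_pat wI_isWL.1 (R := C.rB.inf C.rL) (fun a c hac h => not_lt.1 fun hlt =>
        absurd ((wI_lt hac.symm ((wI_isWL.2 c).symm.trans (h.2.symm.trans (wI_isWL.2 a)))).2 hlt)
          (not_lt.2 h.1)) (mem_inf.2 ⟨lev_pat (Or.inl hbP) hb, hl⟩)
    have h2 : t⁻¹⁻¹ * b' * t⁻¹ ∈ C.Bp S :=
      mt'.conj_pat w0_isW (R := C.rB) (fun a c hac h => not_lt.1 fun hlt =>
        absurd ((w0_lt hac.symm).2 hlt) (not_lt.2 h)) hb'
    have h3 : C.Mon 1 (s * n * t⁻¹) := by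
      have := (ms.mul hn).mul mt'
      rwa [wI_mul_wf, w0_mul_self] at this
    refine ⟨s * (b * (C.lev b)⁻¹) * s⁻¹, _,
      mul_mem (mul_mem hsP (mul_mem hbP (inv_mem hlP))) (inv_mem hsP), ?_,
      mul_mem (mul_mem h1 (T_le h3.mem_T)) h2, by group⟩
    rw [lev_mul_P (mul_mem hsP (mul_mem hbP (inv_mem hlP))) (inv_mem hsP),
      lev_mul_P hsP (mul_mem hbP (inv_mem hlP)), lev_mul_P hbP (inv_mem hlP),
      lev_of_L (inv_mem hl), lev_of_L hs, lev_of_L (inv_mem hs), mul_inv_cancel, mul_one,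
      mul_inv_cancel]
  · rintro ⟨r, b, hr, hr1, hb, e⟩
    have h1 : s⁻¹ * r * s ∈ C.B S := by
      refine mem_B_of_lev (mul_mem (mul_mem (inv_mem hsP) hr) hsP) ?_
      rw [lev_mul_P (mul_mem (inv_mem hsP) hr) hsP, lev_mul_P (inv_mem hsP) hr, hr1,
        lev_of_L (inv_mem hs), lev_of_L hs, mul_one, inv_mul_cancel]
      exact one_mem _
    have h2 : t⁻¹ * b * t ∈ C.B S :=
      mt.conj_pat w0_isW (R := C.rBp) (fun a c hac h => not_lt.1 fun hlt =>
        absurd ((w0_lt hac).2 hlt) (not_lt.2 h)) hb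
    refine ⟨_, _, _, h1, ms'.mul mt, h2, ?_⟩
    calc h = s⁻¹ * (s * h * t⁻¹) * t := by group
      _ = _ := by rw [e]; group

/-- FIXB.  Compare the upper left blocks of `x⁻¹ h w⁻¹`; `w B w⁻¹ ⊆ Pp`. -/
theorem frame_uniq {x x' h : GL C.I S} (hx : x ∈ C.P S) (hx' : x' ∈ C.P S)
    (h1 : C.Cell C.wf (x⁻¹ * h)) (h2 : C.Cell C.wf (x'⁻¹ * h)) : x⁻¹ * x' ∈ C.B S := by
  obtain ⟨b, n, b', hb, hn, hb', e⟩ := h1
  obtain ⟨c, m, c', hc, hm, hc', e'⟩ := h2
  have hβ : b' * c'⁻¹ ∈ C.B S := mul_mem hb' (inv_mem hc')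
  have ht : n * m⁻¹ ∈ C.B S := by
    have := hn.mul hm.inv
    rw [mul_inv_cancel] at this
    exact T_le this.mem_T
  have e1 : x⁻¹ * x' = b * (n⁻¹⁻¹ * (b' * c'⁻¹) * n⁻¹) * (n * m⁻¹) * c⁻¹ := by
    calc x⁻¹ * x' = (x⁻¹ * h) * (x'⁻¹ * h)⁻¹ := by group
      _ = _ := by rw [e, e']; group
  have hz : n⁻¹⁻¹ * (b' * c'⁻¹) * n⁻¹ ∈ C.P S := by
    have e2 : n⁻¹⁻¹ * (b' * c'⁻¹) * n⁻¹ = b⁻¹ * (x⁻¹ * x') * c * (n * m⁻¹)⁻¹ := by
      rw [e1]; group
    rw [e2]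
    exact mul_mem (mul_mem (mul_mem (inv_mem (B_le_P hb)) (mul_mem (inv_mem hx) hx'))
      (B_le_P hc)) (inv_mem (B_le_P ht))
  rw [e1]
  refine mul_mem (mul_mem (mul_mem hb (mem_B_of_lo hz fun a d ha hd had => ?_)) ht) (inv_mem hc)
  by_cases hbl : C.blk a = C.blk d
  · rw [hn.inv.conj_ent, Pat.zero hβ (a := C.wf⁻¹ a) (b := C.wf⁻¹ d) (not_le.2
      ((wf_symm_lt hbl).2 (Or.inr ⟨iff_of_true ha hd, had⟩))), mul_zero, zero_mul]
  · exact Pat.blk hz hbl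

/-- FIXB. -/
theorem InN.lev_eq_one {n : GL C.I S} (h : C.InN n) (hb : n ∈ C.B S) (h1 : ∀ a, n.val a a = 1) :
    C.lev n = 1 := by
  refine lub_lev_eq_one (Or.inl (B_le_P hb)) ?_
    (by rw [← B.diag_rev hb C.a0, h1, h1, one_mul])
  ext a b
  by_cases hab : C.lo a ∧ C.lo b
  · rw [lub_loM_lo _ hab.1 hab.2]
    rcases lt_trichotomy a b with e | e | e
    · rw [Pat.zero hb (not_le.2 e), Matrix.one_apply_ne e.ne]
    · rw [e, h1, Matrix.one_apply_eq]
    · rw [h.2.1 a b hab.1 hab.2 e, Matrix.one_apply_ne e.ne']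
  · rw [lub_loM_hi _ hab, Matrix.one_apply]

/-- FIXB.  `P w B` is open: block `LDU` decomposition of `h w⁻¹`. -/
theorem exists_frame_iff {h : GL C.I S} (hh : h ∈ C.G S) :
    (∃ x ∈ C.P S, C.Cell C.wf (x⁻¹ * h)) ↔ IsUnit (C.loM (h * (C.pm S C.wf)⁻¹).val).det := by
  have mw : C.Mon C.wf (C.pm S C.wf) := pm_mon wf_isW
  generalize C.pm S C.wf = w at mw
  constructor
  · rintro ⟨x, hx, b, n, b', hb, hn, hb', e⟩
    have h1 : n⁻¹⁻¹ * b' * n⁻¹ ∈ C.Pp S :=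
      hn.inv.conj_pat wf_isW.inv (R := C.rB) (fun a c hac h hc => by
        by_contra ha
        exact absurd ((wf_symm_lt hac).2 (Or.inl ⟨ha, hc⟩)) (not_lt.2 h)) hb'
    have h2 : n * w⁻¹ ∈ C.Pp S := by
      have := hn.mul mw.inv
      rw [mul_inv_cancel] at this
      exact T_le this.mem_T
    have e1 : h * w⁻¹ = x * b * (n⁻¹⁻¹ * b' * n⁻¹ * (n * w⁻¹)) := by
      calc h * w⁻¹ = x * (x⁻¹ * h) * w⁻¹ := by group
        _ = _ := by rw [e]; group
    rw [e1]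
    exact loM_det_unit_of_PQ (mul_mem hx (B_le_P hb)) (mul_mem h1 h2)
  · intro hd
    obtain ⟨u, l, v, hu, -, hl, hv, hv1, e⟩ := exists_LDU (mul_mem hh (inv_mem mw.1)) hd
    have hG : w⁻¹ * v * w ∈ C.G S := mul_mem (mul_mem (inv_mem mw.1) (Pat.le_G hv)) mw.1
    refine ⟨u * l, mul_mem hu (L_le_P hl), 1, w, w⁻¹ * v * w, one_mem _, mw,
      ⟨hG.1, fun a b hab => ?_⟩, ?_⟩
    · by_cases hbl : C.blk a = C.blk b
      · have hlt : C.wf.symm (C.wf a) < C.wf.symm (C.wf b) := by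
          rw [Equiv.symm_apply_apply, Equiv.symm_apply_apply]; exact not_le.1 hab
        have h0 : v.val (C.wf a) (C.wf b) = 0 := by
          rcases (wf_symm_lt (by rw [wf_isW.1, wf_isW.1, hbl])).1 hlt with h1 | h1
          · exact Pat.zero hv fun h2 => h1.1 (h2 h1.2)
          · rw [← lev_pos (Or.inr hv) h1.1, hv1, Units.val_one, Matrix.one_apply_ne h1.2.ne]
        rw [mw.conj_ent, h0, mul_zero, zero_mul]
      · exact Pat.blk hG hbl
    · calc (u * l)⁻¹ * h = (u * l)⁻¹ * (h * w⁻¹) * w := by group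
        _ = _ := by rw [e]; group

variable (C) in
/-- the matrix with entries `x a b * X ^ |a - b|` -/
def fixg_pm (x : Matrix C.I C.I S) : Matrix C.I C.I (Polynomial S) :=
  Matrix.of fun a b => Polynomial.C (x a b) * Polynomial.X ^ Nat.dist a.val b.val

theorem fixg_pm_mul (R : C.I → C.I → Prop)
    (hR : ∀ a c b, R a c → R c b → Nat.dist a.val b.val = Nat.dist a.val c.val + Nat.dist c.val b.val)
    {x y : Matrix C.I C.I S} (hx : ∀ a b, ¬ R a b → x a b = 0) (hy : ∀ a b, ¬ R a b → y a b = 0) :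
    C.fixg_pm x * C.fixg_pm y = C.fixg_pm (x * y) := by
  refine Matrix.ext fun a b => ?_
  simp only [fixg_pm, Matrix.mul_apply, Matrix.of_apply, map_sum, Finset.sum_mul]
  refine Finset.sum_congr rfl fun c _ => ?_
  by_cases h1 : R a c
  · by_cases h2 : R c b
    · rw [hR a c b h1 h2, pow_add, map_mul]
      ring
    · rw [hy c b h2, mul_zero, map_zero, zero_mul, zero_mul, mul_zero]
  · rw [hx a c h1, zero_mul, map_zero, zero_mul, zero_mul, zero_mul]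

theorem fixg_pm_smul (c : S) :
    C.fixg_pm (c • (1 : Matrix C.I C.I S)) = Polynomial.C c • (1 : Matrix C.I C.I (Polynomial S)) := by
  refine Matrix.ext fun a b => ?_
  rw [fixg_pm, Matrix.of_apply, Matrix.smul_apply, Matrix.smul_apply, smul_eq_mul, smul_eq_mul]
  by_cases h : a = b
  · rw [h, Matrix.one_apply_eq, Matrix.one_apply_eq, Nat.dist_self, pow_zero, mul_one, map_mul,
      map_one]
  · rw [Matrix.one_apply_ne h, Matrix.one_apply_ne h, mul_zero, map_zero, zero_mul, mul_zero]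

theorem fixg_pm_one : C.fixg_pm (1 : Matrix C.I C.I S) = 1 := by
  have := fixg_pm_smul (C := C) (1 : S)
  rwa [one_smul, map_one, one_smul] at this

theorem fixg_pm_adj (x : Matrix C.I C.I S) : C.adj (C.fixg_pm x) = C.fixg_pm (C.adj x) := by
  refine Matrix.ext fun a b => ?_
  have ha := a.isLt
  have hb := b.isLt
  have e : Nat.dist b.rev.val a.rev.val = Nat.dist a.val b.val := by
    simp only [Nat.dist, Fin.val_rev]
    omega
  rw [adj_ent, fixg_pm, fixg_pm, Matrix.of_apply, Matrix.of_apply, adj_ent, e]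

theorem fixg_path (R : C.Rel)
    (hR : ∀ a c b, R.r a c → R.r c b →
      Nat.dist a.val b.val = Nat.dist a.val c.val + Nat.dist c.val b.val)
    {x : GL C.I S} (hx : x ∈ C.Pat R S) :
    ∃ y ∈ C.G (Polynomial S), ∀ a b,
      y.val a b = Polynomial.C (x.val a b) * Polynomial.X ^ Nat.dist a.val b.val := by
  have hi := inv_mem hx
  refine ⟨⟨C.fixg_pm x.val, C.fixg_pm x⁻¹.val, ?_, ?_⟩, mem_G.2 ((C.inG_iff _).2
    ⟨fun a b hab => ?_, Polynomial.C (C.sim x), hx.1.sim_unit.map _, ?_⟩), fun _ _ => rfl⟩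
  · rw [fixg_pm_mul R.r hR hx.2 hi.2, x.mul_inv, fixg_pm_one]
  · rw [fixg_pm_mul R.r hR hi.2 hx.2, x.inv_mul, fixg_pm_one]
  · change Polynomial.C (x.val a b) * _ = 0
    rw [Pat.blk hx hab, map_zero, zero_mul]
  · change C.adj (C.fixg_pm x.val) * C.fixg_pm x.val = _
    rw [fixg_pm_adj, fixg_pm_mul R.r hR (fun a b h => ?_) hx.2, hx.1.adj_mul, fixg_pm_smul]
    rw [adj_ent]
    exact hx.2 _ _ fun h1 => h (by simpa using R.mir _ _ h1)

/-- FIXG.  Contraction of triangular elements: formally `ρ x ρ⁻¹` with `ρ a = X ^ a` (or `X ^ (-a)`);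
the inverse is the same matrix for `x⁻¹`. -/
theorem exists_path {x : GL C.I S} (hx : x ∈ C.B S ∨ x ∈ C.Bp S) :
    ∃ y ∈ C.G (Polynomial S), ∀ a b,
      y.val a b = Polynomial.C (x.val a b) * Polynomial.X ^ Nat.dist a.val b.val := by
  rcases hx with hx | hx
  · refine fixg_path C.rB (fun a c b h1 h2 => ?_) hx
    have h1' : c.val ≤ a.val := h1
    have h2' : b.val ≤ c.val := h2
    simp only [Nat.dist]
    omega
  · refine fixg_path C.rBp (fun a c b h1 h2 => ?_) hx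
    have h1' : a.val ≤ c.val := h1
    have h2' : c.val ≤ b.val := h2
    simp only [Nat.dist]
    omega

open Classical in
/-- a unit with given value -/
def fixg_u (x : S) : Sˣ := if h : IsUnit x then h.unit else 1

theorem fixg_u_val {x : S} (h : IsUnit x) : (fixg_u x : S) = x := by
  rw [fixg_u, dif_pos h, IsUnit.unit_spec]

theorem fixg_u_coe (x : Sˣ) : fixg_u (x : S) = x := Units.ext (fixg_u_val x.isUnit)

theorem fixg_u_mul {x y : S} (hx : IsUnit x) (hy : IsUnit y) :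
    fixg_u (x * y) = fixg_u x * fixg_u y :=
  Units.ext (by rw [Units.val_mul, fixg_u_val hx, fixg_u_val hy, fixg_u_val (hx.mul hy)])

theorem fixg_u_map (f : S →+* S') {x : S} (hx : IsUnit x) :
    fixg_u (f x) = Units.map (f : S →* S') (fixg_u x) :=
  Units.ext (by rw [fixg_u_val (hx.map f), Units.coe_map, fixg_u_val hx]; rfl)

variable (C) in
/-- the rows of block `n`, completed by the identity -/
def fixg_bm (n : ℕ) (x : Matrix C.I C.I S) : Matrix C.I C.I S :=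
  Matrix.of fun a b => if C.blk a = n then x a b else (1 : Matrix C.I C.I S) a b

theorem fixg_bm_mul (n : ℕ) {x : Matrix C.I C.I S} (y : Matrix C.I C.I S)
    (hx : ∀ a b, C.blk a ≠ C.blk b → x a b = 0) :
    C.fixg_bm n (x * y) = C.fixg_bm n x * C.fixg_bm n y := by
  refine Matrix.ext fun a b => ?_
  rw [Matrix.mul_apply]
  by_cases h : C.blk a = n
  · simp only [fixg_bm, Matrix.of_apply, if_pos h, Matrix.mul_apply]
    refine Finset.sum_congr rfl fun c _ => ?_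
    by_cases h1 : C.blk c = n
    · rw [if_pos h1]
    · rw [hx a c fun e => h1 (e ▸ h), zero_mul, zero_mul]
  · rw [Finset.sum_eq_single a]
    · simp only [fixg_bm, Matrix.of_apply, if_neg h, Matrix.one_apply_eq, one_mul]
    · intro c _ hc
      simp only [fixg_bm, Matrix.of_apply, if_neg h, Matrix.one_apply_ne hc.symm, zero_mul]
    · exact fun h1 => absurd (Finset.mem_univ _) h1

theorem fixg_bm_one (n : ℕ) : C.fixg_bm n (1 : Matrix C.I C.I S) = 1 :=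
  Matrix.ext fun a b => by rw [fixg_bm, Matrix.of_apply, ite_self]

theorem fixg_bm_map (f : S →+* S') (n : ℕ) (x : Matrix C.I C.I S) :
    (C.fixg_bm n (x.map f)).det = f (C.fixg_bm n x).det := by
  rw [RingHom.map_det, RingHom.mapMatrix_apply]
  refine congrArg _ (Matrix.ext fun a b => ?_)
  rw [Matrix.map_apply, fixg_bm, fixg_bm, Matrix.of_apply, Matrix.of_apply]
  split_ifs
  · rfl
  · rw [Matrix.one_apply, Matrix.one_apply]
    split_ifs
    · exact (map_one f).symm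
    · exact (map_zero f).symm

theorem fixg_bm_unit (n : ℕ) {g : GL C.I S} (hg : g ∈ C.G S) : IsUnit (C.fixg_bm n g.val).det := by
  refine IsUnit.of_mul_eq_one (C.fixg_bm n g⁻¹.val).det ?_
  rw [← Matrix.det_mul, ← fixg_bm_mul n _ hg.1.1, g.mul_inv, fixg_bm_one, Matrix.det_one]

theorem fixg_bm_det (n : ℕ) {b : GL C.I S} (hb : b ∈ C.B S ∨ b ∈ C.Bp S) :
    (C.fixg_bm n b.val).det = ∏ a, if C.blk a = n then b.val a a else 1 := by
  have e : ∀ a, C.fixg_bm n b.val a a = if C.blk a = n then b.val a a else 1 := fun a => by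
    rw [fixg_bm, Matrix.of_apply, Matrix.one_apply_eq]
  have z : ∀ a c, a ≠ c → b.val a c = 0 → C.fixg_bm n b.val a c = 0 := fun a c h1 h2 => by
    rw [fixg_bm, Matrix.of_apply, h2, Matrix.one_apply_ne h1, ite_self]
  rw [← Finset.prod_congr rfl fun a _ => e a]
  rcases hb with hb | hb
  · exact Matrix.det_of_isLowerTriangular _ fun a c (h : a < c) =>
      z a c h.ne (Pat.zero hb (not_le.2 h))
  · exact Matrix.det_of_isUpperTriangular fun a c (h : c < a) =>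
      z a c h.ne' (Pat.zero hb (not_le.2 h))

theorem fixg_sim {b : GL C.I S} (hb : b ∈ C.B S ∨ b ∈ C.Bp S) (a : C.I) :
    b.val a a * b.val a.rev a.rev = C.sim b := by
  rcases hb with hb | hb
  · exact B.diag_rev hb a
  · have h0 := Pat.mul_diag hb (inv_mem hb) (a := a) fun _ _ h h' => le_antisymm h h'
    rw [mul_inv_cancel, Units.val_one, Matrix.one_apply_eq] at h0
    have h1 : C.adj b.val a a = (C.sim b • b⁻¹.val) a a := by rw [hb.1.adj_eq]
    rw [adj_ent, Matrix.smul_apply, smul_eq_mul] at h1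
    rw [h1]
    linear_combination (-C.sim b) * h0

theorem fixg_prod (ψ : C.I → ℤ) (e : ℕ → ℤ)
    (he : ∀ a, e (C.blk a) = if C.hf a then ψ a - ψ a.rev else 0) (u : C.I → Sˣ) (c : Sˣ)
    (hc : ∀ a, u a * u a.rev = c) :
    (∏ n ∈ Finset.univ.image C.blk, (∏ a, if C.blk a = n then u a else 1) ^ e n) *
      c ^ (∑ a, if C.hf a then ψ a.rev else 0) = ∏ a, u a ^ ψ a := by
  have h1 : ∏ n ∈ Finset.univ.image C.blk, (∏ a, if C.blk a = n then u a else 1) ^ e n =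
      ∏ a, u a ^ e (C.blk a) := by
    simp only [← Finset.prod_zpow]
    rw [Finset.prod_comm]
    refine Finset.prod_congr rfl fun a _ => ?_
    rw [Finset.prod_eq_single (C.blk a), if_pos rfl]
    · intro n _ hn
      rw [if_neg hn.symm, _root_.one_zpow]
    · exact fun h => absurd (Finset.mem_image_of_mem _ (Finset.mem_univ a)) h
  have h2 : ∀ (s : Finset C.I) (m : C.I → ℤ), c ^ (∑ a ∈ s, m a) = ∏ a ∈ s, c ^ m a := fun s m => by
    induction s using Finset.induction_on with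
    | empty => rw [Finset.sum_empty, Finset.prod_empty, _root_.zpow_zero]
    | insert a s ha ih => rw [Finset.prod_insert ha, Finset.sum_insert ha, _root_.zpow_add, ih]
  have h3 : ∏ a, (if C.hf a then u a.rev ^ ψ a.rev else 1) =
      ∏ a, if C.hf a then 1 else u a ^ ψ a := by
    rw [← Equiv.prod_comp Fin.revPerm]
    refine Finset.prod_congr rfl fun a _ => ?_
    rw [Fin.revPerm_apply]
    by_cases h : C.hf a
    · rw [if_pos h, if_neg fun h' => (C.hf_rev a).1 h' h]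
    · rw [if_neg h, if_pos ((C.hf_rev a).2 h), Fin.rev_rev]
  have h4 : ∏ a, u a ^ ψ a = (∏ a, if C.hf a then u a ^ ψ a else 1) *
      ∏ a, if C.hf a then 1 else u a ^ ψ a := by
    rw [← Finset.prod_mul_distrib]
    refine Finset.prod_congr rfl fun a _ => ?_
    split_ifs
    · rw [mul_one]
    · rw [one_mul]
  rw [h1, h2, h4, ← h3, ← Finset.prod_mul_distrib, ← Finset.prod_mul_distrib]
  refine Finset.prod_congr rfl fun a _ => ?_
  rw [he]
  by_cases h : C.hf a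
  · simp only [if_pos h]
    rw [← hc a, mul_zpow, ← mul_assoc, ← _root_.zpow_add, sub_add_cancel]
  · simp only [if_neg h, _root_.zpow_zero]

/-- FIXG.  Characters of `G`: `∏ det (g_block) ^ n_block * sim g ^ e` over the blocks in `hf`, with
`n = ψ a - ψ a.rev` and `e = ∑ ψ a.rev` over `a` in `hf`. -/
theorem exists_char (ψ : C.I → ℤ)
    (h : ∀ a b, C.blk a = C.blk b → ψ a - ψ a.rev = ψ b - ψ b.rev) :
    ∃ Ψ : ∀ (S : Type) [CommRing S], GL C.I S → Sˣ,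
      (∀ (S S' : Type) [CommRing S] [CommRing S'] (f : S →+* S') (g : GL C.I S), g ∈ C.G S →
        (Ψ S' (C.mp f g) : S') = f (Ψ S g)) ∧
      (∀ (S : Type) [CommRing S] (g g' : GL C.I S), g ∈ C.G S → g' ∈ C.G S →
        Ψ S (g * g') = Ψ S g * Ψ S g') ∧
      ∀ (S : Type) [CommRing S] (b t : GL C.I S), b ∈ C.B S ∨ b ∈ C.Bp S → t ∈ C.T S →
        (∀ a, b.val a a = t.val a a) → (Ψ S b : S) = C.chi ψ t := by
  classical
  obtain ⟨e, he⟩ : ∃ e : ℕ → ℤ, ∀ a, e (C.blk a) = if C.hf a then ψ a - ψ a.rev else 0 := by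
    refine ⟨fun n => if h : ∃ a, C.blk a = n ∧ C.hf a then ψ h.choose - ψ h.choose.rev else 0,
      fun a => ?_⟩
    beta_reduce
    by_cases h1 : C.hf a
    · have h2 : ∃ a', C.blk a' = C.blk a ∧ C.hf a' := ⟨a, rfl, h1⟩
      rw [if_pos h1, dif_pos h2]
      exact h _ _ h2.choose_spec.1
    · rw [if_neg h1, dif_neg]
      rintro ⟨a', h2, h3⟩
      exact h1 ((C.hf_blk h2).1 h3)
  refine ⟨fun S _ g => (∏ n ∈ Finset.univ.image C.blk, fixg_u (C.fixg_bm n g.val).det ^ e n) *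
    fixg_u (C.sim g) ^ (∑ a, if C.hf a then ψ a.rev else 0), ?_, ?_, ?_⟩
  · intro S S' _ _ f g hg
    change _ = ((Units.map (f : S →* S') _ : S'ˣ) : S')
    refine congrArg _ ?_
    beta_reduce
    rw [map_mul, map_prod, map_zpow, sim_mp, fixg_u_map f hg.1.sim_unit]
    refine congrArg (· * _) (Finset.prod_congr rfl fun n _ => ?_)
    rw [map_zpow, mp_mat, fixg_bm_map, fixg_u_map f (fixg_bm_unit n hg)]
  · intro S _ g g' hg hg'
    beta_reduce
    rw [hg.1.sim_mul hg'.1, fixg_u_mul hg.1.sim_unit hg'.1.sim_unit, mul_zpow, mul_mul_mul_comm,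
      ← Finset.prod_mul_distrib]
    refine congrArg (· * _) (Finset.prod_congr rfl fun n _ => ?_)
    rw [Units.val_mul, fixg_bm_mul n _ hg.1.1, Matrix.det_mul,
      fixg_u_mul (fixg_bm_unit n hg) (fixg_bm_unit n hg'), mul_zpow]
  · intro S _ b t hb ht hd
    obtain ⟨u, c, hc, rfl⟩ := T.eq_dgG ht
    have hu : ∀ a, b.val a a = u a := fun a => by rw [hd, dgG_val, diagonal_apply_eq]
    rw [chi_units ψ (T_le ht) u fun a => by rw [dgG_val, diagonal_apply_eq],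
      ← fixg_prod ψ e he u c hc]
    refine congrArg _ ?_
    have e1 : C.sim b = c := by rw [← fixg_sim hb C.a0, hu, hu, ← Units.val_mul, hc]
    beta_reduce
    rw [e1, fixg_u_coe]
    refine congrArg (· * _) (Finset.prod_congr rfl fun n _ => ?_)
    refine congrArg (· ^ _) ?_
    rw [fixg_bm_det n hb, ← fixg_u_coe (∏ a, if C.blk a = n then u a else 1), Units.coe_prod]
    refine congrArg _ (Finset.prod_congr rfl fun a _ => ?_)
    split_ifs
    · exact hu a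
    · rfl

end Ring

section Alg

variable {S S' : Type} [CommRing S] [CommRing S'] [Algebra C.k S] [Algebra C.k S']

variable (C) in
/-- constants -/
abbrev ct (S : Type) [CommRing S] [Algebra C.k S] : GL C.I C.k →* GL C.I S :=
  C.mp (algebraMap C.k S)

theorem ma_ct (f : S →ₐ[C.k] S') (γ : GL C.I C.k) : C.ma f (C.ct S γ) = C.ct S' γ :=
  C.gl_ext fun a b => f.commutes _

theorem fr_ct {γ : GL C.I C.k} (h : γ ∈ C.Gam) : C.fr (C.ct S γ) = C.ct S γ := by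
  rw [fr_mp, h.2]

theorem E_ct {γ : GL C.I C.k} (h : γ ∈ C.Gam) : C.E (C.ct S γ) (C.ct S γ) := by
  have := E.of_L (Pat.map (algebraMap C.k S) h.1)
  rwa [fr_ct h] at this

variable (C) in
/-- the equation of `u(y)` -/
def IsFix (β : C.Sp) (y : S) (u : GL C.I S) : Prop :=
  u ∈ C.L S ∧ u ∈ C.B S ∧ C.L0.lev u = 1 ∧ u = C.lev (C.fr u * C.xm β y)

theorem fixa_xm {β : C.Sp} (hβ : C.TopQ β) (y : S) : C.L0.lev (C.xm β y) = 1 := by
  have h0 : ¬ C.L0.r β.j β.i := fun h => by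
    have h1 : C.L0.r (C.σ (C.σ.symm β.j)) (C.σ (C.σ.symm β.i)) := by
      rwa [Equiv.apply_symm_apply, Equiv.apply_symm_apply]
    exact hβ.2 ((Lv.st_le isAut_σ ((Lv.st_apply isAut_σ _ _).1 h1)).2 hβ.1)
  refine (fixa_lev_one ov0B (xm_mem β y)).2 fun a b hab => ?_
  have h1 : (a, b) ≠ (β.j, β.i) := fun e => h0 (by
    obtain ⟨rfl, rfl⟩ := Prod.mk.inj e; exact hab)
  have h2 : (a, b) ≠ (β.i.rev, β.j.rev) := fun e => h0 (by
    obtain ⟨rfl, rfl⟩ := Prod.mk.inj e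
    simpa only [Fin.rev_rev] using C.L0.mir _ _ hab)
  rw [← embM_one β, xm, emb_val]
  simp only [embM, Matrix.of_apply, if_neg h1, if_neg h2]

/-- FIXA.  `exists_fix` for `frob`, `σ`, `lvL`, `rB` (`fr_eq_tw`, `lvL_lev`). -/
theorem exists_isFix {β : C.Sp} (hβ : C.TopQ β) (y : S) : ∃! u, C.IsFix β y u := by
  have e : ∀ u ∈ C.B S, C.lvL.lev (C.tw (C.frob S) C.σ u * C.xm β y) =
      C.lev (C.fr u * C.xm β y) := fun u hu =>
    lvL_lev (Or.inl (B_le_P (mul_mem (fr_B hu) (xm_mem β y))))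
  obtain ⟨u, hu, h⟩ := exists_fix (C.frob S) isAut_σ C.lvL (Or.inl rfl) ovB (mono_σ _)
    (xm_mem β y) (fixa_xm hβ y)
  exact ⟨u, ⟨hu.1, hu.2.1, hu.2.2.1, hu.2.2.2.trans (e u hu.2.1)⟩, fun v hv =>
    h v ⟨hv.1, hv.2.1, hv.2.2.1, hv.2.2.2.trans (e v hv.2.1).symm⟩⟩

open Classical in
variable (C) in
/-- the element `u(y)` -/
def uf (β : C.Sp) (y : S) : GL C.I S := if h : ∃ u, C.IsFix β y u then h.choose else 1

theorem uf_spec {β : C.Sp} (hβ : C.TopQ β) (y : S) : C.IsFix β y (C.uf β y) := by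
  have h := (exists_isFix hβ y).exists
  rw [uf, dif_pos h]
  exact h.choose_spec

theorem IsFix.eq {β : C.Sp} (hβ : C.TopQ β) {y : S} {u : GL C.I S} (h : C.IsFix β y u) :
    u = C.uf β y := (exists_isFix hβ y).unique h (uf_spec hβ y)

theorem IsFix.diag {β : C.Sp} {y : S} {u : GL C.I S} (h : C.IsFix β y u) (a : C.I) :
    u.val a a = 1 := by
  rw [← Lv.lev_diag ov0B h.2.1, h.2.2.1, Units.val_one, Matrix.one_apply_eq]

/-- FIXA. -/
theorem uf_map {β : C.Sp} (hβ : C.TopQ β) (f : S →ₐ[C.k] S') (y : S) :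
    C.ma f (C.uf β y) = C.uf β (f y) := by
  have h := uf_spec hβ y
  refine IsFix.eq hβ ⟨Pat.map _ h.1, Pat.map _ h.2.1, ?_, ?_⟩
  · rw [Lv.lev_mp ov0B _ h.2.1, h.2.2.1, map_one]
  · have e : C.xm β (f y) = C.ma f (C.xm β y) := (xm_mp (f : S →+* S') β y).symm
    rw [e, fr_mp, ← map_mul, lev_mp _ (Or.inl (B_le_P (mul_mem (fr_B h.2.1) (xm_mem β y)))),
      ← h.2.2.2]

/-- FIXA. -/
theorem uf_zero {β : C.Sp} (hβ : C.TopQ β) : C.uf β (0 : S) = 1 := by
  refine (IsFix.eq hβ ⟨one_mem _, one_mem _, Lv.lev_one, ?_⟩).symm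
  rw [map_one, xm_zero, one_mul, lev_of_L (one_mem _)]

theorem fixf_xm_conj (β : C.Sp) {ξ : C.I → ℤ} (h : ∀ a, ξ a.rev = - ξ a) (y : Sˣ) (t : S) :
    (C.coch ξ y)⁻¹ * C.xm β t * C.coch ξ y = C.xm β ((y ^ (ξ β.i - ξ β.j) : Sˣ) * t) := by
  refine C.gl_ext fun m n => ?_
  have hr : β.i.rev ≠ β.j.rev := fun e => β.ne (Fin.rev_injective e)
  rw [coch_conj, xm, xm, emb_val, emb_val]
  rcases reflb_cases β m with rfl | rfl | ⟨h0, rfl⟩ | ⟨h0, rfl⟩ | ⟨h1, h2, h3, h4⟩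
  · rw [reflb_row_i, reflb_row_i, ite_self]
    split_ifs with e
    · rw [e, sub_self, _root_.zpow_zero, Units.val_one, one_mul]
    · exact mul_zero _
  · rw [reflb_row_j, reflb_row_j]
    split_ifs with e e'
    · rw [e]
    · rw [e', sub_self, _root_.zpow_zero, Units.val_one, one_mul]
    · exact mul_zero _
  · rw [reflb_row_jr β h0, reflb_row_jr β h0, mul_zero, ite_self]
    split_ifs with e
    · rw [e, sub_self, _root_.zpow_zero, Units.val_one, one_mul]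
    · exact mul_zero _
  · rw [reflb_row_ir β h0, reflb_row_ir β h0]
    split_ifs with e e'
    · rw [e, h, h, neg_sub_neg, mul_left_comm]
    · rw [e', sub_self, _root_.zpow_zero, Units.val_one, one_mul]
    · exact mul_zero _
  · rw [reflb_row_o _ _ _ _ _ h1 h2 h3 h4, reflb_row_o _ _ _ _ _ h1 h2 h3 h4]
    split_ifs with e
    · rw [e, sub_self, _root_.zpow_zero, Units.val_one, one_mul]
    · exact mul_zero _

theorem fixf_fr_conj {ξ : C.I → ℤ} (hξ : C.IsXi ξ) (y : Sˣ) {w : GL C.I S} (hw : w ∈ C.L S) :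
    C.fr ((C.coch ξ y)⁻¹ * w * C.coch ξ y) = (C.coch ξ y)⁻¹ * C.fr w * C.coch ξ y := by
  refine Units.ext (basicd_ext fun a b => ?_)
  rw [fr_val, coch_conj, coch_conj, fr_val, mul_pow]
  by_cases h1 : C.blk b = C.blk a
  · by_cases h2 : C.lo b ↔ C.lo a
    · rw [hξ.2.2 b a h1 h2, mul_comm (C.p : ℤ), _root_.zpow_mul, zpow_natCast,
        Units.val_pow_eq_pow_val]
    · rw [Pat.zero hw (a := a) (b := b) fun h => h2 (Iff.symm h), zero_pow C.hp.ne_zero, mul_zero,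
        mul_zero]
  · rw [Pat.blk hw (Ne.symm h1), zero_pow C.hp.ne_zero, mul_zero, mul_zero]

/-- FIXF.  Homogeneity: the right hand side solves the equation (`coch_conj`). -/
theorem uf_hom {β : C.Sp} (hβ : C.TopQ β) {ξ : C.I → ℤ} (hξ : C.IsXi ξ) (y : Sˣ) :
    C.uf β (y : S) = (C.coch ξ y)⁻¹ * C.ct S (C.uf β 1) * C.coch ξ y := by
  have e : C.ct S (C.uf β 1) = C.uf β (1 : S) := by
    have := uf_map hβ (Algebra.ofId C.k S) 1
    rwa [map_one] at this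
  obtain ⟨h1, h2, h3, h4⟩ := uf_spec hβ (1 : S)
  have hc := coch_mem hξ.1 y
  have hx : C.xm β (y : S) = (C.coch ξ y)⁻¹ * C.xm β 1 * C.coch ξ y := by
    rw [fixf_xm_conj β hξ.1, hξ.2.1 β hβ, zpow_one, mul_one]
  have hp : C.fr (C.uf β (1 : S)) * C.xm β 1 ∈ C.P S := B_le_P (mul_mem (fr_B h2) (xm_mem _ _))
  rw [e]
  refine (IsFix.eq hβ ⟨mul_mem (mul_mem (inv_mem (T_le hc)) h1) (T_le hc),
    mul_mem (mul_mem (inv_mem (T_le hc)) h2) (T_le hc), ?_, ?_⟩).symm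
  · rw [Lv.lev_mul ov0B (mul_mem (inv_mem (T_le hc)) h2) (T_le hc),
      Lv.lev_mul ov0B (inv_mem (T_le hc)) h2, h3, Lv.lev_of_mem (T_le hc),
      Lv.lev_of_mem (inv_mem (T_le hc)), mul_one, inv_mul_cancel]
  · rw [fixf_fr_conj hξ y h1, hx, mul_assoc _ (C.coch ξ y), ← mul_assoc (C.coch ξ y),
      ← mul_assoc (C.coch ξ y), mul_inv_cancel, one_mul, ← mul_assoc, mul_assoc _ _ (C.xm β 1),
      lev_mul_P (mul_mem (inv_mem (T_le hc)) hp) (T_le hc), lev_mul_P (inv_mem (T_le hc)) hp, ← h4,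
      lev_of_L (T_le hc), lev_of_L (inv_mem (T_le hc))]

theorem fixf_iter {u : Matrix C.I C.I S} {R : C.I → C.I → Prop}
    (h1 : ∀ a b, R a b → R (C.σ a) (C.σ b)) (h2 : ∀ a b, R a b → u (C.σ a) (C.σ b) = u a b ^ C.p)
    {a b : C.I} (h : R a b) (n : ℕ) : R ((C.σ ^ n) a) ((C.σ ^ n) b) ∧
      u ((C.σ ^ n) a) ((C.σ ^ n) b) = u a b ^ C.p ^ n := by
  induction n with
  | zero => exact ⟨h, by rw [pow_zero, pow_zero, pow_one]; rfl⟩
  | succ n ih =>
    rw [pow_succ' C.σ, Equiv.Perm.mul_apply, Equiv.Perm.mul_apply]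
    exact ⟨h1 _ _ ih.1, by rw [h2 _ _ ih.1, ih.2, ← pow_mul, pow_succ]⟩

/-- FIXF.  Elements of `Gam` lie in `L0` (follow `σ` until the pair leaves `L`), and `ξ` is constant
on the classes of `L0`. -/
theorem coch_comm {ξ : C.I → ℤ} (hξ : C.IsXi ξ) (y : Sˣ) {γ : GL C.I C.k} (hγ : γ ∈ C.Gam) :
    C.coch ξ y * C.ct S γ = C.ct S γ * C.coch ξ y := by
  have key : ∀ a b, γ.val a b ≠ 0 → ξ b - ξ a = 0 := fun a b h => by
    have st : ∀ a b, γ.val a b ≠ 0 → γ.val (C.σ a) (C.σ b) ≠ 0 := fun a b h => by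
      rw [← hγ.2, fr_val]
      exact pow_ne_zero _ h
    have it : ∀ n : ℕ, γ.val ((C.σ ^ n) a) ((C.σ ^ n) b) ≠ 0 ∧
        ξ ((C.σ ^ n) b) - ξ ((C.σ ^ n) a) = (C.p : ℤ) ^ n * (ξ b - ξ a) := fun n => by
      induction n with
      | zero => exact ⟨h, by rw [pow_zero, pow_zero, one_mul]; rfl⟩
      | succ n ih =>
        rw [pow_succ' C.σ, Equiv.Perm.mul_apply, Equiv.Perm.mul_apply]
        refine ⟨st _ _ ih.1, ?_⟩
        rw [hξ.2.2 _ _ (by_contra fun e => ih.1 (Pat.blk hγ.1 (Ne.symm e)))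
          (by_contra fun e => ih.1 (Pat.zero hγ.1 fun e' => e (Iff.symm e'))), ih.2, pow_succ',
          mul_assoc]
    have h1 := (it (orderOf C.σ)).2
    rw [pow_orderOf_eq_one, Equiv.Perm.one_apply, Equiv.Perm.one_apply] at h1
    have h2 : (1 : ℤ) < (C.p : ℤ) ^ orderOf C.σ := by exact_mod_cast langb_lt C.σ
    have h3 : ((C.p : ℤ) ^ orderOf C.σ - 1) * (ξ b - ξ a) = 0 := by linear_combination -h1
    exact (mul_eq_zero.1 h3).resolve_left (sub_pos.2 h2).ne'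
  have e : (C.coch ξ y)⁻¹ * C.ct S γ * C.coch ξ y = C.ct S γ := by
    refine C.gl_ext fun a b => ?_
    rw [coch_conj]
    by_cases h : γ.val a b = 0
    · rw [mp_val, h, map_zero, mul_zero]
    · rw [key a b h, _root_.zpow_zero, Units.val_one, one_mul]
  rw [← mul_inv_cancel_left (C.coch ξ y) (C.ct S γ * C.coch ξ y), ← mul_assoc (C.coch ξ y)⁻¹, e]

theorem fixf_lev_emb {Λ : C.Lv} {R : C.Rel} (ho : Λ.Ov R) {β : C.Sp} (hβ : ¬ Λ.r β.i β.j)
    {x : GL C.I S} (hx : x ∈ C.Pat R S) {b c : S} (e : x.val = C.embM β 1 b c 1) :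
    Λ.lev x = 1 := by
  refine C.gl_ext fun m n => ?_
  by_cases h0 : m = n
  · subst h0
    rw [Lv.lev_diag ho hx, e, Units.val_one, Matrix.one_apply_eq]
    rcases reflb_cases β m with rfl | rfl | ⟨h0, rfl⟩ | ⟨h0, rfl⟩ | ⟨h1, h2, h3, h4⟩
    · exact embM_ii _ _ _ _ _
    · exact embM_jj _ _ _ _ _
    · rw [reflb_row_jr β h0, if_pos rfl]
    · rw [reflb_row_ir β h0, if_neg fun e => β.ne (Fin.rev_injective e), if_pos rfl]
    · rw [reflb_row_o _ _ _ _ _ h1 h2 h3 h4, if_pos rfl]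
  rw [Units.val_one, Matrix.one_apply_ne h0]
  by_cases h : Λ.r m n
  · rw [Lv.lev_pos ho hx h, e]
    refine reflb_supp _ _ _ _ _ h0 ?_ ?_ ?_ ?_ <;> intro e' <;>
      obtain ⟨rfl, rfl⟩ := Prod.mk.inj e'
    · exact hβ h
    · exact hβ (Λ.symm _ _ h)
    · exact hβ (by simpa only [Fin.rev_rev] using Λ.mir _ _ h)
    · exact hβ (Λ.symm _ _ (by simpa only [Fin.rev_rev] using Λ.mir _ _ h))
  · exact Lv.lev_neg ho hx h

/-- FIXF.  An element of `L` that is trivial modulo the maximal ideal on `L0`: `v = L0.lev u`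
satisfies `fr v = v`, so `v a b = v a b ^ p ^ orderOf σ`, which forces `v a b = 0` for `a ≠ b`. -/
theorem isFix_of_local [IsLocalRing S] {β : C.Sp} (hβ : C.TopQ β) {y : S} {u : GL C.I S}
    (h1 : u ∈ C.L S) (h2 : u ∈ C.B S) (h3 : ∀ a, u.val a a = 1)
    (h4 : ∀ a b, a ≠ b → ¬ IsUnit (u.val a b)) (h5 : u = C.lev (C.fr u * C.xm β y)) :
    C.IsFix β y u := by
  refine ⟨h1, h2, C.gl_ext fun a b => ?_, h5⟩
  by_cases h0 : a = b
  · rw [h0, Lv.lev_diag ov0B h2, h3, Units.val_one, Matrix.one_apply_eq]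
  rw [Units.val_one, Matrix.one_apply_ne h0]
  by_cases h : C.L0.r a b
  swap
  · exact Lv.lev_neg ov0B h2 h
  have hn : ¬ C.L0.r β.i β.j := fun e => by
    rw [← C.σ.apply_symm_apply β.i, ← C.σ.apply_symm_apply β.j] at e
    exact hβ.2 ((Lv.st_le _ ((Lv.st_apply isAut_σ _ _).1 e)).1 hβ.1)
  have hb : C.fr u * C.xm β y ∈ C.B S := mul_mem (fr_B h2) (xm_mem _ _)
  have st : ∀ a b, C.L0.r a b → u.val (C.σ a) (C.σ b) = u.val a b ^ C.p := fun a b h => by
    have h' : C.L0.r (C.σ a) (C.σ b) := (Lv.st_apply isAut_σ _ _).2 h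
    rw [← fr_val, ← Lv.lev_pos ov0B (fr_B h2) h', ← mul_one (C.L0.lev (C.fr u)),
      ← fixf_lev_emb ov0B hn (xm_mem β y) rfl, ← Lv.lev_mul ov0B (fr_B h2) (xm_mem β y),
      Lv.lev_pos ov0B hb h', ← lev_pos (Or.inl (B_le_P hb)) (Lv.st_le _ h'), ← h5]
  have e := (fixf_iter (fun a b h => (Lv.st_apply isAut_σ a b).2 h) st h (orderOf C.σ)).2
  rw [pow_orderOf_eq_one, Equiv.Perm.one_apply, Equiv.Perm.one_apply] at e
  obtain ⟨q, hq⟩ := Nat.exists_eq_add_of_lt (langb_lt (C := C) C.σ)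
  have hu : IsUnit (1 - u.val a b ^ (1 + q)) :=
    (IsLocalRing.isUnit_or_isUnit_one_sub_self _).resolve_left fun e' =>
      h4 a b h0 ((isUnit_pow_iff (by omega)).1 e')
  rw [Lv.lev_pos ov0B h2 h]
  refine hu.mul_right_eq_zero.1 ?_
  rw [hq, pow_succ] at e
  linear_combination e

/-- lower triangular root elements -/
theorem fixd_root {a b : C.I} (hb : C.blk a = C.blk b) (hlt : a < b) (c : S) :
    ∃ r ∈ C.B S, ∀ (A : Matrix C.I C.I S) i j, (A * r.val) i j =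
      A i j + (if j = a then A i b * c else 0) - if j = b.rev then A i a.rev * c else 0 := by
  obtain ⟨N, hN⟩ : ∃ N : Matrix C.I C.I S, N = single b a c - single a.rev b.rev c := ⟨_, rfl⟩
  have h2 : N * N = 0 := by
    rw [hN, sub_mul, mul_sub, mul_sub, single_mul_single_of_ne _ _ _ _ hlt.ne,
      single_mul_single_of_ne _ _ _ _ (C.rev_ne a).symm, single_mul_single_of_ne _ _ _ _ (C.rev_ne b),
      single_mul_single_of_ne _ _ _ _ (Fin.rev_lt_rev.2 hlt).ne]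
    simp
  have h3 : (1 - N) * (1 + N) = 1 := by rw [mul_add, sub_mul, sub_mul, h2]; simp
  have h4 : C.adj (1 + N) = 1 - N := by
    rw [adj_add, adj_one, sub_eq_add_neg, hN]
    congr 1
    ext i j
    simp only [adj_ent, Matrix.neg_apply, Matrix.sub_apply, single_apply, neg_sub, Fin.rev_eq_iff,
      Fin.rev_rev, and_comm]
  have h5 : ∀ i j, i ≠ j → (b, a) ≠ (i, j) → (a.rev, b.rev) ≠ (i, j) → (1 + N) i j = 0 :=
    fun i j e1 e2 e3 => by
      rw [hN, Matrix.add_apply, Matrix.sub_apply, one_apply_ne e1,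
        single_apply_of_ne _ _ _ _ _ fun h => e2 (Prod.ext h.1 h.2),
        single_apply_of_ne _ _ _ _ _ fun h => e3 (Prod.ext h.1 h.2), sub_zero, add_zero]
  refine ⟨⟨1 + N, 1 - N, mul_eq_one_comm.1 h3, h3⟩, ⟨(C.inG_iff _).2 ⟨fun i j h => h5 i j
    (fun e => h (by rw [e])) (fun e => ?_) fun e => ?_, 1, isUnit_one, ?_⟩, fun i j h => h5 i j
    (fun e => h e.ge) (fun e => ?_) fun e => ?_⟩, fun A i j => ?_⟩
  · cases e; exact h hb.symm
  · cases e; exact h ((C.blk_rev_iff a b).2 hb)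
  · change C.adj (1 + N) * (1 + N) = _
    rw [one_smul, h4, h3]
  · cases e; exact h hlt.le
  · cases e; exact h (Fin.rev_le_rev.2 hlt.le)
  · change (A * (1 + N)) i j = _
    rw [hN, mul_add, mul_one, mul_sub, Matrix.add_apply, Matrix.sub_apply, add_sub_assoc]
    congr 2 <;> split_ifs with h
    · rw [h, mul_single_apply_same]
    · exact mul_single_apply_of_ne _ _ _ _ _ h _
    · rw [h, mul_single_apply_same]
    · exact mul_single_apply_of_ne _ _ _ _ _ h _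

theorem fixd_back (τ : Equiv.Perm C.I) (n : ℕ) (a : C.I) :
    τ ((τ⁻¹ ^ (n + 1)) a) = (τ⁻¹ ^ n) a := by
  rw [← Equiv.Perm.mul_apply, pow_succ', mul_inv_cancel_left]

theorem fixd_st (W : C.Wd) (n : ℕ) {a b : C.I} (h : W.Lc.r a b) :
    W.Lc.r ((W.τ⁻¹ ^ n) a) ((W.τ⁻¹ ^ n) b) := by
  induction n with
  | zero => exact h
  | succ n ih => exact (Lv.st_apply W.τ_aut _ _).1 (by rwa [fixd_back, fixd_back])

/-- FIXD.  Paper 3.5, step 1: the moves `κ(c)`.  Go back from `(b₁, a₁)` along `τ` to the first pair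
`(b₀, a₀) = τ ^ (-e) (b₁, a₁)` with `τ⁻¹ (b₀, a₀)` not in `L`; `r = 1 + c E(b₀, a₀) - c E(a₀.rev, b₀.rev)`,
`u = lev (ft τ u * r)` by `exists_fix`, `x = ft τ u * r`, `q = p ^ e`; `zd r zd⁻¹` lies in the
unipotent radical of `Q` (`frame_lt`, `pm_conj`), `zd (ft τ u) zd⁻¹ = fr u`. -/
theorem Wd.exists_kap (W : C.Wd) {a₁ b₁ : C.I} (hb : C.blk a₁ = C.blk b₁)
    (hl : C.lo a₁ ↔ C.lo b₁) (hlt : a₁ < b₁) (hn : ¬ W.Lc.r a₁ b₁)
    (hc : ∀ m, C.blk m = C.blk a₁ → a₁ < m → m < b₁ → W.Lc.r m a₁ ∨ W.Lc.r m b₁) :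
    ∃ q : ℕ, 0 < q ∧ ∀ (S : Type) [CommRing S] [Algebra C.k S] (c : S), ∃ x ∈ C.B S,
      C.E x (W.zd S * x * (W.zd S)⁻¹) ∧ W.Lc.lev x = 1 ∧
      (∀ b a, C.blk b = C.blk a₁ → C.blk a = C.blk a₁ → W.Lc.r b b₁ → W.Lc.r a a₁ →
        x.val b a = if b = b₁ ∧ a = a₁ then c ^ q else 0) ∧
      ∀ (S' : Type) [CommRing S'] [Algebra C.k S'] (f : S →ₐ[C.k] S'), f c = 0 → C.ma f x = 1 := by
  have hτ := W.τ_aut
  have hex : ∃ e : ℕ, ¬ (C.lo ((W.τ⁻¹ ^ (e + 1)) a₁) ↔ C.lo ((W.τ⁻¹ ^ (e + 1)) b₁)) := by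
    by_contra h
    refine hn fun n => ?_
    obtain ⟨o, ho⟩ := Nat.exists_eq_add_one_of_ne_zero (orderOf_pos W.τ).ne'
    have h1 : W.τ⁻¹ ^ (n * o + o + 1) = W.τ ^ n := by
      rw [inv_pow, inv_eq_iff_mul_eq_one, ← pow_add,
        show n * o + o + 1 + n = (o + 1) * (n + 1) by ring, ← ho, pow_mul, pow_orderOf_eq_one,
        one_pow]
    exact h1 ▸ not_not.1 (not_exists.1 h _)
  classical
  obtain ⟨e, he, hL⟩ : ∃ e : ℕ, ¬ (C.lo ((W.τ⁻¹ ^ (e + 1)) a₁) ↔ C.lo ((W.τ⁻¹ ^ (e + 1)) b₁)) ∧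
      ∀ n ≤ e, (C.lo ((W.τ⁻¹ ^ n) a₁) ↔ C.lo ((W.τ⁻¹ ^ n) b₁)) :=
    ⟨Nat.find hex, Nat.find_spec hex, fun n hn => by
      cases n with
      | zero => exact hl
      | succ n => exact not_not.1 (Nat.find_min hex hn)⟩
  have hB : ∀ (n : ℕ) {a b}, C.blk a = C.blk b →
      C.blk ((W.τ⁻¹ ^ n) a) = C.blk ((W.τ⁻¹ ^ n) b) := fun n a b h => ((hτ.inv.pow n).2 a b).2 h
  have hT : ∀ n ≤ e, (W.τ⁻¹ ^ n) a₁ < (W.τ⁻¹ ^ n) b₁ := fun n hn => by
    induction n with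
    | zero => exact hlt
    | succ n ih =>
      rw [← W.τ_lt (hB _ hb) (hL _ hn), fixd_back, fixd_back]
      exact ih (Nat.le_of_succ_le hn)
  have hN : ¬ W.Lc.r ((W.τ⁻¹ ^ e) a₁) ((W.τ⁻¹ ^ e) b₁) := fun h => he
    (Lv.st_le (Λ := C.lvL) hτ ((Lv.st_apply hτ _ _).1
      (by rw [fixd_back W.τ e a₁, fixd_back W.τ e b₁]; exact h)))
  refine ⟨C.p ^ e, pow_pos C.hp.pos e, fun S _ _ c => ?_⟩
  obtain ⟨r, hr, hm⟩ := fixd_root (hB e hb) (hT e le_rfl) c
  have hr1 : W.Lc.lev r = 1 := C.gl_ext fun i j => by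
    by_cases h : W.Lc.r i j
    · have h1 := hm 1 i j
      rw [one_mul] at h1
      rw [Lv.lev_pos W.ovc hr h, h1, Units.val_one]
      have h2 : ∀ {s t : C.I}, ¬ W.Lc.r s t →
          (if j = t then (1 : Matrix C.I C.I S) i s * c else 0) = 0 := fun {s t} hs => by
        split_ifs with h3
        · rw [one_apply_ne fun h4 => hs (by rwa [← h3, ← h4]), zero_mul]
        · rfl
      rw [h2 fun h3 => hN (W.Lc.symm _ _ h3), h2 fun h3 => hN (W.Lc.symm _ _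
        (by simpa only [Fin.rev_rev] using W.Lc.mir _ _ h3)), add_zero, sub_zero]
    · rw [Lv.lev_neg W.ovc hr h, Units.val_one, one_apply_ne fun e : i = j => h (e ▸ W.Lc.refl i)]
  obtain ⟨u, ⟨u1, u2, u3, u4⟩, -⟩ :=
    exists_fix (C.frob S) hτ C.lvL (Or.inl rfl) ovB W.mono_τ hr hr1
  have hx : C.ft W.τ u * r ∈ C.B S := mul_mem (tw_pat _ hτ (R := C.rL.inf C.rB)
    (fun a b h h1 => not_lt.1 fun h2 => not_lt.2 h1.2 ((W.τ_lt h h1.1).1 h2))
    (mem_inf.2 ⟨u1, u2⟩)) hr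
  have ux : ∀ a b, (C.lo a ↔ C.lo b) → (C.ft W.τ u * r).val a b = u.val a b := fun a b h => by
    rw [← Lv.lev_pos ovB hx h, ← u4]
  have uc : ∀ a b, W.Lc.r a b → u.val a b = (1 : Matrix C.I C.I S) a b := fun a b h => by
    rw [← Lv.lev_pos W.ovc u2 h]
    exact congrArg (fun y : GL C.I S => y.val a b) u3
  have ent : ∀ a b, (C.ft W.τ u * r).val (W.τ a) (W.τ b) = u.val a b ^ C.p +
      (if b = (W.τ⁻¹ ^ (e + 1)) a₁ then u.val a ((W.τ⁻¹ ^ (e + 1)) b₁) ^ C.p * c else 0) -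
      if b = ((W.τ⁻¹ ^ (e + 1)) b₁).rev then
        u.val a ((W.τ⁻¹ ^ (e + 1)) a₁).rev ^ C.p * c else 0 := fun a b => by
    rw [Units.val_mul, hm, ← fixd_back W.τ e a₁, ← fixd_back W.τ e b₁, ← hτ.1, ← hτ.1, ft_val,
      ft_val, ft_val]
    simp only [W.τ.injective.eq_iff]
  have key : ∀ a b, (C.lo a ↔ C.lo b) →
      (C.ft W.τ u * r).val (W.τ a) (W.τ b) = (C.ft W.τ u * r).val a b ^ C.p := fun a b h => by
    have h2 : ∀ {s t : C.I}, ¬ (C.lo t ↔ C.lo s) →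
        (if b = t then u.val a s ^ C.p * c else 0) = 0 := fun {s t} hs => by
      split_ifs with h3
      · rw [Pat.zero u1 fun h4 => hs (h3 ▸ h.symm.trans h4), zero_pow C.hp.ne_zero, zero_mul]
      · rfl
    rw [ent, ux a b h, h2 he, h2 fun h3 => he (by
      rw [C.lo_rev, C.lo_rev] at h3; exact (not_iff_not.1 h3).symm), add_zero, sub_zero]
  refine ⟨_, hx, ⟨mem_P.1 (B_le_P hx), mem_Q.1 (Z_le_Q (W.conj_B hx)), fun a b h => ?_⟩,
    C.gl_ext fun a b => ?_, fun b a h1 h2 h3 h4 => ?_, fun S' _ _ f hf => ?_⟩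
  · rw [Wd.zd, pm_conj, ← W.z_τ, ← W.z_τ, tw_val, ← key a b h]
    rfl
  · by_cases h : W.Lc.r a b
    · rw [Lv.lev_pos W.ovc hx h, ux a b (Lv.st_le hτ h), uc a b h, Units.val_one]
    · rw [Lv.lev_neg W.ovc hx h, Units.val_one, one_apply_ne fun e : a = b => h (e ▸ W.Lc.refl a)]
  · have l1 : ∀ n : ℕ, C.lo ((W.τ⁻¹ ^ n) b) ↔ C.lo ((W.τ⁻¹ ^ n) b₁) := fun n =>
      Lv.st_le hτ (fixd_st W n h3)
    have l2 : ∀ n : ℕ, C.lo ((W.τ⁻¹ ^ n) a) ↔ C.lo ((W.τ⁻¹ ^ n) a₁) := fun n =>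
      Lv.st_le hτ (fixd_st W n h4)
    have it : ∀ n ≤ e, (C.ft W.τ u * r).val b a =
        (C.ft W.τ u * r).val ((W.τ⁻¹ ^ n) b) ((W.τ⁻¹ ^ n) a) ^ C.p ^ n := fun n hn => by
      induction n with
      | zero => exact (pow_one _).symm
      | succ n ih =>
        rw [ih (Nat.le_of_succ_le hn), ← fixd_back W.τ n b, ← fixd_back W.τ n a,
          key _ _ ((l1 _).trans ((hL _ hn).symm.trans (l2 _).symm)), ← pow_mul,
          pow_succ' C.p]
    rw [it e le_rfl, ← fixd_back W.τ e b, ← fixd_back W.τ e a, ent,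
      Pat.zero u1 fun h => he ((l2 _).symm.trans (Iff.trans (Iff.symm h) (l1 _))),
      uc _ _ (fixd_st W _ h3), if_neg (C.ne_rev (hB _ (h2.trans hb))), zero_pow C.hp.ne_zero,
      zero_add, sub_zero, one_apply]
    simp only [(W.τ⁻¹ ^ (e + 1)).injective.eq_iff]
    by_cases h5 : a = a₁ <;> by_cases h6 : b = b₁ <;> simp [h5, h6, C.hp.ne_zero]
  · have r1 : C.ma f r = 1 := C.gl_ext fun i j => by
      have h1 := hm 1 i j
      rw [one_mul] at h1
      rw [mp_val, h1, Units.val_one]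
      simp only [RingHom.coe_coe, map_sub, map_add, apply_ite f, map_mul, map_zero, map_one, hf,
        mul_zero, ite_self, add_zero, sub_zero, one_apply]
    have e1 : C.ma f (C.ft W.τ u * r) = C.ft W.τ (C.ma f u) := by
      rw [map_mul, r1, mul_one, ft_mp]
    have e2 : C.ma f u = 1 := (exists_fix (C.frob S') hτ C.lvL (Or.inl rfl) ovB W.mono_τ
      (one_mem _) Lv.lev_one).unique
      ⟨Pat.map _ u1, Pat.map _ u2, (Lv.lev_mp W.ovc _ u2).trans (by
        rw [show W.Lc.lev u = 1 from u3, map_one]), by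
        rw [mul_one, ← e1, Lv.lev_mp ovB _ hx, ← u4]⟩
      ⟨one_mem _, one_mem _, Lv.lev_one, by rw [map_one, mul_one, Lv.lev_one]⟩
    rw [e1, e2, map_one]

variable (C) in
/-- the family `g_β(t)` -/
def gb (β : C.Sp) (t : S) : GL C.I S := C.emb β t (-1) 1 0 (by ring)

theorem gb_mem (β : C.Sp) (t : S) : C.gb β t ∈ C.G S := Pat.le_G (emb_mem _ _ _ _ _ _)

theorem gb_map (f : S →+* S') (β : C.Sp) (t : S) : C.mp f (C.gb β t) = C.gb β (f t) := by
  refine Units.ext ?_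
  rw [mp_mat, gb, gb, emb_val, emb_val, embM_map, map_neg, map_one, map_zero]

variable (C) in
/-- the test curve -/
def tx (β : C.Sp) (M : ℕ) (η : C.I → ℤ) (t : Sˣ) : GL C.I S :=
  C.coch η t * (C.fr (C.uf β ((-t ^ (-yb β M η) : Sˣ) : S)) * C.xm β ((-t ^ (-yb β M η) : Sˣ) : S))⁻¹

theorem fixf_cv (β : C.Sp) (s : Sˣ) :
    (C.coch (C.cv β.i β.j) s).val = C.embM β (s : S) 0 0 (s⁻¹ : Sˣ) := by
  ext m n
  have hi : C.cv β.i β.j β.i = 1 := if_pos (Or.inl rfl)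
  have hj : C.cv β.i β.j β.j = -1 := by
    rw [cv, if_neg (not_or.2 ⟨β.ne.symm, (C.rev_ne _).symm⟩), if_pos (Or.inl rfl)]
  rw [coch, dgG_val, diagonal_apply]
  rcases reflb_cases β m with rfl | rfl | ⟨h0, rfl⟩ | ⟨h0, rfl⟩ | ⟨h1, h2, h3, h4⟩
  · rw [reflb_row_i, ite_self, hi, zpow_one]
    exact if_congr eq_comm rfl rfl
  · rw [reflb_row_j, hj, _root_.zpow_neg_one]
    by_cases e : n = β.i
    · rw [if_pos e, if_neg fun e' => β.ne (e'.trans e).symm]
    · rw [if_neg e]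
      exact if_congr eq_comm rfl rfl
  · rw [reflb_row_jr β h0, mul_zero, ite_self, cv_rev β.ne, hj, neg_neg, zpow_one]
    exact if_congr eq_comm rfl rfl
  · rw [reflb_row_ir β h0, mul_zero, cv_rev β.ne, hi, _root_.zpow_neg_one]
    by_cases e : n = β.j.rev
    · rw [if_pos e, if_neg fun e' => β.ne (Fin.rev_injective (e'.trans e))]
    · rw [if_neg e]
      exact if_congr eq_comm rfl rfl
  · rw [reflb_row_o _ _ _ _ _ h1 h2 h3 h4, cv, if_neg (not_or.2 ⟨h1, h4⟩),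
      if_neg (not_or.2 ⟨h2, h3⟩), _root_.zpow_zero, Units.val_one]

theorem fixf_fr_eta {β : C.Sp} {M : ℕ} {η : C.I → ℤ} (hη : C.IsEta β.i β.j M η) (t : Sˣ) :
    C.fr (C.coch η t) = C.coch (C.cv β.i β.j) (t ^ (-(M : ℤ))) * C.coch η t := by
  refine Units.ext (basicd_ext fun a b => ?_)
  rw [fr_val, Units.val_mul, coch, coch, dgG_val, dgG_val, diagonal_mul_diagonal]
  by_cases h : a = b
  · have e := hη.2 (C.σ a)
    rw [Equiv.symm_apply_apply] at e
    rw [← h, diagonal_apply_eq, diagonal_apply_eq, ← Units.val_mul, ← Units.val_pow_eq_pow_val,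
      ← _root_.zpow_mul, ← _root_.zpow_add, ← e, sub_add_cancel, mul_comm, _root_.zpow_mul,
      zpow_natCast]
  · rw [diagonal_apply_ne _ h, diagonal_apply_ne _ (C.σ.injective.ne h), zero_pow C.hp.ne_zero]

theorem fixf_up_mem {β : C.Sp} (hβ : C.TopQ β) (s : S) :
    C.emb β 1 s 0 1 (by ring) ∈ C.Q S := by
  refine ⟨(emb_mem β _ _ _ _ _).1, fun m n h => ?_⟩
  obtain ⟨hn, hm⟩ : C.lq n ∧ ¬ C.lq m := Classical.not_imp.1 h
  rw [emb_val]
  by_cases e1 : (m, n) = (β.j, β.i)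
  · obtain ⟨rfl, rfl⟩ := Prod.mk.inj e1
    exact embM_ji _ _ _ _ _
  by_cases e2 : (m, n) = (β.i.rev, β.j.rev)
  · obtain ⟨rfl, rfl⟩ := Prod.mk.inj e2
    rw [reflb_row_ir β β.ne_rev, if_pos rfl, mul_zero]
  refine reflb_supp _ _ _ _ _ (fun e => hm (e ▸ hn)) (fun e => ?_) e1 (fun e => ?_) e2 <;>
    obtain ⟨rfl, rfl⟩ := Prod.mk.inj e
  · exact hm hβ.1
  · exact hm ((C.lq_rev _).2 hβ.2)

/-- FIXF.  Paper 4, test curve.  With `y = - t ^ (-yb)`, `s = t ^ (-M)`: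
`η(t) xm(-y) η(t)⁻¹ = xm s`, `(gb (t ^ M))⁻¹ * xm s = emb β 1 s 0 1 * β^∨(s)` and
`fr η(t) = β^∨(s) η(t)` is the equation of `η`. -/
theorem tx_spec {β : C.Sp} (hβ : C.TopQ β) {M : ℕ} {η : C.I → ℤ} (hη : C.IsEta β.i β.j M η)
    (t : Sˣ) : C.E (C.tx β M η t) ((C.gb β ((t : S) ^ M))⁻¹ * C.tx β M η t) ∧
      C.lev (C.tx β M η t) = C.coch η t * (C.uf β ((-t ^ (-yb β M η) : Sˣ) : S))⁻¹ := by
  rw [tx]
  obtain ⟨h1, h2, -, h4⟩ := uf_spec hβ ((-t ^ (-yb β M η) : Sˣ) : S)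
  generalize C.uf β ((-t ^ (-yb β M η) : Sˣ) : S) = u at h1 h2 h4 ⊢
  have hc := coch_mem (hη.rev β.ne) t
  have hp : C.fr u * C.xm β ((-t ^ (-yb β M η) : Sˣ) : S) ∈ C.P S :=
    B_le_P (mul_mem (fr_B h2) (xm_mem _ _))
  have hl : C.lev (C.coch η t * (C.fr u * C.xm β ((-t ^ (-yb β M η) : Sˣ) : S))⁻¹) =
      C.coch η t * u⁻¹ := by
    rw [lev_mul_P (T_le hc) (inv_mem hp), lev_inv (Or.inl hp), ← h4, lev_of_L (T_le hc)]
  refine ⟨?_, hl⟩
  have hs : ((t ^ (-(M : ℤ)) : Sˣ) : S) * (t : S) ^ M = 1 := by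
    rw [← Units.val_pow_eq_pow_val, ← Units.val_mul, _root_.zpow_neg, zpow_natCast, inv_mul_cancel,
      Units.val_one]
  have e1 : (C.xm β ((-t ^ (-yb β M η) : Sˣ) : S))⁻¹ =
      (C.coch η t)⁻¹ * C.xm β ((t ^ (-(M : ℤ)) : Sˣ) : S) * C.coch η t := by
    rw [fixf_xm_conj β (hη.rev β.ne), inv_eq_iff_mul_eq_one, ← xm_add, ← Units.val_mul,
      ← _root_.zpow_add, yb, neg_sub, sub_eq_add_neg _ (M : ℤ), Units.val_neg, neg_add_cancel,
      xm_zero]
  have e2 : C.xm β ((t ^ (-(M : ℤ)) : Sˣ) : S) = C.gb β ((t : S) ^ M) *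
      (C.emb β 1 ((t ^ (-(M : ℤ)) : Sˣ) : S) 0 1 (by ring) *
        C.coch (C.cv β.i β.j) (t ^ (-(M : ℤ)))) := by
    refine Units.ext ?_
    rw [Units.val_mul, Units.val_mul, fixf_cv, Units.inv_eq_of_mul_eq_one_right hs, xm, gb, emb_val,
      emb_val, emb_val, embM_mul, embM_mul]
    congr 1
    · linear_combination -hs
    · linear_combination (-(t : S) ^ M) * hs
    · ring
    · linear_combination -hs
  have e3 : (C.gb β ((t : S) ^ M))⁻¹ *
      (C.coch η t * (C.fr u * C.xm β ((-t ^ (-yb β M η) : Sˣ) : S))⁻¹) =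
      C.emb β 1 ((t ^ (-(M : ℤ)) : Sˣ) : S) 0 1 (by ring) * C.fr (C.coch η t * u⁻¹) := by
    rw [_root_.mul_inv_rev, e1, e2, map_mul, map_inv, fixf_fr_eta hη]
    simp only [mul_assoc, mul_inv_cancel_left, inv_mul_cancel_left]
  have hm : C.fr (C.coch η t * u⁻¹) ∈ C.M S := fr_L (mul_mem (T_le hc) (inv_mem h1))
  have hq := fixf_up_mem hβ ((t ^ (-(M : ℤ)) : Sˣ) : S)
  rw [e3]
  refine E_iff.2 ⟨mul_mem (T_le hc) (inv_mem hp), mul_mem hq (M_le_Q hm), ?_⟩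
  rw [hl, lq', Lv.lev_mul ovQ hq (M_le_Q hm), Lv.lev_of_mem (Λ := C.lvM) hm,
    fixf_lev_emb ovQ (fun e => hβ.2 (e.1 hβ.1)) hq rfl, one_mul]

end Alg

section Field

variable {F : Type} [Field F] [Algebra C.k F]

theorem fixc_hi {a b : C.I} (h : a < b) (hl : ¬ (C.lo a ↔ C.lo b)) : C.lo a ∧ ¬ C.lo b := by
  have := C.lo_of_le h.le
  tauto

theorem fixc_up {x : GL C.I F} (h : C.E x x) (n : ℕ) : ∀ a b, C.blk a = C.blk b → a < b →
    ¬ (C.lo ((C.σ ^ n) a) ↔ C.lo ((C.σ ^ n) b)) → x.val a b = 0 := by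
  have h0 : ∀ a b, a < b → ¬ (C.lo a ↔ C.lo b) → x.val a b = 0 := fun a b hab hl =>
    Pat.zero h.memP fun h1 => (fixc_hi hab hl).2 (h1 (fixc_hi hab hl).1)
  induction n with
  | zero => exact fun a b _ => h0 a b
  | succ n ih =>
    intro a b hb hab hn
    by_cases hl : C.lo a ↔ C.lo b
    · have h1 := ih (C.σ a) (C.σ b) ((C.σ_blk a b).2 hb) (C.σ_mono a b hb hab)
        (by simpa only [pow_succ, Equiv.Perm.mul_apply] using hn)
      rw [h.2.2 a b hl] at h1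
      exact eq_zero_of_pow_eq_zero h1
    · exact h0 a b hab hl

theorem fixc_dn {x : GL C.I F} (h : C.E x x) {a b : C.I} (hb : C.blk a = C.blk b) (hab : b < a)
    (hl : ¬ (C.lo a ↔ C.lo b)) (n : ℕ) : x.val ((C.σ ^ (n + 1)) a) ((C.σ ^ (n + 1)) b) = 0 := by
  have h0 : ∀ a b, b < a → ¬ (C.lo a ↔ C.lo b) → x.val (C.σ a) (C.σ b) = 0 := fun a b hab hl =>
    have h1 := fixc_hi hab fun e => hl e.symm
    h.2.1.2 a b (not_lt.1 h1.2) h1.1
  induction n with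
  | zero => simpa only [zero_add, pow_one] using h0 a b hab hl
  | succ n ih =>
    rw [pow_succ' C.σ (n + 1), Equiv.Perm.mul_apply, Equiv.Perm.mul_apply]
    by_cases h1 : C.lo ((C.σ ^ (n + 1)) a) ↔ C.lo ((C.σ ^ (n + 1)) b)
    · rw [h.2.2 _ _ h1, ih, zero_pow C.hp.ne_zero]
    · exact h0 _ _ ((C.σ_pow_lt _ hb.symm).2 hab) h1

/-- FIXC.  Paper 2.2; `exists_fixed`. -/
theorem stab {x : GL C.I F} (h : C.E x x) : ∃ γ ∈ C.Gam, x = C.ct F γ := by
  have e : orderOf C.σ - 1 + 1 = orderOf C.σ := Nat.sub_add_cancel (orderOf_pos C.σ)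
  have key : ∀ a b, ¬ (C.lo a ↔ C.lo b) → x.val a b = 0 ∧ x.val (C.σ a) (C.σ b) = 0 := by
    intro a b hl
    by_cases hb : C.blk a = C.blk b
    · rcases lt_trichotomy a b with h1 | h1 | h1
      · refine ⟨fixc_up h 0 a b hb h1 hl, fixc_up h (orderOf C.σ - 1) _ _ ((C.σ_blk a b).2 hb)
          (C.σ_mono a b hb h1) ?_⟩
        rw [← Equiv.Perm.mul_apply, ← Equiv.Perm.mul_apply, ← pow_succ, e, pow_orderOf_eq_one]
        exact hl
      · exact absurd (h1 ▸ Iff.rfl) hl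
      · have h2 := fixc_dn h hb h1 hl (orderOf C.σ - 1)
        have h3 := fixc_dn h hb h1 hl 0
        rw [e, pow_orderOf_eq_one] at h2
        rw [zero_add, pow_one] at h3
        exact ⟨h2, h3⟩
    · exact ⟨Pat.blk h.memP hb, Pat.blk h.memP fun h1 => hb ((C.σ_blk a b).1 h1)⟩
  have hL : x ∈ C.L F := ⟨h.memP.1, fun a b hl => (key a b hl).1⟩
  have hf : C.ft C.σ x = x := Units.ext (basicd_ext fun a b => by
    rw [ft_val]
    by_cases hl : C.lo a ↔ C.lo b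
    · exact (h.2.2 a b hl).symm
    · rw [(key a b hl).1, (key a b hl).2, zero_pow C.hp.ne_zero])
  obtain ⟨γ, h1, h2⟩ := exists_fixed hf
  exact ⟨γ, ⟨Pat.of_map _ (algebraMap C.k F).injective (h2 ▸ hL), h1⟩, h2.symm⟩

theorem stab' {x y x' y' : GL C.I F} (h : C.E x y) (h' : C.E x' y') (e : x * y⁻¹ = x' * y'⁻¹) :
    ∃ γ ∈ C.Gam, x' = x * C.ct F γ := by
  have h1 := h.inv.mul h'
  have e1 : y⁻¹ * y' = x⁻¹ * x' := by
    rw [eq_inv_mul_iff_mul_eq, ← mul_assoc, e, inv_mul_cancel_right]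
  rw [e1] at h1
  obtain ⟨γ, hγ, e2⟩ := stab h1
  exact ⟨γ, hγ, by rw [← e2, mul_inv_cancel_left]⟩

theorem fixh_ma {S S' : Type} [CommRing S] [Algebra C.k S] [CommRing S'] [Algebra C.k S']
    (f : S →ₐ[C.k] S') (τ : Equiv.Perm C.I) (m : GL C.I S) :
    C.ma f (m * (C.ft τ m)⁻¹) = C.ma f m * (C.ft τ (C.ma f m))⁻¹ := by
  rw [map_mul, map_inv, ft_mp]

theorem fixh_elem {R K : Type} [CommRing R] [Field K] (f : R →+* K) (x : K)
    (h : ∀ V : ValuationSubring K, (∀ r, f r ∈ V) → x ∈ V) : f.IsIntegralElem x := by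
  have h1 : x ∈ (integralClosure (Subring.closure (f.range : Set K)) K).toSubring := by
    rw [← iInf_valuationSubring_superset, Subring.mem_iInf]
    exact fun V => h V.1 fun r => V.2 ⟨r, rfl⟩
  rw [Subring.closure_eq] at h1
  obtain ⟨q, hq, hx⟩ : IsIntegral f.range x := h1
  obtain ⟨q', e, -, hq'⟩ := Polynomial.lifts_and_natDegree_eq_and_monic
    (f := f.rangeRestrict) ((Polynomial.mem_lifts q).2
      (Polynomial.map_surjective _ f.rangeRestrict_surjective q)) hq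
  refine ⟨q', hq', ?_⟩
  rw [← e, Polynomial.eval₂_map] at hx
  exact hx

theorem fixh_mem {Λ : C.Rel} (𝒢 : C.UR Λ) (ι : 𝒢.R →ₐ[C.k] F) (V : Subalgebra C.k F)
    (h1 : ∀ a b, (C.ma ι 𝒢.m).val a b ∈ V) (h2 : ∀ a b, (C.ma ι 𝒢.m)⁻¹.val a b ∈ V) (x : 𝒢.R) :
    ι x ∈ V := by
  obtain ⟨m, hm⟩ := C.exists_mp_eq (V.val : V →+* F) Subtype.val_injective (C.ma ι 𝒢.m)
    (fun a b => ⟨⟨_, h1 a b⟩, rfl⟩) (fun a b => ⟨⟨_, h2 a b⟩, rfl⟩)
  have hL : m ∈ C.Pat Λ V := Pat.of_map (V.val : V →+* F) Subtype.val_injective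
    (hm ▸ Pat.map (ι : 𝒢.R →+* F) 𝒢.mem)
  have e : V.val.comp (𝒢.ev m) = ι := by
    rw [𝒢.ev_comp _ hL]
    exact (congrArg 𝒢.ev hm).trans (𝒢.ev_ma ι)
  rw [← e]
  exact (𝒢.ev m x).2

theorem fixh_int {Λ : C.Rel} (𝒢 : C.UR Λ) (τ : Equiv.Perm C.I) (Lam : 𝒢.R →ₐ[C.k] 𝒢.R)
    (hL : C.ma Lam 𝒢.m = 𝒢.m * (C.ft τ 𝒢.m)⁻¹) : (Lam : 𝒢.R →+* 𝒢.R).IsIntegral := by
  intro x
  let ι := IsScalarTower.toAlgHom C.k 𝒢.R (FractionRing 𝒢.R)
  refine RingHom.IsIntegralElem.of_map (g := ι.toRingHom)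
    (IsFractionRing.injective 𝒢.R (FractionRing 𝒢.R)) (fixh_elem _ _ fun V hV => ?_)
  have hk : ∀ c : C.k, algebraMap C.k _ c ∈ V := fun c => by
    have := hV (algebraMap C.k 𝒢.R c)
    rwa [RingHom.comp_apply, RingHom.coe_coe, AlgHom.commutes] at this
  have e : C.ma (ι.comp Lam) 𝒢.m = C.ma ι 𝒢.m * (C.ft τ (C.ma ι 𝒢.m))⁻¹ := by
    rw [← fixh_ma, ← hL]
    rfl
  obtain ⟨h1, h2⟩ := lang_integral τ V.toSubring V.mem_or_inv_mem e (fun a b => hV _)
    (fun a b => by rw [← map_inv]; exact hV _)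
  exact fixh_mem 𝒢 ι { V.toSubring with algebraMap_mem' := hk } h1 h2 x

theorem fixh_inj {Λ : C.Rel} (𝒢 : C.UR Λ) (τ : Equiv.Perm C.I) (Lam : 𝒢.R →ₐ[C.k] 𝒢.R)
    (hL : C.ma Lam 𝒢.m = 𝒢.m * (C.ft τ 𝒢.m)⁻¹) : Function.Injective Lam := by
  have : IsNoetherianRing 𝒢.R := Algebra.FiniteType.isNoetherianRing C.k 𝒢.R
  let I : Ideal 𝒢.R := RingHom.ker (𝒢.ev (1 : GL C.I C.k) : 𝒢.R →+* C.k)
  let π := Ideal.Quotient.mkₐ C.k (I ^ 2)
  have h1 : C.ft τ (C.ma π 𝒢.m) = 1 := by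
    rw [← map_one (C.ft τ)]
    refine C.gl_ext fun a b => ?_
    obtain ⟨a, rfl⟩ := τ.surjective a
    obtain ⟨b, rfl⟩ := τ.surjective b
    have h2 : 𝒢.m.val a b - (1 : GL C.I 𝒢.R).val a b ∈ I := by
      rw [RingHom.mem_ker, map_sub, ← mp_val, ← mp_val, map_one, sub_eq_zero]
      exact congrArg (fun x : GL C.I C.k => x.val a b) (𝒢.ev_m (one_mem _))
    have h3 : C.frob _ (π (𝒢.m.val a b - (1 : GL C.I 𝒢.R).val a b)) = 0 := by
      rw [frob_apply, ← map_pow]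
      exact Ideal.Quotient.eq_zero_iff_mem.2
        (Ideal.pow_le_pow_right C.hp.two_le (Ideal.pow_mem_pow h2 _))
    rw [map_sub, map_sub, sub_eq_zero] at h3
    rw [tw_val, tw_val, ← map_one (C.ma π)]
    exact h3
  have h4 : π.comp Lam = π := 𝒢.ext _ _ _ (by
    have := fixh_ma π τ 𝒢.m
    rw [h1, inv_one, mul_one, ← hL] at this
    exact this)
  exact injective_of_jet I (RingHom.ker_ne_top _) (Lam : 𝒢.R →+* 𝒢.R) fun f =>
    Ideal.Quotient.eq.1 (DFunLike.congr_fun h4 f)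

/-- FIXH.  Paper 2.3.  Let `𝒢 : UR Λ`, `Lam = 𝒢.ev (m * (ft τ m)⁻¹)`.  It is integral (compare
`lang_integral` and /team-store/h24z_old_Desc.lean: the entries of `m`, `m⁻¹` generate `𝒢.R` by `ext`, and
the module generated by the monomials of degree `< p` in every variable is stable; alternatively
use valuation rings of the fraction field, `LocalSubring`/`iInf_valuationSubring_superset`) and
injective (`injective_of_jet` for the ideal of the point `1`); `lift_of_integral`. -/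
theorem lang [IsAlgClosed F] (Λ : C.Rel) {τ : Equiv.Perm C.I} (hτ : C.IsAut τ)
    (hΛ : ∀ a b, C.blk a = C.blk b → Λ.r a b → Λ.r (τ a) (τ b)) {h : GL C.I F}
    (hh : h ∈ C.Pat Λ F) : ∃ m ∈ C.Pat Λ F, h = m * (C.ft τ m)⁻¹ := by
  obtain ⟨𝒢⟩ := exists_UR (C := C) Λ
  have hL := 𝒢.ev_m (mul_mem 𝒢.mem (inv_mem (tw_pat (C.frob _) hτ hΛ 𝒢.mem)))
  obtain ⟨μ, hμ⟩ := lift_of_integral _ (fixh_inj 𝒢 τ _ hL) (fixh_int 𝒢 τ _ hL) (𝒢.ev h)
  refine ⟨C.ma μ 𝒢.m, Pat.map _ 𝒢.mem, ?_⟩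
  rw [← fixh_ma, ← hL, ← 𝒢.ev_m hh, ← hμ]
  rfl

theorem fixc_pow (τ : Equiv.Perm C.I) (n : ℕ) : ∃ k, τ⁻¹ ^ n = τ ^ (k + 1) := by
  have e : orderOf τ - 1 + 1 = orderOf τ := Nat.sub_add_cancel (orderOf_pos τ)
  have h : τ ^ (orderOf τ - 1) = τ⁻¹ :=
    eq_inv_of_mul_eq_one_left (by rw [← pow_succ, e, pow_orderOf_eq_one])
  exact ⟨(orderOf τ - 1) * n + (orderOf τ - 1), by
    rw [add_assoc, e, pow_add, pow_orderOf_eq_one, mul_one, pow_mul, h]⟩

theorem fixc_st : C.lvM.st isAut_σ.inv = C.L0 := by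
  have ext : ∀ Λ Λ' : C.Lv, (∀ a b, Λ.r a b ↔ Λ'.r a b) → Λ = Λ' := by
    rintro ⟨⟨r, _, _, _⟩, _⟩ ⟨⟨r', _, _, _⟩, _⟩ h
    obtain rfl : r = r' := funext fun a => funext fun b => propext (h a b)
    rfl
  refine ext _ _ fun a b => ⟨fun h n => ?_, fun h n => ?_⟩
  · obtain ⟨k, hk⟩ := fixc_pow C.σ⁻¹ n
    rw [inv_inv, pow_succ'] at hk
    rw [hk]
    exact h k
  · obtain ⟨k, hk⟩ := fixc_pow C.σ (n + 1)
    have h1 := h (k + 1)
    rw [← hk, pow_succ'] at h1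
    exact h1

/-- FIXC.  Paper 2.4: `lang` for `Bp ∩ L0`, then `exists_fix` for the `p`-th root, `σ⁻¹`, `lvM`, `rBp`. -/
theorem solv [IsAlgClosed F] {h : GL C.I F} (hh : h ∈ C.Bp F) :
    ∃ b y, C.E b y ∧ b ∈ C.U F ∧ h = b * y⁻¹ := by
  have hst : ∀ a b, C.blk a = C.blk b → (C.rBp.inf C.L0.toRel).r a b →
      (C.rBp.inf C.L0.toRel).r (C.σ a) (C.σ b) := fun a b hb h1 =>
    ⟨(C.σ_le hb).2 h1.1, (Lv.st_apply isAut_σ a b).2 h1.2⟩
  obtain ⟨m, hm, e⟩ := lang (C.rBp.inf C.L0.toRel) isAut_σ hst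
    (mem_inf.2 ⟨Lv.lev_pat ov0Bp hh hh, Lv.lev_mem ov0Bp hh⟩)
  have hm' := mem_inf.1 (tw_pat (C.frob F) isAut_σ hst hm)
  have hmU : m ∈ C.U F := Pat.mono (R := C.rBp.inf C.L0.toRel) (R' := C.rU)
    (fun a b _ h1 => ⟨h1.1, Lv.st_le isAut_σ h1.2⟩) hm
  replace hm := mem_inf.1 hm
  have h1 : m⁻¹ * h * C.ft C.σ m ∈ C.Bp F := mul_mem (mul_mem (inv_mem hm.1) hh) hm'.1
  have h2 : (C.lvM.st isAut_σ.inv).lev (m⁻¹ * h * C.ft C.σ m) = 1 := by
    rw [fixc_st, Lv.lev_mul ov0Bp (mul_mem (inv_mem hm.1) hh) hm'.1,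
      Lv.lev_mul ov0Bp (inv_mem hm.1) hh, e, Lv.lev_of_mem (inv_mem hm.2), Lv.lev_of_mem hm'.2]
    group
  let ρ := (RingEquiv.ofBijective (C.frob F) ⟨(C.frob F).injective, fun t =>
    IsAlgClosed.exists_pow_nat_eq t C.hp.pos⟩).symm
  have hρ : ∀ t, ρ t ^ C.p = t := fun t => ρ.symm_apply_apply t
  obtain ⟨w, ⟨w1, w2, -, w4⟩, -⟩ := exists_fix (ρ : F →+* F) isAut_σ.inv C.lvM (Or.inr rfl)
    (ovQ.mono fun _ _ hb h l => C.lq_of_le hb h l)
    (fun a b hb _ => by rw [← not_le, ← not_le]; exact not_congr (C.σ_symm_le hb.symm)) h1 h2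
  have hz : C.tw (ρ : F →+* F) C.σ⁻¹ w ∈ C.U F :=
    tw_pat _ isAut_σ.inv (R := C.rBp.inf C.rM) (R' := C.rU)
      (fun a b hb h => ⟨(C.σ_symm_le hb).2 h.1, h.2⟩) (mem_inf.2 ⟨w2, w1⟩)
  have hf : C.fr (C.tw (ρ : F →+* F) C.σ⁻¹ w) = w :=
    Units.ext (basicd_ext fun a b => (fr_val _ a b).trans (hρ _))
  generalize C.tw (ρ : F →+* F) C.σ⁻¹ w = z at w4 hz hf
  have hE : C.E z (z * (m⁻¹ * h * C.ft C.σ m)) := E_iff.2 ⟨L_le_P (U_le_L hz),
    Bp_le_Q (mul_mem (U_le_Bp hz) h1), by rw [lev_of_L (U_le_L hz), hf]; exact w4.symm⟩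
  refine ⟨_, _, (E.of_L (U_le_L hmU)).mul hE.inv, mul_mem hmU (inv_mem hz), ?_⟩
  rw [fr_eq_tw]
  group

/-- FIXC.  Paper 2.6. -/
theorem classify [IsAlgClosed F] {x : GL C.I F} (hx : x ∈ C.L F) (h : C.InN (x⁻¹ * C.fr x)) :
    ∃ γ ∈ C.Gam, (C.ct F γ)⁻¹ * x ∈ C.U F := by
  obtain ⟨r, b', h1, h2, h3, e⟩ := inN_iff.1 h
  obtain ⟨b, y, h4, h5, rfl⟩ := solv h3
  have h6 := E.of_P h1
  rw [h2, map_one] at h6
  have h7 := ((E.of_L hx).mul h6).mul h4
  have e1 : C.fr x * 1 * y = x * r * b := by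
    rw [inv_mul_eq_iff_eq_mul.1 e]
    group
  rw [e1] at h7
  obtain ⟨γ, hγ, e2⟩ := stab h7
  have e3 := congrArg C.lev e2
  rw [lev_mul_P (mul_mem (L_le_P hx) h1) h4.memP, lev_mul_P (L_le_P hx) h1, h2, lev_of_L hx,
    lev_of_L (U_le_L h5), lev_of_L (Pat.map (algebraMap C.k F) hγ.1), mul_one] at e3
  refine ⟨γ, hγ, ?_⟩
  have e4 : (C.ct F γ)⁻¹ * x = b⁻¹ := by
    rw [← e3]
    group
  rw [e4]
  exact inv_mem h5

theorem fixe_mon (s : C.Sp) : C.Mon (C.sw s.i s.j) (C.gb s (0 : F)) := by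
  refine ⟨gb_mem s 0, fun a b hab => ?_⟩
  change C.embM s (0 : F) (-1) 1 0 a b = 0
  simp only [embM, Matrix.of_apply, Prod.mk.injEq]
  split_ifs with h1 h2 h3 h4 h5 h6 h7
  · rfl
  · rfl
  · exact absurd (by rw [h3.1, h3.2, sw_right s.ne]) hab
  · exact absurd (by rw [h4.1, h4.2, sw_left s.ne]) hab
  · exact absurd (by rw [h5.1, h5.2, sw_rev_left s.ne]) hab
  · exact absurd (by rw [h6.1, h6.2, sw_rev_right s.ne]) hab
  · subst h7
    exact absurd (sw_other (fun e => h1 (Or.inl ⟨e, e⟩)) (fun e => h2 (Or.inl ⟨e, e⟩))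
      (fun e => h2 (Or.inr ⟨e, e⟩)) (fun e => h1 (Or.inr ⟨e, e⟩))).symm hab
  · rfl

theorem fixe_sq (s : C.Sp) (b : C.I) : (C.gb s (0 : F)).val (C.sw s.i s.j b) b ^ 2 = 1 := by
  have hu := ((fixe_mon (F := F) s).unit b).ne_zero
  change C.embM s (0 : F) (-1) 1 0 _ _ ≠ 0 at hu
  change C.embM s (0 : F) (-1) 1 0 _ _ ^ 2 = 1
  generalize C.sw s.i s.j b = a at hu ⊢
  simp only [embM, Matrix.of_apply, sg_eq] at hu ⊢
  split_ifs at hu ⊢
  all_goals first | exact absurd rfl hu | ring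

theorem fixe_conj (s : C.Sp) {h h' : GL C.I F} (e : h * C.gb s 0 = C.gb s 0 * h') (a b : C.I) :
    h.val (C.sw s.i s.j a) (C.sw s.i s.j b) ^ 2 = h'.val a b ^ 2 := by
  have h1 := congrArg (fun x : GL C.I F => x.val (C.sw s.i s.j a) b) e
  simp only [Units.val_mul] at h1
  rw [(fixe_mon s).mul_right, (fixe_mon s).mul_left] at h1
  have h2 := congrArg (· ^ 2) h1
  simp only [mul_pow] at h2
  rwa [fixe_sq, fixe_sq, mul_one, one_mul] at h2

theorem fixe_cyc (K : IntermediateField C.k F) (hK : ∀ x : F, IsAlgebraic K x → x ∈ K) {x : F}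
    {N : ℕ} (hN : 0 < N) (h : x ^ 2 = (x ^ C.p ^ N) ^ 2) : x ∈ K := by
  by_cases hx : x = 0
  · rw [hx]; exact zero_mem _
  have h1 : 1 < C.p ^ N := Nat.one_lt_pow hN.ne' C.hp.one_lt
  obtain ⟨q, hq⟩ : ∃ q, C.p ^ N = q + 1 + 1 := ⟨C.p ^ N - 2, by omega⟩
  refine hK x (IsAlgebraic.of_pow (n := 2 * (q + 1)) (by omega) ?_)
  have h2 : x ^ (2 * (q + 1)) = 1 := by
    apply mul_left_cancel₀ (pow_ne_zero 2 hx)
    rw [hq] at h
    linear_combination -h
  rw [h2]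
  exact isAlgebraic_one

theorem fixe_step {x y z : F} {n : ℕ} (h1 : y ^ 2 = (x ^ C.p ^ n) ^ 2)
    (h2 : z ^ 2 = (y ^ C.p) ^ 2) : z ^ 2 = (x ^ C.p ^ (n + 1)) ^ 2 := by
  rw [h2, ← pow_mul, mul_comm, pow_mul, h1, ← pow_mul, ← pow_mul, ← pow_mul]
  congr 1
  ring

theorem fixe_sqmem {R : Subring F} {x y : F} (h : y ^ 2 = x ^ 2) (hx : x ∈ R) : y ∈ R := by
  rcases sq_eq_sq_iff_eq_or_eq_neg.1 h with e | e <;> rw [e]
  · exact hx
  · exact neg_mem hx

/-- upper entries -/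
theorem fixe_up (K : IntermediateField C.k F) (hK : ∀ x : F, IsAlgebraic K x → x ∈ K)
    (H : C.I → C.I → F) (θ : Equiv.Perm C.I)
    (hb : ∀ a b, C.blk a = C.blk b → C.blk (θ a) = C.blk (θ b))
    (hm : ∀ a b, C.blk a = C.blk b → (C.lo a ↔ C.lo b) → a ≤ b → θ a ≤ θ b)
    (h1 : ∀ a b, (C.lo a ↔ C.lo b) → H (θ a) (θ b) ^ 2 = (H a b ^ C.p) ^ 2)
    (h2 : ∀ a b, C.lo a → ¬ C.lo b → H a b = 0) {a b : C.I} (hab : C.blk a = C.blk b)
    (hle : a ≤ b) : H a b ∈ K := by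
  have key : ∀ n : ℕ, H a b = 0 ∨ (C.blk ((θ ^ n) a) = C.blk ((θ ^ n) b) ∧ (θ ^ n) a ≤ (θ ^ n) b ∧
      H ((θ ^ n) a) ((θ ^ n) b) ^ 2 = (H a b ^ C.p ^ n) ^ 2) := by
    intro n
    induction n with
    | zero => exact Or.inr ⟨hab, hle, by simp⟩
    | succ n ih =>
      rcases ih with ih | ⟨i1, i2, i3⟩
      · exact Or.inl ih
      by_cases hl : C.lo ((θ ^ n) a) ↔ C.lo ((θ ^ n) b)
      · right
        rw [pow_succ', Equiv.Perm.mul_apply, Equiv.Perm.mul_apply]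
        exact ⟨hb _ _ i1, hm _ _ i1 hl i2, fixe_step i3 (h1 _ _ hl)⟩
      · left
        have h3 := C.lo_of_le i2
        rw [h2 _ _ (by tauto) (by tauto)] at i3
        have h4 : (H a b ^ C.p ^ n) ^ 2 = 0 := by rw [← i3]; ring
        exact eq_zero_of_pow_eq_zero (eq_zero_of_pow_eq_zero h4)
  rcases key (orderOf θ) with h | ⟨-, -, h⟩
  · rw [h]; exact zero_mem _
  · rw [pow_orderOf_eq_one] at h
    exact fixe_cyc K hK (orderOf_pos θ) h

/-- all entries lie in a ring containing the initial ones -/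
theorem fixe_back (K : IntermediateField C.k F) (hK : ∀ x : F, IsAlgebraic K x → x ∈ K)
    (H : C.I → C.I → F) (θ : Equiv.Perm C.I) (R : Subring F) (hR : ∀ x ∈ K, x ∈ R)
    (h1 : ∀ a b, H (θ a) (θ b) ∈ R ∨ H (θ a) (θ b) ^ 2 = (H a b ^ C.p) ^ 2) (a b : C.I) :
    H a b ∈ R := by
  have key : ∀ n : ℕ, H ((θ ^ n) a) ((θ ^ n) b) ∈ R ∨
      H ((θ ^ n) a) ((θ ^ n) b) ^ 2 = (H a b ^ C.p ^ n) ^ 2 := by
    intro n
    induction n with
    | zero => exact Or.inr (by simp)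
    | succ n ih =>
      rw [pow_succ', Equiv.Perm.mul_apply, Equiv.Perm.mul_apply]
      rcases h1 ((θ ^ n) a) ((θ ^ n) b) with h | h
      · exact Or.inl h
      rcases ih with ih | ih
      · exact Or.inl (fixe_sqmem h (pow_mem ih _))
      · exact Or.inr (fixe_step ih h)
  have h := key (orderOf θ)
  rw [pow_orderOf_eq_one] at h
  rcases h with h | h
  · exact h
  · exact hR _ (fixe_cyc K hK (orderOf_pos θ) h)

/-- values of polynomials with vanishing derivative -/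
def fixe_D (K : IntermediateField C.k F) (t : F) : Subring F where
  carrier := {x | ∃ f : Polynomial K, Polynomial.derivative f = 0 ∧ Polynomial.aeval t f = x}
  zero_mem' := ⟨0, by simp, by simp⟩
  one_mem' := ⟨1, by simp, by simp⟩
  add_mem' := by
    rintro _ _ ⟨f, h1, rfl⟩ ⟨g, h2, rfl⟩
    exact ⟨f + g, by rw [map_add, h1, h2, add_zero], map_add _ _ _⟩
  neg_mem' := by
    rintro _ ⟨f, h1, rfl⟩
    exact ⟨-f, by rw [map_neg, h1, neg_zero], map_neg _ _⟩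
  mul_mem' := by
    rintro _ _ ⟨f, h1, rfl⟩ ⟨g, h2, rfl⟩
    exact ⟨f * g, by rw [Polynomial.derivative_mul, h1, h2]; simp, map_mul _ _ _⟩

theorem fixe_D_K (K : IntermediateField C.k F) (t : F) {x : F} (hx : x ∈ K) : x ∈ fixe_D K t :=
  ⟨Polynomial.C ⟨x, hx⟩, Polynomial.derivative_C, by rw [Polynomial.aeval_C]; rfl⟩

theorem fixe_D_pow (K : IntermediateField C.k F) (t : F) (f : Polynomial K) :
    Polynomial.aeval t f ^ C.p ∈ fixe_D K t := by
  refine ⟨f ^ C.p, ?_, map_pow _ _ _⟩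
  rw [Polynomial.derivative_pow, C.p_eq_zero K, map_zero, zero_mul, zero_mul]

theorem fixe_D_alg (K : IntermediateField C.k F) {t x y : F} (hx : x ∈ fixe_D K t)
    (hy : y ∈ fixe_D K t) (h0 : x ≠ 0) (e : x * t = y) : IsAlgebraic K t := by
  obtain ⟨f, h1, rfl⟩ := hx
  obtain ⟨g, h2, rfl⟩ := hy
  refine ⟨f * Polynomial.X - g, fun h => h0 ?_, by rw [map_sub, map_mul, Polynomial.aeval_X, e,
    sub_self]⟩
  have h3 := congrArg Polynomial.derivative h
  rw [map_sub, Polynomial.derivative_mul, h1, h2, Polynomial.derivative_X, map_zero] at h3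
  have h4 : f = 0 := by linear_combination h3
  rw [h4, map_zero]

/-- FIXE.  Paper 5 (c): the stabiliser of `gb β 0` has dimension at most one.  Put `θ = sw ∘ σ`; then
`h (θ a) (θ b) = ± h a b ^ p` on pairs of `L`, `= 0` for `(a, b) = (hi, lo)`, and `h (lo, hi) = 0`.
The similitude satisfies `c = c ^ p`.  Diagonal and upper entries: go FORWARD along `θ` (upper pairs
stay upper until they hit a pair `(lo, hi)`), they are constants.  Lower entries: go BACKWARD, they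
are constants, `± t ^ p ^ e` or `± t' ^ p ^ e` with `t = h j i`, `t' = h i.rev j.rev = c * h⁻¹ j i`.
In the block of `β` only `e ≥ 1` occurs for `t'`, so `t' ∈ K(t' ^ p)` and `t'` is algebraic over `K`. -/
theorem ent_mem {β : C.Sp} (hβ : C.TopQ β) (K : IntermediateField C.k F)
    (hK : ∀ x : F, IsAlgebraic K x → x ∈ K) {h h' : GL C.I F} (he : C.E h h')
    (e : h * C.gb β 0 = C.gb β 0 * h') (h0 : h.val β.j β.i ∈ K) (a b : C.I) :
    h.val a b ∈ K ∧ h'⁻¹.val a b ∈ K := by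
  have hG : C.InG h := he.1.1
  have hG' : C.InG h' := he.2.1.1
  have hW := sw_isW β.ne β.h.1
  -- the similitude
  have s1 : C.sim h' = C.sim h := by
    have h1 := congrArg C.sim e
    have h2 : C.InG (C.gb β (0 : F)) := (gb_mem β 0).1
    rw [hG.sim_mul h2, h2.sim_mul hG', mul_comm] at h1
    exact (mul_left_cancel₀ h2.sim_unit.ne_zero h1).symm
  have s2 : C.sim h ∈ K := by
    have h1 := congrArg C.sim (E_iff.1 he).2.2
    rw [Lv.lev_sim ovQ he.memQ, fr_sim (lev_mem (Or.inl he.memP)).1, lev_sim (Or.inl he.memP),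
      s1] at h1
    exact fixe_cyc K hK one_pos (by rw [pow_one, ← h1])
  set θ : Equiv.Perm C.I := C.sw β.i β.j * C.σ with hθ
  have θa : ∀ a, θ a = C.sw β.i β.j (C.σ a) := fun _ => rfl
  have hb : ∀ a b, C.blk (θ a) = C.blk (θ b) ↔ C.blk a = C.blk b := fun a b => by
    rw [θa, θa, hW.1, hW.1, C.σ_blk]
  have r1 : ∀ a b, (C.lo a ↔ C.lo b) → h.val (θ a) (θ b) ^ 2 = (h.val a b ^ C.p) ^ 2 :=
    fun a b hl => by rw [θa, θa, fixe_conj β e, he.2.2 a b hl]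
  have r2 : ∀ a b, C.lo a → ¬ C.lo b → h.val a b = 0 := fun a b h1 h2 =>
    he.1.2 a b h1 (not_lt.1 h2)
  have r3 : ∀ a b, ¬ C.lo a → C.lo b → h.val (θ a) (θ b) = 0 := fun a b h1 h2 => by
    have h3 := fixe_conj β e (C.σ a) (C.σ b)
    rw [he.2.1.2 a b (not_lt.1 h1) h2, zero_pow two_ne_zero] at h3
    exact eq_zero_of_pow_eq_zero h3
  have hm : ∀ a b, C.blk a = C.blk b → (C.lo a ↔ C.lo b) → a ≤ b → θ a ≤ θ b := by
    intro a b h1 h2 h3
    rcases h3.eq_or_lt with rfl | h3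
    · exact le_rfl
    refine (sw_lt β ((C.σ_blk a b).2 h1) (C.σ_mono a b h1 h3) (fun e1 => ?_) fun e1 => ?_).le
    · obtain ⟨e2, e3⟩ := Prod.mk.inj e1
      have h4 := hβ.1
      have h5 := hβ.2
      rw [← e2, lq_σ] at h4
      rw [← e3, lq_σ] at h5
      exact h5 (h2.1 h4)
    · obtain ⟨e2, e3⟩ := Prod.mk.inj e1
      have h4 := (C.lq_rev β.j).2 hβ.2
      have h5 : ¬ C.lq β.i.rev := fun h => (C.lq_rev β.i).1 h hβ.1
      rw [← e2, lq_σ] at h4
      rw [← e3, lq_σ] at h5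
      exact h5 (h2.1 h4)
  have up : ∀ a b, C.blk a = C.blk b → a ≤ b → h.val a b ∈ K := fun a b h1 h2 =>
    fixe_up K hK h.val θ (fun a b => (hb a b).2) hm r1 r2 h1 h2
  -- one step back
  have back : ∀ a b, h.val (θ a) (θ b) ∈ K ∨ (θ a = β.i.rev ∧ θ b = β.j.rev) ∨
      h.val (θ a) (θ b) ^ 2 = (h.val a b ^ C.p) ^ 2 := by
    intro a b
    by_cases hl : C.lo a ↔ C.lo b
    · exact Or.inr (Or.inr (r1 a b hl))
    by_cases h1 : C.lo a
    swap
    · left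
      rw [r3 a b h1 (by tauto)]
      exact zero_mem _
    by_cases h2 : C.blk a = C.blk b
    swap
    · left
      rw [hG.1 _ _ fun h3 => h2 ((hb a b).1 h3)]
      exact zero_mem _
    have h3 : a < b := C.lt_of_lo h1 (by tauto)
    by_cases e1 : (C.σ a, C.σ b) = (β.i, β.j)
    · obtain ⟨e2, e3⟩ := Prod.mk.inj e1
      left
      rw [θa, θa, e2, e3, sw_left β.ne, sw_right β.ne]
      exact h0
    by_cases e4 : (C.σ a, C.σ b) = (β.j.rev, β.i.rev)
    · obtain ⟨e2, e3⟩ := Prod.mk.inj e4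
      right; left
      rw [θa, θa, e2, e3, sw_rev_left β.ne, sw_rev_right β.ne]
      exact ⟨rfl, rfl⟩
    exact Or.inl (up _ _ ((hb a b).2 h2)
      (sw_lt β ((C.σ_blk a b).2 h2) (C.σ_mono a b h2 h3) e1 e4).le)
  have all : ∀ R : Subring F, (∀ x ∈ K, x ∈ R) → h.val β.i.rev β.j.rev ∈ R →
      ∀ a b, h.val a b ∈ R := fun R h1 h2 =>
    fixe_back K hK h.val θ R h1 fun a b => by
      rcases back a b with h3 | h3 | h3
      · exact Or.inl (h1 _ h3)
      · left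
        rw [h3.1, h3.2]
        exact h2
      · exact Or.inr h3
  have ht : h.val β.i.rev β.j.rev ∈ K := by
    generalize hteq : h.val β.i.rev β.j.rev = t at all
    have a1 : ∀ a b, ∃ f : Polynomial K, Polynomial.aeval t f = h.val a b :=
      all (Polynomial.aeval (R := K) t).range.toSubring
        (fun x hx => ⟨Polynomial.C ⟨x, hx⟩, Polynomial.aeval_C _ _⟩)
        ⟨Polynomial.X, Polynomial.aeval_X _⟩
    have a2 : ∀ a b, ¬ (a = β.i.rev ∧ b = β.j.rev) → h.val a b ∈ fixe_D K t := by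
      intro a b hne
      obtain ⟨a, rfl⟩ := θ.surjective a
      obtain ⟨b, rfl⟩ := θ.surjective b
      rcases back a b with h3 | h3 | h3
      · exact fixe_D_K K t h3
      · exact absurd h3 hne
      · obtain ⟨f, hf⟩ := a1 a b
        exact fixe_sqmem h3 (hf ▸ fixe_D_pow K t f)
    obtain ⟨c, hc⟩ : ∃ c, h.val c β.j ≠ 0 := by
      by_contra hn
      push Not at hn
      have h1 := congrFun (congrFun h.inv_mul β.j) β.j
      rw [Matrix.mul_apply, Matrix.one_apply_eq, Finset.sum_eq_zero fun c _ => by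
        rw [hn, mul_zero]] at h1
      exact zero_ne_one h1
    have hci : c ≠ β.i.rev := by
      refine C.ne_rev ?_
      by_contra h1
      exact hc (hG.1 _ _ fun h2 => h1 (h2.trans β.h.1.symm))
    have h1 := congrFun (congrFun hG.mul_adj c) β.i
    rw [Matrix.mul_apply, ← Finset.add_sum_erase _ _ (Finset.mem_univ β.j), adj_ent, hteq] at h1
    refine hK t (fixe_D_alg K (a2 c β.j fun h2 => hci h2.1) ?_ hc (eq_sub_of_add_eq h1))
    refine sub_mem (fixe_D_K K t ?_) (sum_mem fun m hm => mul_mem (a2 _ _ fun h2 => hci h2.1) ?_)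
    · rw [Matrix.smul_apply, smul_eq_mul, Matrix.one_apply]
      split_ifs
      · exact mul_mem s2 (one_mem _)
      · exact mul_mem s2 (zero_mem _)
    · rw [adj_ent]
      exact a2 _ _ fun h2 => Finset.ne_of_mem_erase hm (Fin.rev_injective h2.2)
  have fin : ∀ a b, h.val a b ∈ K := all K.toSubfield.toSubring (fun _ hx => hx) ht
  refine ⟨fin a b, ?_⟩
  have h1 := congrFun (congrFun hG'.adj_eq a) b
  rw [adj_ent, Matrix.smul_apply, smul_eq_mul, s1] at h1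
  have h2 : h'.val b.rev a.rev ∈ K :=
    fixe_sqmem (R := K.toSubfield.toSubring) (fixe_conj β e _ _).symm (fin _ _)
  have h3 : h'⁻¹.val a b = (C.sim h)⁻¹ * h'.val b.rev a.rev := by
    rw [h1, inv_mul_cancel_left₀ hG.sim_unit.ne_zero]
  rw [h3]
  exact mul_mem (inv_mem s2) h2

end Field

end Ctx

end Pool.Agent.MP_b8b722_ag
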