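import Pool.Agent.MP_b8b722_ag.A6
import Pool.Agent.MP_b8b722_ag.A5

attribute [-instance] CommGroup.toDivisionCommMonoid littleWedderburn
  NonUnitalAlgHomClass.toNonUnitalRingHomClass NormedAlgebra.toAlgebra SemigroupWithZero.toSemigroup
  LieAdmissibleAlgebra.toModule MonTypeEquivalenceMon.monMonoid RightPreLieAlgebra.toModule
  LieAlgebra.toModule LeftPreLieAlgebra.toModule RingConeClass.toSubsemiringClass
  SemilinearMapClass.distribMulActionSemiHomClass RKHS.instFunLike IdemCommSemiring.toCommSemiring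
  NeZero.charZero_one instCoeTCOfCoe IsLocalRing.ResidueField.algebraOfIsIntegral
  SubringClass.toSubsemiringClass KleeneAlgebra.toIdemSemiring NormedSpace.toModule
  IdemCommSemiring.toIdemSemiring NormedField.toField
  instNonUnitalAlgHomClassOfNonUnitalAlgEquivClass Bialgebra.toAlgebra GradedMonoid.GradeZero.monoid
  LieAdmissibleAlgebra.toIsScalarTower GradedMonoid.GradeZero.commMonoid instCharZeroOfIsSemireal
  DivisionRing.toDivisionSemiring MulSemiringAction.toDistribMulAction BialgHomClass.toMonoidHomClass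
  UniformSpace.toTopologicalSpace GroupConeClass.toSubmonoidClass BialgHomClass.toAlgHomClass
  ContinuousSemilinearMapClass.toSemilinearMapClass RightPreLieAlgebra.toIsScalarTower
  LeftPreLieAlgebra.toIsScalarTower GroupWithZero.toDivisionMonoid TestFunctionClass.toDFunLike
  Units.instPartialOrderUnits ContDiffMapSupportedInClass.toDFunLike
  CategoryTheory.CommGrpObj.toGrpObj AlgEquivClass.toAlgHomClass
  RingEquivClass.toNonUnitalRingHomClass CoalgHomClass.toSemilinearMapClass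
  ValuationClass.toMonoidWithZeroHomClass IsLocalRing.ResidueField.instIsScalarTower_1
  NormMulClass.toNoZeroDivisors instIsDedekindFiniteMonoidOfFinite
  IsLocalRing.ResidueField.instIsScalarTower instCoeTOfCoeDep FloorSemiring.instCharZero
  MulSemiringActionSemiHomClass.toRingHomClass LieRinehartAlgebra.toIsScalarTower
  MulCharClass.toMonoidHomClass

section partPts

/-!
Points of the Bott-Samelson tower over a zip, and its charts.
-/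

set_option linter.unusedSectionVars false
set_option linter.unusedVariables false

open Matrix

noncomputable section

namespace Pool.Agent.MP_b8b722_ag

namespace Ctx

variable (C : Ctx)

/-- a frame `x` (modulo `B` on the right) and a chain `Q n` (modulo `B` on the left) -/
structure Pt (S : Type) [CommRing S] where
  x : GL C.I S
  Q : ℕ → GL C.I S

variable {C} {S S' : Type} [CommRing S] [CommRing S'] [Algebra C.k S] [Algebra C.k S']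

def Pt.map (f : S →ₐ[C.k] S') (ω : C.Pt S) : C.Pt S' := ⟨C.ma f ω.x, fun n => C.ma f (ω.Q n)⟩

/-- action of the zip group -/
def Pt.act (x₀ y₀ : GL C.I S) (ω : C.Pt S) : C.Pt S := ⟨x₀ * ω.x, fun n => ω.Q n * y₀⁻¹⟩

theorem Pt.map_map {S'' : Type} [CommRing S''] [Algebra C.k S''] (f : S →ₐ[C.k] S')
    (f' : S' →ₐ[C.k] S'') (ω : C.Pt S) : (ω.map f).map f' = ω.map (f'.comp f) := rfl

theorem Pt.map_id (ω : C.Pt S) : ω.map (AlgHom.id C.k S) = ω := rfl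

theorem Pt.map_act (f : S →ₐ[C.k] S') (x₀ y₀ : GL C.I S) (ω : C.Pt S) :
    (ω.act x₀ y₀).map f = (ω.map f).act (C.ma f x₀) (C.ma f y₀) := by
  simp only [map, act, map_mul, map_inv]

theorem Pt.act_act (x y x' y' : GL C.I S) (ω : C.Pt S) :
    (ω.act x y).act x' y' = ω.act (x' * x) (y' * y) := by
  simp [Pt.act, mul_assoc]

theorem Pt.act_one (ω : C.Pt S) : ω.act 1 1 = ω := by
  simp [Pt.act]

namespace Wd

variable (W : C.Wd)

/-- the `n`-th step of the chain -/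
def step (ω : C.Pt S) (n : Fin W.d) : GL C.I S := ω.Q n * (ω.Q (n + 1))⁻¹

/-- the entry of the step that vanishes on the boundary divisor `n` -/
def ent (ω : C.Pt S) (n : Fin W.d) : S := (W.step ω n).val (W.s n).i (W.s n).j

structure IsPt (g : GL C.I S) (ω : C.Pt S) : Prop where
  memP : ω.x ∈ C.P S
  memG : ∀ n ≤ W.d, ω.Q n ∈ C.G S
  last : ω.Q W.d * C.fr (C.lev ω.x) * W.zd S ∈ C.B S
  step : ∀ n, W.step ω n ∈ C.Ps (W.s n) S
  first : ω.x⁻¹ * g * (ω.Q 0)⁻¹ ∈ C.B S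

def Eqv (ω ω' : C.Pt S) : Prop :=
  ω.x⁻¹ * ω'.x ∈ C.B S ∧ ∀ n ≤ W.d, ω'.Q n * (ω.Q n)⁻¹ ∈ C.B S

/-- the point with frame `a` and chain coordinates `t` -/
def mkPt (a : GL C.I S) (ε : Fin W.d → Bool) (t : Fin W.d → S) : C.Pt S :=
  ⟨a, fun n => C.suf (fun m => C.X (W.s m) (ε m) (t m)) n * (C.fr a * W.zd S)⁻¹⟩

/-- index of a chart -/
structure Ch where
  π : Equiv.Perm C.I
  hπ : C.IsWL π
  ε : Fin W.d → Bool

variable {W}

def Ch.pt (c : W.Ch) (u : GL C.I S) (t : Fin W.d → S) : C.Pt S := W.mkPt (C.pm S c.π * u) c.ε t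

/-- the element of `B` attached to a point -/
def bOf (g : GL C.I S) (ω : C.Pt S) : GL C.I S := ω.x⁻¹ * g * (ω.Q 0)⁻¹

def Ch.IsChart (c : W.Ch) (g u : GL C.I S) (t : Fin W.d → S) : Prop :=
  C.IsU u ∧ bOf g (c.pt u t) ∈ C.B S

theorem Eqv.refl (ω : C.Pt S) : W.Eqv ω ω := ⟨by simp, fun _ _ => by simp⟩

theorem Eqv.symm {ω ω' : C.Pt S} (h : W.Eqv ω ω') : W.Eqv ω' ω :=
  ⟨by simpa using inv_mem h.1, fun n hn => by simpa using inv_mem (h.2 n hn)⟩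

theorem Eqv.trans {ω ω' ω'' : C.Pt S} (h : W.Eqv ω ω') (h' : W.Eqv ω' ω'') : W.Eqv ω ω'' :=
  ⟨by simpa only [mul_assoc, mul_inv_cancel_left] using mul_mem h.1 h'.1,
    fun n hn => by simpa only [mul_assoc, inv_mul_cancel_left] using mul_mem (h'.2 n hn) (h.2 n hn)⟩

theorem Eqv.map (f : S →ₐ[C.k] S') {ω ω' : C.Pt S} (h : W.Eqv ω ω') :
    W.Eqv (ω.map f) (ω'.map f) := by
  refine ⟨?_, fun n hn => ?_⟩
  · simpa only [Pt.map, map_mul, map_inv] using Pat.map (f : S →+* S') h.1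
  · simpa only [Pt.map, map_mul, map_inv] using Pat.map (f : S →+* S') (h.2 n hn)

theorem Eqv.of_map (f : S →ₐ[C.k] S') (hf : Function.Injective f) {ω ω' : C.Pt S}
    (h : W.Eqv (ω.map f) (ω'.map f)) : W.Eqv ω ω' := by
  refine ⟨Pat.of_map (f : S →+* S') hf ?_, fun n hn => Pat.of_map (f : S →+* S') hf ?_⟩
  · simpa only [map_mul, map_inv, Pt.map] using h.1
  · simpa only [map_mul, map_inv, Pt.map] using h.2 n hn

theorem Eqv.act (x₀ y₀ : GL C.I S) {ω ω' : C.Pt S} (h : W.Eqv ω ω') :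
    W.Eqv (ω.act x₀ y₀) (ω'.act x₀ y₀) := by
  refine ⟨?_, fun n hn => ?_⟩
  · simpa [Pt.act, mul_assoc] using h.1
  · simpa [Pt.act, mul_assoc] using h.2 n hn

theorem ptsa_step_map (f : S →ₐ[C.k] S') (ω : C.Pt S) (n : Fin W.d) :
    W.step (ω.map f) n = C.ma f (W.step ω n) := by
  simp only [step, Pt.map, map_mul, map_inv]

theorem ptsa_step_act (x₀ y₀ : GL C.I S) (ω : C.Pt S) (n : Fin W.d) :
    W.step (ω.act x₀ y₀) n = W.step ω n := by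
  simp [step, Pt.act, mul_assoc]

theorem IsPt.map (f : S →ₐ[C.k] S') {g : GL C.I S} {ω : C.Pt S} (h : W.IsPt g ω) :
    W.IsPt (C.ma f g) (ω.map f) := by
  refine ⟨Pat.map _ h.memP, fun n hn => Pat.map _ (h.memG n hn), ?_, fun n => ?_, ?_⟩
  · have h1 := Pat.map (f : S →+* S') h.last
    rw [map_mul, map_mul, ← fr_mp, ← lev_mp _ (Or.inl h.memP), zd_mp] at h1
    exact h1
  · rw [ptsa_step_map]
    exact Pat.map _ (h.step n)
  · simpa only [Pt.map, map_mul, map_inv] using Pat.map (f : S →+* S') h.first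

theorem IsPt.act {g x₀ y₀ : GL C.I S} {ω : C.Pt S} (h : W.IsPt g ω) (he : C.E x₀ y₀) :
    W.IsPt (x₀ * g * y₀⁻¹) (ω.act x₀ y₀) := by
  refine ⟨mul_mem he.memP h.memP, fun n hn => mul_mem (h.memG n hn) (Pat.le_G (inv_mem he.memQ)),
    ?_, fun n => ?_, ?_⟩
  · have hy := he.memQ
    have hm : C.lq' y₀ ∈ C.M S := Lv.lev_mem ovQ hy
    have hv : y₀⁻¹ * C.lq' y₀ ∈ C.Q S := mul_mem (inv_mem hy) (M_le_Q hm)
    have hl : C.fr (C.lev ω.x) ∈ C.M S := fr_L (lev_mem (Or.inl h.memP))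
    have h1 : C.lq' (y₀⁻¹ * C.lq' y₀) = 1 := by
      rw [lq', Lv.lev_mul ovQ (inv_mem hy) (M_le_Q hm), Lv.lev_inv ovQ hy,
        Lv.lev_of_mem (Λ := C.lvM) hm, inv_mul_cancel]
    have hz : (C.fr (C.lev ω.x))⁻¹ * (y₀⁻¹ * C.lq' y₀) * C.fr (C.lev ω.x) ∈ C.Z S := by
      have hq := mul_mem (inv_mem (M_le_Q hl)) hv
      refine mem_Z_of_lev (mul_mem hq (M_le_Q hl)) ?_
      rw [lq', Lv.lev_mul ovQ hq (M_le_Q hl), Lv.lev_mul ovQ (inv_mem (M_le_Q hl)) hv,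
        show C.lvM.lev (y₀⁻¹ * C.lq' y₀) = 1 from h1,
        Lv.lev_of_mem (Λ := C.lvM) (inv_mem hl), Lv.lev_of_mem (Λ := C.lvM) hl, mul_one,
        inv_mul_cancel]
      exact one_mem _
    have h2 := mul_mem h.last (W.conj_Z hz)
    have e : (ω.act x₀ y₀).Q W.d * C.fr (C.lev (ω.act x₀ y₀).x) * W.zd S =
        ω.Q W.d * C.fr (C.lev ω.x) * W.zd S * ((W.zd S)⁻¹ *
          ((C.fr (C.lev ω.x))⁻¹ * (y₀⁻¹ * C.lq' y₀) * C.fr (C.lev ω.x)) * W.zd S) := by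
      change ω.Q W.d * y₀⁻¹ * C.fr (C.lev (x₀ * ω.x)) * W.zd S = _
      rw [lev_mul_P he.memP h.memP, map_mul, ← (E_iff.1 he).2.2]
      group
    rw [e]
    exact h2
  · rw [ptsa_step_act]
    exact h.step n
  · simpa [Pt.act, mul_assoc] using h.first

theorem ent_map (f : S →ₐ[C.k] S') (ω : C.Pt S) (n : Fin W.d) :
    W.ent (ω.map f) n = f (W.ent ω n) := by
  rw [ent, ptsa_step_map]
  rfl

theorem ent_act (x₀ y₀ : GL C.I S) (ω : C.Pt S) (n : Fin W.d) :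
    W.ent (ω.act x₀ y₀) n = W.ent ω n := by
  rw [ent, ptsa_step_act]
  rfl

theorem Eqv.ent {g : GL C.I S} {ω ω' : C.Pt S} (h : W.Eqv ω ω') (hω : W.IsPt g ω) (n : Fin W.d) :
    ∃ v : Sˣ, W.ent ω' n = v * W.ent ω n := by
  have hb := h.2 n n.2.le
  have hb' := inv_mem (h.2 (n + 1) n.2)
  have hy := hω.step n
  have e : W.step ω' n = ω'.Q n * (ω.Q n)⁻¹ * (W.step ω n * (ω'.Q (n + 1) * (ω.Q (n + 1))⁻¹)⁻¹) := by
    simp only [step]
    group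
  have hA : (W.s n).arr.A (W.s n).i (W.s n).j := Or.inl rfl
  have hlt : ¬ C.rB.r (W.s n).i (W.s n).j := not_le.2 (W.s n).h.2.1
  obtain ⟨u1, e1⟩ := B.diag_unit hb (W.s n).i
  obtain ⟨u2, e2⟩ := B.diag_unit hb' (W.s n).j
  refine ⟨u1 * u2, ?_⟩
  have e3 := PA.mul_ent (B_le_PA hb) (mul_mem hy (B_le_PA hb')) hA (Or.inl rfl) (Or.inr rfl)
  have e4 := PA.mul_ent hy (B_le_PA hb') hA (Or.inl rfl) (Or.inr rfl)
  rw [e4, hb.2 _ _ hlt, hb'.2 _ _ hlt, ← e1, ← e2, ← e] at e3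
  change _ = (u1 : S) * u2 * _
  rw [Wd.ent, Wd.ent, e3]
  ring

theorem mkPt_map (f : S →ₐ[C.k] S') (a : GL C.I S) (ε : Fin W.d → Bool) (t : Fin W.d → S) :
    (W.mkPt a ε t).map f = W.mkPt (C.ma f a) ε fun n => f (t n) := by
  simp only [mkPt, Pt.map, map_mul, map_inv, suf_mp, X_mp, zd_mp, fr_mp]
  rfl

theorem step_mkPt (a : GL C.I S) (ε : Fin W.d → Bool) (t : Fin W.d → S) (n : Fin W.d) :
    W.step (W.mkPt a ε t) n = C.X (W.s n) (ε n) (t n) := by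
  simp only [step, mkPt]
  rw [suf_succ]
  group

theorem ent_mkPt (a : GL C.I S) (ε : Fin W.d → Bool) (t : Fin W.d → S) (n : Fin W.d) :
    W.ent (W.mkPt a ε t) n = Tv (ε n) (t n) := by
  rw [ent, step_mkPt, X_ij]

theorem ptsa_last (a : GL C.I S) (ε : Fin W.d → Bool) (t : Fin W.d → S) :
    (W.mkPt a ε t).Q W.d = (C.fr a * W.zd S)⁻¹ := by
  simp only [mkPt]
  rw [suf_last _ le_rfl, one_mul]

theorem isPt_mkPt {g a : GL C.I S} (ha : a ∈ C.L S) {ε : Fin W.d → Bool} {t : Fin W.d → S}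
    (h : bOf g (W.mkPt a ε t) ∈ C.B S) : W.IsPt g (W.mkPt a ε t) := by
  refine ⟨L_le_P ha, fun n hn => ?_, ?_, fun n => ?_, h⟩
  · exact mul_mem (suf_mem (fun m => Pat.le_G (X_mem _ _ _)) n)
      (inv_mem (mul_mem (fr_G (Pat.le_G ha)) W.zd_mem))
  · rw [ptsa_last]
    change (C.fr a * W.zd S)⁻¹ * C.fr (C.lev a) * W.zd S ∈ C.B S
    rw [lev_of_L ha, mul_assoc, inv_mul_cancel]
    exact one_mem _
  · rw [step_mkPt]
    exact X_mem _ _ _

theorem Ch.pt_map (c : W.Ch) (f : S →ₐ[C.k] S') (u : GL C.I S) (t : Fin W.d → S) :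
    (c.pt u t).map f = c.pt (C.ma f u) fun n => f (t n) := by
  rw [Ch.pt, Ch.pt, mkPt_map, map_mul, pm_mp]

theorem Ch.frame_mem (c : W.Ch) {u : GL C.I S} (hu : C.IsU u) : C.pm S c.π * u ∈ C.L S :=
  mul_mem (pm_mem c.hπ) (U_le_L hu.1)

theorem Ch.IsChart.isPt {c : W.Ch} {g u : GL C.I S} {t : Fin W.d → S} (h : c.IsChart g u t) :
    W.IsPt g (c.pt u t) := isPt_mkPt (c.frame_mem h.1) h.2

theorem bOf_map (f : S →ₐ[C.k] S') (g : GL C.I S) (ω : C.Pt S) :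
    bOf (C.ma f g) (ω.map f) = C.ma f (bOf g ω) := by
  simp only [bOf, Pt.map, map_mul, map_inv]

theorem Ch.IsChart.map (f : S →ₐ[C.k] S') {c : W.Ch} {g u : GL C.I S} {t : Fin W.d → S}
    (h : c.IsChart g u t) : c.IsChart (C.ma f g) (C.ma f u) fun n => f (t n) := by
  refine ⟨h.1.map _, ?_⟩
  rw [← Ch.pt_map, bOf_map]
  exact Pat.map _ h.2

/-- the last coset only depends on the frame modulo `B` -/
theorem IsPt.last_eqv {g g' : GL C.I S} {ω ω' : C.Pt S} (h : W.IsPt g ω) (h' : W.IsPt g' ω')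
    (hx : ω.x⁻¹ * ω'.x ∈ C.B S) : ω'.Q W.d * (ω.Q W.d)⁻¹ ∈ C.B S := by
  have hP := mul_mem (inv_mem h.memP) h'.memP
  have hl : C.lev (ω.x⁻¹ * ω'.x) = (C.lev ω.x)⁻¹ * C.lev ω'.x := by
    rw [lev_mul_P (inv_mem h.memP) h'.memP, lev_inv (Or.inl h.memP)]
  have hz : C.fr (C.lev (ω.x⁻¹ * ω'.x)) ∈ C.Z S :=
    mem_Z_of (fr_L (lev_mem (Or.inl hP))) (fr_B (lev_pat (Or.inl hP) hx))
  have h3 := mul_mem (mul_mem h'.last (W.conj_Z (inv_mem hz))) (inv_mem h.last)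
  rw [hl, map_mul, map_inv] at h3
  convert h3 using 1
  group

theorem IsPt.first_eqv {g : GL C.I S} {ω ω' : C.Pt S} (h : W.IsPt g ω) (h' : W.IsPt g ω')
    (hx : ω.x⁻¹ * ω'.x ∈ C.B S) : ω'.Q 0 * (ω.Q 0)⁻¹ ∈ C.B S := by
  have h3 := mul_mem (mul_mem (inv_mem h'.first) (inv_mem hx)) h.first
  convert h3 using 1
  group

/-- coordinates in a chart are unique -/
theorem Ch.uniq {c : W.Ch} {u u' : GL C.I S} {t t' : Fin W.d → S} (hu : C.IsU u) (hu' : C.IsU u')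
    (h : W.Eqv (c.pt u t) (c.pt u' t')) : u = u' ∧ t = t' := by
  have e : u = u' := U_uniq hu hu' (by simpa [Ch.pt, mkPt, mul_assoc] using h.1)
  subst e
  refine ⟨rfl, ?_⟩
  have key : ∀ n ≤ W.d, (c.pt u t').Q n = (c.pt u t).Q n ∧ ∀ m : Fin W.d, n ≤ m → t m = t' m := by
    intro n hn
    refine down_ind (Φ := fun n => (c.pt u t').Q n = (c.pt u t).Q n ∧
      ∀ m : Fin W.d, n ≤ m → t m = t' m) ?_ ?_ hn
    · exact ⟨by rw [Ch.pt, Ch.pt, ptsa_last, ptsa_last], fun m hm => absurd m.2 (not_lt.2 hm)⟩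
    · intro m hm
      have s1 : W.step (c.pt u t) m = _ := step_mkPt _ _ _ m
      have s2 : W.step (c.pt u t') m = _ := step_mkPt _ _ _ m
      have e : C.X (W.s m) (c.ε m) (t' m) =
          (c.pt u t').Q m * ((c.pt u t).Q m)⁻¹ * C.X (W.s m) (c.ε m) (t m) := by
        rw [← s1, ← s2, step, step, hm.1]
        group
      obtain ⟨e1, e2⟩ := X_uniq (h.2 m m.2.le) e
      refine ⟨mul_inv_eq_one.1 e2, fun k hk => ?_⟩
      rcases hk.eq_or_lt with hk | hk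
      · rw [← Fin.ext hk, e1]
      · exact hm.2 k hk
  exact funext fun m => (key 0 (Nat.zero_le _)).2 m (Nat.zero_le _)

theorem ptsb_suf_congr {d : ℕ} {x x' : Fin d → GL C.I S} {n : ℕ} (hn : n ≤ d) :
    (∀ m : Fin d, n ≤ m → x m = x' m) → C.suf x n = C.suf x' n := by
  refine down_ind (Φ := fun n => (∀ m : Fin d, n ≤ m → x m = x' m) → C.suf x n = C.suf x' n)
    (fun _ => by rw [suf_last x le_rfl, suf_last x' le_rfl]) (fun m ih h => ?_) hn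
  rw [suf_succ, suf_succ, h m le_rfl, ih fun m' hm' => h m' (by omega)]

theorem ptsb_Q_congr (a : GL C.I S) {ε ε' : Fin W.d → Bool} {t t' : Fin W.d → S} {n : ℕ}
    (hn : n ≤ W.d) (h : ∀ m : Fin W.d, n ≤ m → ε m = ε' m ∧ t m = t' m) :
    (W.mkPt a ε t).Q n = (W.mkPt a ε' t').Q n := by
  simp only [mkPt]
  rw [ptsb_suf_congr hn fun m hm => by rw [(h m hm).1, (h m hm).2]]

theorem ptsb_Q_succ (a : GL C.I S) (ε : Fin W.d → Bool) (t : Fin W.d → S) (n : Fin W.d) :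
    (W.mkPt a ε t).Q n = C.X (W.s n) (ε n) (t n) * (W.mkPt a ε t).Q (n + 1) := by
  simp only [mkPt]
  rw [suf_succ, mul_assoc]

/-- construction of chain coordinates by downward induction -/
theorem ptsb_chain {g a : GL C.I S} {ω : C.Pt S} (hω : W.IsPt g ω) (ha : a ∈ C.L S)
    (hx : ω.x⁻¹ * a ∈ C.B S) (Φ : Fin W.d → Bool → S → Prop)
    (hΦ : ∀ (n : Fin W.d) (ε : Fin W.d → Bool) (t : Fin W.d → S),
      (∀ m : Fin W.d, n.val + 1 ≤ m → Φ m (ε m) (t m)) →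
      ω.Q n * ((W.mkPt a ε t).Q (n + 1))⁻¹ ∈ C.Ps (W.s n) S →
      ∃ e τ, Φ n e τ ∧ ω.Q n * ((W.mkPt a ε t).Q (n + 1))⁻¹ * (C.X (W.s n) e τ)⁻¹ ∈ C.B S) :
    ∃ ε t, (∀ n, Φ n (ε n) (t n)) ∧ W.Eqv ω (W.mkPt a ε t) ∧ bOf g (W.mkPt a ε t) ∈ C.B S := by
  classical
  have key : ∃ (ε : Fin W.d → Bool) (t : Fin W.d → S), (∀ m : Fin W.d, 0 ≤ m.val → Φ m (ε m) (t m)) ∧
      ∀ m, 0 ≤ m → m ≤ W.d → (W.mkPt a ε t).Q m * (ω.Q m)⁻¹ ∈ C.B S := by
    refine down_ind (Φ := fun n => ∃ (ε : Fin W.d → Bool) (t : Fin W.d → S),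
      (∀ m : Fin W.d, n ≤ m.val → Φ m (ε m) (t m)) ∧
      ∀ m, n ≤ m → m ≤ W.d → (W.mkPt a ε t).Q m * (ω.Q m)⁻¹ ∈ C.B S) ?_ ?_ (Nat.zero_le W.d)
    · refine ⟨fun _ => true, fun _ => 0, fun m hm => absurd m.isLt (by omega), fun m h1 h2 => ?_⟩
      obtain rfl : m = W.d := le_antisymm h2 h1
      have hP : ω.x⁻¹ ∈ C.P S := inv_mem hω.memP
      have h3 : (C.lev ω.x)⁻¹ * a = C.lev (ω.x⁻¹ * a) := by
        rw [lev_mul_P hP (L_le_P ha), lev_inv (Or.inl hω.memP), lev_of_L ha]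
      have h4 : C.fr ((C.lev ω.x)⁻¹ * a) ∈ C.Z S := by
        rw [h3]
        exact mem_Z_of (fr_L (lev_mem (Or.inl (B_le_P hx)))) (fr_B (lev_pat (Or.inl (B_le_P hx)) hx))
      have h5 := inv_mem (mul_mem hω.last (W.conj_Z h4))
      simp only [mkPt]
      rw [suf_last _ le_rfl]
      convert h5 using 1
      rw [map_mul, map_inv]
      group
    · rintro n ⟨ε, t, h1, h2⟩
      have hn : n.val + 1 ≤ W.d := n.isLt
      have h3 : ω.Q n * ((W.mkPt a ε t).Q (n + 1))⁻¹ ∈ C.Ps (W.s n) S := by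
        have := mul_mem (hω.step n) (B_le_PA (inv_mem (h2 (n + 1) le_rfl hn)))
        convert this using 1
        simp only [step]
        group
      obtain ⟨e, τ, h4, h5⟩ := hΦ n ε t h1 h3
      have hc : ∀ m, n.val + 1 ≤ m → m ≤ W.d →
          (W.mkPt a (Function.update ε n e) (Function.update t n τ)).Q m = (W.mkPt a ε t).Q m :=
        fun m hm hm' => ptsb_Q_congr a hm' fun m' h' => by
          have : m' ≠ n := fun h => by rw [h] at h'; omega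
          rw [Function.update_of_ne this, Function.update_of_ne this]
          exact ⟨rfl, rfl⟩
      refine ⟨Function.update ε n e, Function.update t n τ, fun m hm => ?_, fun m hm hm' => ?_⟩
      · by_cases h : m = n
        · rw [h, Function.update_self, Function.update_self]
          exact h4
        · rw [Function.update_of_ne h, Function.update_of_ne h]
          exact h1 m (by have := Fin.val_ne_of_ne h; omega)
      · rcases Nat.eq_or_lt_of_le hm with h | h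
        · rw [← h, ptsb_Q_succ, hc _ le_rfl hn, Function.update_self, Function.update_self]
          convert inv_mem h5 using 1
          group
        · rw [hc m h hm']
          exact h2 m h hm'
  obtain ⟨ε, t, h1, h2⟩ := key
  refine ⟨ε, t, fun n => h1 n (Nat.zero_le _), ⟨hx, fun n hn => h2 n (Nat.zero_le _) hn⟩, ?_⟩
  have := mul_mem (mul_mem (inv_mem hx) hω.first) (inv_mem (h2 0 le_rfl (Nat.zero_le _)))
  convert this using 1
  have e : (W.mkPt a ε t).x = a := rfl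
  rw [bOf, e]
  group

/-- Charts are open.  First `P.open_chart`, then construct `t n` by downward induction with
`Ps.exists_chart`, the pivot being a unit because its image is (`Ps.piv_unit`). -/
theorem IsPt.open_chart (f : S →ₐ[C.k] S') (hf : IsLocalHom (f : S →+* S')) {g : GL C.I S}
    {ω : C.Pt S} (hω : W.IsPt g ω) (c : W.Ch) {u' : GL C.I S'} {t' : Fin W.d → S'}
    (hu : C.IsU u') (h : W.Eqv (ω.map f) (c.pt u' t')) :
    ∃ u t, c.IsChart g u t ∧ W.Eqv ω (c.pt u t) ∧ C.ma f u = u' ∧ ∀ n, f (t n) = t' n := by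
  have h0 : (C.pm S' c.π * u')⁻¹ * C.mp (f : S →+* S') ω.x ∈ C.B S' := by
    have := inv_mem h.1
    rw [_root_.mul_inv_rev, inv_inv] at this
    exact this
  obtain ⟨u, hu1, hu2, hu3⟩ := P.open_chart (f : S →+* S') hω.memP c.hπ hu h0
  have hx : ω.x⁻¹ * (C.pm S c.π * u) ∈ C.B S := by
    have := inv_mem hu2
    rwa [_root_.mul_inv_rev, inv_inv] at this
  have ha : C.ma f (C.pm S c.π * u) = C.pm S' c.π * u' := by
    rw [map_mul, pm_mp, hu3]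
  obtain ⟨ε, t, h1, h2, h3⟩ := ptsb_chain hω (c.frame_mem hu1) hx
    (fun n e τ => e = c.ε n ∧ f τ = t' n) (by
      intro n ε t h1 h2
      set y := ω.Q n * ((W.mkPt (C.pm S c.π * u) ε t).Q (n + 1))⁻¹ with hy
      have e1 : C.ma f ((W.mkPt (C.pm S c.π * u) ε t).Q (n + 1)) = (c.pt u' t').Q (n + 1) := by
        have := congrArg (fun ω => ω.Q (n + 1)) (mkPt_map f (C.pm S c.π * u) ε t)
        refine this.trans ?_
        rw [ha]
        exact ptsb_Q_congr _ n.isLt fun m hm => h1 m hm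
      have e2 : C.ma f y * (C.X (W.s n) (c.ε n) (t' n))⁻¹ ∈ C.B S' := by
        have := inv_mem (h.2 n n.isLt.le)
        rw [Ch.pt, ptsb_Q_succ] at this
        rw [hy, map_mul, map_inv, e1]
        convert this using 1
        have e : (ω.map f).Q n = C.ma f (ω.Q n) := rfl
        rw [e, Ch.pt]
        group
      have e3 : IsUnit ((W.s n).piv (c.ε n) y) := by
        have := Ps.piv_unit e2
        have e : (W.s n).piv (c.ε n) (C.ma f y) = (f : S →+* S') ((W.s n).piv (c.ε n) y) := by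
          unfold Sp.piv
          split_ifs <;> rfl
        rw [e] at this
        exact IsLocalHom.map_nonunit _ this
      obtain ⟨τ, hτ⟩ := Ps.exists_chart h2 _ e3
      refine ⟨c.ε n, τ, ⟨rfl, ?_⟩, hτ⟩
      have e4 := Pat.map (f : S →+* S') hτ
      rw [map_mul, map_inv, X_mp] at e4
      refine (X_uniq (s := W.s n) (ε := c.ε n) (mul_mem (inv_mem e4) e2) ?_).1
      change C.X (W.s n) (c.ε n) ((f : S →+* S') τ) = _
      group)
  obtain rfl : ε = c.ε := funext fun n => (h1 n).1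
  exact ⟨u, t, ⟨hu1, h3⟩, h2, hu3, fun n => (h1 n).2⟩

/-- valuative criterion of properness in coordinates -/
theorem IsPt.exists_chart_val {F : Type} [Field F] [Algebra C.k F] (V : Subring F)
    (hV : ∀ x : F, x ∈ V ∨ x⁻¹ ∈ V) {g : GL C.I F} {ω : C.Pt F} (hω : W.IsPt g ω) :
    ∃ (c : W.Ch) (u : GL C.I F) (t : Fin W.d → F), c.IsChart g u t ∧ W.Eqv ω (c.pt u t) ∧
      (∀ a b, u.val a b ∈ V) ∧ (∀ a b, u⁻¹.val a b ∈ V) ∧ ∀ n, t n ∈ V := by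
  obtain ⟨π, u, hπ, hu, h1, h2, h3⟩ := P.exists_chart_val V hV hω.memP
  have hx : ω.x⁻¹ * (C.pm F π * u) ∈ C.B F := by
    have := inv_mem h3
    rwa [_root_.mul_inv_rev, inv_inv] at this
  obtain ⟨ε, t, h4, h5, h6⟩ := ptsb_chain hω (mul_mem (pm_mem hπ) (U_le_L hu.1)) hx
    (fun _ _ τ => τ ∈ V) fun n ε t _ h => Ps.exists_chart_val V hV h
  exact ⟨⟨π, hπ, ε⟩, u, t, ⟨hu, h6⟩, h5, h1, h2, h4⟩

theorem IsPt.exists_chart_isVal {F : Type} [Field F] [Algebra C.k F] {V : Subalgebra C.k F}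
    (hV : IsVal V) {g : GL C.I V} (hg : g ∈ C.G V) {ω : C.Pt F} (hω : W.IsPt (C.ma V.val g) ω) :
    ∃ (c : W.Ch) (u : GL C.I V) (t : Fin W.d → V), c.IsChart g u t ∧
      W.Eqv ω ((c.pt u t).map V.val) := by
  obtain ⟨c, u, t, h1, h2, h3, h4, h5⟩ := hω.exists_chart_val V.toSubring hV
  have hi : Function.Injective (V.val : V →+* F) := Subtype.val_injective
  obtain ⟨u₀, rfl⟩ := C.exists_mp_eq (V.val : V →+* F) hi u (fun a b => ⟨⟨_, h3 a b⟩, rfl⟩)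
    fun a b => ⟨⟨_, h4 a b⟩, rfl⟩
  have e : (c.pt u₀ fun n => (⟨t n, h5 n⟩ : V)).map V.val = c.pt (C.mp (V.val : V →+* F) u₀) t :=
    c.pt_map V.val u₀ _
  refine ⟨c, u₀, fun n => ⟨t n, h5 n⟩, ⟨⟨Pat.of_map _ hi h1.1.1, fun a => hi ?_⟩, ?_⟩, ?_⟩
  · rw [map_one]
    exact h1.1.2 a
  · refine Pat.of_map _ hi ?_
    have := bOf_map V.val g (c.pt u₀ fun n => (⟨t n, h5 n⟩ : V))
    rw [e] at this
    have h6 := h1.2
    rw [this] at h6
    exact h6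
  · rw [e]
    exact h2

/-- every point over a local ring lies in a chart -/
theorem IsPt.exists_chart [IsLocalRing S] {g : GL C.I S} {ω : C.Pt S} (hω : W.IsPt g ω) :
    ∃ (c : W.Ch) (u : GL C.I S) (t : Fin W.d → S), c.IsChart g u t ∧ W.Eqv ω (c.pt u t) := by
  obtain ⟨c, u', t', h1, h2, -⟩ := (hω.map (resA C.k S)).exists_chart_val ⊤
    fun x => Or.inl (Subring.mem_top x)
  obtain ⟨u, t, h3, h4, -⟩ := hω.open_chart (resA C.k S) (resA_local S) c h1.1 h2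
  exact ⟨c, u, t, h3, h4⟩

/-- chains with given frame -/
theorem exists_isPt_iff {g x : GL C.I S} (hg : g ∈ C.G S) (hx : x ∈ C.P S) :
    (∃ Q, W.IsPt g ⟨x, Q⟩) ↔ W.Sch (x⁻¹ * g * C.fr (C.lev x) * W.zd S) := by
  constructor
  · rintro ⟨Q, h⟩
    have h1 : C.suf (W.step ⟨x, Q⟩) 0 = Q 0 * (Q W.d)⁻¹ := by
      refine down_ind (Φ := fun n => C.suf (W.step ⟨x, Q⟩) n = Q n * (Q W.d)⁻¹) ?_
        (fun n ih => ?_) (Nat.zero_le W.d)
      · rw [suf_last _ le_rfl, mul_inv_cancel]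
      · rw [suf_succ, ih]
        simp only [step]
        group
    have h2 : W.Sch (x⁻¹ * g * (Q 0)⁻¹ * C.suf (W.step ⟨x, Q⟩) 0) :=
      ⟨_, _, h.first, h.step, rfl⟩
    have h3 := h2.mul_B h.last
    rw [h1] at h3
    convert h3 using 1
    group
  · rintro ⟨b, y, hb, hy, e⟩
    have hA : C.fr (C.lev x) * W.zd S ∈ C.G S :=
      mul_mem (fr_G (Pat.le_G (lev_mem (Or.inl hx)))) W.zd_mem
    refine ⟨fun n => C.suf y n * (C.fr (C.lev x) * W.zd S)⁻¹, hx, fun n _ => ?_, ?_, fun n => ?_, ?_⟩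
    · exact mul_mem (suf_mem (fun m => Pat.le_G (hy m)) n) (inv_mem hA)
    · convert one_mem (C.B S) using 1
      simp only
      rw [suf_last _ le_rfl]
      group
    · convert hy n using 1
      simp only [step]
      rw [suf_succ]
      group
    · convert hb using 1
      have : b = x⁻¹ * g * C.fr (C.lev x) * W.zd S * (C.suf y 0)⁻¹ := by rw [e]; group
      rw [this]
      group

/-- Change of coordinates: `x₁ = a'⁻¹ x₀ a`, `β n = Q n y₀⁻¹ (Q' n)⁻¹`. -/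
theorem transf {g a a' x₀ y₀ : GL C.I S} {ε ε' : Fin W.d → Bool} {t t' : Fin W.d → S}
    (ha : a ∈ C.L S) (ha' : a' ∈ C.L S) (he : C.E x₀ y₀)
    (h : W.Eqv ((W.mkPt a ε t).act x₀ y₀) (W.mkPt a' ε' t')) :
    ∃ β : ℕ → GL C.I S, a'⁻¹ * x₀ * a ∈ C.B S ∧ (∀ n ≤ W.d, β n ∈ C.B S) ∧
      (∀ n : Fin W.d, C.X (W.s n) (ε n) (t n) * β (n + 1) = β n * C.X (W.s n) (ε' n) (t' n)) ∧
      (∀ c, (β W.d).val (W.z.symm (C.σ c)) (W.z.symm (C.σ c)) *
        (a'⁻¹ * x₀ * a).val c c ^ C.p = 1) ∧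
      bOf (x₀ * g * y₀⁻¹) (W.mkPt a' ε' t') = a'⁻¹ * x₀ * a * bOf g (W.mkPt a ε t) * β 0 := by
  have hx : a'⁻¹ * x₀ * a ∈ C.B S := by
    have h1 : (x₀ * a)⁻¹ * a' ∈ C.B S := h.1
    have h2 := inv_mem h1
    rwa [_root_.mul_inv_rev, inv_inv, ← mul_assoc] at h2
  refine ⟨fun n => (W.mkPt a ε t).Q n * y₀⁻¹ * ((W.mkPt a' ε' t').Q n)⁻¹, hx, fun n hn => ?_,
    fun n => ?_, fun c => ?_, ?_⟩
  · have h1 : (W.mkPt a' ε' t').Q n * ((W.mkPt a ε t).Q n * y₀⁻¹)⁻¹ ∈ C.B S := h.2 n hn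
    have h2 := inv_mem h1
    rwa [_root_.mul_inv_rev, inv_inv] at h2
  · simp only [mkPt]
    rw [suf_succ _ n, suf_succ (fun m => C.X (W.s m) (ε' m) (t' m)) n]
    group
  · have h1 := ((E.of_L (inv_mem ha')).mul he).mul (E.of_L ha)
    have h2 := h1.memZ hx
    have h3 := Z.mul_diag (inv_mem h2) h2 (C.σ c)
    rw [inv_mul_cancel, h1.diag c] at h3
    have h4 := (W.zd_mon (S := S)).conj_diag (C.fr a'⁻¹ * y₀ * C.fr a)⁻¹ (W.z.symm (C.σ c))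
    rw [Equiv.apply_symm_apply] at h4
    have h5 : (W.mkPt a ε t).Q W.d * y₀⁻¹ * ((W.mkPt a' ε' t').Q W.d)⁻¹ =
        (W.zd S)⁻¹ * (C.fr a'⁻¹ * y₀ * C.fr a)⁻¹ * W.zd S := by
      simp only [mkPt]
      rw [suf_last _ le_rfl, suf_last _ le_rfl, map_inv]
      group
    beta_reduce
    rw [h5, h4, ← h3]
    simp
  · have e1 : (W.mkPt a ε t).x = a := rfl
    have e2 : (W.mkPt a' ε' t').x = a' := rfl
    rw [bOf, bOf, e1, e2]
    group

theorem ptsc_suf (ω : C.Pt S) {n : ℕ} (hn : n ≤ W.d) :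
    C.suf (W.step ω) n = ω.Q n * (ω.Q W.d)⁻¹ := by
  refine down_ind (Φ := fun n => C.suf (W.step ω) n = ω.Q n * (ω.Q W.d)⁻¹) ?_ (fun m hm => ?_) hn
  · rw [suf_last _ le_rfl, mul_inv_cancel]
  · rw [suf_succ, hm, step]
    group

variable (W) in
/-- the first `m` steps are generic -/
def Op (ω : C.Pt S) : Prop := ∀ n : Fin W.d, n.val < W.m → IsUnit (W.ent ω n)

theorem Op.map (f : S →ₐ[C.k] S') {ω : C.Pt S} (h : W.Op ω) : W.Op (ω.map f) := fun n hn => by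
  rw [ent_map]
  exact (h n hn).map f

theorem Op.of_map (f : S →ₐ[C.k] S') (hf : IsLocalHom (f : S →+* S')) {ω : C.Pt S}
    (h : W.Op (ω.map f)) : W.Op ω := fun n hn => by
  have := h n hn
  rw [ent_map] at this
  exact hf.1 _ this

theorem Op.act (x₀ y₀ : GL C.I S) {ω : C.Pt S} (h : W.Op ω) : W.Op (ω.act x₀ y₀) := fun n hn => by
  rw [ent_act]
  exact h n hn

theorem Op.eqv {g : GL C.I S} {ω ω' : C.Pt S} (h : W.Op ω) (hω : W.IsPt g ω) (e : W.Eqv ω ω') :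
    W.Op ω' := fun n hn => by
  obtain ⟨v, hv⟩ := e.ent hω n
  rw [hv]
  exact v.isUnit.mul (h n hn)

theorem ptsc_cell {g : GL C.I S} {ω : C.Pt S} (hω : W.IsPt g ω) (h : W.Op ω) {n : ℕ}
    (hn : n ≤ W.m) : C.Cell (W.w n) (ω.Q 0 * (ω.Q n)⁻¹) := by
  have h1 := cell_prod hω.step h hn
  rw [ptsc_suf ω (hn.trans W.m_le), ptsc_suf ω (Nat.zero_le _)] at h1
  have e : ω.Q 0 * (ω.Q W.d)⁻¹ * (ω.Q n * (ω.Q W.d)⁻¹)⁻¹ = ω.Q 0 * (ω.Q n)⁻¹ := by group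
  rwa [e] at h1

theorem ptsc_prod (g : GL C.I S) (ω : C.Pt S) : ω.x⁻¹ * g * C.fr (C.lev ω.x) * W.zd S =
    ω.x⁻¹ * g * (ω.Q 0)⁻¹ * (ω.Q 0 * (ω.Q W.d)⁻¹) * (ω.Q W.d * C.fr (C.lev ω.x) * W.zd S) := by
  group

theorem IsPt.cell_m {g : GL C.I S} {ω : C.Pt S} (hω : W.IsPt g ω) (h : W.Op ω) :
    C.Cell C.wf (ω.x⁻¹ * g * (ω.Q W.m)⁻¹) := by
  have h1 := (ptsc_cell hω h le_rfl).B_mul hω.first
  rw [W.w_m] at h1
  convert h1 using 1
  group

/-- A point whose first `m` steps are generic is determined by the cosets `Q n`, `n ≥ m`. -/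
theorem IsPt.eqv_of_open {g : GL C.I S} {ω ω' : C.Pt S} (hω : W.IsPt g ω) (hω' : W.IsPt g ω')
    (h : W.Op ω) (h' : W.Op ω')
    (hQ : ∀ n, W.m ≤ n → n ≤ W.d → ω'.Q n * (ω.Q n)⁻¹ ∈ C.B S) : W.Eqv ω ω' := by
  have hx : ω.x⁻¹ * ω'.x ∈ C.B S := by
    refine frame_uniq (h := g * (ω.Q W.m)⁻¹) hω.memP hω'.memP ?_ ?_
    · rw [← mul_assoc]
      exact hω.cell_m h
    · convert (hω'.cell_m h').mul_B (hQ _ le_rfl W.m_le) using 1
      group
  refine ⟨hx, fun n hn => down_ind (Φ := fun n => ω'.Q n * (ω.Q n)⁻¹ ∈ C.B S)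
    (hQ _ W.m_le le_rfl) (fun m hm => ?_) hn⟩
  by_cases hlt : m.val < W.m
  swap
  · exact hQ _ (not_lt.1 hlt) m.2.le
  have e1 : (ω'.Q 0 * (ω'.Q m)⁻¹)⁻¹ * (ω'.Q 0 * (ω.Q 0)⁻¹ * (ω.Q 0 * (ω.Q m)⁻¹)) =
      ω'.Q m * (ω.Q m)⁻¹ := by group
  have e2 : ω'.Q m * (ω.Q m)⁻¹ =
      W.step ω' m * (ω'.Q (m + 1) * (ω.Q (m + 1))⁻¹) * (W.step ω m)⁻¹ := by
    rw [Wd.step, Wd.step]
    group
  have h1 := Cell.min (W.s m) (W.red m hlt) (ptsc_cell hω' h' hlt.le)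
    ((ptsc_cell hω h hlt.le).B_mul (hω.first_eqv hω' hx)) (by
      rw [e1, e2]
      exact mul_mem (mul_mem (hω'.step m) (B_le_PA hm)) (inv_mem (hω.step m)))
  rwa [e1] at h1

/-- PTSA.  Completion of a chain.  Write `x⁻¹ g (Q m)⁻¹ = b * n * b'` with
`n = suf sd 0 * (suf sd m)⁻¹` (`sd_mon`, `Cell.rel`) and put
`Q' n = suf sd n * (suf sd m)⁻¹ * b' * Q m` for `n < m`. -/
theorem exists_isPt_open {g : GL C.I S} {ω : C.Pt S} (h1 : ω.x ∈ C.P S)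
    (h2 : ∀ n, W.m ≤ n → n ≤ W.d → ω.Q n ∈ C.G S)
    (h3 : ω.Q W.d * C.fr (C.lev ω.x) * W.zd S ∈ C.B S)
    (h4 : ∀ n : Fin W.d, W.m ≤ n.val → W.step ω n ∈ C.Ps (W.s n) S)
    (h5 : C.Cell C.wf (ω.x⁻¹ * g * (ω.Q W.m)⁻¹)) :
    ∃ ω', W.IsPt g ω' ∧ W.Op ω' ∧ ω'.x = ω.x ∧ ∀ n, W.m ≤ n → ω'.Q n = ω.Q n := by
  have hN := Cell.of_mon (W.sd_mon (S := S) W.m_le)
  rw [W.w_m] at hN
  obtain ⟨b, b', hb, hb', e⟩ := hN.rel h5
  have hs : ∀ n, C.suf (W.sd S) n ∈ C.G S := suf_mem fun m => Pat.le_G (X_mem _ _ _)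
  obtain ⟨Q, hQ⟩ : ∃ Q : ℕ → GL C.I S, ∀ n, Q n = if n < W.m then
      C.suf (W.sd S) n * (C.suf (W.sd S) W.m)⁻¹ * b' * ω.Q W.m else ω.Q n := ⟨_, fun _ => rfl⟩
  have q1 : ∀ n, W.m ≤ n → Q n = ω.Q n := fun n hn => by rw [hQ, if_neg (not_lt.2 hn)]
  have q2 : ∀ n : Fin W.d, n.val < W.m →
      ∃ c ∈ C.B S, W.step ⟨ω.x, Q⟩ n = C.X (W.s n) true 0 * c := fun n hn => by
    have e1 : C.suf (W.sd S) n = C.X (W.s n) true 0 * C.suf (W.sd S) (n + 1) := suf_succ _ n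
    rcases (Nat.succ_le_of_lt hn).eq_or_lt with h | h
    · have h' : n.val + 1 = W.m := h
      refine ⟨b', hb', ?_⟩
      change Q n * (Q (n + 1))⁻¹ = _
      rw [hQ n, if_pos hn, q1 _ h'.ge, e1, h']
      group
    · refine ⟨1, one_mem _, ?_⟩
      change Q n * (Q (n + 1))⁻¹ = _
      rw [hQ n, if_pos hn, hQ, if_pos h, e1]
      group
  refine ⟨⟨ω.x, Q⟩, ⟨h1, fun n hn => ?_, ?_, fun n => ?_, ?_⟩, fun n hn => ?_, rfl, q1⟩
  · change Q n ∈ _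
    rw [hQ]
    split_ifs with h
    · exact mul_mem (mul_mem (mul_mem (hs _) (inv_mem (hs _))) (Pat.le_G hb'))
        (h2 _ le_rfl W.m_le)
    · exact h2 n (not_lt.1 h) hn
  · change Q W.d * _ * _ ∈ _
    rw [q1 _ W.m_le]
    exact h3
  · by_cases h : n.val < W.m
    · obtain ⟨c, hc, e1⟩ := q2 n h
      rw [e1]
      exact mul_mem (X_mem _ _ _) (B_le_PA hc)
    · have h6 := h4 n (not_lt.1 h)
      change Q n * (Q (n + 1))⁻¹ ∈ _
      rw [q1 _ (not_lt.1 h), q1 _ (by omega)]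
      exact h6
  · change ω.x⁻¹ * g * (Q 0)⁻¹ ∈ _
    by_cases h : 0 < W.m
    · have e1 : ω.x⁻¹ * g * (Q 0)⁻¹ = b := by
        have e2 : b = ω.x⁻¹ * g * (ω.Q W.m)⁻¹ * b'⁻¹ *
            (C.suf (W.sd S) 0 * (C.suf (W.sd S) W.m)⁻¹)⁻¹ := by
          rw [e]
          group
        rw [hQ, if_pos h, e2]
        group
      rw [e1]
      exact hb
    · have h0 : W.m = 0 := by omega
      rw [h0, mul_inv_cancel, mul_one] at e
      rw [q1 _ h0.le, e]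
      exact mul_mem hb hb'
  · obtain ⟨c, hc, e1⟩ := q2 n hn
    have hlt : ¬ C.rB.r (W.s n).i (W.s n).j := not_le.2 (W.s n).h.2.1
    rw [ent, e1, PA.mul_ent (X_mem _ _ _) (B_le_PA hc) (Or.inl rfl) (Or.inl rfl) (Or.inr rfl),
      hc.2 _ _ hlt, mul_zero, zero_add, X_ij]
    exact isUnit_one.mul (B.diag_unit hc _)

theorem fr_eq_of_sq (f : S →+* S') (hk : RingHom.ker f ^ 2 = ⊥) {x x' : GL C.I S}
    (h : C.mp f x = C.mp f x') : C.fr x = C.fr x' := by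
  refine Units.ext (Matrix.ext fun a b => ?_)
  have h1 : x.val (C.σ.symm a) (C.σ.symm b) - x'.val (C.σ.symm a) (C.σ.symm b) ∈ RingHom.ker f := by
    rw [RingHom.mem_ker, map_sub, sub_eq_zero]
    exact congrArg (fun z : GL C.I S' => z.val (C.σ.symm a) (C.σ.symm b)) h
  have h2 := Ideal.pow_mem_pow h1 2
  rw [hk, Ideal.mem_bot] at h2
  have h3 := map_sub (C.frob S) (x.val (C.σ.symm a) (C.σ.symm b)) (x'.val (C.σ.symm a) (C.σ.symm b))
  rw [frob_apply, pow_eq_zero_of_le C.hp.two_le h2] at h3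
  exact sub_eq_zero.1 h3.symm

theorem local_of_sq (f : S →+* S') (hf : Function.Surjective f) (hk : RingHom.ker f ^ 2 = ⊥) :
    IsLocalHom f := by
  refine ⟨fun a ha => ?_⟩
  obtain ⟨b', hb'⟩ := ha.exists_right_inv
  obtain ⟨b, rfl⟩ := hf b'
  have h1 : a * b - 1 ∈ RingHom.ker f := by
    rw [RingHom.mem_ker, map_sub, map_mul, map_one, sub_eq_zero]
    exact hb'
  have h2 := Ideal.pow_mem_pow h1 2
  rw [hk, Ideal.mem_bot] at h2
  exact IsUnit.of_mul_eq_one (b * (2 - a * b)) (by linear_combination -h2)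

theorem ptsa_Q_eq {a a' : GL C.I S} (ha : C.fr a = C.fr a') (ε : Fin W.d → Bool)
    {t t' : Fin W.d → S} {n : ℕ} (hn : n ≤ W.d) (h : ∀ m : Fin W.d, n ≤ m → t m = t' m) :
    (W.mkPt a ε t).Q n = (W.mkPt a' ε t').Q n := by
  rw [ptsb_Q_congr a (ε' := ε) (t' := t') hn fun m hm => ⟨rfl, h m hm⟩]
  simp only [mkPt, ha]

theorem ptsa_uniq (a : GL C.I S) (ε : Fin W.d → Bool) {t t' : Fin W.d → S} {k : ℕ}
    (h : ∀ n, k ≤ n → n ≤ W.d → (W.mkPt a ε t').Q n * ((W.mkPt a ε t).Q n)⁻¹ ∈ C.B S)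
    (n : Fin W.d) (hn : k ≤ n) : t' n = t n := by
  refine down_ind (Φ := fun n => k ≤ n → ∀ m : Fin W.d, n ≤ m → t' m = t m)
    (fun _ m hm => absurd m.2 (not_lt.2 hm)) (fun m ih hk l hl => ?_) n.2.le hn n le_rfl
  have h1 := ih (by omega)
  rcases hl.eq_or_lt with hl | hl
  · rw [← Fin.ext hl]
    refine (X_uniq (s := W.s m) (ε := ε m) (h m hk m.2.le) ?_).1
    rw [ptsb_Q_succ, ptsb_Q_succ, ptsa_Q_eq rfl ε m.2 h1]
    group
  · exact h1 l hl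

/-- PTSA.  Paper 3.1, uniqueness: `fr_eq_of_sq`, `ptsb_Q_congr`, `eqv_of_open`, `Ch.uniq`. -/
theorem Ch.et_unique (c : W.Ch) (f : S →ₐ[C.k] S') (hk : RingHom.ker (f : S →+* S') ^ 2 = ⊥)
    {g u u' : GL C.I S} {t t' : Fin W.d → S} (h : c.IsChart g u t) (h' : c.IsChart g u' t')
    (ho : W.Op (c.pt u t)) (ho' : W.Op (c.pt u' t')) (hu : C.ma f u = C.ma f u')
    (ht : ∀ n : Fin W.d, W.m ≤ n.val → t n = t' n) : u = u' ∧ t = t' := by
  have h1 : C.fr (C.pm S c.π * u') = C.fr (C.pm S c.π * u) :=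
    fr_eq_of_sq (f : S →+* S') hk (by
      rw [map_mul, map_mul]
      exact congrArg _ hu.symm)
  refine Ch.uniq h.1 h'.1 (h.isPt.eqv_of_open h'.isPt ho ho' fun n hn hn' => ?_)
  rw [Ch.pt, Ch.pt, ptsa_Q_eq h1 c.ε hn' fun m hm => (ht m (hn.trans hm)).symm, mul_inv_cancel]
  exact one_mem _

/-- PTSA.  Paper 3.1, existence.  Lift `a' = pm π * u'` to `a₁ ∈ L` (`Pat.lift`), let
`h = g * ((mkPt a₁ ε τ).Q m)⁻¹`; `exists_frame_iff` over `S'` and `S` gives a frame `x₁`, `frame_uniq`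
over `S'` and `P.open_chart` give `u`; `fr (pm π * u) = fr a₁`; `exists_isPt_open`, `eqv_of_open` over
`S'`, `open_chart`; finally `t n = τ n` for `n ≥ m` as in `Ch.uniq`. -/
theorem Ch.et_exists (c : W.Ch) (f : S →ₐ[C.k] S') (hf : Function.Surjective f)
    (hk : RingHom.ker (f : S →+* S') ^ 2 = ⊥) {g : GL C.I S} (hg : g ∈ C.G S) {u' : GL C.I S'}
    {t' : Fin W.d → S'} (h : c.IsChart (C.ma f g) u' t') (ho : W.Op (c.pt u' t'))
    (τ : Fin W.d → S) (hτ : ∀ n : Fin W.d, W.m ≤ n.val → f (τ n) = t' n) :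
    ∃ u t, c.IsChart g u t ∧ C.ma f u = u' ∧ (∀ n, f (t n) = t' n) ∧
      ∀ n : Fin W.d, W.m ≤ n.val → t n = τ n := by
  have hl := local_of_sq (f : S →+* S') hf hk
  obtain ⟨a₁, ha₁, e₁⟩ := Pat.lift (f : S →+* S') hf (c.frame_mem h.1)
  have hG : ∀ a ∈ C.L S, ∀ n, (W.mkPt a c.ε τ).Q n ∈ C.G S := fun a ha n =>
    mul_mem (suf_mem (fun m => Pat.le_G (X_mem _ _ _)) n)
      (inv_mem (mul_mem (fr_G (Pat.le_G ha)) W.zd_mem))
  have hQ : ∀ n, W.m ≤ n → n ≤ W.d → C.ma f ((W.mkPt a₁ c.ε τ).Q n) = (c.pt u' t').Q n :=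
    fun n hn hn' => by
      refine (congrArg (fun ω => ω.Q n) (mkPt_map f a₁ c.ε τ)).trans ?_
      exact ptsa_Q_eq (congrArg C.fr e₁) c.ε hn' fun m hm => hτ m (hn.trans hm)
  obtain ⟨H, hH⟩ : ∃ H, H = g * ((W.mkPt a₁ c.ε τ).Q W.m)⁻¹ := ⟨_, rfl⟩
  have hHG : H ∈ C.G S := hH ▸ mul_mem hg (inv_mem (hG a₁ ha₁ _))
  have c1 : C.Cell C.wf ((C.pm S' c.π * u')⁻¹ * C.mp (f : S →+* S') H) := by
    have h1 := h.isPt.cell_m ho
    rw [← hQ _ le_rfl W.m_le, mul_assoc] at h1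
    rw [hH, map_mul, map_inv]
    exact h1
  have hP := L_le_P (c.frame_mem h.1)
  obtain ⟨x₁, hx₁, c2⟩ := (exists_frame_iff hHG).2 (by
    have h1 := (exists_frame_iff (Pat.map (f : S →+* S') hHG)).1 ⟨_, hP, c1⟩
    rw [← pm_mp (f : S →+* S'), ← map_inv, ← map_mul, C.mp_mat, loM_map, ← RingHom.mapMatrix_apply,
      ← RingHom.map_det] at h1
    exact hl.1 _ h1)
  have c3 := c2.map (f : S →+* S')
  rw [map_mul, map_inv] at c3
  obtain ⟨u, hu, hx, e₂⟩ := P.open_chart (f : S →+* S') hx₁ c.hπ h.1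
    (frame_uniq hP (Pat.map _ hx₁) c1 c3)
  have ha := c.frame_mem hu
  have hfr : C.fr (C.pm S c.π * u) = C.fr a₁ :=
    fr_eq_of_sq (f : S →+* S') hk (by rw [e₁, map_mul, pm_mp, e₂])
  have hQ2 : ∀ n ≤ W.d, (c.pt u τ).Q n = (W.mkPt a₁ c.ε τ).Q n := fun n hn =>
    ptsa_Q_eq hfr c.ε hn fun _ _ => rfl
  obtain ⟨ω, hω, hop, ex, eQ⟩ := exists_isPt_open (W := W) (g := g) (ω := c.pt u τ) (L_le_P ha)
    (fun n _ _ => hG _ ha n) (by
      rw [Ch.pt, ptsa_last]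
      change (C.fr (C.pm S c.π * u) * W.zd S)⁻¹ * C.fr (C.lev (C.pm S c.π * u)) * W.zd S ∈ C.B S
      rw [lev_of_L ha, mul_assoc, inv_mul_cancel]
      exact one_mem _)
    (fun n _ => by
      rw [Ch.pt, step_mkPt]
      exact X_mem _ _ _) (by
      have h1 := c2.B_mul hx
      rw [hH, ← hQ2 _ W.m_le] at h1
      convert h1 using 1
      change (C.pm S c.π * u)⁻¹ * g * _ = _
      group)
  obtain ⟨u₃, t, h1, h2, h3, h4⟩ := hω.open_chart f hl c h.1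
    ((hω.map f).eqv_of_open h.isPt (hop.map f) ho fun n hn hn' => by
      change _ * (C.ma f (ω.Q n))⁻¹ ∈ _
      rw [eQ n hn, hQ2 n hn', hQ n hn hn', mul_inv_cancel]
      exact one_mem _)
  obtain rfl : u = u₃ := U_uniq hu h1.1 (by
    have h5 := h2.1
    rw [ex] at h5
    simpa [Ch.pt, mkPt, mul_assoc] using h5)
  refine ⟨u, t, h1, h3, h4, ptsa_uniq (C.pm S c.π * u) c.ε fun n hn hn' => ?_⟩
  have h5 := h2.2 n hn'
  rwa [eQ n hn] at h5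

variable (W) in
/-- the chart of the generic points -/
def c0 : W.Ch := ⟨C.wI, wI_isWL, fun n => decide (n.val < W.m)⟩

variable (W) in
/-- the generic points -/
def gpt (a : GL C.I S) (y : S) : C.Pt S :=
  W.mkPt (a * C.pm S C.wI) W.c0.ε fun n => if n.val < W.m then 0 else -y

theorem gpt_x (a : GL C.I S) (y : S) : (W.gpt a y).x = a * C.pm S C.wI := rfl

theorem gpt_map (f : S →ₐ[C.k] S') (a : GL C.I S) (y : S) :
    (W.gpt a y).map f = W.gpt (C.ma f a) (f y) := by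
  rw [gpt, gpt, mkPt_map, map_mul, pm_mp]
  congr 1
  funext n
  split_ifs
  · exact map_zero f
  · exact map_neg f y

theorem ent_gpt (a : GL C.I S) (y : S) (n : Fin W.d) :
    W.ent (W.gpt a y) n = if n.val < W.m then 1 else -y := by
  rw [gpt, ent_mkPt, Tv]
  by_cases h : n.val < W.m <;> simp [c0, h]

theorem op_c0 (a : GL C.I S) (t : Fin W.d → S) : W.Op (W.mkPt a W.c0.ε t) := fun n hn => by
  rw [ent_mkPt, Tv, if_pos (by simpa [c0] using hn)]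
  exact isUnit_one

theorem op_gpt (a : GL C.I S) (y : S) : W.Op (W.gpt a y) := op_c0 _ _

theorem mkPt_act (x a : GL C.I S) (ε : Fin W.d → Bool) (t : Fin W.d → S) :
    (W.mkPt a ε t).act x (C.fr x) = W.mkPt (x * a) ε t := by
  simp [mkPt, Pt.act, mul_assoc]

theorem Q_d (a : GL C.I S) (ε : Fin W.d → Bool) (t : Fin W.d → S) :
    (W.mkPt (a * C.pm S C.wI) ε t).Q W.d = (C.fr a * C.pm S C.w0)⁻¹ := by
  rw [ptsa_last, map_mul, fr_pm, zd, mul_assoc, ← pm_mul]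
  exact congrArg (fun π => (C.fr a * C.pm S π)⁻¹) W.wJ_mul_z

theorem ptsb_embM_op (s : C.Sp) (a b c d : S) (m n : C.I) :
    C.embM s.op a b c d (C.w0 m) (C.w0 n) = C.embM s d c b a m n := by
  have hi : s.op.i = C.w0 s.j := rfl
  have hj : s.op.j = C.w0 s.i := rfl
  have h0 := s.ne
  have h1 : s.j.rev ≠ s.i.rev := fun e => h0 (Fin.rev_injective e).symm
  have hr : ∀ a, (C.w0 a).rev = C.w0 a.rev := fun a => (w0_isW.2 a).symm
  rcases reflb_cases s m with h | h | h | h | h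
  · rw [h, ← hj, reflb_row_j, reflb_row_i, hi, hj]
    simp only [C.w0.injective.eq_iff]
    by_cases e : n = s.i
    · rw [if_pos e, if_pos e, if_neg fun e' => h0 (e.symm.trans e')]
    · rw [if_neg e, if_neg e]
  · rw [h, ← hi, reflb_row_i, reflb_row_j, hi, hj]
    simp only [C.w0.injective.eq_iff]
    by_cases e : n = s.i
    · rw [if_pos e, if_pos e, if_neg fun e' => h0 (e.symm.trans e')]
    · rw [if_neg e, if_neg e]
  · rw [h.2, ← hr, ← hi, reflb_row_ir _ s.op.ne_rev, reflb_row_jr _ s.ne_rev, hi, hj, hr, hr]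
    simp only [C.w0.injective.eq_iff, sg_eq]
    by_cases e : n = s.j.rev
    · rw [if_pos e, if_pos e, if_neg fun e' => h1 (e.symm.trans e')]
    · rw [if_neg e, if_neg e]
  · rw [h.2, ← hr, ← hj, reflb_row_jr _ s.op.ne_rev, reflb_row_ir _ s.ne_rev, hi, hj, hr, hr]
    simp only [C.w0.injective.eq_iff, sg_eq]
    by_cases e : n = s.j.rev
    · rw [if_pos e, if_pos e, if_neg fun e' => h1 (e.symm.trans e')]
    · rw [if_neg e, if_neg e]
  · rw [reflb_row_o s _ _ _ _ h.1 h.2.1 h.2.2.1 h.2.2.2, reflb_row_o s.op _ _ _ _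
      (C.w0.injective.ne h.2.1) (C.w0.injective.ne h.1)
      (by rw [hi, hr]; exact C.w0.injective.ne h.2.2.2)
      (by rw [hj, hr]; exact C.w0.injective.ne h.2.2.1)]
    simp only [C.w0.injective.eq_iff]

theorem ptsb_conj_xm (s : C.Sp) (t : S) :
    C.X s.op false t = (C.pm S C.w0)⁻¹ * (C.xm s (-t))⁻¹ * C.pm S C.w0 := by
  have h1 : (C.xm s (-t))⁻¹ = C.xm s t := by
    rw [inv_eq_iff_mul_eq_one, ← xm_add, neg_add_cancel, xm_zero]
  have h2 : C.pm S C.w0 * C.X s.op false t * (C.pm S C.w0)⁻¹ = C.xm s t := by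
    rw [pm_conj]
    refine C.gl_ext fun a b => ?_
    rw [← w0_w0 a, ← w0_w0 b, tw_val, w0_w0, w0_w0]
    exact ptsb_embM_op s 1 t 0 1 a b
  rw [h1, ← h2]
  group

/-- PTSB.  `ptsb_Q_succ`, `Q_d`, `pm_conj`. -/
theorem Last.Q_m {β : C.Sp} {l : Fin W.d} (hW : W.Last β l) (a : GL C.I S) (t : Fin W.d → S) :
    (W.mkPt (a * C.pm S C.wI) W.c0.ε t).Q W.m = (C.fr a * C.xm β (-t l) * C.pm S C.w0)⁻¹ := by
  have h1 := ptsb_Q_succ (a * C.pm S C.wI) W.c0.ε t l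
  have h2 : W.c0.ε l = false := by
    change decide (l.val < W.m) = false
    rw [hW.hl]
    exact decide_eq_false (lt_irrefl _)
  rw [hW.hl, ← hW.hd, Q_d, hW.hs, h2, ptsb_conj_xm] at h1
  rw [h1]
  group

theorem ptsb_pre {d : ℕ} {x x' : Fin d → GL C.I S} {n : ℕ} (hn : n ≤ d)
    (h : ∀ m : Fin d, m.val < n → x m = x' m) :
    C.suf x 0 * (C.suf x n)⁻¹ = C.suf x' 0 * (C.suf x' n)⁻¹ := by
  induction n with
  | zero => rw [mul_inv_cancel, mul_inv_cancel]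
  | succ n ih =>
    rw [celld_step x hn, celld_step x' hn, ih (Nat.le_of_succ_le hn)
      fun m hm => h m (Nat.lt_succ_of_lt hm), h ⟨n, hn⟩ (Nat.lt_succ_self n)]

/-- PTSB.  `Q 0 = n * Q m` with `n` monomial of type `wf` (`sd_mon`); `wI` normalises the unipotent
radical of `P`. -/
theorem isPt_gpt_of {g a : GL C.I S} {y : S} (ha : a ∈ C.L S) {r : GL C.I S} (hr : r ∈ C.P S)
    (h1 : C.lev r = 1) (h : a⁻¹ * g * ((W.gpt a y).Q W.m)⁻¹ = r * C.pm S C.w0) :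
    W.IsPt g (W.gpt a y) := by
  have hw : C.pm S C.wI ∈ C.L S := pm_mem wI_isWL
  refine isPt_mkPt (mul_mem ha hw) ?_
  have h2 : C.Mon C.wf ((W.gpt a y).Q 0 * ((W.gpt a y).Q W.m)⁻¹) := by
    have h3 := W.sd_mon (S := S) W.m_le
    rw [W.w_m, ← ptsb_pre (x := fun n => C.X (W.s n) (W.c0.ε n) (if n.val < W.m then 0 else -y))
      W.m_le fun n hn => by rw [if_pos hn, show W.c0.ε n = true from decide_eq_true hn]; rfl] at h3
    convert h3 using 1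
    simp only [gpt, mkPt]
    group
  have h3 : (C.pm S C.wI)⁻¹ * C.pm S C.w0 *
      ((W.gpt a y).Q 0 * ((W.gpt a y).Q W.m)⁻¹)⁻¹ ∈ C.B S := by
    have h4 := ((pm_mon (S := S) wI_isWL.1).inv.mul (pm_mon w0_isW)).mul h2.inv
    rw [wI_inv, ← wf, mul_inv_cancel] at h4
    exact T_le h4.mem_T
  have h4 : (C.pm S C.wI)⁻¹ * r * C.pm S C.wI ∈ C.B S := by
    have h5 := mul_mem (L_le_P (inv_mem hw)) hr
    refine mem_B_of_lev (mul_mem h5 (L_le_P hw)) ?_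
    rw [lev_mul_P h5 (L_le_P hw), lev_mul_P (L_le_P (inv_mem hw)) hr, h1, lev_of_L hw,
      lev_of_L (inv_mem hw), mul_one, inv_mul_cancel]
    exact one_mem _
  have h5 : r = a⁻¹ * g * ((W.gpt a y).Q W.m)⁻¹ * (C.pm S C.w0)⁻¹ := by
    rw [h, mul_inv_cancel_right]
  change (a * C.pm S C.wI)⁻¹ * g * ((W.gpt a y).Q 0)⁻¹ ∈ C.B S
  convert mul_mem h4 h3 using 1
  rw [h5]
  group

theorem isPt_gpt0 (hW : W.d = W.m) : W.IsPt 1 (W.gpt (1 : GL C.I S) 0) := by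
  refine isPt_gpt_of (one_mem _) (one_mem _) (lev_of_L (one_mem _)) ?_
  rw [← hW, gpt, Q_d]
  simp only [inv_one, mul_one, map_one, one_mul, inv_inv]

theorem Last.isPt_gpt {β : C.Sp} {l : Fin W.d} (hW : W.Last β l) {γ : GL C.I C.k} (hγ : γ ∈ C.Gam)
    {u : GL C.I S} {y : S} (h1 : u ∈ C.L S) (h2 : u ∈ C.B S) (h3 : u = C.lev (C.fr u * C.xm β y)) :
    W.IsPt 1 (W.gpt (C.ct S γ * u) y) := by
  have h4 : C.fr u * C.xm β y ∈ C.P S := B_le_P (mul_mem (fr_B h2) (xm_mem _ _))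
  refine isPt_gpt_of (mul_mem (Pat.map _ hγ.1) h1) (mul_mem (inv_mem (L_le_P h1)) h4) ?_ ?_
  · rw [lev_mul_P (inv_mem (L_le_P h1)) h4, ← h3, lev_of_L (inv_mem h1), inv_mul_cancel]
  · rw [gpt, hW.Q_m, if_neg (by rw [hW.hl]; exact lt_irrefl _), neg_neg, map_mul, fr_ct hγ]
    group

theorem Last.isPt_uf {β : C.Sp} {l : Fin W.d} (hW : W.Last β l) (hβ : C.TopQ β) {γ : GL C.I C.k}
    (hγ : γ ∈ C.Gam) (y : S) : W.IsPt 1 (W.gpt (C.ct S γ * C.uf β y) y) :=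
  hW.isPt_gpt hγ (uf_spec hβ y).1 (uf_spec hβ y).2.1 (uf_spec hβ y).2.2.2

theorem ptsb_toU {u : GL C.I S} (h1 : u ∈ C.L S) (h2 : u ∈ C.B S) :
    (C.pm S C.wI)⁻¹ * u * C.pm S C.wI ∈ C.U S := by
  refine (pm_mon wI_isWL.1).conj_pat wI_isWL.1 (R := C.rB.inf C.rL) (fun a b hb h => ?_)
    (mem_inf.2 ⟨h2, h1⟩)
  have h3 : C.lo a ↔ C.lo b := (wI_isWL.2 a).symm.trans (h.2.trans (wI_isWL.2 b))
  exact ⟨not_lt.1 fun h4 => absurd ((wI_lt hb.symm h3.symm).2 h4) (not_lt.2 h.1), h3⟩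

theorem ptsb_toB {u : GL C.I S} (h : u ∈ C.U S) :
    (C.pm S C.wI)⁻¹ * u * C.pm S C.wI ∈ C.B S := by
  refine (pm_mon wI_isWL.1).conj_pat wI_isWL.1 (fun a b hb h => ?_) h
  have h3 : C.lo a ↔ C.lo b := (wI_isWL.2 a).symm.trans (h.2.trans (wI_isWL.2 b))
  exact not_lt.1 fun h4 => absurd ((wI_lt hb h3).2 h4) (not_lt.2 h.1)

theorem ptsb_wI_inv : (C.pm S C.wI)⁻¹ = C.pm S C.wI := by rw [← pm_inv, wI_inv]

theorem ptsb_xm_diag (s : C.Sp) (t : S) (a : C.I) : (C.xm s t).val a a = 1 := by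
  change C.embM s 1 0 t 1 a a = 1
  have h0 := s.ne
  have h1 : s.j.rev ≠ s.i.rev := fun e => h0 (Fin.rev_injective e).symm
  rcases reflb_cases s a with h | h | h | h | h
  · rw [h, embM_ii]
  · rw [h, embM_jj]
  · rw [h.2, reflb_row_jr _ h.1, if_pos rfl]
  · rw [h.2, reflb_row_ir _ h.1, if_neg h1.symm, if_pos rfl]
  · rw [reflb_row_o s _ _ _ _ h.1 h.2.1 h.2.2.1 h.2.2.2, if_pos rfl]

theorem ptsb_act {γ : GL C.I C.k} (hγ : γ ∈ C.Gam) {ω : C.Pt S} (hω : W.IsPt 1 ω) :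
    W.IsPt 1 (ω.act (C.ct S γ) (C.ct S γ)) := by
  have h := hω.act (E_ct hγ)
  rwa [mul_one, mul_inv_cancel] at h

theorem ptsb_mkPt_act {γ : GL C.I C.k} (hγ : γ ∈ C.Gam) (a : GL C.I S) (ε : Fin W.d → Bool)
    (t : Fin W.d → S) : (W.mkPt a ε t).act (C.ct S γ) (C.ct S γ) = W.mkPt (C.ct S γ * a) ε t := by
  rw [← mkPt_act, fr_ct hγ]

/-- PTSB.  Paper 3.3, PAR.  Move by `γ⁻¹` (`E_ct`, `mkPt_act`), apply `open_chart` for the chart `c0`
with `wI⁻¹ u' wI`; `cell_m`, `Q_m`, `cell_iff_inN` and `InN.lev_eq_one` give the equation of `u`,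
`y = - t l`; then `isPt_gpt` and `eqv_of_open`. -/
theorem Last.par {β : C.Sp} {l : Fin W.d} (hW : W.Last β l) (f : S →ₐ[C.k] S')
    (hf : IsLocalHom (f : S →+* S')) {ω : C.Pt S} (hω : W.IsPt 1 ω) {γ : GL C.I C.k}
    (hγ : γ ∈ C.Gam) {u' : GL C.I S'} (h1 : u' ∈ C.L S') (h2 : u' ∈ C.B S')
    (h3 : ∀ a, u'.val a a = 1) {y' : S'} (h : W.Eqv (ω.map f) (W.gpt (C.ct S' γ * u') y')) :
    ∃ u y, u ∈ C.L S ∧ u ∈ C.B S ∧ (∀ a, u.val a a = 1) ∧ u = C.lev (C.fr u * C.xm β y) ∧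
      C.ma f u = u' ∧ f y = y' ∧ W.Eqv ω (W.gpt (C.ct S γ * u) y) := by
  have hw : C.pm S C.wI ∈ C.L S := pm_mem wI_isWL
  have hγ' := inv_mem hγ
  have h4 : W.Eqv ((ω.act (C.ct S γ⁻¹) (C.ct S γ⁻¹)).map f)
      (W.c0.pt ((C.pm S' C.wI)⁻¹ * u' * C.pm S' C.wI) fun n => if n.val < W.m then 0 else -y') := by
    have h5 := h.act (C.ct S' γ⁻¹) (C.ct S' γ⁻¹)
    rw [gpt, ptsb_mkPt_act hγ'] at h5
    rw [Pt.map_act, ma_ct, Ch.pt]
    convert h5 using 2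
    change C.pm S' C.wI * _ = _
    rw [map_inv]
    group
  obtain ⟨v, t, h5, h6, h7, h8⟩ := (ptsb_act hγ' hω).open_chart f hf W.c0
    ⟨ptsb_toU h1 h2, fun a => by rw [(pm_mon wI_isWL.1).conj_diag, h3]⟩ h4
  obtain ⟨u, hu⟩ : ∃ u, u = (C.pm S C.wI)⁻¹ * v * C.pm S C.wI := ⟨_, rfl⟩
  have hL : u ∈ C.L S := hu ▸ mul_mem (mul_mem (inv_mem hw) (U_le_L h5.1.1)) hw
  have hB : u ∈ C.B S := hu ▸ ptsb_toB h5.1.1
  have hd : ∀ a, u.val a a = 1 := fun a => by rw [hu, (pm_mon wI_isWL.1).conj_diag, h5.1.2]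
  have e1 : W.c0.pt v t = W.mkPt (u * C.pm S C.wI) W.c0.ε t := by
    rw [Ch.pt, hu, mul_assoc _ (C.pm S C.wI), ← pm_mul, wI_mul_self, pm_one, mul_one, ptsb_wI_inv]
    rfl
  have h9 := h5.isPt
  rw [e1] at h6 h9
  have hx : C.fr u * C.xm β (-t l) ∈ C.B S := mul_mem (fr_B hB) (xm_mem _ _)
  have h10 : u = C.lev (C.fr u * C.xm β (-t l)) := by
    have h11 := cell_iff_inN.1 (h9.cell_m (op_c0 _ _))
    rw [hW.Q_m] at h11
    have h12 : C.InN (u⁻¹ * (C.fr u * C.xm β (-t l))) := by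
      convert h11 using 1
      change _ = C.pm S C.wI * ((u * C.pm S C.wI)⁻¹ * _ * _) * _
      group
    have h13 := h12.lev_eq_one (mul_mem (inv_mem hB) hx) fun a => by
      have h14 := B.diag_inv hB a
      obtain ⟨a', rfl⟩ := C.σ.surjective a
      rw [hd, one_mul] at h14
      rw [B.mul_diag (inv_mem hB) hx, B.mul_diag (fr_B hB) (xm_mem _ _), h14, fr_val, hd,
        ptsb_xm_diag, one_pow, one_mul, one_mul]
    rw [lev_mul_P (inv_mem (L_le_P hL)) (B_le_P hx), lev_of_L (inv_mem hL)] at h13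
    exact inv_mul_eq_one.1 h13
  have hl : ¬ l.val < W.m := by rw [hW.hl]; exact lt_irrefl _
  refine ⟨u, -t l, hL, hB, hd, h10, ?_, ?_, ?_⟩
  · rw [hu, map_mul, map_mul, map_inv, pm_mp, h7, ptsb_wI_inv, ← mul_assoc, ← mul_assoc,
      mul_assoc _ (C.pm S' C.wI), ← pm_mul, wI_mul_self, pm_one, one_mul, mul_one]
  · rw [map_neg, h8, if_neg hl, neg_neg]
  · have h11 := h6.act (C.ct S γ) (C.ct S γ)
    have h12 := ptsb_act hγ h9
    rw [ptsb_mkPt_act hγ, ← mul_assoc] at h11 h12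
    rw [Pt.act_act, ← map_mul, mul_inv_cancel, map_one, Pt.act_one] at h11
    refine h11.trans (h12.eqv_of_open (hW.isPt_gpt hγ hL hB h10) (op_c0 _ _) (op_gpt _ _)
      fun n h13 h14 => ?_)
    rw [gpt, ptsb_Q_congr _ h14 (ε' := W.c0.ε) (t' := t) fun m hm => ⟨rfl, ?_⟩, mul_inv_cancel]
    · exact one_mem _
    · have h15 : ¬ m.val < W.m := not_lt.2 (h13.trans hm)
      rw [if_neg h15, neg_neg, not_not.1 (mt hW.lt.2 h15)]

theorem ptsb_inN {g : GL C.I S} {ω : C.Pt S} (hω : W.IsPt g ω) (h : W.Op ω)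
    (h1 : ω.Q W.m * C.fr (C.lev ω.x) * W.zd S ∈ C.B S) :
    C.InN ((C.lev ω.x * (C.pm S C.wI)⁻¹)⁻¹ * g * C.fr (C.lev ω.x * (C.pm S C.wI)⁻¹)) := by
  have h2 := cell_iff_inN.1 (((hω.cell_m h).mul_B h1).B_mul (lev_inv_mul hω.memP).1)
  have h3 : W.zd S = (C.fr (C.pm S C.wI))⁻¹ * C.pm S C.w0 := by
    rw [eq_inv_mul_iff_mul_eq, fr_pm, zd, ← pm_mul]
    exact congrArg (C.pm S) W.wJ_mul_z
  convert h2 using 1
  rw [h3, map_mul, map_inv]
  group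

theorem ptsb_res (k S : Type) [Field k] [CommRing S] [Algebra k S] [IsLocalRing S] :
    ∃ (F : Type) (_ : Field F) (_ : Algebra k F) (_ : IsAlgClosed F) (f : S →ₐ[k] F),
      ∀ x, f x = 0 ↔ ¬ IsUnit x :=
  ⟨AlgebraicClosure (IsLocalRing.ResidueField S), inferInstance, inferInstance, inferInstance,
    (IsScalarTower.toAlgHom k (IsLocalRing.ResidueField S) _).comp (resA k S), fun x => by
      rw [← resA_eq_zero (k := k), AlgHom.comp_apply, map_eq_zero]⟩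

/-- PTSB.  Paper 3.4, LOC.  Let `F` be an algebraic closure of the residue field.  Over `F` the last
step lies in `B`; with `xt = lev x * wI⁻¹`, `cell_m`, `last` and `cell_iff_inN` give
`InN (xt⁻¹ * fr xt)`; `classify` gives `γ`; the image of `ω` is equivalent to `gpt (ct γ * 1) 0`
(`last_eqv`, `eqv_of_open`); `par`, `isFix_of_local`, `IsFix.eq`. -/
theorem Last.loc [IsLocalRing S] {β : C.Sp} {l : Fin W.d} (hW : W.Last β l) (hβ : C.TopQ β)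
    {ω : C.Pt S} (hω : W.IsPt 1 ω) (h1 : W.Op ω) (h2 : ¬ IsUnit (W.ent ω l)) :
    ∃ γ ∈ C.Gam, ∃ y : S, ¬ IsUnit y ∧ W.Eqv ω (W.gpt (C.ct S γ * C.uf β y) y) := by
  obtain ⟨F, _, _, _, f, hf⟩ := ptsb_res C.k S
  have hl : IsLocalHom (f : S →+* F) := ⟨fun x hx => not_not.1 fun h => hx.ne_zero ((hf x).2 h)⟩
  have h3 := hω.map f
  rw [map_one] at h3
  have h4 := h1.map f
  have hs : ∀ ω' : C.Pt F, W.IsPt 1 ω' → W.ent ω' l = 0 → ω'.Q W.m * (ω'.Q W.d)⁻¹ ∈ C.B F :=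
    fun ω' h5 h6 => by
      have h7 := Ps.mem_B (h5.step l) h6
      rwa [step, hW.hl, ← hW.hd] at h7
  have h5 := hs _ h3 (by rw [ent_map]; exact (hf _).2 h2)
  have hw : C.pm F C.wI ∈ C.L F := pm_mem wI_isWL
  have h6 := ptsb_inN h3 h4 (by
    convert mul_mem h5 h3.last using 1
    group)
  rw [mul_one] at h6
  obtain ⟨γ, hγ, h7⟩ := classify (mul_mem (lev_mem (Or.inl h3.memP)) (inv_mem hw)) h6
  have h8 : W.IsPt 1 (W.gpt (C.ct F γ * 1) 0) := hW.isPt_gpt hγ (one_mem _) (one_mem _)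
    (by rw [map_one, xm_zero, mul_one, lev_of_L (one_mem _)])
  have h9 : (ω.map f).x⁻¹ * (W.gpt (C.ct F γ * 1) 0).x ∈ C.B F := by
    convert mul_mem (inv_mem (lev_inv_mul h3.memP).1) (ptsb_toB (inv_mem h7)) using 1
    rw [gpt_x]
    group
  have h10 := h3.last_eqv h8 h9
  have h11 := hs _ h8 (by rw [ent_gpt, if_neg (by rw [hW.hl]; exact lt_irrefl _), neg_zero])
  have h12 : W.Eqv (ω.map f) (W.gpt (C.ct F γ * 1) 0) := by
    refine h3.eqv_of_open h8 h4 (op_gpt _ _) fun n h13 h14 => ?_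
    rcases h13.eq_or_lt with h15 | h15
    · rw [← h15]
      convert mul_mem (mul_mem h11 h10) (inv_mem h5) using 1
      group
    · rw [le_antisymm h14 (hW.hd.trans_le h15)]
      exact h10
  obtain ⟨u, y, u1, u2, u3, u4, u5, u6, u7⟩ := hW.par f hl hω hγ (one_mem _) (one_mem _)
    (fun a => Matrix.one_apply_eq a) h12
  refine ⟨γ, hγ, y, (hf y).1 u6, ?_⟩
  rw [← (isFix_of_local hβ u1 u2 u3 (fun a b hab => (hf _).1 ?_) u4).eq hβ]
  · exact u7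
  · exact (congrArg (fun x : GL C.I F => x.val a b) u5).trans (Matrix.one_apply_ne hab)

section Field

variable {F : Type} [Field F] [Algebra C.k F]

/-- PTSB.  Points of the open stratum for the word without last letter: with `a = lev x * wI⁻¹`,
`cell_m`, `last`, `cell_iff_inN` give `InN (a⁻¹ g (fr a))`; `inN_iff` and `solv`. -/
theorem IsPt.gen [IsAlgClosed F] (hW : W.d = W.m) {g : GL C.I F} {ω : C.Pt F} (hω : W.IsPt g ω)
    (h : W.Op ω) : ∃ x y b, C.E x y ∧ g = x * y⁻¹ ∧ b ∈ C.U F ∧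
      C.lev x = C.lev ω.x * (C.pm F C.wI)⁻¹ * b := by
  have hw : C.pm F C.wI ∈ C.L F := pm_mem wI_isWL
  have ha := mul_mem (lev_mem (Or.inl hω.memP)) (inv_mem hw)
  obtain ⟨r, b', h1, h2, h3, h4⟩ := inN_iff.1 (ptsb_inN hω h (hW ▸ hω.last))
  obtain ⟨b, y, h5, h6, h7⟩ := solv h3
  obtain ⟨a, e⟩ : ∃ a, a = C.lev ω.x * (C.pm F C.wI)⁻¹ := ⟨_, rfl⟩
  rw [← e] at ha h4 ⊢
  have h8 := E.of_P h1
  rw [h2, map_one] at h8
  refine ⟨a * r * b, C.fr a * 1 * y, b, ((E.of_L ha).mul h8).mul h5, ?_, h6, ?_⟩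
  · have h9 : g = a * (a⁻¹ * g * C.fr a) * (C.fr a)⁻¹ := by group
    rw [h9, h4, h7]
    group
  · rw [lev_mul_P (mul_mem (L_le_P ha) h1) h5.memP, lev_mul_P (L_le_P ha) h1, h2, lev_of_L ha,
      lev_of_L (U_le_L h6), mul_one]

/-- points of the one-dimensional strata are small -/
theorem IsPt.small {g : GL C.I F} {ω : C.Pt F} (hω : W.IsPt g ω) (n₀ : Fin W.d)
    (h : ∀ n, n ≠ n₀ → W.ent ω n = 0) : C.Small C.p g := by
  have h1 : ω.x⁻¹ * g * C.fr (C.lev ω.x) * W.zd F ∈ C.Ps (W.s n₀) F := by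
    rw [ptsc_prod, ← ptsc_suf ω (Nat.zero_le _)]
    refine mul_mem (mul_mem (B_le_PA hω.first) (suf_mem (fun m => ?_) 0)) (B_le_PA hω.last)
    by_cases hm : m = n₀
    · rw [hm]
      exact hω.step n₀
    · exact B_le_PA (Ps.mem_B (hω.step m) (h m hm))
  refine ⟨W.z, _, _, (W.s n₀).i, (W.s n₀).j, W.frame, (E.of_P hω.memP).inv, (W.s n₀).h,
    fun a b hab h2 h3 => ?_⟩
  have h4 := Pat.zero h1 (a := a) (b := b) fun h5 => h5.elim (not_le.2 hab) fun h6 => h6.elim h2 h3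
  rw [Units.val_mul, W.zd_mon.mul_right] at h4
  rw [inv_inv]
  exact (mul_eq_zero.1 h4).resolve_right (W.zd_mon.unit b).ne_zero

end Field

end Wd

end Ctx

end Pool.Agent.MP_b8b722_ag

end

end partPts

section partChart

/-!
Coordinate rings of the charts; smoothness of the strata.
-/

set_option linter.unusedSectionVars false
set_option linter.unusedVariables false

open Matrix

noncomputable section

namespace Pool.Agent.MP_b8b722_ag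

namespace Ctx

namespace Wd

variable {C : Ctx} {W : C.Wd} {A : Type} [CommRing A] [Algebra C.k A]

/-- the coordinate ring of the chart `c` over `(A, g)` -/
structure ChR (g : GL C.I A) (c : W.Ch) where
  R : Type
  [cr : CommRing R]
  [alg : Algebra C.k R]
  ft : Algebra.FiniteType C.k R
  ξ : A →ₐ[C.k] R
  u : GL C.I R
  t : Fin W.d → R
  chart : c.IsChart (C.ma ξ g) u t
  lift : ∀ (S : Type) [CommRing S] [Algebra C.k S] (ξ' : A →ₐ[C.k] S) (u' : GL C.I S)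
    (t' : Fin W.d → S), c.IsChart (C.ma ξ' g) u' t' →
    ∃ ρ : R →ₐ[C.k] S, ρ.comp ξ = ξ' ∧ C.ma ρ u = u' ∧ ∀ n, ρ (t n) = t' n
  gen : ∀ H : Subalgebra C.k R, (∀ a, ξ a ∈ H) → (∀ a b, u.val a b ∈ H) → (∀ n, t n ∈ H) → H = ⊤

attribute [instance] ChR.cr ChR.alg ChR.ft

section charta

variable {S S' : Type} [CommRing S] [CommRing S'] [Algebra C.k S] [Algebra C.k S']

/-- the matrix of `bOf` as a polynomial expression -/
def charta_M (c : W.Ch) (g : GL C.I S) (U : Matrix C.I C.I S) (t : Fin W.d → S) :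
    Matrix C.I C.I S :=
  C.adj U * ((C.pm S c.π)⁻¹ * g).val * C.frM ((C.pm S c.π).val * U) *
    (W.zd S * (C.suf (fun m => C.X (W.s m) (c.ε m) (t m)) 0)⁻¹).val

theorem charta_map (c : W.Ch) (f : S →+* S') (g : GL C.I S) (U : Matrix C.I C.I S)
    (t : Fin W.d → S) :
    (charta_M c g U t).map f = charta_M c (C.mp f g) (U.map f) fun n => f (t n) := by
  have h1 : ((C.pm S c.π)⁻¹ * g).val.map f = ((C.pm S' c.π)⁻¹ * C.mp f g).val := by
    rw [← C.mp_mat, map_mul, map_inv, pm_mp]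
  have h2 : (W.zd S * (C.suf (fun m => C.X (W.s m) (c.ε m) (t m)) 0)⁻¹).val.map f =
      (W.zd S' * (C.suf (fun m => C.X (W.s m) (c.ε m) (f (t m))) 0)⁻¹).val := by
    rw [← C.mp_mat, map_mul, map_inv, zd_mp, suf_mp]
    simp only [X_mp]
  have h3 : (C.pm S c.π).val.map f = (C.pm S' c.π).val := by rw [← C.mp_mat, pm_mp]
  rw [charta_M, charta_M, Matrix.map_mul, Matrix.map_mul, Matrix.map_mul, h1, h2, ← C.adj_map,
    ← frM_map, Matrix.map_mul, h3]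

theorem charta_bOf (c : W.Ch) (g : GL C.I S) {u : GL C.I S} (hu : C.IsU u) (t : Fin W.d → S) :
    (bOf g (c.pt u t)).val = charta_M c g u.val t := by
  have h1 : C.adj u.val = u⁻¹.val := by rw [hu.1.1.adj_eq, hu.sim, one_smul]
  have h2 : bOf g (c.pt u t) = u⁻¹ * ((C.pm S c.π)⁻¹ * g) * C.fr (C.pm S c.π * u) *
      (W.zd S * (C.suf (fun m => C.X (W.s m) (c.ε m) (t m)) 0)⁻¹) := by
    simp only [bOf, Ch.pt, mkPt, _root_.mul_inv_rev, inv_inv, mul_assoc]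
  rw [h2, charta_M, h1]
  rfl

/-- the equations of the chart hold -/
def charta_Good (c : W.Ch) (g : GL C.I S) (U : Matrix C.I C.I S) (t : Fin W.d → S) : Prop :=
  (∀ a b, ¬ (C.blk a = C.blk b ∧ C.rU.r a b) → U a b = 0) ∧ (∀ a, U a a = 1) ∧
    C.adj U * U = 1 ∧ ∀ a b, a < b → charta_M c g U t a b = 0

/-- the equations of the chart -/
def charta_eqs (c : W.Ch) (g : GL C.I S) (U : Matrix C.I C.I S) (t : Fin W.d → S) : Set S :=
  {e | (∃ a b, ¬ (C.blk a = C.blk b ∧ C.rU.r a b) ∧ e = U a b) ∨ (∃ a, e = U a a - 1) ∨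
    (∃ a b, e = (C.adj U * U) a b - (1 : Matrix C.I C.I S) a b) ∨
    ∃ a b, a < b ∧ e = charta_M c g U t a b}

theorem charta_eqs_iff (c : W.Ch) (f : S →+* S') (g : GL C.I S) (U : Matrix C.I C.I S)
    (t : Fin W.d → S) : (∀ e ∈ charta_eqs c g U t, f e = 0) ↔
      charta_Good c (C.mp f g) (U.map f) fun n => f (t n) := by
  have h1 : ∀ a b, f ((C.adj U * U) a b - (1 : Matrix C.I C.I S) a b) =
      (C.adj (U.map f) * U.map f) a b - (1 : Matrix C.I C.I S') a b := fun a b => by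
    rw [C.adj_map, ← Matrix.map_mul, map_sub, ← Matrix.map_one f (map_zero f) (map_one f)]
    rfl
  have h2 : ∀ a b, f (charta_M c g U t a b) =
      charta_M c (C.mp f g) (U.map f) (fun n => f (t n)) a b := fun a b => by
    rw [← charta_map]
    rfl
  constructor
  · intro h
    refine ⟨fun a b hab => h _ (Or.inl ⟨a, b, hab, rfl⟩), fun a => ?_, Matrix.ext fun a b => ?_,
      fun a b hab => ?_⟩
    · have h3 := h _ (Or.inr (Or.inl ⟨a, rfl⟩))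
      rw [map_sub, map_one, sub_eq_zero] at h3
      exact h3
    · rw [← sub_eq_zero, ← h1]
      exact h _ (Or.inr (Or.inr (Or.inl ⟨a, b, rfl⟩)))
    · rw [← h2]
      exact h _ (Or.inr (Or.inr (Or.inr ⟨a, b, hab, rfl⟩)))
  · rintro ⟨k1, k2, k3, k4⟩ e (⟨a, b, hab, rfl⟩ | ⟨a, rfl⟩ | ⟨a, b, rfl⟩ | ⟨a, b, hab, rfl⟩)
    · exact k1 a b hab
    · rw [map_sub, map_one, sub_eq_zero]
      exact k2 a
    · rw [h1, k3, sub_self]
    · rw [h2]
      exact k4 a b hab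

theorem charta_good {c : W.Ch} {g u : GL C.I S} {t : Fin W.d → S} (h : c.IsChart g u t) :
    charta_Good c g u.val t := by
  refine ⟨fun a b hab => ?_, h.1.2, ?_, fun a b hab => ?_⟩
  · by_cases h1 : C.blk a = C.blk b
    · exact Pat.zero h.1.1 fun h2 => hab ⟨h1, h2⟩
    · exact Pat.blk h.1.1 h1
  · rw [h.1.1.1.adj_mul, h.1.sim, one_smul]
  · rw [← charta_bOf c g h.1]
    exact (mem_B.1 h.2).2 a b hab

theorem charta_chart {c : W.Ch} {g : GL C.I S} (hg : g ∈ C.G S) {U : Matrix C.I C.I S}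
    {t : Fin W.d → S} (h : charta_Good c g U t) : ∃ u : GL C.I S, u.val = U ∧ c.IsChart g u t := by
  obtain ⟨k1, k2, k3, k4⟩ := h
  let u : GL C.I S := ⟨U, C.adj U, mul_eq_one_comm.1 k3, k3⟩
  have hu : C.IsU u := ⟨⟨(C.inG_iff u).2 ⟨fun a b hab => k1 a b fun h => hab h.1, 1, isUnit_one,
    by rw [one_smul]; exact k3⟩, fun a b hab => k1 a b fun h => hab h.2⟩, k2⟩
  have hf : C.pm S c.π * u ∈ C.G S := Pat.le_G (c.frame_mem hu)
  refine ⟨u, rfl, hu, mem_B.2 ⟨mem_G.1 ?_, fun a b hab => ?_⟩⟩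
  · exact mul_mem (mul_mem (inv_mem hf) hg) (inv_mem (mul_mem
      (suf_mem (fun m => Pat.le_G (X_mem _ _ _)) 0) (inv_mem (mul_mem (fr_G hf) W.zd_mem))))
  · rw [charta_bOf c g hu]
    exact k4 a b hab

theorem charta_eval (c : W.Ch) (g : GL C.I A) (ξ : A →ₐ[C.k] S) (v : (C.I × C.I) ⊕ Fin W.d → S) :
    (∀ e ∈ charta_eqs c (C.mp MvPolynomial.C g)
      (Matrix.of fun a b => MvPolynomial.X (Sum.inl (a, b)))
      (fun n => (MvPolynomial.X (Sum.inr n) : MvPolynomial ((C.I × C.I) ⊕ Fin W.d) A)),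
        MvPolynomial.eval₂ (ξ : A →+* S) v e = 0) ↔
      charta_Good c (C.ma ξ g) (Matrix.of fun a b => v (Sum.inl (a, b))) fun n => v (Sum.inr n) := by
  have h := charta_eqs_iff c (MvPolynomial.eval₂Hom (ξ : A →+* S) v) (C.mp MvPolynomial.C g)
    (Matrix.of fun a b => MvPolynomial.X (Sum.inl (a, b))) fun n => MvPolynomial.X (Sum.inr n)
  have h1 : C.mp (MvPolynomial.eval₂Hom (ξ : A →+* S) v) (C.mp MvPolynomial.C g) = C.ma ξ g :=
    C.gl_ext fun a b => MvPolynomial.eval₂Hom_C _ _ _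
  have h2 : (Matrix.of fun a b => MvPolynomial.X (Sum.inl (a, b))).map
      (MvPolynomial.eval₂Hom (ξ : A →+* S) v) = Matrix.of fun a b => v (Sum.inl (a, b)) :=
    Matrix.ext fun a b => MvPolynomial.eval₂Hom_X' _ _ _
  rw [h1, h2] at h
  simp only [MvPolynomial.eval₂Hom_X'] at h
  exact h

end charta

/-- Use `exists_rep` with variables `(I × I) ⊕ Fin d`.  For a matrix `U` the equations are: shape
of `U`, diagonal entries `1`, `adj U * U = 1` (so `U` is invertible with inverse `adj U`), and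
the entries above the diagonal of
`adj U * (pm π)⁻¹ * g * frM (pm π * U) * zd * (suf X 0)⁻¹` vanish. -/
theorem exists_chR [Algebra.FiniteType C.k A] {g : GL C.I A} (hg : g ∈ C.G A) (c : W.Ch) :
    Nonempty (ChR g c) := by
  obtain ⟨R, _, _, ξ, v, hft, h1, h2, h3⟩ := exists_rep (k := C.k) A ((C.I × C.I) ⊕ Fin W.d)
    (charta_eqs c (C.mp MvPolynomial.C g) (Matrix.of fun a b => MvPolynomial.X (Sum.inl (a, b)))
      fun n => MvPolynomial.X (Sum.inr n))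
  obtain ⟨u, hu, hc⟩ := charta_chart (Pat.map _ hg) ((charta_eval c g ξ v).1 h1)
  refine ⟨⟨R, hft, ξ, u, fun n => v (Sum.inr n), hc, fun S _ _ ξ' u' t' h => ?_,
    fun H k1 k2 k3 => ?_⟩⟩
  · obtain ⟨ρ, r1, r2⟩ := h2 S ξ' (Sum.elim (fun q => u'.val q.1 q.2) t')
      ((charta_eval c g ξ' _).2 (charta_good h))
    refine ⟨ρ, r1, C.gl_ext fun a b => ?_, fun n => r2 _⟩
    rw [mp_val, hu]
    exact r2 _
  · rw [eq_top_iff, ← h3]
    refine Algebra.adjoin_le ?_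
    rintro x (⟨a, rfl⟩ | ⟨q | n, rfl⟩)
    · exact k1 a
    · have h4 := k2 q.1 q.2
      rw [hu] at h4
      exact h4
    · exact k3 n

namespace ChR

variable {g : GL C.I A} {c : W.Ch} (R : ChR g c)

/-- the universal point -/
def pt : C.Pt R.R := c.pt R.u R.t

/-- equations of the boundary divisors -/
def T (n : Fin W.d) : R.R := Tv (c.ε n) (R.t n)

variable {S S' : Type} [CommRing S] [CommRing S'] [Algebra C.k S] [Algebra C.k S']

theorem isPt : W.IsPt (C.ma R.ξ g) R.pt := R.chart.isPt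

theorem isPt_map (ρ : R.R →ₐ[C.k] S) : W.IsPt (C.ma (ρ.comp R.ξ) g) (R.pt.map ρ) :=
  R.isPt.map ρ

theorem ent_pt (ρ : R.R →ₐ[C.k] S) (n : Fin W.d) : W.ent (R.pt.map ρ) n = ρ (R.T n) := by
  rw [ent_map, pt, Ch.pt, ent_mkPt, T]

theorem hom_ext {ρ ρ' : R.R →ₐ[C.k] S} (h1 : ρ.comp R.ξ = ρ'.comp R.ξ)
    (h2 : C.ma ρ R.u = C.ma ρ' R.u) (h3 : ∀ n, ρ (R.t n) = ρ' (R.t n)) : ρ = ρ' := by
  have h := R.gen (AlgHom.equalizer ρ ρ') (fun a => DFunLike.congr_fun h1 a)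
    (fun a b => congrArg (fun x : GL C.I S => x.val a b) h2) h3
  refine AlgHom.ext fun x => ?_
  have hx : x ∈ AlgHom.equalizer ρ ρ' := h ▸ Algebra.mem_top
  exact hx

theorem hom_ext_eqv {ρ ρ' : R.R →ₐ[C.k] S} (h1 : ρ.comp R.ξ = ρ'.comp R.ξ)
    (h2 : W.Eqv (R.pt.map ρ) (R.pt.map ρ')) : ρ = ρ' := by
  rw [pt, Ch.pt_map, Ch.pt_map] at h2
  obtain ⟨h3, h4⟩ := Ch.uniq (R.chart.1.map _) (R.chart.1.map _) h2
  exact R.hom_ext h1 h3 fun n => congrFun h4 n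

/-- openness in terms of the coordinate ring -/
theorem open_hom (f : S →ₐ[C.k] S') (hf : IsLocalHom (f : S →+* S')) (ξ : A →ₐ[C.k] S)
    {ω : C.Pt S} (hω : W.IsPt (C.ma ξ g) ω) (ρ' : R.R →ₐ[C.k] S') (h1 : ρ'.comp R.ξ = f.comp ξ)
    (h2 : W.Eqv (ω.map f) (R.pt.map ρ')) :
    ∃ ρ : R.R →ₐ[C.k] S, ρ.comp R.ξ = ξ ∧ W.Eqv ω (R.pt.map ρ) ∧ f.comp ρ = ρ' := by
  rw [pt, Ch.pt_map] at h2
  obtain ⟨u, t, k1, k2, k3, k4⟩ := hω.open_chart f hf c (R.chart.1.map _) h2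
  obtain ⟨ρ, r1, r2, r3⟩ := R.lift S ξ u t k1
  refine ⟨ρ, r1, ?_, R.hom_ext ?_ ?_ fun n => ?_⟩
  · rw [pt, Ch.pt_map, r2]
    simp only [r3]
    exact k2
  · rw [AlgHom.comp_assoc, r1, h1]
  · rw [← k3, ← r2]
    rfl
  · rw [← k4, ← r3]
    rfl

/-- Lift `b` with `B.lift`, put `h = b * suf X(t₀) 0 * zd⁻¹`, lift `(x, y) = ((a')⁻¹, (fr a')⁻¹)`
with `Lifts`, consider the point `(1, suf X(t₀) n * zd⁻¹)` over `h`, move it with `(x⁻¹, y⁻¹)` and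
apply `open_hom` and `Eqv.ent`. -/
theorem exists_lift (hA : C.Lifts A g) (hg : g ∈ C.G A) (f : S →ₐ[C.k] S')
    (hf : Function.Surjective f) (hk : RingHom.ker (f : S →+* S') ^ 2 = ⊥) (ρ' : R.R →ₐ[C.k] S')
    (t₀ : Fin W.d → S) (ht : ∀ n, f (t₀ n) = ρ' (R.t n)) :
    ∃ ρ : R.R →ₐ[C.k] S, f.comp ρ = ρ' ∧ ∀ n, ∃ v : Sˣ, ρ (R.T n) = v * Tv (c.ε n) (t₀ n) := by
  have hl := local_of_sq (f : S →+* S') hf hk
  have hc := R.chart.map ρ'
  obtain ⟨a', ha'⟩ : ∃ a', a' = C.pm S' c.π * C.ma ρ' R.u := ⟨_, rfl⟩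
  have haL : a' ∈ C.L S' := ha' ▸ c.frame_mem hc.1
  have hpt : R.pt.map ρ' = W.mkPt a' c.ε fun n => ρ' (R.t n) := by
    rw [pt, Ch.pt_map, Ch.pt, ha']
  have hb' := hc.2
  rw [Ch.pt, ← ha'] at hb'
  obtain ⟨b, hb, hbb⟩ := B.lift (f : S →+* S') hf hb'
  have hX : C.suf (fun m => C.X (W.s m) (c.ε m) (t₀ m)) 0 ∈ C.G S :=
    suf_mem (fun m => Pat.le_G (X_mem _ _ _)) 0
  have hsuf : C.ma f (C.suf (fun m => C.X (W.s m) (c.ε m) (t₀ m)) 0) =
      C.suf (fun m => C.X (W.s m) (c.ε m) (ρ' (R.t m))) 0 := by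
    rw [suf_mp]
    simp only [X_mp, RingHom.coe_coe, ht]
  obtain ⟨ξ, x, y, h1, h2, h3, h4, h5⟩ := hA S S' f hf hk (ρ'.comp R.ξ) a'⁻¹ (C.fr a'⁻¹)
    (b * C.suf (fun m => C.X (W.s m) (c.ε m) (t₀ m)) 0 * (W.zd S)⁻¹) (E.of_L (inv_mem haL))
    (mul_mem (mul_mem (Pat.le_G hb) hX) (inv_mem W.zd_mem)) (by
      rw [map_mul, map_mul, map_inv, hsuf, zd_mp, hbb, map_inv]
      have : C.ma (ρ'.comp R.ξ) g = C.ma ρ' (C.ma R.ξ g) := rfl
      rw [this]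
      simp only [bOf, mkPt]
      group)
  have hω₀ : W.IsPt (b * C.suf (fun m => C.X (W.s m) (c.ε m) (t₀ m)) 0 * (W.zd S)⁻¹)
      (W.mkPt 1 c.ε t₀) := isPt_mkPt (one_mem _) (by simpa [bOf, mkPt] using hb)
  have hω := hω₀.act h2.inv
  rw [h5, show x⁻¹ * (x * C.ma ξ g * y⁻¹) * y⁻¹⁻¹ = C.ma ξ g by group] at hω
  have he : ((W.mkPt 1 c.ε t₀).act x⁻¹ y⁻¹).map f = R.pt.map ρ' := by
    rw [Pt.map_act, mkPt_map, map_inv, map_inv, h3, h4, hpt]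
    simp [Pt.act, mkPt, ht, mul_assoc]
  obtain ⟨ρ, -, e2, e3⟩ := R.open_hom f hl ξ hω ρ' h1.symm (he ▸ Eqv.refl _)
  refine ⟨ρ, e3, fun n => ?_⟩
  have := e2.ent hω n
  rwa [ent_pt, ent_act, ent_mkPt] at this

/-- If some `n ∈ S₀` has `ε n = true` the quotient is trivial. -/
theorem smooth (hA : C.Lifts A g) (hg : g ∈ C.G A) (S₀ : Finset (Fin W.d)) :
    Algebra.FormallySmooth C.k (R.R ⧸ Ideal.span (R.T '' (S₀ : Set (Fin W.d)))) := by
  refine formallySmooth_of_lift _ fun S S' _ _ _ _ f hf hk ρ' h0 => ?_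
  have h1 : ∀ n ∈ S₀, ρ' (R.T n) = 0 := fun n hn => h0 _ (Ideal.subset_span ⟨n, hn, rfl⟩)
  have h2 : ∀ n, ∃ t₀ : S, f t₀ = ρ' (R.t n) ∧ (n ∈ S₀ → Tv (c.ε n) t₀ = 0) := fun n => by
    by_cases hn : n ∈ S₀
    · have h3 := h1 n hn
      rw [T, Tv] at h3
      by_cases he : c.ε n = true
      · rw [if_pos he, map_one] at h3
        obtain ⟨t₀, ht₀⟩ := hf (ρ' (R.t n))
        have h4 : (1 : S) ∈ RingHom.ker (f : S →+* S') := by
          rw [RingHom.mem_ker, map_one]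
          exact h3
        have h5 := Ideal.pow_mem_pow h4 2
        rw [hk, Ideal.mem_bot, one_pow] at h5
        exact ⟨t₀, ht₀, fun _ => by rw [Tv, if_pos he, h5]⟩
      · rw [if_neg he] at h3
        exact ⟨0, by rw [map_zero, h3], fun _ => by rw [Tv, if_neg he]⟩
    · obtain ⟨t₀, ht₀⟩ := hf (ρ' (R.t n))
      exact ⟨t₀, ht₀, fun h => absurd h hn⟩
  choose t₀ ht₀ ht₀' using h2
  obtain ⟨ρ, e1, e2⟩ := R.exists_lift hA hg f hf hk ρ' t₀ ht₀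
  refine ⟨ρ, fun r hr => ?_, e1⟩
  have : Ideal.span (R.T '' (S₀ : Set (Fin W.d))) ≤ RingHom.ker (ρ : R.R →+* S) := by
    rw [Ideal.span_le]
    rintro _ ⟨n, hn, rfl⟩
    obtain ⟨v, hv⟩ := e2 n
    exact hv.trans (by rw [ht₀' n hn, mul_zero])
  exact this hr

/-- lift the residue field point to dual numbers with `t₀ n = ε` -/
theorem T_not_mem (hA : C.Lifts A g) (hg : g ∈ C.G A) (𝔮 : Ideal R.R) [𝔮.IsPrime]
    (S₀ : Finset (Fin W.d)) (hS : ∀ n ∈ S₀, R.T n ∈ 𝔮) {n : Fin W.d} (hn : n ∉ S₀) {s : R.R}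
    (hs : s ∉ 𝔮) : s * R.T n ∉ Ideal.span (R.T '' (S₀ : Set (Fin W.d))) := by
  intro hmem
  have hle : Ideal.span (R.T '' (S₀ : Set (Fin W.d))) ≤ 𝔮 := by
    rw [Ideal.span_le]
    rintro _ ⟨m, hm, rfl⟩
    exact hS m hm
  have hn' : R.T n ∈ 𝔮 := (Ideal.IsPrime.mem_or_mem ‹_› (hle hmem)).resolve_left hs
  have hf : ∀ m, R.T m ∈ 𝔮 → ¬ c.ε m = true ∧ R.t m ∈ 𝔮 := fun m hm => by
    rw [T, Tv] at hm
    split_ifs at hm with he
    · exact absurd ((Ideal.eq_top_iff_one _).2 hm) (Ideal.IsPrime.ne_top ‹_›)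
    · exact ⟨he, hm⟩
  obtain ⟨ρ', hρ'⟩ : ∃ ρ' : R.R →ₐ[C.k] 𝔮.ResidueField, ∀ r, ρ' r = 0 ↔ r ∈ 𝔮 :=
    ⟨IsScalarTower.toAlgHom C.k R.R 𝔮.ResidueField,
      fun r => Ideal.algebraMap_residueField_eq_zero⟩
  let f : DualNumber 𝔮.ResidueField →ₐ[C.k] 𝔮.ResidueField := TrivSqZeroExt.fstHom _ _ _
  have hsurj : Function.Surjective f := fun a => ⟨TrivSqZeroExt.inl a, rfl⟩
  have hk : RingHom.ker (f : DualNumber 𝔮.ResidueField →+* 𝔮.ResidueField) ^ 2 = ⊥ := by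
    rw [pow_two, eq_bot_iff, Ideal.mul_le]
    intro a ha b hb
    have ha' : a.fst = 0 := ha
    have hb' : b.fst = 0 := hb
    rw [Ideal.mem_bot]
    ext <;> simp [ha', hb']
  obtain ⟨ρ, e1, e2⟩ := R.exists_lift hA hg f hsurj hk ρ'
    (fun m => if m = n then DualNumber.eps else TrivSqZeroExt.inl (ρ' (R.t m))) fun m => by
      split_ifs with hm
      · rw [hm, (hρ' _).2 (hf n hn').2]
        rfl
      · rfl
  have hker : Ideal.span (R.T '' (S₀ : Set (Fin W.d))) ≤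
      RingHom.ker (ρ : R.R →+* DualNumber 𝔮.ResidueField) := by
    rw [Ideal.span_le]
    rintro _ ⟨m, hm, rfl⟩
    obtain ⟨v, hv⟩ := e2 m
    have hmn : m ≠ n := fun e => hn (e ▸ hm)
    refine hv.trans ?_
    rw [Tv, if_neg (hf m (hS m hm)).1, if_neg hmn, (hρ' _).2 (hf m (hS m hm)).2,
      TrivSqZeroExt.inl_zero, mul_zero]
  have h0 : ρ s * ρ (R.T n) = 0 := by
    rw [← map_mul]
    exact hker hmem
  obtain ⟨v, hv⟩ := e2 n
  rw [Tv, if_neg (hf n hn').1, if_pos rfl] at hv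
  have hu : IsUnit (ρ s) := by
    refine (local_of_sq (f : DualNumber 𝔮.ResidueField →+* 𝔮.ResidueField) hsurj hk).map_nonunit _ (Ne.isUnit fun h => hs ((hρ' s).1 ?_))
    rw [← e1]
    exact h
  rw [hv, hu.mul_right_eq_zero, v.isUnit.mul_right_eq_zero] at h0
  simpa using congrArg TrivSqZeroExt.snd h0

/-- the product of the equations of the first `m` divisors -/
def Tm : R.R := ∏ n : Fin W.d with n.val < W.m, R.T n

theorem op_iff (ρ : R.R →ₐ[C.k] S) : W.Op (R.pt.map ρ) ↔ IsUnit (ρ R.Tm) := by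
  rw [Tm, map_prod, IsUnit.prod_iff]
  simp only [Op, ent_pt, Finset.mem_filter, Finset.mem_univ, true_and]

theorem pt_map (ρ : R.R →ₐ[C.k] S) : R.pt.map ρ = c.pt (C.ma ρ R.u) fun n => ρ (R.t n) :=
  Ch.pt_map _ _ _ _

/-- Paper 3.2, DOM -/
theorem dom [IsDomain A] [Algebra.FiniteType C.k A] (hg : g ∈ C.G A)
    (hε : ∀ n : Fin W.d, W.m ≤ n.val → c.ε n = false) {a : A} (ha : a ≠ 0) {s : R.R}
    (hs : s * R.ξ a ∈ Ideal.span (R.T '' {n | W.m ≤ n.val})) :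
    ∃ N : ℕ, R.Tm ^ N * s ∈ Ideal.span (R.T '' {n | W.m ≤ n.val}) := by
  have hT : ∀ n : Fin W.d, W.m ≤ n.val → R.T n = R.t n := fun n hn => by
    rw [T, hε n hn, Tv, if_neg Bool.false_ne_true]
  refine nzd_of_smooth R.ξ _ R.Tm (fun S S' _ _ _ _ f hf hk ζ ρ' h1 h2 h3 => ?_) ha hs
  have h4 : c.IsChart (C.ma f (C.ma ζ g)) (C.ma ρ' R.u) fun n => ρ' (R.t n) := by
    have := R.chart.map ρ'
    rwa [show C.ma ρ' (C.ma R.ξ g) = C.ma f (C.ma ζ g) from congrArg (fun φ => C.ma φ g) h1] at this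
  obtain ⟨u, t, k1, k2, k3, k4⟩ := c.et_exists f hf hk (Pat.map _ hg) h4
    (R.pt_map ρ' ▸ (R.op_iff ρ').2 h3) 0 fun n hn => by
      rw [← hT n hn, h2 _ (Ideal.subset_span ⟨n, hn, rfl⟩)]
      exact map_zero f
  obtain ⟨ρ, r1, r2, r3⟩ := R.lift S ζ u t k1
  refine ⟨ρ, r1, R.hom_ext ?_ ?_ fun n => ?_, fun r hr => ?_⟩
  · rw [AlgHom.comp_assoc, r1, h1]
  · rw [← k2, ← r2]
    rfl
  · rw [← k3, ← r3]
    rfl
  · have : Ideal.span (R.T '' {n | W.m ≤ n.val}) ≤ RingHom.ker (ρ : R.R →+* S) := by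
      rw [Ideal.span_le]
      rintro _ ⟨n, hn, rfl⟩
      exact (congrArg ρ (hT n hn)).trans ((r3 n).trans (k4 n hn))
    exact this hr

/-- the map `A[X] → R`, `X ↦ t l` -/
def ξt (l : Fin W.d) : Polynomial A →ₐ[C.k] R.R := Polynomial.aevalTower R.ξ (R.t l)

theorem ξt_C (l : Fin W.d) (a : A) : R.ξt l (Polynomial.C a) = R.ξ a :=
  Polynomial.aevalTower_C _ _ _

theorem ξt_X (l : Fin W.d) : R.ξt l Polynomial.X = R.t l := Polynomial.aevalTower_X _ _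

/-- Paper 3.2, UNR -/
theorem unr {F : Type} [Field F] [Algebra C.k F] {β : C.Sp} {l : Fin W.d} (hW : W.Last β l)
    (j : R.R →ₐ[C.k] F) (hj : j R.Tm ≠ 0) (r : R.R) :
    ∃ P : Polynomial (Polynomial A), (∃ n, j (R.ξt l (P.coeff n)) ≠ 0) ∧
      P.eval₂ (j.comp (R.ξt l) : Polynomial A →+* F) (j r) = 0 := by
  refine alg_of_unram (R.ξt l) j R.Tm hj (fun S S' _ _ _ _ f hf hk ρ₁ ρ₂ h1 h2 h3 => ?_) r
  have h4 : ρ₁.comp R.ξ = ρ₂.comp R.ξ := AlgHom.ext fun a => by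
    simpa only [AlgHom.comp_apply, ξt_C] using DFunLike.congr_fun h3 (Polynomial.C a)
  have h5 : ρ₁ (R.t l) = ρ₂ (R.t l) := by
    simpa only [AlgHom.comp_apply, ξt_X] using DFunLike.congr_fun h3 Polynomial.X
  have h6 : IsUnit (ρ₂ R.Tm) := (local_of_sq (f : S →+* S') hf hk).1 _ (by
    have := h2.map f
    rwa [show f (ρ₁ R.Tm) = f (ρ₂ R.Tm) from DFunLike.congr_fun h1 _] at this)
  have h7 := R.chart.map ρ₂
  rw [show C.ma ρ₂ (C.ma R.ξ g) = C.ma ρ₁ (C.ma R.ξ g) from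
    congrArg (fun φ => C.ma φ g) h4.symm] at h7
  obtain ⟨k1, k2⟩ := c.et_unique f hk (R.chart.map ρ₁) h7 (R.pt_map ρ₁ ▸ (R.op_iff ρ₁).2 h2)
    (R.pt_map ρ₂ ▸ (R.op_iff ρ₂).2 h6) (congrArg (fun φ => C.ma φ R.u) h1) fun n hn => by
      obtain rfl : n = l := by
        by_contra h
        exact not_lt.2 hn (hW.lt.2 h)
      exact h5
  exact R.hom_ext h4 k1 fun n => congrFun k2 n

end ChR

end Wd

/-- Paper 3.2, GEN -/
theorem gen_triv {C : Ctx} {A Ω : Type} [CommRing A] [Algebra C.k A] [IsDomain A]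
    [Algebra.FiniteType C.k A] [Field Ω] [Algebra C.k Ω] [IsAlgClosed Ω] {g : GL C.I A}
    (hg : g ∈ C.G A) (ξ₀ : A →ₐ[C.k] C.k) (h0 : C.ma ξ₀ g = 1) (e : A →ₐ[C.k] Ω)
    (he : Function.Injective e) : ∃ x y u b, C.E x y ∧ C.ma e g = x * y⁻¹ ∧ u ∈ C.L Ω ∧
      u ∈ C.B Ω ∧ b ∈ C.U Ω ∧ C.lev x = u * b := by
  obtain ⟨W, hW⟩ := exists_wd0 (C := C)
  obtain ⟨R⟩ := Wd.exists_chR hg W.c0
  have h1 := (Wd.isPt_gpt0 (S := C.k) hW).first
  rw [Wd.gpt, one_mul, ← mul_one (C.pm C.k C.wI), ← h0] at h1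
  obtain ⟨ρ, r1, r2, r3⟩ := R.lift C.k ξ₀ 1 _ ⟨IsU.one, by rw [h0] at h1 ⊢; exact h1⟩
  have h2 : IsUnit (ρ R.Tm) := (R.op_iff ρ).1 (R.pt_map ρ ▸ Wd.op_c0 _ _)
  have hJ : Ideal.span (R.T '' {n | W.m ≤ n.val}) = ⊥ := by
    rw [Ideal.span_eq_bot]
    rintro _ ⟨n, hn, -⟩
    exact absurd (n.2.trans_eq hW) (not_lt.2 (show W.m ≤ n.val from hn))
  obtain ⟨j, j1, j2⟩ := exists_point R.ξ e he R.Tm fun a N ha h => by
    obtain ⟨N', h3⟩ := R.dom hg (fun n hn => absurd (n.2.trans_eq hW) (not_lt.2 hn)) ha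
      (s := R.Tm ^ N) (by rw [h]; exact zero_mem _)
    rw [hJ, Ideal.mem_bot] at h3
    have h4 := congrArg ρ h3
    rw [map_mul, map_pow, map_pow, map_zero] at h4
    exact ((h2.pow _).mul (h2.pow _)).ne_zero h4
  obtain ⟨x, y, b, k1, k2, k3, k4⟩ := (R.isPt_map j).gen hW ((R.op_iff j).2 j2.isUnit)
  have hu : C.IsU (C.ma j R.u) := R.chart.1.map _
  have hx : (R.pt.map j).x = C.pm Ω C.wI * C.ma j R.u := congrArg Pt.x (R.pt_map j)
  have hL : C.pm Ω C.wI * C.ma j R.u ∈ C.L Ω := mul_mem (pm_mem wI_isWL) (U_le_L hu.1)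
  rw [hx, lev_of_L hL] at k4
  refine ⟨x, y, _, b, k1, j1 ▸ k2, mul_mem hL (inv_mem (pm_mem wI_isWL)), ?_, k3, k4⟩
  have h5 := (pm_mon (S := Ω) wI_isWL.1).inv.conj_pat wI_isWL.1.inv (R := C.rU) (R' := C.rB)
    (fun a b hab h => ?_) hu.1
  · rwa [inv_inv] at h5
  · rw [wI_inv] at h
    have h6 : C.lo a ↔ C.lo b := by rw [← wI_isWL.2 a, ← wI_isWL.2 b]; exact h.2
    exact not_lt.1 fun h7 => not_lt.2 h.1 ((wI_lt hab h6).2 h7)

variable {C : Ctx} (𝒜 : C.Atlas) (W : C.Wd)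

namespace Atlas

/-- a chosen coordinate ring -/
def R (i : 𝒜.ι) (c : W.Ch) : Wd.ChR (𝒜.g i) c := (Wd.exists_chR (𝒜.g_mem i) c).some

/-- a generic point of the tower -/
structure GP where
  ω : C.Pt 𝒜.Ω
  pt : W.IsPt 𝒜.g0 ω
  inj : ∀ (i : 𝒜.ι) (c : W.Ch) (R : Wd.ChR (𝒜.g i) c) (j : R.R →ₐ[C.k] 𝒜.Ω), j.comp R.ξ = 𝒜.e i →
    W.Eqv (ω.act (𝒜.x i) (𝒜.y i)) (R.pt.map j) → ∀ (𝔮 : Ideal R.R) [𝔮.IsPrime],
      (∀ r, j r = 0 → r ∈ 𝔮) → ∀ r, j r = 0 → ∃ s, s ∉ 𝔮 ∧ s * r = 0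

variable {𝒜 W}

/-- the generic point in the chart `i` -/
def gp (G : 𝒜.GP W) (i : 𝒜.ι) : C.Pt 𝒜.Ω := G.ω.act (𝒜.x i) (𝒜.y i)

/-- `j` is the generic point -/
def Gen (G : 𝒜.GP W) (i : 𝒜.ι) (c : W.Ch) (j : (𝒜.R W i c).R →ₐ[C.k] 𝒜.Ω) : Prop :=
  j.comp (𝒜.R W i c).ξ = 𝒜.e i ∧ W.Eqv (gp G i) ((𝒜.R W i c).pt.map j)

theorem chartc_local {F S : Type} [Field F] [CommRing S] [Nontrivial S] (f : F →+* S) :
    IsLocalHom f :=
  ⟨fun a h => isUnit_iff_ne_zero.2 fun e => h.ne_zero (by rw [e, map_zero])⟩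

theorem chartc_lift {k R F : Type} [Field k] [CommRing R] [Algebra k R] [Field F] [Algebra k F]
    (𝔭 : Ideal R) [𝔭.IsPrime] (φ : R →ₐ[k] F) (h : ∀ s, φ s = 0 → s ∈ 𝔭) :
    ∃ φ' : Localization.AtPrime 𝔭 →ₐ[k] F,
      φ'.comp (IsScalarTower.toAlgHom k R (Localization.AtPrime 𝔭)) = φ :=
  ⟨IsLocalization.liftAlgHom (M := 𝔭.primeCompl) (f := φ)
    fun y => isUnit_iff_ne_zero.2 fun e => y.2 (h _ e),
    AlgHom.ext fun r => IsLocalization.lift_eq _ r⟩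

theorem chartc_closure (k D : Type) [Field k] [CommRing D] [IsDomain D] [Algebra k D] :
    ∃ φ : D →ₐ[k] AlgebraicClosure (FractionRing D), Function.Injective φ :=
  ⟨(IsScalarTower.toAlgHom k (FractionRing D) _).comp (IsScalarTower.toAlgHom k D _),
    (algebraMap (FractionRing D) _).injective.comp (IsFractionRing.injective D _)⟩

theorem chartc_hom (i : 𝒜.ι) {O : Type} [CommRing O] [IsLocalRing O] [Algebra C.k O]
    (ξ : 𝒜.A i →ₐ[C.k] O) {ω : C.Pt O} (hω : W.IsPt (C.ma ξ (𝒜.g i)) ω) :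
    ∃ (c : W.Ch) (ρ : (𝒜.R W i c).R →ₐ[C.k] O), ρ.comp (𝒜.R W i c).ξ = ξ ∧
      W.Eqv ω ((𝒜.R W i c).pt.map ρ) := by
  obtain ⟨c, u, t, h1, h2⟩ := hω.exists_chart
  obtain ⟨ρ, h3, h4, h5⟩ := (𝒜.R W i c).lift O ξ u t h1
  refine ⟨c, ρ, h3, ?_⟩
  rw [Wd.ChR.pt, Wd.Ch.pt_map, h4, funext h5]
  exact h2

theorem isPt_gp (G : 𝒜.GP W) (i : 𝒜.ι) : W.IsPt (C.ma (𝒜.e i) (𝒜.g i)) (gp G i) := by
  rw [𝒜.triv]
  exact G.pt.act (𝒜.xy i)

theorem Gen.inj {G : 𝒜.GP W} {i : 𝒜.ι} {c : W.Ch} {j : (𝒜.R W i c).R →ₐ[C.k] 𝒜.Ω}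
    (hj : Gen G i c j) (𝔮 : Ideal (𝒜.R W i c).R) [𝔮.IsPrime] (hq : ∀ r, j r = 0 → r ∈ 𝔮)
    {r : (𝒜.R W i c).R} (hr : j r = 0) : ∃ s, s ∉ 𝔮 ∧ s * r = 0 :=
  G.inj i c _ j hj.1 hj.2 𝔮 hq r hr

theorem chartd_root {k F Ω : Type} [Field k] [Field F] [Algebra k F] [IsAlgClosed F] [Field Ω]
    [Algebra k Ω] (ι : F →ₐ[k] Ω) {D : Type} [CommRing D] (φ : D →+* Ω) (hφ : ∀ a, φ a ∈ ι.range)
    {P : Polynomial D} (hP : ∃ n, φ (P.coeff n) ≠ 0) {x : Ω} (hx : P.eval₂ φ x = 0) :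
    x ∈ ι.range := by
  obtain ⟨P₀, h0⟩ := (Polynomial.mem_lifts (f := (ι : F →+* Ω)) (P.map φ)).1
    ((Polynomial.lifts_iff_coeff_lifts _).2 fun n => by rw [Polynomial.coeff_map]; exact hφ _)
  have h1 : P₀.map (ι : F →+* Ω) ≠ 0 := fun h => by
    obtain ⟨n, hn⟩ := hP
    exact hn (by rw [← Polynomial.coeff_map, ← h0, h, Polynomial.coeff_zero])
  exact (IsAlgClosed.splits P₀).mem_range_of_isRoot (i := (ι : F →+* Ω))
    (fun h => h1 (by rw [h, Polynomial.map_zero]))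
    (by rw [h0, Polynomial.IsRoot, Polynomial.eval_map, hx])

theorem gp_inj (h1 : 𝒜.g0 = 1) {Ω : Type} [Field Ω] [Algebra C.k Ω]
    (ι : 𝒜.Ω →ₐ[C.k] Ω) {y : Ω} (hy : y ∉ ι.range) {β : C.Sp} {l : Fin W.d} (hW : W.Last β l)
    (hβ : C.TopQ β) {γ : GL C.I C.k} (hγ : γ ∈ C.Gam) (i : 𝒜.ι) (c : W.Ch) (R : Wd.ChR (𝒜.g i) c)
    (j : R.R →ₐ[C.k] Ω) (hj1 : j.comp R.ξ = ι.comp (𝒜.e i))
    (hj2 : W.Eqv ((W.gpt (C.ct Ω γ * C.uf β y) y).act (C.ma ι (𝒜.x i)) (C.ma ι (𝒜.y i)))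
      (R.pt.map j)) (𝔮 : Ideal R.R) [𝔮.IsPrime] (hq : ∀ r, j r = 0 → r ∈ 𝔮) (r : R.R)
    (hr : j r = 0) : ∃ s, s ∉ 𝔮 ∧ s * r = 0 := by
  have hpt := hW.isPt_uf hβ hγ y
  have hι : Function.Injective ι := (ι : 𝒜.Ω →+* Ω).injective
  have hT : j R.Tm ≠ 0 := ((R.op_iff j).1 (((Wd.op_gpt _ _).act _ _).eqv
    (hpt.act ((𝒜.xy i).map _)) hj2)).ne_zero
  have hs := R.smooth (𝒜.smooth i) (𝒜.g_mem i) ∅
  have hJ : Ideal.span (R.T '' ((∅ : Finset (Fin W.d)) : Set (Fin W.d))) = ⊥ := by simp only [Finset.coe_empty, Set.image_empty, Submodule.span_empty]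
  have := R.ft
  have hp := isPrime_map_of_smooth (k := C.k)
    (Ideal.span (R.T '' ((∅ : Finset (Fin W.d)) : Set (Fin W.d)))) 𝔮 (hJ.le.trans bot_le)
  rw [hJ, Ideal.map_bot] at hp
  have : IsDomain (Localization.AtPrime 𝔮) := IsDomain.of_bot_isPrime _
  obtain ⟨φ, hφ⟩ := chartc_closure C.k (Localization.AtPrime 𝔮)
  let f := φ.comp (IsScalarTower.toAlgHom C.k R.R (Localization.AtPrime 𝔮))
  have hf : ∀ x, f x = 0 → ∃ s, s ∉ 𝔮 ∧ s * x = 0 := fun x hx => by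
    have h2 : algebraMap R.R (Localization.AtPrime 𝔮) x = 0 :=
      hφ (hx.trans (map_zero _).symm)
    obtain ⟨s, h3⟩ := (IsLocalization.map_eq_zero_iff 𝔮.primeCompl _ x).1 h2
    exact ⟨s, s.2, h3⟩
  have hfj : ∀ x, f x = 0 → j x = 0 := fun x hx => by
    obtain ⟨s, h2, h3⟩ := hf x hx
    have h4 := congrArg j h3
    rw [map_mul, map_zero] at h4
    exact (mul_eq_zero.1 h4).resolve_left fun e => h2 (hq s e)
  refine hf r (ker_le_of_alg (R.ξt l) f j hfj ((injective_iff_map_eq_zero _).2 fun P hP => ?_)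
    (R.unr hW f fun h => hT (hfj _ h)) hr)
  by_contra hP0
  have h2 : ∀ a, j (R.ξ a) ∈ ι.range := fun a => ⟨_, (DFunLike.congr_fun hj1 a).symm⟩
  have h3 : j (R.t l) ∈ ι.range := by
    refine chartd_root ι (j.comp R.ξ : 𝒜.A i →+* Ω) h2 (P := P) ⟨P.natDegree, fun h => ?_⟩ ?_
    · exact hP0 (Polynomial.leadingCoeff_eq_zero.1 (𝒜.inj i (hι (by
        rw [map_zero, map_zero]
        exact (DFunLike.congr_fun hj1 _).symm.trans h))))
    · exact (Polynomial.hom_eval₂ P (R.ξ : 𝒜.A i →+* R.R) (j : R.R →+* Ω) _).symm.trans hP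
  have h4 : ∀ P', j (R.ξt l P') ∈ ι.range := fun P' => by
    induction P' using Polynomial.induction_on' with
    | add p q hp hq => rw [map_add, map_add]; exact add_mem hp hq
    | monomial n a =>
      rw [← Polynomial.C_mul_X_pow_eq_monomial, map_mul, map_pow, R.ξt_C, R.ξt_X, map_mul, map_pow]
      exact mul_mem (h2 a) (pow_mem h3 n)
  have h5 : ∀ r, j r ∈ ι.range := fun r => by
    obtain ⟨P', k1, k2⟩ := R.unr hW j hT r
    exact chartd_root ι _ h4 k1 k2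
  let j₀ : R.R →ₐ[C.k] 𝒜.Ω := (AlgEquiv.ofInjective ι hι).symm.toAlgHom.comp (j.codRestrict _ h5)
  have h6 : ι.comp j₀ = j := AlgHom.ext fun r =>
    congrArg Subtype.val ((AlgEquiv.ofInjective ι hι).apply_symm_apply (j.codRestrict _ h5 r))
  have h7 : j₀.comp R.ξ = 𝒜.e i := AlgHom.ext fun a => hι (by
    rw [← AlgHom.comp_apply ι, ← AlgHom.comp_assoc, h6, hj1, AlgHom.comp_apply])
  have h8 := (R.isPt_map j₀).act (𝒜.xy i).inv
  rw [h7, 𝒜.triv i, h1, mul_one, inv_inv,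
    inv_mul_cancel_left, inv_mul_cancel] at h8
  have h9 := (hj2.act (C.ma ι (𝒜.x i))⁻¹ (C.ma ι (𝒜.y i))⁻¹).symm
  rw [Pt.act_act, inv_mul_cancel, inv_mul_cancel, Pt.act_one, ← h6, ← Pt.map_map, ← map_inv,
    ← map_inv, ← Pt.map_act] at h9
  obtain ⟨u, y₀, -, -, -, -, -, k, -⟩ := hW.par ι (chartc_local _) h8 hγ (uf_spec hβ y).1
    (uf_spec hβ y).2.1 (uf_spec hβ y).diag h9
  exact hy ⟨y₀, k⟩

/-- Paper 3.3: the generic points -/
theorem exists_gp (h1 : 𝒜.g0 = 1) {Ω : Type} [Field Ω] [Algebra C.k Ω] [IsAlgClosed Ω]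
    (ι : 𝒜.Ω →ₐ[C.k] Ω) {y : Ω} (hy : y ∉ ι.range) {β : C.Sp} {l : Fin W.d} (hW : W.Last β l)
    (hβ : C.TopQ β) {γ : GL C.I C.k} (hγ : γ ∈ C.Gam) :
    ∃ G : (𝒜.ext ι).GP W, G.ω = W.gpt (C.ct Ω γ * C.uf β y) y :=
  ⟨⟨_, by
    rw [show (𝒜.ext ι).g0 = 1 from (congrArg (C.ma ι) h1).trans (map_one _)]
    exact hW.isPt_uf hβ hγ y, gp_inj h1 ι hy hW hβ hγ⟩, rfl⟩

/-- the point `ω` over `ξ` is a specialisation of the generic point -/
def Vis (G : 𝒜.GP W) (i : 𝒜.ι) (F : Type) [Field F] [Algebra C.k F]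
    (ξ : 𝒜.A i →ₐ[C.k] F) (ω : C.Pt F) : Prop :=
  ∃ (c : W.Ch) (j : (𝒜.R W i c).R →ₐ[C.k] 𝒜.Ω) (ρ : (𝒜.R W i c).R →ₐ[C.k] F),
    Gen G i c j ∧ ρ.comp (𝒜.R W i c).ξ = ξ ∧ W.Eqv ω ((𝒜.R W i c).pt.map ρ) ∧
      ∀ r, j r = 0 → ρ r = 0

variable {G : 𝒜.GP W} {i : 𝒜.ι} {F F' : Type} [Field F] [Algebra C.k F] [Field F']
  [Algebra C.k F']

theorem Vis.eqv {ξ : 𝒜.A i →ₐ[C.k] F} {ω ω' : C.Pt F} (h : Vis G i F ξ ω)
    (h' : W.Eqv ω ω') : Vis G i F ξ ω' := by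
  obtain ⟨c, j, ρ, h1, h2, h3, h4⟩ := h
  exact ⟨c, j, ρ, h1, h2, h'.symm.trans h3, h4⟩

theorem vis_gp : Vis G i 𝒜.Ω (𝒜.e i) (gp G i) := by
  obtain ⟨c, ρ, h2, h3⟩ := chartc_hom i (𝒜.e i) (isPt_gp G i)
  exact ⟨c, ρ, ρ, ⟨h2, h3⟩, h2, h3, fun _ h => h⟩

/-- Independence of the chart: localise the first ring at `ker ρ₁` and apply `ChR.open_hom` to
the local map from the localisation to `F`. -/
theorem Vis.chart {ξ : 𝒜.A i →ₐ[C.k] F} {ω : C.Pt F} (h : Vis G i F ξ ω) (c : W.Ch)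
    (ρ : (𝒜.R W i c).R →ₐ[C.k] F) (hρ : ρ.comp (𝒜.R W i c).ξ = ξ)
    (hω : W.Eqv ω ((𝒜.R W i c).pt.map ρ)) :
    ∃ j, Gen G i c j ∧ ∀ r, j r = 0 → ρ r = 0 := by
  obtain ⟨c₁, j₁, ρ₁, ⟨h1, h2⟩, h3, h4, h5⟩ := h
  unfold Gen
  generalize 𝒜.R W i c = R at *
  generalize 𝒜.R W i c₁ = R₁ at *
  have : (RingHom.ker ρ₁).IsPrime := RingHom.ker_isPrime ρ₁
  obtain ⟨ρ', hρ'⟩ := chartc_lift (RingHom.ker ρ₁) ρ₁ fun s hs => hs
  obtain ⟨j', hj'⟩ := chartc_lift (RingHom.ker ρ₁) j₁ h5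
  set α := IsScalarTower.toAlgHom C.k R₁.R (Localization.AtPrime (RingHom.ker ρ₁)) with hα
  have hs : ∀ z, ∃ a s, ρ₁ s ≠ 0 ∧ z * α s = α a := fun z => by
    obtain ⟨⟨a, s⟩, e⟩ := IsLocalization.surj (RingHom.ker ρ₁).primeCompl z
    exact ⟨a, s, s.2, e⟩
  have e1 : ∀ a, ρ' (α a) = ρ₁ a := fun a => DFunLike.congr_fun hρ' a
  have e2 : ∀ a, j' (α a) = j₁ a := fun a => DFunLike.congr_fun hj' a
  have hl : IsLocalHom (ρ' : Localization.AtPrime (RingHom.ker ρ₁) →+* F) := ⟨fun z hz => by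
    obtain ⟨a, s, h6, h7⟩ := hs z
    have h8 := congrArg ρ' h7
    rw [map_mul, e1, e1] at h8
    have h9 : a ∈ (RingHom.ker ρ₁).primeCompl := fun e =>
      mul_ne_zero hz.ne_zero h6 (h8.trans e)
    exact isUnit_of_mul_isUnit_left (h7 ▸ IsLocalization.map_units _ ⟨a, h9⟩)⟩
  obtain ⟨τ, h6, h7, h8⟩ := R.open_hom ρ' hl (α.comp R₁.ξ) (R₁.isPt_map α) ρ
    (by rw [← AlgHom.comp_assoc, hρ', hρ, h3])
    (by rw [Pt.map_map, hρ']; exact h4.symm.trans hω)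
  refine ⟨j'.comp τ, ⟨?_, ?_⟩, fun r hr => ?_⟩
  · rw [AlgHom.comp_assoc, h6, ← AlgHom.comp_assoc, hj', h1]
  · have h9 := h7.map j'
    rw [Pt.map_map, Pt.map_map, hj'] at h9
    exact h2.trans h9
  · obtain ⟨a, s, h9, h10⟩ := hs (τ r)
    have h11 := congrArg j' h10
    have h12 := congrArg ρ' h10
    rw [map_mul, show j' (τ r) = 0 from hr, zero_mul, e2] at h11
    rw [map_mul, e1, e1, h5 a h11.symm] at h12
    rw [← h8]
    exact (mul_eq_zero.1 h12).resolve_right h9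

/-- visibility is stable under specialisation and generisation -/
theorem vis_iff {O : Type} [CommRing O] [IsLocalRing O]
    [Algebra C.k O] (ξ : 𝒜.A i →ₐ[C.k] O) {ω : C.Pt O} (hω : W.IsPt (C.ma ξ (𝒜.g i)) ω)
    (r : O →ₐ[C.k] F) (hr : IsLocalHom (r : O →+* F)) (f : O →ₐ[C.k] F') :
    Vis G i F (r.comp ξ) (ω.map r) ↔ Vis G i F' (f.comp ξ) (ω.map f) := by
  obtain ⟨c, ρ, h2, h3⟩ := chartc_hom i ξ hω
  have hu : ∀ z, r z ≠ 0 → IsUnit z := fun z hz => hr.1 z (isUnit_iff_ne_zero.2 hz)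
  have e1 : (r.comp ρ).comp (𝒜.R W i c).ξ = r.comp ξ := by rw [AlgHom.comp_assoc, h2]
  have e2 : (f.comp ρ).comp (𝒜.R W i c).ξ = f.comp ξ := by rw [AlgHom.comp_assoc, h2]
  constructor
  · intro h
    obtain ⟨j, h4, h5⟩ := h.chart c (r.comp ρ) e1 (h3.map r)
    refine ⟨c, j, f.comp ρ, h4, e2, h3.map f, fun x hx => ?_⟩
    have : (RingHom.ker (r.comp ρ)).IsPrime := RingHom.ker_isPrime _
    obtain ⟨s, h6, h7⟩ := h4.inj (RingHom.ker (r.comp ρ)) h5 hx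
    have h8 := congrArg ρ h7
    rw [map_mul, map_zero, (hu (ρ s) h6).mul_right_eq_zero] at h8
    rw [AlgHom.comp_apply, h8, map_zero]
  · intro h
    obtain ⟨j, h4, h5⟩ := h.chart c (f.comp ρ) e2 (h3.map f)
    refine ⟨c, j, r.comp ρ, h4, e1, h3.map r, fun x hx => ?_⟩
    by_contra h6
    exact ((hu (ρ x) h6).map f).ne_zero (h5 x hx)

end Atlas

end Ctx

end Pool.Agent.MP_b8b722_ag

end

end partChart
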