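import Pool.Agent.MP_b8b722_ag.A7
import Pool.Agent.MP_b8b722_ag.A4

attribute [-instance] instTopologicalSpaceMatrix littleWedderburn RKHS.instFunLike
  NonUnitalAlgHomClass.toNonUnitalRingHomClass IdemSemiring.toSemiring
  MonTypeEquivalenceMon.monMonoid instCoeTCOfCoe CommMonTypeEquivalenceCommMon.commMonCommMonoid
  ContinuousSemilinearMapClass.toSemilinearMapClass NeZero.charZero_one
  IsUnit.instDecidableOfExistsUnitsEqVal RingConeClass.toSubsemiringClass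
  instNonUnitalAlgHomClassOfNonUnitalAlgEquivClass
  ContinuousMonoidHom.instCoeOutOfMonoidHomClassOfContinuousMapClass
  CommGrpTypeEquivalenceCommGrp.commGrpCommGroup BialgHomClass.toMonoidHomClass
  IdemCommSemiring.toCommSemiring instCharZeroOfIsSemireal instCommGroupOfIsSimpleGroupOfIsNilpotent
  CoalgHomClass.toSemilinearMapClass SemilatticeInf.toPartialOrder NormedField.toField
  SubringClass.toSubsemiringClass ValuationClass.toMonoidWithZeroHomClass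
  RingHomClass.toLinearMapClassNNRat Ring.toSemiring NormMulClass.toNoZeroDivisors
  instIsDedekindFiniteMonoidOfFinite GroupConeClass.toSubmonoidClass instCoeOutOfCoeFun
  instCoeTOfCoeDep BialgHomClass.toAlgHomClass IsometryClass.instCoeOutIsometryEquiv
  DivisionRing.toDivisionSemiring MulCharClass.toMonoidHomClass CommMonoidWithZero.toCommMonoid
  instCoeHTCT AddGroupConeClass.toAddSubmonoidClass CompletePartialOrder.toPartialOrder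
  GradedMonoid.GradeZero.commMonoid MonoidWithZero.toSemigroupWithZero
  ContinuousAddMonoidHom.instCoeOutOfAddMonoidHomClassOfContinuousMapClass NormedCommRing.toCommRing
  MulDistribMulActionSemiHomClass.toMonoidHomClass AlgEquivClass.toAlgHomClass
  HomeomorphClass.instCoeOutHomeomorph GroupWithZero.toDivisionMonoid
  NonUnitalRing.toNonUnitalSemiring Unique.instSubsingleton LieAdmissibleAlgebra.toModule
  SetLike.GradeZero.instMonoid instCoeHTC instCoeTCOfCoe_1 TestFunctionClass.toDFunLike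
  RingEquivClass.toNonUnitalRingHomClass LeftPreLieAlgebra.toModule FloorSemiring.instCharZero
  RightPreLieAlgebra.toModule SemilinearIsometryClass.toSemilinearMapClass
  ContDiffMapSupportedInClass.toDFunLike SeminormedCommGroup.toCommGroup EuclideanDomain.toCommRing
  SeminormedCommRing.toCommRing instCoeTC Units.instPartialOrderUnits

section partConn

/-!
Connectedness properties of the fibres of the Bott-Samelson tower.
-/

set_option linter.unusedSectionVars false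
set_option linter.unusedVariables false

open Matrix

noncomputable section

namespace Pool.Agent.MP_b8b722_ag

namespace Ctx

variable {C : Ctx}

namespace Wd

variable {W : C.Wd}

variable (W) in
/-- a property of field valued points over `g₀` that is stable under specialisation and
generisation -/
structure Stable (g₀ : GL C.I C.k)
    (Φ : ∀ (F : Type) [Field F] [Algebra C.k F], C.Pt F → Prop) : Prop where
  eqv : ∀ (F : Type) [Field F] [Algebra C.k F] (ω ω' : C.Pt F), W.Eqv ω ω' → Φ F ω → Φ F ω'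
  loc : ∀ (O F F' : Type) [CommRing O] [IsLocalRing O] [Algebra C.k O] [Field F] [Algebra C.k F]
    [Field F'] [Algebra C.k F'] (ω : C.Pt O), W.IsPt (C.mp (algebraMap C.k O) g₀) ω →
    ∀ (r : O →ₐ[C.k] F) (f : O →ₐ[C.k] F'), IsLocalHom (r : O →+* F) →
      (Φ F (ω.map r) ↔ Φ F' (ω.map f))

variable {g₀ : GL C.I C.k} {Φ : ∀ (F : Type) [Field F] [Algebra C.k F], C.Pt F → Prop}
  {F : Type} [Field F] [Algebra C.k F]

theorem connb_base {S S' : Type} [CommRing S] [Algebra C.k S] [CommRing S'] [Algebra C.k S']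
    (f : S →ₐ[C.k] S') (g₀ : GL C.I C.k) :
    C.ma f (C.mp (algebraMap C.k S) g₀) = C.mp (algebraMap C.k S') g₀ :=
  C.gl_ext fun a b => f.commutes _

theorem Stable.ext (h : W.Stable g₀ Φ) {F' : Type} [Field F'] [Algebra C.k F'] (f : F →ₐ[C.k] F')
    {ω : C.Pt F} (hω : W.IsPt (C.mp (algebraMap C.k F) g₀) ω) : Φ F ω ↔ Φ F' (ω.map f) := by
  exact h.loc F F F' ω hω (AlgHom.id C.k F) f ⟨fun _ h => h⟩

/-- limits: a point over the fraction field of a valuation ring has a specialisation -/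
theorem Stable.limit (h : W.Stable g₀ Φ) (hg : g₀ ∈ C.G C.k) {V : Subalgebra C.k F} (hV : IsVal V)
    [IsLocalRing V] {ω : C.Pt F} (hω : W.IsPt (C.mp (algebraMap C.k F) g₀) ω) :
    ∃ ω₀ : C.Pt V, W.IsPt (C.mp (algebraMap C.k V) g₀) ω₀ ∧ W.Eqv ω (ω₀.map V.val) ∧
      (Φ F ω ↔ Φ _ (ω₀.map (resA C.k V))) := by
  obtain ⟨c, u, t, h1, h2⟩ := IsPt.exists_chart_isVal hV (g := C.mp (algebraMap C.k V) g₀)
    (Pat.map _ hg) (ω := ω) (by rwa [connb_base])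
  refine ⟨c.pt u t, h1.isPt, h2, ?_⟩
  rw [h.loc V _ F _ h1.isPt (resA C.k V) V.val (resA_local V)]
  exact ⟨h.eqv F _ _ h2, h.eqv F _ _ h2.symm⟩

/-- the one parameter family through a point -/
def connb_pt (s : C.Sp) (m : ℕ) (A : GL C.I F) (ω : C.Pt F) {S : Type} [CommRing S]
    [Algebra C.k S] (ι : F →ₐ[C.k] S) (u : S) : C.Pt S :=
  ⟨C.ma ι ω.x, fun l => if l ≤ m then C.ma ι (ω.Q l) else
    C.ma ι (ω.Q l * A⁻¹) * C.xm s u * C.ma ι A⟩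

theorem connb_map (s : C.Sp) (m : ℕ) (A : GL C.I F) (ω : C.Pt F) {S S' : Type} [CommRing S]
    [Algebra C.k S] [CommRing S'] [Algebra C.k S'] (ι : F →ₐ[C.k] S) (u : S) (f : S →ₐ[C.k] S') :
    (connb_pt s m A ω ι u).map f = connb_pt s m A ω (f.comp ι) (f u) := by
  simp only [connb_pt, Pt.map]
  congr 1
  funext l
  split_ifs
  · rfl
  · rw [map_mul (C.ma f), map_mul (C.ma f), xm_mp]
    rfl

theorem connb_zero (s : C.Sp) (m : ℕ) (A : GL C.I F) (ω : C.Pt F) {S : Type} [CommRing S]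
    [Algebra C.k S] (ι : F →ₐ[C.k] S) : connb_pt s m A ω ι 0 = ω.map ι := by
  simp only [connb_pt, Pt.map, xm_zero, mul_one, ← map_mul, inv_mul_cancel_right, ite_self]

theorem connb_isPt (m : Fin W.d) {A b n : GL C.I F} {π : Equiv.Perm C.I} {ω : C.Pt F}
    (hω : W.IsPt (C.mp (algebraMap C.k F) g₀) ω) (hπ : C.IsW π)
    (hlt : π (W.s m).i < π (W.s m).j) (hb : b ∈ C.B F) (hn : C.Mon π n)
    (hD : ω.Q W.d * A⁻¹ = b * n) (hA : ω.Q m * A⁻¹ ∈ C.Ps (W.s m) F) {S : Type} [CommRing S]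
    [Algebra C.k S] (ι : F →ₐ[C.k] S) (u : S) :
    W.IsPt (C.mp (algebraMap C.k S) g₀) (connb_pt (W.s m) m A ω ι u) := by
  have k := hω.map ι
  rw [connb_base] at k
  have hAG : A ∈ C.G F := by
    have := mul_mem (inv_mem (Pat.le_G hA)) (hω.memG m m.2.le)
    simpa using this
  refine ⟨k.memP, fun l hl => ?_, ?_, fun l => ?_, ?_⟩
  · simp only [connb_pt]
    split_ifs
    · exact k.memG l hl
    · exact mul_mem (mul_mem (Pat.map _ (mul_mem (hω.memG l hl) (inv_mem hAG)))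
        (Pat.le_G (xm_mem _ _))) (Pat.map _ hAG)
  · have e : A = (b * n)⁻¹ * ω.Q W.d := by rw [← hD]; simp
    have k1 := mul_mem (mul_mem (Pat.map (ι : F →+* S) hb)
      ((hn.map (ι : F →+* S)).conj_xm hπ (W.s m) hlt u)) (inv_mem (Pat.map (ι : F →+* S) hb))
    have k2 := mul_mem k1 k.last
    simp only [connb_pt, if_neg (not_le.2 m.2), hD]
    rw [e]
    simpa [Pt.map, mul_assoc] using k2
  · have k1 := k.step l
    simp only [step, connb_pt, Pt.map] at k1 ⊢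
    rcases lt_trichotomy l m with hl | rfl | hl
    · rw [if_pos (Fin.le_def.1 hl.le), if_pos (Nat.succ_le_of_lt hl)]
      exact k1
    · rw [if_pos le_rfl, if_neg (Nat.not_succ_le_self _)]
      have a1 := Pat.map (ι : F →+* S) hA
      have a2 := mul_mem (mul_mem a1 (inv_mem (B_le_PA (xm_mem (W.s l) u))))
        (mul_mem (inv_mem a1) k1)
      simpa [mul_assoc] using a2
    · have hl' : m.val < l.val := hl
      rw [if_neg (not_le.2 hl'), if_neg (not_le.2 (Nat.lt_succ_of_lt hl'))]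
      simpa [mul_assoc] using k1
  · simp only [connb_pt, if_pos (Nat.zero_le _)]
    exact k.first

/-- the limit of `B p x_{-α}(u)` at infinity is `B` -/
theorem connb_inf (s : C.Sp) {F' : Type} [Field F'] [Algebra C.k F'] {V : Subalgebra C.k F'}
    [IsLocalRing V] (ι : F →ₐ[C.k] V) {u : F'} {v : V} (hv : ¬ IsUnit v) (huv : u * (v : F') = 1)
    {p : GL C.I F} (hp : p ∈ C.Ps s F) {R : GL C.I V}
    (h : C.ma V.val R * (C.ma (V.val.comp ι) p * C.xm s u)⁻¹ ∈ C.B F') :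
    C.ma (resA C.k V) R ∈ C.B (IsLocalRing.ResidueField V) := by
  obtain ⟨β, hβ, e⟩ : ∃ β ∈ C.B F', C.ma V.val R = β * (C.ma (V.val.comp ι) p * C.xm s u) :=
    ⟨_, h, (inv_mul_cancel_right _ _).symm⟩
  have hp' : C.ma (V.val.comp ι) p ∈ C.Ps s F' := Pat.map _ hp
  have hx : C.xm s u ∈ C.Ps s F' := B_le_PA (xm_mem s u)
  have hR : R ∈ C.Ps s V := Pat.of_map (V.val : V →+* F') Subtype.val_injective
    (e ▸ mul_mem (B_le_PA hβ) (mul_mem hp' hx))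
  have hij : s.arr.A s.i s.j := Or.inl rfl
  have hβ0 : β.val s.i s.j = 0 := Pat.zero hβ (not_le.2 s.h.2.1)
  have e1 : (R.val s.i s.j : F') = β.val s.i s.i * (ι (p.val s.i s.j) : F') := by
    have : (R.val s.i s.j : F') = (β * (C.ma (V.val.comp ι) p * C.xm s u)).val s.i s.j :=
      congrArg (fun y : GL C.I F' => y.val s.i s.j) e
    rw [PA.mul_ent (B_le_PA hβ) (mul_mem hp' hx) hij (Or.inl rfl) (Or.inr rfl), hβ0,
      PA.mul_ent hp' hx hij (Or.inl rfl) (Or.inr rfl)] at this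
    simpa only [GeneralLinearGroup.map_apply, RingHom.coe_coe, AlgHom.coe_comp, Subalgebra.coe_val, Function.comp_apply, xm, emb_val, embM_ij, mul_zero, embM_jj, mul_one, zero_add, Units.val_mul, GeneralLinearGroup.val_map_apply, zero_mul, add_zero] using this
  have e2 : (R.val s.i s.i : F') =
      β.val s.i s.i * ((ι (p.val s.i s.i) : F') + (ι (p.val s.i s.j) : F') * u) := by
    have : (R.val s.i s.i : F') = (β * (C.ma (V.val.comp ι) p * C.xm s u)).val s.i s.i :=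
      congrArg (fun y : GL C.I F' => y.val s.i s.i) e
    rw [PA.mul_ent (B_le_PA hβ) (mul_mem hp' hx) hij (Or.inl rfl) (Or.inl rfl), hβ0,
      PA.mul_ent hp' hx hij (Or.inl rfl) (Or.inl rfl)] at this
    simpa only [GeneralLinearGroup.map_apply, RingHom.coe_coe, AlgHom.coe_comp, Subalgebra.coe_val, Function.comp_apply, xm, emb_val, embM_ii, mul_one, embM_ji, Units.val_mul, GeneralLinearGroup.val_map_apply, zero_mul, add_zero] using this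
  refine Ps.mem_B (Pat.map _ hR) ?_
  change resA C.k V (R.val s.i s.j) = 0
  by_cases h0 : p.val s.i s.j = 0
  · have : R.val s.i s.j = 0 := Subtype.ext (by rw [e1, h0]; simp)
    rw [this, map_zero]
  · have e3 : R.val s.i s.j * (v * ι (p.val s.i s.i) + ι (p.val s.i s.j)) =
        v * R.val s.i s.i * ι (p.val s.i s.j) := Subtype.ext (by
      push_cast
      rw [e1, e2]
      linear_combination (-(β.val s.i s.i * (ι (p.val s.i s.j) : F') ^ 2)) * huv)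
    have e4 := congrArg (resA C.k V) e3
    simp only [map_mul, map_add, (resA_eq_zero V v).2 hv, zero_mul, zero_add] at e4
    exact (mul_eq_zero.1 e4).resolve_right
      ((map_ne_zero ((resA C.k V).comp ι)).2 h0)

/-- moving along the projective line -/
theorem connb_move (h : W.Stable g₀ Φ) (hg : g₀ ∈ C.G C.k) (m : Fin W.d) {A b n : GL C.I F}
    {π : Equiv.Perm C.I} {ω : C.Pt F} (hω : W.IsPt (C.mp (algebraMap C.k F) g₀) ω) (hπ : C.IsW π)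
    (hlt : π (W.s m).i < π (W.s m).j) (hb : b ∈ C.B F) (hn : C.Mon π n)
    (hD : ω.Q W.d * A⁻¹ = b * n) (hA : ω.Q m * A⁻¹ ∈ C.Ps (W.s m) F)
    {F' : Type} [Field F'] [Algebra C.k F'] {V₀ V₁ : Subalgebra C.k F'} [IsLocalRing V₁]
    {ι₀ : F →ₐ[C.k] V₀} {ι₁ : F →ₐ[C.k] V₁} {u₀ : V₀} {u₁ : V₁} (h₀ : IsVal V₀) (h₁ : IsVal V₁)
    (hι : V₀.val.comp ι₀ = V₁.val.comp ι₁) (hu₀ : ¬ IsUnit u₀) (hu₁ : ¬ IsUnit u₁)
    (hu : (u₀ : F') * (u₁ : F') = 1) :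
    ∃ ω₁ : C.Pt (IsLocalRing.ResidueField V₁), W.IsPt (C.mp (algebraMap C.k _) g₀) ω₁ ∧
      (Φ F ω ↔ Φ _ ω₁) ∧ (C.ma ((resA C.k V₁).comp ι₁) ω.x)⁻¹ * ω₁.x ∈ C.B _ ∧
      (∀ l ≤ m.val, ω₁.Q l * (C.ma ((resA C.k V₁).comp ι₁) (ω.Q l))⁻¹ ∈ C.B _) ∧
      ω₁.Q (m + 1) * (C.ma ((resA C.k V₁).comp ι₁) A)⁻¹ ∈ C.B _ := by
  have := h₀.isLocalRing
  have k0 := h.loc V₀ _ F' _ (connb_isPt m hω hπ hlt hb hn hD hA ι₀ u₀) (resA C.k V₀) V₀.val
    (resA_local V₀)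
  rw [connb_map, connb_map, (resA_eq_zero V₀ u₀).2 hu₀, connb_zero, ← h.ext _ hω, hι] at k0
  obtain ⟨ω₀, a1, a2, a3⟩ := h.limit hg h₁
    (connb_isPt m hω hπ hlt hb hn hD hA (V₁.val.comp ι₁) (V₀.val u₀))
  have inj : Function.Injective (V₁.val : V₁ →+* F') := Subtype.val_injective
  refine ⟨ω₀.map (resA C.k V₁), connb_base (resA C.k V₁) g₀ ▸ a1.map _, k0.trans a3, ?_,
    fun l hl => ?_, ?_⟩
  · have : (C.ma ι₁ ω.x)⁻¹ * ω₀.x ∈ C.B V₁ := Pat.of_map _ inj (by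
      rw [map_mul, map_inv]
      exact a2.1)
    have := Pat.map (resA C.k V₁ : V₁ →+* IsLocalRing.ResidueField V₁) this
    rwa [map_mul, map_inv] at this
  · have a4 := a2.2 l (hl.trans m.2.le)
    simp only [connb_pt, if_pos hl] at a4
    have : ω₀.Q l * (C.ma ι₁ (ω.Q l))⁻¹ ∈ C.B V₁ := Pat.of_map _ inj (by
      rw [map_mul, map_inv]
      exact a4)
    have := Pat.map (resA C.k V₁ : V₁ →+* IsLocalRing.ResidueField V₁) this
    rwa [map_mul, map_inv] at this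
  · have a4 := a2.2 (m + 1) m.2
    simp only [connb_pt, if_neg (Nat.not_succ_le_self _)] at a4
    have hp : ω.Q (m + 1) * A⁻¹ ∈ C.Ps (W.s m) F := by
      simpa [step, mul_assoc] using mul_mem (inv_mem (hω.step m)) hA
    have := connb_inf (W.s m) ι₁ hu₁ hu hp (R := ω₀.Q (m + 1) * (C.ma ι₁ A)⁻¹) (by
      rw [map_mul (C.ma V₁.val), map_inv, mul_assoc, ← _root_.mul_inv_rev]
      exact a4)
    rwa [map_mul, map_inv] at this

theorem connb_list {g : GL C.I F} {ω : C.Pt F} (hω : W.IsPt g ω) {m : ℕ} (hm : m ≤ W.d) :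
    ∃ l : List (GL C.I F), (∀ y ∈ l, ∃ s : C.Sp, y ∈ C.Ps s F) ∧
      l.prod = ω.Q m * (ω.Q W.d)⁻¹ := by
  refine down_ind (Φ := fun m => ∃ l : List (GL C.I F), (∀ y ∈ l, ∃ s : C.Sp, y ∈ C.Ps s F) ∧
    l.prod = ω.Q m * (ω.Q W.d)⁻¹) ⟨[], by simp only [List.not_mem_nil, IsEmpty.forall_iff, implies_true], by simp⟩ ?_ hm
  rintro n ⟨l, h1, h2⟩
  refine ⟨W.step ω n :: l, ?_, by simp only [step, List.prod_cons, h2, mul_inv_mul_mul_cancel]⟩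
  intro y hy
  rcases List.mem_cons.1 hy with rfl | hy
  · exact ⟨_, hω.step n⟩
  · exact h1 y hy

/-- One step.  Let `D = Q d`, `G = Q m D⁻¹` (a product of elements of minimal parabolic subgroups).
By `exists_cell_of_prod` and `Cell.exists_min` applied to `G⁻¹` there are `b ∈ B` and a monomial
`n` with `n x_{-α}(u) n⁻¹ ∈ B` and `(b n)⁻¹ G⁻¹ ∈ P_s`, `s = s m`.  The one parameter group
`κ(u) = b n x_{-α}(u) (b n)⁻¹ ⊆ B` acts on the `Q l`, `l > m`, by `Q l ↦ Q l D⁻¹ κ(u) D`, the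
`Q l` with `l ≤ m` are kept.  Over the line of `exists_line F` this is a point over `V₀`, and its
limit over `V₁` has `B Q (m+1) = B (b n)⁻¹ D`, while the cosets `B Q l`, `l ≤ m`, and the frame
are constant.  This coset does not depend on the `Q l` with `l > m`. -/
theorem Stable.fibre_step (h : W.Stable g₀ Φ) (hg : g₀ ∈ C.G C.k) (m : Fin W.d)
    (ih : ∀ (F : Type) [Field F] [Algebra C.k F] (ω ω' : C.Pt F),
      W.IsPt (C.mp (algebraMap C.k F) g₀) ω → W.IsPt (C.mp (algebraMap C.k F) g₀) ω' →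
      ω.x⁻¹ * ω'.x ∈ C.B F → (∀ l ≤ m.val + 1, ω'.Q l * (ω.Q l)⁻¹ ∈ C.B F) → Φ F ω → Φ F ω')
    {ω ω' : C.Pt F} (hω : W.IsPt (C.mp (algebraMap C.k F) g₀) ω)
    (hω' : W.IsPt (C.mp (algebraMap C.k F) g₀) ω') (hx : ω.x⁻¹ * ω'.x ∈ C.B F)
    (hQ : ∀ l ≤ m.val, ω'.Q l * (ω.Q l)⁻¹ ∈ C.B F) (h0 : Φ F ω) : Φ F ω' := by
  obtain ⟨l, hl, el⟩ := connb_list hω m.2.le
  obtain ⟨π₀, hπ₀, hc⟩ := exists_cell_of_prod hl
  obtain ⟨π, b, n, hπ, hlt, hb, hn, hy⟩ := hc.inv.exists_min hπ₀.inv (W.s m)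
  rw [el] at hy
  have hA : ω.Q m * ((b * n)⁻¹ * ω.Q W.d)⁻¹ ∈ C.Ps (W.s m) F := by
    simpa [mul_assoc] using inv_mem hy
  have hA' : ω'.Q m * ((b * n)⁻¹ * ω.Q W.d)⁻¹ ∈ C.Ps (W.s m) F := by
    simpa [mul_assoc] using mul_mem (B_le_PA (hQ m le_rfl)) hA
  obtain ⟨F', _, _, _, V₀, V₁, ι₀, ι₁, u₀, u₁, h₀, h₁, hι, hu₀, hu₁, hu⟩ :=
    exists_line (k := C.k) F
  have := h₁.isLocalRing
  obtain ⟨ω₁, a1, a2, a3, a4, a5⟩ := connb_move h hg m hω hπ hlt hb hn (by simp) hA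
    h₀ h₁ hι hu₀ hu₁ hu
  obtain ⟨ω₂, b1, b2, b3, b4, b5⟩ := connb_move h hg m hω' hπ hlt
    (mul_mem (hω.last_eqv hω' hx) hb) hn (by simp [mul_assoc]) hA' h₀ h₁ hι hu₀ hu₁ hu
  refine b2.2 (ih _ ω₁ ω₂ a1 b1 ?_ (fun l hl => ?_) (a2.1 h0))
  · have := mul_mem (mul_mem (inv_mem a3) (Pat.map ((resA C.k V₁).comp ι₁ : F →+* _) hx)) b3
    simpa [mul_assoc] using this
  · rcases Nat.le_succ_iff.1 hl with hl | rfl
    · have := mul_mem (mul_mem (b4 l hl) (Pat.map ((resA C.k V₁).comp ι₁ : F →+* _) (hQ l hl)))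
        (inv_mem (a4 l hl))
      simpa [mul_assoc] using this
    · simpa [mul_assoc] using mul_mem b5 (inv_mem a5)

/-- the fibres of the Bott-Samelson resolution are connected -/
theorem Stable.fibre (h : W.Stable g₀ Φ) (hg : g₀ ∈ C.G C.k) {ω ω' : C.Pt F}
    (hω : W.IsPt (C.mp (algebraMap C.k F) g₀) ω) (hω' : W.IsPt (C.mp (algebraMap C.k F) g₀) ω')
    (hx : ω.x⁻¹ * ω'.x ∈ C.B F) (h0 : Φ F ω) : Φ F ω' := by
  refine down_ind (d := W.d) (Φ := fun m => ∀ (F : Type) [Field F] [Algebra C.k F]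
    (ω ω' : C.Pt F), W.IsPt (C.mp (algebraMap C.k F) g₀) ω →
      W.IsPt (C.mp (algebraMap C.k F) g₀) ω' → ω.x⁻¹ * ω'.x ∈ C.B F →
      (∀ l ≤ m, ω'.Q l * (ω.Q l)⁻¹ ∈ C.B F) → Φ F ω → Φ F ω')
    (fun F _ _ ω ω' _ _ h1 h2 => h.eqv F ω ω' ⟨h1, h2⟩)
    (fun m ih F _ _ ω ω' a1 a2 a3 a4 a5 => h.fibre_step hg m ih a1 a2 a3 a4 a5)
    (Nat.zero_le _) F ω ω' hω hω' hx (fun l hl => ?_) h0
  rw [Nat.le_zero.1 hl]
  exact hω.first_eqv hω' hx

/-- the minimal point with a given frame -/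
theorem isPt_min {S : Type} [CommRing S] [Algebra C.k S] {g x : GL C.I S} (hg : g ∈ C.G S)
    (hx : x ∈ C.P S) (h : x⁻¹ * g * C.fr (C.lev x) * W.zd S ∈ C.B S) :
    W.IsPt g ⟨x, fun _ => (C.fr (C.lev x) * W.zd S)⁻¹⟩ ∧
      ∀ n, W.ent (⟨x, fun _ => (C.fr (C.lev x) * W.zd S)⁻¹⟩ : C.Pt S) n = 0 := by
  have hst : ∀ n, W.step (⟨x, fun _ => (C.fr (C.lev x) * W.zd S)⁻¹⟩ : C.Pt S) n = 1 := fun n =>
    mul_inv_cancel _
  refine ⟨⟨hx, fun n _ => ?_, ?_, fun n => ?_, ?_⟩, fun n => ?_⟩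
  · exact inv_mem (mul_mem (fr_G (Pat.le_G (lev_mem (Or.inl hx)))) W.zd_mem)
  · have : (C.fr (C.lev x) * W.zd S)⁻¹ * C.fr (C.lev x) * W.zd S = 1 := by group
    show (C.fr (C.lev x) * W.zd S)⁻¹ * C.fr (C.lev x) * W.zd S ∈ C.B S
    rw [this]; exact one_mem _
  · rw [hst]; exact one_mem _
  · show x⁻¹ * g * ((C.fr (C.lev x) * W.zd S)⁻¹)⁻¹ ∈ C.B S
    rw [inv_inv, ← mul_assoc]; exact h
  · rw [ent, hst]
    exact Matrix.one_apply_ne (W.s n).ne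

theorem connc_ma {S S' : Type} [CommRing S] [Algebra C.k S] [CommRing S'] [Algebra C.k S']
    (f : S →ₐ[C.k] S') (g₀ : GL C.I C.k) :
    C.ma f (C.mp (algebraMap C.k S) g₀) = C.mp (algebraMap C.k S') g₀ :=
  C.gl_ext fun a b => f.commutes _

theorem connc_map {S S' : Type} [CommRing S] [Algebra C.k S] [CommRing S'] [Algebra C.k S']
    (f : S →ₐ[C.k] S') {ω : C.Pt S} (hω : W.IsPt (C.mp (algebraMap C.k S) g₀) ω) :
    W.IsPt (C.mp (algebraMap C.k S') g₀) (ω.map f) := by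
  rw [← connc_ma f]; exact hω.map f

/-- transfer of `Φ` between a point over `F'` and a point over `F` with the limit frame -/
theorem connc_limit (h : W.Stable g₀ Φ) (hg : g₀ ∈ C.G C.k) {F' : Type} [Field F'] [Algebra C.k F']
    {V : Subalgebra C.k F'} (hV : IsVal V) [IsLocalRing V] (ι : F →ₐ[C.k] V) {ω : C.Pt F}
    (hω : W.IsPt (C.mp (algebraMap C.k F) g₀) ω) {ω' : C.Pt F'}
    (hω' : W.IsPt (C.mp (algebraMap C.k F') g₀) ω')
    (hx : ∀ y : GL C.I V, ω'.x⁻¹ * C.ma V.val y ∈ C.B F' →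
      C.ma (resA C.k V) ((C.ma ι ω.x)⁻¹ * y) ∈ C.B _) : Φ F ω ↔ Φ F' ω' := by
  obtain ⟨ω₀, h1, h2, h3⟩ := h.limit hg hV hω'
  have h4 := connc_map ((resA C.k V).comp ι) hω
  have h5 := connc_map (resA C.k V) h1
  have h6 : (ω.map ((resA C.k V).comp ι)).x⁻¹ * (ω₀.map (resA C.k V)).x ∈ C.B _ := by
    have := hx ω₀.x h2.1
    rw [map_mul, map_inv] at this
    exact this
  rw [h3, h.ext ((resA C.k V).comp ι) hω]
  exact ⟨h.fibre hg h4 h5 h6, h.fibre hg h5 h4 (by simpa using inv_mem h6)⟩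

/-- change of the frame by an element of `B` -/
theorem IsPt.frame {S : Type} [CommRing S] [Algebra C.k S] {g b : GL C.I S} {ω : C.Pt S}
    (hω : W.IsPt g ω) (hb : b ∈ C.B S) :
    W.IsPt g ⟨ω.x * b, ω.Q⟩ ∧ W.Eqv ω ⟨ω.x * b, ω.Q⟩ := by
  refine ⟨⟨mul_mem hω.memP (B_le_P hb), hω.memG, ?_, hω.step, ?_⟩, by simpa using hb,
    fun n _ => by simp⟩
  · have h1 := mul_mem hω.last (W.conj_Z (mem_Z_of (fr_L (lev_mem (Or.inl (B_le_P hb))))
      (fr_B (lev_pat (Or.inl (B_le_P hb)) hb))))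
    convert h1 using 1
    simp only
    rw [lev_mul_P hω.memP (B_le_P hb), map_mul]
    group
  · convert mul_mem (inv_mem hb) hω.first using 1
    simp only
    group

theorem zd_conj_fr {S : Type} [CommRing S] [Algebra C.k S] (a : GL C.I S) :
    (W.zd S)⁻¹ * C.fr a * W.zd S = C.ft W.τ a := by
  have h := pm_conj W.z⁻¹ (C.fr a)
  rw [pm_inv, inv_inv] at h
  refine h.trans (C.gl_ext fun b c => ?_)
  obtain ⟨b, rfl⟩ := W.τ.surjective b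
  obtain ⟨c, rfl⟩ := W.τ.surjective c
  rw [ft_val, ← fr_val]
  exact tw_val _ _ _ _ _

theorem cona_B {S : Type} [CommRing S] {x : GL C.I S} (hx : x ∈ C.B S) {r n : C.I} {t : S}
    (h : C.blk r = C.blk n → n ≤ r → x.val r n * t = 0) : x.val r n * t = 0 := by
  by_cases h1 : C.blk r = C.blk n
  · by_cases h2 : n ≤ r
    · exact h h1 h2
    · rw [Pat.zero hx h2, zero_mul]
  · rw [Pat.blk hx h1, zero_mul]

theorem cona_tr {a b c : C.I} (h : W.Lc.r a b) (h' : W.Lc.r b c) : W.Lc.r a c :=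
  fun n => (h n).trans (h' n)

/-- the classes of `Lc` are intervals -/
theorem cona_int {a b c : C.I} (h1 : C.blk a = C.blk b) (h2 : C.blk b = C.blk c) (hab : a ≤ b)
    (hbc : b ≤ c) (h : W.Lc.r a c) : W.Lc.r a b ∧ W.Lc.r b c :=
  have k := W.ovc c b a h2.symm h1.symm hbc hab (W.Lc.symm _ _ h)
  ⟨cona_tr h k, W.Lc.symm _ _ k⟩

/-- the matrix computation -/
theorem cona_mat {S : Type} [CommRing S] {κ a β : GL C.I S} (hκ : κ ∈ C.B S)
    (hκ1 : W.Lc.lev κ = 1) (hβ : β ∈ C.B S) {r₀ c m b : C.I} {t : S} {lam : C.I → S}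
    (hb : C.blk r₀ = C.blk c) (hlt : r₀ < c) (hn : ¬ W.Lc.r r₀ c) (hbm : C.blk m = C.blk c)
    (hmc : m ≤ c) (hmin : ∀ n, C.blk n = C.blk c → r₀ ≤ n → n < m → W.Lc.r n r₀)
    (hZ : ∀ r c', C.blk r = C.blk c' → r < c' → ¬ W.Lc.r r c' → c < c' ∨ c' = c ∧ r < r₀ →
      a.val r c' = 0)
    (hl : ∀ r, ¬ (C.blk r = C.blk c ∧ W.Lc.r m r) → lam r = 0)
    (hl' : ∀ c', c < c' → ∑ r, lam r * a.val r c' = 0)
    (hk : ∀ r n, C.blk r = C.blk c → C.blk n = C.blk c → W.Lc.r m r → W.Lc.r n r₀ →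
      κ.val r n = if r = b ∧ n = r₀ then t else 0) (hmr : ¬ W.Lc.r m r₀) :
    (∀ r c', C.blk r = C.blk c' → r < c' → ¬ W.Lc.r r c' → c < c' ∨ c' = c ∧ r < r₀ →
      (κ * a * β).val r c' = 0) ∧ (κ * a * β).val r₀ c = β.val c c * a.val r₀ c ∧
      ∑ r, lam r * (κ * a * β).val r c =
        β.val c c * (∑ r, lam r * a.val r c + lam b * (t * a.val r₀ c)) := by
  have k1 : ∀ r n, W.Lc.r r n → κ.val r n = (1 : Matrix C.I C.I S) r n := fun r n h => by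
    rw [← Lv.lev_pos W.ovc hκ h, hκ1, Units.val_one]
  have y1 : ∀ r c', C.blk r = C.blk c' → r < c' → ¬ W.Lc.r r c' → c < c' ∨ c' = c ∧ r ≤ r₀ →
      (κ * a).val r c' = a.val r c' := fun r c' h1 h2 h3 h4 => by
    rw [Units.val_mul, Matrix.mul_apply, Finset.sum_eq_single r, k1 r r (W.Lc.refl r),
      one_apply_eq, one_mul]
    · exact fun n _ hn => cona_B hκ fun h5 h6 => by
        rw [hZ n c' (h5.symm.trans h1) (h6.trans_lt h2)
          (fun h7 => h3 (cona_int h5.symm h1 h6 h2.le h7).2)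
          (h4.imp_right fun h7 => ⟨h7.1, (h6.lt_of_ne hn).trans_le h7.2⟩), mul_zero]
    · simp only [Finset.mem_univ, not_true_eq_false, IsEmpty.forall_iff]
  have y2 : ∀ r c', C.blk r = C.blk c' → r < c' → ¬ W.Lc.r r c' → c < c' ∨ c' = c ∧ r ≤ r₀ →
      (κ * a * β).val r c' = β.val c' c' * a.val r c' := fun r c' h1 h2 h3 h4 => by
    rw [Units.val_mul, Matrix.mul_apply, Finset.sum_eq_single c', y1 r c' h1 h2 h3 h4, mul_comm]
    · intro n _ hn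
      rw [mul_comm]
      refine cona_B hβ fun h5 h6 => ?_
      have h7 : c < n := h4.elim (fun h => h.trans_le h6) fun h => h.1 ▸ h6.lt_of_ne' hn
      have h8 : ¬ W.Lc.r r n := fun h8 => h3 (cona_int h1 h5.symm h2.le h6 h8).1
      rw [y1 r n (h1.trans h5.symm) (h2.trans_le h6) h8 (Or.inl h7),
        hZ r n (h1.trans h5.symm) (h2.trans_le h6) h8 (Or.inl h7), mul_zero]
    · simp only [Finset.mem_univ, not_true_eq_false, Units.val_mul, IsEmpty.forall_iff]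
  have y3 : ∀ r c', C.blk c' = C.blk c → c ≤ c' → lam r * (κ * a).val r c' =
      lam r * (a.val r c' + if r = b then t * a.val r₀ c' else 0) := fun r c' h1 h2 => by
    by_cases h3 : C.blk r = C.blk c ∧ W.Lc.r m r
    swap
    · rw [hl r h3, zero_mul, zero_mul]
    have h4 : r ≠ r₀ := fun e => hmr (e ▸ h3.2)
    rw [Units.val_mul, Matrix.mul_apply, Finset.sum_eq_add r r₀ h4, k1 r r (W.Lc.refl r),
      one_apply_eq, one_mul, hk r r₀ h3.1 hb h3.2 (W.Lc.refl _)]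
    · simp
    · refine fun n _ hn => cona_B hκ fun h5 h6 => ?_
      by_cases h7 : W.Lc.r r n
      · rw [k1 r n h7, one_apply_ne' hn.1, zero_mul]
      have h8 : C.blk n = C.blk c := h5.symm.trans h3.1
      have h9 : n < m := not_le.1 fun h9 =>
        h7 (W.Lc.symm _ _ (cona_int (hbm.trans h8.symm) h5.symm h9 h6 h3.2).2)
      rcases lt_or_ge n r₀ with h10 | h10
      · rw [hZ n c' (h8.trans h1.symm) ((h9.trans_le hmc).trans_le h2)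
          (fun h11 => h7 (W.Lc.symm _ _ (cona_tr (cona_int (h8.trans hbm.symm)
            (hbm.trans h1.symm) h9.le (hmc.trans h2) h11).1 h3.2)))
          (h2.lt_or_eq.imp_right fun e => ⟨e.symm, h10⟩), mul_zero]
      · rw [hk r n h3.1 h8 h3.2 (hmin n h8 h10 h9), if_neg fun h => hn.2 h.2, zero_mul]
    · simp only [Finset.mem_univ, not_true_eq_false, IsEmpty.forall_iff]
    · simp only [Finset.mem_univ, not_true_eq_false, IsEmpty.forall_iff]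
  have y4 : ∀ c', C.blk c' = C.blk c → c ≤ c' → ∑ r, lam r * (κ * a).val r c' =
      ∑ r, lam r * a.val r c' + lam b * (t * a.val r₀ c') := fun c' h1 h2 => by
    simp only [y3 _ c' h1 h2, mul_add, Finset.sum_add_distrib, mul_ite, mul_zero,
      Finset.sum_ite_eq', Finset.mem_univ, if_true]
  refine ⟨fun r c' h1 h2 h3 h4 => ?_, y2 r₀ c hb hlt hn (Or.inr ⟨rfl, le_rfl⟩), ?_⟩
  · rw [y2 r c' h1 h2 h3 (h4.imp_right fun h => ⟨h.1, h.2.le⟩), hZ r c' h1 h2 h3 h4, mul_zero]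
  · have e : ∑ r, lam r * (κ * a * β).val r c =
        ∑ n, β.val n c * ∑ r, lam r * (κ * a).val r n := by
      simp only [Units.val_mul (κ * a), Matrix.mul_apply, Finset.mul_sum]
      rw [Finset.sum_comm]
      exact Finset.sum_congr rfl fun _ _ => Finset.sum_congr rfl fun _ _ => by ring
    rw [e, Finset.sum_eq_single c, y4 c rfl le_rfl]
    · refine fun n _ hn' => cona_B hβ fun h1 h2 => ?_
      have h3 := h2.lt_of_ne' hn'
      rw [y4 n h1 h2, hl' n h3, hZ r₀ n (hb.trans h1.symm) (hlt.trans h3)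
        (fun h => hn (cona_int hb h1.symm hlt.le h2 h).1) (Or.inl h3)]
      simp
    · simp only [Finset.mem_univ, not_true_eq_false, Units.val_mul, IsEmpty.forall_iff]

/-- a linear form on the rows of a class that kills all columns of the class but one -/
theorem cona_form (a : Matrix C.I C.I F) (D : C.I → Prop) {m : C.I} (hm : D m) :
    ∃ lam : C.I → F, lam ≠ 0 ∧ (∀ r, ¬ D r → lam r = 0) ∧
      ∀ c, D c → c ≠ m → ∑ r, lam r * a r c = 0 := by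
  classical
  obtain ⟨lam, h0, h1⟩ := (Matrix.exists_vecMul_eq_zero_iff (M := Matrix.of fun r c =>
    if D r then (if D c ∧ c ≠ m then a r c else 0) else if r = c then 1 else 0)).2
    (det_eq_zero_of_column_eq_zero m fun r => by
      rw [of_apply]
      split_ifs with h2 h3 h3
      · exact absurd rfl h3.2
      · rfl
      · exact absurd (h3 ▸ hm) h2
      · rfl)
  have h2 : ∀ r, ¬ D r → lam r = 0 := fun r hr => by
    have := congrFun h1 r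
    rw [vecMul, dotProduct, Finset.sum_eq_single r] at this
    · simpa [hr] using this
    · intro n _ hn
      simp [hr, hn]
    · simp only [Finset.mem_univ, not_true_eq_false, ne_eq, of_apply, ↓ reduceIte, mul_ite, mul_zero, mul_one, IsEmpty.forall_iff]
  refine ⟨lam, h0, h2, fun c hc hc' => (Finset.sum_congr rfl fun r _ => ?_).trans (congrFun h1 c)⟩
  by_cases hr : D r
  · simp [hr, hc, hc']
  · rw [h2 r hr, zero_mul, zero_mul]

/-- one more entry of the frame is killed -/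
theorem cona_step (h : W.Stable (W.zd C.k)⁻¹ Φ) {ω : C.Pt F}
    (hω : W.IsPt (C.ct F (W.zd C.k)⁻¹) ω) (h0 : Φ F ω) {r₀ c : C.I}
    (hZ : ∀ r c', C.blk r = C.blk c' → r < c' → ¬ W.Lc.r r c' → c < c' ∨ c' = c ∧ r < r₀ →
      ω.x.val r c' = 0) :
    ∃ (F' : Type) (_ : Field F') (_ : Algebra C.k F') (ω' : C.Pt F'),
      W.IsPt (C.ct F' (W.zd C.k)⁻¹) ω' ∧ Φ F' ω' ∧
        ∀ r c', C.blk r = C.blk c' → r < c' → ¬ W.Lc.r r c' → c < c' ∨ c' = c ∧ r ≤ r₀ →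
          ω'.x.val r c' = 0 := by
  by_cases hx : C.blk r₀ = C.blk c → r₀ < c → ¬ W.Lc.r r₀ c → ω.x.val r₀ c = 0
  · refine ⟨F, _, _, ω, hω, h0, fun r c' h1 h2 h3 h4 => ?_⟩
    rcases h4 with h4 | ⟨rfl, h4⟩
    · exact hZ r c' h1 h2 h3 (Or.inl h4)
    · rcases h4.lt_or_eq with h4 | rfl
      · exact hZ r c' h1 h2 h3 (Or.inr ⟨rfl, h4⟩)
      · exact hx h1 h2 h3
  push Not at hx
  obtain ⟨hb, hlt, hn, hx⟩ := hx
  have hlo : C.lo r₀ → C.lo c := not_not.1 (mt (Pat.zero hω.memP) hx)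
  obtain ⟨m, ⟨hbm, hrm, hmr⟩, hmin⟩ := exists_minimal_of_wellFoundedLT
    (fun m : C.I => C.blk m = C.blk c ∧ r₀ ≤ m ∧ ¬ W.Lc.r m r₀)
    ⟨c, rfl, hlt.le, fun e => hn (W.Lc.symm _ _ e)⟩
  have hmin' : ∀ n, C.blk n = C.blk c → r₀ ≤ n → n < m → W.Lc.r n r₀ := fun n h1 h2 h3 =>
    not_not.1 fun h4 => h3.not_ge (hmin ⟨h1, h2, h4⟩ h3.le)
  have hmc : m ≤ c := not_lt.1 fun h1 => hn (W.Lc.symm _ _ (hmin' c rfl hlt.le h1))
  have hD : ∀ r, C.blk r = C.blk c → W.Lc.r m r → m ≤ r := fun r h1 h2 => not_lt.1 fun h3 =>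
    hmr ((le_total r r₀).elim (fun h4 => W.Lc.symm _ _
      (cona_int (h1.trans hb.symm) (hb.trans hbm.symm) h4 hrm (W.Lc.symm _ _ h2)).2)
      fun h4 => cona_tr h2 (hmin' r h1 h4 h3))
  obtain ⟨lam, l0, l1, l2⟩ := cona_form ω.x.val (fun r => C.blk r = C.blk c ∧ W.Lc.r m r)
    ⟨hbm, W.Lc.refl m⟩
  have l3 : ∀ c', c < c' → ∑ r, lam r * ω.x.val r c' = 0 := fun c' hc => by
    by_cases h1 : C.blk c' = C.blk c ∧ W.Lc.r m c'
    · exact l2 c' h1 (hmc.trans_lt hc).ne'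
    refine Finset.sum_eq_zero fun r _ => ?_
    by_cases h2 : C.blk r = C.blk c ∧ W.Lc.r m r
    swap
    · rw [l1 r h2, zero_mul]
    by_cases h3 : C.blk r = C.blk c'
    swap
    · rw [Pat.blk hω.memP h3, mul_zero]
    have h4 := h3.symm.trans h2.1
    rw [hZ r c' h3 (not_le.1 fun h5 => h1 ⟨h4, (cona_int (hbm.trans h4.symm) h3.symm
      (hmc.trans hc.le) h5 h2.2).1⟩) (fun h5 => h1 ⟨h4, cona_tr h2.2 h5⟩) (Or.inl hc), mul_zero]
  obtain ⟨b, hb0⟩ := Function.ne_iff.1 l0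
  obtain ⟨b1, b2⟩ : C.blk b = C.blk c ∧ W.Lc.r m b := not_not.1 (mt (l1 b) hb0)
  have b3 : ¬ W.Lc.r r₀ b := fun e => hmr (cona_tr b2 (W.Lc.symm _ _ e))
  have b4 : r₀ ≤ b := hrm.trans (hD b b1 b2)
  obtain ⟨q, hq, hκ⟩ := W.exists_kap (hb.trans b1.symm)
    ⟨fun e => (Lv.st_le W.τ_aut b2).1 (C.lo_of_le hmc (hlo e)), C.lo_of_le b4⟩
    (b4.lt_of_ne fun e => b3 (e ▸ W.Lc.refl _)) b3 fun n h1 h2 h3 =>
      (lt_or_ge n m).imp (hmin' n (h1.trans hb) h2.le) fun h4 =>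
        (cona_int (hbm.trans (h1.trans hb).symm) ((h1.trans hb).trans b1.symm) h4 h3.le b2).2
  obtain ⟨F', _, _, _, V₀, V₁, ι₀, ι₁, u₀, u₁, h₀, h₁, hι, hu₀, hu₁, hu⟩ :=
    exists_line (k := C.k) F
  have := h₀.isLocalRing
  have := h₁.isLocalRing
  obtain ⟨κ, k1, k2, k3, k4, k5⟩ := hκ V₀ u₀
  have p0 : W.IsPt (C.ct V₀ (W.zd C.k)⁻¹)
      ((ω.map ι₀).act κ (W.zd V₀ * κ * (W.zd V₀)⁻¹)) := by
    convert (connc_map ι₀ hω).act k2 using 1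
    rw [map_inv, zd_mp]
    group
  have p1 := h.loc V₀ _ F' _ p0 (resA C.k V₀) V₀.val (resA_local V₀)
  rw [Pt.map_act (resA C.k V₀), map_mul, map_mul, map_inv,
    k5 _ (resA C.k V₀) ((resA_eq_zero V₀ u₀).2 hu₀), mul_one, mul_inv_cancel, Pt.act_one,
    Pt.map_map, ← h.ext _ hω] at p1
  obtain ⟨ω₁, a1, a2, a3⟩ := h.limit (inv_mem W.zd_mem) h₁ (connc_map V₀.val p0)
  refine ⟨_, _, _, ω₁.map (resA C.k V₁), connc_map _ a1, a3.1 (p1.1 h0), ?_⟩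
  obtain ⟨β, hβ, e⟩ : ∃ β ∈ C.B F',
      C.ma V₁.val ω₁.x = C.ma V₀.val κ * C.ma (V₁.val.comp ι₁) ω.x * β := by
    refine ⟨_, a2.1, ?_⟩
    rw [← hι]
    change _ = C.ma V₀.val κ * C.ma V₀.val (C.ma ι₀ ω.x) *
      ((C.ma V₀.val (κ * C.ma ι₀ ω.x))⁻¹ * C.ma V₁.val ω₁.x)
    rw [← map_mul, mul_inv_cancel_left]
  obtain ⟨c1, c2, c3⟩ := cona_mat (a := C.ma (V₁.val.comp ι₁) ω.x) (b := b) (t := (u₀ : F') ^ q)
    (lam := fun r => V₁.val.comp ι₁ (lam r)) (Pat.map (V₀.val : V₀ →+* F') k1)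
    (by rw [Lv.lev_mp W.ovc _ k1, k3, map_one]) hβ hb hlt hn hbm hmc hmin'
    (fun r c' h1 h2 h3 h4 => by rw [mp_val, hZ r c' h1 h2 h3 h4, map_zero])
    (fun r hr => by rw [l1 r hr, map_zero])
    (fun c' hc => by simpa only [AlgHom.coe_comp, Subalgebra.coe_val, Function.comp_apply, GeneralLinearGroup.map_apply, RingHom.coe_coe, map_sum, map_mul, MulMemClass.coe_mul, map_zero, ZeroMemClass.coe_zero] using congrArg (V₁.val.comp ι₁) (l3 c' hc))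
    (fun r n h1 h2 h3 h4 => by
      rw [mp_val, k4 r n (h1.trans hb.symm) (h2.trans hb.symm)
        (cona_tr (W.Lc.symm _ _ h3) b2) h4]
      split_ifs <;> simp) hmr
  rw [← e] at c1 c2 c3
  have z : resA C.k V₁ (ω₁.x.val r₀ c) = 0 := by
    have e1 : ω₁.x.val r₀ c * (ι₁ (∑ r, lam r * ω.x.val r c) * u₁ ^ q +
        ι₁ (lam b * ω.x.val r₀ c)) =
        ι₁ (ω.x.val r₀ c) * (∑ r, ι₁ (lam r) * ω₁.x.val r c) * u₁ ^ q := Subtype.ext (by
      have e2 : (u₀ : F') ^ q * (u₁ : F') ^ q = 1 := by rw [← mul_pow, hu, one_pow]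
      simp only [map_sum, map_mul]
      push_cast
      simp only [mp_val, RingHom.coe_coe, AlgHom.comp_apply, Subalgebra.coe_val] at c2 c3
      rw [c3, c2]
      linear_combination (-(β.val c c * (ι₁ (lam b) : F') * (ι₁ (ω.x.val r₀ c) : F') ^ 2)) * e2)
    have e3 := congrArg (resA C.k V₁) e1
    simp only [map_mul (resA C.k V₁), map_add, map_pow, (resA_eq_zero V₁ u₁).2 hu₁,
      zero_pow hq.ne', mul_zero, zero_add] at e3
    exact (mul_eq_zero.1 e3).resolve_right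
      ((map_ne_zero ((resA C.k V₁).comp ι₁)).2 (mul_ne_zero hb0 hx))
  intro r c' h1 h2 h3 h4
  change resA C.k V₁ (ω₁.x.val r c') = 0
  by_cases h5 : c' = c ∧ r = r₀
  · rw [h5.1, h5.2, z]
  · rw [show ω₁.x.val r c' = 0 from Subtype.ext (c1 r c' h1 h2 h3
      (h4.imp_right fun h6 => ⟨h6.1, h6.2.lt_of_ne fun e => h5 ⟨h6.1, e⟩⟩)), map_zero]

/-- CONA.  Paper 3.5, step 1.  Call `(r, c)` bad if `blk r = blk c`, `r < c`, `¬ Lc.r r c`.  Induct on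
`c` downwards and on `r` upwards: `Z c r` says that the frame `a ∈ P` vanishes at all bad `(r', c')`
with `c < c'` and at all bad `(r', c)` with `r' < r`.  If `(r₀, c)` is bad, `Z c r₀` holds and
`a r₀ c ≠ 0`, then `r₀`, `c` are in the same half.  Let `D` be the class of `r₀` for `Lc` (classes are
intervals: `ovc`), `D'` the next class of the block.  At most `|D'| - 1` of the columns `c' > c` are
non-zero on the rows `D'`; take a non-zero `lam : D' → F` that kills them, `b₁ ∈ D'` with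
`lam b₁ ≠ 0`, and `κ` from `exists_kap` for `(r₀, b₁)` with `S = V₀`, `c = u₀` (`exists_line`).
`(κ, zd κ zd⁻¹)` fixes `zd⁻¹`, so `(ω.map ι₀).act κ _` is a point over `V₀` that reduces to `ω`
(`Stable.loc`, `Stable.ext`).  Let `a' = κ a β`, `β ∈ B F'`, be the frame of the limit over `V₁`
(`Stable.limit`).  Then `∑ lam r * a' r c = β c c * (∑ lam r * a r c + lam b₁ * a r₀ c * u₀ ^ q)`, so
`β c c ∈ u₁ ^ q V₁`, and `a' r c = a r c * β c c` for `r ≤ r₀`. -/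
theorem Stable.step1 (h : W.Stable (W.zd C.k)⁻¹ Φ) {ω : C.Pt F}
    (hω : W.IsPt (C.ct F (W.zd C.k)⁻¹) ω) (h0 : Φ F ω) :
    ∃ (F' : Type) (_ : Field F') (_ : Algebra C.k F') (ω' : C.Pt F'),
      W.IsPt (C.ct F' (W.zd C.k)⁻¹) ω' ∧ Φ F' ω' ∧
        ∀ r c, C.blk r = C.blk c → r < c → ¬ W.Lc.r r c → ω'.x.val r c = 0 := by
  have key : ∀ s : Finset (C.Iᵒᵈ ×ₗ C.I), IsLowerSet (s : Set (C.Iᵒᵈ ×ₗ C.I)) →
      ∃ (F' : Type) (_ : Field F') (_ : Algebra C.k F') (ω' : C.Pt F'),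
        W.IsPt (C.ct F' (W.zd C.k)⁻¹) ω' ∧ Φ F' ω' ∧
          ∀ r c, C.blk r = C.blk c → r < c → ¬ W.Lc.r r c →
            toLex (OrderDual.toDual c, r) ∈ s → ω'.x.val r c = 0 := fun s => by
    induction s using Finset.induction_on_max with
    | empty => exact fun _ => ⟨F, _, _, ω, hω, h0, fun _ _ _ _ _ h => absurd h (by simp)⟩
    | insert a s ha ih =>
      intro hs
      have h1 : ∀ x < a, x ∈ s := fun x hx =>
        (Finset.mem_insert.1 (hs hx.le (Finset.mem_insert_self a s))).resolve_left hx.ne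
      obtain ⟨F₁, _, _, ω₁, a1, a2, a3⟩ := ih fun x y hxy hx => h1 y (hxy.trans_lt (ha x hx))
      obtain ⟨F₂, _, _, ω₂, b1, b2, b3⟩ := cona_step h a1 a2 (r₀ := (ofLex a).2)
        (c := OrderDual.ofDual (ofLex a).1) fun r c h2 h3 h4 h5 =>
          a3 r c h2 h3 h4 (h1 _ (Prod.Lex.lt_iff.2 (h5.imp id fun h6 =>
            ⟨congrArg OrderDual.toDual h6.1, h6.2⟩)))
      refine ⟨F₂, _, _, ω₂, b1, b2, fun r c h2 h3 h4 h5 => b3 r c h2 h3 h4 ?_⟩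
      have h6 : toLex (OrderDual.toDual c, r) ≤ a :=
        (Finset.mem_insert.1 h5).elim le_of_eq fun h6 => (ha _ h6).le
      exact (Prod.Lex.le_iff.1 h6).imp id fun h7 => ⟨congrArg OrderDual.ofDual h7.1, h7.2⟩
  obtain ⟨F', _, _, ω', a1, a2, a3⟩ := key Finset.univ fun _ _ _ _ => by simp only [Finset.coe_univ, Set.mem_univ]
  exact ⟨F', _, _, ω', a1, a2, fun r c h1 h2 h3 => a3 r c h1 h2 h3 (Finset.mem_univ _)⟩

variable (W) in
/-- the parabolic shape with Levi part `Lc` -/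
def conb_Pc : C.Rel where
  r a b := b ≤ a ∨ W.Lc.r a b
  refl a := Or.inl le_rfl
  trans a b c h1 h2 h3 h4 := by
    rcases le_or_gt c a with h | h
    · exact Or.inl h
    rcases h3 with h3 | h3 <;> rcases h4 with h4 | h4
    · exact Or.inl (h4.trans h3)
    · exact Or.inr (W.Lc.symm _ _ (W.ovc c a b (h1.trans h2).symm h1 h.le h3 (W.Lc.symm _ _ h4)))
    · exact Or.inr (W.Lc.trans a b c h1 h2 h3
        (W.ovc b c a h2 (h1.trans h2).symm h4 h.le (W.Lc.symm _ _ h3)))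
    · exact Or.inr (W.Lc.trans a b c h1 h2 h3 h4)
  mir a b h := h.imp (fun h => Fin.rev_le_rev.2 h) (W.Lc.mir a b)

theorem conb_ov : W.Lc.Ov W.conb_Pc := by
  intro a b c h1 h2 h3 h4 h5
  rcases h3 with h3 | h3
  · rcases h4 with h4 | h4
    · exact W.ovc a b c h1 h2 h3 h4 h5
    · exact W.Lc.trans a c b (h1.trans h2) h2.symm h5 (W.Lc.symm _ _ h4)
  · exact h3

section
variable {S S' : Type} [CommRing S] [Algebra C.k S] [CommRing S'] [Algebra C.k S']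

theorem conb_B : C.B S ≤ C.Pat W.conb_Pc S := Pat.mono fun _ _ _ h => Or.inl h

theorem conb_L : W.Lc.Gp S ≤ C.L S := Pat.mono fun _ _ _ h => Lv.st_le _ h

theorem conb_ft {x : GL C.I S} (hx : x ∈ W.Lc.Gp S) : C.ft W.τ x ∈ W.Lc.Gp S :=
  tw_pat _ W.τ_aut (fun a b _ h => (Lv.st_apply _ a b).2 h) hx

theorem conb_frame {a : GL C.I S} (ha : a ∈ W.Lc.Gp S) :
    a⁻¹ * C.ct S (W.zd C.k)⁻¹ * C.fr (C.lev a) * W.zd S = a⁻¹ * C.ft W.τ a := by
  rw [MonoidHom.map_inv, zd_mp, lev_of_L (conb_L ha), ← zd_conj_fr]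
  simp only [mul_assoc]

/-- a curve from the reflection to the Borel subgroup -/
def conb_e (s : C.Sp) (c : S) : GL C.I S := C.emb s c (1 - c) (-1 - c) c (by ring)

theorem conb_e_zero (s : C.Sp) : conb_e s (0 : S) = C.X s true 0 :=
  Units.ext (by simp [conb_e, X])

theorem conb_e_one (s : C.Sp) : conb_e s (1 : S) ∈ C.B S :=
  Ps.mem_B (emb_mem _ _ _ _ _ _) (by simp [conb_e, embM_ij])

theorem conb_e_ma (f : S →ₐ[C.k] S') (s : C.Sp) (c : S) :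
    C.ma f (conb_e s c) = conb_e s (f c) :=
  Units.ext (by rw [mp_mat, conb_e, emb_val, embM_map]; simp [conb_e])

theorem conb_e_mem {s : C.Sp} (hs : W.Lc.r s.i s.j) (c : S) : conb_e s c ∈ W.Lc.Gp S := by
  refine ⟨Pat.inG (emb_mem _ _ _ _ _ _), fun a b hab => ?_⟩
  refine reflb_supp s _ _ _ _ (fun e => hab (e ▸ W.Lc.refl a)) ?_ ?_ ?_ ?_ <;> intro e <;>
    obtain ⟨rfl, rfl⟩ := Prod.ext_iff.1 e
  · exact hab hs
  · exact hab (W.Lc.symm _ _ hs)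
  · exact hab (W.Lc.mir _ _ hs)
  · exact hab (W.Lc.mir _ _ (W.Lc.symm _ _ hs))

/-- the family `b * e c * b'` -/
def conb_H (s : C.Sp) (b b' : GL C.I F) (ι : F →ₐ[C.k] S) (c : S) : GL C.I S :=
  C.ma ι b * conb_e s c * C.ma ι b'

theorem conb_H_ma (s : C.Sp) (b b' : GL C.I F) (ι : F →ₐ[C.k] S) (c : S) (f : S →ₐ[C.k] S') :
    C.ma f (conb_H s b b' ι c) = conb_H s b b' (f.comp ι) (f c) := by
  rw [conb_H, MonoidHom.map_mul, MonoidHom.map_mul, conb_e_ma]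
  rfl

theorem conb_ma_lang (f : S →ₐ[C.k] S') (m : GL C.I S) :
    C.ma f (m * (C.ft W.τ m)⁻¹) = C.ma f m * (C.ft W.τ (C.ma f m))⁻¹ := by
  rw [MonoidHom.map_mul, MonoidHom.map_inv, ← ft_mp]

theorem conb_ma_fr (f : S →ₐ[C.k] S') (γ : GL C.I C.k) (m : GL C.I S) :
    C.ma f (C.ct S γ * m⁻¹) = C.ct S' γ * (C.ma f m)⁻¹ := by
  rw [MonoidHom.map_mul, MonoidHom.map_inv, ma_ct]

theorem conb_ma_div (f : S →ₐ[C.k] S') (x y : GL C.I S) :
    C.ma f (x⁻¹ * y) = (C.ma f x)⁻¹ * C.ma f y := by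
  rw [MonoidHom.map_mul, MonoidHom.map_inv]

theorem conb_fix (s : C.Sp) {x a b' : GL C.I F} (e : x⁻¹ * C.ft W.τ x = a * conb_e s 0 * b')
    (ι : F →ₐ[C.k] S) {m : GL C.I S} (h : conb_H s a b' ι 0 = m * (C.ft W.τ m)⁻¹) :
    C.ft W.τ (C.ma ι x * m) = C.ma ι x * m := by
  have k2 := congrArg (C.ma ι) e
  rw [conb_ma_div, ← ft_mp, MonoidHom.map_mul, MonoidHom.map_mul, conb_e_ma, map_zero] at k2
  rw [MonoidHom.map_mul, inv_mul_eq_iff_eq_mul.1 (k2.trans h)]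
  group

theorem conb_key {γ : GL C.I C.k} (hγ : C.ft W.τ γ = γ) (m : GL C.I S) :
    (C.ct S γ * m⁻¹)⁻¹ * C.ft W.τ (C.ct S γ * m⁻¹) = m * (C.ft W.τ m)⁻¹ := by
  rw [MonoidHom.map_mul, ft_mp, hγ, MonoidHom.map_inv]
  group

end

theorem conb_int {V : Subalgebra C.k F} (hV : IsVal V) {H : GL C.I V} {m : GL C.I F}
    (h : C.ma V.val H = m * (C.ft W.τ m)⁻¹) :
    ∃ m₀ : GL C.I V, C.ma V.val m₀ = m ∧ H = m₀ * (C.ft W.τ m₀)⁻¹ := by
  obtain ⟨h1, h2⟩ := lang_integral W.τ V.toSubring hV h (fun a b => (H.val a b).2)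
    (fun a b => (H⁻¹.val a b).2)
  obtain ⟨m₀, rfl⟩ := C.exists_mp_eq (V.val : V →+* F) Subtype.val_injective m
    (fun a b => ⟨⟨_, h1 a b⟩, rfl⟩) (fun a b => ⟨⟨_, h2 a b⟩, rfl⟩)
  refine ⟨m₀, rfl, C.mp_injective (V.val : V →+* F) Subtype.val_injective ?_⟩
  exact (conb_ma_lang V.val m₀).symm ▸ h

/-- a Bruhat decomposition inside `Lc` -/
theorem conb_cell {ρ : Equiv.Perm C.I} {x : GL C.I F} (hx : x ∈ W.Lc.Gp F) (h : C.Cell ρ x) :
    ∃ b n b', b ∈ C.B F ∧ C.Mon ρ n ∧ b' ∈ C.B F ∧ b ∈ W.Lc.Gp F ∧ n ∈ W.Lc.Gp F ∧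
      b' ∈ W.Lc.Gp F ∧ x = b * n * b' := by
  obtain ⟨b, n, b', hb, hn, hb', e⟩ := h
  have h1 : b ∈ C.Pat W.conb_Pc F := conb_B hb
  have h2 : b' ∈ C.Pat W.conb_Pc F := conb_B hb'
  have h3 : n ∈ C.Pat W.conb_Pc F := by
    have := mul_mem (mul_mem (inv_mem h1) (Pat.mono (R' := W.conb_Pc) (fun _ _ _ h => Or.inr h) hx))
      (inv_mem h2)
    rwa [e, show b⁻¹ * (b * n * b') * b'⁻¹ = n by group] at this
  refine ⟨W.Lc.lev b, W.Lc.lev n, W.Lc.lev b', Lv.lev_pat conb_ov h1 hb,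
    ⟨Pat.le_G (Lv.lev_mem conb_ov h3), fun a c hac => ?_⟩, Lv.lev_pat conb_ov h2 hb',
    Lv.lev_mem conb_ov h1, Lv.lev_mem conb_ov h3, Lv.lev_mem conb_ov h2, ?_⟩
  · by_cases hr : W.Lc.r a c
    · rw [Lv.lev_pos conb_ov h3 hr, hn.2 a c hac]
    · exact Lv.lev_neg conb_ov h3 hr
  · rw [← Lv.lev_mul conb_ov h1 h3, ← Lv.lev_mul conb_ov (mul_mem h1 h3) h2, ← e, Lv.lev_of_mem hx]

theorem conb_root {π : Equiv.Perm C.I} (hπ : C.IsW π) (s : C.Sp) (hs : π s.i < π s.j)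
    {n : GL C.I F} (hn : C.Mon (π * C.sw s.i s.j) n) (hL : n ∈ W.Lc.Gp F) : W.Lc.r s.i s.j := by
  have key : ∀ b, W.Lc.r ((π * C.sw s.i s.j) b) b := fun b => by
    by_contra h
    exact (hn.unit b).ne_zero (Pat.zero hL h)
  have k1 := key s.i
  have k2 := key s.j
  rw [Equiv.Perm.mul_apply, sw_left s.ne] at k1
  rw [Equiv.Perm.mul_apply, sw_right s.ne] at k2
  have hb := s.h.1
  have b1 := hπ.1 s.i
  have b2 := hπ.1 s.j
  rcases le_or_gt s.j (π s.j) with h | h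
  · exact W.Lc.trans _ _ _ (hb.trans b2.symm) b2 (W.Lc.symm _ _ k1)
      (W.ovc _ _ _ b2 hb.symm h s.h.2.1.le k1)
  · exact W.Lc.trans _ _ _ (hb.trans b2.symm) b2 (W.Lc.symm _ _ k1)
      (W.Lc.symm _ _ (W.ovc _ _ _ b2.symm (b2.trans (hb.symm.trans b1.symm)) h.le hs.le
        (W.Lc.symm _ _ k2)))

theorem conb_unit {O F' : Type} [CommRing O] [IsLocalRing O] [Algebra C.k O] [Field F']
    [Algebra C.k F'] (f : O →ₐ[C.k] F') {u : O} (hu : ¬ IsUnit u) :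
    ∃ v : O, (1 + f u) * f v = 1 ∧ resA C.k O (u * v) = 0 ∧ resA C.k O v = 1 := by
  obtain ⟨v, hv⟩ := ((IsLocalRing.isUnit_or_isUnit_one_sub_self (-u)).resolve_left
    (by simpa using hu)).exists_right_inv
  have h0 := (resA_eq_zero (k := C.k) O u).2 hu
  refine ⟨v, by simpa only [sub_neg_eq_add, map_mul, map_add, map_one] using congrArg f hv, by rw [map_mul, h0, zero_mul], ?_⟩
  simpa [h0] using congrArg (resA C.k O) hv

/-- the limit of a point whose frame is integral -/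
theorem conb_lim (h : W.Stable g₀ Φ) (hg : g₀ ∈ C.G C.k) {V : Subalgebra C.k F} (hV : IsVal V)
    [IsLocalRing V] {ω : C.Pt F} (hω : W.IsPt (C.ct F g₀) ω) {x : GL C.I V}
    (hx : C.ma V.val x = ω.x) :
    ∃ Q, W.IsPt (C.ct _ g₀) ⟨C.ma (resA C.k V) x, Q⟩ ∧
      (Φ F ω ↔ Φ _ ⟨C.ma (resA C.k V) x, Q⟩) := by
  obtain ⟨ω₀, a1, a2, a3⟩ := h.limit hg hV hω
  have h1 : ω₀.x⁻¹ * x ∈ C.B V := by
    refine Pat.of_map (V.val : V →+* F) Subtype.val_injective ?_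
    rw [conb_ma_div, hx]
    simpa [Pt.map] using inv_mem a2.1
  obtain ⟨p1, p2⟩ := a1.frame h1
  rw [mul_inv_cancel_left] at p1 p2
  have p3 := p2.map (resA C.k V)
  exact ⟨_, connc_map (resA C.k V) p1, a3.trans ⟨h.eqv _ _ _ p3, h.eqv _ _ _ p3.symm⟩⟩

theorem conb_step (h : W.Stable (W.zd C.k)⁻¹ Φ) {π : Equiv.Perm C.I} (hπ : C.IsW π) (s : C.Sp)
    (hs : π s.i < π s.j) {ω : C.Pt F} (hω : W.IsPt (C.ct F (W.zd C.k)⁻¹) ω) (h0 : Φ F ω)
    (hL : ω.x ∈ W.Lc.Gp F) (hc : C.Cell (π * C.sw s.i s.j) (ω.x⁻¹ * C.ft W.τ ω.x)) :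
    ∃ (F' : Type) (_ : Field F') (_ : Algebra C.k F') (ω' : C.Pt F'),
      W.IsPt (C.ct F' (W.zd C.k)⁻¹) ω' ∧ Φ F' ω' ∧ ω'.x ∈ W.Lc.Gp F' ∧
        C.Cell π (ω'.x⁻¹ * C.ft W.τ ω'.x) := by
  have hg : (W.zd C.k)⁻¹ ∈ C.G C.k := inv_mem W.zd_mem
  have hM := (exists_isPt_iff (Pat.map _ hg) hω.memP).1 ⟨ω.Q, hω⟩
  rw [conb_frame hL] at hM
  obtain ⟨b, n, b', hb, hn, hb', lb, ln, lb', e⟩ :=
    conb_cell (mul_mem (inv_mem hL) (conb_ft hL)) hc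
  have hr := conb_root hπ s hs hn ln
  have hn₁ : C.Mon π (n * (conb_e s 0)⁻¹) := by
    have := hn.mul (mon_X (S := F) s).inv
    rwa [mul_inv_cancel_right, ← conb_e_zero] at this
  obtain ⟨a, ha⟩ : ∃ a, a = b * (n * (conb_e s 0)⁻¹) := ⟨_, rfl⟩
  have ca : C.Cell π a := ha ▸ (Cell.of_mon hn₁).B_mul hb
  have la : a ∈ W.Lc.Gp F := ha ▸ mul_mem lb (mul_mem ln (inv_mem (conb_e_mem hr 0)))
  have e0 : ω.x⁻¹ * C.ft W.τ ω.x = a * conb_e s 0 * b' := by rw [e, ha]; group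
  obtain ⟨F', _, _, _, V₀, V₁, ι₀, ι₁, u₀, u₁, hV₀, hV₁, hι, hu₀, hu₁, hu⟩ :=
    exists_line (k := C.k) F
  have := hV₀.isLocalRing
  have := hV₁.isLocalRing
  have hinj : ∀ V : Subalgebra C.k F', Function.Injective (V.val : V →+* F') := fun V =>
    Subtype.val_injective
  obtain ⟨v₀, hv₀, r₀, -⟩ := conb_unit V₀.val hu₀
  obtain ⟨v₁, hv₁, -, r₁⟩ := conb_unit V₁.val hu₁
  have hv₀' : (1 + (u₀ : F')) * v₀ = 1 := hv₀
  have hv₁' : (1 + (u₁ : F')) * v₁ = 1 := hv₁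
  have hcc : V₀.val (u₀ * v₀) = V₁.val v₁ := by
    change (u₀ : F') * v₀ = v₁
    linear_combination (-(u₀ : F') * v₀) * hv₁' + (v₁ : F') * hv₀' + ((v₀ : F') * v₁) * hu
  obtain ⟨H, hH⟩ : ∃ H, H = conb_H s a b' (V₀.val.comp ι₀) (V₀.val (u₀ * v₀)) := ⟨_, rfl⟩
  have lH : H ∈ W.Lc.Gp F' :=
    hH ▸ mul_mem (mul_mem (Pat.map _ la) (conb_e_mem hr _)) (Pat.map _ lb')
  have cH : C.Cell (π * C.sw s.i s.j) H := by
    rw [hH]
    refine ((ca.map _).mul_simple hπ s hs (emb_mem _ _ _ _ _ _) ?_).mul_B (Pat.map _ hb')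
    rw [emb_val, embM_ij]
    refine IsUnit.of_mul_eq_one (1 + (u₀ : F')) ?_
    change (1 - (u₀ : F') * v₀) * (1 + u₀) = 1
    linear_combination (-(u₀ : F')) * hv₀'
  have sH : W.Sch H := by
    obtain ⟨β, β', h1, h2, h3⟩ := (hc.map (V₀.val.comp ι₀ : F →+* F')).rel cH
    exact h3 ▸ ((hM.map _).B_mul h1).mul_B h2
  obtain ⟨m, lm, em⟩ := lang W.Lc.toRel W.τ_aut (fun a b _ h => (Lv.st_apply _ a b).2 h) lH
  obtain ⟨m₀, rm₀, em₀⟩ := conb_int (W := W) hV₀ (H := conb_H s a b' ι₀ (u₀ * v₀)) (m := m)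
    (by rw [conb_H_ma, ← hH, em])
  obtain ⟨m₁, rm₁, em₁⟩ := conb_int (W := W) hV₁ (H := conb_H s a b' ι₁ v₁) (m := m)
    (by rw [conb_H_ma, ← hι, ← hcc, ← hH, em])
  have lm₀ : m₀ ∈ W.Lc.Gp V₀ := Pat.of_map _ (hinj V₀) (rm₀ ▸ lm)
  have lm₁ : m₁ ∈ W.Lc.Gp V₁ := Pat.of_map _ (hinj V₁) (rm₁ ▸ lm)
  obtain ⟨γ, hγ, eγ⟩ := exists_fixed (conb_fix s e0 ((resA C.k V₀).comp ι₀)
    (m := C.ma (resA C.k V₀) m₀) (by rw [← r₀, ← conb_H_ma, em₀, conb_ma_lang]))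
  have lγ : γ ∈ W.Lc.Gp C.k := Pat.of_map _ (RingHom.injective _)
    (eγ ▸ mul_mem (Pat.map _ hL) (Pat.map _ lm₀))
  have lx : C.ct F' γ * m⁻¹ ∈ W.Lc.Gp F' := mul_mem (Pat.map _ lγ) (inv_mem lm)
  obtain ⟨Q, hQ⟩ := (W.exists_isPt_iff (Pat.map (algebraMap C.k F') hg) (L_le_P (conb_L lx))).2
    (by rw [conb_frame lx, conb_key hγ, ← em]; exact sH)
  obtain ⟨Q₀, a0, k0⟩ := conb_lim h hg hV₀ hQ (x := C.ct V₀ γ * m₀⁻¹) (by rw [conb_ma_fr, rm₀])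
  obtain ⟨Q₁, a1, k1⟩ := conb_lim h hg hV₁ hQ (x := C.ct V₁ γ * m₁⁻¹) (by rw [conb_ma_fr, rm₁])
  rw [conb_ma_fr] at a0 k0 a1 k1
  rw [← eq_mul_inv_iff_mul_eq.2 eγ.symm] at a0 k0
  refine ⟨_, _, _, _, a1, k1.1 (k0.2 (h.fibre hg (connc_map ((resA C.k V₀).comp ι₀) hω) a0
    (by simp [Pt.map]) ((h.ext _ hω).1 h0))),
    mul_mem (Pat.map _ lγ) (inv_mem (Pat.map _ lm₁)), ?_⟩
  rw [conb_key hγ, ← conb_ma_lang, ← em₁, conb_H_ma, r₁]
  exact ((ca.map _).mul_B (conb_e_one s)).mul_B (Pat.map _ hb')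

/-- CONB.  Paper 3.5, step 2.  Let `Pc` be the shape `b ≤ a ∨ Lc.r a b`; `Lc.Ov Pc`.  By `IsPt.frame`
the frame `a` may be taken in `Lc.Gp`; `h = a⁻¹ * ft τ a` (`zd_conj_fr`) lies in `Sch`
(`exists_isPt_iff`) and in a cell `π` (`P.exists_cell`).  Induct on `π` (`IsW.induction`, over all
fields).  For `π = 1` use `isPt_min` and `Stable.fibre`.  For `π * s` write `h = b n b'`; then
`n ∈ Pc` is monomial, so `n ∈ Lc.Gp`, `s` is a root of `Lc`, and (apply `Lc.lev`) `b, b' ∈ Lc.Gp`.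
Put `e c = emb s c (1 - c) (-1 - c) c`, `n₁ = n * (e 0)⁻¹`, `h c = b n₁ (e c) b'`, `c = u₀ / (1 + u₀)`
(`exists_line`), `c ∈ 𝔪₀`, `c - 1 ∈ 𝔪₁`.  Over `F'` one has `h c ∈ Sch` (`Cell.mul_simple`,
`Cell.rel`), `h c = m * (ft τ m)⁻¹` (`lang`), `m` is integral over `V₀`, `V₁` (`lang_integral`);
`a * m` is fixed by `ft τ` over the residue field of `V₀`, so equal to a constant `γ`
(`exists_fixed`).  Take a point over `F'` with frame `γ m⁻¹`, use `connc_limit` for `V₀` and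
`Stable.limit` for `V₁`, where `h 1` is in the cell `π`. -/
theorem Stable.step2 (h : W.Stable (W.zd C.k)⁻¹ Φ) {ω : C.Pt F}
    (hω : W.IsPt (C.ct F (W.zd C.k)⁻¹) ω) (h0 : Φ F ω)
    (hx : ∀ r c, C.blk r = C.blk c → r < c → ¬ W.Lc.r r c → ω.x.val r c = 0) :
    ∃ (F' : Type) (_ : Field F') (_ : Algebra C.k F') (ω' : C.Pt F'),
      W.IsPt (C.ct F' (W.zd C.k)⁻¹) ω' ∧ Φ F' ω' ∧ ∀ n, W.ent ω' n = 0 := by
  have hg : (W.zd C.k)⁻¹ ∈ C.G C.k := inv_mem W.zd_mem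
  have hP : ω.x ∈ C.Pat W.conb_Pc F := ⟨Pat.inG hω.memP, fun a b hab => by
    by_cases hb : C.blk a = C.blk b
    · exact hx a b hb (not_le.1 fun h => hab (Or.inl h)) fun h => hab (Or.inr h)
    · exact Pat.blk hω.memP hb⟩
  have hL := Lv.lev_mem conb_ov hP
  have hβ : (W.Lc.lev ω.x)⁻¹ * ω.x ∈ C.B F :=
    Lv.mem_of_lev conb_ov (mul_mem (inv_mem (Lv.lev_pat conb_ov hP hP)) hP)
      (by rw [Lv.lev_lev_inv_mul conb_ov hP]; exact one_mem _) fun a b _ h1 h2 =>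
        h1.resolve_right h2
  obtain ⟨p1, p2⟩ := hω.frame (inv_mem hβ)
  have ex : ω.x * ((W.Lc.lev ω.x)⁻¹ * ω.x)⁻¹ = W.Lc.lev ω.x := by group
  rw [ex] at p1 p2
  obtain ⟨π, hπ, hc⟩ := P.exists_cell (L_le_P (conb_L (mul_mem (inv_mem hL) (conb_ft hL))))
  refine IsW.induction (Φ := fun π => ∀ (F : Type) [Field F] [Algebra C.k F] (ω : C.Pt F),
    W.IsPt (C.ct F (W.zd C.k)⁻¹) ω → Φ F ω → ω.x ∈ W.Lc.Gp F →
      C.Cell π (ω.x⁻¹ * C.ft W.τ ω.x) →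
      ∃ (F' : Type) (_ : Field F') (_ : Algebra C.k F') (ω' : C.Pt F'),
        W.IsPt (C.ct F' (W.zd C.k)⁻¹) ω' ∧ Φ F' ω' ∧ ∀ n, W.ent ω' n = 0)
    (fun F _ _ ω a1 a2 a3 a4 => ?_) (fun π s hπ hs ih F _ _ ω a1 a2 a3 a4 => ?_) hπ.1 F _ p1
    (h.eqv _ _ _ p2 h0) hL hc
  · obtain ⟨h1, h2⟩ := isPt_min (Pat.map (algebraMap C.k F) hg) a1.memP
      (by rw [conb_frame a3]; exact a4.mem_B)
    exact ⟨F, _, _, _, h1, h.fibre hg a1 h1 (by simp) a2, h2⟩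
  · obtain ⟨F', _, _, ω', b1, b2, b3, b4⟩ := conb_step h hπ s hs a1 a2 a3 a4
    exact ih F' ω' b1 b2 b3 b4

theorem isPt_act_ct {S : Type} [CommRing S] [Algebra C.k S] {x y : GL C.I C.k} (he : C.E x y)
    {ω : C.Pt S} (hω : W.IsPt (C.ct S g₀) ω) :
    W.IsPt (C.ct S (x * g₀ * y⁻¹)) (ω.act (C.ct S x) (C.ct S y)) := by
  rw [map_mul, map_mul, map_inv]
  exact hω.act (he.map _)

/-- every stable class over the orbit of `z⁻¹` contains a minimal point -/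
theorem Stable.min (h : W.Stable g₀ Φ) {x y : GL C.I C.k} (he : C.E x y)
    (hg : (W.zd C.k)⁻¹ = x * g₀ * y⁻¹) {ω : C.Pt F} (hω : W.IsPt (C.ct F g₀) ω) (h0 : Φ F ω) :
    ∃ (F' : Type) (_ : Field F') (_ : Algebra C.k F') (ω' : C.Pt F'),
      W.IsPt (C.ct F' g₀) ω' ∧ Φ F' ω' ∧ ∀ n, W.ent ω' n = 0 := by
  have hg' : g₀ = x⁻¹ * (W.zd C.k)⁻¹ * y⁻¹⁻¹ := by rw [hg]; group
  have h1 : W.Stable (W.zd C.k)⁻¹ fun F _ _ ω => Φ F (ω.act (C.ct F x⁻¹) (C.ct F y⁻¹)) := by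
    refine ⟨fun F _ _ ω ω' e => h.eqv F _ _ (e.act _ _), fun O F F' _ _ _ _ _ _ _ ω hω r f hr => ?_⟩
    have h2 := h.loc O F F' _ (hg' ▸ isPt_act_ct he.inv hω) r f hr
    rwa [Pt.map_act, Pt.map_act, ma_ct, ma_ct, ma_ct, ma_ct] at h2
  obtain ⟨F₁, _, _, ω₁, a1, a2, a3⟩ := h1.step1 (hg ▸ isPt_act_ct he hω) (by
    rwa [Pt.act_act, ← map_mul, ← map_mul, inv_mul_cancel, inv_mul_cancel, map_one, Pt.act_one])
  obtain ⟨F₂, _, _, ω₂, b1, b2, b3⟩ := h1.step2 a1 a2 a3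
  exact ⟨F₂, _, _, _, hg' ▸ isPt_act_ct he.inv b1, b2, fun n => by rw [ent_act, b3]⟩

end Wd

end Ctx

end Pool.Agent.MP_b8b722_ag

end

end partConn

section partMin

/-!
Every component of the Bott-Samelson tower contains a minimal point.
-/

set_option linter.unusedSectionVars false
set_option linter.unusedVariables false

open Matrix

noncomputable section

namespace Pool.Agent.MP_b8b722_ag

namespace Ctx

namespace Atlas

variable {C : Ctx} {𝒜 : C.Atlas} {W : C.Wd}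

theorem stable_vis (G : 𝒜.GP W) (i : 𝒜.ι) (ξ₀ : 𝒜.A i →ₐ[C.k] C.k) :
    W.Stable (C.ma ξ₀ (𝒜.g i)) fun F _ _ ω => Vis G i F ((Algebra.ofId C.k F).comp ξ₀) ω := by
  refine ⟨fun F _ _ ω ω' h h0 => h0.eqv h, fun O F F' _ _ _ _ _ _ _ ω hω r f hr => ?_⟩
  have key := vis_iff (G := G) ((Algebra.ofId C.k O).comp ξ₀) (ω := ω) hω r hr f
  have e1 : r.comp ((Algebra.ofId C.k O).comp ξ₀) = (Algebra.ofId C.k F).comp ξ₀ :=
    AlgHom.ext fun a => r.commutes _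
  have e2 : f.comp ((Algebra.ofId C.k O).comp ξ₀) = (Algebra.ofId C.k F').comp ξ₀ :=
    AlgHom.ext fun a => f.commutes _
  rwa [e1, e2] at key

theorem exists_min (G : 𝒜.GP W) :
    ∃ (i : 𝒜.ι) (c : W.Ch) (j : (𝒜.R W i c).R →ₐ[C.k] 𝒜.Ω) (𝔮 : Ideal (𝒜.R W i c).R),
      Gen G i c j ∧ 𝔮.IsPrime ∧ (∀ r, j r = 0 → r ∈ 𝔮) ∧ ∀ n, (𝒜.R W i c).T n ∈ 𝔮 := by
  obtain ⟨i, ξ₀, x, y, hE, hxy⟩ := 𝒜.surj _ (inv_mem W.zd_mem)
  have : (RingHom.ker ξ₀).IsPrime := RingHom.ker_isPrime ξ₀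
  obtain ⟨V, ρ, hV, hρ, hu⟩ := exists_isVal_center (𝒜.e i) (RingHom.ker ξ₀) fun r hr => by
    rw [𝒜.inj i (hr.trans (map_zero _).symm)]
    exact zero_mem _
  have := hV.isLocalRing
  have hξ : (resA C.k V).comp ρ = (Algebra.ofId C.k (IsLocalRing.ResidueField V)).comp ξ₀ := by
    ext a
    have h3 : resA C.k V (ρ (a - algebraMap C.k _ (ξ₀ a))) = 0 := by
      rw [resA_eq_zero, hu, not_not, RingHom.mem_ker, map_sub, AlgHom.commutes]
      exact sub_self _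
    rw [map_sub, map_sub, AlgHom.commutes, AlgHom.commutes, sub_eq_zero] at h3
    exact h3
  have hgp : W.IsPt (C.ma V.val (C.ma ρ (𝒜.g i))) (gp G i) := by
    have := isPt_gp G i
    rw [← hρ] at this
    exact this
  obtain ⟨c', u, t, hc', he⟩ := Wd.IsPt.exists_chart_isVal hV (Pat.map _ (𝒜.g_mem i)) hgp
  have hv := (vis_iff (G := G) ρ hc'.isPt (resA C.k V) (resA_local V) V.val).2 (by
    rw [hρ]
    exact vis_gp.eqv he)
  have h1 := hc'.isPt.map (resA C.k V)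
  rw [hξ] at hv
  rw [show C.ma (resA C.k V) (C.ma ρ (𝒜.g i)) = C.ct _ (C.ma ξ₀ (𝒜.g i)) from
    congrArg (fun φ => C.ma φ (𝒜.g i)) hξ] at h1
  obtain ⟨F, _, _, ω, h3, ⟨c, j, ρ', h5, h6, h7, h8⟩, h4⟩ := (stable_vis G i ξ₀).min hE hxy h1 hv
  refine ⟨i, c, j, RingHom.ker ρ', h5, RingHom.ker_isPrime ρ', h8, fun n => ?_⟩
  obtain ⟨v, hv⟩ := h7.ent h3 n
  rw [RingHom.mem_ker, ← Wd.ChR.ent_pt, hv, h4, mul_zero]

end Atlas

end Ctx

end Pool.Agent.MP_b8b722_ag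

end

end partMin

section partCore

/-!
The local rings of the tower satisfy the axioms of the valuation argument.
-/

set_option linter.unusedSectionVars false
set_option linter.unusedVariables false

open Matrix

noncomputable section

namespace Pool.Agent.MP_b8b722_ag

namespace Ctx

namespace Atlas

variable {C : Ctx} {𝒜 : C.Atlas} {W : C.Wd} (G : 𝒜.GP W)

/-- `φ` divided by the factor of automorphy is regular in every integral frame -/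
def Reg (ν : C.I → ℤ) (φ : 𝒜.Ω) : Prop :=
  ∀ (i : 𝒜.ι) (S : Type) [CommRing S] [Algebra C.k S] (ξ : 𝒜.A i →ₐ[C.k] S) (j : S →ₐ[C.k] 𝒜.Ω)
    (a : GL C.I S), j.comp ξ = 𝒜.e i → a ∈ C.P S →
    (gp G i).x⁻¹ * C.ma j a ∈ C.B 𝒜.Ω →
    ∃ f : S, j f * C.chi ν ((gp G i).x⁻¹ * C.ma j a) = φ

/-- `φ` divided by the factor of automorphy vanishes to order `N` along the divisor `l` -/
def RegN (ν : C.I → ℤ) (φ : 𝒜.Ω) (l : Fin W.d) (N : ℤ) : Prop :=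
  ∀ V : Subalgebra C.k 𝒜.Ω, IsVal V → ∀ (i : 𝒜.ι) (ξ : 𝒜.A i →ₐ[C.k] V) (ω : C.Pt V),
    V.val.comp ξ = 𝒜.e i → (∀ a, a ≠ 0 → IsUnit (ξ a)) → W.IsPt (C.ma ξ (𝒜.g i)) ω →
    W.Eqv (gp G i) (ω.map V.val) → W.Op ω → ¬ IsUnit (W.ent ω l) → ∀ f : 𝒜.Ω,
      f * C.chi ν ((gp G i).x⁻¹ * C.ma V.val ω.x) = φ → f * (W.ent ω l : V).val ^ (-N) ∈ V

/-- a point of the component of the tower with generic point `G` -/
structure VP where
  i : 𝒜.ι
  c : W.Ch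
  j : (𝒜.R W i c).R →ₐ[C.k] 𝒜.Ω
  gen : Gen G i c j
  𝔮 : Ideal (𝒜.R W i c).R
  [pr : 𝔮.IsPrime]
  ker : ∀ r, j r = 0 → r ∈ 𝔮

attribute [instance] VP.pr

variable {G}

namespace VP

variable (v : VP G)

abbrev R : Wd.ChR (𝒜.g v.i) v.c := 𝒜.R W v.i v.c

/-- the local ring -/
abbrev O : Type := Localization.AtPrime v.𝔮

def toO : v.R.R →ₐ[C.k] v.O := IsScalarTower.toAlgHom C.k v.R.R v.O

theorem toO_apply (r : v.R.R) : v.toO r = algebraMap v.R.R v.O r := rfl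

theorem isUnit_toO (r : v.R.R) : IsUnit (v.toO r) ↔ r ∉ v.𝔮 :=
  IsLocalization.AtPrime.isUnit_to_map_iff v.O v.𝔮 r

/-- the embedding into `Ω` -/
def ι : v.O →ₐ[C.k] 𝒜.Ω :=
  IsLocalization.liftAlgHom (M := v.𝔮.primeCompl) (f := v.j) fun s =>
    (Ne.isUnit fun h => s.2 (v.ker _ h))

theorem ι_toO (r : v.R.R) : v.ι (v.toO r) = v.j r := by
  simp only [ι, toO_apply, IsLocalization.coe_liftAlgHom, AlgHom.toRingHom_eq_coe, IsLocalization.lift_eq, RingHom.coe_coe]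

theorem ι_comp : v.ι.comp v.toO = v.j := AlgHom.ext v.ι_toO

theorem ι_injective : Function.Injective v.ι := by
  rw [injective_iff_map_eq_zero]
  intro x hx
  obtain ⟨⟨r, s⟩, hrs⟩ := IsLocalization.surj v.𝔮.primeCompl x
  have h2 : v.j r = 0 := by
    rw [← v.ι_toO, toO_apply, ← hrs, map_mul, hx, zero_mul]
  obtain ⟨t, ht, htr⟩ := v.gen.inj v.𝔮 v.ker h2
  have h3 : algebraMap v.R.R v.O r = 0 :=
    (IsLocalization.map_eq_zero_iff v.𝔮.primeCompl v.O r).2 ⟨⟨t, ht⟩, htr⟩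
  exact (IsLocalization.map_units v.O s).mul_left_eq_zero.1 (hrs.trans h3)

instance : IsNoetherianRing v.R.R := Algebra.FiniteType.isNoetherianRing C.k _

/-- the factor of automorphy -/
def b1 : GL C.I 𝒜.Ω := (gp G v.i).x⁻¹ * C.ma v.j v.R.pt.x

theorem b1_mem : v.b1 ∈ C.B 𝒜.Ω := v.gen.2.1

open Classical in
def φR (ν : C.I → ℤ) (φ : 𝒜.Ω) : v.R.R :=
  if h : ∃ f, v.j f * C.chi ν v.b1 = φ then h.choose else 0

theorem φR_spec {ν : C.I → ℤ} {φ : 𝒜.Ω} (h : Reg G ν φ) :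
    v.j (v.φR ν φ) * C.chi ν v.b1 = φ := by
  have h2 : ∃ f, v.j f * C.chi ν v.b1 = φ :=
    h v.i v.R.R v.R.ξ v.j v.R.pt.x v.gen.1 v.R.isPt.memP v.b1_mem
  rw [φR, dif_pos h2]
  exact h2.choose_spec

def bR : GL C.I v.R.R := Wd.bOf (C.ma v.R.ξ (𝒜.g v.i)) v.R.pt

/-- the abstract local ring -/
def lp (ν : C.I → ℤ) (φ : 𝒜.Ω) : LP C.k W.d C.I where
  O := v.O
  T n := v.toO (v.R.T n)
  φ := v.toO (v.φR ν φ)
  b a := v.toO (v.bR.val a a)

variable {ν : C.I → ℤ} {φ : 𝒜.Ω}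

theorem corea_IS (S : Finset (Fin W.d)) : (v.lp ν φ).IS S =
    (Ideal.span (v.R.T '' (S : Set (Fin W.d)))).map (algebraMap v.R.R v.O) := by
  rw [Ideal.map_span, Set.image_image]
  rfl

theorem snc : (v.lp ν φ).SNC := by
  intro S hS
  have hS' : ∀ n ∈ S, v.R.T n ∈ v.𝔮 := fun n hn => by
    by_contra h
    exact hS n hn ((v.isUnit_toO _).2 h)
  have hJ : Ideal.span (v.R.T '' (S : Set (Fin W.d))) ≤ v.𝔮 := by
    rw [Ideal.span_le]
    rintro _ ⟨n, hn, rfl⟩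
    exact hS' n hn
  have := v.R.smooth (𝒜.smooth v.i) (𝒜.g_mem v.i) S
  rw [v.corea_IS]
  refine ⟨isPrime_map_of_smooth (k := C.k) _ v.𝔮 hJ, fun n hn h => ?_⟩
  obtain ⟨m, hm, h2⟩ :=
    (IsLocalization.algebraMap_mem_map_algebraMap_iff v.𝔮.primeCompl v.O _ _).1 h
  exact v.R.T_not_mem (𝒜.smooth v.i) (𝒜.g_mem v.i) v.𝔮 S hS' hn hm h2

/-- generisation: the prime is the contraction of the ideal of the stratum -/
theorem gen' (S : Finset (Fin W.d))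
    (hS : ∀ n ∈ S, ¬ IsUnit ((v.lp ν φ).T n)) :
    ∃ (v' : VP G) (ρ : (v.lp ν φ).O →ₐ[C.k] (v'.lp ν φ).O),
      IsLoc (ρ : (v.lp ν φ).O →+* (v'.lp ν φ).O) ∧
      IsLocalRing.maximalIdeal (v'.lp ν φ).O = (v'.lp ν φ).IS S ∧
      (∀ n, ρ ((v.lp ν φ).T n) = (v'.lp ν φ).T n) ∧ ρ (v.lp ν φ).φ = (v'.lp ν φ).φ ∧
      ∀ a, ρ ((v.lp ν φ).b a) = (v'.lp ν φ).b a := by
  have hP : ((Ideal.span (v.R.T '' (S : Set (Fin W.d)))).map (algebraMap v.R.R v.O)).IsPrime := by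
    rw [← v.corea_IS (ν := ν) (φ := φ)]
    exact (v.snc S hS).1
  let v' : VP G :=
    { i := v.i
      c := v.c
      j := v.j
      gen := v.gen
      𝔮 := ((Ideal.span (v.R.T '' (S : Set (Fin W.d)))).map (algebraMap v.R.R v.O)).comap
        (algebraMap v.R.R v.O)
      pr := Ideal.comap_isPrime _ _
      ker := fun r hr => by
        have h2 : algebraMap v.R.R v.O r = 0 :=
          v.ι_injective (by rw [← toO_apply, v.ι_toO, hr, map_zero])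
        rw [Ideal.mem_comap, h2]
        exact zero_mem _ }
  have hle : ∀ r : v.R.R, r ∉ v.𝔮 → IsUnit (v'.toO r) := fun r hr =>
    (v'.isUnit_toO r).2 fun h =>
      hP.ne_top (Ideal.eq_top_of_isUnit_mem _ (Ideal.mem_comap.1 h) ((v.isUnit_toO r).2 hr))
  let ρ : v.O →ₐ[C.k] v'.O :=
    IsLocalization.liftAlgHom (M := v.𝔮.primeCompl) (f := v'.toO) fun s => hle s s.2
  have hρ : ∀ r, ρ (v.toO r) = v'.toO r := fun r => by
    simp only [ρ, toO_apply, IsLocalization.coe_liftAlgHom, AlgHom.toRingHom_eq_coe, IsLocalization.lift_eq, RingHom.coe_coe]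
  have hι : ∀ x, v'.ι (ρ x) = v.ι x := fun x => by
    obtain ⟨⟨r, s⟩, hrs⟩ := IsLocalization.surj v.𝔮.primeCompl x
    have h2 : x * v.toO s = v.toO r := hrs
    have h3 : v.j s ≠ 0 := fun h => s.2 (v.ker _ h)
    refine mul_right_cancel₀ h3 ?_
    have h4 : v'.ι (ρ x) * v.j s = v.j r := by
      have h5 := congrArg (fun z => v'.ι (ρ z)) h2
      simp only [map_mul, hρ] at h5
      rwa [v'.ι_toO, v'.ι_toO] at h5
    rw [h4, ← v.ι_toO, ← v.ι_toO, ← map_mul, h2]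
  refine ⟨v', ρ, ⟨fun x y h => v.ι_injective ?_, fun x => ?_⟩, ?_, fun n => hρ _, hρ _,
    fun a => hρ _⟩
  · exact (hι x).symm.trans ((congrArg v'.ι h).trans (hι y))
  · obtain ⟨⟨r, s⟩, hrs⟩ := IsLocalization.surj v'.𝔮.primeCompl (S := v'.O) x
    refine ⟨v.toO r, v.toO s, ?_, ?_⟩
    · exact (hρ s).symm ▸ (v'.isUnit_toO s).2 s.2
    · exact (congrArg (fun z => x * z) (hρ s)).trans (hrs.trans (hρ r).symm)
  · rw [v'.corea_IS]
    refine (Localization.AtPrime.map_eq_maximalIdeal (I := v'.𝔮)).symm.trans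
      (le_antisymm ?_ (Ideal.map_mono Ideal.le_comap_map))
    rw [Ideal.map_le_iff_le_comap]
    intro r hr
    obtain ⟨m, hm, h2⟩ :=
      (IsLocalization.algebraMap_mem_map_algebraMap_iff v.𝔮.primeCompl v.O _ _).1
        (Ideal.mem_comap.1 hr)
    have h3 := Ideal.mem_map_of_mem (algebraMap v'.R.R v'.O) h2
    rw [map_mul] at h3
    exact (Ideal.unit_mul_mem_iff_mem _ (hle m hm)).1 h3

theorem corea_ι (a : 𝒜.A v.i) : v.ι (v.toO (v.R.ξ a)) = 𝒜.e v.i a := by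
  rw [v.ι_toO]
  exact DFunLike.congr_fun v.gen.1 a

/-- elements of the stalk of `X` lie in the local ring -/
theorem mem_range_of_inLoc {ω : 𝒜.Ω}
    (h : InLoc (𝒜.e v.i) (RingHom.ker ((resA C.k v.O).comp (v.toO.comp v.R.ξ))) ω) :
    ∃ x, v.ι x = ω := by
  obtain ⟨a, s, hs, h⟩ := h
  have h2 : IsUnit (v.toO (v.R.ξ s)) := by
    by_contra h3
    exact hs (RingHom.mem_ker.2 ((resA_eq_zero (k := C.k) v.O _).2 h3))
  obtain ⟨u, hu⟩ := h2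
  have h3 : v.ι u = 𝒜.e v.i s := by rw [hu, v.corea_ι]
  have h4 : 𝒜.e v.i s ≠ 0 := h3 ▸ (u.isUnit.map v.ι).ne_zero
  refine ⟨v.toO (v.R.ξ a) * (u⁻¹ : v.Oˣ), mul_right_cancel₀ h4 ?_⟩
  rw [h, ← h3, ← map_mul, mul_assoc, Units.inv_mul, mul_one, v.corea_ι]

/-- The new chart of `X` and the transition over the local ring: `IsPt.small` and `cval`. -/
theorem exists_base (n₀ : Fin W.d)
    (hn : ∀ n, n ≠ n₀ → v.R.T n ∈ v.𝔮) (V : Subalgebra C.k (IsLocalRing.ResidueField v.O))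
    (hV : IsVal V) :
    ∃ (i' : 𝒜.ι) (ξ' : 𝒜.A i' →ₐ[C.k] v.O) (x₀ y₀ : GL C.I v.O), v.ι.comp ξ' = 𝒜.e i' ∧
      (∀ a, resA C.k v.O (ξ' a) ∈ V) ∧ C.E x₀ y₀ ∧ C.ma v.ι x₀ = 𝒜.x i' * (𝒜.x v.i)⁻¹ ∧
      C.ma v.ι y₀ = 𝒜.y i' * (𝒜.y v.i)⁻¹ ∧
      C.ma ξ' (𝒜.g i') = x₀ * C.ma (v.toO.comp v.R.ξ) (𝒜.g v.i) * y₀⁻¹ ∧
      ∀ H : Subalgebra C.k v.O, (∀ a, ξ' a ∈ H) →
        (∀ u : v.Oˣ, (u : v.O) ∈ H → ((u⁻¹ : v.Oˣ) : v.O) ∈ H) →
        (∀ a, v.toO (v.R.ξ a) ∈ H) ∧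
          ∀ t ∈ [x₀, x₀⁻¹, y₀, y₀⁻¹], ∀ a b, t.val a b ∈ H := by
  have hinj := v.ι_injective
  have hsm : C.Small C.p (C.ma ((resA C.k v.O).comp (v.toO.comp v.R.ξ)) (𝒜.g v.i)) :=
    (v.R.isPt_map ((resA C.k v.O).comp v.toO)).small n₀ fun n h => by
      rw [v.R.ent_pt]
      exact (resA_eq_zero (k := C.k) v.O _).2 fun h2 => (v.isUnit_toO _).1 h2 (hn n h)
  obtain ⟨i', 𝔭', hp, hloc, hmat, hval⟩ := 𝒜.cval v.i _ _ hsm V hV
  have h1p : (1 : 𝒜.A i') ∉ 𝔭' := (Ideal.ne_top_iff_one _).1 hp.ne_top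
  have hA : ∀ a, InLoc (𝒜.e v.i) (RingHom.ker ((resA C.k v.O).comp (v.toO.comp v.R.ξ)))
      (𝒜.e i' a) := fun a => (hloc _).2 ⟨a, 1, h1p, by rw [map_one, mul_one]⟩
  let ξ' : 𝒜.A i' →ₐ[C.k] v.O := (AlgEquiv.ofInjective v.ι hinj).symm.toAlgHom.comp
    ((𝒜.e i').codRestrict v.ι.range fun a => v.mem_range_of_inLoc (hA a))
  have hξ : ∀ a, v.ι (ξ' a) = 𝒜.e i' a := fun a =>
    congrArg Subtype.val ((AlgEquiv.ofInjective v.ι hinj).apply_symm_apply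
      ⟨𝒜.e i' a, v.mem_range_of_inLoc (hA a)⟩)
  have hx' : (𝒜.x i' * (𝒜.x v.i)⁻¹)⁻¹ = 𝒜.x v.i * (𝒜.x i')⁻¹ := by group
  have hy' : (𝒜.y i' * (𝒜.y v.i)⁻¹)⁻¹ = 𝒜.y v.i * (𝒜.y i')⁻¹ := by group
  obtain ⟨x₀, hx⟩ := C.exists_mp_eq (v.ι : v.O →+* 𝒜.Ω) hinj (𝒜.x i' * (𝒜.x v.i)⁻¹)
    (fun a b => v.mem_range_of_inLoc (hmat _ (by simp only [List.mem_cons, List.not_mem_nil, or_false, true_or]) a b))
    fun a b => by
      rw [hx']
      exact v.mem_range_of_inLoc (hmat _ (by simp only [List.mem_cons, List.not_mem_nil, or_false, true_or, or_true]) a b)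
  obtain ⟨y₀, hy⟩ := C.exists_mp_eq (v.ι : v.O →+* 𝒜.Ω) hinj (𝒜.y i' * (𝒜.y v.i)⁻¹)
    (fun a b => v.mem_range_of_inLoc (hmat _ (by simp only [List.mem_cons, List.not_mem_nil, or_false, true_or, or_true]) a b))
    fun a b => by
      rw [hy']
      exact v.mem_range_of_inLoc (hmat _ (by simp only [List.mem_cons, List.not_mem_nil, or_false, or_true]) a b)
  refine ⟨i', ξ', x₀, y₀, AlgHom.ext hξ, fun a' => ?_, ?_, hx, hy, ?_, fun H hH hu => ?_⟩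
  · obtain ⟨a, s, hs, h⟩ := hA a'
    have hs' : ((resA C.k v.O).comp (v.toO.comp v.R.ξ)) s ≠ 0 := fun h2 =>
      hs (RingHom.mem_ker.2 h2)
    have h2 : ξ' a' * v.toO (v.R.ξ s) = v.toO (v.R.ξ a) :=
      hinj (by rw [map_mul, hξ, v.corea_ι, v.corea_ι, h])
    have h3 : resA C.k v.O (ξ' a') = ((resA C.k v.O).comp (v.toO.comp v.R.ξ)) a /
        ((resA C.k v.O).comp (v.toO.comp v.R.ξ)) s := by
      rw [eq_div_iff hs']
      exact (map_mul _ _ _).symm.trans (congrArg (resA C.k v.O) h2)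
    rw [h3]
    exact hval a' a s hs' h
  · refine E.of_map (v.ι : v.O →+* 𝒜.Ω) hinj ?_
    rw [hx, hy]
    exact E.mul (𝒜.xy i') (E.inv (𝒜.xy v.i))
  · refine C.mp_injective (v.ι : v.O →+* 𝒜.Ω) hinj ?_
    have h2 : C.mp (v.ι : v.O →+* 𝒜.Ω) (C.ma ξ' (𝒜.g i')) = C.ma (𝒜.e i') (𝒜.g i') :=
      C.gl_ext fun a b => hξ _
    have h3 : C.mp (v.ι : v.O →+* 𝒜.Ω) (C.ma (v.toO.comp v.R.ξ) (𝒜.g v.i)) =
        C.ma (𝒜.e v.i) (𝒜.g v.i) := C.gl_ext fun a b => v.corea_ι _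
    rw [map_mul, map_mul, map_inv, h2, h3, hx, hy, 𝒜.triv, 𝒜.triv]
    group
  · have key : ∀ z : v.O, InLoc (𝒜.e v.i)
        (RingHom.ker ((resA C.k v.O).comp (v.toO.comp v.R.ξ))) (v.ι z) → z ∈ H := by
      intro z hz
      obtain ⟨a, s, hs, h⟩ := (hloc _).1 hz
      have h2 : 𝒜.e i' s ≠ 0 := fun h3 =>
        hs ((𝒜.inj i' (h3.trans (map_zero _).symm)) ▸ zero_mem _)
      obtain ⟨w, hw⟩ := v.mem_range_of_inLoc ((hloc (𝒜.e i' s)⁻¹).2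
        ⟨1, s, hs, by rw [inv_mul_cancel₀ h2, map_one]⟩)
      have h3 : ξ' s * w = 1 := hinj (by rw [map_mul, hξ, hw, mul_inv_cancel₀ h2, map_one])
      have h4 : z * ξ' s = ξ' a := hinj (by rw [map_mul, hξ, hξ, h])
      have h5 : w ∈ H := hu (Units.mkOfMulEqOne _ _ h3) (hH s)
      have h6 : z = ξ' a * w := by rw [← h4, mul_assoc, h3, mul_one]
      rw [h6]
      exact mul_mem (hH a) h5
    refine ⟨fun a => key _ ⟨a, 1, ?_, by rw [map_one, mul_one, v.corea_ι]⟩, fun t ht a b => key _ ?_⟩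
    · rw [RingHom.mem_ker, map_one]
      exact one_ne_zero
    · have h2 : v.ι (t.val a b) = (C.mp (v.ι : v.O →+* 𝒜.Ω) t).val a b := rfl
      rw [h2]
      refine hmat _ ?_ a b
      simp only [List.mem_cons, List.not_mem_nil, or_false] at ht ⊢
      rcases ht with rfl | rfl | rfl | rfl
      · exact Or.inl hx
      · exact Or.inr (Or.inl (by rw [map_inv, hx, hx']))
      · exact Or.inr (Or.inr (Or.inl hy))
      · exact Or.inr (Or.inr (Or.inr (by rw [map_inv, hy, hy'])))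

theorem coreb_sub {k R O : Type} [Field k] [CommRing R] [CommRing O] [Algebra k R] [Algebra k O]
    (τ : R →ₐ[k] O) : ∃ H : Subalgebra k O, ∀ x, x ∈ H ↔ ∃ r s, IsUnit (τ s) ∧ x * τ s = τ r :=
  ⟨{ carrier := {x | ∃ r s, IsUnit (τ s) ∧ x * τ s = τ r}
     mul_mem' := by
       rintro x y ⟨r, s, h1, h2⟩ ⟨r', s', h3, h4⟩
       refine ⟨r * r', s * s', by rw [map_mul]; exact h1.mul h3, ?_⟩
       rw [map_mul, map_mul, ← h2, ← h4]
       ring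
     add_mem' := by
       rintro x y ⟨r, s, h1, h2⟩ ⟨r', s', h3, h4⟩
       refine ⟨r * s' + r' * s, s * s', by rw [map_mul]; exact h1.mul h3, ?_⟩
       rw [map_add, map_mul, map_mul, map_mul, ← h2, ← h4]
       ring
     algebraMap_mem' := fun c => ⟨algebraMap k R c, 1, by simp, by simp⟩ }, fun _ => Iff.rfl⟩

/-- Compatibility of charts.  Let `H` be the subalgebra of quotients `τ r / τ s` with `τ s` a
unit; the inclusion of `H` is a local homomorphism.  Descend `x₀, y₀` to `H`, move the chart point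
of `c'` over `H` back with `(x₀⁻¹, y₀⁻¹)` and apply `ChR.open_hom` for the chart `v.c`: the map
`toO` factors through `H`. -/
theorem loc_of_chart {i' : 𝒜.ι} {c' : W.Ch} (τ : (𝒜.R W i' c').R →ₐ[C.k] v.O)
    {x₀ y₀ : GL C.I v.O} (he : C.E x₀ y₀)
    (hg : C.ma (τ.comp (𝒜.R W i' c').ξ) (𝒜.g i') =
      x₀ * C.ma (v.toO.comp v.R.ξ) (𝒜.g v.i) * y₀⁻¹)
    (hq : W.Eqv ((v.R.pt.map v.toO).act x₀ y₀) ((𝒜.R W i' c').pt.map τ))
    (hH : ∀ H : Subalgebra C.k v.O, (∀ a, τ ((𝒜.R W i' c').ξ a) ∈ H) →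
      (∀ u : v.Oˣ, (u : v.O) ∈ H → ((u⁻¹ : v.Oˣ) : v.O) ∈ H) →
      (∀ a, v.toO (v.R.ξ a) ∈ H) ∧ ∀ t ∈ [x₀, x₀⁻¹, y₀, y₀⁻¹], ∀ a b, t.val a b ∈ H)
    (x : v.O) : ∃ r s, IsUnit (τ s) ∧ x * τ s = τ r := by
  obtain ⟨H, hmem⟩ := coreb_sub τ
  have hτ : ∀ r, τ r ∈ H := fun r => (hmem _).2 ⟨r, 1, by simp only [map_one, isUnit_one], by simp⟩
  have hu : ∀ u : v.Oˣ, (u : v.O) ∈ H → ((u⁻¹ : v.Oˣ) : v.O) ∈ H := fun u h => by
    obtain ⟨r, s, h1, h2⟩ := (hmem _).1 h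
    refine (hmem _).2 ⟨s, r, h2 ▸ u.isUnit.mul h1, ?_⟩
    rw [← h2, Units.inv_mul_cancel_left]
  have hloc : IsLocalHom (H.val : H →+* v.O) := ⟨fun a ha => by
    obtain ⟨u, hu'⟩ := ha
    have h1 : (u : v.O) = a.1 := hu'
    refine IsUnit.of_mul_eq_one ⟨_, hu u (h1 ▸ a.2)⟩ (Subtype.ext ?_)
    change a.1 * ((u⁻¹ : v.Oˣ) : v.O) = 1
    rw [← h1, Units.mul_inv]⟩
  obtain ⟨h1, h2⟩ := hH H (fun a => hτ _) hu
  have hinj : Function.Injective (H.val : H →+* v.O) := Subtype.val_injective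
  obtain ⟨x₁, hx₁⟩ := C.exists_mp_eq (H.val : H →+* v.O) hinj x₀
    (fun a b => ⟨⟨_, h2 x₀ (by simp) a b⟩, rfl⟩) fun a b => ⟨⟨_, h2 x₀⁻¹ (by simp) a b⟩, rfl⟩
  obtain ⟨y₁, hy₁⟩ := C.exists_mp_eq (H.val : H →+* v.O) hinj y₀
    (fun a b => ⟨⟨_, h2 y₀ (by simp) a b⟩, rfl⟩) fun a b => ⟨⟨_, h2 y₀⁻¹ (by simp) a b⟩, rfl⟩
  have he₁ : C.E x₁ y₁ := E.of_map _ hinj (by rw [hx₁, hy₁]; exact he)
  have hω := ((𝒜.R W i' c').isPt_map (τ.codRestrict H hτ)).act (E.inv he₁)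
  have hg₁ : x₁⁻¹ * C.ma ((τ.codRestrict H hτ).comp (𝒜.R W i' c').ξ) (𝒜.g i') * y₁⁻¹⁻¹ =
      C.ma ((v.toO.comp v.R.ξ).codRestrict H h1) (𝒜.g v.i) := by
    apply C.mp_injective _ hinj
    rw [map_mul, map_mul, inv_inv, map_inv, hx₁, hy₁]
    change x₀⁻¹ * C.ma (τ.comp (𝒜.R W i' c').ξ) (𝒜.g i') * y₀ = C.ma (v.toO.comp v.R.ξ) (𝒜.g v.i)
    rw [hg]
    group
  rw [hg₁] at hω
  have hq₁ : W.Eqv (((((𝒜.R W i' c').pt.map (τ.codRestrict H hτ)).act x₁⁻¹ y₁⁻¹)).map H.val)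
      (v.R.pt.map v.toO) := by
    have h3 := (hq.act x₀⁻¹ y₀⁻¹).symm
    rw [Pt.act_act, inv_mul_cancel, inv_mul_cancel, Pt.act_one] at h3
    rw [Pt.map_act, map_inv, map_inv, hx₁, hy₁]
    exact h3
  obtain ⟨ρ, -, -, hρ⟩ := v.R.open_hom H.val hloc _ hω v.toO rfl hq₁
  have h3 : ∀ r, v.toO r ∈ H := fun r => by
    rw [← hρ]
    exact (ρ r).2
  obtain ⟨⟨r, s⟩, hrs⟩ := IsLocalization.surj v.𝔮.primeCompl x
  obtain ⟨u, hu'⟩ := (v.isUnit_toO s).2 s.2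
  have h4 : x = v.toO r * ((u⁻¹ : v.Oˣ) : v.O) := by
    rw [Units.eq_mul_inv_iff_mul_eq, hu']
    exact hrs
  rw [← hmem, h4]
  exact mul_mem (h3 r) (hu u (hu' ▸ h3 s))

theorem corec_zpow {S F : Type} [CommRing S] [Field F] (f : S →+* F) (u : Sˣ) (z : ℤ) :
    f ((u ^ z : Sˣ) : S) = f (u : S) ^ z := by
  have h := congrArg Units.val (map_zpow (Units.map (f : S →* F)) u z)
  rw [Units.val_zpow_eq_zpow_val] at h
  exact h

theorem corec_chain {F : Type} {d : ℕ} (n₀ : Fin d) (f : ℕ → F)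
    (h : ∀ n : Fin d, n ≠ n₀ → f n = f (n + 1)) :
    (∀ n, n ≤ n₀.val → f n = f 0) ∧ ∀ n, n₀.val < n → n ≤ d → f n = f d := by
  constructor
  · intro n
    induction n with
    | zero => exact fun _ => rfl
    | succ n ih =>
      intro hn
      have h1 : n < d := by have := n₀.isLt; omega
      rw [← h ⟨n, h1⟩ fun e => by have := congrArg Fin.val e; simp only at this; omega]
      exact ih (by omega)
  · intro n h1 h2
    refine down_ind (Φ := fun n => n₀.val < n → f n = f d) (fun _ => rfl) (fun m ih hm => ?_) h2 h1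
    rw [h m fun e => by rw [e] at hm; exact lt_irrefl _ hm]
    exact ih (by omega)

/-- the torus parts of a chain of coordinate changes -/
theorem corec_torus {S F : Type} [CommRing S] [Field F] (f : S →+* F) {ε ε' : Fin W.d → Bool}
    {t t' : Fin W.d → S} {β : ℕ → GL C.I S} (hβ : ∀ n ≤ W.d, β n ∈ C.B S)
    (h : ∀ n : Fin W.d, C.X (W.s n) (ε n) (t n) * β (n + 1) = β n * C.X (W.s n) (ε' n) (t' n))
    (n₀ : Fin W.d) (h0 : ∀ n, n ≠ n₀ → f (Tv (ε n) (t n)) = 0) :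
    ∃ u : Fin W.d → Sˣ, (∀ n, Tv (ε' n) (t' n) = u n * Tv (ε n) (t n)) ∧
      (∀ n, n₀ < n → f (u n) * f ((β W.d).val (W.s n).i (W.s n).i) =
        f ((β W.d).val (W.s n).j (W.s n).j)) ∧
      (∀ n, n < n₀ → f (u n) * f ((β 0).val (W.s n).i (W.s n).i) =
        f ((β 0).val (W.s n).j (W.s n).j)) ∧
      ∀ a, f ((β 0).val a a) * f (u n₀) ^ C.cv (W.s n₀).i (W.s n₀).j a =
        f ((β W.d).val (C.sw (W.s n₀).i (W.s n₀).j a) (C.sw (W.s n₀).i (W.s n₀).j a)) := by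
  have b1 : ∀ n : Fin W.d, β (n + 1) ∈ C.B S := fun n => hβ _ n.isLt
  have b2 : ∀ n : Fin W.d, β n ∈ C.B S := fun n => hβ _ n.isLt.le
  choose u h1 h2 h3 using fun n => exch_torus (b1 n) (b2 n) (h n)
  have hc := fun a => corec_chain n₀ (fun n => f ((β n).val a a)) fun n hn =>
    exch_zero (b1 n) (b2 n) (h n) f (h0 n hn) a
  refine ⟨u, h1, fun n hn => ?_, fun n hn => ?_, fun a => ?_⟩
  · have hn' : n₀.val < n.val := hn
    rw [← (hc _).2 n hn' n.isLt.le, ← (hc _).2 (n + 1) (by omega) n.isLt, ← map_mul, h2]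
  · have hn' : n.val < n₀.val := hn
    rw [← (hc _).1 n hn'.le, ← (hc _).1 (n + 1) hn', ← map_mul, h2]
  · rw [← (hc _).1 n₀ le_rfl, ← (hc _).2 (n₀ + 1) (by omega) n₀.isLt, ← corec_zpow, ← map_mul, h3]

/-- the transformation rules, from `Wd.transf`, `exch_torus`, `exch_zero` -/
theorem transf (hφ : Reg G ν φ) (n₀ : Fin W.d)
    (hn : ∀ n, n ≠ n₀ → v.R.T n ∈ v.𝔮) (v' : VP G) (ρ : v'.O →ₐ[C.k] v.O)
    (hρ : v.ι.comp ρ = v'.ι) {x₀ y₀ : GL C.I v.O} (he : C.E x₀ y₀)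
    (hx : C.ma v.ι x₀ = 𝒜.x v'.i * (𝒜.x v.i)⁻¹)
    (hg : C.ma ((ρ.comp v'.toO).comp v'.R.ξ) (𝒜.g v'.i) =
      x₀ * C.ma (v.toO.comp v.R.ξ) (𝒜.g v.i) * y₀⁻¹)
    (hq : W.Eqv ((v.R.pt.map v.toO).act x₀ y₀) (v'.R.pt.map (ρ.comp v'.toO))) :
    W.Transf ν n₀ (v.lp ν φ) (v'.lp ν φ) ρ := by
  have hιρ : v.ι.comp (ρ.comp v'.toO) = v'.j := by rw [← AlgHom.comp_assoc, hρ, v'.ι_comp]
  have e1 : v.R.pt.map v.toO = v.c.pt (C.ma v.toO v.R.u) fun n => v.toO (v.R.t n) :=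
    Wd.Ch.pt_map _ _ _ _
  have e2 : v'.R.pt.map (ρ.comp v'.toO) =
      v'.c.pt (C.ma (ρ.comp v'.toO) v'.R.u) fun n => (ρ.comp v'.toO) (v'.R.t n) :=
    Wd.Ch.pt_map _ _ _ _
  have hq' := hq
  rw [e1, e2] at hq'
  obtain ⟨β, hx₁, hβ, hX, hd, hb⟩ := Wd.transf
    (g := C.ma (v.toO.comp v.R.ξ) (𝒜.g v.i)) (v.c.frame_mem (v.R.chart.1.map _))
    (v'.c.frame_mem (v'.R.chart.1.map _)) he hq'
  have a1 : C.pm v.O v.c.π * C.ma v.toO v.R.u = C.ma v.toO v.R.pt.x := (congrArg Pt.x e1).symm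
  have a2 : C.pm v.O v'.c.π * C.ma (ρ.comp v'.toO) v'.R.u = C.ma (ρ.comp v'.toO) v'.R.pt.x :=
    (congrArg Pt.x e2).symm
  have hb' : C.ma (ρ.comp v'.toO) v'.bR = (C.pm v.O v'.c.π * C.ma (ρ.comp v'.toO) v'.R.u)⁻¹ * x₀ *
      (C.pm v.O v.c.π * C.ma v.toO v.R.u) * C.ma v.toO v.bR * β 0 := by
    rw [bR, bR, ← Wd.bOf_map, ← Wd.bOf_map, e1, e2]
    exact (congrArg (Wd.bOf · _) hg).trans hb
  rw [a1, a2] at hx₁ hd hb'
  obtain ⟨x₁, hx₁'⟩ : ∃ x₁, x₁ = (C.ma (ρ.comp v'.toO) v'.R.pt.x)⁻¹ * x₀ * C.ma v.toO v.R.pt.x :=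
    ⟨_, rfl⟩
  rw [← hx₁'] at hx₁ hd hb'
  have t1 : ∀ n, v.toO (v.R.T n) = Tv (v.c.ε n) (v.toO (v.R.t n)) := fun n =>
    Tv_map (v.toO : v.R.R →+* v.O) _ _
  have t2 : ∀ n, (ρ.comp v'.toO) (v'.R.T n) = Tv (v'.c.ε n) ((ρ.comp v'.toO) (v'.R.t n)) :=
    fun n => Tv_map ((ρ.comp v'.toO : v'.R.R →ₐ[C.k] v.O) : v'.R.R →+* v.O) _ _
  obtain ⟨u, u1, u2, u3, u4⟩ := corec_torus (resA C.k v.O : v.O →+* IsLocalRing.ResidueField v.O)
    hβ hX n₀ fun n hn' => (resA_eq_zero (k := C.k) v.O _).2 fun hu => by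
      rw [← t1] at hu
      exact (v.isUnit_toO _).1 hu (hn n hn')
  have ne : ∀ {x : GL C.I v.O}, x ∈ C.B v.O → ∀ a, resA C.k v.O (x.val a a) ≠ 0 :=
    fun hx a h => (resA_eq_zero (k := C.k) v.O _).1 h (B.diag_unit hx a)
  have hb1 : v.b1 = v'.b1 * C.ma v.ι x₁ := by
    have c1 : C.ma v.ι (C.ma v.toO v.R.pt.x) = C.ma v.j v.R.pt.x :=
      congrArg (fun f => C.ma f v.R.pt.x) v.ι_comp
    have c2 : C.ma v.ι (C.ma (ρ.comp v'.toO) v'.R.pt.x) = C.ma v'.j v'.R.pt.x :=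
      congrArg (fun f => C.ma f v'.R.pt.x) hιρ
    rw [hx₁', map_mul, map_mul, map_inv, c1, c2, hx, b1, b1]
    simp only [gp, Pt.act]
    group
  refine ⟨fun a => resA C.k v.O (x₁.val a a), fun a => resA C.k v.O ((β 0).val a a),
    fun a => resA C.k v.O ((β W.d).val a a), u, (chi_unit ν hx₁).unit, ne hx₁,
    ne (hβ 0 (Nat.zero_le _)), ne (hβ _ le_rfl), fun n => ?_, ?_, ?_, u2, u3, u4, fun a => ?_,
    fun a => ?_⟩
  · have h2 := u1 n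
    rw [← t1, ← t2] at h2
    exact h2
  · refine v.ι_injective ?_
    have h2 := (v'.φR_spec hφ).trans (v.φR_spec hφ).symm
    rw [hb1, chi_mul ν v'.b1_mem (Pat.map _ hx₁), chi_mp, ← mul_assoc, mul_right_comm] at h2
    have h3 := (chi_unit ν v'.b1_mem).mul_right_cancel h2
    have h4 : v.ι (ρ (v'.toO (v'.φR ν φ))) = v'.j (v'.φR ν φ) := DFunLike.congr_fun hιρ _
    change v.ι (ρ (v'.toO (v'.φR ν φ))) = v.ι (C.chi ν x₁ * v.toO (v.φR ν φ))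
    rw [h4, h3, map_mul, v.ι_toO, mul_comm]
    rfl
  · have h2 := chi_mp ν (resA C.k v.O : v.O →+* IsLocalRing.ResidueField v.O) x₁
    rw [chi_field ν (Pat.map _ hx₁)] at h2
    exact h2.symm
  · have h2 := congrArg (resA C.k v.O) (hd a)
    rwa [map_mul, map_pow, map_one] at h2
  · have h2 : C.ma v.toO v.bR ∈ C.B v.O := Pat.map _ v.R.isPt.first
    have h3 := congrArg (fun x : GL C.I v.O => resA C.k v.O (x.val a a)) hb'
    simp only [B.mul_diag (mul_mem hx₁ h2) (hβ 0 (Nat.zero_le _)), B.mul_diag hx₁ h2,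
      map_mul] at h3
    exact h3

theorem coreb_chart {i' : 𝒜.ι} (ξ' : 𝒜.A i' →ₐ[C.k] v.O) {ω : C.Pt v.O}
    (hω : W.IsPt (C.ma ξ' (𝒜.g i')) ω) {V : Subalgebra C.k (IsLocalRing.ResidueField v.O)}
    (hV : IsVal V) (hξ : ∀ a, resA C.k v.O (ξ' a) ∈ V) :
    ∃ (c' : W.Ch) (τ : (𝒜.R W i' c').R →ₐ[C.k] v.O) (σ : (𝒜.R W i' c').R →ₐ[C.k] V),
      τ.comp (𝒜.R W i' c').ξ = ξ' ∧ W.Eqv ω ((𝒜.R W i' c').pt.map τ) ∧
        (resA C.k v.O).comp τ = V.val.comp σ := by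
  obtain ⟨c', u, t, h1, h2⟩ := Wd.IsPt.exists_chart_isVal hV
    (g := C.ma (((resA C.k v.O).comp ξ').codRestrict V hξ) (𝒜.g i')) (Pat.map _ (𝒜.g_mem i'))
    (ω := ω.map (resA C.k v.O)) (hω.map (resA C.k v.O))
  obtain ⟨σ, h3, h4, h5⟩ := (𝒜.R W i' c').lift V _ u t h1
  have h6 : (𝒜.R W i' c').pt.map σ = c'.pt u t := by
    rw [Wd.ChR.pt, Wd.Ch.pt_map, h4, funext h5]
  rw [← h6, Pt.map_map] at h2
  obtain ⟨τ, h7⟩ := (𝒜.R W i' c').open_hom (resA C.k v.O) (resA_local v.O) ξ' hω (V.val.comp σ)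
    (by rw [AlgHom.comp_assoc, h3]; rfl) h2
  exact ⟨c', τ, σ, h7⟩

theorem coreb_prop (n₀ : Fin W.d)
    (hn : ∀ n, n ≠ n₀ → v.R.T n ∈ v.𝔮) (V : Subalgebra C.k (IsLocalRing.ResidueField v.O))
    (hV : IsVal V) :
    ∃ (v' : VP G) (ρ : v'.O →ₐ[C.k] v.O) (x₀ y₀ : GL C.I v.O),
      IsLoc (ρ : v'.O →+* v.O) ∧ (∀ x, resA C.k v.O (ρ x) ∈ V) ∧ v.ι.comp ρ = v'.ι ∧
      C.E x₀ y₀ ∧ C.ma v.ι x₀ = 𝒜.x v'.i * (𝒜.x v.i)⁻¹ ∧
      C.ma ((ρ.comp v'.toO).comp v'.R.ξ) (𝒜.g v'.i) =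
        x₀ * C.ma (v.toO.comp v.R.ξ) (𝒜.g v.i) * y₀⁻¹ ∧
      W.Eqv ((v.R.pt.map v.toO).act x₀ y₀) (v'.R.pt.map (ρ.comp v'.toO)) := by
  obtain ⟨i', ξ', x₀, y₀, b1, b2, he, b4, b5, b6, b7⟩ := v.exists_base n₀ hn V hV
  have hω := (v.R.isPt_map v.toO).act he
  rw [← b6] at hω
  obtain ⟨c', τ, σ, c1, c2, c3⟩ := v.coreb_chart ξ' hω hV b2
  have c4 : ∀ r, resA C.k v.O (τ r) = (σ r).1 := fun r => DFunLike.congr_fun c3 r
  have hinj := v.ι_injective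
  have hgen : Gen G i' c' (v.ι.comp τ) := by
    refine ⟨by rw [AlgHom.comp_assoc, c1, b1], ?_⟩
    have d1 := c2.map v.ι
    rw [Pt.map_act, Pt.map_map, Pt.map_map, v.ι_comp, b4, b5] at d1
    have d2 := v.gen.2.act (𝒜.x i' * (𝒜.x v.i)⁻¹) (𝒜.y i' * (𝒜.y v.i)⁻¹)
    rw [gp, Pt.act_act, inv_mul_cancel_right, inv_mul_cancel_right] at d2
    exact d2.trans d1
  have := hV.isLocalRing
  have hker : ∀ r, v.ι.comp τ r = 0 → r ∈ (IsLocalRing.maximalIdeal V).comap σ := fun r hr => by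
    have d1 : τ r = 0 := hinj (by rw [map_zero]; exact hr)
    have d2 : σ r = 0 := Subtype.ext (by rw [← c4, d1, map_zero]; rfl)
    rw [Ideal.mem_comap, d2]
    exact zero_mem _
  let v' : VP G := ⟨i', c', v.ι.comp τ, hgen, (IsLocalRing.maximalIdeal V).comap σ, hker⟩
  have hσ : ∀ s : v'.𝔮.primeCompl, IsUnit (σ s) := fun s => by
    by_contra h
    exact s.2 h
  have hτ : ∀ s : v'.𝔮.primeCompl, IsUnit (τ s) := fun s => by
    by_contra h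
    have d1 := (resA_eq_zero (k := C.k) v.O _).2 h
    rw [c4] at d1
    exact ((isUnit_subalgebra _).1 (hσ s)).1 d1
  let ρ : v'.O →ₐ[C.k] v.O := IsLocalization.liftAlgHom (M := v'.𝔮.primeCompl) (f := τ) hτ
  have hρ : ∀ r, ρ (v'.toO r) = τ r := fun r => by
    simp only [ρ, toO_apply, IsLocalization.coe_liftAlgHom, AlgHom.toRingHom_eq_coe, IsLocalization.lift_eq, RingHom.coe_coe]
  have hρ' : ρ.comp v'.toO = τ := AlgHom.ext hρ
  have hι : v.ι.comp ρ = v'.ι := by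
    refine IsLocalization.algHom_ext v'.𝔮.primeCompl (AlgHom.ext fun r => ?_)
    change v.ι (ρ (v'.toO r)) = v'.ι (v'.toO r)
    rw [hρ, v'.ι_toO]
    rfl
  refine ⟨v', ρ, x₀, y₀, ⟨fun a b hab => v'.ι_injective ?_, fun x => ?_⟩, fun x => ?_, hι,
    he, b4, ?_, ?_⟩
  · rw [← hι]
    exact congrArg v.ι hab
  · obtain ⟨r, s, d1, d2⟩ := v.loc_of_chart τ he (by rw [c1]; exact b6) c2
      (fun H d3 => b7 H fun a => by rw [← c1]; exact d3 a) x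
    refine ⟨v'.toO r, v'.toO s, ?_, ?_⟩
    · change IsUnit (ρ (v'.toO s))
      rwa [hρ]
    · change x * ρ (v'.toO s) = ρ (v'.toO r)
      rwa [hρ, hρ]
  · obtain ⟨⟨r, s⟩, hrs⟩ := IsLocalization.surj v'.𝔮.primeCompl x
    have d1 : x * v'.toO s = v'.toO r := hrs
    have d2 := congrArg (fun z => resA C.k v.O (ρ z)) d1
    simp only [map_mul, hρ, c4] at d2
    obtain ⟨d3, d4⟩ := (isUnit_subalgebra _).1 (hσ s)
    rw [(eq_mul_inv_iff_mul_eq₀ d3).2 d2]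
    exact mul_mem (σ r).2 d4
  · rw [hρ']
    change C.ma (τ.comp (𝒜.R W i' c').ξ) (𝒜.g i') = _
    rw [c1, b6]
  · rw [hρ']
    exact c2

/-- Properness of the curves.  After `exists_base` choose a chart over the residue field with
coordinates in `V` (`IsPt.exists_chart_isVal`), lift it to `τ : R' → v.O` (`ChR.open_hom`), let
`𝔮'` be the preimage of the maximal ideal of `V`. -/
theorem prop (hφ : Reg G ν φ) (n₀ : Fin W.d)
    (hm : IsLocalRing.maximalIdeal (v.lp ν φ).O = (v.lp ν φ).IS (Finset.univ.erase n₀))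
    (V : Subalgebra C.k (v.lp ν φ).κ) (hV : IsVal V) :
    ∃ (v' : VP G) (ρ : (v'.lp ν φ).O →ₐ[C.k] (v.lp ν φ).O),
      IsLoc (ρ : (v'.lp ν φ).O →+* (v.lp ν φ).O) ∧ (∀ x, (v.lp ν φ).r (ρ x) ∈ V) ∧
      W.Transf ν n₀ (v.lp ν φ) (v'.lp ν φ) ρ := by
  have hn : ∀ n, n ≠ n₀ → v.R.T n ∈ v.𝔮 := fun n hn => by
    have h2 : (v.lp ν φ).T n ∈ IsLocalRing.maximalIdeal (v.lp ν φ).O := by
      rw [hm]
      exact Ideal.subset_span ⟨n, by simpa only [Finset.coe_erase, Finset.coe_univ, Set.mem_sdiff, Set.mem_univ, Set.mem_singleton_iff, true_and, ne_eq] using hn, rfl⟩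
    by_contra h3
    exact h2 ((v.isUnit_toO _).2 h3)
  obtain ⟨v', ρ, x₀, y₀, a1, a2, a3, a4, a5, a6, a7⟩ := v.coreb_prop n₀ hn V hV
  exact ⟨v', ρ, a1, a2, v.transf hφ n₀ hn v' ρ a3 a4 a5 a6 a7⟩

/-- the order of `φ` along the last divisor -/
theorem le_ex (h0 : (v.lp ν φ).φ ≠ 0) (hφ : Reg G ν φ) {β : C.Sp} {l : Fin W.d} (hW : W.Last β l)
    {N : ℤ} (hN : RegN G ν φ l N) (hm : ∀ n, ¬ IsUnit ((v.lp ν φ).T n)) :
    N ≤ (v.lp ν φ).ex [] l := by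
  have hsnc := v.snc (ν := ν) (φ := φ)
  have hnc : NC (v.lp ν φ).T Finset.univ := hsnc.nc fun n _ => hm n
  obtain ⟨a, ψ, hl⟩ := exists_lex hnc (σ := [l]) (S := ∅) (by simp) (by simp)
    (Finset.subset_univ _) (LP.bala_not_mem_empty _ h0)
  rw [LP.ex_eq hsnc (List.nodup_singleton l) (fun n _ => hm n) hl (σ₁ := []) (σ₂ := []) rfl]
  obtain ⟨𝔭, h𝔭⟩ : ∃ 𝔭 : Ideal v.O, 𝔭 = (v.lp ν φ).IS {l} := ⟨_, rfl⟩
  obtain ⟨φ', h2, h3⟩ : ∃ φ' : v.O, φ' ∉ 𝔭 ∧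
      v.toO (v.φR ν φ) = v.toO (v.R.T l) ^ a l * φ' := by
    obtain ⟨φ', h1, h2, -⟩ := hl
    have : IdS (v.lp ν φ).T ∅ = ⊥ := by simp only [IdS, Finset.coe_empty, Set.image_empty, Submodule.span_empty]
    rw [this, Ideal.mem_bot, sub_eq_zero] at h1
    exact ⟨φ', h𝔭 ▸ h2, h1⟩
  obtain ⟨hp, hp'⟩ : 𝔭.IsPrime ∧ ∀ n ∉ ({l} : Finset (Fin W.d)), v.toO (v.R.T n) ∉ 𝔭 :=
    h𝔭 ▸ hsnc {l} fun n _ => hm n
  rw [v.corea_IS] at h𝔭
  obtain ⟨V, ρ, hV, hρ, hu⟩ := exists_isVal_center v.ι 𝔭 fun r hr => by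
    rw [v.ι_injective (hr.trans (map_zero _).symm)]
    exact zero_mem _
  have hj : V.val.comp (ρ.comp v.toO) = v.j := by rw [← AlgHom.comp_assoc, hρ, v.ι_comp]
  have hop : W.Op (v.R.pt.map (ρ.comp v.toO)) := fun n hn => by
    rw [v.R.ent_pt]
    exact (hu _).2 (hp' n (by simpa using hW.lt.1 hn))
  have hT : ¬ IsUnit (ρ (v.toO (v.R.T l))) := fun h =>
    (hu _).1 h (h𝔭 ▸ Ideal.mem_map_of_mem _ (Ideal.subset_span ⟨l, by simp, rfl⟩))
  have hset : ({n | W.m ≤ n.val} : Set (Fin W.d)) = (({l} : Finset (Fin W.d)) : Set (Fin W.d)) := by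
    ext n
    rw [Set.mem_ofPred_eq, ← not_lt, hW.lt, not_not, Finset.coe_singleton, Set.mem_singleton_iff]
  have h4 := hN V hV v.i ((ρ.comp v.toO).comp v.R.ξ) (v.R.pt.map (ρ.comp v.toO))
    (by rw [← AlgHom.comp_assoc, hj, v.gen.1]) (fun a ha => (hu _).2 fun h => ?_)
    (v.R.isPt_map _) (by rw [Pt.map_map, hj]; exact v.gen.2) hop (by rwa [v.R.ent_pt])
    (v.j (v.φR ν φ)) (by
      have h5 : C.ma V.val (v.R.pt.map (ρ.comp v.toO)).x = C.ma v.j v.R.pt.x :=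
        congrArg (fun f => C.ma f v.R.pt.x) hj
      rw [h5]
      exact v.φR_spec hφ)
  · rw [v.R.ent_pt, ← hj, AlgHom.comp_apply, AlgHom.comp_apply, h3, map_mul, map_pow,
      AlgHom.comp_apply] at h4
    obtain ⟨w, hw⟩ := ((hu φ').2 h2).exists_right_inv
    obtain ⟨t, ht⟩ : ∃ t, t = ρ (v.toO (v.R.T l)) := ⟨_, rfl⟩
    rw [← ht] at h4 hT
    have ht0 : (t : 𝒜.Ω) ≠ 0 := fun h => (hsnc ∅ (by simp)).2 l (by simp) (by
      have h5 : v.toO (v.R.T l) = 0 := v.ι_injective (by rw [← hρ, map_zero, ← h, ht]; rfl)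
      have h6 : (v.lp ν φ).T l = 0 := h5
      rw [h6]
      exact zero_mem _)
    by_contra hlt
    obtain ⟨e, he⟩ : ∃ e : ℕ, N = a l + e + 1 := ⟨(N - a l - 1).toNat, by omega⟩
    refine hT ((isUnit_subalgebra t).2 ⟨ht0, ?_⟩)
    have h5 := mul_mem (mul_mem h4 w.2) (pow_mem t.2 e)
    convert h5 using 1
    have h6 : ((ρ φ' : V) : 𝒜.Ω) * w = 1 := congrArg Subtype.val hw
    rw [he, neg_add, neg_add, zpow_add₀ ht0, zpow_add₀ ht0, _root_.zpow_neg, _root_.zpow_neg,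
      _root_.zpow_neg, zpow_natCast, zpow_natCast, zpow_one]
    change _ = (t : 𝒜.Ω) ^ a l * (ρ φ' : V) * _ * _ * _
    field_simp
    exact h6.symm
  · rw [h𝔭] at h
    obtain ⟨s, hs, h5⟩ :=
      (IsLocalization.algebraMap_mem_map_algebraMap_iff v.𝔮.primeCompl v.O _ _).1 h
    rw [← hset] at h5
    have := (𝒜.inj v.i).isDomain (𝒜.e v.i : 𝒜.A v.i →+* 𝒜.Ω)
    have hε : ∀ n : Fin W.d, W.m ≤ n.val → v.c.ε n = false := fun n _ => by
      by_contra h6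
      refine hm n ?_
      change IsUnit (v.toO (Tv (v.c.ε n) _))
      rw [Tv, if_pos (by simpa using h6), map_one]
      exact isUnit_one
    obtain ⟨n, h6⟩ := v.R.dom (𝒜.g_mem v.i) hε ha h5
    have h7 := Ideal.mem_map_of_mem (algebraMap v.R.R v.O) h6
    rw [hset, ← h𝔭, map_mul, map_pow] at h7
    have h8 := (v.R.op_iff _).1 hop
    exact (hu _).1 (by
      rw [map_mul, map_pow]
      exact (h8.pow n).mul (((v.isUnit_toO s).2 hs).map ρ)) h7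

end VP

theorem tower {ν : C.I → ℤ} {φ : 𝒜.Ω} (h0 : φ ≠ 0)
    (hφ : Reg G ν φ) : W.Tower ν (Set.range fun v : VP G => v.lp ν φ) where
  snc := by
    rintro _ ⟨v, rfl⟩
    exact v.snc
  φ_ne := by
    rintro _ ⟨v, rfl⟩ h
    have h2 := v.φR_spec hφ
    have h3 : v.toO (v.φR ν φ) = 0 := h
    rw [← v.ι_toO, h3, map_zero, zero_mul] at h2
    exact h0 h2.symm
  b_unit := by
    rintro _ ⟨v, rfl⟩ a
    exact (B.diag_unit v.R.isPt.first a).map v.toO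
  gen := by
    rintro _ ⟨v, rfl⟩ S hS
    obtain ⟨v', ρ, h⟩ := v.gen' S hS
    exact ⟨_, ⟨v', rfl⟩, ρ, h⟩
  prop := by
    rintro _ ⟨v, rfl⟩ n₀ hm V hV
    obtain ⟨v', ρ, h⟩ := v.prop hφ n₀ hm V hV
    exact ⟨_, ⟨v', rfl⟩, ρ, h⟩
  min := by
    obtain ⟨i, c, j, 𝔮, h2, h3, h4, h5⟩ := exists_min G
    let v : VP G := ⟨i, c, j, h2, 𝔮, h4⟩
    exact ⟨_, ⟨v, rfl⟩, fun n h => (v.isUnit_toO _).1 h (h5 n)⟩

theorem core {ν : C.I → ℤ} {φ : 𝒜.Ω} (h0 : φ ≠ 0) (hφ : Reg G ν φ) (hD : C.Sig) {β : C.Sp}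
    (hβ : C.TopQ β) {l : Fin W.d} (hW : W.Last β l) {M : ℕ} {η : C.I → ℤ}
    (hη : C.IsEta β.i β.j M η) {N : ℤ} (hN : RegN G ν φ l N) :
    yb β M η * N ≤ ∑ c, ν c * η (C.wI c) := by
  refine (tower h0 hφ).bound hD hβ hW hη ?_
  rintro _ ⟨v, rfl⟩ hm
  exact v.le_ex ((tower h0 hφ).φ_ne _ ⟨v, rfl⟩) hφ hW hN hm

end Atlas

end Ctx

end Pool.Agent.MP_b8b722_ag

end

end partCore
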