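import Pool.Agent.MP_b8b722_ag.A6
import Pool.Agent.MP_b8b722_ag.A5
import Pool.Agent.MP_b8b722_ag.A7

attribute [-instance] AddMonoidAlgebra.distribMulAction Subalgebra.isScalarTower_left
  NonUnitalAlgHomClass.toNonUnitalRingHomClass littleWedderburn
  ContinuousSemilinearMapClass.toSemilinearMapClass ESeminormedCommMonoid.toCommMonoid
  MonTypeEquivalenceMon.monMonoid RKHS.instFunLike IdemSemiring.toSemiring
  CoalgHomClass.toSemilinearMapClass NormedSpace.toModule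
  instNonUnitalAlgHomClassOfNonUnitalAlgEquivClass Subalgebra.algebra' instNontrivialOfCharZero
  Action.FintypeCat.instMulActionObjFiniteOf BialgHomClass.toAlgHomClass
  CommMonTypeEquivalenceCommMon.commMonCommMonoid RingHomClass.toLinearMapClassNNRat
  RingConeClass.toSubsemiringClass IdemCommSemiring.toCommSemiring LocalizedModule.instCommSemiring
  SemilinearIsometryClass.toSemilinearMapClass
  NonUnitalAlgHomClass.instSemilinearMapClassOfNonUnitalAlgSemiHomClassToMonoidHomRingHom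
  NonUnitalAlgSemiHomClass.toDistribMulActionSemiHomClass LieAlgebra.toModule
  RightPreLieAlgebra.toModule LeftPreLieAlgebra.toModule AlgHomClass.linearMapClass
  RingHomClass.toLinearMapClassRat NormedField.toField LieRinehartAlgebra.toIsScalarTower
  MulRingSeminormClass.toMonoidWithZeroHomClass BialgHomClass.toMonoidHomClass
  ContinuousMonoidHom.instCoeOutOfMonoidHomClassOfContinuousMapClass
  CommGrpTypeEquivalenceCommGrp.commGrpCommGroup DivisionRing.toDivisionSemiring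
  AlgEquivClass.toAlgHomClass SubalgebraClass.toAlgebra ValuationClass.toMonoidWithZeroHomClass
  Nontrivial.to_nonempty instCommGroupOfIsSimpleGroupOfIsNilpotent TestFunctionClass.toDFunLike
  MulSemiringActionSemiHomClass.toRingHomClass ContDiffMapSupportedInClass.toDFunLike
  GroupConeClass.toSubmonoidClass Semiring.toNonUnitalSemiring instCoeTCOfCoe
  MulCharClass.toMonoidHomClass instCharZeroOfIsSemireal RingEquivClass.toNonUnitalRingHomClass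
  RingEquivClass.toRingHomClass GrpTypeEquivalenceGrp.grpGroup MonoidWithZero.toSemigroupWithZero
  NormedCommRing.toCommRing NonUnitalRing.toNonUnitalSemiring
  SemilinearEquivClass.instSemilinearMapClass
  MulSemiringActionSemiHomClass.toDistribMulActionSemiHomClass CommGroupWithZero.toDivisionCommMonoid
  NormMulClass.toNoZeroDivisors MulDistribMulActionSemiHomClass.toMonoidHomClass instCoeOutOfCoeFun
  GradedMonoid.GradeZero.commMonoid LinearOrderedAddCommMonoidWithTop.toAddCommMonoid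
  CommMonoidWithZero.toCommMonoid LieAdmissibleRing.toNonUnitalNonAssocRing
  IsometryClass.instCoeOutIsometryEquiv FloorSemiring.instCharZero EuclideanDomain.toCommRing
  SeminormedCommRing.toCommRing NormedRing.toRing
  Submonoid.LocalizationMap.instNontrivialLocalizationOfIsCancelMul
  LinearOrderedAddCommGroupWithTop.toAddCommMonoid GroupWithZero.toDivisionMonoid
  IsAffineAddMonoid.toIsCancelAdd instCoeTOfCoeDep
  ContinuousAddMonoidHom.instCoeOutOfAddMonoidHomClassOfContinuousMapClass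
  HomeomorphClass.instCoeOutHomeomorph Field.instIsLocalRing CentroidHomClass.toAddMonoidHomClass
  CompletePartialOrder.toPartialOrder

section partWt

/-!
Weight decomposition of sections.
-/

set_option linter.unusedSectionVars false
set_option linter.unusedVariables false

open Matrix TensorProduct

noncomputable section

namespace Pool.Agent.MP_b8b722_ag

namespace Ctx

variable (C : Ctx) {lam : C.I → ℤ}

/-- the character of the universal torus element in position `a` -/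
def uw (a : C.I) : C.I → ℤ :=
  if C.lo a then Pi.single a 1
  else Pi.single C.a0 1 + Pi.single C.a0.rev 1 - Pi.single a.rev 1

/-- group algebra of the character group -/
abbrev TA (S : Type) [CommRing S] : Type := AddMonoidAlgebra S (C.I → ℤ)

def inTA (S : Type) [CommRing S] : S →+* C.TA S := AddMonoidAlgebra.singleZeroRingHom

def chU (S : Type) [CommRing S] (μ : C.I → ℤ) : (C.TA S)ˣ :=
  ⟨AddMonoidAlgebra.single μ 1, AddMonoidAlgebra.single (-μ) 1,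
    by rw [AddMonoidAlgebra.single_mul_single]; simp [AddMonoidAlgebra.one_def],
    by rw [AddMonoidAlgebra.single_mul_single]; simp [AddMonoidAlgebra.one_def]⟩

/-- the universal element of the torus -/
def tu (S : Type) [CommRing S] : GL C.I (C.TA S) := C.dgG fun a => C.chU S (C.uw a)

variable {C} {R : Type} [CommRing R]

theorem wta_chU_mul (S : Type) [CommRing S] (μ ν : C.I → ℤ) :
    C.chU S μ * C.chU S ν = C.chU S (μ + ν) := by
  refine Units.ext ?_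
  change AddMonoidAlgebra.single μ (1 : S) * AddMonoidAlgebra.single ν 1 =
    AddMonoidAlgebra.single (μ + ν) 1
  rw [AddMonoidAlgebra.single_mul_single, one_mul]

theorem wta_uw_add (a : C.I) :
    C.uw a + C.uw a.rev = Pi.single C.a0 1 + Pi.single C.a0.rev 1 := by
  have h := C.lo_rev a
  unfold uw
  by_cases ha : C.lo a
  · rw [if_pos ha, if_neg fun h' => h.1 h' ha, Fin.rev_rev]
    abel
  · rw [if_neg ha, if_pos (h.2 ha)]
    abel

theorem tu_mem (S : Type) [CommRing S] : C.tu S ∈ C.T (C.TA S) := by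
  refine dgG_mem _ (C.chU S (Pi.single C.a0 1 + Pi.single C.a0.rev 1)) fun a => ?_
  rw [wta_chU_mul, wta_uw_add]

/-- the value of `s` at `τ⁻¹ a` for the universal torus element `τ` -/
def wv (s : C.Fn R lam) (S : Type) [CommRing S] (ξ : R →+* S) (a : GL C.I S) : C.TA S :=
  s.f (C.TA S) ((C.inTA S).comp ξ) ((C.tu S)⁻¹ * C.mp (C.inTA S) a)

/-- component of weight `μ` -/
def wc (s : C.Fn R lam) (μ : C.I → ℤ) (S : Type) [CommRing S] (ξ : R →+* S) (a : GL C.I S) : S :=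
  (wv s S ξ a).coeff μ

variable {S S' : Type} [CommRing S] [CommRing S']

theorem wta_inTA (r : S) : C.inTA S r = AddMonoidAlgebra.single 0 r := rfl

theorem wta_tu_val (a : C.I) : (C.tu S).val a a = AddMonoidAlgebra.single (C.uw a) 1 := by
  unfold tu
  rw [dgG_val, Matrix.diagonal_apply_eq]
  rfl

theorem wta_T_ext {x y : GL C.I S} (hx : x ∈ C.T S) (hy : y ∈ C.T S)
    (h : ∀ a, x.val a a = y.val a a) : x = y := by
  refine C.gl_ext fun a b => ?_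
  by_cases hab : a = b
  · rw [← hab, h]
  · rw [Pat.zero hx hab, Pat.zero hy hab]

theorem wta_mem {a : GL C.I S} (ha : a ∈ C.P S) :
    (C.tu S)⁻¹ * C.mp (C.inTA S) a ∈ C.P (C.TA S) :=
  mul_mem (inv_mem (T_le (tu_mem S))) (Pat.map _ ha)

theorem wta_map_wv (s : C.Fn R lam) (ξ : R →+* S) {a : GL C.I S} (ha : a ∈ C.P S)
    (H : C.TA S →+* S') : H (wv s S ξ a) =
      s.f S' ((H.comp (C.inTA S)).comp ξ)
        ((C.mp H (C.tu S))⁻¹ * C.mp (H.comp (C.inTA S)) a) := by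
  unfold wv
  rw [← s.nat _ _ H _ _ (mem_P.1 (wta_mem ha)), map_mul, map_inv]
  rfl

theorem wc_nat (s : C.Fn R lam) (μ : C.I → ℤ) (h : S →+* S') (ξ : R →+* S) {a : GL C.I S}
    (ha : a ∈ C.P S) : wc s μ S' (h.comp ξ) (C.mp h a) = h (wc s μ S ξ a) := by
  have hc : (AddMonoidAlgebra.mapRingHom (C.I → ℤ) h).comp (C.inTA S) = (C.inTA S').comp h := by
    refine RingHom.ext fun r => ?_
    rw [RingHom.comp_apply, RingHom.comp_apply, wta_inTA, wta_inTA,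
      AddMonoidAlgebra.mapRingHom_single]
  have ht : C.mp (AddMonoidAlgebra.mapRingHom (C.I → ℤ) h) (C.tu S) = C.tu S' := by
    refine wta_T_ext (Pat.map _ (tu_mem S)) (tu_mem S') fun c => ?_
    rw [mp_val, wta_tu_val, wta_tu_val, AddMonoidAlgebra.mapRingHom_single, map_one]
  have e := wta_map_wv s ξ ha (AddMonoidAlgebra.mapRingHom (C.I → ℤ) h)
  rw [hc, ht] at e
  unfold wc
  rw [← AddMonoidAlgebra.coeff_mapRingHom, e]
  rfl

theorem wc_lev (s : C.Fn R lam) (μ : C.I → ℤ) (ξ : R →+* S) {a : GL C.I S} (ha : a ∈ C.P S) :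
    wc s μ S ξ (C.lev a) = wc s μ S ξ a := by
  have h1 : (C.tu S)⁻¹ ∈ C.T (C.TA S) := inv_mem (tu_mem S)
  have e : wv s S ξ (C.lev a) = wv s S ξ a := by
    unfold wv
    rw [← s.f_lev _ (wta_mem ha), lev_mul_P (T_le h1) (Pat.map _ ha), lev_of_L (T_le h1),
      lev_mp _ (Or.inl ha)]
  unfold wc
  rw [e]

theorem wta_chi_zero (δ : GL C.I S) : C.chi 0 δ = 1 := by
  simp only [Datum.chi, Pi.zero_apply, Int.toNat_zero, pow_zero, coe_units_inv, neg_zero, mul_one, Finset.prod_const_one]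

theorem wta_chi_single (c : C.I) (δ : GL C.I S) : C.chi (Pi.single c 1) δ = δ.val c c := by
  unfold Datum.chi
  rw [Finset.prod_eq_single c]
  · simp
  · intro b _ hb
    simp [Pi.single_eq_of_ne hb]
  · intro h
    exact absurd (Finset.mem_univ c) h

theorem wta_chi_uw {δ : GL C.I S} (hδ : δ ∈ C.B S) (c : C.I) : C.chi (C.uw c) δ = δ.val c c := by
  by_cases hc : C.lo c
  · unfold uw
    rw [if_pos hc, wta_chi_single]
  · have h1 : C.uw c.rev = Pi.single c.rev 1 := by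
      unfold uw
      rw [if_pos ((C.lo_rev c).2 hc)]
    have h2 := chi_add (C.uw c) (C.uw c.rev) hδ
    rw [wta_uw_add, chi_add _ _ hδ, h1, wta_chi_single, wta_chi_single, wta_chi_single,
      B.diag_rev hδ, ← B.diag_rev hδ c] at h2
    exact ((B.diag_unit hδ c.rev).mul_right_cancel h2).symm

/-- the characters evaluated at `δ` -/
def wta_chiHom {δ : GL C.I S} (hδ : δ ∈ C.B S) : Multiplicative (C.I → ℤ) →* S where
  toFun μ := C.chi μ.toAdd δ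
  map_one' := wta_chi_zero δ
  map_mul' μ ν := chi_add μ.toAdd ν.toAdd hδ

/-- evaluate the group algebra at `δ` -/
theorem f_eq_sum (s : C.Fn R lam) (ξ : R →+* S) {δ a : GL C.I S} (hδ : δ ∈ C.T S) (ha : a ∈ C.P S)
    (W : Finset (C.I → ℤ)) (hW : ∀ μ, μ ∉ W → wc s μ S ξ a = 0) :
    s.f S ξ (δ⁻¹ * a) = ∑ μ ∈ W, C.chi μ δ * wc s μ S ξ a := by
  have hB : δ ∈ C.B S := T_le hδ
  let H : C.TA S →+* S :=
    AddMonoidAlgebra.liftNCRingHom (RingHom.id S) (wta_chiHom hB) fun _ _ => Commute.all _ _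
  have hH : ∀ μ r, H (AddMonoidAlgebra.single μ r) = r * C.chi μ δ := fun μ r =>
    AddMonoidAlgebra.liftNCRingHom_single _ _ _ _ _
  have hc : H.comp (C.inTA S) = RingHom.id S := by
    refine RingHom.ext fun r => ?_
    rw [RingHom.comp_apply, wta_inTA, hH, wta_chi_zero, mul_one, RingHom.id_apply]
  have ht : C.mp H (C.tu S) = δ := by
    refine wta_T_ext (Pat.map _ (tu_mem S)) hδ fun c => ?_
    rw [mp_val, wta_tu_val, hH, one_mul, wta_chi_uw hB]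
  have e := wta_map_wv s ξ ha H
  rw [hc, ht, RingHom.id_comp, mp_id] at e
  rw [← e]
  have hx : wv s S ξ a = ∑ μ ∈ W, AddMonoidAlgebra.single μ (wc s μ S ξ a) := by
    classical
    refine AddMonoidAlgebra.coeff_injective (Finsupp.ext fun ν => ?_)
    rw [AddMonoidAlgebra.coeff_sum, Finsupp.finsetSum_apply]
    simp only [AddMonoidAlgebra.coeff_single, Finsupp.single_apply]
    rw [Finset.sum_ite_eq']
    split_ifs with hν
    · rfl
    · exact hW ν hν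
  rw [hx, map_sum]
  exact Finset.sum_congr rfl fun μ _ => by rw [hH, mul_comm]

/-- use the automorphism `single μ r ↦ single μ (chi μ δ * r)` -/
theorem wc_torus (s : C.Fn R lam) (μ : C.I → ℤ) (ξ : R →+* S) {δ a : GL C.I S} (hδ : δ ∈ C.T S)
    (ha : a ∈ C.P S) : wc s μ S ξ (δ⁻¹ * a) = C.chi μ δ * wc s μ S ξ a := by
  have hB : δ ∈ C.B S := T_le hδ
  let g : Multiplicative (C.I → ℤ) →* C.TA S :=
    { toFun := fun ν => AddMonoidAlgebra.single ν.toAdd (C.chi ν.toAdd δ)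
      map_one' := by
        rw [toAdd_one, wta_chi_zero, AddMonoidAlgebra.one_def]
      map_mul' := fun ν ν' => by
        rw [toAdd_mul, chi_add _ _ hB, AddMonoidAlgebra.single_mul_single] }
  let H : C.TA S →+* C.TA S :=
    AddMonoidAlgebra.liftNCRingHom (C.inTA S) g fun _ _ => Commute.all _ _
  have hH : ∀ ν r, H (AddMonoidAlgebra.single ν r) =
      AddMonoidAlgebra.single ν (r * C.chi ν δ) := fun ν r => by
    have h0 : H (AddMonoidAlgebra.single ν r) =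
        C.inTA S r * AddMonoidAlgebra.single ν (C.chi ν δ) :=
      AddMonoidAlgebra.liftNCRingHom_single _ _ _ _ _
    rw [h0, wta_inTA, AddMonoidAlgebra.single_mul_single, zero_add]
  have hc : H.comp (C.inTA S) = C.inTA S := by
    refine RingHom.ext fun r => ?_
    rw [RingHom.comp_apply, wta_inTA, hH, wta_chi_zero, mul_one]
  have hδ' : C.mp (C.inTA S) δ ∈ C.T (C.TA S) := Pat.map _ hδ
  have ht : C.mp H (C.tu S) = C.mp (C.inTA S) δ * C.tu S := by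
    refine wta_T_ext (Pat.map _ (tu_mem S)) (mul_mem hδ' (tu_mem S)) fun c => ?_
    rw [B.mul_diag (T_le hδ') (T_le (tu_mem S)), mp_val, mp_val, wta_tu_val, hH, one_mul,
      wta_chi_uw hB, wta_inTA, AddMonoidAlgebra.single_mul_single, zero_add, mul_one]
  have e := wta_map_wv s ξ ha H
  rw [hc, ht] at e
  have e2 : wv s S ξ (δ⁻¹ * a) = H (wv s S ξ a) := by
    rw [e]
    unfold wv
    rw [map_mul, map_inv, _root_.mul_inv_rev, mul_assoc]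
  have hco : ∀ x : C.TA S, (H x).coeff μ = C.chi μ δ * x.coeff μ := by
    classical
    intro x
    induction x using AddMonoidAlgebra.induction_linear with
    | zero => simp
    | add x y hx hy =>
      rw [map_add, AddMonoidAlgebra.coeff_add, AddMonoidAlgebra.coeff_add, Finsupp.add_apply,
        Finsupp.add_apply, hx, hy, mul_add]
    | single ν r =>
      rw [hH, AddMonoidAlgebra.coeff_single, AddMonoidAlgebra.coeff_single, Finsupp.single_apply,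
        Finsupp.single_apply]
      split_ifs with hν
      · rw [hν, mul_comm]
      · rw [mul_zero]
  unfold wc
  rw [e2, hco]

/-- `μ` is a weight of `s` -/
def IsWt (s : C.Fn R lam) (μ : C.I → ℤ) : Prop :=
  ∃ (S : Type) (_ : CommRing S) (ξ : R →+* S) (a : GL C.I S), a ∈ C.P S ∧ wc s μ S ξ a ≠ 0

/-- the universal value -/
def uv [Algebra C.k R] (s : C.Fn R lam) (μ : C.I → ℤ) : R ⊗[C.k] C.RL :=
  wc s μ (R ⊗[C.k] C.RL) Algebra.TensorProduct.includeLeftRingHom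
    (C.ma Algebra.TensorProduct.includeRight C.m0)

theorem isWt_iff [Algebra C.k R] (s : C.Fn R lam) (μ : C.I → ℤ) : IsWt s μ ↔ uv s μ ≠ 0 := by
  have hm : C.ma (Algebra.TensorProduct.includeRight : C.RL →ₐ[C.k] R ⊗[C.k] C.RL) C.m0 ∈
      C.P (R ⊗[C.k] C.RL) := Pat.map _ (L_le_P m0_mem)
  refine ⟨?_, fun h => ⟨_, _, _, _, hm, h⟩⟩
  rintro ⟨S, _, ξ, a, ha, h⟩ h0
  apply h
  let _ : Algebra C.k S := (ξ.comp (algebraMap C.k R)).toAlgebra
  let ξ' : R →ₐ[C.k] S := { ξ with commutes' := fun _ => rfl }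
  let H : R ⊗[C.k] C.RL →ₐ[C.k] S := Algebra.TensorProduct.productMap ξ' (C.evL a)
  have h1 : (H : R ⊗[C.k] C.RL →+* S).comp Algebra.TensorProduct.includeLeftRingHom = ξ := by
    refine RingHom.ext fun r => ?_
    change H (r ⊗ₜ 1) = ξ r
    rw [Algebra.TensorProduct.productMap_left_apply]
    rfl
  have h2 : C.mp (H : R ⊗[C.k] C.RL →+* S)
      (C.ma (Algebra.TensorProduct.includeRight : C.RL →ₐ[C.k] R ⊗[C.k] C.RL) C.m0) =
      C.lev a := by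
    rw [← evL_m0 ha]
    refine C.gl_ext fun b c => ?_
    change H (1 ⊗ₜ C.m0.val b c) = C.evL a (C.m0.val b c)
    rw [Algebra.TensorProduct.productMap_right_apply]
  have e := wc_nat s μ (H : R ⊗[C.k] C.RL →+* S) Algebra.TensorProduct.includeLeftRingHom hm
  rw [h1, h2, wc_lev s μ ξ ha] at e
  rw [e]
  change (H : R ⊗[C.k] C.RL →+* S) (uv s μ) = 0
  rw [h0, map_zero]

theorem finite_wt [Algebra C.k R] (s : C.Fn R lam) : {μ | IsWt s μ}.Finite := by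
  refine (wv s (R ⊗[C.k] C.RL) Algebra.TensorProduct.includeLeftRingHom
    (C.ma Algebra.TensorProduct.includeRight C.m0)).coeff.support.finite_toSet.subset
    fun μ hμ => ?_
  exact Finsupp.mem_support_iff.2 ((isWt_iff s μ).1 hμ)

theorem exists_wt (s : C.Fn R lam) (h : s.Nonzero) : ∃ μ, IsWt s μ := by
  obtain ⟨S, _, ξ, a, ha, hne⟩ := h
  by_contra hno
  apply hne
  have e := f_eq_sum s ξ (one_mem (C.T S)) (mem_P.2 ha) ∅ fun μ _ => by
    by_contra h0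
    exact hno ⟨μ, S, _, ξ, a, mem_P.2 ha, h0⟩
  rwa [inv_one, one_mul, Finset.sum_empty] at e

/-- regular antidominant cocharacters of `L` -/
def IsReg (ζ : C.I → ℤ) : Prop :=
  (∃ c, ∀ a, ζ a + ζ a.rev = c) ∧
    ∀ a b, C.blk a = C.blk b → (C.lo a ↔ C.lo b) → a < b → ζ a < ζ b

/-- weights that are zero or positive on `ζ` -/
def wtb_N (ζ : C.I → ℤ) : AddSubmonoid (C.I → ℤ) where
  carrier := {μ | μ = 0 ∨ 0 < ∑ c, μ c * ζ c}
  zero_mem' := Or.inl rfl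
  add_mem' := by
    rintro x y (rfl | hx) (rfl | hy)
    · exact Or.inl (add_zero _)
    · exact Or.inr (by rwa [zero_add])
    · exact Or.inr (by rwa [add_zero])
    · refine Or.inr ?_
      simp only [Pi.add_apply, add_mul, Finset.sum_add_distrib]
      exact add_pos hx hy

theorem wtb_add_eq_zero {ζ : C.I → ℤ} {x y : wtb_N ζ} (h : x + y = 0) : x = 0 ∧ y = 0 := by
  obtain ⟨x, hx⟩ := x
  obtain ⟨y, hy⟩ := y
  have h' : x + y = 0 := congrArg Subtype.val h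
  have h2 : ∑ c, x c * ζ c + ∑ c, y c * ζ c = 0 := by
    rw [← Finset.sum_add_distrib]
    refine Finset.sum_eq_zero fun c _ => ?_
    rw [← add_mul, ← Pi.add_apply, h', Pi.zero_apply, zero_mul]
  rcases hx with rfl | hx <;> rcases hy with rfl | hy
  · exact ⟨rfl, rfl⟩
  · simp only [Pi.zero_apply, zero_mul, Finset.sum_const_zero] at h2
    omega
  · simp only [Pi.zero_apply, zero_mul, Finset.sum_const_zero] at h2
    omega
  · omega

/-- the monoid algebra of the positive weights -/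
abbrev wtb_A (ζ : C.I → ℤ) (S : Type) [CommRing S] : Type := AddMonoidAlgebra S (wtb_N ζ)

def wtb_j (ζ : C.I → ℤ) (S : Type) [CommRing S] : wtb_A ζ S →+* C.TA S :=
  AddMonoidAlgebra.mapDomainRingHom S (wtb_N ζ).subtype

theorem wtb_j_single (ζ : C.I → ℤ) (m : wtb_N ζ) (r : S) :
    wtb_j ζ S (AddMonoidAlgebra.single m r) = AddMonoidAlgebra.single m.val r :=
  AddMonoidAlgebra.mapDomain_single

theorem wtb_j_inj (ζ : C.I → ℤ) : Function.Injective (wtb_j ζ S) :=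
  AddMonoidAlgebra.mapDomain_injective Subtype.val_injective

open Classical in
def wtb_aug (ζ : C.I → ℤ) (S : Type) [CommRing S] : Multiplicative (wtb_N ζ) →* S where
  toFun m := if m.toAdd = 0 then 1 else 0
  map_one' := if_pos rfl
  map_mul' x y := by
    by_cases h : (x * y).toAdd = 0
    · obtain ⟨h1, h2⟩ := wtb_add_eq_zero (x := x.toAdd) (y := y.toAdd) h
      rw [if_pos h, if_pos h1, if_pos h2, mul_one]
    · rw [if_neg h]
      by_cases h1 : x.toAdd = 0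
      · have h2 : ¬ y.toAdd = 0 := fun h2 => h (by rw [toAdd_mul, h1, h2, add_zero])
        rw [if_neg h2, mul_zero]
      · rw [if_neg h1, zero_mul]

/-- the constant term -/
def wtb_eps (ζ : C.I → ℤ) (S : Type) [CommRing S] : wtb_A ζ S →+* S :=
  AddMonoidAlgebra.liftNCRingHom (RingHom.id S) (wtb_aug ζ S) fun _ _ => Commute.all _ _

theorem wtb_eps_eq (ζ : C.I → ℤ) (x : wtb_A ζ S) : wtb_eps ζ S x = (wtb_j ζ S x).coeff 0 := by
  classical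
  induction x using AddMonoidAlgebra.induction_linear with
  | zero => simp
  | add x y hx hy => rw [map_add, map_add, hx, hy, AddMonoidAlgebra.coeff_add, Finsupp.add_apply]
  | single m r =>
    rw [wtb_j_single, wtb_eps, AddMonoidAlgebra.liftNCRingHom_single,
      AddMonoidAlgebra.coeff_single, Finsupp.single_apply]
    by_cases h : m = 0
    · subst h
      rw [if_pos (ZeroMemClass.coe_zero _)]
      simp only [RingHom.id_apply, ofAdd_zero, map_one, mul_one]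
    · rw [if_neg fun h' : m.val = 0 => h (Subtype.ext h')]
      have : wtb_aug ζ S (Multiplicative.ofAdd m) = 0 := if_neg h
      rw [this, mul_zero]

theorem wtb_j_coeff (ζ : C.I → ℤ) (x : wtb_A ζ S) {μ : C.I → ℤ} (h : μ ∉ wtb_N ζ) :
    (wtb_j ζ S x).coeff μ = 0 := by
  induction x using AddMonoidAlgebra.induction_linear with
  | zero => simp
  | add x y hx hy => rw [map_add, AddMonoidAlgebra.coeff_add, Finsupp.add_apply, hx, hy, add_zero]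
  | single m r =>
    rw [wtb_j_single, AddMonoidAlgebra.coeff_single]
    exact Finsupp.single_eq_of_ne fun e => h (e ▸ m.2)

/-- identify the two universal torus elements -/
def wtb_psi (ζ : C.I → ℤ) (S : Type) [CommRing S] : C.TA (wtb_A ζ S) →+* C.TA S :=
  AddMonoidAlgebra.liftNCRingHom (wtb_j ζ S) (AddMonoidAlgebra.of S (C.I → ℤ))
    fun _ _ => Commute.all _ _

theorem wtb_psi_single (ζ : C.I → ℤ) (μ : C.I → ℤ) (r : wtb_A ζ S) :
    wtb_psi ζ S (AddMonoidAlgebra.single μ r) = wtb_j ζ S r * AddMonoidAlgebra.single μ 1 :=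
  AddMonoidAlgebra.liftNCRingHom_single _ _ _ _ _

theorem wtb_psi_coeff (ζ ν : C.I → ℤ) (E : C.TA (wtb_A ζ S))
    (h : ∀ μ, E.coeff μ ≠ 0 → ∑ c, ν c * ζ c ≤ ∑ c, μ c * ζ c) :
    (wtb_psi ζ S E).coeff ν = wtb_eps ζ S (E.coeff ν) := by
  classical
  have h1 : wtb_psi ζ S E = ∑ μ ∈ E.coeff.support,
      wtb_j ζ S (E.coeff μ) * AddMonoidAlgebra.single μ 1 := by
    conv_lhs => rw [← AddMonoidAlgebra.sum_coeff_single E]
    rw [Finsupp.sum, map_sum]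
    exact Finset.sum_congr rfl fun μ _ => wtb_psi_single ζ μ _
  rw [h1, AddMonoidAlgebra.coeff_sum, Finsupp.finsetSum_apply, Finset.sum_eq_single ν]
  · rw [AddMonoidAlgebra.coeff_mul_single_apply, mul_one, add_neg_cancel, wtb_eps_eq]
  · intro μ hμ hne
    rw [AddMonoidAlgebra.coeff_mul_single_apply, mul_one]
    refine wtb_j_coeff ζ _ ?_
    rintro (h0 | h0)
    · exact hne (add_neg_eq_zero.1 h0).symm
    · have h2 := h μ (Finsupp.mem_support_iff.1 hμ)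
      simp only [Pi.add_apply, Pi.neg_apply, add_mul, neg_mul, Finset.sum_add_distrib,
        Finset.sum_neg_distrib] at h0
      omega
  · intro hν
    rw [Finsupp.notMem_support_iff.1 hν, map_zero, zero_mul]
    rfl

theorem wtb_psi_tu (ζ : C.I → ℤ) : C.mp (wtb_psi ζ S) (C.tu (wtb_A ζ S)) = C.tu S := by
  refine C.gl_ext fun a b => ?_
  rw [mp_val]
  simp only [tu, dgG_val, Matrix.diagonal_apply]
  split_ifs
  · simp only [chU]
    rw [wtb_psi_single, map_one, one_mul]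
  · exact map_zero _

theorem wtb_psi_in (ζ : C.I → ℤ) : (wtb_psi ζ S).comp (C.inTA (wtb_A ζ S)) = wtb_j ζ S := by
  refine RingHom.ext fun r => ?_
  have : wtb_psi ζ S (AddMonoidAlgebra.single 0 r) = wtb_j ζ S r := by
    rw [wtb_psi_single, ← AddMonoidAlgebra.one_def, mul_one]
  exact this

/-- constants -/
def wtb_in (ζ : C.I → ℤ) (S : Type) [CommRing S] : S →+* wtb_A ζ S :=
  AddMonoidAlgebra.singleZeroRingHom

theorem wtb_j_in (ζ : C.I → ℤ) : (wtb_j ζ S).comp (wtb_in ζ S) = C.inTA S :=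
  RingHom.ext fun r => wtb_j_single ζ 0 r

theorem wtb_eps_in (ζ : C.I → ℤ) : (wtb_eps ζ S).comp (wtb_in ζ S) = RingHom.id S := by
  refine RingHom.ext fun r => ?_
  have : wtb_eps ζ S (AddMonoidAlgebra.single 0 r) = r := by
    rw [wtb_eps_eq, wtb_j_single, AddMonoidAlgebra.coeff_single]
    exact Finsupp.single_eq_same
  exact this

theorem wtb_uw {ζ : C.I → ℤ} (hζ : IsReg ζ) (a : C.I) : ∑ c, C.uw a c * ζ c = ζ a := by
  obtain ⟨c, hc⟩ := hζ.1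
  have h1 : ∀ a : C.I, ∑ c, (Pi.single a 1 : C.I → ℤ) c * ζ c = ζ a := by
    intro a
    rw [Finset.sum_eq_single a]
    · simp
    · intro b _ hb
      rw [Pi.single_eq_of_ne hb, zero_mul]
    · simp only [Finset.mem_univ, not_true_eq_false, Pi.single_eq_same, one_mul, IsEmpty.forall_iff]
  unfold uw
  split_ifs
  · exact h1 a
  · simp only [Pi.add_apply, Pi.sub_apply, add_mul, sub_mul, Finset.sum_add_distrib,
      Finset.sum_sub_distrib, h1]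
    have := hc C.a0
    have := hc a
    omega

theorem wtb_conj (x : GL C.I S) (a b : C.I) :
    (C.tu S * C.mp (C.inTA S) x * (C.tu S)⁻¹).val a b =
      AddMonoidAlgebra.single (C.uw a - C.uw b) (x.val a b) := by
  have h1 : (C.tu S)⁻¹.val =
      Matrix.diagonal fun a => AddMonoidAlgebra.single (-C.uw a) (1 : S) := rfl
  have h2 : (C.tu S).val = Matrix.diagonal fun a => AddMonoidAlgebra.single (C.uw a) (1 : S) := rfl
  have h3 : (C.mp (C.inTA S) x).val a b = AddMonoidAlgebra.single 0 (x.val a b) := rfl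
  rw [Units.val_mul, Units.val_mul, h1, h2, Matrix.mul_diagonal, Matrix.diagonal_mul, h3,
    AddMonoidAlgebra.single_mul_single, AddMonoidAlgebra.single_mul_single, add_zero, one_mul,
    mul_one, sub_eq_add_neg]

theorem wtb_pos {ζ : C.I → ℤ} (hζ : IsReg ζ) {x : GL C.I S} (hx : x ∈ C.B S) (hL : x ∈ C.L S)
    {a b : C.I} (hab : a ≠ b) (h : x.val a b ≠ 0) : 0 < ∑ c, (C.uw a - C.uw b) c * ζ c := by
  simp only [Pi.sub_apply, sub_mul, Finset.sum_sub_distrib, wtb_uw hζ]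
  have h1 : C.blk a = C.blk b := by
    by_contra h1
    exact h (Pat.blk hx h1)
  have h2 : b ≤ a := by
    by_contra h2
    exact h (Pat.zero hx h2)
  have h3 : C.lo a ↔ C.lo b := by
    by_contra h3
    exact h (Pat.zero hL h3)
  exact sub_pos.2 (hζ.2 b a h1.symm h3.symm (lt_of_le_of_ne h2 hab.symm))

theorem wtb_range {ζ : C.I → ℤ} (hζ : IsReg ζ) {x : GL C.I S} (hx : x ∈ C.B S) (hL : x ∈ C.L S)
    (a b : C.I) :
    (C.tu S * C.mp (C.inTA S) x * (C.tu S)⁻¹).val a b ∈ (wtb_j ζ S).range := by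
  rw [wtb_conj]
  by_cases h : x.val a b = 0
  · rw [h, AddMonoidAlgebra.single_zero]
    exact zero_mem _
  · have hm : C.uw a - C.uw b ∈ wtb_N ζ := by
      by_cases hab : a = b
      · exact Or.inl (by rw [hab, sub_self])
      · exact Or.inr (wtb_pos hζ hx hL hab h)
    exact ⟨AddMonoidAlgebra.single ⟨_, hm⟩ (x.val a b), wtb_j_single ζ _ _⟩

/-- the conjugate of `x` by the universal torus element is defined over the positive weights, and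
its constant term is the diagonal part of `x` -/
theorem wtb_exists {ζ : C.I → ℤ} (hζ : IsReg ζ) {x : GL C.I S} (hx : x ∈ C.B S) (hL : x ∈ C.L S) :
    ∃ y ∈ C.B (wtb_A ζ S), C.mp (wtb_j ζ S) y = C.tu S * C.mp (C.inTA S) x * (C.tu S)⁻¹ ∧
      C.mp (wtb_eps ζ S) y ∈ C.T S ∧ ∀ a, (C.mp (wtb_eps ζ S) y).val a a = x.val a a := by
  obtain ⟨y, hy⟩ := C.exists_mp_eq (wtb_j ζ S) (wtb_j_inj ζ)
    (C.tu S * C.mp (C.inTA S) x * (C.tu S)⁻¹) (wtb_range hζ hx hL) (fun a b => by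
      have := wtb_range hζ (inv_mem hx) (inv_mem hL) a b
      rwa [map_inv, show C.tu S * (C.mp (C.inTA S) x)⁻¹ * (C.tu S)⁻¹ =
        (C.tu S * C.mp (C.inTA S) x * (C.tu S)⁻¹)⁻¹ by group] at this)
  have hyB : y ∈ C.B (wtb_A ζ S) := by
    refine Pat.of_map (wtb_j ζ S) (wtb_j_inj ζ) ?_
    rw [hy]
    exact mul_mem (mul_mem (T_le (tu_mem S)) (Pat.map _ hx)) (inv_mem (T_le (tu_mem S)))
  have he : ∀ a b, (C.mp (wtb_eps ζ S) y).val a b =
      (AddMonoidAlgebra.single (C.uw a - C.uw b) (x.val a b)).coeff 0 := by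
    intro a b
    rw [mp_val, wtb_eps_eq, ← C.mp_val, hy, wtb_conj]
  refine ⟨y, hyB, hy, ⟨(Pat.map _ hyB).1, fun a b hab => ?_⟩, fun a => ?_⟩
  · rw [he, AddMonoidAlgebra.coeff_single]
    by_cases h : x.val a b = 0
    · rw [h, Finsupp.single_zero, Finsupp.zero_apply]
    · refine Finsupp.single_eq_of_ne fun e => ?_
      have := wtb_pos hζ hx hL hab h
      rw [← e] at this
      simp only [Pi.zero_apply, zero_mul, Finset.sum_const_zero, lt_self_iff_false] at this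
  · rw [he, sub_self, AddMonoidAlgebra.coeff_single, Finsupp.single_eq_same]

/-- Triangularity of the action of `B`.  Write `b = τ n` with `τ ∈ T` and `n` unipotent.  The
matrix `n(t) = ζ(t) n ζ(t)⁻¹` is defined over `S[t]` with `n(0) = 1`.  For a weight `μ'` compare
the expansions of `wc s μ' (n ζ(t)⁻¹ a'') = t ^ ⟨μ', ζ⟩ wc s μ' (n(t) a'')` in `t`, where
`a'' = τ_u⁻¹ a`: the component of weight `μ` of `wc s μ' (n ·)` vanishes unless
`⟨μ', ζ⟩ < ⟨μ, ζ⟩` or `μ' = μ`, and is `wc s μ` for `μ' = μ`. -/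
theorem wc_tr_L [Algebra C.k R] (s : C.Fn R lam) {ζ ν : C.I → ℤ} (hζ : IsReg ζ)
    (hν : ∀ μ, IsWt s μ → ∑ c, ν c * ζ c ≤ ∑ c, μ c * ζ c) {b : GL C.I R} (hb : b ∈ C.B R)
    (hL : b ∈ C.L R) (ξ : R →+* S) {a : GL C.I S} (ha : a ∈ C.P S) :
    wc (s.tr b (B_le_P hb)) ν S ξ a * ξ (C.chi ν b) = wc s ν S ξ a := by
  have hb' : C.mp ξ b ∈ C.B S := Pat.map ξ hb
  obtain ⟨y, hyB, hy, hT, hd⟩ := wtb_exists hζ hb' (Pat.map ξ hL)
  have hz : y * C.mp (wtb_in ζ S) a ∈ C.P (wtb_A ζ S) := mul_mem (B_le_P hyB) (Pat.map _ ha)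
  have h1 : wv (s.tr b (B_le_P hb)) S ξ a =
      wtb_psi ζ S (wv s (wtb_A ζ S) ((wtb_in ζ S).comp ξ) (y * C.mp (wtb_in ζ S) a)) := by
    unfold wv
    rw [← s.nat _ _ (wtb_psi ζ S) _ _
      (mem_P.1 (mul_mem (inv_mem (T_le (tu_mem _))) (Pat.map _ hz))), map_mul, map_inv,
      wtb_psi_tu, ← C.mp_comp, ← RingHom.comp_assoc, wtb_psi_in, ← RingHom.comp_assoc, wtb_j_in,
      map_mul, hy, ← C.mp_comp (wtb_in ζ S), wtb_j_in]
    change s.f (C.TA S) ((C.inTA S).comp ξ)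
      (C.mp (C.inTA S) (C.mp ξ b) * ((C.tu S)⁻¹ * C.mp (C.inTA S) a)) = _
    rw [mul_assoc, mul_assoc, inv_mul_cancel_left]
  have h2 : wc (s.tr b (B_le_P hb)) ν S ξ a = wc s ν S ξ (C.mp (wtb_eps ζ S) y * a) := by
    have h3 := wc_nat s ν (wtb_eps ζ S) ((wtb_in ζ S).comp ξ) hz
    rw [← RingHom.comp_assoc, wtb_eps_in, RingHom.id_comp, map_mul, ← C.mp_comp, wtb_eps_in,
      mp_id] at h3
    rw [h3, wc, h1, wtb_psi_coeff ζ ν _ fun μ hμ => hν μ ⟨_, _, _, _, hz, hμ⟩]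
    rfl
  have h4 := wc_torus s ν ξ hT (mul_mem (T_le hT) ha)
  rw [inv_mul_cancel_left] at h4
  rw [h2, h4, ← chi_mp, mul_comm, chi_congr ν (T_le hT) hb' hd]

theorem wtc_m0 (A : Type) [CommRing A] [Algebra C.k A] :
    C.ma (Algebra.TensorProduct.includeRight : C.RL →ₐ[C.k] A ⊗[C.k] C.RL) C.m0 ∈
      C.P (A ⊗[C.k] C.RL) := Pat.map _ (L_le_P m0_mem)

theorem wtc_uv [Algebra C.k S] [Algebra C.k S'] (s : C.Fn S lam) (μ : C.I → ℤ)
    (h : S →ₐ[C.k] S') : wtc_bc C.RL h (uv s μ) = wc s μ (S' ⊗[C.k] C.RL)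
      (Algebra.TensorProduct.includeLeftRingHom.comp (h : S →+* S'))
      (C.ma Algebra.TensorProduct.includeRight C.m0) := by
  have h1 := wc_nat s μ (wtc_bc C.RL h) Algebra.TensorProduct.includeLeftRingHom (wtc_m0 S)
  have h2 : C.mp (wtc_bc C.RL h) (C.ma Algebra.TensorProduct.includeRight C.m0) =
      C.ma Algebra.TensorProduct.includeRight C.m0 :=
    congrArg (fun f => C.mp f C.m0) (wtc_bc_right h)
  rw [h2, wtc_bc_left] at h1
  exact h1.symm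

theorem wtc_mem {a : GL C.I S} (ha : a ∈ C.P S) :
    (C.tu S)⁻¹ * C.mp (C.inTA S) a ∈ C.P (C.TA S) :=
  mul_mem (inv_mem (T_le (tu_mem _))) (Pat.map _ ha)

theorem wtc_congr {R' : Type} [CommRing R'] (s : C.Fn R lam) (s' : C.Fn R' lam) (μ : C.I → ℤ)
    (j : R →+* R') (h : ∀ (S : Type) [CommRing S] (ρ : R' →+* S) (a : GL C.I S), a ∈ C.P S →
      s.f S (ρ.comp j) a = s'.f S ρ a) (ξ : R' →+* S) {a : GL C.I S} (ha : a ∈ C.P S) :
    wc s μ S (ξ.comp j) a = wc s' μ S ξ a := by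
  unfold wc wv
  rw [← RingHom.comp_assoc, h _ _ _ (wtc_mem ha)]

/-- the part of weight `ν` is semi-invariant under `B` -/
def IsExt (s : C.Fn R lam) (ν : C.I → ℤ) : Prop :=
  ∀ (b : GL C.I R) (hb : b ∈ C.B R) (S : Type) [CommRing S] (ξ : R →+* S) (a : GL C.I S),
    a ∈ C.P S → wc (s.tr b (B_le_P hb)) ν S ξ a * ξ (C.chi ν b) = wc s ν S ξ a

theorem isExt_of_min [Algebra C.k R] (s : C.Fn R lam) {ζ ν : C.I → ℤ} (hζ : IsReg ζ)
    (hν : ∀ μ, IsWt s μ → ∑ c, ν c * ζ c ≤ ∑ c, μ c * ζ c) : IsExt s ν := by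
  intro b hb S _ ξ a ha
  have hP := B_le_P hb
  have hb' : C.lev b ∈ C.B R := lev_pat (Or.inl hP) hb
  rw [← wc_tr_L s hζ hν hb' (lev_mem (Or.inl hP)) ξ ha, chi_congr ν hb' hb (lev_diag (Or.inl hP))]
  have key := wtc_congr (s.tr b hP) (s.tr _ (B_le_P hb')) ν (RingHom.id R)
    (fun S _ ρ a ha => ?_) ξ ha
  · rw [← key, RingHom.comp_id]
  change s.f S ρ (C.mp ρ b * a) = s.f S ρ (C.mp ρ (C.lev b) * a)
  rw [← s.f_lev ρ (mul_mem (Pat.map ρ hP) ha), ← s.f_lev ρ (mul_mem (Pat.map ρ (B_le_P hb')) ha),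
    lev_mul_P (Pat.map ρ hP) ha, lev_mul_P (Pat.map ρ (B_le_P hb')) ha,
    lev_of_L (Pat.map ρ (lev_mem (Or.inl hP))), lev_mp ρ (Or.inl hP)]

theorem IsExt.uv [Algebra C.k R] {s : C.Fn R lam} {ν : C.I → ℤ} (h : IsExt s ν) {b : GL C.I R}
    (hb : b ∈ C.B R) (ε : C.RL →ₗ[C.k] C.k) :
    wtc_ct ε (uv (s.tr b (B_le_P hb)) ν) * C.chi ν b = wtc_ct ε (uv s ν) := by
  have h1 := h b hb _ Algebra.TensorProduct.includeLeftRingHom _ (wtc_m0 R)
  rw [← wtc_mul, Ctx.uv, Ctx.uv, h1]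

/-- Minimise `ζ = n η + id` for large `n`. -/
theorem le_of_ext [Algebra C.k R] (s0 : C.Fn R lam) {η : C.I → ℤ} (h1 : ∀ a, η a.rev = - η a)
    (h2 : ∀ a b, C.blk a = C.blk b → (C.lo a ↔ C.lo b) → a < b → η a ≤ η b) (c₀ : ℤ)
    (H : ∀ (ν : C.I → ℤ) (ε : C.RL →ₗ[C.k] C.k), IsExt s0 ν → wtc_ct ε (uv s0 ν) ≠ 0 →
      c₀ ≤ ∑ c, ν c * η c) {μ : C.I → ℤ} (hμ : IsWt s0 μ) : c₀ ≤ ∑ c, μ c * η c := by
  obtain ⟨μ₀, -, hμ₀⟩ := Set.exists_min_image _ (fun ν : C.I → ℤ => ∑ c, ν c * (c.val : ℤ))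
    (finite_wt s0) ⟨μ, hμ⟩
  obtain ⟨n, hn⟩ : ∃ n : ℤ, n = ∑ c, μ c * (c.val : ℤ) - ∑ c, μ₀ c * (c.val : ℤ) + 1 := ⟨_, rfl⟩
  have n0 : 0 ≤ n := by
    have := hμ₀ μ hμ
    omega
  have hζ : IsReg fun a : C.I => n * η a + (a.val : ℤ) := by
    refine ⟨⟨(C.g + C.g : ℕ) - 1, fun a => ?_⟩, fun a b hb hl hab => ?_⟩
    · have h3 := a.isLt
      have h4 : (a.rev.val : ℤ) = (C.g + C.g : ℕ) - 1 - a.val := by
        rw [Fin.val_rev]
        omega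
      simp only [h1, h4]
      ring
    · have h3 := mul_le_mul_of_nonneg_left (h2 a b hb hl hab) n0
      have h4 : a.val < b.val := hab
      simp only
      omega
  obtain ⟨ν, hν, hmin⟩ := Set.exists_min_image _
    (fun ν : C.I → ℤ => ∑ c, ν c * (n * η c + (c.val : ℤ))) (finite_wt s0) ⟨μ, hμ⟩
  obtain ⟨ε, hε⟩ := wtc_exists ((isWt_iff s0 ν).1 hν)
  have h3 := H ν ε (isExt_of_min s0 hζ hmin) hε
  have e : ∀ ν : C.I → ℤ, ∑ c, ν c * (n * η c + (c.val : ℤ)) =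
      n * ∑ c, ν c * η c + ∑ c, ν c * (c.val : ℤ) := fun ν => by
    rw [Finset.mul_sum, ← Finset.sum_add_distrib]
    exact Finset.sum_congr rfl fun c _ => by ring
  have h4 := hmin μ hμ
  have h5 := hμ₀ ν hν
  simp only [e] at h4 h5
  by_contra h6
  have h7 := mul_le_mul_of_nonneg_left (show ∑ c, μ c * η c + 1 ≤ ∑ c, ν c * η c by omega) n0
  rw [mul_add] at h7
  omega

/-- `s` is homogeneous of degree `n` for the cocharacter `ξ` -/
def IsHom (s : C.Fn R lam) (ξ : C.I → ℤ) (n : ℤ) : Prop :=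
  ∀ (S : Type) [CommRing S] (ρ : R →+* S) (y : Sˣ) (a : GL C.I S), a ∈ C.P S →
    s.f S ρ ((C.coch ξ y)⁻¹ * a) = (y ^ n : Sˣ) * s.f S ρ a

/-- `c n`, `n ∈ N`, are the homogeneous components of `s` -/
def IsCmp (s : C.Fn R lam) (ξ : C.I → ℤ) (N : Finset ℤ) (c : ℤ → C.Fn R lam) : Prop :=
  ∀ (S : Type) [CommRing S] (ρ : R →+* S) (y : Sˣ) (a : GL C.I S), a ∈ C.P S →
    s.f S ρ ((C.coch ξ y)⁻¹ * a) = ∑ n ∈ N, (y ^ n : Sˣ) * (c n).f S ρ a

theorem wta_coeff_in (x : C.TA S) (r : S) (μ : C.I → ℤ) :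
    (x * C.inTA S r).coeff μ = x.coeff μ * r := by
  rw [wta_inTA, AddMonoidAlgebra.coeff_mul_single_apply, neg_zero, add_zero]

theorem wta_wc_equi (s : C.Fn R lam) (μ : C.I → ℤ) (ξ : R →+* S) {a b : GL C.I S}
    (ha : C.InP a) (hb : C.InB b) : wc s μ S ξ (a * b) * C.chi lam b = wc s μ S ξ a := by
  have h := s.equi (C.TA S) ((C.inTA S).comp ξ) _ _ (mem_P.1 (wta_mem (mem_P.2 ha)))
    (mem_B.1 (Pat.map (C.inTA S) (mem_B.2 hb)))
  rw [chi_mp, mul_assoc, ← map_mul] at h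
  unfold wc wv
  rw [← h, wta_coeff_in]

/-- the sum of the components of `s` with weight in `W` -/
def wta_sum (s : C.Fn R lam) (W : Finset (C.I → ℤ)) : C.Fn R lam where
  f S _ ξ a := ∑ μ ∈ W, wc s μ S ξ a
  nat S S' _ _ h ξ a ha := by
    rw [map_sum]
    exact Finset.sum_congr rfl fun μ _ => wc_nat s μ h ξ (mem_P.2 ha)
  equi S _ ξ a b ha hb := by
    rw [Finset.sum_mul]
    exact Finset.sum_congr rfl fun μ _ => wta_wc_equi s μ ξ ha hb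

theorem wta_sum_f (s : C.Fn R lam) (W : Finset (C.I → ℤ)) (ξ : R →+* S) (a : GL C.I S) :
    (wta_sum s W).f S ξ a = ∑ μ ∈ W, wc s μ S ξ a := rfl

theorem wta_T_comm {x y : GL C.I S} (hx : x ∈ C.T S) (hy : y ∈ C.T S) : x * y = y * x :=
  wta_T_ext (mul_mem hx hy) (mul_mem hy hx) fun a => by
    rw [B.mul_diag (T_le hx) (T_le hy), B.mul_diag (T_le hy) (T_le hx), mul_comm]

/-- translating by `x δ` with `δ` in the torus -/
theorem wta_wc_tr_T (s : C.Fn R lam) (ν : C.I → ℤ) {x δ : GL C.I R} (hx : x ∈ C.P R)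
    (hδ : δ ∈ C.T R) (hxδ : x * δ ∈ C.P R) (ι : R →+* S) {a : GL C.I S} (ha : a ∈ C.P S) :
    ι (C.chi ν δ) * wc (s.tr (x * δ) hxδ) ν S ι a = wc (s.tr x hx) ν S ι a := by
  have hδ' : C.mp ι δ ∈ C.T S := Pat.map ι hδ
  have h1 := wc_torus (s.tr x hx) ν ι hδ' (mul_mem (T_le hδ') ha)
  rw [inv_mul_cancel_left, chi_mp] at h1
  have h2 : wv (s.tr (x * δ) hxδ) S ι a = wv (s.tr x hx) S ι (C.mp ι δ * a) := by
    have h3 := wta_T_comm (Pat.map (C.inTA S) hδ') (inv_mem (tu_mem S))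
    change s.f (C.TA S) ((C.inTA S).comp ι) (C.mp ((C.inTA S).comp ι) (x * δ) *
        ((C.tu S)⁻¹ * C.mp (C.inTA S) a)) =
      s.f (C.TA S) ((C.inTA S).comp ι) (C.mp ((C.inTA S).comp ι) x *
        ((C.tu S)⁻¹ * C.mp (C.inTA S) (C.mp ι δ * a)))
    rw [map_mul, map_mul, ← mul_assoc (C.tu S)⁻¹, ← h3, C.mp_comp ι (C.inTA S) δ]
    simp only [mul_assoc]
  rw [h1]
  unfold wc
  rw [h2]

/-- translating by `ξ(y)⁻¹ κ` -/
theorem wta_wc_cmp {S'' : Type} [CommRing S''] (ρ : R →+* S) {s : C.Fn R lam} {ξ : C.I → ℤ}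
    {N : Finset ℤ} {c : ℤ → C.Fn R lam} (hc : IsCmp s ξ N c) (y : Sˣ) {κ : GL C.I R}
    (hκ : κ ∈ C.P R) (hx : (C.coch ξ y)⁻¹ * C.mp ρ κ ∈ C.P S) (ν : C.I → ℤ) (ι : S →+* S'')
    {a : GL C.I S''} (ha : a ∈ C.P S'') :
    wc ((s.pull ρ).tr _ hx) ν S'' ι a =
      ∑ n ∈ N, wc ((c n).tr κ hκ) ν S'' (ι.comp ρ) a * ι (y ^ n : Sˣ) := by
  have h1 := hc (C.TA S'') (((C.inTA S'').comp ι).comp ρ)
    (Units.map (((C.inTA S'').comp ι : S →+* C.TA S'') : S →* C.TA S'') y) _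
    (mul_mem (Pat.map (((C.inTA S'').comp ι).comp ρ) hκ) (wta_mem ha))
  have h2 : wv ((s.pull ρ).tr _ hx) S'' ι a =
      ∑ n ∈ N, wv ((c n).tr κ hκ) S'' (ι.comp ρ) a * C.inTA S'' (ι (y ^ n : Sˣ)) := by
    change s.f (C.TA S'') (((C.inTA S'').comp ι).comp ρ) (C.mp ((C.inTA S'').comp ι)
      ((C.coch ξ y)⁻¹ * C.mp ρ κ) * ((C.tu S'')⁻¹ * C.mp (C.inTA S'') a)) = _
    rw [map_mul, map_inv, coch_mp, ← C.mp_comp, mul_assoc, h1]
    refine Finset.sum_congr rfl fun n _ => ?_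
    rw [mul_comm, ← map_zpow]
    rfl
  unfold wc
  rw [h2, AddMonoidAlgebra.coeff_sum, Finsupp.finsetSum_apply]
  exact Finset.sum_congr rfl fun n _ => wta_coeff_in _ _ _

/-- WTA.  `c n` is the sum of the components `wc s μ` over the weights `μ` with `∑ μ ξ = n`
(`finite_wt`, `f_eq_sum`, `wc_torus`, `chi_coch`); keep the `n` with `c n` non-zero. -/
theorem exists_cmp [Algebra C.k R] (s : C.Fn R lam) {ξ : C.I → ℤ} (hξ : ∀ a, ξ a.rev = - ξ a) :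
    ∃ (N : Finset ℤ) (c : ℤ → C.Fn R lam), IsCmp s ξ N c ∧
      ∀ n ∈ N, (c n).Nonzero ∧ IsHom (c n) ξ n := by
  classical
  obtain ⟨W, hW⟩ : ∃ W : Finset (C.I → ℤ), ∀ μ, μ ∉ W → ¬ IsWt s μ :=
    ⟨(finite_wt s).toFinset, fun μ hμ h => hμ ((Set.Finite.mem_toFinset _).2 h)⟩
  obtain ⟨d, hd⟩ : ∃ d : (C.I → ℤ) → ℤ, ∀ μ, d μ = ∑ c, μ c * ξ c := ⟨_, fun _ => rfl⟩
  refine ⟨(W.image d).filter fun n => (wta_sum s (W.filter fun μ => d μ = n)).Nonzero,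
    fun n => wta_sum s (W.filter fun μ => d μ = n), ?_, fun n hn => ⟨(Finset.mem_filter.1 hn).2, ?_⟩⟩
  · intro S _ ρ y a ha
    rw [f_eq_sum s ρ (coch_mem hξ y) ha W fun μ hμ => by
      by_contra h
      exact hW μ hμ ⟨S, inferInstance, ρ, a, ha, h⟩]
    rw [Finset.sum_filter_of_ne fun n _ h =>
      ⟨S, inferInstance, ρ, a, mem_P.1 ha, right_ne_zero_of_mul h⟩,
      ← Finset.sum_fiberwise_of_maps_to (fun μ hμ => Finset.mem_image_of_mem d hμ)]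
    refine Finset.sum_congr rfl fun n _ => ?_
    rw [wta_sum_f, Finset.mul_sum]
    refine Finset.sum_congr rfl fun μ hμ => ?_
    rw [chi_coch hξ, ← hd, (Finset.mem_filter.1 hμ).2]
  · intro S _ ρ y a ha
    rw [wta_sum_f, wta_sum_f, Finset.mul_sum]
    refine Finset.sum_congr rfl fun μ hμ => ?_
    rw [wc_torus s μ ρ (coch_mem hξ y) ha, chi_coch hξ, ← hd, (Finset.mem_filter.1 hμ).2]

variable (C) in
/-- `κ_γ = γ u(1) wI` -/
def kg (β : C.Sp) (γ : GL C.I C.k) : GL C.I C.k := γ * C.uf β 1 * C.pm C.k C.wI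

theorem kg_mem {β : C.Sp} (hβ : C.TopQ β) {γ : GL C.I C.k} (hγ : γ ∈ C.Gam) :
    C.kg β γ ∈ C.P C.k :=
  L_le_P (mul_mem (mul_mem hγ.1 (uf_spec hβ 1).1) (pm_mem wI_isWL))

theorem frame_eq_kg [Algebra C.k S] {β : C.Sp} (hβ : C.TopQ β) {ξ : C.I → ℤ} (hξ : C.IsXi ξ)
    {γ : GL C.I C.k} (hγ : γ ∈ C.Gam) (y : Sˣ) : C.ct S γ * C.uf β (y : S) * C.pm S C.wI =
      (C.coch ξ y)⁻¹ * C.ct S (C.kg β γ) * C.coch (fun a => ξ (C.wI a)) y := by
  have h : C.ct S γ = (C.coch ξ y)⁻¹ * C.ct S γ * C.coch ξ y := by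
    rw [mul_assoc, ← coch_comm hξ y hγ, inv_mul_cancel_left]
  have h2 : C.coch (fun a => ξ (C.wI a)) y = (C.pm S C.wI)⁻¹ * C.coch ξ y * C.pm S C.wI := by
    rw [mul_assoc, pm_coch, inv_mul_cancel_left]
  rw [uf_hom hβ hξ, kg, map_mul, map_mul, pm_mp, h2]
  conv_lhs => rw [h]
  group

/-- WTA.  Paper 4, formula (*): `frame_eq_kg`, `wc_torus`, `chi_coch`, `wtc_uv`, `wtc_map`,
`wtc_mul`. -/
theorem star [Algebra C.k R] [Algebra C.k S] (ρ : R →ₐ[C.k] S) {s : C.Fn R lam} {ξ : C.I → ℤ}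
    {N : Finset ℤ} {c : ℤ → C.Fn R lam} (hc : IsCmp s ξ N c) (hξ : C.IsXi ξ) {β : C.Sp}
    (hβ : C.TopQ β) {γ : GL C.I C.k} (hγ : γ ∈ C.Gam) (y : Sˣ) {x : GL C.I S} (hx : x ∈ C.P S)
    (e : x = C.ct S γ * C.uf β (y : S) * C.pm S C.wI) (ν : C.I → ℤ) (ε : C.RL →ₗ[C.k] C.k) :
    wtc_ct ε (uv ((s.pull (ρ : R →+* S)).tr x hx) ν) =
      ∑ n ∈ N, (y ^ (n - ∑ a, ν a * ξ (C.wI a)) : Sˣ) *
        ρ (wtc_ct ε (uv ((c n).tr (C.ct R (C.kg β γ)) (Pat.map _ (kg_mem hβ hγ))) ν)) := by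
  have hξ' : ∀ a, ξ (C.wI a.rev) = - ξ (C.wI a) := fun a => by rw [wI_isWL.1.2, hξ.1]
  have hκ : C.ct R (C.kg β γ) ∈ C.P R := Pat.map _ (kg_mem hβ hγ)
  have hδ := coch_mem (ξ := fun a => ξ (C.wI a)) hξ' y
  rw [frame_eq_kg hβ hξ hγ, ← ma_ct ρ] at e
  subst e
  have hx' : (C.coch ξ y)⁻¹ * C.mp (ρ : R →+* S) (C.ct R (C.kg β γ)) ∈ C.P S :=
    mul_mem (inv_mem (T_le (coch_mem hξ.1 y))) (Pat.map _ hκ)
  have h1 := wta_wc_tr_T (s.pull (ρ : R →+* S)) ν hx' hδ hx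
    Algebra.TensorProduct.includeLeftRingHom (wtc_m0 S)
  rw [wta_wc_cmp (ρ : R →+* S) hc y hκ hx' ν _ (wtc_m0 S), mul_comm,
    chi_coch (ξ := fun a => ξ (C.wI a)) hξ'] at h1
  have h2 := congrArg (wtc_ct ε) h1
  rw [wtc_mul, map_sum] at h2
  refine (Units.isUnit (y ^ ∑ a, ν a * ξ (C.wI a))).mul_right_cancel ?_
  refine h2.trans ?_
  rw [Finset.sum_mul]
  refine Finset.sum_congr rfl fun n _ => ?_
  rw [wtc_mul, ← wtc_uv, wtc_map, mul_right_comm, ← Units.val_mul, ← _root_.zpow_add,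
    sub_add_cancel, mul_comm]

/-- the component of `s0` along `ε` -/
def wtc_val {Ω : Type} [Field Ω] [Algebra C.k Ω] (s0 : C.Fn Ω lam) (ε : Ω →ₗ[C.k] C.k) (S : Type)
    [CommRing S] [Algebra C.k S] (a : GL C.I S) : S :=
  wtc_ct ε (s0.f (S ⊗[C.k] Ω) (wtc_ir C.k S Ω) (C.mp Algebra.TensorProduct.includeLeftRingHom a))

theorem wtc_val_nat {Ω : Type} [Field Ω] [Algebra C.k Ω] (s0 : C.Fn Ω lam) (ε : Ω →ₗ[C.k] C.k)
    [Algebra C.k S] [Algebra C.k S'] (h : S →ₐ[C.k] S') {a : GL C.I S} (ha : C.InP a) :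
    wtc_val s0 ε S' (C.ma h a) = h (wtc_val s0 ε S a) := by
  have h2 := s0.nat _ _ (wtc_bc Ω h) (wtc_ir C.k S Ω) _
    (mem_P.1 (Pat.map Algebra.TensorProduct.includeLeftRingHom (mem_P.2 ha)))
  rw [wtc_bc_right, ← mp_comp, wtc_bc_left, mp_comp] at h2
  rw [wtc_val, wtc_val, h2, wtc_map]

theorem wtc_val_equi {Ω : Type} [Field Ω] [Algebra C.k Ω] (s0 : C.Fn Ω lam) (ε : Ω →ₗ[C.k] C.k)
    [Algebra C.k S] {a b : GL C.I S} (ha : C.InP a) (hb : C.InB b) :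
    wtc_val s0 ε S (a * b) * C.chi lam b = wtc_val s0 ε S a := by
  have h2 := s0.equi (S ⊗[C.k] Ω) (wtc_ir C.k S Ω) _ _
    (mem_P.1 (Pat.map Algebra.TensorProduct.includeLeftRingHom (mem_P.2 ha)))
    (mem_B.1 (Pat.map Algebra.TensorProduct.includeLeftRingHom (mem_B.2 hb)))
  rw [← map_mul, chi_mp] at h2
  rw [wtc_val, wtc_val, ← wtc_mul, h2]

/-- the component as a section over `k` -/
def wtc_fn {Ω : Type} [Field Ω] [Algebra C.k Ω] (s0 : C.Fn Ω lam) (ε : Ω →ₗ[C.k] C.k) :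
    C.Fn C.k lam where
  f S _ ξ a := letI := ξ.toAlgebra; wtc_val s0 ε S a
  nat S S' _ _ h ξ a ha := by
    let _ := ξ.toAlgebra
    let _ := (h.comp ξ).toAlgebra
    exact wtc_val_nat s0 ε (⟨h, fun _ => rfl⟩ : S →ₐ[C.k] S') ha
  equi S _ ξ a b ha hb := by
    let _ := ξ.toAlgebra
    exact wtc_val_equi s0 ε ha hb

theorem wtb2_coeff {Ω : Type} [Field Ω] [Algebra C.k Ω] (s0 : C.Fn Ω lam) (ε : Ω →ₗ[C.k] C.k)
    {T : Type} [CommRing T] [Algebra C.k S] [Algebra C.k T] (i : S →ₐ[C.k] T)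
    (χ : Multiplicative (C.I → ℤ) →* T) (μ : C.I → ℤ) (cf : T →+ S)
    (h1 : ∀ r, cf (i r * χ (Multiplicative.ofAdd μ)) = r)
    (h2 : ∀ r ν, ν ≠ μ → cf (i r * χ (Multiplicative.ofAdd ν)) = 0) {τ : GL C.I T}
    (hτ : τ ∈ C.T T) (h3 : ∀ c, τ.val c c = χ (Multiplicative.ofAdd (C.uw c))) {κ : GL C.I C.k}
    (hκ : κ ∈ C.P C.k) {a : GL C.I S} (ha : a ∈ C.P S) :
    cf (wtc_val s0 ε T (C.ct T κ * (τ⁻¹ * C.ma i a))) =
      wtc_ct ε (wc (s0.tr (C.ct Ω κ) (Pat.map _ hκ)) μ (S ⊗[C.k] Ω) (wtc_ir C.k S Ω)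
        (C.mp Algebra.TensorProduct.includeLeftRingHom a)) := by
  let H : C.TA (S ⊗[C.k] Ω) →+* T ⊗[C.k] Ω :=
    AddMonoidAlgebra.liftNCRingHom (wtc_bc Ω i)
      ((Algebra.TensorProduct.includeLeftRingHom : T →+* T ⊗[C.k] Ω).toMonoidHom.comp χ)
      fun _ _ => Commute.all _ _
  have hH : ∀ ν r, H (AddMonoidAlgebra.single ν r) = wtc_bc Ω i r *
      Algebra.TensorProduct.includeLeftRingHom (χ (Multiplicative.ofAdd ν)) := fun ν r =>
    AddMonoidAlgebra.liftNCRingHom_single _ _ _ _ _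
  have hc : H.comp (C.inTA _) = wtc_bc Ω i := by
    refine RingHom.ext fun r => ?_
    rw [RingHom.comp_apply, wta_inTA, hH, ofAdd_zero, map_one, map_one, mul_one]
  have ht : C.mp H (C.tu _) = C.mp Algebra.TensorProduct.includeLeftRingHom τ := by
    refine wta_T_ext (Pat.map _ (tu_mem _)) (Pat.map _ hτ) fun c => ?_
    rw [mp_val, wta_tu_val, hH, map_one, one_mul, mp_val, h3]
  have e := wta_map_wv (s0.tr (C.ct Ω κ) (Pat.map _ hκ)) (wtc_ir C.k S Ω)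
    (Pat.map Algebra.TensorProduct.includeLeftRingHom ha) H
  rw [hc, ht, wtc_bc_right, ← mp_comp, wtc_bc_left, mp_comp] at e
  have hco : ∀ x, cf (wtc_ct ε (H x)) = wtc_ct ε (x.coeff μ) := by
    classical
    intro x
    induction x using AddMonoidAlgebra.induction_linear with
    | zero => simp
    | add x y hx hy =>
      rw [map_add, map_add, map_add, AddMonoidAlgebra.coeff_add, Finsupp.add_apply, map_add, hx, hy]
    | single ν r =>
      rw [hH, wtc_mul, wtc_map, AddMonoidAlgebra.coeff_single, Finsupp.single_apply]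
      split_ifs with hν
      · rw [hν, h1]
      · rw [h2 _ _ hν, map_zero]
  rw [wc, ← hco, e, wtc_val, map_mul, map_mul, map_inv, ← mp_comp, ← wtc_ir_alg]
  rfl

/-- WTB.  `v = wtc_fn s0 ε` for a `k`-linear form `ε` on `Ω` (old proof:
/team-store/h24z_old_Wt.lean, `exists_descent_fn`). -/
theorem exists_descent_fn {Ω : Type} [Field Ω] [Algebra C.k Ω] (s0 : C.Fn Ω lam)
    (h : s0.Nonzero) : ∃ v : C.Fn C.k lam, v.Nonzero ∧
      (∀ ξ n, (∀ a, ξ a.rev = - ξ a) → IsHom s0 ξ n → IsHom v ξ n) ∧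
      ∀ (κ : GL C.I C.k) (hκ : κ ∈ C.P C.k) (μ : C.I → ℤ), IsWt (v.tr κ hκ) μ →
        IsWt (s0.tr (C.ct Ω κ) (Pat.map _ hκ)) μ := by
  obtain ⟨S₀, _, ξ, a₀, ha₀, h⟩ := h
  let _ : Algebra C.k S₀ := (ξ.comp (algebraMap C.k Ω)).toAlgebra
  have hz : s0.f (S₀ ⊗[C.k] Ω) (wtc_ir C.k S₀ Ω)
      (C.mp Algebra.TensorProduct.includeLeftRingHom a₀) ≠ 0 := fun hz => by
    obtain ⟨m, e1, e2⟩ := wtc_retr (⟨ξ, fun _ => rfl⟩ : Ω →ₐ[C.k] S₀)
    have h2 := s0.nat _ _ m (wtc_ir C.k S₀ Ω) _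
      (mem_P.1 (Pat.map Algebra.TensorProduct.includeLeftRingHom (mem_P.2 ha₀)))
    rw [hz, map_zero, e1, ← mp_comp, e2, mp_id] at h2
    exact h h2
  obtain ⟨ε, hε⟩ := wtc_exists hz
  refine ⟨wtc_fn s0 ε, ⟨S₀, inferInstance, algebraMap C.k S₀, a₀, ha₀, hε⟩,
    fun ζ n _ hh S _ ρ y a ha => ?_, ?_⟩
  · let _ : Algebra C.k S := ρ.toAlgebra
    have h1 := hh (S ⊗[C.k] Ω) (wtc_ir C.k S Ω) (Units.map
      ((Algebra.TensorProduct.includeLeftRingHom : S →+* S ⊗[C.k] Ω) : S →* S ⊗[C.k] Ω) y) _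
      (Pat.map Algebra.TensorProduct.includeLeftRingHom ha)
    change wtc_val s0 ε S _ = _ * wtc_val s0 ε S a
    rw [wtc_val, wtc_val, map_mul, map_inv, coch_mp, h1, ← map_zpow, Units.coe_map, mul_comm,
      mul_comm _ (wtc_ct ε _), ← wtc_mul]
    rfl
  · rintro κ hκ μ ⟨S, _, ρ, a, ha, hne⟩
    let _ : Algebra C.k S := ρ.toAlgebra
    refine ⟨S ⊗[C.k] Ω, inferInstance, wtc_ir C.k S Ω, _,
      Pat.map Algebra.TensorProduct.includeLeftRingHom ha, fun h0 => hne ?_⟩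
    let iT : Algebra C.k (C.TA S) := ((C.inTA S).comp ρ).toAlgebra
    let cf : C.TA S →+ S :=
      { toFun := fun x => x.coeff μ
        map_zero' := by simp
        map_add' := fun x y => by rw [AddMonoidAlgebra.coeff_add, Finsupp.add_apply] }
    have hs : ∀ r ν, C.inTA S r * AddMonoidAlgebra.of S (C.I → ℤ) (Multiplicative.ofAdd ν) =
        AddMonoidAlgebra.single ν r := fun r ν => by
      rw [wta_inTA, AddMonoidAlgebra.of_apply, AddMonoidAlgebra.single_mul_single, zero_add,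
        mul_one, toAdd_ofAdd]
    have key := @wtb2_coeff C lam S _ Ω _ _ s0 ε (C.TA S) _ _ iT ⟨C.inTA S, fun _ => rfl⟩
      (AddMonoidAlgebra.of S (C.I → ℤ)) μ cf
      (fun r => (congrArg cf (hs r μ)).trans (by
        change (AddMonoidAlgebra.single μ r).coeff μ = r
        rw [AddMonoidAlgebra.coeff_single, Finsupp.single_eq_same]))
      (fun r ν hν => (congrArg cf (hs r ν)).trans (by
        change (AddMonoidAlgebra.single ν r).coeff μ = 0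
        rw [AddMonoidAlgebra.coeff_single, Finsupp.single_eq_of_ne hν.symm]))
      _ (tu_mem S) (fun c => wta_tu_val c) κ hκ a ha
    rw [h0, map_zero] at key
    exact key

/-- integrality along the test curves -/
def TInt (v : C.Fn C.k lam) : Prop :=
  ∀ (β : C.Sp) (M : ℕ) (η : C.I → ℤ), C.TopQ β → C.IsEta β.i β.j M η → ∀ γ ∈ C.Gam,
    ∀ (S S' : Type) [CommRing S] [CommRing S'] [Algebra C.k S] [Algebra C.k S'] (j : S →ₐ[C.k] S')
      (τ : S) (t : S'ˣ), j τ = t → ∀ a ∈ C.P S,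
      v.f S' (algebraMap C.k S') (C.ct S' γ * ((C.tx β M η t)⁻¹ * C.ma j a)) ∈ j.range

/-- WTB.  Paper 4, test curve.  With `y = - t ^ (-yb)`, `ξ' = ξ ∘ wI`, `η' = η ∘ wI`: by `f_lev`,
`tx_spec`, `frame_eq_kg`, `pm_coch` the value is `v (ξ(y)⁻¹ κ (η'(t) ξ'(y)⁻¹)⁻¹ (wI⁻¹ a))`; use `IsHom`,
`f_eq_sum` for `v.tr κ`, `chi_coch`, `wc_nat`. -/
theorem tInt_of {v : C.Fn C.k lam} {ξ : C.I → ℤ} (hξ : C.IsXi ξ) {n₀ : ℤ} (h : IsHom v ξ n₀)
    (H : ∀ (β : C.Sp) (M : ℕ) (η : C.I → ℤ) (hβ : C.TopQ β), C.IsEta β.i β.j M η →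
      ∀ (γ : GL C.I C.k) (hγ : γ ∈ C.Gam) (μ : C.I → ℤ), IsWt (v.tr _ (kg_mem hβ hγ)) μ →
        yb β M η * n₀ ≤ ∑ c, μ c * (η (C.wI c) + yb β M η * ξ (C.wI c))) : TInt v := by
  intro β M η hβ hη γ hγ S S' _ _ _ _ j τ t hτ a ha
  obtain ⟨hE, hl⟩ := tx_spec hβ hη t
  generalize hy : (-t ^ (-yb β M η) : S'ˣ) = y at hl
  have hw := (wI_isWL (C := C)).1.2
  have a1 : ∀ c : C.I, (fun c => η (C.wI c)) c.rev = - (fun c => η (C.wI c)) c := fun c => by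
    simp only [hw, hη.rev β.ne]
  have a2 : ∀ c : C.I, (fun c => ξ (C.wI c)) c.rev = - (fun c => ξ (C.wI c)) c := fun c => by
    simp only [hw, hξ.1]
  have m1 := coch_mem (ξ := fun c => η (C.wI c)) a1 t
  have m2 := coch_mem (ξ := fun c => ξ (C.wI c)) a2 y
  have hδ := mul_mem m1 (inv_mem m2)
  have hκ := kg_mem hβ hγ
  have hγ' : C.ct S' γ ∈ C.L S' := Pat.map _ hγ.1
  have ha' : C.ma j a ∈ C.P S' := Pat.map _ ha
  have hx : C.lev (C.tx β M η t) ∈ C.L S' := lev_mem (Or.inl hE.memP)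
  have h0 : (C.pm S C.wI)⁻¹ * a ∈ C.P S := mul_mem (inv_mem (L_le_P (pm_mem wI_isWL))) ha
  have h0' : C.ma j ((C.pm S C.wI)⁻¹ * a) ∈ C.P S' := Pat.map _ h0
  have e1 : v.f S' (algebraMap C.k S') (C.ct S' γ * ((C.tx β M η t)⁻¹ * C.ma j a)) =
      v.f S' (algebraMap C.k S') (C.ct S' γ * ((C.lev (C.tx β M η t))⁻¹ * C.ma j a)) := by
    have p1 := mul_mem (inv_mem hE.memP) ha'
    have p2 := mul_mem (inv_mem (L_le_P hx)) ha'
    rw [← v.f_lev _ (mul_mem (L_le_P hγ') p1), ← v.f_lev _ (mul_mem (L_le_P hγ') p2),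
      lev_mul_P (L_le_P hγ') p1, lev_mul_P (L_le_P hγ') p2, lev_mul_P (inv_mem hE.memP) ha',
      lev_mul_P (inv_mem (L_le_P hx)) ha', lev_of_L (inv_mem hx), lev_inv (Or.inl hE.memP)]
  have e2 : C.ct S' γ * ((C.lev (C.tx β M η t))⁻¹ * C.ma j a) =
      (C.coch ξ y)⁻¹ * (C.ct S' (C.kg β γ) * ((C.coch (fun c => η (C.wI c)) t *
        (C.coch (fun c => ξ (C.wI c)) y)⁻¹)⁻¹ * C.ma j ((C.pm S C.wI)⁻¹ * a))) := by
    have f1 := frame_eq_kg hβ hξ hγ y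
    have f2 : C.coch (fun c => η (C.wI c)) t = (C.pm S' C.wI)⁻¹ * C.coch η t * C.pm S' C.wI := by
      rw [mul_assoc, pm_coch, inv_mul_cancel_left]
    have f3 : C.ct S' γ = (C.coch ξ y)⁻¹ * C.ct S' (C.kg β γ) * C.coch (fun c => ξ (C.wI c)) y *
        (C.pm S' C.wI)⁻¹ * (C.uf β (y : S'))⁻¹ := by
      rw [← f1]
      group
    rw [hl, map_mul, map_inv, pm_mp, f2, f3]
    group
  have e3 := f_eq_sum (v.tr _ hκ) (algebraMap C.k S') hδ h0' (finite_wt (v.tr _ hκ)).toFinset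
    fun μ hμ => by
      by_contra hne
      exact hμ ((Set.Finite.mem_toFinset _).2 ⟨S', inferInstance, _, _, h0', hne⟩)
  rw [e1, e2, h S' _ y _ (mul_mem (Pat.map _ hκ) (mul_mem (T_le (inv_mem hδ)) h0'))]
  change _ * (v.tr _ hκ).f S' (algebraMap C.k S') _ ∈ _
  rw [e3, Finset.mul_sum]
  refine sum_mem fun μ hμ => ?_
  rw [← mul_assoc]
  refine mul_mem ?_ ?_
  · obtain ⟨e, he⟩ := Int.eq_ofNat_of_zero_le
      (sub_nonneg.2 (H β M η hβ hη γ hγ μ ((finite_wt (v.tr _ hκ)).mem_toFinset.1 hμ)))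
    have c1 := chi_mul μ (T_le hδ) (T_le m2)
    rw [inv_mul_cancel_right, chi_coch (ξ := fun c => η (C.wI c)) a1,
      chi_coch (ξ := fun c => ξ (C.wI c)) a2] at c1
    have c2 : C.chi μ (C.coch (fun c => η (C.wI c)) t * (C.coch (fun c => ξ (C.wI c)) y)⁻¹) =
        (t ^ (∑ c, μ c * η (C.wI c)) * (y ^ ∑ c, μ c * ξ (C.wI c))⁻¹ : S'ˣ) := by
      rw [Units.val_mul, c1, Units.mul_inv_cancel_right]
    have c3 : ∑ c, μ c * (η (C.wI c) + yb β M η * ξ (C.wI c)) =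
        ∑ c, μ c * η (C.wI c) + yb β M η * ∑ c, μ c * ξ (C.wI c) := by
      rw [Finset.mul_sum, ← Finset.sum_add_distrib]
      exact Finset.sum_congr rfl fun c _ => by ring
    rw [c3] at he
    rw [c2, ← Units.val_mul]
    generalize ∑ c, μ c * η (C.wI c) = A at he ⊢
    generalize ∑ c, μ c * ξ (C.wI c) = B at he ⊢
    have c4 : y ^ n₀ * (t ^ A * (y ^ B)⁻¹) = (-1) ^ (n₀ - B) * t ^ e := by
      rw [mul_comm (t ^ A), ← mul_assoc, ← _root_.zpow_sub, ← hy, neg_eq_neg_one_mul, mul_zpow,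
        ← _root_.zpow_mul, mul_assoc, ← _root_.zpow_add, ← zpow_natCast, ← he]
      congr 2
      ring
    rw [c4, Units.val_mul, Units.val_pow_eq_pow_val, ← hτ]
    refine mul_mem ?_ (pow_mem (j.mem_range_self τ) _)
    rcases Int.even_or_odd (n₀ - B) with h1 | h1
    · rw [h1.neg_one_zpow]
      exact one_mem _
    · rw [h1.neg_one_zpow]
      exact neg_mem (one_mem _)
  · have h1 := wc_nat (v.tr _ hκ) μ (j : S →+* S') (algebraMap C.k S) h0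
    rw [AlgHom.comp_algebraMap] at h1
    exact ⟨_, h1.symm⟩

theorem wtc_zero {R' : Type} [CommRing R'] (s : C.Fn R lam) (μ : C.I → ℤ) (j : R →+* R')
    (h : ∀ (S : Type) [CommRing S] (ρ : R' →+* S) (a : GL C.I S), a ∈ C.P S →
      s.f S (ρ.comp j) a = 0) (ξ : R' →+* S) {a : GL C.I S} (ha : a ∈ C.P S) :
    wc s μ S (ξ.comp j) a = 0 := by
  unfold wc wv
  rw [← RingHom.comp_assoc, h _ _ _ (wtc_mem ha)]
  rfl

/-- a section that is non-zero on a chart is generically non-zero -/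
theorem Atlas.Sec.nonzero {𝒜 : C.Atlas} (s : 𝒜.Sec lam) : s.s0.Nonzero := by
  obtain ⟨i, hi⟩ := s.ne
  obtain ⟨μ, hμ⟩ := exists_wt _ hi
  obtain ⟨ε, hε⟩ := wtc_exists ((isWt_iff _ μ).1 hμ)
  by_contra hne
  refine hε (𝒜.inj i ?_)
  rw [← wtc_map, wtc_uv, wtc_zero (s.s i) μ (𝒜.e i : 𝒜.A i →+* 𝒜.Ω) (fun S _ ρ a ha => ?_) _
    (wtc_m0 _), map_zero, map_zero]
  have h1 := mul_mem (inv_mem (Pat.map ρ (𝒜.xy i).memP)) ha
  have h2 := s.compat i S ρ _ h1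
  rw [mul_inv_cancel_left] at h2
  rw [h2]
  by_contra h3
  exact hne ⟨S, inferInstance, ρ, _, mem_P.1 h1, h3⟩

end Ctx

end Pool.Agent.MP_b8b722_ag

end

end partWt

section partExt

/-!
The norm construction of sections on the stack of zips and their extension.
-/

set_option linter.unusedSectionVars false
set_option linter.unusedVariables false

open Matrix TensorProduct

noncomputable section

namespace Pool.Agent.MP_b8b722_ag

namespace Ctx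

variable {C : Ctx} {lam : C.I → ℤ} {S S' : Type} [CommRing S] [CommRing S'] [Algebra C.k S]
  [Algebra C.k S']

instance : Fintype C.Gam := Fintype.ofFinite _

/-- the norm `∏_γ v (γ m⁻¹ a)` -/
def nm (v : C.Fn C.k lam) (m a : GL C.I S) : S :=
  ∏ γ : C.Gam, v.f S (algebraMap C.k S) (C.ct S γ.1 * (m⁻¹ * a))

theorem zipa_ma_comp {S'' : Type} [CommRing S''] [Algebra C.k S''] (f : S →ₐ[C.k] S')
    (f' : S' →ₐ[C.k] S'') (x : GL C.I S) : C.ma f' (C.ma f x) = C.ma (f'.comp f) x := rfl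

theorem nm_nat (v : C.Fn C.k lam) (f : S →ₐ[C.k] S') {m a : GL C.I S} (hm : m ∈ C.P S)
    (ha : a ∈ C.P S) : nm v (C.ma f m) (C.ma f a) = f (nm v m a) := by
  unfold nm
  rw [map_prod]
  refine Finset.prod_congr rfl fun γ _ => ?_
  have h := v.nat S S' (f : S →+* S') (algebraMap C.k S)
    (C.ct S γ.1 * (m⁻¹ * a))
    (mem_P.1 (mul_mem (Pat.map _ (L_le_P γ.2.1)) (mul_mem (inv_mem hm) ha)))
  rw [AlgHom.comp_algebraMap, map_mul, map_mul, map_inv] at h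
  rw [← ma_ct f]
  exact h

theorem nm_lev (v : C.Fn C.k lam) {m a : GL C.I S} (hm : m ∈ C.P S) (ha : a ∈ C.P S) :
    nm v m (C.lev a) = nm v m a := by
  unfold nm
  refine Finset.prod_congr rfl fun γ _ => ?_
  have hx : C.ct S γ.1 * m⁻¹ ∈ C.P S := mul_mem (Pat.map _ (L_le_P γ.2.1)) (inv_mem hm)
  have hl := lev_mem (Or.inl ha)
  rw [← mul_assoc, ← mul_assoc, ← v.f_lev _ (mul_mem hx ha), ← v.f_lev _ (mul_mem hx (L_le_P hl)),
    lev_mul_P hx ha, lev_mul_P hx (L_le_P hl), lev_of_L hl]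

theorem nm_mul (v : C.Fn C.k lam) (x m a : GL C.I S) : nm v (x * m) a = nm v m (x⁻¹ * a) := by
  simp only [nm, _root_.mul_inv_rev, mul_assoc]

theorem nm_equi (v : C.Fn C.k lam) {m a b : GL C.I S} (hm : m ∈ C.P S) (ha : a ∈ C.P S)
    (hb : b ∈ C.B S) :
    nm v m (a * b) * C.chi (Fintype.card C.Gam • lam) b = nm v m a := by
  unfold nm
  rw [chi_nsmul _ _ hb, ← Finset.card_univ, ← Finset.prod_const, ← Finset.prod_mul_distrib]
  refine Finset.prod_congr rfl fun γ _ => ?_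
  rw [← mul_assoc m⁻¹, ← mul_assoc _ _ b]
  exact v.equi S _ _ b
    (mem_P.1 (mul_mem (Pat.map _ (L_le_P γ.2.1)) (mul_mem (inv_mem hm) ha))) (mem_B.1 hb)

theorem nm_gam (v : C.Fn C.k lam) (m a : GL C.I S) {γ : GL C.I C.k} (hγ : γ ∈ C.Gam) :
    nm v (m * C.ct S γ) a = nm v m a := by
  unfold nm
  refine Fintype.prod_equiv (Equiv.mulRight (⟨γ, hγ⟩ : C.Gam)⁻¹) _ _ fun δ => ?_
  rw [Equiv.coe_mulRight, Subgroup.coe_mul, Subgroup.coe_inv, map_mul, map_inv,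
    _root_.mul_inv_rev, mul_assoc, mul_assoc]

theorem nm_ne (v : C.Fn C.k lam) (hv : v.Nonzero) : nm v (1 : GL C.I C.RL) C.m0 ≠ 0 := by
  obtain ⟨S, _, ξ, a, ha, hne⟩ := hv
  replace ha := mem_P.2 ha
  let _ : Algebra C.k S := ξ.toAlgebra
  unfold nm
  refine Finset.prod_ne_zero_iff.2 fun γ _ h0 => hne ?_
  have hl : (C.ct S γ.1)⁻¹ * C.lev a ∈ C.L S :=
    mul_mem (inv_mem (Pat.map _ γ.2.1)) (lev_mem (Or.inl ha))
  obtain ⟨ρ, hρ⟩ := exists_evL hl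
  have h := v.nat C.RL S (ρ : C.RL →+* S) (algebraMap C.k C.RL)
    (C.ct C.RL γ.1 * (1⁻¹ * C.m0))
    (mem_P.1 (mul_mem (Pat.map _ (L_le_P γ.2.1)) (mul_mem (inv_mem (one_mem _)) (L_le_P m0_mem))))
  rw [h0, map_zero, AlgHom.comp_algebraMap, inv_one, one_mul, map_mul] at h
  rw [← v.f_lev ξ ha, ← h]
  change _ = v.f S _ (C.ma ρ (C.ct C.RL γ.1) * C.ma ρ C.m0)
  rw [ma_ct, hρ, mul_inv_cancel_left]
  rfl

/-- evaluation of a function on a product -/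
def ev2 {A : Type} [CommRing A] [Algebra C.k A] (ρ : A →ₐ[C.k] S) (a : GL C.I S) :
    A ⊗[C.k] C.RL →ₐ[C.k] S :=
  Algebra.TensorProduct.lift ρ (C.evL a) fun _ _ => Commute.all _ _

theorem zipa_ev2_left {A : Type} [CommRing A] [Algebra C.k A] (ρ : A →ₐ[C.k] S) (a : GL C.I S) :
    (ev2 ρ a).comp Algebra.TensorProduct.includeLeft = ρ :=
  Algebra.TensorProduct.lift_comp_includeLeft _ _ _

theorem zipa_ev2_right {A : Type} [CommRing A] [Algebra C.k A] (ρ : A →ₐ[C.k] S) (a : GL C.I S) :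
    (ev2 ρ a).comp Algebra.TensorProduct.includeRight = C.evL a :=
  Algebra.TensorProduct.lift_comp_includeRight' _ _ _

theorem zipa_ev2_map {A A' : Type} [CommRing A] [Algebra C.k A] [CommRing A'] [Algebra C.k A']
    (ψ : A →ₐ[C.k] A') (ρ : A' →ₐ[C.k] S) (a : GL C.I S) (F : A ⊗[C.k] C.RL) :
    ev2 ρ a (Algebra.TensorProduct.map ψ (AlgHom.id C.k C.RL) F) = ev2 (ρ.comp ψ) a F := by
  induction F using TensorProduct.induction_on with
  | zero => rw [map_zero, map_zero, map_zero]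
  | tmul x y => rfl
  | add x y hx hy => rw [map_add, map_add, map_add, hx, hy]

theorem zipb_ev2 {A : Type} [CommRing A] [Algebra C.k A] (ρ : A →ₐ[C.k] S) (z : A ⊗[C.k] C.RL) :
    ev2 ((Algebra.TensorProduct.includeLeft : S →ₐ[C.k] S ⊗[C.k] C.RL).comp ρ)
        (C.ma (Algebra.TensorProduct.includeRight : C.RL →ₐ[C.k] S ⊗[C.k] C.RL) C.m0) z =
      Algebra.TensorProduct.map ρ (AlgHom.id C.k C.RL) z := by
  have h : C.evL (C.ma (Algebra.TensorProduct.includeRight : C.RL →ₐ[C.k] S ⊗[C.k] C.RL) C.m0) =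
      Algebra.TensorProduct.includeRight := by
    rw [← evL_comp _ (L_le_P m0_mem), evL_self, AlgHom.comp_id]
  induction z using TensorProduct.induction_on with
  | zero => simp only [map_zero]
  | tmul a b =>
    rw [ev2, Algebra.TensorProduct.lift_tmul, h, Algebra.TensorProduct.map_tmul]
    simp only [AlgHom.comp_apply, Algebra.TensorProduct.includeLeft_apply,
      Algebra.TensorProduct.includeRight_apply, Algebra.TensorProduct.tmul_mul_tmul, mul_one,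
      one_mul, AlgHom.coe_id, id_eq]
  | add x y hx hy => simp only [map_add, hx, hy]

theorem ev2_nat {A : Type} [CommRing A] [Algebra C.k A] (f : S →ₐ[C.k] S') (ρ : A →ₐ[C.k] S)
    {a : GL C.I S} (ha : a ∈ C.P S) (F : A ⊗[C.k] C.RL) :
    ev2 (f.comp ρ) (C.ma f a) F = f (ev2 ρ a F) := by
  induction F using TensorProduct.induction_on with
  | zero => rw [map_zero, map_zero, map_zero]
  | tmul x y =>
    change f (ρ x) * C.evL (C.ma f a) y = f (ρ x * C.evL a y)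
    rw [map_mul, ← evL_comp f ha]
    rfl
  | add x y hx hy => rw [map_add, map_add, map_add, hx, hy]

/-- the two factors -/
abbrev iL (A : Type) [CommRing A] [Algebra C.k A] : A →ₐ[C.k] A ⊗[C.k] C.RL :=
  Algebra.TensorProduct.includeLeft

abbrev iR (A : Type) [CommRing A] [Algebra C.k A] : C.RL →ₐ[C.k] A ⊗[C.k] C.RL :=
  Algebra.TensorProduct.includeRight

section Rel

variable (𝒢 : C.UR C.rG) (ℰ : C.VE)

theorem E.mem_G {x y : GL C.I S} (h : C.E x y) {n : GL C.I S} (hn : n ∈ C.G S) :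
    x * n * y⁻¹ ∈ C.G S := mul_mem (mul_mem (Pat.le_G h.memP) hn) (inv_mem (Pat.le_G h.memQ))

theorem E.mem_G' {x y : GL C.I S} (h : C.E x y) : x * y⁻¹ ∈ C.G S :=
  mul_mem (Pat.le_G h.memP) (inv_mem (Pat.le_G h.memQ))

/-- the orbit map of `1` -/
def o1 : 𝒢.R →ₐ[C.k] ℰ.R := 𝒢.ev (ℰ.x * ℰ.y⁻¹)

/-- the orbit map of `n` -/
def ob (n : GL C.I C.k) : 𝒢.R →ₐ[C.k] ℰ.R := 𝒢.ev (ℰ.x * C.ct ℰ.R n * ℰ.y⁻¹)

theorem comp_o1 (ρ : ℰ.R →ₐ[C.k] S) :
    ρ.comp (o1 𝒢 ℰ) = 𝒢.ev (C.ma ρ ℰ.x * (C.ma ρ ℰ.y)⁻¹) := by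
  rw [o1, 𝒢.ev_comp _ ℰ.he.mem_G', map_mul, map_inv]

theorem comp_ob {n : GL C.I C.k} (hn : n ∈ C.G C.k) (ρ : ℰ.R →ₐ[C.k] S) :
    ρ.comp (ob 𝒢 ℰ n) = 𝒢.ev (C.ma ρ ℰ.x * C.ct S n * (C.ma ρ ℰ.y)⁻¹) := by
  rw [ob, 𝒢.ev_comp _ (ℰ.he.mem_G (Pat.map _ hn)), map_mul, map_mul, map_inv, ma_ct]

/-- the generic point of `G` -/
theorem UR.gen {Ω : Type} [Field Ω] [Algebra C.k Ω] [IsAlgClosed Ω] (e : 𝒢.R →ₐ[C.k] Ω)
    (he : Function.Injective e) : ∃ x y u b, C.E x y ∧ C.ma e 𝒢.m = x * y⁻¹ ∧ u ∈ C.L Ω ∧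
      u ∈ C.B Ω ∧ b ∈ C.U Ω ∧ C.lev x = u * b :=
  gen_triv 𝒢.mem (𝒢.ev 1) (𝒢.ev_m (one_mem _)) e he

theorem o1_inj : Function.Injective (o1 𝒢 ℰ) := by
  obtain ⟨Ω, _, _, _, e, he, -⟩ := exists_closure C.k 𝒢.R
  obtain ⟨x, y, -, -, h1, h2, -⟩ := 𝒢.gen e he
  obtain ⟨ρ, r1, r2⟩ := ℰ.lift Ω x y h1
  have h3 := comp_o1 𝒢 ℰ ρ
  rw [r1, r2, ← h2, 𝒢.ev_ma] at h3
  rw [← h3] at he
  exact Function.Injective.of_comp he

/-- `F (x y⁻¹, a) = d (x y⁻¹) N(x, a) ^ q` -/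
def Adm (v : C.Fn C.k lam) (q : ℕ) (d : 𝒢.R) (F : 𝒢.R ⊗[C.k] C.RL) : Prop :=
  ∀ (S : Type) [CommRing S] [Algebra C.k S] (x y a : GL C.I S), C.E x y → a ∈ C.P S →
    ev2 (𝒢.ev (x * y⁻¹)) a F = 𝒢.ev (x * y⁻¹) d * nm v x a ^ q

variable {𝒢} {v : C.Fn C.k lam} {q : ℕ} {d : 𝒢.R} {F : 𝒢.R ⊗[C.k] C.RL}

theorem exa_nat (v : C.Fn C.k lam) (f : S ⊗[C.k] C.RL →ₐ[C.k] S') {x : GL C.I S} (hx : x ∈ C.P S) :
    f (nm v (C.ma (iL S) x) (C.ma (iR S) C.m0)) =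
      nm v (C.ma (f.comp (iL S)) x) (C.ma (f.comp (iR S)) C.m0) :=
  (nm_nat v f (Pat.map _ hx) (Pat.map _ (L_le_P m0_mem))).symm

theorem exa_bc (v : C.Fn C.k lam) (f : S →ₐ[C.k] S') {x : GL C.I S} (hx : x ∈ C.P S) :
    wtc_bc C.RL f (nm v (C.ma (iL S) x) (C.ma (iR S) C.m0)) =
      nm v (C.ma (iL S') (C.ma f x)) (C.ma (iR S') C.m0) := by
  refine (exa_nat v (Algebra.TensorProduct.map f (AlgHom.id C.k C.RL)) hx).trans ?_
  rw [Algebra.TensorProduct.map_comp_includeLeft, Algebra.TensorProduct.map_comp_includeRight,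
    AlgHom.comp_id, zipa_ma_comp]

theorem exa_comp {S'' : Type} [CommRing S''] [Algebra C.k S''] (f : S →ₐ[C.k] S')
    (f' : S' →ₐ[C.k] S'') (z : S ⊗[C.k] C.RL) :
    wtc_bc C.RL f' (wtc_bc C.RL f z) = wtc_bc C.RL (f'.comp f) z := by
  induction z using TensorProduct.induction_on with
  | zero => simp only [map_zero]
  | tmul a b => rfl
  | add x y hx hy => simp only [map_add, hx, hy]

theorem exa_left {A : Type} [CommRing A] [Algebra C.k A] (ρ : A →ₐ[C.k] S) (a : GL C.I S) (r : A) :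
    ev2 ρ a (iL A r) = ρ r := DFunLike.congr_fun (zipa_ev2_left ρ a) r

theorem exa_stab (v : C.Fn C.k lam) {K : Type} [Field K] [Algebra C.k K] {x y x' y' : GL C.I K}
    (h : C.E x y) (h' : C.E x' y') (e : x * y⁻¹ = x' * y'⁻¹) :
    nm v (C.ma (iL K) x') (C.ma (iR K) C.m0) = nm v (C.ma (iL K) x) (C.ma (iR K) C.m0) := by
  obtain ⟨γ, hγ, rfl⟩ := stab' h h' e
  rw [map_mul, ma_ct, nm_gam v _ _ hγ]

/-- EXA.  It suffices to consider the versal point (`zipb_ev2`, `ev2_nat`, `nm_nat`, `nm_lev`). -/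
theorem adm_iff : Adm 𝒢 v q d F ↔ wtc_bc C.RL (o1 𝒢 ℰ) F =
    nm v (C.ma (iL ℰ.R) ℰ.x) (C.ma (iR ℰ.R) C.m0) ^ q * iL ℰ.R (o1 𝒢 ℰ d) := by
  constructor
  · intro h
    have h1 := h _ (C.ma (iL ℰ.R) ℰ.x) (C.ma (iL ℰ.R) ℰ.y) (C.ma (iR ℰ.R) C.m0) (ℰ.he.map _)
      (Pat.map _ (L_le_P m0_mem))
    rw [← comp_o1, zipb_ev2, mul_comm] at h1
    exact h1
  · intro h S _ _ x y a he ha
    obtain ⟨ρ, rfl, rfl⟩ := ℰ.lift S x y he
    rw [← comp_o1, ← zipa_ev2_map]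
    change ev2 ρ a (wtc_bc C.RL (o1 𝒢 ℰ) F) = _
    rw [h, map_mul, map_pow, exa_left, exa_nat v _ ℰ.he.memP, zipa_ev2_left, zipa_ev2_right,
      evL_m0 ha, nm_lev v he.memP ha, mul_comm, AlgHom.comp_apply]

variable (𝒢 v) in
/-- EXA.  Let `e : 𝒢.R → Ω` be an algebraic closure (`exists_closure`), `e m = x y⁻¹` (`UR.gen`),
`z = nm v (x ⊗ 1) (1 ⊗ m0)`.  By `stab'` and `nm_gam`, `z` is fixed by all `θ`; `tensor_descent` gives
`N, d, F`.  For `adm_iff` embed `ℰ.R` in an algebraically closed field `Ω'`, embed `Ω` in `Ω'` over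
`𝒢.R` (`exists_embed`, `o1_inj`), use `stab'` again and `tensor_map_injective`. -/
theorem exists_adm : ∃ q d F, 0 < q ∧ d ≠ 0 ∧ Adm 𝒢 v q d F := by
  obtain ⟨ℰ⟩ := exists_VE (C := C)
  obtain ⟨Ω, _, _, _, e, he, halg⟩ := exists_closure C.k 𝒢.R
  obtain ⟨x, y, -, -, h1, h2, -⟩ := 𝒢.gen e he
  have h3 : ∀ {K : Type} [Field K] [Algebra C.k K] (θ : Ω →ₐ[C.k] K),
      C.ma θ x * (C.ma θ y)⁻¹ = C.ma (θ.comp e) 𝒢.m := fun θ => by
    rw [← map_inv, ← map_mul, ← h2, zipa_ma_comp]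
  have : Fact C.p.Prime := ⟨C.hp⟩
  obtain ⟨N, d, F, hd, hF⟩ := tensor_descent (p := C.p) e he halg
    (nm v (C.ma (iL Ω) x) (C.ma (iR Ω) C.m0)) fun θ hθ => by
      rw [exa_bc v θ h1.memP]
      exact exa_stab v h1 (h1.map _) (by rw [h3, hθ, h2])
  refine ⟨C.p ^ N, d, F, pow_pos C.hp.pos N, hd, (adm_iff ℰ).2 ?_⟩
  obtain ⟨Ω', _, _, _, e', he', -⟩ := exists_closure C.k ℰ.R
  obtain ⟨ι, hι⟩ := exists_embed e he halg (e'.comp (o1 𝒢 ℰ)) (he'.comp (o1_inj 𝒢 ℰ))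
  refine tensor_map_injective e' he' ?_
  change wtc_bc C.RL e' _ = wtc_bc C.RL e' _
  rw [exa_comp, ← hι, ← exa_comp, hF, map_mul, map_mul, map_pow, map_pow, exa_bc v ι h1.memP,
    exa_bc v e' ℰ.he.memP, exa_stab v (h1.map (ι : Ω →+* Ω')) (ℰ.he.map (e' : ℰ.R →+* Ω'))
      (by rw [h3, hι, comp_o1, 𝒢.ev_m (ℰ.he.map (e' : ℰ.R →+* Ω')).mem_G'])]
  exact congrArg (fun t => _ * iL Ω' t) (DFunLike.congr_fun hι d)

/-- EXA. -/
theorem Adm.unique {F' : 𝒢.R ⊗[C.k] C.RL} (h : Adm 𝒢 v q d F) (h' : Adm 𝒢 v q d F') : F = F' := by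
  obtain ⟨ℰ⟩ := exists_VE (C := C)
  exact tensor_map_injective _ (o1_inj 𝒢 ℰ) (((adm_iff ℰ).1 h).trans ((adm_iff ℰ).1 h').symm)

/-- EXA. -/
theorem Adm.mul (h : Adm 𝒢 v q d F) (r : 𝒢.R) : Adm 𝒢 v q (d * r) (F * iL 𝒢.R r) := by
  intro S _ _ x y a he ha
  rw [map_mul, map_mul, h S x y a he ha, exa_left, mul_right_comm]

/-- EXA.  `adm_iff`, `tensor_cancel`, `o1_inj`. -/
theorem Adm.cancel {r : 𝒢.R} (hr : r ≠ 0) (h : Adm 𝒢 v q (d * r) (F * iL 𝒢.R r)) :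
    Adm 𝒢 v q d F := by
  obtain ⟨ℰ⟩ := exists_VE (C := C)
  have h1 := (adm_iff ℰ).1 h
  rw [map_mul, map_mul, map_mul, ← mul_assoc] at h1
  exact (adm_iff ℰ).2
    (tensor_cancel (fun h0 => hr (o1_inj 𝒢 ℰ (h0.trans (map_zero _).symm))) h1)

variable (𝒢 v q d F) in
/-- an admissible pair without common prime factor -/
structure MinAdm : Prop where
  ne : d ≠ 0
  adm : Adm 𝒢 v q d F
  min : ∀ π : 𝒢.R, Prime π → π ∣ d → ∃ ε : C.RL →ₗ[C.k] C.k, ¬ π ∣ wtc_ct ε F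

variable (𝒢 v) in
/-- EXB.  Take `d` minimal for strict divisibility (`WfDvdMonoid`); `tensor_dvd`, `Adm.cancel`. -/
theorem exists_minAdm : ∃ q d F, 0 < q ∧ MinAdm 𝒢 v q d F := by
  obtain ⟨q, d₀, F₀, hq, h0, h1⟩ := exists_adm 𝒢 v
  obtain ⟨d, ⟨hd, F, hF⟩, hm⟩ := (wellFounded_dvdNotUnit (α := 𝒢.R)).has_min
    {d | d ≠ 0 ∧ ∃ F, Adm 𝒢 v q d F} ⟨d₀, h0, F₀, h1⟩
  refine ⟨q, d, F, hq, hd, hF, fun π hπ hπd => ?_⟩
  by_contra hne
  obtain ⟨d', rfl⟩ := hπd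
  obtain ⟨F', rfl⟩ := tensor_dvd (π := π) (z := F) fun ε => by_contra fun h => hne ⟨ε, h⟩
  rw [mul_comm π d'] at hd hF hm
  have hd' : d' ≠ 0 := left_ne_zero_of_mul hd
  exact hm d' ⟨hd', F', Adm.cancel hπ.ne_zero hF⟩ ⟨hd', π, hπ.not_isUnit, rfl⟩

/-- EXB.  `F' * d = F * d'` by `Adm.mul`, `Adm.unique`; `wtc_mul`, `dvd_of_forall_dvd_mul`. -/
theorem MinAdm.dvd (h : MinAdm 𝒢 v q d F) {d' : 𝒢.R} {F' : 𝒢.R ⊗[C.k] C.RL}
    (h' : Adm 𝒢 v q d' F') : ∃ r, d' = d * r ∧ F' = F * iL 𝒢.R r := by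
  have h1 := h'.mul d
  rw [mul_comm d' d] at h1
  have h2 : F * Algebra.TensorProduct.includeLeftRingHom d' =
      F' * Algebra.TensorProduct.includeLeftRingHom d := (h.adm.mul d').unique h1
  obtain ⟨r, rfl⟩ : d ∣ d' := dvd_of_forall_dvd_mul h.ne (fun ε => wtc_ct ε F) h.min fun ε =>
    ⟨wtc_ct ε F', by rw [mul_comm d', ← wtc_mul, h2, wtc_mul, mul_comm]⟩
  refine ⟨r, rfl, tensor_cancel h.ne ?_⟩
  rw [← h2, mul_comm d r, map_mul, mul_assoc]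
  rfl

theorem exb_ev {x₀ y₀ : GL C.I C.k} (he : C.E x₀ y₀) {g : GL C.I S} (hg : g ∈ C.G S) :
    (𝒢.ev g).comp (𝒢.ev (C.ct 𝒢.R x₀ * 𝒢.m * (C.ct 𝒢.R y₀)⁻¹)) =
      𝒢.ev (C.ct S x₀ * g * (C.ct S y₀)⁻¹) := by
  rw [𝒢.ev_comp _ ((he.map _).mem_G 𝒢.mem), map_mul, map_mul, map_inv, ma_ct, ma_ct, 𝒢.ev_m hg]

theorem exb_evL {x₀ : GL C.I C.k} (hx : x₀ ∈ C.P C.k) {a : GL C.I S} (ha : a ∈ C.P S) :
    (C.evL a).comp (C.evL (C.ct C.RL x₀ * C.m0)) = C.evL (C.ct S x₀ * a) := by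
  have hl := lev_mem (Or.inl ha)
  have h1 : C.ct S x₀ ∈ C.P S := Pat.map _ hx
  rw [evL_comp _ (mul_mem (Pat.map _ hx) (L_le_P m0_mem)), map_mul, ma_ct, evL_m0 ha]
  refine RL_ext ?_
  rw [evL_m0 (mul_mem h1 (L_le_P hl)), evL_m0 (mul_mem h1 ha), lev_mul_P h1 ha,
    lev_mul_P h1 (L_le_P hl), lev_of_L hl]

theorem exb_ev2 {x₀ y₀ : GL C.I C.k} (he : C.E x₀ y₀) {g a : GL C.I S} (hg : g ∈ C.G S)
    (ha : a ∈ C.P S) (F : 𝒢.R ⊗[C.k] C.RL) :
    ev2 (𝒢.ev g) a (Algebra.TensorProduct.map (𝒢.ev (C.ct 𝒢.R x₀ * 𝒢.m * (C.ct 𝒢.R y₀)⁻¹))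
      (C.evL (C.ct C.RL x₀ * C.m0)) F) =
      ev2 (𝒢.ev (C.ct S x₀ * g * (C.ct S y₀)⁻¹)) (C.ct S x₀ * a) F := by
  induction F using TensorProduct.induction_on with
  | zero => rw [map_zero, map_zero, map_zero]
  | tmul x y =>
    rw [← exb_ev he hg]
    exact congrArg (_ * ·) (AlgHom.congr_fun (exb_evL he.memP ha) y)
  | add x y hx hy => rw [map_add, map_add, map_add, hx, hy]

/-- EXB.  The group `E(k)` acts on admissible pairs: apply `MinAdm.dvd` to `α d` and `(α ⊗ α') F`,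
`α = ev (x₀ m y₀⁻¹)`, `α' = evL (lev x₀ * m0)`. -/
theorem MinAdm.act (h : MinAdm 𝒢 v q d F) {x₀ y₀ : GL C.I C.k} (he : C.E x₀ y₀) :
    ∃ r : 𝒢.R, ∀ (S : Type) [CommRing S] [Algebra C.k S] (g : GL C.I S), g ∈ C.G S →
      𝒢.ev (C.ct S x₀ * g * (C.ct S y₀)⁻¹) d = 𝒢.ev g d * 𝒢.ev g r ∧
      ∀ a ∈ C.P S, ev2 (𝒢.ev (C.ct S x₀ * g * (C.ct S y₀)⁻¹)) (C.ct S x₀ * a) F =
        ev2 (𝒢.ev g) a F * 𝒢.ev g r := by
  have h1 : Adm 𝒢 v q (𝒢.ev (C.ct 𝒢.R x₀ * 𝒢.m * (C.ct 𝒢.R y₀)⁻¹) d)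
      (Algebra.TensorProduct.map (𝒢.ev (C.ct 𝒢.R x₀ * 𝒢.m * (C.ct 𝒢.R y₀)⁻¹))
        (C.evL (C.ct C.RL x₀ * C.m0)) F) := fun S _ _ x y a hxy ha => by
    have h2 := h.adm S _ _ (C.ct S x₀ * a) ((he.map (algebraMap C.k S)).mul hxy)
      (mul_mem (Pat.map _ he.memP) ha)
    rw [nm_mul, inv_mul_cancel_left, _root_.mul_inv_rev, ← mul_assoc, mul_assoc _ x] at h2
    rw [exb_ev2 he hxy.mem_G' ha, h2, ← exb_ev he hxy.mem_G']
    rfl
  obtain ⟨r, h2, h3⟩ := h.dvd h1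
  refine ⟨r, fun S _ _ g hg => ⟨?_, fun a ha => ?_⟩⟩
  · rw [← exb_ev he hg, AlgHom.comp_apply, h2, map_mul]
  · rw [← exb_ev2 he hg ha, h3, map_mul]
    exact congrArg _ (AlgHom.congr_fun (zipa_ev2_left (𝒢.ev g) a) r)

/-- EXB.  Paper 5 (a): `MinAdm.act`, `eq_zero_of_points`, `o1_inj`, `isUnit_of_points`, `VE.lift`. -/
theorem MinAdm.unit (h : MinAdm 𝒢 v q d F) {x y : GL C.I S} (he : C.E x y) :
    IsUnit (𝒢.ev (x * y⁻¹) d) := by
  obtain ⟨ℰ⟩ := exists_VE (C := C)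
  obtain ⟨ρ, rfl, rfl⟩ := ℰ.lift S x y he
  rw [← comp_o1]
  refine (isUnit_of_points (k := C.k) fun ρ₁ h1 => h.ne (o1_inj 𝒢 ℰ ?_)).map ρ
  rw [map_zero]
  refine eq_zero_of_points (k := C.k) fun ρ₂ => ?_
  have e1 : C.E (C.ma ρ₁ ℰ.x) (C.ma ρ₁ ℰ.y) := ℰ.he.map _
  have e2 : C.E (C.ma ρ₂ ℰ.x) (C.ma ρ₂ ℰ.y) := ℰ.he.map _
  obtain ⟨r, hr⟩ := h.act (e2.mul e1.inv)
  have h2 : 𝒢.ev (C.ma ρ₂ ℰ.x * (C.ma ρ₁ ℰ.x)⁻¹ * (C.ma ρ₁ ℰ.x * (C.ma ρ₁ ℰ.y)⁻¹) *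
      (C.ma ρ₂ ℰ.y * (C.ma ρ₁ ℰ.y)⁻¹)⁻¹) d = _ := (hr C.k _ e1.mem_G').1
  rw [mul_assoc (C.ma ρ₂ ℰ.x), inv_mul_cancel_left, _root_.mul_inv_rev, inv_inv, mul_assoc,
    inv_mul_cancel_left, ← comp_o1, ← comp_o1] at h2
  exact h2.trans (mul_eq_zero_of_left h1 _)

/-- the elements that are algebraic over a subalgebra -/
def exc_cl {k Ω : Type} [Field k] [Field Ω] [Algebra k Ω] (B : Subalgebra k Ω) :
    IntermediateField k Ω :=
  ((Subalgebra.algebraicClosure B Ω).restrictScalars k).toIntermediateField fun _ hx =>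
    IsAlgebraic.inv_iff.2 hx

theorem exc_cl_closed {k Ω : Type} [Field k] [Field Ω] [Algebra k Ω] (B : Subalgebra k Ω) (x : Ω)
    (hx : IsAlgebraic (exc_cl B) x) : x ∈ exc_cl B := by
  have h : IsAlgebraic (Subalgebra.algebraicClosure B Ω) x := hx
  exact h.restrictScalars B

theorem exc_cl_mem {k A Ω Ω' : Type} [Field k] [CommRing A] [Algebra k A] [Field Ω] [Algebra k Ω]
    [Field Ω'] [Algebra k Ω'] (B : Subalgebra k Ω') (e : A →ₐ[k] Ω) (he : Function.Injective e)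
    (j : Ω →ₐ[k] Ω') (hB : ∀ a, j (e a) ∈ B) {x : Ω} {P : Polynomial A} (hP : P ≠ 0)
    (hx : P.eval₂ (e : A →+* Ω) x = 0) : j x ∈ exc_cl B := by
  let φ : A →+* B := ((j.comp e).codRestrict B hB : A →ₐ[k] B)
  have hφ : Function.Injective φ := fun a b hab =>
    he ((j : Ω →+* Ω').injective (congrArg Subtype.val hab))
  refine ⟨P.map φ, (Polynomial.map_ne_zero_iff hφ).2 hP, ?_⟩
  have h := congrArg (j : Ω →+* Ω') hx
  rw [Polynomial.hom_eval₂, map_zero] at h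
  rw [Polynomial.aeval_def, Polynomial.eval₂_map]
  exact h

theorem exc_mul {Ω : Type} [Field Ω] [Algebra C.k Ω] {K : IntermediateField C.k Ω}
    {x y : GL C.I Ω} (hx : ∀ a b, x.val a b ∈ K) (hy : ∀ a b, y.val a b ∈ K) (a b : C.I) :
    (x * y).val a b ∈ K := by
  rw [Units.val_mul, Matrix.mul_apply]
  exact sum_mem fun c _ => mul_mem (hx a c) (hy c b)

theorem exc_ev {Ω : Type} [Field Ω] [Algebra C.k Ω] {K : IntermediateField C.k Ω}
    {x : GL C.I Ω} (hx : x ∈ C.G Ω) (h1 : ∀ a b, x.val a b ∈ K) (h2 : ∀ a b, x⁻¹.val a b ∈ K)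
    (r : 𝒢.R) : 𝒢.ev x r ∈ K := by
  obtain ⟨x₀, rfl⟩ := C.exists_mp_eq (K.val : K →+* Ω) Subtype.val_injective x
    (fun a b => ⟨⟨_, h1 a b⟩, rfl⟩) fun a b => ⟨⟨_, h2 a b⟩, rfl⟩
  rw [← 𝒢.ev_comp K.val (Pat.of_map _ Subtype.val_injective hx)]
  exact (𝒢.ev x₀ r).2

theorem exc_fin {Ω : Type} [Field Ω] [Algebra C.k Ω] {β : C.Sp} (hβ : C.TopQ β)
    {K : IntermediateField C.k Ω} (hK : ∀ x : Ω, IsAlgebraic K x → x ∈ K) {x y x₁ y₁ : GL C.I Ω}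
    (hE : C.E x y) (hE₁ : C.E x₁ y₁) (h2 : x * C.gb β 0 * y⁻¹ = x₁ * C.gb β 0 * y₁⁻¹)
    (hx : ∀ a b, x₁.val a b ∈ K) (hx' : ∀ a b, x₁⁻¹.val a b ∈ K) (hy : ∀ a b, y₁.val a b ∈ K)
    (hy' : ∀ a b, y₁⁻¹.val a b ∈ K) (hc : ∀ a b, (C.gb β (0 : Ω)).val a b ∈ K)
    (hc' : ∀ a b, (C.gb β (0 : Ω))⁻¹.val a b ∈ K) (hθ : (x₁⁻¹ * x).val β.j β.i ∈ K) (r : 𝒢.R) :
    𝒢.ev (x * y⁻¹) r ∈ K := by
  have h3 : x₁⁻¹ * x * C.gb β 0 = C.gb β 0 * (y₁⁻¹ * y) := by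
    rw [mul_assoc, mul_inv_eq_iff_eq_mul.1 h2]
    group
  have h4 := ent_mem hβ K hK (hE₁.inv.mul hE) h3 hθ
  have ha : ∀ a b, (x₁⁻¹ * x).val a b ∈ K := fun a b => (h4 a b).1
  have hb : ∀ a b, (y₁⁻¹ * y)⁻¹.val a b ∈ K := fun a b => (h4 a b).2
  refine exc_ev hE.mem_G' ?_ ?_ r
  · have e1 : x * y⁻¹ = x₁ * (x₁⁻¹ * x) * (y₁⁻¹ * y)⁻¹ * y₁⁻¹ := by group
    rw [e1]
    exact exc_mul (exc_mul (exc_mul hx ha) hb) hy'
  · have e1 : y₁⁻¹ * y = (C.gb β 0)⁻¹ * (x₁⁻¹ * x) * C.gb β 0 := by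
      rw [mul_assoc, h3, inv_mul_cancel_left]
    have e2 : (x₁⁻¹ * x)⁻¹ = C.gb β 0 * (y₁⁻¹ * y)⁻¹ * (C.gb β 0)⁻¹ := by
      rw [e1]
      group
    have e3 : (x * y⁻¹)⁻¹ = y₁ * (y₁⁻¹ * y) * (x₁⁻¹ * x)⁻¹ * x₁⁻¹ := by group
    rw [e3, e1, e2]
    exact exc_mul (exc_mul (exc_mul hy (exc_mul (exc_mul hc' ha) hc))
      (exc_mul (exc_mul hc hb) hc')) hx'

/-- EXC.  Paper 5 (c).  Let `e : ℰ.R → F` be an embedding in an algebraically closed field,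
`(x, y) = e (ℰ.x, ℰ.y)`, `ι = e ∘ ob`, `o = e ∘ o1` (injective), `F₁` the algebraic closure in `F` of the
field generated by the image of `ι`.  `exists_point` for `𝒢.R ⧸ ker ι → ℰ.R` gives `(x₁, y₁) ∈ E F₁`
with `x₁ n y₁⁻¹ = x n y⁻¹`; `h = x₁⁻¹ x`, `h' = y₁⁻¹ y`, `θ = h j i`.  By `ent_mem` for the algebraic
closure `K` in `F` of the field generated by `range ι ∪ {θ}` the element `x y⁻¹ = x₁ h h'⁻¹ y₁⁻¹` is
defined over `K` (`exists_mp_eq`, `Pat.of_map`, `UR.ev_comp`); `dvd_of_trdeg`. -/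
theorem ob_ker {β : C.Sp} (hβ : C.TopQ β) {π f : 𝒢.R} (hπ : Prime π)
    (h0 : ob 𝒢 ℰ (C.gb β 0) π = 0) (hf : ob 𝒢 ℰ (C.gb β 0) f = 0) : π ∣ f := by
  obtain ⟨Ω, _, _, _, e, he, -⟩ := exists_closure C.k ℰ.R
  have hn : C.gb β (0 : C.k) ∈ C.G C.k := gb_mem β 0
  let ξ := Ideal.kerLiftAlg (ob 𝒢 ℰ (C.gb β 0))
  have hξ : Function.Injective ξ := Ideal.kerLiftAlg_injective _
  have : IsDomain (𝒢.R ⧸ RingHom.ker (ob 𝒢 ℰ (C.gb β 0))) :=
    Function.Injective.isDomain (ξ : _ →+* ℰ.R) hξ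
  obtain ⟨Ω₁, _, _, _, e₁, he₁, halg⟩ :=
    exists_closure C.k (𝒢.R ⧸ RingHom.ker (ob 𝒢 ℰ (C.gb β 0)))
  obtain ⟨l, hl⟩ := exists_embed e₁ he₁ halg (e.comp ξ) (he.comp hξ)
  obtain ⟨j, hj, -⟩ := exists_point ξ e₁ he₁ 1 fun a N ha => by
    rw [one_pow, one_mul]
    exact fun h => ha (hξ (h.trans (map_zero ξ).symm))
  have h1 : (l.comp j).comp (ob 𝒢 ℰ (C.gb β 0)) = e.comp (ob 𝒢 ℰ (C.gb β 0)) :=
    AlgHom.ext fun r => (congrArg l (DFunLike.congr_fun hj (Ideal.Quotient.mk _ r))).trans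
      (DFunLike.congr_fun hl (Ideal.Quotient.mk _ r))
  have hE := ℰ.he.map (e : ℰ.R →+* Ω)
  have hE₁ := ℰ.he.map (l.comp j : ℰ.R →+* Ω)
  have hn' : C.ct Ω (C.gb β 0) ∈ C.G Ω := Pat.map _ hn
  rw [comp_ob 𝒢 ℰ hn, comp_ob 𝒢 ℰ hn] at h1
  have h2 := 𝒢.ev_m (hE₁.mem_G hn')
  rw [h1, 𝒢.ev_m (hE.mem_G hn')] at h2
  let B := Algebra.adjoin C.k (Set.range (e.comp (ob 𝒢 ℰ (C.gb β 0))) ∪
    {((C.ma (l.comp j) ℰ.x)⁻¹ * C.ma e ℰ.x).val β.j β.i})
  have hj' : ∀ r, l.comp j r ∈ exc_cl B := fun r => by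
    obtain ⟨P, hP, hx⟩ := halg (j r)
    refine exc_cl_mem B e₁ he₁ l (fun a => ?_) hP hx
    obtain ⟨a, rfl⟩ := Ideal.Quotient.mk_surjective a
    exact Algebra.subset_adjoin (Or.inl ⟨a, (DFunLike.congr_fun hl (Ideal.Quotient.mk _ a)).symm⟩)
  have hm : ∀ (z : GL C.I ℰ.R) a b, (C.ma (l.comp j) z).val a b ∈ exc_cl B := fun z a b => hj' _
  have hm' : ∀ (z : GL C.I ℰ.R) a b, (C.ma (l.comp j) z)⁻¹.val a b ∈ exc_cl B := fun z => by
    rw [← map_inv]; exact hm _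
  have hc : ∀ a b, (C.ct Ω (C.gb β 0)).val a b ∈ exc_cl B := fun a b =>
    (exc_cl B).algebraMap_mem _
  have hc' : ∀ a b, (C.ct Ω (C.gb β 0))⁻¹.val a b ∈ exc_cl B := fun a b => by
    rw [← map_inv]; exact (exc_cl B).algebraMap_mem _
  have hg : C.ct Ω (C.gb β 0) = C.gb β 0 := by rw [gb_map, map_zero]
  have hθ : ((C.ma (l.comp j) ℰ.x)⁻¹ * C.ma e ℰ.x).val β.j β.i ∈ exc_cl B :=
    isAlgebraic_algebraMap (⟨_, Algebra.subset_adjoin (Or.inr rfl)⟩ : B)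
  refine dvd_of_trdeg (e.comp (o1 𝒢 ℰ)) (e.comp (ob 𝒢 ℰ (C.gb β 0))) (he.comp (o1_inj 𝒢 ℰ))
    (((C.ma (l.comp j) ℰ.x)⁻¹ * C.ma e ℰ.x).val β.j β.i) (fun r => ?_) hπ
    ((congrArg e h0).trans (map_zero e)) ((congrArg e hf).trans (map_zero e))
  change _ ∈ exc_cl B
  rw [comp_o1]
  have hx := hm ℰ.x
  have hx' := hm' ℰ.x
  have hy := hm ℰ.y
  have hy' := hm' ℰ.y
  rw [hg] at h2 hc hc'
  change C.E (C.ma e ℰ.x) (C.ma e ℰ.y) at hE
  change C.E (C.ma (l.comp j) ℰ.x) (C.ma (l.comp j) ℰ.y) at hE₁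
  change C.ma e ℰ.x * _ * (C.ma e ℰ.y)⁻¹ = C.ma (l.comp j) ℰ.x * _ * (C.ma (l.comp j) ℰ.y)⁻¹ at h2
  exact exc_fin hβ (exc_cl_closed B) hE hE₁ h2 hx hx' hy hy' hc hc' hθ r

/-- EXD.  Paper 5 (c).  Let `j : RL[X] → RL[X, X⁻¹]` (`Localization.Away X`), `x = tx β M η t`,
`x y⁻¹ = gb (t ^ M)` (`tx_spec`).  By `TInt`, `nm v x m0 = j w`, so
`ev2 (ev (gb (X ^ M))) m0 F = ev (gb (X ^ M)) d * w ^ q` in `RL[X]`; put `X = 0`. -/
theorem Adm.zero (h : Adm 𝒢 v q d F) (hv : TInt v) {β : C.Sp} (hβ : C.TopQ β)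
    (h0 : 𝒢.ev (C.gb β (0 : C.k)) d = 0) {a : GL C.I S} (ha : a ∈ C.P S) :
    ev2 (𝒢.ev (C.ct S (C.gb β 0))) a F = 0 := by
  obtain ⟨M, η, hη⟩ := exists_isEta (C := C) β.i β.j
  let c : S →ₐ[C.k] Polynomial S := IsScalarTower.toAlgHom C.k S _
  let e : Polynomial S →ₐ[C.k] S := (Polynomial.aeval (0 : S)).restrictScalars C.k
  let j : Polynomial S →ₐ[C.k] Localization.Away (Polynomial.X : Polynomial S) :=
    IsScalarTower.toAlgHom C.k _ _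
  have hj : Function.Injective j := IsLocalization.injective (M := Submonoid.powers Polynomial.X) _
    (Submonoid.powers_le.2 Polynomial.monic_X.mem_nonZeroDivisors)
  obtain ⟨t, ht⟩ : IsUnit (j Polynomial.X) := IsLocalization.Away.algebraMap_isUnit _
  have ha' : C.ma c a ∈ C.P _ := Pat.map _ ha
  obtain ⟨w, hw⟩ : nm v (C.tx β M η t) (C.ma j (C.ma c a)) ∈ j.range :=
    prod_mem fun γ _ => hv β M η hβ hη γ.1 γ.2 _ _ j Polynomial.X t ht.symm _ ha'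
  have hg : C.gb β ((Polynomial.X : Polynomial S) ^ M) ∈ C.G _ := gb_mem _ _
  have h1 := h _ _ _ _ (tx_spec hβ hη t).1 (Pat.map (j : Polynomial S →+* _) ha')
  have h2 : C.tx β M η t * ((C.gb β (t.val ^ M))⁻¹ * C.tx β M η t)⁻¹ =
      C.ma j (C.gb β (Polynomial.X ^ M)) := by
    rw [_root_.mul_inv_rev, inv_inv, mul_inv_cancel_left, gb_map, map_pow, ht]
    rfl
  rw [h2, ← hw, ← 𝒢.ev_comp j hg, ev2_nat j _ ha'] at h1
  have h3 : ev2 (𝒢.ev (C.gb β (Polynomial.X ^ M))) (C.ma c a) F =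
      𝒢.ev (C.gb β (Polynomial.X ^ M)) d * w ^ q := hj (by rw [h1, map_mul, map_pow]; rfl)
  have h4 : C.ma e (C.ma c a) = a := C.gl_ext fun i i' => Polynomial.aeval_C _ _
  have h5 : e.comp (𝒢.ev (C.gb β (Polynomial.X ^ M))) = 𝒢.ev (C.ct S (C.gb β 0)) := by
    have h6 : (e : Polynomial S →+* S) Polynomial.X = 0 := Polynomial.aeval_X _
    rw [𝒢.ev_comp e hg, gb_map, gb_map, map_pow, h6, zero_pow hη.1.ne', map_zero]
  have h7 : 𝒢.ev (C.ct S (C.gb β 0)) d = 0 := by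
    have h8 := DFunLike.congr_fun (𝒢.ev_comp (Algebra.ofId C.k S) (gb_mem β (0 : C.k))) d
    rw [AlgHom.comp_apply, h0, map_zero] at h8
    exact h8.symm
  rw [← h4, ← h5, ev2_nat e _ ha', h3, map_mul, ← AlgHom.comp_apply, h5, h7, zero_mul]

theorem exd_prime {A B : Type} [CommRing A] [IsDomain A] [UniqueFactorizationMonoid A] [CommRing B]
    [IsDomain B] (φ : A →+* B) (d : A) : d ≠ 0 → φ d = 0 → ∃ π, Prime π ∧ π ∣ d ∧ φ π = 0 := by
  induction d using UniqueFactorizationMonoid.induction_on_prime with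
  | h₁ => exact fun h => (h rfl).elim
  | h₂ x hx => exact fun _ h => ((hx.map φ).ne_zero h).elim
  | h₃ a p ha hp ih =>
    intro _ h
    rcases mul_eq_zero.1 ((map_mul φ p a).symm.trans h) with h1 | h1
    · exact ⟨p, hp, dvd_mul_right _ _, h1⟩
    · obtain ⟨π, h2, h3, h4⟩ := ih ha h1
      exact ⟨π, h2, h3.mul_left _, h4⟩

/-- EXD.  Paper 5 (c).  Otherwise `d` and all `wtc_ct ε F` vanish on the orbit of `gb β 0`
(`Adm.zero`, `MinAdm.act`, `zipb_ev2`, `wtc_map`), so they lie in the kernel of `ob`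
(`eq_zero_of_points`, `comp_ob`); a prime factor of `d` lies in the kernel; `ob_ker`. -/
theorem MinAdm.ne_gb (h : MinAdm 𝒢 v q d F) (hv : TInt v) {β : C.Sp} (hβ : C.TopQ β) :
    𝒢.ev (C.gb β (0 : C.k)) d ≠ 0 := by
  intro h0
  obtain ⟨ℰ⟩ := exists_VE (C := C)
  have hn : C.gb β (0 : C.k) ∈ C.G _ := gb_mem _ _
  have h1 : ob 𝒢 ℰ (C.gb β 0) d = 0 := eq_zero_of_points (k := C.k) fun ρ => by
    obtain ⟨r, hr⟩ := h.act (ℰ.he.map (ρ : ℰ.R →+* C.k))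
    have h2 := (hr _ _ hn).1
    rw [h0, zero_mul] at h2
    rw [← AlgHom.comp_apply, comp_ob 𝒢 ℰ hn]
    exact h2
  obtain ⟨π, hπ, hd, h2⟩ := exd_prime (ob 𝒢 ℰ (C.gb β 0) : 𝒢.R →+* ℰ.R) d h.ne h1
  obtain ⟨ε, hε⟩ := h.min π hπ hd
  refine hε (ob_ker ℰ hβ hπ h2 (eq_zero_of_points (k := C.k) fun ρ => ?_))
  have he := ℰ.he.map (ρ : ℰ.R →+* C.k)
  obtain ⟨r, hr⟩ := h.act he
  have ha : (C.ct (C.k ⊗[C.k] C.RL) (C.ma ρ ℰ.x))⁻¹ * C.ma (iR C.k) C.m0 ∈ C.P _ :=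
    mul_mem (inv_mem (Pat.map _ he.memP)) (wtc_m0 _)
  have h3 := (hr _ _ (Pat.map (algebraMap C.k (C.k ⊗[C.k] C.RL)) hn)).2 _ ha
  rw [h.adm.zero hv hβ h0 ha, zero_mul, mul_inv_cancel_left] at h3
  have h4 : wtc_bc C.RL (ρ.comp (ob 𝒢 ℰ (C.gb β 0))) F = 0 := by
    refine (zipb_ev2 _ F).symm.trans ?_
    rw [← AlgHom.comp_assoc, comp_ob 𝒢 ℰ hn]
    exact h3
  rw [← AlgHom.comp_apply, ← wtc_map, h4, map_zero]

variable (d) in
/-- `d` has no zero on the open orbit -/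
def NoZero : Prop :=
  ∀ (S : Type) [CommRing S] [Algebra C.k S] (x y : GL C.I S), C.E x y → IsUnit (𝒢.ev (x * y⁻¹) d)

variable (C) in
/-- evaluation of polynomials -/
def exe_ev (s : S) : Polynomial S →ₐ[C.k] S := (Polynomial.aeval s).restrictScalars C.k

theorem exe_ev_C (s r : S) : exe_ev C s (Polynomial.C r) = r := Polynomial.aeval_C s r

theorem exe_ma_C (s : S) (x : GL C.I S) : C.ma (exe_ev C s) (C.mp Polynomial.C x) = x :=
  C.gl_ext fun a b => exe_ev_C (C := C) s (x.val a b)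

theorem exe_path {x t : GL C.I S} (hx : x ∈ C.B S ∨ x ∈ C.Bp S) (ht : t ∈ C.T S)
    (h : ∀ a, x.val a a = t.val a a) : ∃ y : GL C.I (Polynomial S),
      (∀ a b, y.val a b = Polynomial.C (x.val a b) * Polynomial.X ^ Nat.dist a.val b.val) ∧
      (∀ R : C.Rel, x ∈ C.Pat R S → y ∈ C.Pat R (Polynomial S)) ∧
      C.ma (exe_ev C 1) y = x ∧ C.ma (exe_ev C 0) y = t := by
  obtain ⟨y, hy, e⟩ := exists_path hx
  have e' : ∀ (s : S) a b, (C.ma (exe_ev C s) y).val a b =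
      x.val a b * s ^ Nat.dist a.val b.val := fun s a b => by
    change exe_ev C s (y.val a b) = _
    rw [e, map_mul, map_pow, exe_ev_C]
    exact congrArg (fun z => x.val a b * z ^ Nat.dist a.val b.val) (Polynomial.aeval_X s)
  refine ⟨y, e, fun R hR => ⟨hy.1, fun a b hab => ?_⟩, C.gl_ext fun a b => ?_,
    C.gl_ext fun a b => ?_⟩
  · rw [e, Pat.zero hR hab, map_zero, zero_mul]
  · rw [e', one_pow, mul_one]
  · rw [e']
    by_cases hab : a = b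
    · rw [← hab, Nat.dist_self, pow_zero, mul_one, h]
    · rw [Pat.zero ht hab, zero_pow fun h0 => hab (Fin.ext (Nat.eq_of_dist_eq_zero h0)), mul_zero]

theorem exe_const [IsDomain S] (h : NoZero d) {x y : GL C.I (Polynomial S)} (he : C.E x y) :
    𝒢.ev (C.ma (exe_ev C 1) x * (C.ma (exe_ev C 1) y)⁻¹) d =
      𝒢.ev (C.ma (exe_ev C 0) x * (C.ma (exe_ev C 0) y)⁻¹) d := by
  obtain ⟨r, -, hr⟩ := Polynomial.isUnit_iff.1 (h _ x y he)
  have e : ∀ s : S, 𝒢.ev (C.ma (exe_ev C s) x * (C.ma (exe_ev C s) y)⁻¹) d = r := fun s => by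
    rw [← map_inv, ← map_mul, ← 𝒢.ev_comp _ he.mem_G', AlgHom.comp_apply, ← hr, exe_ev_C]
  rw [e, e]

/-- EXE.  Paper 5 (e).  A unit of `S[X]` is constant.  Write `x = l r`, `y = fr l * r'` and contract
`r ∈ B`, `r' ∈ Bp` with `exists_path`. -/
theorem NoZero.lev [IsDomain S] (h : NoZero d) {x y : GL C.I S} (he : C.E x y) :
    𝒢.ev (x * y⁻¹) d = 𝒢.ev (C.lev x * (C.fr (C.lev x))⁻¹) d := by
  obtain ⟨hx, hy, hq⟩ := E_iff.1 he
  have hl := lev_mem (Or.inl hx)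
  have hr : C.E ((C.lev x)⁻¹ * x) ((C.fr (C.lev x))⁻¹ * y) := (E.of_L hl).inv.mul he
  obtain ⟨h1, h2⟩ := lev_inv_mul hx
  have h3 : C.lev ((C.lev x)⁻¹ * x) = 1 := by
    rw [lev_mul_P (inv_mem (L_le_P hl)) hx, lev_of_L (inv_mem hl), inv_mul_cancel]
  have h4 : C.lq' ((C.fr (C.lev x))⁻¹ * y) = 1 := by rw [(E_iff.1 hr).2.2, h3, map_one]
  have h5 : (C.fr (C.lev x))⁻¹ * y ∈ C.Bp S :=
    Lv.mem_of_lev ovQ hr.memQ (by rw [← lq', h4]; exact one_mem _) fun a b hb e1 e2 => by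
      by_contra e3
      exact e2 ⟨C.lq_of_le hb.symm (not_le.1 e3).le, e1⟩
  obtain ⟨ρ, r1, r2, r3, r4⟩ := exe_path (Or.inl h1) (one_mem _) fun a => by
    rw [h2, Units.val_one, Matrix.one_apply_eq]
  obtain ⟨ρ', s1, s2, s3, s4⟩ := exe_path (Or.inr h5) (one_mem _) fun a => by
    rw [← Lv.lev_diag ovQ hr.memQ a]
    exact congrArg (fun z : GL C.I S => z.val a a) h4
  have hE : C.E ρ ρ' := ⟨mem_P.1 (r2 _ hr.memP), mem_Q.1 (s2 _ hr.memQ), fun a b hab => by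
    rw [s1, r1, hr.2.2 a b hab, ← lev_pos (Or.inl hr.memP) hab, h3, Units.val_one]
    by_cases e : a = b
    · rw [← e, Matrix.one_apply_eq, Nat.dist_self, Nat.dist_self, one_pow, map_one, pow_zero,
        mul_one, one_pow]
    · rw [Matrix.one_apply_ne e, zero_pow C.hp.ne_zero, map_zero, zero_mul, zero_mul,
        zero_pow C.hp.ne_zero]⟩
  have key := exe_const h ((E.map Polynomial.C (E.of_L hl)).mul hE)
  simp only [map_mul] at key
  rwa [exe_ma_C, exe_ma_C, exe_ma_C, exe_ma_C, r3, r4, s3, s4, mul_inv_cancel_left,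
    mul_inv_cancel_left, mul_one, mul_one] at key

/-- EXE.  Contract `u` and `u'` with `exists_path`. -/
theorem NoZero.tri [IsDomain S] (h : NoZero d) {l u u' t t' : GL C.I S} (hl : l ∈ C.L S)
    (hu : u ∈ C.L S) (hu' : u' ∈ C.L S) (h1 : u ∈ C.B S ∨ u ∈ C.Bp S)
    (h1' : u' ∈ C.B S ∨ u' ∈ C.Bp S) (ht : t ∈ C.T S) (ht' : t' ∈ C.T S)
    (h2 : ∀ a, u.val a a = t.val a a) (h2' : ∀ a, u'.val a a = t'.val a a) :
    𝒢.ev (u * l * u' * (C.fr (u * l * u'))⁻¹) d = 𝒢.ev (t * l * t' * (C.fr (t * l * t'))⁻¹) d := by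
  obtain ⟨ρ, -, r2, r3, r4⟩ := exe_path h1 ht h2
  obtain ⟨ρ', -, s2, s3, s4⟩ := exe_path h1' ht' h2'
  have key := exe_const h
    (E.of_L (mul_mem (mul_mem (r2 _ hu) (Pat.map Polynomial.C hl)) (s2 _ hu')))
  rwa [← fr_mp, ← fr_mp, map_mul (C.ma _), map_mul (C.ma _), map_mul (C.ma _), map_mul (C.ma _),
    exe_ma_C, exe_ma_C, r3, r4, s3, s4] at key

/-- EXE.  `unit_laurent` for the universal element `tu` of the torus; evaluate as in `f_eq_sum`. -/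
theorem NoZero.torus (h : NoZero d) : ∃ (c : C.k) (μ : C.I → ℤ), c ≠ 0 ∧
    ∀ (S : Type) [CommRing S] [Algebra C.k S] (t : GL C.I S), t ∈ C.T S →
      𝒢.ev (t * (C.fr t)⁻¹) d = algebraMap C.k S c * C.chi μ t := by
  have hE : C.E (C.tu C.k) (C.fr (C.tu C.k)) := E.of_L (T_le (tu_mem C.k))
  obtain ⟨μ, c, hc, e⟩ := unit_laurent (h _ _ _ hE)
  refine ⟨c, μ, hc, fun S _ _ t ht => ?_⟩
  have hB : t ∈ C.B S := T_le ht
  let H : C.TA C.k →ₐ[C.k] S := AddMonoidAlgebra.lift C.k S (C.I → ℤ) (wta_chiHom hB)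
  have hH : ∀ ν r, H (AddMonoidAlgebra.single ν r) = algebraMap C.k S r * C.chi ν t :=
    fun ν r => (AddMonoidAlgebra.lift_single _ _ _).trans (Algebra.smul_def _ _)
  have h1 : C.ma H (C.tu C.k) = t := by
    refine wta_T_ext (Pat.map _ (tu_mem C.k)) ht fun a => ?_
    change H ((C.tu C.k).val a a) = _
    rw [wta_tu_val, hH, map_one, one_mul, wta_chi_uw hB]
  rw [← hH, ← e, ← AlgHom.comp_apply, 𝒢.ev_comp _ hE.mem_G', map_mul, map_inv, ← fr_mp, h1]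

theorem exf_diag {x : GL C.I S} (hx : x ∈ C.B S ∨ x ∈ C.Bp S) :
    ∃ t ∈ C.T S, ∀ a, x.val a a = t.val a a := by
  let Λ : C.Lv := { C.rT with symm := fun _ _ h => Eq.symm h }
  rcases hx with hx | hx
  · have ho : Λ.Ov C.rB := fun a b c _ _ h1 h2 h3 => le_antisymm ((show a = c from h3) ▸ h2) h1
    exact ⟨Λ.lev x, Lv.lev_mem ho hx, fun a => (Lv.lev_diag ho hx a).symm⟩
  · have ho : Λ.Ov C.rBp := fun a b c _ _ h1 h2 h3 => le_antisymm h1 ((show a = c from h3) ▸ h2)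
    exact ⟨Λ.lev x, Lv.lev_mem ho hx, fun a => (Lv.lev_diag ho hx a).symm⟩

theorem exf_emb_L {s : C.Sp} (hs : C.lo s.i ↔ C.lo s.j) (a b c e : S) (h : a * e - b * c = 1) :
    C.emb s a b c e h ∈ C.L S := by
  have hs' : C.lo s.i.rev ↔ C.lo s.j.rev := by rw [C.lo_rev, C.lo_rev, hs]
  refine ⟨(emb_mem s _ _ _ _ _).1, fun m n hmn => reflb_supp _ _ _ _ _
    (fun e => hmn (e ▸ Iff.rfl)) (fun e => ?_) (fun e => ?_) (fun e => ?_) fun e => ?_⟩ <;>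
    obtain ⟨rfl, rfl⟩ := Prod.mk.inj e
  exacts [hmn hs, hmn hs.symm, hmn hs'.symm, hmn hs']

theorem exf_emb_Bp (s : C.Sp) (b : S) : C.emb s 1 b 0 1 (by ring) ∈ C.Bp S := by
  refine ⟨(emb_mem s _ _ _ _ _).1, fun m n h => ?_⟩
  rw [emb_val]
  by_cases e1 : (m, n) = (s.j, s.i)
  · obtain ⟨rfl, rfl⟩ := Prod.mk.inj e1
    exact embM_ji _ _ _ _ _
  by_cases e2 : (m, n) = (s.i.rev, s.j.rev)
  · obtain ⟨rfl, rfl⟩ := Prod.mk.inj e2
    rw [reflb_row_ir s s.ne_rev, if_pos rfl, mul_zero]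
  refine reflb_supp _ _ _ _ _ (fun e => h e.le) (fun e => ?_) e1 (fun e => ?_) e2 <;>
    obtain ⟨rfl, rfl⟩ := Prod.mk.inj e
  · exact h s.h.2.1.le
  · exact h (Fin.rev_le_rev.2 s.h.2.1.le)

theorem exf_emb_diag (s : C.Sp) (b c : S) (a : C.I) : C.embM s 1 b c 1 a a = 1 := by
  have hr : s.i.rev ≠ s.j.rev := fun e => s.ne (Fin.rev_injective e)
  rcases reflb_cases s a with rfl | rfl | ⟨h0, rfl⟩ | ⟨h0, rfl⟩ | ⟨h1, h2, h3, h4⟩
  · exact embM_ii _ _ _ _ _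
  · exact embM_jj _ _ _ _ _
  · rw [reflb_row_jr s h0, if_pos rfl]
  · rw [reflb_row_ir s h0, if_neg hr, if_pos rfl]
  · rw [reflb_row_o _ _ _ _ _ h1 h2 h3 h4, if_pos rfl]

theorem exf_cv (β : C.Sp) (s : Sˣ) :
    (C.coch (C.cv β.i β.j) s).val = C.embM β (s : S) 0 0 (s⁻¹ : Sˣ) := by
  ext m n
  have hi : C.cv β.i β.j β.i = 1 := if_pos (Or.inl rfl)
  have hj : C.cv β.i β.j β.j = -1 := by
    rw [cv, if_neg (not_or.2 ⟨β.ne.symm, (C.rev_ne _).symm⟩), if_pos (Or.inl rfl)]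
  rw [coch, dgG_val, diagonal_apply]
  rcases reflb_cases β m with rfl | rfl | ⟨h0, rfl⟩ | ⟨h0, rfl⟩ | ⟨h1, h2, h3, h4⟩
  · rw [reflb_row_i, ite_self, hi, zpow_one]
    exact if_congr eq_comm rfl rfl
  · rw [reflb_row_j, hj, _root_.zpow_neg_one]
    by_cases e : n = β.i
    · rw [if_pos e, if_neg fun e' => β.ne (e'.trans e).symm]
    · rw [if_neg e]
      exact if_congr eq_comm rfl rfl
  · rw [reflb_row_jr β h0, mul_zero, ite_self, cv_rev β.ne, hj, neg_neg, zpow_one]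
    exact if_congr eq_comm rfl rfl
  · rw [reflb_row_ir β h0, mul_zero, cv_rev β.ne, hi, _root_.zpow_neg_one]
    by_cases e : n = β.j.rev
    · rw [if_pos e, if_neg fun e' => β.ne (Fin.rev_injective (e'.trans e))]
    · rw [if_neg e]
      exact if_congr eq_comm rfl rfl
  · rw [reflb_row_o _ _ _ _ _ h1 h2 h3 h4, cv, if_neg (not_or.2 ⟨h1, h4⟩),
      if_neg (not_or.2 ⟨h2, h3⟩), _root_.zpow_zero, Units.val_one]

theorem exf_left [IsDomain S] (h : NoZero d) {l u : GL C.I S} (hl : l ∈ C.L S) (hu : u ∈ C.L S)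
    (h1 : u ∈ C.B S ∨ u ∈ C.Bp S) (h2 : ∀ a, u.val a a = 1) :
    𝒢.ev (u * l * (C.fr (u * l))⁻¹) d = 𝒢.ev (l * (C.fr l)⁻¹) d := by
  have e := h.tri hl hu (one_mem _) h1 (Or.inl (one_mem _)) (one_mem _) (one_mem _)
    (fun a => by rw [h2, Units.val_one, Matrix.one_apply_eq]) fun _ => rfl
  rwa [mul_one, mul_one, one_mul] at e

theorem exf_coroot (h : NoZero d) {s : C.Sp} (hs : C.lo s.i ↔ C.lo s.j) (z : C.kˣ) :
    𝒢.ev (C.coch (C.cv s.i s.j) z * (C.fr (C.coch (C.cv s.i s.j) z))⁻¹) d =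
      𝒢.ev ((1 : GL C.I C.k) * (C.fr 1)⁻¹) d := by
  have hp : ∀ (b : C.k) {l : GL C.I C.k}, l ∈ C.L C.k →
      𝒢.ev (C.emb s 1 b 0 1 (by ring) * l * (C.fr (C.emb s 1 b 0 1 (by ring) * l))⁻¹) d =
        𝒢.ev (l * (C.fr l)⁻¹) d := fun b l hl =>
    exf_left h hl (exf_emb_L hs _ _ _ _ _) (Or.inr (exf_emb_Bp s b)) (exf_emb_diag s b 0)
  have hm : ∀ (b : C.k) {l : GL C.I C.k}, l ∈ C.L C.k →
      𝒢.ev (C.xm s b * l * (C.fr (C.xm s b * l))⁻¹) d = 𝒢.ev (l * (C.fr l)⁻¹) d := fun b l hl =>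
    exf_left h hl (exf_emb_L hs _ _ _ _ _) (Or.inl (xm_mem s b)) (exf_emb_diag s 0 b)
  have hz : (z : C.k) * (z⁻¹ : C.kˣ) = 1 := z.mul_inv
  have e : C.coch (C.cv s.i s.j) z = C.emb s 1 ((z : C.k) - 1) 0 1 (by ring) * (C.xm s 1 *
      (C.emb s 1 (((z⁻¹ : C.kˣ) : C.k) - 1) 0 1 (by ring) * (C.xm s (-(z : C.k)) * 1))) := by
    refine Units.ext ?_
    rw [mul_one (C.xm s _), Units.val_mul, Units.val_mul, Units.val_mul, exf_cv, xm, xm, emb_val,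
      emb_val, emb_val, emb_val, embM_mul, embM_mul, embM_mul]
    congr 1
    · linear_combination (z : C.k) * hz
    · linear_combination -hz
    · linear_combination hz
    · ring
  have l1 : C.xm s (-(z : C.k)) * 1 ∈ C.L C.k := mul_mem (exf_emb_L hs _ _ _ _ _) (one_mem _)
  have l2 := mul_mem (exf_emb_L hs 1 (((z⁻¹ : C.kˣ) : C.k) - 1) 0 1 (by ring)) l1
  have l3 : C.xm s (1 : C.k) ∈ C.L C.k := exf_emb_L hs _ _ _ _ _
  rw [e, hp _ (mul_mem l3 l2), hm _ l2, hp _ l1, hm _ (one_mem _)]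

theorem exf_curve (h : NoZero d) {β : C.Sp} (hβ : C.TopQ β) {M : ℕ} {η : C.I → ℤ}
    (hη : C.IsEta β.i β.j M η) [IsDomain S] (t : Sˣ) :
    𝒢.ev (C.gb β ((t : S) ^ M)) d = 𝒢.ev (C.coch η t * (C.fr (C.coch η t))⁻¹) d := by
  obtain ⟨h1, h2⟩ := tx_spec hβ hη t
  have h3 := uf_spec hβ ((-t ^ (-yb β M η) : Sˣ) : S)
  have h4 := h.lev h1
  rw [_root_.mul_inv_rev, inv_inv, mul_inv_cancel_left, h2] at h4
  generalize C.uf β ((-t ^ (-yb β M η) : Sˣ) : S) = u at h3 h4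
  have h5 := h.tri (T_le (coch_mem (hη.rev β.ne) t)) (one_mem _) (inv_mem h3.1)
    (Or.inl (one_mem _)) (Or.inl (inv_mem h3.2.1)) (one_mem _) (one_mem _) (fun _ => rfl) fun a => by
      have h6 := B.diag_inv h3.2.1 a
      rw [h3.diag, one_mul] at h6
      rw [h6, Units.val_one, Matrix.one_apply_eq]
  rw [one_mul, mul_one] at h5
  exact h4.trans h5

theorem exf_chi_fr {ψ μ : C.I → ℤ} {N : ℕ} (h : ∀ c, ψ c - C.p * ψ (C.σ c) = - N * μ c)
    {t : GL C.I S} (ht : t ∈ C.T S) : C.chi μ t ^ N * C.chi ψ t = C.chi ψ (C.fr t) := by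
  have hb : t ∈ C.B S := T_le ht
  have hu : ∀ a, t.val a a = (B.diag_unit hb a).unit := fun a => (B.diag_unit hb a).unit_spec.symm
  rw [chi_units μ hb _ hu, chi_units ψ hb _ hu, chi_units ψ (fr_B hb)
    (fun a => (B.diag_unit hb (C.σ.symm a)).unit ^ C.p) fun a => by
      obtain ⟨a, rfl⟩ := C.σ.surjective a
      rw [fr_val, Equiv.symm_apply_apply, Units.val_pow_eq_pow_val, IsUnit.unit_spec],
    ← Units.val_pow_eq_pow_val, ← Units.val_mul, ← Finset.prod_pow, ← Finset.prod_mul_distrib,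
    ← Equiv.prod_comp C.σ fun a => ((B.diag_unit hb (C.σ.symm a)).unit ^ C.p) ^ ψ a]
  refine congrArg _ (Finset.prod_congr rfl fun a _ => ?_)
  simp only [Equiv.symm_apply_apply]
  rw [← zpow_natCast, ← zpow_natCast, ← _root_.zpow_mul, ← _root_.zpow_mul, ← _root_.zpow_add]
  exact congrArg _ (by linear_combination h a)

/-- EXF.  Paper 5 (e).  For a simple root `s` of `L`, `coch (cv s) z = emb s z 0 0 z⁻¹` is a product of
root elements of `L`, so `⟨μ, cv s⟩ = 0` (`tri`, `chi_coch`, `eq_zero_of_zpow`).  On the test curve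
over the field `k(X)`: `⟨μ, η⟩ = 0` (`tx_spec`, `lev`, `tri`, `eq_zero_of_poly`).  `exists_psi`,
`exists_char`; at the generic point (`UR.gen`) `d ^ N * Ψ m = c ^ N`. -/
theorem NoZero.isUnit (h : NoZero d)
    (h0 : ∀ β : C.Sp, C.TopQ β → 𝒢.ev (C.gb β (0 : C.k)) d ≠ 0) : IsUnit d := by
  obtain ⟨c, μ, hc, hμ⟩ := h.torus
  have h1 : ∀ s : C.Sp, (C.lo s.i ↔ C.lo s.j) → ∑ a, μ a * C.cv s.i s.j a = 0 := fun s hs => by
    refine eq_zero_of_zpow (k := C.k) fun z => Units.ext (mul_left_cancel₀ hc ?_)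
    have e := exf_coroot h hs z
    rw [hμ _ _ (coch_mem (cv_rev s.ne) z), hμ _ _ (one_mem _), chi_coch (cv_rev s.ne), chi_one] at e
    exact e
  have h2 : ∀ β : C.Sp, C.TopQ β → ∃ M η, C.IsEta β.i β.j M η ∧ ∑ a, μ a * η a = 0 := by
    intro β hβ
    obtain ⟨M, η, hη⟩ := exists_isEta β.i β.j
    obtain ⟨Ω, _, _, _, j, hj, -⟩ := exists_closure C.k (Polynomial C.k)
    have hX : j Polynomial.X ≠ 0 := (map_ne_zero_iff j hj).2 Polynomial.X_ne_zero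
    refine ⟨M, η, hη, eq_zero_of_poly j hj (τ := Units.mk0 _ hX) rfl
      (P := 𝒢.ev (C.gb β (Polynomial.X ^ M)) d) (c := c) ?_ ?_⟩
    · have e := DFunLike.congr_fun (𝒢.ev_comp (Polynomial.aeval (0 : C.k))
        (gb_mem β ((Polynomial.X : Polynomial C.k) ^ M))) d
      rw [AlgHom.comp_apply, ← Polynomial.coeff_zero_eq_aeval_zero, gb_map, map_pow,
        RingHom.coe_coe, Polynomial.aeval_X, zero_pow hη.1.ne'] at e
      rw [e]
      exact h0 β hβ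
    · have e := DFunLike.congr_fun (𝒢.ev_comp j
        (gb_mem β ((Polynomial.X : Polynomial C.k) ^ M))) d
      rw [AlgHom.comp_apply, gb_map, map_pow] at e
      rw [e, ← chi_coch (hη.rev β.ne), ← hμ _ _ (coch_mem (hη.rev β.ne) _)]
      exact exf_curve h hβ hη (Units.mk0 _ hX)
  obtain ⟨N, ψ, hN, hψ, hψ'⟩ := exists_psi μ h1 h2
  obtain ⟨Ψ, p1, p2, p3⟩ := exists_char ψ hψ'
  obtain ⟨Ω, _, _, _, e, he, -⟩ := exists_closure C.k 𝒢.R
  obtain ⟨x, y, u, b, g1, g2, g3, g4, g5, g6⟩ := 𝒢.gen e he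
  obtain ⟨t, ht, dt⟩ := exf_diag (Or.inl g4)
  obtain ⟨t', ht', dt'⟩ := exf_diag (Or.inr (U_le_Bp g5))
  have e1 : e d = algebraMap C.k Ω c * C.chi μ (t * t') := by
    have := h.tri (one_mem _) g3 (U_le_L g5) (Or.inl g4) (Or.inr (U_le_Bp g5)) ht ht' dt dt'
    rw [mul_one, mul_one, ← g6, ← h.lev g1, ← g2, 𝒢.ev_ma] at this
    rw [this, hμ _ _ (mul_mem ht ht')]
  have one : ∀ r : GL C.I Ω, r ∈ C.B Ω ∨ r ∈ C.Bp Ω → (∀ a, r.val a a = 1) → (Ψ Ω r : Ω) = 1 :=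
    fun r hr hd => by
      rw [p3 Ω r 1 hr (one_mem _) fun a => by rw [hd, Units.val_one, Matrix.one_apply_eq], chi_one]
  have e2 : (Ψ Ω x : Ω) = C.chi ψ (t * t') := by
    have hr := lev_inv_mul g1.memP
    rw [← mul_inv_cancel_left (C.lev x) x, p2 _ _ _ (Pat.le_G (lev_mem (Or.inl g1.memP)))
      (Pat.le_G hr.1), Units.val_mul, one _ (Or.inl hr.1) hr.2, mul_one, g6,
      p2 _ _ _ (Pat.le_G g3) (Pat.le_G g5), Units.val_mul, p3 Ω u t (Or.inl g4) ht dt,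
      p3 Ω b t' (Or.inr (U_le_Bp g5)) ht' dt', chi_mul _ (T_le ht) (T_le ht')]
  have e3 : (Ψ Ω y : Ω) = C.chi ψ (C.fr (t * t')) := by
    have hq := g1.memQ
    have hm : C.lq' y ∈ C.Q Ω := M_le_Q (Lv.lev_mem ovQ hq)
    have hr : (C.lq' y)⁻¹ * y ∈ C.Q Ω := mul_mem (inv_mem hm) hq
    have hl : C.lvM.lev ((C.lq' y)⁻¹ * y) = 1 := Lv.lev_lev_inv_mul ovQ hq
    have hb : (C.lq' y)⁻¹ * y ∈ C.Bp Ω := Lv.mem_of_lev ovQ hr (by rw [hl]; exact one_mem _)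
      fun a b hab r1 r2 => (C.lt_of_lq hab (by_contra fun n => r2 (iff_of_false n fun m => n (r1 m)))
        fun m => r2 (iff_of_true (r1 m) m)).le
    have fd : ∀ {v w : GL C.I Ω}, (∀ a, v.val a a = w.val a a) →
        ∀ a, (C.fr v).val a a = (C.fr w).val a a := fun {v w} hvw a => by
      obtain ⟨a, rfl⟩ := C.σ.surjective a
      rw [fr_val, fr_val, hvw]
    rw [← mul_inv_cancel_left (C.lq' y) y, p2 _ _ _ (Pat.le_G hm) (Pat.le_G hb), Units.val_mul,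
      one _ (Or.inr hb) fun a => by
        rw [← Lv.lev_diag ovQ hr, hl, Units.val_one, Matrix.one_apply_eq],
      mul_one, (E_iff.1 g1).2.2, g6, map_mul, map_mul,
      p2 _ _ _ (fr_G (Pat.le_G g3)) (fr_G (Pat.le_G g5)), Units.val_mul,
      p3 Ω _ _ (Or.inl (fr_B g4)) (fr_T ht) (fd dt),
      p3 Ω _ _ (Or.inr (fr_Bp (U_le_Bp g5))) (fr_T ht') (fd dt'),
      chi_mul _ (T_le (fr_T ht)) (T_le (fr_T ht'))]
  have e4 : e (Ψ _ 𝒢.m) * (Ψ Ω y : Ω) = Ψ Ω x := by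
    rw [← RingHom.coe_coe e, ← p1 _ _ (e : 𝒢.R →+* Ω) _ 𝒢.mem, ← Units.val_mul,
      ← p2 _ _ _ (Pat.map _ 𝒢.mem) (Pat.le_G g1.memQ), g2, inv_mul_cancel_right]
  have e5 : d ^ N * Ψ _ 𝒢.m = algebraMap C.k 𝒢.R (c ^ N) := by
    refine he (mul_right_cancel₀ (Ψ Ω y).ne_zero ?_)
    rw [map_mul, mul_assoc, e4, e.commutes, map_pow, map_pow, e1, e2, e3, mul_pow, mul_assoc,
      exf_chi_fr hψ (mul_mem ht ht')]
  have e6 : IsUnit (d ^ N * Ψ _ 𝒢.m) := e5 ▸ (pow_ne_zero N hc).isUnit.map _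
  exact (isUnit_pow_iff hN.ne').1 (isUnit_of_mul_isUnit_left e6)

theorem exg_univ {g : GL C.I S} (hg : g ∈ C.G S) : ∃ (T T' : Type) (_ : CommRing T) (_ : CommRing T')
    (_ : Algebra C.k T) (_ : Algebra C.k T') (j : S →ₐ[C.k] T) (π : T →ₐ[C.k] S) (θ : T →ₐ[C.k] T')
    (g' : GL C.I T) (x y : GL C.I T'), g' ∈ C.G T ∧ C.E x y ∧ Function.Injective θ ∧
      C.ma θ g' = x * y⁻¹ ∧ C.ma π g' = g ∧ ∀ a, C.ma π (C.ma j a) = a := by
  obtain ⟨𝒢⟩ := exists_UR C.rG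
  obtain ⟨ℰ⟩ := exists_VE (C := C)
  refine ⟨𝒢.R ⊗[C.k] S, ℰ.R ⊗[C.k] S, inferInstance, inferInstance, inferInstance, inferInstance,
    Algebra.TensorProduct.includeRight,
    Algebra.TensorProduct.lift (𝒢.ev g) (AlgHom.id C.k S) fun _ _ => Commute.all _ _,
    Algebra.TensorProduct.map (o1 𝒢 ℰ) (AlgHom.id C.k S),
    C.ma Algebra.TensorProduct.includeLeft 𝒢.m, _, _, Pat.map _ 𝒢.mem,
    ℰ.he.map (Algebra.TensorProduct.includeLeft : ℰ.R →ₐ[C.k] ℰ.R ⊗[C.k] S),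
    tensor_map_injective _ (o1_inj 𝒢 ℰ), ?_, ?_, fun a => C.gl_ext fun i j => by simp⟩
  · rw [zipa_ma_comp, Algebra.TensorProduct.map_comp_includeLeft, ← zipa_ma_comp, o1,
      𝒢.ev_m ℰ.he.mem_G', map_mul, map_inv]
  · rw [zipa_ma_comp, Algebra.TensorProduct.lift_comp_includeLeft, 𝒢.ev_m hg]

theorem exg_ev (f : S →ₐ[C.k] S') {g a : GL C.I S} (hg : g ∈ C.G S) (ha : a ∈ C.P S) :
    f (ev2 (𝒢.ev g) a F) = ev2 (𝒢.ev (C.ma f g)) (C.ma f a) F := by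
  rw [← ev2_nat f _ ha, 𝒢.ev_comp f hg]

theorem Adm.equi (h : Adm 𝒢 v q 1 F) {g a b : GL C.I S} (hg : g ∈ C.G S) (ha : a ∈ C.P S)
    (hb : b ∈ C.B S) : ev2 (𝒢.ev g) (a * b) F * C.chi ((Fintype.card C.Gam * q) • lam) b =
      ev2 (𝒢.ev g) a F := by
  obtain ⟨T, T', _, _, _, _, j, π, θ, g', x, y, hg', he, hθ, h1, h2, h3⟩ := exg_univ hg
  have ha0 : C.ma j a ∈ C.P T := Pat.map _ ha
  have hb0 : C.ma j b ∈ C.B T := Pat.map _ hb
  have hab : C.ma j a * C.ma j b ∈ C.P T := mul_mem ha0 (B_le_P hb0)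
  have ha1 : C.ma θ (C.ma j a) ∈ C.P T' := Pat.map _ ha0
  have hb1 : C.ma θ (C.ma j b) ∈ C.B T' := Pat.map _ hb0
  have key : ev2 (𝒢.ev g') (C.ma j a * C.ma j b) F *
      C.chi ((Fintype.card C.Gam * q) • lam) (C.ma j b) = ev2 (𝒢.ev g') (C.ma j a) F := by
    apply hθ
    have c := chi_mp ((Fintype.card C.Gam * q) • lam) (θ : T →+* T') (C.ma j b)
    rw [RingHom.coe_coe] at c
    rw [map_mul, exg_ev θ hg' hab, exg_ev θ hg' ha0, ← c, h1, map_mul,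
      h _ _ _ _ he (mul_mem ha1 (B_le_P hb1)), h _ _ _ _ he ha1, mul_comm (Fintype.card C.Gam),
      mul_smul, chi_nsmul _ _ hb1, mul_assoc, ← mul_pow, nm_equi v he.memP ha1 hb1]
  have c := chi_mp ((Fintype.card C.Gam * q) • lam) (π : T →+* S) (C.ma j b)
  rw [RingHom.coe_coe] at c
  have k2 := congrArg π key
  rwa [map_mul, exg_ev π hg' hab, exg_ev π hg' ha0, ← c, h2, map_mul, h3, h3] at k2

theorem Adm.inv (h : Adm 𝒢 v q 1 F) {g a x₀ y₀ : GL C.I S} (hg : g ∈ C.G S) (ha : a ∈ C.P S)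
    (h₀ : C.E x₀ y₀) : ev2 (𝒢.ev (x₀ * g * y₀⁻¹)) a F = ev2 (𝒢.ev g) (x₀⁻¹ * a) F := by
  obtain ⟨T, T', _, _, _, _, j, π, θ, g', x, y, hg', he, hθ, h1, h2, h3⟩ := exg_univ hg
  have ha0 : C.ma j a ∈ C.P T := Pat.map _ ha
  have he0 : C.E (C.ma j x₀) (C.ma j y₀) := h₀.map _
  have he1 : C.E (C.ma θ (C.ma j x₀)) (C.ma θ (C.ma j y₀)) := he0.map _
  have hxa := mul_mem (inv_mem he0.memP) ha0
  have key : ev2 (𝒢.ev (C.ma j x₀ * g' * (C.ma j y₀)⁻¹)) (C.ma j a) F =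
      ev2 (𝒢.ev g') ((C.ma j x₀)⁻¹ * C.ma j a) F := by
    apply hθ
    rw [exg_ev θ (he0.mem_G hg') ha0, exg_ev θ hg' hxa, h1, h _ _ _ _ he (Pat.map _ hxa), map_mul,
      map_mul, map_inv, h1, ← mul_assoc, mul_assoc _ y⁻¹, ← _root_.mul_inv_rev,
      h _ _ _ _ (he1.mul he) (Pat.map _ ha0), map_one, map_one, nm_mul, map_mul, map_inv]
  have k2 := congrArg π key
  rwa [exg_ev π (he0.mem_G hg') ha0, exg_ev π hg' hxa, map_mul, map_mul, map_mul, map_inv, map_inv,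
    h2, h3, h3, h3] at k2

theorem Adm.zipSec (h : Adm 𝒢 v q 1 F) (hv : v.Nonzero) :
    ∃ F : C.ZipSec C.p C.k ((Fintype.card C.Gam * q) • lam), F.Nonzero := by
  refine ⟨⟨fun S _ ξ g a => letI := ξ.toAlgebra; ev2 (𝒢.ev g) a F, ?_, ?_, ?_⟩, ?_⟩
  · intro S S' _ _ h ξ g a hg ha
    let _ := ξ.toAlgebra
    let _ := (h.comp ξ).toAlgebra
    let f : S →ₐ[C.k] S' := { h with commutes' := fun _ => rfl }
    exact (exg_ev f (mem_G.2 hg) (mem_P.2 ha)).symm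
  · intro S _ ξ g a b hg ha hb
    let _ := ξ.toAlgebra
    exact h.equi (mem_G.2 hg) (mem_P.2 ha) (mem_B.2 hb)
  · intro S _ ξ g a x y hg ha hxy
    let _ := ξ.toAlgebra
    exact h.inv (mem_G.2 hg) (mem_P.2 ha) hxy
  · refine ⟨C.RL, inferInstance, algebraMap C.k C.RL, 1, C.m0, Datum.InG.one,
      mem_P.1 (L_le_P m0_mem), fun h0 => pow_ne_zero q (nm_ne v hv) ?_⟩
    have h2 := @h C.RL _ (algebraMap C.k C.RL).toAlgebra 1 1 C.m0 E.one (L_le_P m0_mem)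
    rw [map_one, one_mul, inv_one, one_mul] at h2
    exact h2.symm.trans h0

end Rel

theorem exists_zipSec (v : C.Fn C.k lam) (hv : v.Nonzero) (H : TInt v) :
    ∃ m : ℕ, 1 ≤ m ∧ ∃ F : C.ZipSec C.p C.k (m • lam), F.Nonzero := by
  obtain ⟨𝒢⟩ := exists_UR C.rG
  obtain ⟨q, d, F, hq, h⟩ := exists_minAdm 𝒢 v
  obtain ⟨u, rfl⟩ := NoZero.isUnit (fun S _ _ x y he => h.unit he) fun β hβ => h.ne_gb H hβ
  have h1 := h.adm.mul (u⁻¹ : 𝒢.Rˣ)
  rw [Units.mul_inv] at h1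
  exact ⟨_, Nat.mul_pos Fintype.card_pos hq, h1.zipSec hv⟩

end Ctx

end Pool.Agent.MP_b8b722_ag

end

end partExt
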