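import Mathlib

/-!
The definitions of the statement: PEL data of type A,
the groups `G ⊇ P, Q, B` and the zip group `E` on points, induced representations as natural
functions, morphisms to the stack of `G`-zips as cocycles.
-/

open AlgebraicGeometry CategoryTheory Matrix

noncomputable section

namespace Pool.Agent.MP_b8b722_ag.St

/-- Basis vectors `0, …, 2g-1`, grouped into blocks by `blk`; `rev` exchanges every block with a
different dual block; `σ` is the permutation of the basis induced by Frobenius. -/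
structure Datum (g : ℕ) where
  blk : Fin (g + g) → ℕ
  σ : Equiv.Perm (Fin (g + g))
  blk_rev : ∀ a b, blk a = blk b → blk a.rev = blk b.rev
  blk_ne : ∀ a, blk a.rev ≠ blk a
  σ_rev : ∀ a, σ a.rev = (σ a).rev
  σ_blk : ∀ a b, blk (σ a) = blk (σ b) ↔ blk a = blk b
  σ_mono : ∀ a b, blk a = blk b → a < b → σ a < σ b

/-- the ring of functions on an open subset -/
abbrev Rg {X : Scheme.{0}} (U : X.Opens) : CommRingCat.{0} := Γ(X, U)

/-- restriction of functions -/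
def res {X : Scheme.{0}} {U V : X.Opens} (h : V ≤ U) : Rg U →+* Rg V :=
  (X.presheaf.map (homOfLE h).op).hom

/-- constants as functions on an open subset of a `k`-scheme -/
def cst {k : Type} [Field k] {X : Scheme.{0}} (π : X ⟶ Spec (CommRingCat.of k)) (U : X.Opens) :
    k →+* Rg U :=
  (res le_top).comp (π.appTop.hom.comp (Scheme.ΓSpecIso (CommRingCat.of k)).inv.hom)

/-- the point of an affine open subset given by a field valued point -/
def pnt {X : Scheme.{0}} {U : X.Opens} (hU : IsAffineOpen U) {F : Type} [Field F]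
    (ξ : Rg U →+* F) : X :=
  hU.fromSpec ⟨RingHom.ker ξ, RingHom.ker_isPrime ξ⟩

/-- base change of invertible matrices -/
def mp {g : ℕ} {S S' : Type} [CommRing S] [CommRing S'] (f : S →+* S')
    (x : GL (Fin (g + g)) S) : GL (Fin (g + g)) S' :=
  Matrix.GeneralLinearGroup.map f x

/-- the antidiagonal pairing between dual blocks -/
def J (g : ℕ) (S : Type) [CommRing S] : Matrix (Fin (g + g)) (Fin (g + g)) S :=
  Matrix.of fun a b => if b = a.rev then 1 else 0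

/-- the character `∏ b_aa ^ ν a` of `B` -/
def chi {g : ℕ} {S : Type} [CommRing S] (ν : Fin (g + g) → ℤ) (b : GL (Fin (g + g)) S) : S :=
  ∏ a, b.val a a ^ (ν a).toNat * b⁻¹.val a a ^ (-ν a).toNat

namespace Datum

variable {g : ℕ} (D : Datum g) {S : Type} [CommRing S]

/-- block diagonal similitudes -/
def InG (x : GL (Fin (g + g)) S) : Prop :=
  (∀ a b, D.blk a ≠ D.blk b → x.val a b = 0) ∧
    ∃ c : Sˣ, x.valᵀ * J g S * x.val = c.val • J g S

def InB (x : GL (Fin (g + g)) S) : Prop := D.InG x ∧ ∀ a b, a < b → x.val a b = 0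

def InP (x : GL (Fin (g + g)) S) : Prop :=
  D.InG x ∧ ∀ a b, a.val < g → g ≤ b.val → x.val a b = 0

def InQ (x : GL (Fin (g + g)) S) : Prop :=
  D.InG x ∧ ∀ a b, g ≤ a.val → b.val < g → x.val (D.σ a) (D.σ b) = 0

/-- the zip group: the Levi part of `y` is the Frobenius twist of the Levi part of `x` -/
def InE (p : ℕ) (x y : GL (Fin (g + g)) S) : Prop :=
  D.InP x ∧ D.InQ y ∧
    ∀ a b, (a.val < g ↔ b.val < g) → y.val (D.σ a) (D.σ b) = x.val a b ^ p

/-- elements of `R ⊗ Ind_B^P ν`: functions on `Spec R × P` with `f (a b) = ν(b)⁻¹ f a` -/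
structure Fn (R : Type) [CommRing R] (ν : Fin (g + g) → ℤ) where
  f : ∀ (S : Type) [CommRing S], (R →+* S) → GL (Fin (g + g)) S → S
  nat : ∀ (S S' : Type) [CommRing S] [CommRing S'] (h : S →+* S') (ξ : R →+* S)
    (a : GL (Fin (g + g)) S), D.InP a → f S' (h.comp ξ) (mp h a) = h (f S ξ a)
  equi : ∀ (S : Type) [CommRing S] (ξ : R →+* S) (a b : GL (Fin (g + g)) S),
    D.InP a → D.InB b → f S ξ (a * b) * chi ν b = f S ξ a

def Fn.Nonzero {R : Type} [CommRing R] {ν : Fin (g + g) → ℤ} (s : D.Fn R ν) : Prop :=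
  ∃ (S : Type) (_ : CommRing S) (ξ : R →+* S) (a : GL (Fin (g + g)) S), D.InP a ∧ s.f S ξ a ≠ 0

/-- global sections of `V_I(ν)` on `G-Zip = [E \ G]`: `E`-equivariant maps `G → Ind_B^P ν` -/
structure ZipSec (p : ℕ) (k : Type) [Field k] (ν : Fin (g + g) → ℤ) where
  f : ∀ (S : Type) [CommRing S], (k →+* S) → GL (Fin (g + g)) S → GL (Fin (g + g)) S → S
  nat : ∀ (S S' : Type) [CommRing S] [CommRing S'] (h : S →+* S') (ξ : k →+* S)
    (u a : GL (Fin (g + g)) S),
    D.InG u → D.InP a → f S' (h.comp ξ) (mp h u) (mp h a) = h (f S ξ u a)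
  equi : ∀ (S : Type) [CommRing S] (ξ : k →+* S) (u a b : GL (Fin (g + g)) S),
    D.InG u → D.InP a → D.InB b → f S ξ u (a * b) * chi ν b = f S ξ u a
  inv : ∀ (S : Type) [CommRing S] (ξ : k →+* S) (u a x y : GL (Fin (g + g)) S),
    D.InG u → D.InP a → D.InE p x y → f S ξ (x * u * y⁻¹) a = f S ξ u (x⁻¹ * a)

def ZipSec.Nonzero {p : ℕ} {k : Type} [Field k] {ν : Fin (g + g) → ℤ} (F : D.ZipSec p k ν) :
    Prop :=
  ∃ (S : Type) (_ : CommRing S) (ξ : k →+* S) (u a : GL (Fin (g + g)) S),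
    D.InG u ∧ D.InP a ∧ F.f S ξ u a ≠ 0

/-- a morphism `X → [E \ G]`: an `E`-torsor trivialised on an affine open cover, with an
equivariant map to `G` -/
structure ZipMap (p : ℕ) (X : Scheme.{0}) where
  ι : Type
  U : ι → X.Opens
  affine : ∀ i, IsAffineOpen (U i)
  cover : ⨆ i, U i = ⊤
  u : ∀ i, GL (Fin (g + g)) (Rg (U i))
  x : ∀ i j, GL (Fin (g + g)) (Rg (U i ⊓ U j))
  y : ∀ i j, GL (Fin (g + g)) (Rg (U i ⊓ U j))
  u_mem : ∀ i, D.InG (u i)
  xy_mem : ∀ i j, D.InE p (x i j) (y i j)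
  glue : ∀ i j, mp (res inf_le_left) (u i) = x i j * mp (res inf_le_right) (u j) * (y i j)⁻¹
  cocycle : ∀ i j l (V : X.Opens) (hi : V ≤ U i) (hj : V ≤ U j) (hl : V ≤ U l),
    mp (res (le_inf hi hl)) (x i l) =
      mp (res (le_inf hi hj)) (x i j) * mp (res (le_inf hj hl)) (x j l) ∧
    mp (res (le_inf hi hl)) (y i l) =
      mp (res (le_inf hi hj)) (y i j) * mp (res (le_inf hj hl)) (y j l)

/-- `z = w_{0,J} w_0` as a permutation, `J = σ I` -/
def IsFrame (z : Equiv.Perm (Fin (g + g))) : Prop :=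
  (∀ a, D.blk (z a) = D.blk a) ∧ ∀ a b, D.blk a = D.blk b → a < b →
    (g ≤ (D.σ.symm (z a)).val ∧ (D.σ.symm (z b)).val < g) ∨
      (((D.σ.symm (z a)).val < g ↔ (D.σ.symm (z b)).val < g) ∧ z a < z b)

/-- the signature `(r a, s a)` of the block of `a` -/
def r (a : Fin (g + g)) : ℕ := (Finset.univ.filter fun b => D.blk b = D.blk a ∧ b.val < g).card

def s (a : Fin (g + g)) : ℕ := (Finset.univ.filter fun b => D.blk b = D.blk a ∧ g ≤ b.val).card

/-- the condition on the signatures -/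
def Sig : Prop :=
  ∀ (a : Fin (g + g)) (n : ℕ), 0 < D.r a → 0 < D.s a → 0 < D.r ((D.σ ^ n) a) → 0 < D.s ((D.σ ^ n) a) →
    D.r ((D.σ ^ n) a) = D.r a ∨ (D.blk ((D.σ ^ n) a) = D.blk a.rev ∧
      (D.r a = 1 ∨ D.s a = 1 ∨ D.r a = D.s a + 1 ∨ D.s a = D.r a + 1))

/-- simple roots -/
def Simple (i j : Fin (g + g)) : Prop :=
  D.blk i = D.blk j ∧ i < j ∧ ∀ m, D.blk m = D.blk i → ¬ (i < m ∧ m < j)

/-- `h ∈ E · (B ∪ B s B) z⁻¹` for a simple reflection `s` -/
def Small (p : ℕ) (h : GL (Fin (g + g)) S) : Prop :=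
  ∃ z x y i j, D.IsFrame z ∧ D.InE p x y ∧ D.Simple i j ∧
    ∀ a b, a < b → (a, b) ≠ (i, j) → (a, b) ≠ (j.rev, i.rev) → (x * h * y⁻¹).val a (z b) = 0

namespace ZipMap

variable {D} {p : ℕ} {k : Type} [Field k] {X : Scheme.{0}} (Z : D.ZipMap p X)

/-- the maps `E × U i → G`, `(x, y, t) ↦ x u_i(t) y⁻¹` are formally smooth over `k` -/
def Smooth (π : X ⟶ Spec (CommRingCat.of k)) : Prop :=
  ∀ (i : Z.ι) (S S' : Type) [CommRing S] [CommRing S'] (κ : k →+* S) (f : S →+* S'),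
    Function.Surjective f → RingHom.ker f ^ 2 = ⊥ →
    ∀ (ξ' : Rg (Z.U i) →+* S') (x' y' : GL (Fin (g + g)) S') (h : GL (Fin (g + g)) S),
      ξ'.comp (cst π (Z.U i)) = f.comp κ → D.InE p x' y' → D.InG h →
      mp f h = x' * mp ξ' (Z.u i) * y'⁻¹ →
      ∃ (ξ : Rg (Z.U i) →+* S) (x y : GL (Fin (g + g)) S), ξ.comp (cst π (Z.U i)) = κ ∧
        f.comp ξ = ξ' ∧ D.InE p x y ∧ mp f x = x' ∧ mp f y = y' ∧ h = x * mp ξ (Z.u i) * y⁻¹

/-- every `E(k)`-orbit in `G(k)` is hit by a `k`-point -/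
def Surj (π : X ⟶ Spec (CommRingCat.of k)) : Prop :=
  ∀ h : GL (Fin (g + g)) k, D.InG h →
    ∃ (i : Z.ι) (ξ : Rg (Z.U i) →+* k) (x y : GL (Fin (g + g)) k),
      ξ.comp (cst π (Z.U i)) = RingHom.id k ∧ D.InE p x y ∧ h = x * mp ξ (Z.u i) * y⁻¹

/-- the points lying under a flag stratum of length at most one are in the image of a proper
`k`-scheme -/
def SmallProper (π : X ⟶ Spec (CommRingCat.of k)) : Prop :=
  ∃ (W : Scheme.{0}) (q : W ⟶ X), IsProper (q ≫ π) ∧
    ∀ (i : Z.ι) (F : Type) [Field F] (ξ : Rg (Z.U i) →+* F), D.Small p (mp ξ (Z.u i)) →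
      ∃ w : W, q w = pnt (Z.affine i) ξ

/-- global sections of the pull-back of `V_I(ν)` -/
structure Sec (ν : Fin (g + g) → ℤ) where
  s : ∀ i, D.Fn (Rg (Z.U i)) ν
  glue : ∀ i j (S : Type) [CommRing S] (ξ : Rg (Z.U i ⊓ Z.U j) →+* S) (a : GL (Fin (g + g)) S),
    D.InP a → (s i).f S (ξ.comp (res inf_le_left)) a =
      (s j).f S (ξ.comp (res inf_le_right)) ((mp ξ (Z.x i j))⁻¹ * a)

end ZipMap

end Datum

end Pool.Agent.MP_b8b722_ag.St
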