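import Pool.Agent.MP_b8b722_ag.A8
import Pool.Agent.MP_b8b722_ag.A9
import Pool.Agent.MP_b8b722_ag.A5
import Pool.Agent.MP_b8b722_ag.Stmt

attribute [-instance] NonUnitalRingHomClass.toMulHomClass ESeminormedCommMonoid.toCommMonoid
  AlgHom.instNonUnitalAlgHomClassOfAlgHomClass AddMonoidAlgebra.distribMulAction
  Algebra.to_smulCommClass ContinuousMonoidHom.instCoeOutOfMonoidHomClassOfContinuousMapClass
  littleWedderburn CommMonTypeEquivalenceCommMon.commMonCommMonoid MonTypeEquivalenceMon.monMonoid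
  IdemSemiring.toSemiring NeZero.charZero_one RingConeClass.toSubsemiringClass
  ValuationClass.toMonoidWithZeroHomClass NonUnitalAlgSemiHomClass.toMulHomClass
  MulCharClass.toMonoidHomClass MulRingSeminormClass.toMonoidWithZeroHomClass
  CommGrpTypeEquivalenceCommGrp.commGrpCommGroup RKHS.instFunLike instCoeTCOfCoe
  instCommGroupOfIsSimpleGroupOfIsNilpotent Algebra.TensorProduct.instNonAssocSemiring
  SeminormedCommRing.toCommRing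

section partMain

/-!
The cone conjecture.
-/

set_option linter.unusedSectionVars false
set_option linter.unusedVariables false

open AlgebraicGeometry CategoryTheory Matrix

noncomputable section

namespace Pool.Agent.MP_b8b722_ag

namespace Ctx

variable {C : Ctx} {lam : C.I → ℤ}

theorem tr_tr {R : Type} [CommRing R] (s : C.Fn R lam) {x y z : GL C.I R} (hx : x ∈ C.P R)
    (hy : y ∈ C.P R) (hz : z ∈ C.P R) (e : z = x * y) : (s.tr x hx).tr y hy = s.tr z hz := by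
  subst e
  unfold Datum.Fn.tr
  congr 1
  funext S _ ξ a
  rw [map_mul, mul_assoc]

theorem exists_triv (𝒜 : C.Atlas) (h𝒜 : 𝒜.Alg) (s : 𝒜.Sec lam) :
    ∃ 𝒜' : C.Atlas, 𝒜'.g0 = 1 ∧ 𝒜'.Alg ∧ Nonempty (𝒜'.Sec lam) := by
  obtain ⟨i, ξ, x₀, y₀, h₀, e₀⟩ := 𝒜.surj 1 (one_mem _)
  have := (𝒜.inj i).isDomain (𝒜.e i : 𝒜.A i →+* 𝒜.Ω)
  have h₁ : C.E (C.ct (𝒜.A i) x₀) (C.ct (𝒜.A i) y₀) := h₀.map _
  obtain ⟨x₁, y₁, -, -, h₂, e₂, -⟩ := gen_triv (g := C.ct _ x₀ * 𝒜.g i * (C.ct _ y₀)⁻¹)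
    (mul_mem (mul_mem (Pat.le_G h₁.memP) (𝒜.g_mem i)) (inv_mem (Pat.le_G h₁.memQ))) ξ
    (by rw [map_mul, map_mul, map_inv, ma_ct, ma_ct]; exact e₀.symm) (𝒜.e i) (𝒜.inj i)
  rw [map_mul, map_mul, map_inv, ma_ct, ma_ct, 𝒜.triv] at e₂
  obtain ⟨x, y, h, hg⟩ : ∃ x y, C.E x y ∧ 𝒜.g0 = x * y⁻¹ :=
    ⟨_, _, ((h₀.map (algebraMap C.k 𝒜.Ω)).mul (𝒜.xy i)).inv.mul h₂, by
      rw [eq_mul_inv_iff_mul_eq.1 e₂ |>.symm]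
      group⟩
  have key : ∀ (i : 𝒜.ι) (S : Type) [CommRing S] (ρ : 𝒜.Ω →+* S) (a : GL C.I S), a ∈ C.P S →
      (s.s i).f S (ρ.comp (𝒜.e i : 𝒜.A i →+* 𝒜.Ω)) (C.mp ρ (𝒜.x i * x) * a) =
        s.s0.f S ρ (C.mp ρ x * a) := fun i S _ ρ a ha => by
    rw [map_mul, mul_assoc]
    exact s.compat i S ρ (C.mp ρ x * a) (mul_mem (Pat.map ρ h.memP) ha)
  exact ⟨𝒜.retriv x y h hg, rfl, h𝒜, ⟨⟨s.s, s.s0.tr x h.memP, key, s.ne⟩⟩⟩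

namespace Atlas

variable {𝒜 : C.Atlas} {W : C.Wd}

theorem reg_of_ext (s : 𝒜.Sec lam) (G : 𝒜.GP W) {ν : C.I → ℤ}
    (h : IsExt (s.s0.tr G.ω.x G.pt.memP) ν) (ε : C.RL →ₗ[C.k] C.k) :
    Reg G ν (wtc_ct ε (uv (s.s0.tr G.ω.x G.pt.memP) ν)) := by
  intro i S _ _ ξ j a hj ha hb
  refine ⟨wtc_ct ε (uv (((s.s i).pull (ξ : 𝒜.A i →+* S)).tr a ha) ν), ?_⟩
  have hx : (𝒜.x i)⁻¹ * C.ma j a ∈ C.P 𝒜.Ω := mul_mem (inv_mem (𝒜.xy i).memP) (Pat.map _ ha)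
  rw [← h.uv hb ε, ← wtc_map, wtc_uv, tr_tr _ _ _ hx (by simp only [gp, Pt.act]; group),
    wtc_congr _ (s.s0.tr _ hx) ν (j : S →+* 𝒜.Ω) (fun S' _ ρ a' ha' => ?_) _ (wtc_m0 _)]
  · rfl
  have h1 := s.compat i S' ρ (C.mp ρ ((𝒜.x i)⁻¹ * C.ma j a) * a') (mul_mem (Pat.map ρ hx) ha')
  have e1 : (ρ.comp (j : S →+* 𝒜.Ω)).comp (ξ : 𝒜.A i →+* S) = ρ.comp (𝒜.e i : 𝒜.A i →+* 𝒜.Ω) := by
    rw [← hj]; rfl
  have e2 : C.mp ρ (𝒜.x i) * (C.mp ρ ((𝒜.x i)⁻¹ * C.ma j a) * a') =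
      C.mp (ρ.comp (j : S →+* 𝒜.Ω)) a * a' := by
    rw [← mul_assoc, ← map_mul, mul_inv_cancel_left, mp_comp]
  change (s.s i).f S' ((ρ.comp (j : S →+* 𝒜.Ω)).comp (ξ : 𝒜.A i →+* S))
    (C.mp (ρ.comp (j : S →+* 𝒜.Ω)) a * a') = _
  rw [e1, ← e2, h1]
  rfl

variable {Ω : Type} [Field Ω] [Algebra C.k Ω] [IsAlgClosed Ω] (ι : 𝒜.Ω →ₐ[C.k] Ω)

/-- base change of a section -/
def Sec.ext (s : 𝒜.Sec lam) : (𝒜.ext ι).Sec lam :=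
  ⟨s.s, s.s0.pull (ι : 𝒜.Ω →+* Ω), fun i S _ ρ a ha => s.compat i S (ρ.comp (ι : 𝒜.Ω →+* Ω)) a ha,
    s.ne⟩

/-- Paper 4: the order of vanishing along the last divisor -/
theorem regN (h1 : 𝒜.g0 = 1) (h𝒜 : 𝒜.Alg) (s0 : C.Fn 𝒜.Ω lam) {ξ : C.I → ℤ} (hξ : C.IsXi ξ)
    {N : Finset ℤ} {c : ℤ → C.Fn 𝒜.Ω lam} (hc : IsCmp s0 ξ N c) {n₀ : ℤ} (hn : ∀ n ∈ N, n₀ ≤ n)
    {β : C.Sp} (hβ : C.TopQ β) {l : Fin W.d} (hW : W.Last β l) {ω₀ : C.Pt Ω}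
    (h₀ : W.IsPt (C.ma ι 𝒜.g0) ω₀) (hG : W.ent ω₀ l ≠ 0) {ν : C.I → ℤ}
    (h : IsExt ((s0.pull (ι : 𝒜.Ω →+* Ω)).tr ω₀.x h₀.memP) ν) (ε : C.RL →ₗ[C.k] C.k)
    (V : Subalgebra C.k Ω) (hV : IsVal V) (i : 𝒜.ι) (ζ : 𝒜.A i →ₐ[C.k] V) (ω : C.Pt V)
    (hζ : V.val.comp ζ = ι.comp (𝒜.e i)) (hu : ∀ a, a ≠ 0 → IsUnit (ζ a))
    (hω : W.IsPt (C.ma ζ (𝒜.g i)) ω)
    (he : W.Eqv (ω₀.act (C.ma ι (𝒜.x i)) (C.ma ι (𝒜.y i))) (ω.map V.val)) (hop : W.Op ω)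
    (hl : ¬ IsUnit (W.ent ω l)) (f : Ω)
    (hf : f * C.chi ν ((ω₀.act (C.ma ι (𝒜.x i)) (C.ma ι (𝒜.y i))).x⁻¹ * C.ma V.val ω.x) =
      wtc_ct ε (uv ((s0.pull (ι : 𝒜.Ω →+* Ω)).tr ω₀.x h₀.memP) ν)) :
    f * (W.ent ω l : V).val ^ (-(n₀ - ∑ a, ν a * ξ (C.wI a))) ∈ V := by
  have := hV.isLocalRing
  have hι : ∀ x, ι x ∈ V := fun x => by
    obtain ⟨P, hP, hx⟩ := h𝒜 i x
    refine hV.mem_of_alg ζ hu hP ?_
    rw [hζ]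
    exact (Polynomial.hom_eval₂ P _ (ι : 𝒜.Ω →+* Ω) x).symm.trans (by rw [hx, map_zero])
  obtain ⟨ιV, hιV⟩ : ∃ ιV : 𝒜.Ω →ₐ[C.k] V, V.val.comp ιV = ι := ⟨ι.codRestrict V hι, rfl⟩
  have hE : C.E (C.ma ιV (𝒜.x i))⁻¹ (C.ma ιV (𝒜.y i))⁻¹ := ((𝒜.xy i).map _).inv
  have hω' := hω.act hE
  have e1 : C.ma ζ (𝒜.g i) = C.ma ιV (𝒜.x i) * (C.ma ιV (𝒜.y i))⁻¹ := by
    have : ζ = ιV.comp (𝒜.e i) := AlgHom.ext fun a => Subtype.ext (by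
      rw [← hιV] at hζ
      exact DFunLike.congr_fun hζ a)
    rw [this, ← map_inv, ← map_mul, ← mul_one (𝒜.x i), ← h1, ← 𝒜.triv]
    rfl
  rw [e1, inv_mul_cancel_left, mul_inv_cancel] at hω'
  obtain ⟨γ, hγ, y, -, hy⟩ := hW.loc hβ hω' (hop.act _ _) (by rwa [Wd.ent_act])
  obtain ⟨v, hv⟩ := hy.ent hω' l
  rw [Wd.ent_act, Wd.ent_gpt, if_neg (by rw [hW.hl]; exact lt_irrefl _)] at hv
  have hy0 : (y : Ω) ≠ 0 := fun h0 => by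
    obtain ⟨v', hv'⟩ := he.ent (h₀.act ((𝒜.xy i).map _)) l
    have h2 : W.ent ω l = 0 := v.mul_right_eq_zero.1 (by rw [← hv, show y = 0 from Subtype.ext h0, neg_zero])
    rw [Wd.ent_map, h2, map_zero, Wd.ent_act] at hv'
    exact hG (v'.mul_right_eq_zero.1 hv'.symm)
  have hb1 := he.1
  have hb2 := hy.1
  obtain ⟨b, hb⟩ : ∃ b, b = (ω.act (C.ma ιV (𝒜.x i))⁻¹ (C.ma ιV (𝒜.y i))⁻¹).x⁻¹ *
    (W.gpt (C.ct V γ * C.uf β y) y).x := ⟨_, rfl⟩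
  rw [← hb] at hb2
  have hb3 : C.ma V.val b ∈ C.B Ω := Pat.map _ hb2
  have h2 := h.uv (mul_mem hb1 hb3) ε
  have hx : C.ct Ω γ * C.uf β (Units.mk0 (y : Ω) hy0 : Ω) * C.pm Ω C.wI ∈ C.P Ω :=
    L_le_P (mul_mem (mul_mem (Pat.map _ hγ.1) (uf_spec hβ _).1) (pm_mem wI_isWL))
  rw [tr_tr _ _ _ hx ?_, star ι hc hξ hβ hγ _ hx rfl, chi_mul ν hb1 hb3, ← hf, mul_comm _ (C.chi ν _),
    ← mul_assoc] at h2
  · have h3 := (chi_unit ν hb1).mul_right_cancel h2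
    have h4 : (W.ent ω l : V).val = ((-v⁻¹ : Vˣ) : V).val * (y : Ω) := by
      rw [← v.inv_mul_cancel_left (W.ent ω l), ← hv, mul_neg, Units.val_neg, ← neg_mul]
      rfl
    rw [← h3, h4, mul_zpow, mul_comm _ ((y : Ω) ^ _), mul_mul_mul_comm, Finset.sum_mul]
    refine mul_mem (sum_mem fun n hn' => ?_) (mul_mem ?_ ?_)
    · obtain ⟨m, rfl⟩ : ∃ m : ℕ, n = n₀ + m := ⟨(n - n₀).toNat, by have := hn n hn'; omega⟩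
      rw [mul_right_comm, Units.val_zpow_eq_zpow_val, Units.val_mk0, ← zpow_add₀ hy0,
        show n₀ + m - ∑ a, ν a * ξ (C.wI a) + -(n₀ - ∑ a, ν a * ξ (C.wI a)) = m by ring,
        zpow_natCast]
      exact mul_mem (pow_mem y.2 m) (hι _)
    · rw [chi_mp]
      exact (C.chi ν b).2
    · have h5 := map_zpow (Units.map (V.val : V →* Ω)) (-v⁻¹) (-(n₀ - ∑ a, ν a * ξ (C.wI a)))
      have h6 := congrArg Units.val h5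
      rw [Units.val_zpow_eq_zpow_val] at h6
      exact h6 ▸ (((-v⁻¹) ^ (-(n₀ - ∑ a, ν a * ξ (C.wI a))) : Vˣ) : V).2
  · have h3 : C.ma V.val (C.ma ιV (𝒜.x i)) = C.ma ι (𝒜.x i) := by rw [← hιV]; rfl
    rw [hb, map_mul, map_inv, Wd.gpt_x, map_mul, map_mul, ma_ct, uf_map hβ, pm_mp]
    change _ = ω₀.x * ((C.ma ι (𝒜.x i) * ω₀.x)⁻¹ * C.ma V.val ω.x *
      ((C.ma V.val ((C.ma ιV (𝒜.x i))⁻¹ * ω.x))⁻¹ * _))
    rw [map_mul, map_inv, h3]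
    group
    rfl

/-- Paper 4: the inequality for the weights of the lowest component -/
theorem good (hD : C.Sig) (h1 : 𝒜.g0 = 1) (h𝒜 : 𝒜.Alg) (s : 𝒜.Sec lam) {ξ : C.I → ℤ}
    (hξ : C.IsXi ξ) {N : Finset ℤ} {c : ℤ → C.Fn 𝒜.Ω lam} (hc : IsCmp s.s0 ξ N c) {n₀ : ℤ}
    (hn₀ : n₀ ∈ N) (hn : ∀ n ∈ N, n₀ ≤ n) {β : C.Sp} (hβ : C.TopQ β) {M : ℕ} {η : C.I → ℤ}
    (hη : C.IsEta β.i β.j M η) {γ : GL C.I C.k} (hγ : γ ∈ C.Gam) {μ : C.I → ℤ}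
    (hμ : IsWt ((c n₀).tr (C.ct 𝒜.Ω (C.kg β γ)) (Pat.map _ (kg_mem hβ hγ))) μ) :
    yb β M η * n₀ ≤ ∑ a, μ a * (η (C.wI a) + yb β M η * ξ (C.wI a)) := by
  obtain ⟨Ω, _, _, _, ι, y, hy, ht⟩ := exists_trans (k := C.k) 𝒜.Ω
  obtain ⟨W, l, w1, w2, w3⟩ := exists_wd1 β.op
  have hW : W.Last β l := ⟨w1, w2, w3⟩
  obtain ⟨G, hG⟩ := exists_gp h1 ι hy hW hβ hγ
  have hne : β.i ≠ β.j := β.h.2.1.ne
  refine le_of_ext (((s.ext ι).s0).tr G.ω.x G.pt.memP) (fun a => ?_) (fun a b hb hl hab => ?_) _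
    (fun ν ε hν h0 => ?_) ?_
  · rw [wI_isWL.1.2, hη.rev hne, hξ.1]
    ring
  · exact hη.dom hβ hξ (by rw [wI_isWL.1.1, wI_isWL.1.1, hb])
      (by rw [wI_isWL.2, wI_isWL.2, hl]) ((wI_lt hb hl).2 hab)
  · have h2 := core h0 (reg_of_ext (s.ext ι) G hν ε) hD hβ hW hη
      (regN ι h1 h𝒜 s.s0 hξ hc hn hβ hW G.pt (by
        rw [hG, Wd.ent_gpt, if_neg (by rw [hW.hl]; exact lt_irrefl _)]
        exact neg_ne_zero.2 y.ne_zero) hν ε)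
    simp only [mul_add, Finset.sum_add_distrib, mul_left_comm _ (yb β M η), ← Finset.mul_sum]
    rw [mul_sub] at h2
    omega
  · obtain ⟨ε, hε⟩ := wtc_exists ((isWt_iff _ μ).1 hμ)
    refine (isWt_iff _ μ).2 fun h0 => hε (ht N (fun n => wtc_ct ε (uv ((c n).tr
      (C.ct 𝒜.Ω (C.kg β γ)) (Pat.map _ (kg_mem hβ hγ))) μ)) ?_ n₀ hn₀)
    have h2 := star ι hc hξ hβ hγ y G.pt.memP (by rw [hG]; rfl) μ ε
    have h3 : (0 : Ω) = _ := ((congrArg (wtc_ct ε) h0).trans (map_zero _)).symm.trans h2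
    rw [← mul_zero ((y ^ ∑ a, μ a * ξ (C.wI a) : Ωˣ) : Ω), h3, Finset.mul_sum]
    refine Finset.sum_congr rfl fun n _ => ?_
    rw [← mul_assoc, ← Units.val_mul, ← _root_.zpow_add, add_sub_cancel]

end Atlas

theorem main (C : Ctx) (hD : C.Sig) (X : Scheme.{0}) (π : X ⟶ Spec (CommRingCat.of C.k))
    [IsIntegral X] [LocallyOfFiniteType π] (Z : C.ZipMap C.p X) (hA : Z.Smooth π) (hB : Z.Surj π)
    (hC : Z.SmallProper π) (lam : C.I → ℤ) (s : Z.Sec lam) (hs : ∃ i, (s.s i).Nonzero) :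
    ∃ m : ℕ, 1 ≤ m ∧ ∃ F : C.ZipSec C.p C.k (m • lam), F.Nonzero := by
  obtain ⟨𝒜₀, h₀, ⟨s₀⟩⟩ := C.exists_atlas X π Z hA hB hC lam s hs
  obtain ⟨𝒜, h1, h𝒜, ⟨s₁⟩⟩ := exists_triv 𝒜₀ h₀ s₀
  obtain ⟨ξ, hξ⟩ := exists_isXi (C := C)
  obtain ⟨N, c, hc, hN⟩ := exists_cmp s₁.s0 hξ.1
  have hne : N.Nonempty := by
    obtain ⟨S, _, ρ, a, ha, h⟩ := s₁.nonzero
    have := hc S ρ 1 _ (mul_mem (T_le (coch_mem hξ.1 1)) (mem_P.2 ha))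
    rw [inv_mul_cancel_left] at this
    exact Finset.nonempty_of_sum_ne_zero (this ▸ h)
  obtain ⟨v, hv, h2, h3⟩ := exists_descent_fn _ (hN _ (N.min'_mem hne)).1
  exact exists_zipSec v hv (tInt_of hξ (h2 ξ _ hξ.1 (hN _ (N.min'_mem hne)).2)
    fun β M η hβ hη γ hγ μ hμ => Atlas.good hD h1 h𝒜 s₁ hξ hc (N.min'_mem hne) (N.min'_le · ·) hβ hη
      hγ (h3 _ _ μ hμ))

end Ctx

/-- the trivial case of the zero space -/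
theorem main_zero (D : Datum) (hg : D.g = 0) (p : ℕ) (k : Type) [Field k] (ν : D.I → ℤ) :
    ∃ F : D.ZipSec p k ν, F.Nonzero := by
  have hI : IsEmpty D.I := ⟨fun a => by have := a.isLt; omega⟩
  have hG : D.InG (1 : GL D.I k) := ⟨fun a => hI.elim a, 1, Subsingleton.elim _ _⟩
  refine ⟨⟨fun S _ _ _ _ => 1, fun _ _ _ _ h _ _ _ _ _ => (map_one h).symm,
    fun _ _ _ _ _ _ _ _ _ => by simp [Datum.chi], fun _ _ _ _ _ _ _ _ _ _ => rfl⟩,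
    k, inferInstance, RingHom.id k, 1, 1, hG, ⟨hG, fun a => hI.elim a⟩, one_ne_zero⟩

end Pool.Agent.MP_b8b722_ag

end

end partMain

section partBridge

/-!
Translation between the definitions of the statement and the bundled ones used in the proof.
-/

open AlgebraicGeometry CategoryTheory

noncomputable section

namespace Pool.Agent.MP_b8b722_ag.St.Datum

variable {g : ℕ} (D : St.Datum g)

def toD : MP_b8b722_ag.Datum := ⟨g, D.blk, D.σ, D.blk_rev, D.blk_ne, D.σ_rev, D.σ_blk, D.σ_mono⟩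

variable {D}

def Fn.toD {R : Type} [CommRing R] {ν : Fin (g + g) → ℤ} (s : D.Fn R ν) : D.toD.Fn R ν :=
  ⟨s.f, s.nat, s.equi⟩

def ofD {p : ℕ} {k : Type} [Field k] {ν : Fin (g + g) → ℤ} (F : D.toD.ZipSec p k ν) :
    D.ZipSec p k ν :=
  ⟨F.f, F.nat, F.equi, F.inv⟩

def ZipMap.toD {p : ℕ} {X : Scheme.{0}} (Z : D.ZipMap p X) : D.toD.ZipMap p X :=
  ⟨Z.ι, Z.U, Z.affine, Z.cover, Z.u, Z.x, Z.y, Z.u_mem, Z.xy_mem, Z.glue, Z.cocycle⟩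

def ZipMap.Sec.toD {p : ℕ} {X : Scheme.{0}} {Z : D.ZipMap p X} {ν : Fin (g + g) → ℤ}
    (s : Z.Sec ν) : Z.toD.Sec ν :=
  ⟨fun i => (s.s i).toD, s.glue⟩

end Pool.Agent.MP_b8b722_ag.St.Datum

end

end partBridge
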